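import Pool.Agent.P.MP_b8021b_nt.BP.StC

/-! The bilinear form in the short range. -/

namespace Pool.Agent.P.MP_b8021b_nt.BP

open NumberField IsDedekindDomain Finset MeasureTheory
open Pool.Agent.P.MP_b8021b_nt.VE Pool.Agent.P.MP_b8021b_nt.VC Pool.Agent.P.MP_b8021b_nt.BS.CF
open Pool.Agent.P.MP_b8021b_nt.BS
open scoped Classical ComplexConjugate Real

variable {k : Type} [Field k] [NumberField k] [Algebra k ℂ] {K : Type} [Field K] [NumberField K]
  [Algebra k K]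

namespace PBIL1

/-- the mean square for one block -/
theorem ms {T : Finset (𝓞 K)} {𝒩 : Finset (Ideal (𝓞 K))} {C X y e : ℝ} (hC : 0 ≤ C) (hX : 1 < X)
    (he : 0 < e) (hy : X ^ e ≤ y) (hT : (T.card : ℝ) ≤ C * y / Real.log y)
    (h : Hs T 𝒩 (C * y / Real.log y)) : MS T 𝒩 ((C / e * (y / Real.log X)) ^ 2) := by
  have h1 := Real.log_pos hX
  have h2 : 0 < X ^ e := by positivity
  have h3 := Real.log_le_log h2 hy
  rw [Real.log_rpow (by linarith)] at h3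
  have h4 : 0 < e * Real.log X := by positivity
  have h5 : 0 < y := by linarith
  have h6 : 0 ≤ C * y / Real.log y := div_nonneg (by positivity) (by linarith)
  have h7 : C * y / Real.log y ≤ C / e * (y / Real.log X) := by
    rw [div_mul_div_comm]
    gcongr
  intro a ha
  refine (ms_of_hs h h6 a ha).trans ?_
  rw [sq]
  exact mul_le_mul h7 (hT.trans h7) (Nat.cast_nonneg _) (h6.trans h7)

/-- the size of the coefficients -/
theorem coef (hDIV : Y_DIV K) : ∃ C : ℝ, 1 ≤ C ∧ ∀ (R : ℝ) (S : Finset (Pl K)), 1 ≤ R → R < nS S →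
    4 ^ S.card / √(nS S) ≤ C * R ^ (-(1 / 4 : ℝ)) := by
  obtain ⟨C, hC, h⟩ := hDIV.1 4 (1 / 4) (by norm_num) (by norm_num)
  refine ⟨C, hC, fun R S hR hS => ?_⟩
  have h1 := (h _ (eI_ne_bot S)).1
  have h2 := nS_pos S
  rw [prI_eI] at h1
  calc 4 ^ S.card / √(nS S) ≤ C * nS S ^ (1 / 4 : ℝ) / √(nS S) := by gcongr
    _ = C * nS S ^ (-(1 / 4 : ℝ)) := by
      rw [Real.sqrt_eq_rpow, mul_div_assoc, ← Real.rpow_sub h2]
      norm_num
    _ ≤ _ := mul_le_mul_of_nonneg_left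
      (Real.rpow_le_rpow_of_nonpos (by linarith) hS.le (by norm_num)) (by linarith)

end PBIL1

open PBIL1 in
theorem y_bIL1 (c : Cx k K) (hDIV : Y_DIV K) (hSLT : Y_SLT k K) (hBIL0 : Y_BIL0 K) :
    Y_BIL1 k K := by
  intro n 𝒜 C₀ hn
  obtain ⟨C, y₀, hC, -, hS⟩ := hSLT n 𝒜 C₀ hn
  obtain ⟨B, hB, hco⟩ := coef hDIV
  have e0 := c.et_pos
  have z0 := c.cz_pos
  obtain ⟨X₀, h3, hX₀⟩ := ev_log y₀ 0 e0
  have hCe : 1 ≤ C / et k K := (one_le_div e0).2 (by linarith [c.et_le])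
  refine ⟨B * (C / et k K) ^ 2, X₀, one_le_mul_of_one_le_of_one_le hB (one_le_pow₀ hCe),
    fun X R y₁ y₂ Γ T₁ T₂ a₁ a₂ F b 𝒮 hX hR hP hA h𝒮 => ?_⟩
  have X1 : 1 < X := by linarith
  have X0 : 0 < X := by linarith
  have hy : y₀ ≤ X ^ et k K := by simpa using hX₀ X hX
  obtain ⟨-, l1, p1, p2⟩ := c.lo hP X1.le
  have hm {y : ℝ} {T : Finset (𝓞 K)} (l : X ^ et k K ≤ y) (hb : Blk k n 𝒜 C₀ y T) :
      MS T ((ids K (X ^ (et k K * cz k K))).filter fun I => Squarefree I ∧ Cop n I)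
        ((C / et k K * (y / Real.log X)) ^ 2) := by
    obtain ⟨h1, h2⟩ := hS y T (hy.trans l) hb
    refine ms (by linarith) X1 e0 l h1 (h2 _ fun I hI => ?_)
    obtain ⟨h4, h5, h6⟩ := mem_filter.1 hI
    refine ⟨h5, h6, (mem_ids.1 h4).2.trans ?_⟩
    rw [Real.rpow_mul X0.le]
    exact Real.rpow_le_rpow (by positivity) l z0.le
  refine ((hBIL0 n T₁ T₂ a₁ a₂ F Γ b 𝒮 _ _ _ (B * R ^ (-(1 / 4 : ℝ))) hA (hm l1 hP.b1)
    (hm hP.lo2 hP.b2) (by positivity) fun S h => (hA.bd S).trans (hco R S hR (h𝒮 S h).1)).1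
    fun S h hb D hD => mem_filter.2 ⟨mem_ids.2 ⟨eI_ne_bot _, ?_⟩, squarefree_eI _,
      (cop_eI hn.pos).2 fun v hv => (mem_union.1 hv).elim (fun h => hP.cop v (hD h))
        ((hA.supp S hb).2 v)⟩).trans (le_of_eq ?_)
  · refine (nS_union_le D S).trans ((mul_le_mul ((nS_mono hD).trans hP.small) (h𝒮 S h).2
      (nS_pos S).le (by positivity)).trans (le_of_eq ?_))
    rw [← Real.rpow_add X0, add_halves]
  · have := Real.log_pos X1
    rw [← mul_pow, Real.sqrt_sq (by positivity)]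
    ring

end Pool.Agent.P.MP_b8021b_nt.BP
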