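import Pool.Agent.P.MP_b8021b_nt.BP.StC

namespace Pool.Agent.P.MP_b8021b_nt.BP

open NumberField IsDedekindDomain Finset MeasureTheory
open Pool.Agent.P.MP_b8021b_nt.VE Pool.Agent.P.MP_b8021b_nt.VC Pool.Agent.P.MP_b8021b_nt.BS.CF
open Pool.Agent.P.MP_b8021b_nt.BS
open scoped Classical ComplexConjugate Real
variable {k : Type} [Field k] [NumberField k] [Algebra k ℂ] {K : Type} [Field K] [NumberField K] [Algebra k K]

namespace PBIL2

theorem card_le {C y t : ℝ} (hC : 0 ≤ C) (hy : 2 ≤ y) (h : t ≤ C * y / Real.log y) :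
    t ≤ 2 * C * y := by
  have h1 : 1 / 2 ≤ Real.log y :=
    le_trans (by linarith [Real.log_two_gt_d9]) (Real.log_le_log two_pos hy)
  refine h.trans ((div_le_div_of_nonneg_left (by positivity) (by norm_num) h1).trans_eq ?_)
  ring

theorem root_le {A N θ y₁ y₂ : ℝ} (hA : 1 ≤ A) (hN : 1 ≤ N) (hθ : 0 ≤ θ) (h1 : 0 ≤ y₁)
    (h2 : 0 ≤ y₂) : √(A * ((2 * N) ^ (1 - θ) * (y₁ * y₂) ^ 2)) ≤
      2 * A * N ^ ((1 - θ) / 2) * (y₁ * y₂) := by
  have hN0 : 0 ≤ N := by linarith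
  refine Real.sqrt_le_iff.2 ⟨by positivity, ?_⟩
  have e : (N ^ ((1 - θ) / 2)) ^ 2 = N ^ (1 - θ) := by
    rw [← Real.rpow_natCast, ← Real.rpow_mul hN0]
    norm_num
  have h3 : (2 : ℝ) ^ (1 - θ) ≤ 2 :=
    (Real.rpow_le_rpow_of_exponent_le one_le_two (by linarith)).trans_eq (Real.rpow_one 2)
  rw [mul_pow _ (y₁ * y₂), mul_pow (2 * A), e, Real.mul_rpow two_pos.le hN0, ← mul_assoc,
    ← mul_assoc]
  gcongr
  nlinarith

end PBIL2

open PBIL2

theorem y_bIL2 (c : Cx k K) (hDIV : Y_DIV K) (hSLT : Y_SLT k K) (hLSH : Y_LSH k K) (hBIL0 : Y_BIL0 K) : Y_BIL2 k K := by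
  intro n 𝒜 C₀ hn
  have he := c.et_pos
  have hz := c.cz_pos
  have hr := c.one_le_rk
  have hj : ((200 * Module.finrank k K : ℕ) : ℝ) = 200 * rk k K := by push_cast; rfl
  obtain ⟨Cs, ys, hCs, hys, hS⟩ := hSLT n 𝒜 C₀ hn
  obtain ⟨Ch, yh, hCh, hH⟩ := hLSH n 𝒜 C₀ (200 * Module.finrank k K) hn
    (by rw [← Nat.one_le_cast (α := ℝ), hj]; linarith)
  obtain ⟨Ca, hCa, hA⟩ := c.ls1 n hn C₀
  obtain ⟨Cd, hCd, hD⟩ := hDIV.1 4 (et k K / 4) (by norm_num) (by positivity)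
  obtain ⟨Ce, hCe, hE⟩ := hDIV.1 2 (et k K / 8) (by norm_num) (by positivity)
  rw [hj] at hH
  have hAA : 1 ≤ 4 * Ca * Cs * Ch :=
    one_le_mul_of_one_le_of_one_le (one_le_mul_of_one_le_of_one_le (by linarith) hCs) hCh
  refine ⟨et k K * cz k K / 2 * (et k K / 8), Ce * Cd * (2 * (4 * Ca * Cs * Ch)),
    max 3 (max ys yh ^ (1 / et k K)), by positivity, one_le_mul_of_one_le_of_one_le
      (one_le_mul_of_one_le_of_one_le hCe hCd) (by linarith), ?_⟩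
  intro X N y₁ y₂ Γ T₁ T₂ a₁ a₂ F cc 𝒮 hX hP hc hN1 hN2 h𝒮
  have hm : 0 ≤ max ys yh := by linarith [le_max_left ys yh]
  have hX1 : 1 ≤ X := by linarith [le_max_left 3 (max ys yh ^ (1 / et k K))]
  have hX0 : 0 < X := by linarith
  have hy : max ys yh ≤ X ^ et k K := by
    have := Real.rpow_le_rpow (by positivity) ((le_max_right _ _).trans hX) he.le
    rwa [← Real.rpow_mul hm, one_div_mul_cancel he.ne', Real.rpow_one] at this
  obtain ⟨-, lo1, o1, o2⟩ := c.lo hP hX1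
  have hN : 1 ≤ N := (Real.one_le_rpow hX1 (by positivity)).trans hN1
  have hN0 : 0 < N := by linarith
  have hy1 : ys ≤ y₁ := (le_max_left _ _).trans (hy.trans lo1)
  have h𝒩 : ∀ I ∈ 𝒮.image eI, Squarefree I ∧ NN I ≤ 2 * N := fun I hI => by
    obtain ⟨S, h, rfl⟩ := mem_image.1 hI
    exact ⟨squarefree_eI S, (h𝒮 S h).2⟩
  have m1 : MS T₁ (𝒮.image eI) (4 * Ca * Cs * y₁ ^ 2) := by
    have l1 := hA T₁ (𝒮.image eI) y₁ (2 * N) o1 (by positivity) (hN2.trans (by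
      rw [Real.sqrt_eq_rpow]
      exact Real.rpow_le_rpow_of_exponent_le o1 (le_add_of_nonneg_right (by positivity))))
      (fun t ht => ⟨((hP.b1.pri t ht).mono (dvd_pow_self n two_ne_zero)).1, hP.b1.bal t ht⟩) h𝒩
    have h0 : 0 ≤ Ca * y₁ * (1 + ((2 * N) ^ 2 / y₁) ^ (3 / 4 : ℝ)) := by positivity
    have h1 : ((2 * N) ^ 2 / y₁) ^ (3 / 4 : ℝ) ≤ 1 :=
      Real.rpow_le_one (by positivity) ((div_le_one (by linarith)).2
        ((Real.le_sqrt (by positivity) (by linarith)).1 hN2)) (by norm_num)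
    have h2 := card_le (by linarith) (hys.trans hy1) (hS y₁ T₁ hy1 hP.b1).1
    intro a ha
    refine (ms_of_hs (hs_of_hl l1 h0) h0 a ha).trans ?_
    calc _ ≤ Ca * y₁ * (1 + 1) * (2 * Cs * y₁) := by gcongr
      _ = _ := by ring
  have m2 : MS T₂ (𝒮.image eI) (Ch * (2 * N) ^ (1 - et k K) * y₂ ^ 2) := fun a ha =>
    hH y₂ (2 * N) T₂ _ a ((le_max_right _ _).trans (hy.trans hP.lo2)) hP.b2 (by linarith) (by
      refine hN2.trans ((Real.sqrt_le_sqrt hP.hi1).trans (le_trans (le_of_eq ?_)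
        (Real.rpow_le_rpow (by positivity) hP.lo2 (by positivity))))
      rw [← Real.rpow_mul hX0.le, Real.sqrt_eq_rpow, et]
      congr 1
      field_simp) h𝒩 ha
  have hκ : ∀ S ∈ 𝒮, ‖cc S‖ ≤ Cd * N ^ (et k K / 4 - 1 / 2) := fun S h => by
    have h1 := (hD _ (eI_ne_bot S)).1
    rw [prI_eI] at h1
    refine (hc.bd S).trans ((div_le_div_of_nonneg_right h1 (Real.sqrt_nonneg _)).trans ?_)
    rw [mul_div_assoc, Real.sqrt_eq_rpow, ← Real.rpow_sub (nS_pos S)]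
    exact mul_le_mul_of_nonneg_left (Real.rpow_le_rpow_of_nonpos hN0 (h𝒮 S h).1.le
      (by linarith [c.et_le])) (by linarith)
  have hΓ : (2 : ℝ) ^ Γ.card ≤ Ce * N ^ (et k K / 8) := by
    have h1 := (hE _ (eI_ne_bot Γ)).1
    rw [prI_eI] at h1
    exact h1.trans (mul_le_mul_of_nonneg_left (Real.rpow_le_rpow (nS_pos Γ).le
      (hP.small.trans hN1) (by positivity)) (by linarith))
  refine ((hBIL0 n T₁ T₂ a₁ a₂ F Γ cc 𝒮 _ _ _ _ hc m1 m2 (by positivity) hκ).2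
    fun S h _ => mem_image_of_mem _ h).trans ?_
  have e : 4 * Ca * Cs * y₁ ^ 2 * (Ch * (2 * N) ^ (1 - et k K) * y₂ ^ 2) =
      4 * Ca * Cs * Ch * ((2 * N) ^ (1 - et k K) * (y₁ * y₂) ^ 2) := by ring
  have h3 := root_le hAA hN he.le (by linarith : 0 ≤ y₁) (by linarith : 0 ≤ y₂)
  have h4 : N ^ (et k K / 8) * N ^ (et k K / 4 - 1 / 2) * N ^ ((1 - et k K) / 2) ≤
      X ^ (-(et k K * cz k K / 2 * (et k K / 8))) := by
    rw [← Real.rpow_add hN0, ← Real.rpow_add hN0, ← mul_neg, Real.rpow_mul hX0.le,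
      show et k K / 8 + (et k K / 4 - 1 / 2) + (1 - et k K) / 2 = -(et k K / 8) by ring]
    exact Real.rpow_le_rpow_of_nonpos (by positivity) hN1 (by linarith)
  rw [e]
  calc _ ≤ Ce * N ^ (et k K / 8) * (Cd * N ^ (et k K / 4 - 1 / 2)) *
        (2 * (4 * Ca * Cs * Ch) * N ^ ((1 - et k K) / 2) * (y₁ * y₂)) := by gcongr
    _ = Ce * Cd * (2 * (4 * Ca * Cs * Ch)) * (N ^ (et k K / 8) * N ^ (et k K / 4 - 1 / 2) *
        N ^ ((1 - et k K) / 2)) * (y₁ * y₂) := by ring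
    _ ≤ _ := by gcongr

end Pool.Agent.P.MP_b8021b_nt.BP
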