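import Pool.Agent.P.MP_b8021b_nt.BP.StC

/-! The bilinear bound for all ranges. -/

namespace Pool.Agent.P.MP_b8021b_nt.BP

open NumberField IsDedekindDomain Finset MeasureTheory
open Pool.Agent.P.MP_b8021b_nt.VE Pool.Agent.P.MP_b8021b_nt.VC Pool.Agent.P.MP_b8021b_nt.BS.CF
open Pool.Agent.P.MP_b8021b_nt.BS
open scoped Classical ComplexConjugate Real

variable {k : Type} [Field k] [NumberField k] [Algebra k ℂ] {K : Type} [Field K] [NumberField K] [Algebra k K]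

namespace PBIL

theorem dyad {α : Type} (𝒮 : Finset α) (w : α → ℝ) (φ : α → ℂ) {N₀ D : ℝ} (h0 : 0 ≤ N₀)
    (H : ∀ (N : ℝ) (𝒯 : Finset α), N₀ ≤ N → 𝒯 ⊆ 𝒮 → (∀ S ∈ 𝒯, N < w S ∧ w S ≤ 2 * N) →
      ‖∑ S ∈ 𝒯, φ S‖ ≤ D) (m : ℕ) :
    ‖∑ S ∈ 𝒮.filter (fun S => N₀ < w S ∧ w S ≤ 2 ^ m * N₀), φ S‖ ≤ m * D := by
  induction m with
  | zero => rw [filter_false_of_mem fun S _ h => by linarith [h.1, h.2]]; simp
  | succ m ih =>
    have h1 : N₀ ≤ 2 ^ m * N₀ := le_mul_of_one_le_left h0 (one_le_pow₀ one_le_two)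
    rw [← sum_filter_add_sum_filter_not _ (fun S => w S ≤ 2 ^ m * N₀), filter_filter,
      filter_congr (q := fun S => N₀ < w S ∧ w S ≤ 2 ^ m * N₀) fun S _ =>
        ⟨fun h => ⟨h.1.1, h.2⟩, fun h => ⟨⟨h.1, by rw [pow_succ]; linarith [h.2]⟩, h.2⟩⟩]
    refine (norm_add_le_of_le ih (H (2 ^ m * N₀) _ h1 ((filter_subset _ _).trans (filter_subset _ _))
      fun S hS => ⟨not_le.1 (mem_filter.1 hS).2, ?_⟩)).trans_eq (by push_cast; ring)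
    rw [← mul_assoc, ← pow_succ']
    exact (mem_filter.1 (mem_filter.1 hS).1).2.2

theorem bs_eq (T₁ T₂ : Finset (𝓞 K)) (a₁ a₂ : 𝓞 K → ℂ) (F : Finset (Pl K) → ℝ) (Γ : Finset (Pl K))
    (c : Finset (Pl K) → ℂ) (𝒮 : Finset (Finset (Pl K))) :
    bs T₁ T₂ a₁ a₂ F Γ c 𝒮 = ∑ S ∈ 𝒮, bs T₁ T₂ a₁ a₂ F Γ c {S} := by
  simp only [bs, mul_sum, sum_singleton]
  rw [sum_comm (s := 𝒮)]
  exact sum_congr rfl fun t _ => sum_comm

end PBIL

open PBIL in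
theorem y_bIL (c : Cx k K) (hBIL1 : Y_BIL1 k K) (hBIL2 : Y_BIL2 k K) (hBIL3 : Y_BIL3 k K) :
    Y_BIL k K := by
  intro n 𝒜 C₀ hn
  obtain ⟨C₁, X₁, C1, h1⟩ := hBIL1 n 𝒜 C₀ hn
  obtain ⟨δ₂, C₂, X₂, d2, C2, h2⟩ := hBIL2 n 𝒜 C₀ hn
  obtain ⟨δ₃, C₃, X₃, d3, C3, h3⟩ := hBIL3 n 𝒜 C₀ hn
  refine ⟨C₁ + 1, by linarith, fun R hR => ?_⟩
  obtain ⟨X₀, X3, hX₀⟩ := ev_log (3 * (C₂ + C₃) * R ^ (1 / 4 : ℝ)) 3 (lt_min d2 d3)
  refine ⟨max (max X₀ X₁) (max X₂ X₃), fun X y₁ y₂ Γ T₁ T₂ a₁ a₂ F c' 𝒮 hX hP hA hS => ?_⟩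
  simp only [max_le_iff] at hX
  obtain ⟨⟨x0, x1⟩, x2, x3⟩ := hX
  have X1 : 1 ≤ X := by linarith
  have X0 : 0 < X := by linarith
  obtain ⟨-, -, y1, y2⟩ := c.lo hP X1
  have y0 : 0 ≤ y₁ * y₂ := by positivity
  have mono : ∀ {s t : ℝ}, s ≤ t → X ^ s ≤ X ^ t := fun h => Real.rpow_le_rpow_of_exponent_le X1 h
  have N1 : 1 ≤ X ^ (et k K * cz k K / 2) :=
    Real.one_le_rpow X1 (by have := c.et_pos; have := c.cz_pos; positivity)
  obtain ⟨m, m1, m2⟩ := exists_nat_pow_near X1 one_lt_two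
  have L1 : 1 ≤ Real.log X := by
    rw [Real.le_log_iff_exp_le X0]
    linarith [Real.exp_one_lt_d9]
  have m3 : ((m + 1 : ℕ) : ℝ) ≤ 3 * Real.log X := by
    have h4 := Real.log_le_log (by positivity) m1
    rw [Real.log_pow] at h4
    push_cast
    nlinarith [Real.log_two_gt_d9, (Nat.cast_nonneg m : (0 : ℝ) ≤ m)]
  have b1 := h1 X R y₁ y₂ Γ T₁ T₂ a₁ a₂ F c' (𝒮.filter fun S => nS S ≤ X ^ (et k K * cz k K / 2))
    x1 hR hP hA fun S h => ⟨(hS S (mem_filter.1 h).1).1, (mem_filter.1 h).2⟩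
  have b2 := dyad 𝒮 nS (fun S => bs T₁ T₂ a₁ a₂ F Γ c' {S}) (N₀ := X ^ (et k K * cz k K / 2))
    (D := (C₂ + C₃) * X ^ (-min δ₂ δ₃) * (y₁ * y₂)) (by positivity) (fun N 𝒯 a b d => by
      rcases 𝒯.eq_empty_or_nonempty with rfl | ⟨S, h⟩
      · rw [sum_empty, norm_zero]; positivity
      rw [← bs_eq]
      rcases le_total (2 * N) √y₁ with e | e
      · refine (h2 X N y₁ y₂ Γ T₁ T₂ a₁ a₂ F c' 𝒯 x2 hP hA a e d).trans ?_
        exact mul_le_mul_of_nonneg_right (mul_le_mul (by linarith)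
          (mono (neg_le_neg (min_le_left _ _))) (by positivity) (by positivity)) y0
      · refine (h3 X N y₁ y₂ Γ T₁ T₂ a₁ a₂ F c' 𝒯 x3 hP hA e
          ((d S h).1.le.trans (hS S (b h)).2) d).trans ?_
        exact mul_le_mul_of_nonneg_right (mul_le_mul (by linarith)
          (mono (neg_le_neg (min_le_right _ _))) (by positivity) (by positivity)) y0) (m + 1)
  rw [filter_congr (q := fun S => ¬ nS S ≤ X ^ (et k K * cz k K / 2)) fun S h =>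
    ⟨fun e => not_le.2 e.1, fun e => ⟨not_le.1 e, (((hS S h).2.trans
      ((mono (by linarith [c.et_le])).trans_eq (Real.rpow_one X))).trans m2.le).trans
        (le_mul_of_one_le_right (by positivity) N1)⟩⟩] at b2
  rw [bs_eq] at b1 ⊢
  rw [← sum_filter_add_sum_filter_not _ (fun S => nS S ≤ X ^ (et k K * cz k K / 2))]
  refine (norm_add_le_of_le b1 b2).trans ?_
  rw [add_mul C₁, add_mul (C₁ * _), one_mul]
  refine add_le_add_right ((mul_le_mul_of_nonneg_right m3 (by positivity)).trans ?_) _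
  have e := hX₀ X x0
  have R0 : 0 < R ^ (1 / 4 : ℝ) := by positivity
  have X4 : 0 < X ^ min δ₂ δ₃ := by positivity
  rw [Real.rpow_neg X0.le, Real.rpow_neg (by linarith)]
  calc _ = 3 * (C₂ + C₃) * R ^ (1 / 4 : ℝ) * Real.log X ^ 3 / X ^ min δ₂ δ₃ *
        ((R ^ (1 / 4 : ℝ))⁻¹ * (y₁ * y₂ / Real.log X ^ 2)) := by field_simp
    _ ≤ _ := mul_le_of_le_one_left (by positivity) ((div_le_one X4).2 e)

end Pool.Agent.P.MP_b8021b_nt.BP
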