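import Pool.Agent.P.MP_b8021b_nt.BP.StC

/-! A dyadic block of the bilinear form in the long range. -/

namespace Pool.Agent.P.MP_b8021b_nt.BP

open NumberField IsDedekindDomain Finset MeasureTheory
open Pool.Agent.P.MP_b8021b_nt.VE Pool.Agent.P.MP_b8021b_nt.VC Pool.Agent.P.MP_b8021b_nt.BS.CF
open Pool.Agent.P.MP_b8021b_nt.BS
open scoped Classical ComplexConjugate Real

variable {k : Type} [Field k] [NumberField k] [Algebra k ℂ] {K : Type} [Field K] [NumberField K]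
  [Algebra k K]

namespace PBIL3

theorem q_le {W y Z : ℝ} (hZ : 1 ≤ Z) (hW0 : 0 ≤ W) (hW : W ≤ 4 * y * Z ^ 21)
    (hy : Z ^ 100 ≤ y) : W ^ (3 / 4 : ℝ) ≤ 4 * y / Z ^ 8 := by
  have hZ0 : 0 < Z := by linarith
  have hy0 : 0 < y := lt_of_lt_of_le (by positivity) hy
  refine le_of_pow_le_pow_left₀ (n := 4) (by norm_num) (by positivity) ?_
  have h3 : (W ^ (3 / 4 : ℝ)) ^ 4 = W ^ 3 := by
    rw [← Real.rpow_natCast, ← Real.rpow_mul hW0, ← Real.rpow_natCast]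
    norm_num
  rw [h3]
  calc W ^ 3 ≤ (4 * y * Z ^ 21) ^ 3 := by gcongr
    _ = 64 * y ^ 3 * Z ^ 63 := by ring
    _ ≤ 256 * y ^ 3 * Z ^ 68 := by gcongr <;> norm_num
    _ = 256 * y ^ 3 * Z ^ 100 / Z ^ 32 := by field_simp
    _ ≤ 256 * y ^ 3 * y / Z ^ 32 := by gcongr
    _ = _ := by ring

theorem fin {g C₁ C₃ C₄ C₅ Z N y₁ y₂ Q t₁ t₂ : ℝ} (hZ : 1 ≤ Z) (hN : 0 < N) (h1 : 1 ≤ C₁)
    (h3 : 1 ≤ C₃) (h4 : 1 ≤ C₄) (h5 : 1 ≤ C₅) (hy1 : 0 < y₁) (hy2 : 0 < y₂) (hg : g ≤ Z)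
    (hQ1 : 1 ≤ Q) (hQ : Q ≤ 4 * y₂ / Z ^ 8) (ht1 : t₁ ≤ C₄ * y₁) (ht2 : t₂ ≤ C₄ * y₂)
    (h01 : 0 ≤ t₁) (h02 : 0 ≤ t₂) :
    g * (C₁ * Z / √N) * √(C₃ * y₁ * (1 + Q) * t₁ * (C₅ * (2 * N) * t₂)) ≤
      4 * C₁ * C₃ * C₄ * C₅ * (Z ^ 2)⁻¹ * (y₁ * y₂) := by
  have hZ0 : 0 < Z := by linarith
  have hs : 0 < √N := Real.sqrt_pos.2 hN
  have hQ2 : 1 + Q ≤ 2 * (4 * y₂ / Z ^ 8) := by linarith
  have hr : √(C₃ * y₁ * (1 + Q) * t₁ * (C₅ * (2 * N) * t₂)) ≤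
      √N * (4 * C₃ * C₄ * C₅ * y₁ * y₂ / Z ^ 4) := by
    refine Real.sqrt_le_iff.2 ⟨by positivity, ?_⟩
    rw [mul_pow, Real.sq_sqrt hN.le]
    calc C₃ * y₁ * (1 + Q) * t₁ * (C₅ * (2 * N) * t₂)
        ≤ C₃ * y₁ * (2 * (4 * y₂ / Z ^ 8)) * (C₄ * y₁) * (C₅ * (2 * N) * (C₄ * y₂)) := by gcongr
      _ = 1 * 1 * (16 * N * C₃ * C₅ * C₄ ^ 2 * y₁ ^ 2 * y₂ ^ 2 / Z ^ 8) := by ring
      _ ≤ C₃ * C₅ * (16 * N * C₃ * C₅ * C₄ ^ 2 * y₁ ^ 2 * y₂ ^ 2 / Z ^ 8) := by gcongr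
      _ = _ := by ring
  calc _ ≤ Z * (C₁ * Z / √N) * (√N * (4 * C₃ * C₄ * C₅ * y₁ * y₂ / Z ^ 4)) := by gcongr
    _ = _ := by field_simp

theorem two_mul_le {X e N a : ℝ} (hX : 1 ≤ X) (h2 : 2 ≤ X ^ e) (hN : N ≤ X ^ (1 / 2 + e / 10))
    (ha : 1 / 2 + 11 / 10 * e ≤ a) : 2 * N ≤ X ^ a := by
  have hX0 : 0 < X := by linarith
  calc 2 * N ≤ 2 * X ^ (1 / 2 + e / 10) := by gcongr
    _ ≤ X ^ e * X ^ (1 / 2 + e / 10) := by gcongr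
    _ = X ^ (e + (1 / 2 + e / 10)) := (Real.rpow_add hX0 _ _).symm
    _ ≤ X ^ a := Real.rpow_le_rpow_of_exponent_le hX (by linarith)

theorem ex1 {X e N y : ℝ} (hX : 1 ≤ X) (he : 0 < e) (he' : e ≤ 1 / 200) (h2 : 2 ≤ X ^ e)
    (hN : N ≤ X ^ (1 / 2 + e / 10)) (hy : X ^ (1 - 201 / 100 * e) ≤ y) :
    2 * N ≤ y ^ (1 / 2 + 5 * e) := by
  have hX0 : 0 < X := by linarith
  refine (two_mul_le hX h2 hN (a := (1 - 201 / 100 * e) * (1 / 2 + 5 * e)) (by nlinarith)).trans ?_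
  rw [Real.rpow_mul hX0.le]
  exact Real.rpow_le_rpow (by positivity) hy (by positivity)

theorem ex2 {X e r A y₁ y₂ : ℝ} (hX : 1 ≤ X) (hr : 0 < r) (he : e * r = 1 / 200)
    (he' : e ≤ 1 / 200) (hA0 : 0 ≤ A) (hA : A ≤ X ^ e) (h0 : 0 ≤ y₂) (h2 : y₂ ≤ X ^ (2 * e))
    (hy : X ^ (1 - 201 / 100 * e) ≤ y₁) : (y₂ * A) ^ (6 * r) ≤ √y₁ := by
  have hX0 : 0 < X := by linarith
  calc (y₂ * A) ^ (6 * r) ≤ (X ^ (2 * e) * X ^ e) ^ (6 * r) := by gcongr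
    _ = X ^ ((2 * e + e) * (6 * r)) := by rw [← Real.rpow_add hX0, ← Real.rpow_mul hX0.le]
    _ ≤ X ^ ((1 - 201 / 100 * e) * (1 / 2)) :=
      Real.rpow_le_rpow_of_exponent_le hX (by linarith)
    _ = √(X ^ (1 - 201 / 100 * e)) := by rw [Real.sqrt_eq_rpow, Real.rpow_mul hX0.le]
    _ ≤ √y₁ := Real.sqrt_le_sqrt hy

theorem zpow_eq {X e : ℝ} (hX : 0 < X) (j : ℕ) : (X ^ (e / 100)) ^ j = X ^ (e / 100 * j) := by
  rw [Real.rpow_mul hX.le, Real.rpow_natCast]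

theorem ex3 {X e N y₁ y₂ : ℝ} (hX : 0 < X) (hN0 : 0 ≤ N) (hN : N ≤ X ^ (1 / 2 + e / 10))
    (h1 : 0 < y₁) (hlo : X ^ (1 - e / 100) ≤ y₁ * y₂) :
    (2 * N) ^ 2 / y₁ ≤ 4 * y₂ * (X ^ (e / 100)) ^ 21 := by
  rw [div_le_iff₀ h1, zpow_eq hX]
  calc (2 * N) ^ 2 ≤ (2 * X ^ (1 / 2 + e / 10)) ^ 2 := by gcongr
    _ = 4 * (X ^ (1 - e / 100) * X ^ (e / 100 * (21 : ℕ))) := by
      rw [mul_pow, ← Real.rpow_add hX, ← Real.rpow_natCast (X ^ _), ← Real.rpow_mul hX.le]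
      congr 1
      · norm_num
      · congr 1
        push_cast
        ring
    _ ≤ 4 * (y₁ * y₂ * X ^ (e / 100 * (21 : ℕ))) := by gcongr
    _ = _ := by ring

theorem card_le {t C y : ℝ} (hC : 1 ≤ C) (hy : 3 ≤ y) (h : t ≤ C * y / Real.log y) :
    t ≤ C * y := by
  refine h.trans (div_le_self (by positivity) ?_)
  rw [Real.le_log_iff_exp_le (by linarith)]
  linarith [Real.exp_one_lt_d9]

omit [NumberField K] in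
theorem pri_of_sq {n : ℕ} {t : 𝓞 K} (h : Pri (n ^ 2) t) : Pri n t :=
  ⟨(Nat.cast_dvd_cast (dvd_pow_self n two_ne_zero)).trans h.1, h.2⟩

end PBIL3

open PBIL3 in
theorem y_bIL3 (c : Cx k K) (hDIV : Y_DIV K) (hSLT : Y_SLT k K) (hBIL0 : Y_BIL0 K) :
    Y_BIL3 k K := by
  intro n 𝒜 C₀ hn
  have he := c.toCtx.et_pos
  have he' := c.toCtx.et_le
  have hr := c.toCtx.one_le_rk
  have hr0 : 0 < rk k K := by linarith
  have her : et k K * rk k K = 1 / 200 := by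
    rw [et]
    field_simp
  have he5 : 1 / (40 * rk k K) = 5 * et k K := by
    rw [et]
    field_simp
    norm_num
  obtain ⟨C₁, h1, hC₁⟩ := hDIV.1 4 (et k K / 100) (by norm_num) (by positivity)
  obtain ⟨C₃, h3, hC₃⟩ := c.ls1 n hn C₀
  obtain ⟨C₄, y₀, h4, hy₀, hC₄⟩ := hSLT n 𝒜 C₀ hn
  obtain ⟨C₅, h5, hC₅⟩ := c.ls0 n hn
  obtain ⟨X₀, hX₀, hev⟩ := ev_log (3 + y₀ + nS 𝒜) 0 he
  refine ⟨et k K / 50, 4 * C₁ * C₃ * C₄ * C₅, X₀, by positivity, ?_, ?_⟩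
  · calc (1 : ℝ) ≤ 4 * 1 * 1 * 1 * 1 := by norm_num
      _ ≤ _ := by gcongr
  intro X N y₁ y₂ Γ T₁ T₂ a₁ a₂ F cc 𝒮 hX hP hA hlo hhi hS
  have hX1 : 1 ≤ X := by linarith
  have hX0 : 0 < X := by linarith
  have hM := hev X hX
  rw [pow_zero, mul_one] at hM
  have hA1 := one_le_nS 𝒜
  obtain ⟨l1, l2, l3, l4⟩ := c.toCtx.lo hP hX1
  have l5 := hP.lo2
  have hy1 : 0 < y₁ := by linarith
  have hy2 : 0 < y₂ := by linarith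
  have hN : 0 < N := by linarith [Real.sqrt_pos.2 hy1]
  have hXe : 2 ≤ X ^ et k K := by linarith
  have hZ : 1 ≤ X ^ (et k K / 100) := Real.one_le_rpow hX1 (by positivity)
  have hNX : 2 * N ≤ X := by
    simpa using two_mul_le hX1 hXe hhi (a := 1) (by linarith)
  have hW : 1 ≤ (2 * N) ^ 2 / y₁ := by
    rw [one_le_div hy1, ← Real.sq_sqrt hy1.le]
    gcongr
  have hQ1 : 1 ≤ ((2 * N) ^ 2 / y₁) ^ (3 / 4 : ℝ) := Real.one_le_rpow hW (by norm_num)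
  set 𝒩 := (ids K (2 * N)).filter Squarefree with h𝒩
  have m1 := ms_of_hs (hs_of_hl (hC₃ T₁ 𝒩 y₁ (2 * N) l3 (by positivity)
    (he5 ▸ ex1 hX1 he he' hXe hhi l1)
    (fun t ht => ⟨(pri_of_sq (hP.b1.pri t ht)).1, hP.b1.bal t ht⟩)
    fun I hI => ⟨(mem_filter.1 hI).2, (mem_ids.1 (mem_filter.1 hI).1).2⟩) (by positivity))
    (by positivity)
  have m2 := ms_of_hs (hC₅ T₂ 𝒩 (y₂ * nS 𝒜) (2 * N) (one_le_mul_of_one_le_of_one_le l4 hA1)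
    ((ex2 hX1 hr0 her he' (by linarith) (by linarith) hy2.le hP.hi2 l1).trans hlo)
    (fun t ht => ⟨pri_of_sq (hP.b2.pri t ht), hP.b2.NN_le ht⟩) hP.b2.inj
    fun I hI => mem_ids.1 (mem_filter.1 hI).1) (by positivity)
  have hκ : ∀ S ∈ 𝒮, ‖cc S‖ ≤ C₁ * X ^ (et k K / 100) / √N := fun S hS' => by
    have h4S := (hC₁ (eI S) (eI_ne_bot S)).1
    rw [prI_eI] at h4S
    have h6 : NN (eI S) ^ (et k K / 100) ≤ X ^ (et k K / 100) :=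
      Real.rpow_le_rpow (nS_pos S).le ((hS S hS').2.trans hNX) (by positivity)
    refine (hA.bd S).trans (div_le_div₀ (by positivity) (h4S.trans (by gcongr))
      (Real.sqrt_pos.2 hN) (Real.sqrt_le_sqrt (hS S hS').1.le))
  have hg : (2 : ℝ) ^ Γ.card ≤ X ^ (et k K / 100) :=
    ((two_pow_le_nS Γ).trans hP.small).trans (Real.rpow_le_rpow_of_exponent_le hX1 (by
      have := mul_le_mul_of_nonneg_left c.toCtx.cz_le he.le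
      linarith))
  have hz : (X ^ (et k K / 100)) ^ 100 ≤ y₂ := by
    rw [zpow_eq hX0]
    convert l5 using 2
    push_cast
    ring
  have hz2 : X ^ (-(et k K / 50)) = ((X ^ (et k K / 100)) ^ 2)⁻¹ := by
    rw [zpow_eq hX0, Real.rpow_neg hX0.le]
    congr 2
    push_cast
    ring
  rw [hz2]
  refine ((hBIL0 n T₁ T₂ a₁ a₂ F Γ cc 𝒮 𝒩 _ _ _ hA m1 m2 (by positivity) hκ).2 fun S hS' _ =>
    mem_filter.2 ⟨mem_ids.2 ⟨eI_ne_bot S, (hS S hS').2⟩, squarefree_eI S⟩).trans ?_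
  exact fin hZ hN h1 h3 h4 h5 hy1 hy2 hg hQ1
    (q_le hZ (by positivity) (ex3 hX0 hN.le hhi hy1 hP.lo1) hz)
    (card_le h4 (by linarith) (hC₄ y₁ T₁ (by linarith) hP.b1).1)
    (card_le h4 (by linarith) (hC₄ y₂ T₂ (by linarith) hP.b2).1) (Nat.cast_nonneg _)
    (Nat.cast_nonneg _)

end Pool.Agent.P.MP_b8021b_nt.BP
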