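import Pool.Agent.P.MP_b8021b_nt.BP.StC

/-! The dual side of the first moment over a cell. -/

namespace Pool.Agent.P.MP_b8021b_nt.BP

open NumberField IsDedekindDomain Finset MeasureTheory
open Pool.Agent.P.MP_b8021b_nt.VE Pool.Agent.P.MP_b8021b_nt.VC Pool.Agent.P.MP_b8021b_nt.BS.CF
open Pool.Agent.P.MP_b8021b_nt.BS
open scoped Classical ComplexConjugate Real
variable {k : Type} [Field k] [NumberField k] [Algebra k ℂ] {K : Type} [Field K] [NumberField K]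
  [Algebra k K]

set_option linter.unusedSectionVars false

namespace PCELB

theorem dX_mul (z : ℂ) (χ Ψ : Ideal (𝓞 K) → ℂ) (H h : ℝ → ℂ) (X : ℝ) (S 𝒱 : Finset (Pl K)) :
    z * dX k χ Ψ H h X S 𝒱 = dX k χ Ψ (fun b => z * H b) h X S 𝒱 := by
  unfold dX dd
  rw [← integral_const_mul]
  simp only [mul_assoc]

theorem hv_mul (h : ℝ → ℂ) (f : ℝ → ℝ) (ℓ : ℝ) {Y ρ a b : ℝ} (hY : 0 ≤ Y) (hρ : 0 ≤ ρ) (ha : 0 ≤ a)
    (hb : 0 ≤ b) (x : ℝ) : Hv h f ℓ Y (ρ * a * b) x =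
      Hv h f ℓ Y ρ x * (a : ℂ) ^ (-sx ℓ x) * (b : ℂ) ^ (-sx ℓ x) := by
  unfold Hv
  rw [show ρ * a * b / Y = ρ / Y * a * b by ring, Complex.ofReal_mul, Complex.ofReal_mul,
    ← Complex.ofReal_mul, Complex.mul_cpow_ofReal_nonneg (by positivity) hb, Complex.ofReal_mul,
    Complex.mul_cpow_ofReal_nonneg (by positivity) ha]
  ring

/-- the size of a block -/
theorem card_le {C y X e m : ℝ} (hC : 0 ≤ C) (he : 0 < e) (hX : 1 < X) (hy : X ^ e ≤ y)
    (h : m ≤ C * y / Real.log y) : m ≤ C / e * (y / Real.log X) := by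
  have h0 := Real.log_pos hX
  have h1 : 0 < X ^ e := by positivity
  have h2 := Real.log_le_log h1 hy
  rw [Real.log_rpow (by linarith)] at h2
  refine h.trans ?_
  rw [div_mul_div_comm]
  have : 0 ≤ y := by linarith
  gcongr

/-- the twisting factors -/
theorem u_bd (c : Cx k K) {n : ℕ} (hn : Good K n) {𝒜 : Finset (Pl K)} {C y ℓ : ℝ}
    {T : Finset (𝓞 K)} (hT : Blk k n 𝒜 C y T) (hy : 0 ≤ y) (hℓ : 0 < ℓ) {t : 𝓞 K} (ht : t ∈ T) :
    (Continuous fun b => eps k t * ((C ^ rk k K * y / NN (sp t) : ℝ) : ℂ) ^ (-sx ℓ b)) ∧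
      ∀ b, ‖eps k t * ((C ^ rk k K * y / NN (sp t) : ℝ) : ℂ) ^ (-sx ℓ b)‖ ≤ 1 := by
  have h0 : 0 < NN (sp t) := NN_pos (by simpa using (hT.pri t ht).ne_zero)
  have h1 : 1 ≤ C ^ rk k K * y / NN (sp t) := (one_le_div h0).2 ((hT.bal t ht).NN_le c.toCtx hy)
  refine ⟨continuous_const.mul ((continuous_cpow (one_pos.trans_le h1)).comp
    (continuous_sx ℓ).neg), fun b => ?_⟩
  rw [norm_mul, ((c.g3 n hn).1 t ((hT.pri t ht).mono (dvd_pow_self n two_ne_zero))).1, one_mul]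
  exact norm_cpow_le h1 (by rw [sx_re]; positivity)

end PCELB

open PCELB in
theorem y_cELB (c : Cx k K) (hFI : Y_FI) (hVW : Y_VW) (hDIV : Y_DIV K) (hSLT : Y_SLT k K)
    (hDEC : Y_DEC K) (hEVB : Y_EVB k K) (hPTB : Y_PTB k K) (hLG : Y_LG k K) : Y_CELB k K := by
  intro n Ψ f 𝒜 C₀ c₀ ε hn hΨ hf hC₀ hc₀ hε
  obtain ⟨h, hh⟩ := hFI
  obtain ⟨CV, hCV, -, hV⟩ := hVW h f hh hf
  obtain ⟨CE, ℓ₀, j, hCE, hE⟩ := hEVB n Ψ 0 hn.two_le hΨ
  obtain ⟨CL, hCL, hL⟩ := hLG n 𝒜 h C₀ (CE + CV * Real.exp (2 / la k K)) j hn hh (by positivity)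
  obtain ⟨CD, hCD, hD⟩ := hDIV.2
  obtain ⟨CS, y₀, hCS, hy₀, hS⟩ := hSLT n 𝒜 C₀ hn
  have het := c.et_pos
  obtain ⟨R, hR, hRε⟩ : ∃ R : ℝ, 1 ≤ R ∧ CL * R ^ (-(1 / 4 : ℝ)) ≤ ε / 2 := by
    refine ⟨(2 * CL / ε + 1) ^ (4 : ℝ), Real.one_le_rpow (le_add_of_nonneg_left (by positivity))
      (by norm_num), ?_⟩
    rw [← Real.rpow_mul (by positivity), show (4 : ℝ) * -(1 / 4) = -1 by norm_num,
      Real.rpow_neg_one, ← div_eq_mul_inv, div_le_iff₀ (by positivity)]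
    have : ε / 2 * (2 * CL / ε + 1) = CL + ε / 2 := by field_simp
    linarith
  obtain ⟨XL, hL⟩ := hL R hR
  obtain ⟨XP, hP⟩ := hPTB n Ψ h f (ε / 2 / ((CS / et k K) ^ 2 * (CD * R))) R C₀ c₀ hn.two_le hΨ hh hf
    (by positivity) hc₀
  obtain ⟨X1, h3, hX1⟩ := c.ev_PP
  obtain ⟨X2, -, hX2⟩ := c.ev_el (max ℓ₀ c₀⁻¹)
  obtain ⟨X3, -, hX3⟩ := ev_log y₀ 0 het
  refine ⟨max (max XL XP) (max (max X1 X2) (max X3 c₀⁻¹)),
    fun X y₁ y₂ w Γ τ T₁ T₂ F hX hw hc hF hw1 => ?_⟩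
  simp only [max_le_iff] at hX hX2
  obtain ⟨⟨aL, aP⟩, ⟨a1, a2⟩, a3, a4⟩ := hX
  obtain ⟨l1, l2, l3⟩ := hX1 X a1
  obtain ⟨l4, l5⟩ := hX2 X a2
  have X1' : 1 < X := by linarith
  have X0 : 0 < X := by linarith
  have l0 : 0 < el k K X := by linarith
  have w0 : 0 < w := hc₀.trans_le hw
  have Y0p := c.Y0_pos X0
  obtain ⟨-, b1, b2, b3⟩ := c.lo hc.toPair X1'.le
  have hy : y₀ ≤ X ^ et k K := by simpa using hX3 X a3
  have k1 := card_le (by linarith) het X1' b1 (hS y₁ T₁ (hy.trans b1) hc.b1).1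
  have k2 := card_le (by linarith) het X1' hc.lo2 (hS y₂ T₂ (hy.trans hc.lo2) hc.b2).1
  obtain ⟨-, -, -, -, -, hV⟩ := hV (el k K X) (Y0 k K X) l0 Y0p
  obtain ⟨ch1, ch2⟩ := ch_of_isP hΨ
  have τ0 : 0 < NN (sp τ) := NN_pos (by simpa using hc.pri.ne_zero)
  have Cp : 0 < C₀ ^ rk k K := Real.rpow_pos_of_pos (by linarith) _
  set ρ₀ := w * X / (NN (sp τ) * (C₀ ^ rk k K * y₁) * (C₀ ^ rk k K * y₂)) with hρ₀
  have r0 : c₀ ≤ ρ₀ := by
    rw [hρ₀, le_div_iff₀ (by positivity)]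
    exact mul_le_mul hw hc.size (by positivity) w0.le
  have r1 : 0 < ρ₀ := hc₀.trans_le r0
  have eτ := ((c.g3 n hn).1 τ (hc.pri.mono (dvd_pow_self n two_ne_zero))).1
  set 𝒮 := (PP K (el k K X)).powerset.filter fun S => nS S ≤ ZZ k K X * Real.exp (el k K X) with h𝒮
  have large := hL X y₁ y₂ (cj Ψ) Ψ Γ τ T₁ T₂ F
    (fun b => eps k τ * Hv h f (el k K X) (Y0 k K X) ρ₀ b)
    (fun t b => eps k t * ((C₀ ^ rk k K * y₁ / NN (sp t) : ℝ) : ℂ) ^ (-sx (el k K X) b))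
    (fun t b => eps k t * ((C₀ ^ rk k K * y₂ / NN (sp t) : ℝ) : ℂ) ^ (-sx (el k K X) b))
    (𝒮.filter fun S => ¬ nS S ≤ R) aL ch2 ch1 (fun a b => by
      have := hE (el k K X) a b ∅ l4 (by simp [lw])
      rw [sdiff_empty] at this
      refine this.trans ((div_le_self (by positivity) l1).trans ?_)
      gcongr
      exact le_add_of_nonneg_right (by positivity)) hc hF
    (continuous_const.mul (hV ρ₀ r1).1) (fun b => by
      rw [norm_mul, eτ, one_mul]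
      refine ((hV ρ₀ r1).2.1 b).trans ?_
      have hY : Y0 k K X ≤ X := by
        rw [c.Y0_eq X0]
        exact Real.rpow_le_self_of_one_le X1'.le (by linarith [c.la_pos])
      have : (Y0 k K X / ρ₀) ^ (1 / el k K X) ≤ Real.exp (2 / la k K) :=
        c.rpow_el X1' (by positivity) (by
          rw [Real.rpow_two, div_eq_mul_inv, sq]
          exact mul_le_mul hY ((inv_anti₀ hc₀ r0).trans a4) (by positivity) X0.le)
      gcongr
      exact (mul_le_mul_of_nonneg_left this (by linarith)).trans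
        (le_add_of_nonneg_left (by linarith)))
    (fun t ht => u_bd c hn hc.b1 (by linarith) l0 ht) (fun t ht => u_bd c hn hc.b2 (by linarith) l0 ht)
    (fun S hS => by
      simp only [h𝒮, mem_filter, mem_powerset, not_le] at hS
      exact ⟨hS.1.1, hS.2, hS.1.2.trans (c.ZZ_mul_le X1'.le)⟩)
  have key : ∀ t ∈ T₁, ∀ t' ∈ T₂, ∃ z : ℂ, ‖z‖ ≤ ε / 2 / (CS / et k K) ^ 2 ∧
      wF F Γ (t * t') * (eps k (τ * t * t') *
      AX k (cj Ψ) f X (w * X / NN (sp (τ * t * t'))) (τ * t * t') * MX k Ψ X (τ * t * t')) =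
      z + wF F Γ (t * t') * ∑ S ∈ 𝒮.filter fun S => ¬ nS S ≤ R, jac (τ * t * t') (eI S) *
      dX k (cj Ψ) Ψ (fun b => eps k τ * Hv h f (el k K X) (Y0 k K X) ρ₀ b *
        (eps k t * ((C₀ ^ rk k K * y₁ / NN (sp t) : ℝ) : ℂ) ^ (-sx (el k K X) b)) *
        (eps k t' * ((C₀ ^ rk k K * y₂ / NN (sp t') : ℝ) : ℂ) ^ (-sx (el k K X) b))) h X S
        (pr (τ * t * t')) := by
    intro t ht t' ht'
    obtain ⟨m1, m2, -⟩ := hc.mem c.toCtx hC₀ X1'.le ht ht'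
    have N0 : 0 < NN (sp (τ * t * t')) := NN_pos (by simpa only [ne_eq, Ideal.span_singleton_eq_bot]
      using m1.ne_zero)
    have t0 : 0 < NN (sp t) := NN_pos (by simpa using (hc.b1.pri t ht).ne_zero)
    have t0' : 0 < NN (sp t') := NN_pos (by simpa using (hc.b2.pri t' ht').ne_zero)
    set ρ := w * X / NN (sp (τ * t * t')) with hρ
    have q0 : c₀ ≤ ρ := by
      rw [hρ, le_div_iff₀ N0]
      exact mul_le_mul hw m2 N0.le w0.le
    have q1 : 0 < ρ := hc₀.trans_le q0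
    have q2 : ρ = ρ₀ * (C₀ ^ rk k K * y₁ / NN (sp t)) * (C₀ ^ rk k K * y₂ / NN (sp t')) := by
      rw [hρ, hρ₀, sp_mul, sp_mul, NN_mul, NN_mul]
      field_simp
    have d2 : n ∣ n ^ 2 := dvd_pow_self n two_ne_zero
    have e1 : eps k (τ * t * t') = eps k τ * eps k t * eps k t' := by
      rw [eps_mul c hn ((pri_mul hc.pri (hc.b1.pri t ht) (hc.c1 t ht)).mono d2)
        ((hc.b2.pri t' ht').mono d2) ((hc.c2 t' ht').mul_left (hc.c12 t ht t' ht')),
        eps_mul c hn (hc.pri.mono d2) ((hc.b1.pri t ht).mono d2) (hc.c1 t ht)]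
    have dec := hDEC h _ _ (cj Ψ) Ψ (el k K X) (ZZ k K X) _ hh l0 ((hV ρ q1).2.2 (ZZ k K X) (by
      rw [ZZ, show 4 * el k K X = 2 * el k K X + 2 * el k K X by ring, Real.exp_add, ← mul_assoc]
      have h1 := Real.add_one_le_exp (2 * el k K X)
      have h2 : 1 ≤ c₀ * Real.exp (2 * el k K X) := by
        rw [← inv_mul_le_iff₀ hc₀]; linarith
      have h3 : 1 ≤ ρ * Real.exp (2 * el k K X) := h2.trans (by gcongr)
      exact (le_mul_of_one_le_right (by positivity) h3).trans (le_of_eq (by ring)))) ch2.bd ch1.bd l2 l3 (leg (τ * t * t'))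
      (pr (τ * t * t')) (sgn_leg _) fun v _ => (mem_pr m1.ne_zero).trans leg_eq_zero.symm
    refine ⟨wF F Γ (t * t') * (eps k (τ * t * t') * ∑ S ∈ 𝒮.filter fun S => nS S ≤ R,
      jac (τ * t * t') (eI S) * dX k (cj Ψ) Ψ (Hv h f (el k K X) (Y0 k K X) ρ) h X S
        (pr (τ * t * t'))), ?_, ?_⟩
    · rw [norm_mul, norm_mul, ((c.g3 n hn).1 _ (m1.mono d2)).1, one_mul]
      refine (mul_le_of_le_one_left (norm_nonneg _) (hw1 t ht t' ht')).trans ((norm_sum_le _ _).trans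
        ((sum_le_card_nsmul _ _ (ε / 2 / ((CS / et k K) ^ 2 * (CD * R))) fun S hS => ?_).trans ?_))
      · rw [norm_mul]
        exact (mul_le_of_le_one_left (norm_nonneg _) (norm_jac_le _ _)).trans
          (hP X aP ρ S _ q0 (mem_filter.1 hS).2 (hc.tame t ht t' ht'))
      · have h1 : (((𝒮.filter fun S => nS S ≤ R).card : ℕ) : ℝ) ≤ CD * R :=
          (Nat.cast_le.2 (card_le_ids fun S hS => (mem_filter.1 hS).2)).trans (hD R hR).1
        rw [nsmul_eq_mul]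
        refine (mul_le_mul_of_nonneg_right h1 (by positivity)).trans (le_of_eq ?_)
        field_simp
    · rw [← mul_add, mul_assoc (eps k _), AX, MX, dec, ← sum_filter_add_sum_filter_not 𝒮
        (fun S => nS S ≤ R), mul_add, mul_sum (𝒮.filter fun S => ¬ nS S ≤ R)]
      congr 2
      refine sum_congr rfl fun S _ => ?_
      rw [mul_left_comm, sg_leg]
      congr 1
      refine (dX_mul _ _ _ _ _ _ _ _).trans ?_
      congr 1
      funext b
      rw [q2, hv_mul h f _ Y0p.le r1.le (by positivity) (by positivity), e1]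
      ring
  choose! z hz using key
  rw [sum_congr rfl fun t ht => sum_congr rfl fun t' ht' => (hz t ht t' ht').2]
  simp only [sum_add_distrib]
  have L0 := Real.log_pos X1'
  refine (norm_add_le _ _).trans (le_trans (add_le_add ?_ (large.trans
    (mul_le_mul_of_nonneg_right hRε (by positivity)))) (le_of_eq (by ring :
      ε / 2 * (y₁ * y₂ / Real.log X ^ 2) + ε / 2 * (y₁ * y₂ / Real.log X ^ 2) = _)))
  refine (norm_sum_le _ _).trans ((sum_le_card_nsmul _ _ (T₂.card * (ε / 2 / (CS / et k K) ^ 2))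
    fun t ht => (norm_sum_le _ _).trans ((sum_le_card_nsmul _ _ _ fun t' ht' =>
      (hz t ht t' ht').1).trans (le_of_eq (nsmul_eq_mul _ _)))).trans ?_)
  rw [nsmul_eq_mul, ← mul_assoc]
  refine (mul_le_mul_of_nonneg_right (mul_le_mul k1 k2 (by positivity) (by positivity))
    (by positivity)).trans (le_of_eq ?_)
  field_simp

end Pool.Agent.P.MP_b8021b_nt.BP
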