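import Pool.Agent.P.MP_b8021b_nt.BP.StC

/-! The flip at the last prime. -/

namespace Pool.Agent.P.MP_b8021b_nt.BP

open NumberField IsDedekindDomain Finset MeasureTheory
open Pool.Agent.P.MP_b8021b_nt.VE Pool.Agent.P.MP_b8021b_nt.VC Pool.Agent.P.MP_b8021b_nt.BS.CF
open Pool.Agent.P.MP_b8021b_nt.BS
open scoped Classical ComplexConjugate Real
variable {k : Type} [Field k] [NumberField k] [Algebra k ℂ] {K : Type} [Field K] [NumberField K]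
  [Algebra k K]

namespace PFLIP

omit [NumberField K] in
theorem coe_ne {u : 𝓞 K} {v : Pl K} (h : u ∉ v.asIdeal) : (u : K) ≠ 0 :=
  RingOfIntegers.coe_ne_zero_iff.2 fun e => h (e ▸ v.asIdeal.zero_mem)

theorem od_coe_zero {u : 𝓞 K} {v : Pl K} (h : u ∉ v.asIdeal) : od v (u : K) = 0 :=
  od_eq_zero_of_vl v ((vl_coe_eq v u).2 h)

theorem lp_sq (v : Pl K) {x : K} (hx : x ≠ 0) : LP 2 v (x ^ 2) := LP.pow_self v two_ne_zero hx

theorem odd_mul {T : K} {u : 𝓞 K} {v : Pl K} (hT : T ≠ 0) (h : Odd (od v T))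
    (hu : u ∉ v.asIdeal) : T * u ≠ 0 ∧ Odd (od v (T * u)) :=
  ⟨mul_ne_zero hT (coe_ne hu), by rwa [od_mul v hT (coe_ne hu), od_coe_zero hu, add_zero]⟩

theorem leg_iff {u u' : 𝓞 K} {v : Pl K} (h2 : ¬ Dv 2 v) (h : u ∉ v.asIdeal)
    (h' : u' ∉ v.asIdeal) : leg u v = leg u' v ↔ LP 2 v ((u' : K) / u) := by
  have h0 := coe_ne h
  have e1 : LP 2 v ((u' : K) / u) ↔ LP 2 v ((u' * u : 𝓞 K) : K) := by
    have e : ((u' * u : 𝓞 K) : K) = (u' : K) / u * u ^ 2 := by push_cast; field_simp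
    refine ⟨fun a => e ▸ a.mul (lp_sq v h0), fun a => ?_⟩
    have := a.div (lp_sq v h0)
    rwa [e, mul_div_cancel_right₀ _ (pow_ne_zero 2 h0)] at this
  rw [e1, ← leg_eq_one_iff_LP h2 fun e => (v.isPrime.mem_or_mem e).elim h' h, leg_mul]
  rcases leg_of_not_mem h with a | a <;> rcases leg_of_not_mem h' with a' | a' <;> rw [a, a'] <;>
    norm_num

/-- a kernel element that avoids the last prime -/
theorem side (hLIN : Y_LIN K) {ζ t₀ T : K} {𝓛 : K → Prop} {V Γ D : Finset (Pl K)} {x : K}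
    {z w : 𝓞 K} (hζ : Un ζ) (hG : Grp2 ζ 𝓛) (hK : Kill ζ 𝓛 V) (h0 : t₀ ≠ 0) (hT : T ≠ 0)
    (hV : ∀ v ∈ V, Odd (od v t₀))
    (hΓ : ∀ v ∈ Γ, Sens ζ v ∧ v ∉ V ∧ Odd (od v T) ∧ w ∉ v.asIdeal) (hD : D ⊆ Γ)
    (hx : Rel ζ 𝓛 V t₀ D x) (hz : Rel ζ 𝓛 V t₀ D z) (hz' : ∀ v ∈ Γ, v ∉ D → z ∉ v.asIdeal)
    (hl : ∀ v ∈ Γ, Lin ζ v (T * w) x) :
    (∀ v ∈ Γ, v ∉ D → leg z v = 1) ∧ ∀ v ∈ D, (leg w v = -1 ↔ ¬ Lin ζ v T z) := by
  have x0 := hG.ne _ hx.1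
  have z0 := hG.ne _ hz.1
  have hs := hK.2 (x * z) (hG.mul _ _ hx.1 hz.1) (fun v a b => by
      rw [od_mul v x0 z0, Int.even_add', hx.2.1 v a b, hz.2.1 v a b])
    fun v hv e => by
      obtain ⟨-, l2, l3, -⟩ := hLIN ζ t₀ v hζ (hK.1 v hv) h0 (hV v hv)
      exact l3 _ (l2 _ _ (hx.2.2 v hv) (hz.2.2 v hv)).1 e
  have hp : ∀ v, Sens ζ v → LP 2 v (z / x) := by
    intro v hv
    have a : LP 2 v (x * z) := by
      rcases hs with ⟨y, e⟩ | ⟨y, e⟩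
      · rw [e, ← sq]
        exact lp_sq v fun e0 => mul_ne_zero x0 z0 (by rw [e, e0, mul_zero])
      · have ζ0 := hv.2.ne_zero
        have b : LP 2 v (ζ * (x * z)) := by
          rw [e, ← sq]
          exact lp_sq v fun e0 => mul_ne_zero ζ0 (mul_ne_zero x0 z0) (by rw [e, e0, mul_zero])
        have := b.div hv.2
        rwa [mul_div_cancel_left₀ _ ζ0] at this
    have := a.div (lp_sq v x0)
    rwa [show x * z / x ^ 2 = z / x by field_simp] at this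
  have hz2 : ∀ v ∈ Γ, Lin ζ v (T * w) z := by
    intro v hv
    obtain ⟨g1, -, g3, g4⟩ := hΓ v hv
    obtain ⟨-, -, -, l4, -⟩ := hLIN ζ (T * w) v hζ g1 (odd_mul hT g3 g4).1 (odd_mul hT g3 g4).2
    have := (l4 _ _ (hl v hv) (hp v g1)).2
    rwa [mul_div_cancel₀ _ x0] at this
  refine ⟨fun v hv hv' => ?_, fun v hv => ?_⟩
  · obtain ⟨g1, g2, g3, g4⟩ := hΓ v hv
    obtain ⟨-, -, l3, -⟩ := hLIN ζ (T * w) v hζ g1 (odd_mul hT g3 g4).1 (odd_mul hT g3 g4).2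
    exact (leg_eq_one_iff_LP g1.1 (hz' v hv hv')).2 (l3 _ (hz2 v hv)
      (Int.not_odd_iff_even.1 fun e => hv' ((hz.2.1 v g1.1 g2).1 e)))
  · obtain ⟨g1, g2, g3, g4⟩ := hΓ v (hD hv)
    have o := (hz.2.1 v g1.1 g2).2 hv
    rw [leg_eq_neg_iff g1.1 g4]
    refine ⟨fun a b => ?_, fun a b => a ?_⟩
    · obtain ⟨-, -, -, -, l5⟩ := hLIN ζ T v hζ g1 hT g3
      refine l5 z z w (coe_ne g4) (by rw [od_coe_zero g4]; exact Even.zero) a b (hz2 v (hD hv)) o o ?_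
      rw [← sq]; exact lp_sq v z0
    · obtain ⟨-, -, -, l4, -⟩ := hLIN ζ (T * w) v hζ g1 (odd_mul hT g3 g4).1 (odd_mul hT g3 g4).2
      have := (l4 _ _ (hz2 v (hD hv)) b.inv).1
      rwa [mul_inv_cancel_right₀ (coe_ne g4)] at this

end PFLIP

open PFLIP

theorem y_fLIP (c : Cx k K) (hLIN : Y_LIN K) : Y_FLIP K := by
  intro ζ t₀ T 𝓛 V Γ q r z u u' hζ hG hK h0 hT hV hΓ hq hz hl hl' hu hu'
  unfold Unr at hu hu'
  push Not at hu hu'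
  obtain ⟨D, x, d1, d2, d3, d4⟩ := hu
  obtain ⟨D', x', d1', d2', d3', d4'⟩ := hu'
  by_cases e : q ∈ D
  swap
  · obtain ⟨a1, a2, a3⟩ := hz D d1 ⟨x, d2⟩
    obtain ⟨b1, b2⟩ := side hLIN hζ hG hK h0 hT hV (fun v hv => let ⟨g1, g2, g3, g4, _⟩ := hΓ v hv;
      ⟨g1, g2, g3, g4⟩) d1 d2 a2 a3 d3
    exact ⟨D, (subset_insert_iff_of_notMem e).1 d1, d4.ne_empty, a1, b1, b2⟩
  by_cases e' : q ∈ D'
  swap
  · obtain ⟨a1, a2, a3⟩ := hz D' d1' ⟨x', d2'⟩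
    obtain ⟨b1, b2⟩ := side hLIN hζ hG hK h0 hT hV (fun v hv => let ⟨g1, g2, g3, _, g4⟩ := hΓ v hv;
      ⟨g1, g2, g3, g4⟩) d1' d2' a2 a3 d3'
    have s := (subset_insert_iff_of_notMem e').1 d1'
    exact ⟨D', s, d4'.ne_empty, a1, b1, fun v hv => by rw [hl v (s hv)]; exact b2 v hv⟩
  exfalso
  have x0 := hG.ne _ d2.1
  have x0' := hG.ne _ d2'.1
  obtain ⟨q1, q2, q3, q4, q5⟩ := hΓ q (mem_insert_self _ _)
  have o := (d2.2.1 q q1.1 q2).2 e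
  have hn : ¬ LP 2 q (x * x') := by
    obtain ⟨-, -, -, -, l5⟩ := hLIN ζ (T * u) q hζ q1 (odd_mul hT q3 q4).1 (odd_mul hT q3 q4).2
    refine l5 x x' ((u' : K) / u) (div_ne_zero (coe_ne q5) (coe_ne q4)) ?_
      (fun a => hl' ((leg_iff q1.1 q4 q5).2 a)) (d3 q (mem_insert_self _ _)) ?_ o
      ((d2'.2.1 q q1.1 q2).2 e')
    · rw [od_div q (coe_ne q5) (coe_ne q4), od_coe_zero q4, od_coe_zero q5]; exact Even.zero
    · rw [mul_assoc, mul_div_cancel₀ _ (coe_ne q4)]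
      exact d3' q (mem_insert_self _ _)
  have hP : 1 ≤ ∏ v ∈ V ∪ Γ, Ideal.absNorm v.asIdeal :=
    Nat.one_le_iff_ne_zero.2 (prod_ne_zero_iff.2 fun v _ a =>
      v.ne_bot (Ideal.absNorm_eq_zero_iff.1 a))
  refine Int.not_even_iff_odd.2 o (even_iff_two_dvd.2 (c.lib.wr K 2
    (2 * ∏ v ∈ V ∪ Γ, Ideal.absNorm v.asIdeal) (x * x') x q c.om (Or.inl rfl) (by omega)
    (dvd_mul_right _ _) (mul_ne_zero x0 x0') x0 (fun a => ?_) (fun v a => ?_) hn fun v hv => ?_))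
  · rcases (dv_mul q).1 a with a | a
    · exact q1.1 a
    · rw [Dv, Nat.cast_prod] at a
      obtain ⟨v, hv, a⟩ := (Ideal.IsPrime.prod_mem_iff (hp := q.isPrime)).1 a
      exact hq v hv a
  · have a1 : ¬ Dv 2 v := fun b => a (b.of_dvd (dvd_mul_right _ _))
    have a2 : v ∉ V ∪ Γ := fun b => a (Dv.of_dvd (Ideal.absNorm_mem _)
      ((dvd_prod_of_mem (fun v : Pl K => Ideal.absNorm v.asIdeal) b).mul_left _))
    rw [mem_union, not_or] at a2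
    refine even_iff_two_dvd.1 ?_
    rw [od_mul v x0 x0', Int.even_add', d2.2.1 v a1 a2.1, d2'.2.1 v a1 a2.1]
    exact ⟨fun b => (mem_insert.1 (d1 b)).resolve_right a2.2 ▸ e',
      fun b => (mem_insert.1 (d1' b)).resolve_right a2.2 ▸ e⟩
  by_cases a1 : Dv 2 v
  · exact Or.inl (hG.iso _ _ (hG.mul _ _ d2.1 d2'.1) d2.1 v a1)
  by_cases a2 : v ∈ V
  · obtain ⟨-, l2, -⟩ := hLIN ζ t₀ v hζ (hK.1 v a2) h0 (hV v a2)
    exact Or.inl (l2 _ _ (l2 _ _ (d2.2.2 v a2) (d2'.2.2 v a2)).1 (d2.2.2 v a2)).2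
  by_cases a3 : v ∈ Γ
  · have a4 := mem_insert_of_mem (b := q) a3
    obtain ⟨g1, -, g3, g4, g5⟩ := hΓ v a4
    obtain ⟨-, l2, -⟩ := hLIN ζ (T * u) v hζ g1 (odd_mul hT g3 g4).1 (odd_mul hT g3 g4).2
    obtain ⟨-, -, -, l4, -⟩ := hLIN ζ (T * u') v hζ g1 (odd_mul hT g3 g5).1 (odd_mul hT g3 g5).2
    have := (l4 _ _ (d3' v a4) ((leg_iff a1 g5 g4).1 (hl v a3).symm)).1
    rw [mul_assoc, mul_div_cancel₀ _ (coe_ne g5)] at this
    exact Or.inl (l2 _ _ (l2 _ _ (d3 v a4) this).1 (d3 v a4)).2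
  · have b1 : Even (od v x) := Int.not_odd_iff_even.1 fun b =>
      (mem_insert.1 (d1 ((d2.2.1 v a1 a2).1 b))).elim hv a3
    have b2 : Even (od v x') := Int.not_odd_iff_even.1 fun b =>
      (mem_insert.1 (d1' ((d2'.2.1 v a1 a2).1 b))).elim hv a3
    exact Or.inr ⟨a1, even_iff_two_dvd.1 (by rw [od_mul v x0 x0']; exact b1.add b2),
      even_iff_two_dvd.1 b1⟩

end Pool.Agent.P.MP_b8021b_nt.BP
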