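import Pool.Agent.P.MP_b8021b_nt.BP.StC

namespace Pool.Agent.P.MP_b8021b_nt.BP

open NumberField IsDedekindDomain Finset MeasureTheory
open Pool.Agent.P.MP_b8021b_nt.VE Pool.Agent.P.MP_b8021b_nt.VC Pool.Agent.P.MP_b8021b_nt.BS.CF
open Pool.Agent.P.MP_b8021b_nt.BS
open scoped Classical ComplexConjugate Real
variable {k : Type} [Field k] [NumberField k] [Algebra k ℂ] {K : Type} [Field K] [NumberField K] [Algebra k K]

namespace PFM0

/-- the square of the character sum over a block -/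
noncomputable def aa (T : Finset (𝓞 K)) (D : Finset (Pl K)) : ℝ := ‖∑ t ∈ T, jac t (eI D)‖ ^ 2

omit [NumberField K] in
theorem aa_nonneg (T : Finset (𝓞 K)) (D : Finset (Pl K)) : 0 ≤ aa T D := sq_nonneg _

/-- one cell -/
theorem cell (F : Finset (Pl K) → ℝ) (Γ : Finset (Pl K)) (T₁ T₂ : Finset (𝓞 K))
    (hF : ∑ D ∈ Γ.powerset, F D ^ 2 ≤ 1) :
    F ∅ * (T₁.card * T₂.card) - T₁.card * √(∑ D ∈ Γ.powerset.erase ∅, aa T₂ D) ≤
      (∑ t ∈ T₁, ∑ t' ∈ T₂, wF F Γ (t * t')).re := by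
  have e : ∑ t ∈ T₁, ∑ t' ∈ T₂, wF F Γ (t * t') =
      ∑ D ∈ Γ.powerset, F D * ((∑ t ∈ T₁, jac t (eI D)) * ∑ t ∈ T₂, jac t (eI D)) := by
    simp only [wF, jac_mul_left, sum_mul_sum]
    simp only [mul_sum]
    rw [sum_comm (s := Γ.powerset)]
    exact sum_congr rfl fun t _ => sum_comm
  rw [e, ← add_sum_erase _ _ (empty_mem_powerset Γ), Complex.add_re]
  have e0 : ((F ∅ : ℂ) * ((∑ t ∈ T₁, jac t (eI ∅)) * ∑ t ∈ T₂, jac t (eI ∅))).re =
      F ∅ * (T₁.card * T₂.card) := by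
    simp [eI_empty, jac_top]
  rw [e0, sub_eq_add_neg]
  refine add_le_add_right ((neg_le_neg ?_).trans (neg_le_of_abs_le (Complex.abs_re_le_norm _))) _
  refine (norm_sum_le _ _).trans ?_
  have h1 : ∀ D, ‖∑ t ∈ T₁, jac t (eI D)‖ ≤ T₁.card := fun D =>
    (norm_sum_le _ _).trans (by simpa using sum_le_card_nsmul T₁ _ 1 fun t _ => norm_jac_le t (eI D))
  calc _ ≤ ∑ D ∈ Γ.powerset.erase ∅, T₁.card * (|F D| * ‖∑ t ∈ T₂, jac t (eI D)‖) := by
        refine sum_le_sum fun D _ => ?_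
        rw [norm_mul, norm_mul, Complex.norm_real, Real.norm_eq_abs, mul_left_comm]
        gcongr
        exact h1 D
    _ ≤ _ := by
        rw [← mul_sum]
        refine mul_le_mul_of_nonneg_left ((Real.sum_mul_le_sqrt_mul_sqrt _ _ _).trans ?_)
          (Nat.cast_nonneg _)
        refine mul_le_of_le_one_left (Real.sqrt_nonneg _) (Real.sqrt_le_one.2 (le_trans ?_ hF))
        simp only [sq_abs]
        exact sum_le_sum_of_subset_of_nonneg (erase_subset _ _) fun _ _ _ => sq_nonneg _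

theorem Z0_eq (𝒰 : Finset (Pl K)) : Z0 𝒰 = ∑ S ∈ 𝒰.powerset, (nS S)⁻¹ := by
  rw [Z0, prod_one_add]
  exact sum_congr rfl fun S _ => by rw [nS_eq, prod_inv_distrib]

theorem Z0_pos (𝒰 : Finset (Pl K)) : 0 < Z0 𝒰 :=
  prod_pos fun v _ => by have := nv_pos v; positivity

theorem sum_le {𝒰 : Finset (Pl K)} {𝒯 : Finset (Finset (Pl K))} (h : 𝒯 ⊆ 𝒰.powerset) :
    ∑ S ∈ 𝒯, (nS S)⁻¹ ≤ Z0 𝒰 := by
  rw [Z0_eq]
  exact sum_le_sum_of_subset_of_nonneg h fun S _ _ => (inv_pos.2 (nS_pos S)).le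

theorem sum_mem_le {𝒰 : Finset (Pl K)} {𝒯 : Finset (Finset (Pl K))} (h : 𝒯 ⊆ 𝒰.powerset)
    (v : Pl K) : ∑ S ∈ 𝒯.filter (v ∈ ·), (nS S)⁻¹ ≤ (nv v)⁻¹ * Z0 𝒰 := by
  have e : ∑ S ∈ 𝒯.filter (v ∈ ·), (nS S)⁻¹ =
      (nv v)⁻¹ * ∑ S ∈ (𝒯.filter (v ∈ ·)).image (·.erase v), (nS S)⁻¹ := by
    rw [sum_image, mul_sum]
    · refine sum_congr rfl fun S hS => ?_
      rw [← mul_inv, nS_eq, nS_eq, mul_prod_erase _ _ (mem_filter.1 hS).2]
    · intro S hS S' hS' e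
      rw [← insert_erase (mem_filter.1 hS).2, ← insert_erase (mem_filter.1 hS').2]
      exact congrArg _ e
  rw [e]
  refine mul_le_mul_of_nonneg_left (sum_le fun S hS => ?_) (inv_pos.2 (nv_pos v)).le
  obtain ⟨S', h1, rfl⟩ := mem_image.1 hS
  exact mem_powerset.2 ((erase_subset _ _).trans (mem_powerset.1 (h (mem_filter.1 h1).1)))

/-- the share of a nonempty set of places -/
theorem share {𝒰 Q : Finset (Pl K)} {𝒯 : Finset (Finset (Pl K))} (h : 𝒯 ⊆ 𝒰.powerset) {W : ℝ}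
    (hW : 0 < W) (hU : ∀ v ∈ 𝒰, W ≤ nv v) (hQ : ∀ v ∈ Q, W ≤ nv v)
    (hd : ∀ S ∈ 𝒯, ∀ v ∈ Q, v ∉ S) (h5 : 1 / 5 ≤ ∑ q ∈ Q, (nv q)⁻¹)
    (Γ : Finset (Pl K) × Pl K → Finset (Pl K)) (hΓ : ∀ p, Γ p ⊆ insert p.2 p.1)
    (D : Finset (Pl K)) :
    ∑ p ∈ (𝒯 ×ˢ Q).filter (fun p => D ∈ (Γ p).powerset.erase ∅), (nS p.1 * nv p.2)⁻¹ ≤
      5 * (Z0 𝒰 * ∑ q ∈ Q, (nv q)⁻¹) / W := by
  have hZ := Z0_pos 𝒰
  have hw : ∀ p : Finset (Pl K) × Pl K, 0 ≤ (nS p.1 * nv p.2)⁻¹ := fun p =>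
    (inv_pos.2 (mul_pos (nS_pos _) (nv_pos _))).le
  rcases ((𝒯 ×ˢ Q).filter (fun p => D ∈ (Γ p).powerset.erase ∅)).eq_empty_or_nonempty with
    e | ⟨p₀, hp₀⟩
  · rw [e, sum_empty]
    positivity
  obtain ⟨a1, a2⟩ := mem_filter.1 hp₀
  obtain ⟨v, hv⟩ := nonempty_iff_ne_empty.2 (mem_erase.1 a2).1
  have hm : ∀ p ∈ (𝒯 ×ˢ Q).filter (fun p => D ∈ (Γ p).powerset.erase ∅), v = p.2 ∨ v ∈ p.1 :=
    fun p hp => mem_insert.1 (hΓ p (mem_powerset.1 (mem_erase.1 (mem_filter.1 hp).2).2 hv))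
  by_cases hq : v ∈ Q
  · have hs : (𝒯 ×ˢ Q).filter (fun p => D ∈ (Γ p).powerset.erase ∅) ⊆ 𝒯 ×ˢ {v} := fun p hp => by
      have b := mem_product.1 (mem_filter.1 hp).1
      exact mem_product.2 ⟨b.1, mem_singleton.2 ((hm p hp).resolve_right (hd _ b.1 v hq)).symm⟩
    refine (sum_le_sum_of_subset_of_nonneg hs fun p _ _ => hw p).trans ?_
    rw [sum_product]
    simp only [sum_singleton, mul_inv]
    rw [← sum_mul]
    calc _ ≤ Z0 𝒰 * W⁻¹ :=
          mul_le_mul (sum_le h) (inv_anti₀ hW (hQ v hq)) (inv_pos.2 (nv_pos v)).le hZ.le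
      _ ≤ _ := by
          rw [← div_eq_mul_inv]
          gcongr
          nlinarith
  · have hs : (𝒯 ×ˢ Q).filter (fun p => D ∈ (Γ p).powerset.erase ∅) ⊆
        𝒯.filter (v ∈ ·) ×ˢ Q := fun p hp => by
      have b := mem_product.1 (mem_filter.1 hp).1
      exact mem_product.2 ⟨mem_filter.2 ⟨b.1, (hm p hp).resolve_left fun e => hq (e ▸ b.2)⟩, b.2⟩
    have hv' := mem_filter.1 (mem_product.1 (hs hp₀)).1
    refine (sum_le_sum_of_subset_of_nonneg hs fun p _ _ => hw p).trans ?_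
    rw [sum_product]
    simp only [mul_inv]
    rw [← sum_mul_sum]
    have h0 : 0 ≤ ∑ q ∈ Q, (nv q)⁻¹ := by linarith
    calc _ ≤ W⁻¹ * Z0 𝒰 * ∑ q ∈ Q, (nv q)⁻¹ := by
          refine mul_le_mul_of_nonneg_right ((sum_mem_le h v).trans ?_) h0
          exact mul_le_mul_of_nonneg_right
            (inv_anti₀ hW (hU v (mem_powerset.1 (h hv'.1) hv'.2))) hZ.le
      _ ≤ _ := by
          rw [mul_assoc, inv_mul_eq_div]
          exact div_le_div_of_nonneg_right (by linarith [mul_nonneg hZ.le h0]) hW.le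

/-- Cauchy-Schwarz over the cells -/
theorem cs {ι δ : Type} [DecidableEq δ] (P : Finset ι) (w : ι → ℝ) (hw : ∀ p, 0 ≤ w p) (G : ι → Finset δ)
    (a : δ → ℝ) (ha : ∀ D, 0 ≤ a D) {M s A : ℝ} (hM : ∑ p ∈ P, w p ≤ M) (hs0 : 0 ≤ s)
    (hs : ∀ D, ∑ p ∈ P.filter (fun p => D ∈ G p), w p ≤ s)
    (hA : ∑ D ∈ P.biUnion G, a D ≤ A) :
    ∑ p ∈ P, w p * √(∑ D ∈ G p, a D) ≤ √M * √(s * A) := by
  have h0 : ∀ p, 0 ≤ w p * ∑ D ∈ G p, a D := fun p => mul_nonneg (hw p) (sum_nonneg fun D _ => ha D)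
  have e : ∀ p, w p * √(∑ D ∈ G p, a D) = √(w p) * √(w p * ∑ D ∈ G p, a D) := fun p => by
    rw [Real.sqrt_mul (hw p), ← mul_assoc, Real.mul_self_sqrt (hw p)]
  simp only [e]
  refine (Real.sum_sqrt_mul_sqrt_le P hw h0).trans ?_
  refine mul_le_mul (Real.sqrt_le_sqrt hM) (Real.sqrt_le_sqrt ?_) (Real.sqrt_nonneg _)
    (Real.sqrt_nonneg _)
  simp only [mul_sum]
  rw [sum_comm' (t' := P.biUnion G) (s' := fun D => P.filter fun p => D ∈ G p) (by
    intro p D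
    simp only [mem_filter, mem_biUnion]
    exact ⟨fun h => ⟨h, p, h⟩, fun h => h.1⟩)]
  refine le_trans (sum_le_sum fun D _ => ?_) ((mul_sum _ _ _).ge.trans
    (mul_le_mul_of_nonneg_left hA hs0))
  rw [← sum_mul]
  exact mul_le_mul_of_nonneg_right (hs D) (ha D)

theorem log_le {X y e C : ℝ} (hX : 1 < X) (he : 0 < e) (hC : 0 ≤ C) (h : X ^ e ≤ y) :
    C * y / Real.log y ≤ C / e * y / Real.log X := by
  have h1 := Real.log_pos hX
  have h2 : 0 < X ^ e := by positivity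
  have h3 := Real.log_le_log h2 h
  rw [Real.log_rpow (by linarith)] at h3
  rw [div_mul_eq_mul_div, div_div]
  exact div_le_div_of_nonneg_left (mul_nonneg hC (h2.le.trans h)) (mul_pos he h1) h3

end PFM0

open PFM0

theorem y_fM0 (c : Cx k K) (hSLT : Y_SLT k K) : Y_FM0 k K := by
  intro n 𝒜 C hn
  obtain ⟨C₁, y₀, hC₁, hy₀, hS⟩ := hSLT n 𝒜 C hn
  have he := c.et_pos
  refine ⟨3 * (C₁ / et k K) ^ 2, max 3 (y₀ ^ (1 / et k K)), by positivity, ?_⟩
  intro Φ ζ B c₀ W u X F hX hB hc hW hΦ h5 hF hm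
  have hX1 : 1 < X := by linarith [le_max_left 3 (y₀ ^ (1 / et k K))]
  have hL := Real.log_pos hX1
  have hy : y₀ ≤ X ^ et k K := by
    have := Real.rpow_le_rpow (by positivity) ((le_max_right _ _).trans hX) he.le
    rwa [← Real.rpow_mul (by linarith), one_div_mul_cancel he.ne', Real.rpow_one] at this
  set Z := Z0 (pls K W Φ.y) * ∑ q ∈ QQ ζ Φ.yq, (nv q)⁻¹ with hZ
  have hZ0 : 0 < Z := mul_pos (Z0_pos _) (by linarith)
  set P := TT K W Φ.y u ×ˢ QQ ζ Φ.yq with hP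
  set Γ : Finset (Pl K) × Pl K → Finset (Pl K) := fun p => insert p.2 (p.1.filter (Sens ζ)) with hΓ
  set w : Finset (Pl K) × Pl K → ℝ := fun p => (nS p.1 * nv p.2)⁻¹ with hw
  have hw0 : ∀ p, 0 < w p := fun p => inv_pos.2 (mul_pos (nS_pos _) (nv_pos _))
  have hTT : TT K W Φ.y u ⊆ (pls K W Φ.y).powerset := filter_subset _ _
  rw [← sum_product'] at hm
  obtain ⟨p₀, hp₀⟩ : P.Nonempty := nonempty_of_sum_ne_zero (by
    intro e
    rw [e] at hm
    linarith)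
  have hsum : ∑ p ∈ P, w p ≤ Z := by
    rw [hP, sum_product]
    simp only [hw, mul_inv]
    rw [← sum_mul_sum]
    exact mul_le_mul_of_nonneg_right (sum_le hTT) (by linarith)
  have hsh := share hTT (Q := QQ ζ Φ.yq) (by linarith : 0 < W) (fun v hv => (mem_pls.1 hv).1.le)
    (fun v hv => hΦ.big.trans (mem_pls.1 (mem_filter.1 hv).1).1.le)
    (fun S hS v hv h => hΦ.alone S hS v hv v h (Ideal.absNorm_mem _)) h5 Γ
    (fun p => insert_subset_insert _ (filter_subset _ _))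
  set E := C₁ / et k K with hE
  have hE0 : 0 < E := by positivity
  have key : ∀ j ∈ Φ.𝒥, X / (B * Real.log X ^ 2) * Z * (c₀ ^ 2 / 10 - 3 * E ^ 2 / √W) ≤
      ∑ p ∈ P, (∑ t ∈ Φ.T₁ (insert p.2 p.1) j, ∑ t' ∈ Φ.T₂ j,
        wF (F p.1 p.2) (Γ p) (t * t')).re := by
    intro j hj
    have hcell := fun p (hp : p ∈ P) => hΦ.cell p.1 (mem_product.1 hp).1 p.2 (mem_product.1 hp).2 j hj
    have c0 := hcell p₀ hp₀
    have hy2 : 0 < Φ.y₂ j := one_pos.trans_le (c.lo c0.toPair hX1.le).2.2.2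
    obtain ⟨s1, s2⟩ := hS _ _ (hy.trans c0.lo2) c0.b2
    have l2 := log_le hX1 he (by linarith : 0 ≤ C₁) c0.lo2
    have hΔ : 0 ≤ C₁ * Φ.y₂ j / Real.log (Φ.y₂ j) := (Nat.cast_nonneg _).trans s1
    have hA : ∑ D ∈ P.biUnion (fun p => (Γ p).powerset.erase ∅), aa (Φ.T₂ j) D ≤
        (E * Φ.y₂ j / Real.log X) ^ 2 := by
      have h1 := ms_of_hs (s2 ((P.biUnion fun p => (Γ p).powerset.erase ∅).image eI) (by
        intro I hI
        obtain ⟨D, hD, rfl⟩ := mem_image.1 hI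
        obtain ⟨p, hp, hD⟩ := mem_biUnion.1 hD
        have hD := mem_powerset.1 (mem_erase.1 hD).2
        have cp := hcell p hp
        refine ⟨squarefree_eI D, (cop_eI hn.pos).2 fun v hv => cp.cop v (hD hv),
          (nS_mono hD).trans (cp.small.trans ?_)⟩
        have h2 := c.cz_pos
        refine le_trans ?_ (Real.rpow_le_rpow (by positivity) cp.lo2 h2.le)
        rw [← Real.rpow_mul (by linarith)]
        exact Real.rpow_le_rpow_of_exponent_le hX1.le (half_le_self (by positivity)))) hΔ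
        (fun _ => 1) (fun _ => by simp)
      rw [sum_image eI_inj.injOn] at h1
      simp only [one_mul] at h1
      refine h1.trans ?_
      rw [sq]
      exact mul_le_mul l2 (s1.trans l2) (Nat.cast_nonneg _) (hΔ.trans l2)
    have hcs := cs P w (fun p => (hw0 p).le) (fun p => (Γ p).powerset.erase ∅) (aa (Φ.T₂ j))
      (aa_nonneg (Φ.T₂ j)) hsum (s := 5 * Z / W) (by positivity)
      hsh hA
    have hcs2 : √Z * √(5 * Z / W * (E * Φ.y₂ j / Real.log X) ^ 2) ≤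
        3 * Z / √W * (E * Φ.y₂ j / Real.log X) := by
      rw [← Real.sqrt_mul hZ0.le]
      refine Real.sqrt_le_iff.2 ⟨by positivity, ?_⟩
      rw [mul_pow, div_pow (3 * Z), Real.sq_sqrt (by linarith), ← mul_assoc]
      refine mul_le_mul_of_nonneg_right ?_ (sq_nonneg _)
      rw [← mul_div_assoc]
      refine div_le_div_of_nonneg_right ?_ (by linarith)
      nlinarith [mul_pos hZ0 hZ0]
    have each : ∀ p ∈ P, X / (B * Real.log X ^ 2) * c₀ ^ 2 * (w p * F p.1 p.2 ∅) -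
        E * X / (B * Φ.y₂ j * Real.log X) *
          (w p * √(∑ D ∈ (Γ p).powerset.erase ∅, aa (Φ.T₂ j) D)) ≤
        (∑ t ∈ Φ.T₁ (insert p.2 p.1) j, ∑ t' ∈ Φ.T₂ j, wF (F p.1 p.2) (Γ p) (t * t')).re := by
      intro p hp
      obtain ⟨a1, a2⟩ := mem_product.1 hp
      have cp := hcell p hp
      obtain ⟨f1, f2⟩ := hF _ a1 _ a2
      obtain ⟨m1, m2⟩ := hΦ.many _ a1 _ a2 j hj
      have pr := hΦ.prod _ a1 _ a2 j hj
      obtain ⟨-, lo1, o1, -⟩ := c.lo cp.toPair hX1.le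
      have s3 := (hS _ _ (hy.trans lo1) cp.b1).1.trans (log_le hX1 he (by linarith) lo1)
      have hN := mul_pos (nS_pos p.1) (nv_pos p.2)
      have ey : Φ.y₁ (insert p.2 p.1) j = X / (B * Φ.y₂ j) * w p := by
        rw [div_mul_eq_mul_div, eq_div_iff (mul_pos hB hy2).ne', hw, ← div_eq_mul_inv,
          eq_div_iff hN.ne', ← pr]
        ring
      refine le_trans (sub_le_sub ?_ ?_) (cell _ _ _ _ f1)
      · refine le_trans (le_of_eq ?_) (mul_le_mul_of_nonneg_left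
          (mul_le_mul m1 m2 (by positivity) (Nat.cast_nonneg _)) f2)
        rw [ey]
        field_simp
      · rw [← mul_assoc]
        refine mul_le_mul_of_nonneg_right (s3.trans (le_of_eq ?_)) (Real.sqrt_nonneg _)
        rw [ey, ← hE]
        field_simp
    refine le_trans ?_ (sum_le_sum each)
    rw [sum_sub_distrib, ← mul_sum, ← mul_sum, mul_sub]
    refine sub_le_sub ?_ ?_
    · refine le_trans (le_of_eq ?_) (mul_le_mul_of_nonneg_left hm (by positivity))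
      ring
    · refine (mul_le_mul_of_nonneg_left (hcs.trans hcs2) (by positivity)).trans (le_of_eq ?_)
      field_simp
  have e : Φ.sum ζ W u (fun S q t t' => wF (F S q) (insert q (S.filter (Sens ζ))) (t * t')) =
      ∑ j ∈ Φ.𝒥, ∑ p ∈ P, ∑ t ∈ Φ.T₁ (insert p.2 p.1) j, ∑ t' ∈ Φ.T₂ j,
        wF (F p.1 p.2) (Γ p) (t * t') := by
    rw [Fm.sum, ← sum_product', sum_comm]
  rw [e, Complex.re_sum]
  refine le_trans (le_of_eq ?_) (sum_le_sum fun j hj => (key j hj).trans_eq (Complex.re_sum _ _).symm)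
  rw [sum_const, nsmul_eq_mul]
  ring

end Pool.Agent.P.MP_b8021b_nt.BP
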