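import Pool.Agent.P.MP_b8021b_nt.BP.StC

/-!
Fourier analysis on the subsets of a finite set.
-/

namespace Pool.Agent.P.MP_b8021b_nt.BP

open NumberField IsDedekindDomain Finset MeasureTheory
open Pool.Agent.P.MP_b8021b_nt.VE Pool.Agent.P.MP_b8021b_nt.VC Pool.Agent.P.MP_b8021b_nt.BS.CF
open Pool.Agent.P.MP_b8021b_nt.BS
open scoped Classical ComplexConjugate Real

namespace PFOUR

variable {ι : Type} [DecidableEq ι]

theorem sgn_eq (D S : Finset ι) :
    (-1 : ℝ) ^ (D ∩ S).card = ∏ v ∈ D, if v ∈ S then (-1 : ℝ) else 1 := by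
  rw [Finset.prod_ite_mem, Finset.prod_const]

theorem orth (Λ : Finset ι) {S T : Finset ι} (hS : S ⊆ Λ) (hT : T ⊆ Λ) :
    ∑ D ∈ Λ.powerset, (-1 : ℝ) ^ (D ∩ S).card * (-1) ^ (D ∩ T).card =
      if S = T then 2 ^ Λ.card else 0 := by
  simp only [sgn_eq, ← Finset.prod_mul_distrib]
  rw [← Finset.prod_one_add]
  split_ifs with h
  · subst h
    rw [← Finset.prod_const]
    refine Finset.prod_congr rfl fun v _ => ?_
    split_ifs <;> norm_num
  · obtain ⟨v, hv⟩ : ∃ v, ¬ (v ∈ S ↔ v ∈ T) := not_forall.1 fun h' => h (Finset.ext h')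
    by_cases a : v ∈ S
    · exact Finset.prod_eq_zero (hS a) (by
        rw [if_pos a, if_neg fun b => hv ⟨fun _ => b, fun _ => a⟩]; norm_num)
    · have b : v ∈ T := by
        by_contra b
        exact hv ⟨fun x => absurd x a, fun x => absurd x b⟩
      exact Finset.prod_eq_zero (hT b) (by rw [if_neg a, if_pos b]; norm_num)

theorem cnt_le {Γ D : Finset ι} (hD : D ⊆ Γ) (T : Finset ι) :
    ∑ S ∈ Γ.powerset, (if S ∩ D = T then (1 : ℝ) else 0) ≤ 2 ^ Γ.card * (2 ^ D.card)⁻¹ := by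
  rw [Finset.sum_boole, ← div_eq_mul_inv, le_div_iff₀ (by positivity),
    ← Finset.card_sdiff_add_card_eq_card hD, pow_add]
  refine mul_le_mul_of_nonneg_right ?_ (by positivity)
  have h : (Γ.powerset.filter fun S => S ∩ D = T).card ≤ (Γ \ D).powerset.card := by
    refine Finset.card_le_card_of_injOn (fun S => S \ D) (fun S hS => ?_) fun S hS S' hS' e => ?_
    · simp only [coe_filter, mem_powerset, Set.mem_ofPred_eq] at hS
      exact mem_coe.2 (mem_powerset.2 (sdiff_subset_sdiff hS.1 (Subset.refl _)))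
    · simp only [coe_filter, mem_powerset, Set.mem_ofPred_eq] at hS hS'
      have e' : S \ D = S' \ D := e
      rw [← sdiff_union_inter S D, ← sdiff_union_inter S' D, e', hS.2, hS'.2]
  rw [card_powerset] at h
  exact_mod_cast h

end PFOUR

open PFOUR in
theorem y_fOUR : Y_FOUR := by
  intro ι _ Γ q G p σ hq h
  obtain ⟨Λ, hΛ⟩ : ∃ Λ, Λ = insert q Γ := ⟨_, rfl⟩
  obtain ⟨g, hg⟩ : ∃ g : Finset ι → ℝ, ∀ S, g S = if G S then 1 else 0 := ⟨_, fun _ => rfl⟩
  have g0 : ∀ S, 0 ≤ g S := fun S => by rw [hg]; split_ifs <;> norm_num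
  have g1 : ∀ S, g S * g S ≤ 1 := fun S => by rw [hg]; split_ifs <;> norm_num
  obtain ⟨F, hF⟩ : ∃ F : Finset ι → ℝ, ∀ D, F D =
      (2 ^ Λ.card)⁻¹ * ∑ S ∈ Λ.powerset, g S * (-1) ^ (D ∩ S).card := ⟨_, fun _ => rfl⟩
  have p2 : (0 : ℝ) < 2 ^ Λ.card := by positivity
  have inv : ∀ T ⊆ Λ, ∑ D ∈ Λ.powerset, F D * (-1) ^ (D ∩ T).card = g T := fun T hT => by
    simp only [hF, mul_assoc, Finset.sum_mul]
    rw [← Finset.mul_sum, Finset.sum_comm, Finset.sum_eq_single T]
    · rw [← Finset.mul_sum, orth Λ hT hT, if_pos rfl]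
      field_simp
    · intro S hS hne
      rw [← Finset.mul_sum, orth Λ (mem_powerset.1 hS) hT, if_neg hne, mul_zero]
    · exact fun h' => absurd (mem_powerset.2 hT) h'
  have F0 : F ∅ = (2 ^ Λ.card)⁻¹ * ∑ S ∈ Λ.powerset, g S := by simp [hF]
  rw [← hΛ]
  refine ⟨F, ?_, ?_, ?_, fun S hS => by rw [inv S hS, hg]⟩
  · have e : ∑ D ∈ Λ.powerset, F D ^ 2 = (2 ^ Λ.card)⁻¹ * ∑ S ∈ Λ.powerset, g S * g S := by
      have e1 : ∀ D, F D ^ 2 =
          (2 ^ Λ.card)⁻¹ * ∑ S ∈ Λ.powerset, g S * (F D * (-1) ^ (D ∩ S).card) := fun D => by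
        rw [sq]
        nth_rewrite 2 [hF]
        rw [mul_left_comm, Finset.mul_sum]
        congr 1
        exact Finset.sum_congr rfl fun S _ => by ring
      simp only [e1]
      rw [← Finset.mul_sum, Finset.sum_comm]
      congr 1
      exact Finset.sum_congr rfl fun S hS => by rw [← Finset.mul_sum, inv S (mem_powerset.1 hS)]
    rw [e, inv_mul_le_iff₀ p2, mul_one]
    refine (Finset.sum_le_sum fun S _ => g1 S).trans ?_
    simp
  · rw [F0]
    exact mul_nonneg (by positivity) (Finset.sum_nonneg fun S _ => g0 S)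
  · rw [F0, le_inv_mul_iff₀ p2, hΛ, Finset.sum_powerset_insert hq, card_insert_of_notMem hq,
      ← Finset.sum_add_distrib]
    have a : ∀ S ∈ Γ.powerset, 1 - ∑ D ∈ Γ.powerset.erase ∅,
        (if p D then (if S ∩ D = σ D then (1 : ℝ) else 0) else 0) ≤ g S + g (insert q S) := by
      intro S hS
      have n0 : ∀ D ∈ Γ.powerset.erase ∅,
          0 ≤ (if p D then (if S ∩ D = σ D then (1 : ℝ) else 0) else 0) := fun D _ => by
        split_ifs <;> norm_num
      have n1 := Finset.sum_nonneg n0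
      have b1 := g0 S
      have b2 := g0 (insert q S)
      by_cases c1 : G S
      · have := hg S
        rw [if_pos c1] at this
        linarith
      by_cases c2 : G (insert q S)
      · have := hg (insert q S)
        rw [if_pos c2] at this
        linarith
      obtain ⟨D, d1, d2, d3, d4⟩ := h S (mem_powerset.1 hS) c1 c2
      have := Finset.single_le_sum n0 (mem_erase.2 ⟨d2, mem_powerset.2 d1⟩)
      rw [if_pos d3, if_pos d4] at this
      linarith
    refine le_trans ?_ (Finset.sum_le_sum a)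
    rw [Finset.sum_sub_distrib, Finset.sum_comm, Finset.sum_const, card_powerset, nsmul_eq_mul]
    have b : ∑ D ∈ Γ.powerset.erase ∅, ∑ S ∈ Γ.powerset,
        (if p D then (if S ∩ D = σ D then (1 : ℝ) else 0) else 0) ≤
        2 ^ Γ.card * ∑ D ∈ Γ.powerset.erase ∅, if p D then ((2 : ℝ) ^ D.card)⁻¹ else 0 := by
      rw [Finset.mul_sum]
      refine Finset.sum_le_sum fun D hD => ?_
      split_ifs
      · exact cnt_le (mem_powerset.1 (mem_of_mem_erase hD)) _
      · simp
    push_cast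
    rw [pow_succ]
    linarith

end Pool.Agent.P.MP_b8021b_nt.BP
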