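import Pool.Agent.P.MP_b8021b_nt.BP.StC

/-! The large indices in the first moment. -/

namespace Pool.Agent.P.MP_b8021b_nt.BP

open NumberField IsDedekindDomain Finset MeasureTheory
open Pool.Agent.P.MP_b8021b_nt.VE Pool.Agent.P.MP_b8021b_nt.VC Pool.Agent.P.MP_b8021b_nt.BS.CF
open Pool.Agent.P.MP_b8021b_nt.BS
open scoped Classical ComplexConjugate Real

variable {k : Type} [Field k] [NumberField k] [Algebra k ℂ] {K : Type} [Field K] [NumberField K]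
  [Algebra k K]

namespace PLG

theorem swap {α β γ : Type} (A : Finset α) (B : Finset β) (D : Finset γ) (w : α → β → ℂ)
    (z : α → β → γ → ℂ) (f : α → β → γ → ℝ × ℝ → ℂ)
    (hi : ∀ a ∈ A, ∀ b ∈ B, ∀ d ∈ D, Integrable (f a b d)) :
    ∑ a ∈ A, ∑ b ∈ B, w a b * ∑ d ∈ D, z a b d * ∫ p, f a b d p =
      ∫ p, ∑ a ∈ A, ∑ b ∈ B, w a b * ∑ d ∈ D, z a b d * f a b d p := by
  have h1 : ∀ a ∈ A, ∀ b ∈ B, Integrable fun p => w a b * ∑ d ∈ D, z a b d * f a b d p :=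
    fun a ha b hb => (integrable_finsetSum _ fun d hd => (hi a ha b hb d hd).const_mul _).const_mul _
  rw [integral_finsetSum _ fun a ha => integrable_finsetSum _ (h1 a ha)]
  refine sum_congr rfl fun a ha => ?_
  rw [integral_finsetSum _ (h1 a ha)]
  refine sum_congr rfl fun b hb => ?_
  rw [integral_const_mul, integral_finsetSum _ fun d hd => (hi a ha b hb d hd).const_mul _]
  simp only [integral_const_mul]

theorem den_ne {b : ℂ} (hb : ‖b‖ ^ 2 ≤ 1 / 2) : 1 - b ^ 2 ≠ 0 := fun e => by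
  have h : ‖b ^ 2‖ = 1 := by rw [← sub_eq_zero.1 e, norm_one]
  rw [norm_pow] at h
  linarith

theorem re_sx {ℓ : ℝ} (hℓ : 0 < ℓ) (a : ℝ) : 0 ≤ (sx ℓ a).re := by rw [sx_re]; positivity

/-- the product of the inverses of the even parts -/
noncomputable def iv (e : Pl K → ℂ) (U V : Finset (Pl K)) : ℂ := ∏ v ∈ V ∩ U, (e v)⁻¹

omit [NumberField K] in
theorem iv_union (e : Pl K → ℂ) (U : Finset (Pl K)) {V W : Finset (Pl K)} (h : Disjoint V W) :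
    iv e U (V ∪ W) = iv e U V * iv e U W := by
  rw [iv, union_inter_distrib_right,
    prod_union (h.mono inter_subset_left inter_subset_left), iv, iv]

omit [NumberField K] in
theorem prod_sdiff_eq {e : Pl K → ℂ} (he : ∀ v, e v ≠ 0) {U S V : Finset (Pl K)} (hS : S ⊆ U)
    (h : Disjoint S V) :
    ∏ v ∈ (U \ S) \ V, e v = (∏ v ∈ U, e v) * (∏ v ∈ S, (e v)⁻¹) * iv e U V := by
  have h1 : (U \ S) \ V = (U \ S) \ (V ∩ U) := by
    ext v; simp only [mem_sdiff, mem_inter]; tauto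
  have h2 : V ∩ U ⊆ U \ S := fun v hv =>
    mem_sdiff.2 ⟨(mem_inter.1 hv).2, disjoint_right.1 h (mem_inter.1 hv).1⟩
  have h3 : ∏ v ∈ S, e v ≠ 0 := prod_ne_zero_iff.2 fun v _ => he v
  have h4 : ∏ v ∈ V ∩ U, e v ≠ 0 := prod_ne_zero_iff.2 fun v _ => he v
  rw [h1, iv, prod_inv_distrib, prod_inv_distrib, ← prod_sdiff hS, ← prod_sdiff h2]
  field_simp

omit [NumberField K] in
theorem norm_iv {e : Pl K → ℂ} (he : ∀ v, ‖(e v)⁻¹‖ ≤ 3) (U : Finset (Pl K)) {V : Finset (Pl K)}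
    (h : V.card ≤ 3) : ‖iv e U V‖ ≤ 27 := by
  rw [iv, norm_prod]
  refine (prod_le_prod (fun _ _ => norm_nonneg _) fun v _ => he v).trans ?_
  rw [prod_const]
  exact (pow_le_pow_right₀ (by norm_num) ((card_le_card inter_subset_left).trans h)).trans
    (by norm_num)

theorem norm_iv' {e : Pl K → ℂ} (he : ∀ v, ‖(e v)⁻¹ - 1‖ ≤ 4 * (nv v)⁻¹) (U V : Finset (Pl K)) :
    ‖iv e U V‖ ≤ Real.exp (8 * lw V) := by
  rw [iv, norm_prod]
  refine (prod_le_prod (fun _ _ => norm_nonneg _) fun v _ => (?_ : _ ≤ Real.exp (4 * (nv v)⁻¹))).trans ?_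
  · have h1 := norm_add_le ((e v)⁻¹ - 1) 1
    rw [sub_add_cancel, norm_one] at h1
    linarith [he v, Real.add_one_le_exp (4 * (nv v)⁻¹)]
  · rw [← Real.exp_sum, ← mul_sum]
    have h1 := sum_inv_le_lw (V ∩ U)
    have h2 : lw (V ∩ U) ≤ lw V := lw_mono inter_subset_left
    exact Real.exp_le_exp.2 (by linarith)

section

variable {n : ℕ} {χ Ψ : Ideal (𝓞 K) →* ℂ} {ℓ : ℝ} (hχ : Ch n χ) (hΨ : Ch n Ψ) (hℓ : 0 < ℓ)
include hχ hΨ hℓ

theorem norm_dif (a b : ℝ) (v : Pl K) :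
    ‖cf χ (sx ℓ b) v - cf Ψ (sx ℓ a) v‖ ≤ 2 * (√(nv v))⁻¹ := by
  linarith [norm_sub_le (cf χ (sx ℓ b) v) (cf Ψ (sx ℓ a) v), norm_cf hχ.bd (re_sx hℓ b) v,
    norm_cf hΨ.bd (re_sx hℓ a) v]

theorem integrable_term (hEV0 : Y_EV0) {h G : ℝ → ℂ} (hh : FR h) (hG : Continuous G) {C₁ : ℝ}
    (hb : ∀ b, ‖G b‖ ≤ C₁ * ‖h b‖) (S W : Finset (Pl K)) :
    Integrable fun p : ℝ × ℝ => G p.1 * h p.2 * (OdP χ Ψ ℓ p.2 p.1 S * EvP χ Ψ ℓ p.2 p.1 W) := by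
  have c1 : ∀ v, Continuous fun p : ℝ × ℝ => cf χ (sx ℓ p.1) v := fun v =>
    (continuous_cf χ v).comp ((continuous_sx ℓ).comp continuous_fst)
  have c2 : ∀ v, Continuous fun p : ℝ × ℝ => cf Ψ (sx ℓ p.2) v := fun v =>
    (continuous_cf Ψ v).comp ((continuous_sx ℓ).comp continuous_snd)
  have d : ∀ v (p : ℝ × ℝ), 1 - cf χ (sx ℓ p.1) v ^ 2 ≠ 0 := fun v p =>
    den_ne (norm_cf_sq hχ.bd (re_sx hℓ _) v)
  have h0 : Integrable fun a => ‖h a‖ := by simpa using hh.int 0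
  have E := fun (p : ℝ × ℝ) (v : Pl K) => hEV0 _ _ (norm_cf_sq hΨ.bd (re_sx hℓ p.2) v)
    (norm_cf_sq hχ.bd (re_sx hℓ p.1) v)
  refine ((h0.mul_prod h0).const_mul (C₁ * (4 ^ S.card * 3 ^ W.card))).mono'
    (Continuous.aestronglyMeasurable ?_) (ae_of_all _ fun p => ?_)
  · refine ((hG.comp continuous_fst).mul (hh.cont.comp continuous_snd)).mul
      ((continuous_finsetProd _ fun v _ => ?_).mul (continuous_finsetProd _ fun v _ => ?_))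
    · exact ((c1 v).sub (c2 v)).div (continuous_const.sub ((c1 v).pow 2)) (d v)
    · exact (continuous_const.sub ((c2 v).mul (c1 v))).div
        (continuous_const.sub ((c1 v).pow 2)) (d v)
  · have b1 : ‖OdP χ Ψ ℓ p.2 p.1 S‖ ≤ 4 ^ S.card := by
      rw [OdP, norm_prod, ← prod_const]
      refine prod_le_prod (fun _ _ => norm_nonneg _) fun v _ => ?_
      have h1 : (√(nv v))⁻¹ ≤ 1 :=
        inv_le_one_of_one_le₀ (Real.one_le_sqrt.2 (one_le_two.trans (two_le_NN v)))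
      linarith [(E p v).2.2.2.1, norm_dif hχ hΨ hℓ p.2 p.1 v]
    have b2 : ‖EvP χ Ψ ℓ p.2 p.1 W‖ ≤ 3 ^ W.card := by
      rw [EvP, norm_prod, ← prod_const]
      exact prod_le_prod (fun _ _ => norm_nonneg _) fun v _ => (E p v).2.2.1
    rw [norm_mul, norm_mul, norm_mul]
    calc _ ≤ C₁ * ‖h p.1‖ * ‖h p.2‖ * (4 ^ S.card * 3 ^ W.card) :=
          mul_le_mul (mul_le_mul_of_nonneg_right (hb _) (norm_nonneg _))
            (mul_le_mul b1 b2 (norm_nonneg _) (by positivity)) (by positivity)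
            (mul_nonneg ((norm_nonneg _).trans (hb _)) (norm_nonneg _))
      _ = _ := by ring

/-- the coefficients of the bilinear form are admissible -/
theorem adc (hEV0 : Y_EV0) (a b : ℝ) {Γ : Finset (Pl K)} {τ : 𝓞 K} (hτ : τ ≠ 0) (hΓ : Γ ⊆ pr τ)
    {a₁ a₂ : 𝓞 K → ℂ} (h1 : ∀ t, ‖a₁ t‖ ≤ 1) (h2 : ∀ t, ‖a₂ t‖ ≤ 1) {F : Finset (Pl K) → ℝ}
    (hF : ∑ D ∈ Γ.powerset, F D ^ 2 ≤ 1) :
    Adc n Γ a₁ a₂ F fun S => jac τ (eI S) * ∏ v ∈ S,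
      Od (cf Ψ (sx ℓ a) v) (cf χ (sx ℓ b) v) / Ev (cf Ψ (sx ℓ a) v) (cf χ (sx ℓ b) v) := by
  refine ⟨h1, h2, hF, fun S => ?_, fun S hS => ⟨disjoint_left.2 fun v hv hv' => ?_, fun v hv hn => ?_⟩⟩
  · rw [norm_mul, norm_prod]
    refine (mul_le_of_le_one_left (prod_nonneg fun _ _ => norm_nonneg _) (norm_jac_le _ _)).trans ?_
    rw [nS_eq, Real.sqrt_prod _ fun v _ => (nv_pos v).le, ← prod_const, ← prod_div_distrib]
    refine prod_le_prod (fun _ _ => norm_nonneg _) fun v _ => ?_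
    rw [div_eq_mul_inv (4 : ℝ)]
    linarith [(hEV0 _ _ (norm_cf_sq hΨ.bd (re_sx hℓ a) v)
      (norm_cf_sq hχ.bd (re_sx hℓ b) v)).2.2.2.2.1, norm_dif hχ hΨ hℓ a b v]
  · refine left_ne_zero_of_mul hS ?_
    rw [jac_eI]
    exact prod_eq_zero hv (leg_eq_zero.2 ((mem_pr hτ).1 (hΓ hv')))
  · refine right_ne_zero_of_mul hS (prod_eq_zero hv ?_)
    simp [cf, hχ.zero v hn, hΨ.zero v hn, Od]

end

/-- the identity for one term -/
theorem term {e o : Pl K → ℂ} (he : ∀ v, e v ≠ 0) {U S : Finset (Pl K)} (hS : S ⊆ U)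
    {τ t t' : 𝓞 K} (hτ : τ ≠ 0) (ht : t ≠ 0) (ht' : t' ≠ 0) (c1 : IsCoprime τ t)
    (c2 : IsCoprime τ t') (c3 : IsCoprime t t') :
    jac (τ * t * t') (eI S) * ((∏ v ∈ S, o v) * ∏ v ∈ (U \ S) \ pr (τ * t * t'), e v) =
      (∏ v ∈ U, e v) * iv e U (pr τ) * (iv e U (pr t) * iv e U (pr t')) *
        ((jac τ (eI S) * ∏ v ∈ S, o v / e v) * jac (t * t') (eI S)) := by
  have h0 : τ * t * t' ≠ 0 := mul_ne_zero (mul_ne_zero hτ ht) ht'
  have e0 : jac (τ * t * t') (eI S) = jac τ (eI S) * jac (t * t') (eI S) := by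
    rw [mul_assoc, jac_mul_left]
  by_cases h : Disjoint S (pr (τ * t * t'))
  · rw [prod_sdiff_eq he hS h, pr_mul (mul_ne_zero hτ ht) ht', iv_union _ _
      ((isCoprime_iff' (mul_ne_zero hτ ht) ht').1 (c2.mul_left c3)), pr_mul hτ ht,
      iv_union _ _ ((isCoprime_iff' hτ ht).1 c1), e0]
    simp only [div_eq_mul_inv, prod_mul_distrib]
    ring
  · obtain ⟨v, hv, hv'⟩ := not_disjoint_iff.1 h
    have e1 : jac (τ * t * t') (eI S) = 0 := by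
      rw [jac_eI]
      exact prod_eq_zero hv (leg_eq_zero.2 ((mem_pr h0).1 hv'))
    rw [e1, zero_mul, mul_right_comm (jac τ (eI S)), ← e0, e1, zero_mul, mul_zero]

/-- the sum at a fixed point -/
theorem point {e o : Pl K → ℂ} (he : ∀ v, e v ≠ 0) {U : Finset (Pl K)} {𝒮 : Finset (Finset (Pl K))}
    (hS : ∀ S ∈ 𝒮, S ⊆ U) {τ : 𝓞 K} {T₁ T₂ : Finset (𝓞 K)} (hτ : τ ≠ 0) (n1 : ∀ t ∈ T₁, t ≠ 0)
    (n2 : ∀ t ∈ T₂, t ≠ 0) (c1 : ∀ t ∈ T₁, IsCoprime τ t) (c2 : ∀ t ∈ T₂, IsCoprime τ t)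
    (c3 : ∀ t ∈ T₁, ∀ t' ∈ T₂, IsCoprime t t') (F : Finset (Pl K) → ℝ) (Γ : Finset (Pl K))
    (H z : ℂ) (u₁ u₂ : 𝓞 K → ℂ) :
    ∑ t ∈ T₁, ∑ t' ∈ T₂, wF F Γ (t * t') * ∑ S ∈ 𝒮, jac (τ * t * t') (eI S) *
      (H * u₁ t * u₂ t' * z * ((∏ v ∈ S, o v) * ∏ v ∈ (U \ S) \ pr (τ * t * t'), e v)) =
      H * z * (∏ v ∈ U, e v) * iv e U (pr τ) * 729 *
        bs T₁ T₂ (fun t => if t ∈ T₁ then u₁ t * iv e U (pr t) / 27 else 0)
          (fun t => if t ∈ T₂ then u₂ t * iv e U (pr t) / 27 else 0) F Γ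
          (fun S => jac τ (eI S) * ∏ v ∈ S, o v / e v) 𝒮 := by
  rw [bs, mul_sum]
  refine sum_congr rfl fun t ht => ?_
  rw [mul_sum]
  refine sum_congr rfl fun t' ht' => ?_
  rw [if_pos ht, if_pos ht', mul_sum, mul_sum, mul_sum]
  refine sum_congr rfl fun S hS' => ?_
  have h := term (o := o) he (hS S hS') hτ (n1 t ht) (n2 t' ht') (c1 t ht) (c2 t' ht') (c3 t ht t' ht')
  linear_combination (wF F Γ (t * t') * (H * u₁ t * u₂ t' * z)) * h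

theorem norm_co {e : Pl K → ℂ} (he : ∀ v, ‖(e v)⁻¹‖ ≤ 3) (U : Finset (Pl K)) {T : Finset (𝓞 K)}
    (hT : ∀ t ∈ T, (pr t).card ≤ 3) {u : 𝓞 K → ℂ} (hu : ∀ t ∈ T, ‖u t‖ ≤ 1) (t : 𝓞 K) :
    ‖if t ∈ T then u t * iv e U (pr t) / 27 else 0‖ ≤ 1 := by
  split_ifs with ht
  · rw [norm_div, norm_mul, div_le_one (by norm_num)]
    have h := mul_le_mul (hu t ht) (norm_iv he U (hT t ht)) (norm_nonneg _) zero_le_one
    simpa using h
  · simp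

theorem pow_le (a b : ℝ) (j : ℕ) : (1 + |a| + |b|) ^ j ≤ (1 + |b|) ^ j * (1 + |a|) ^ j := by
  rw [← mul_pow]
  refine pow_le_pow_left₀ (by positivity) ?_ j
  nlinarith [mul_nonneg (abs_nonneg a) (abs_nonneg b)]

end PLG

open PLG in
theorem y_lG (c : Cx k K) (hEV0 : Y_EV0) (hBIL : Y_BIL k K) : Y_LG k K := by
  intro n 𝒜 h C₀ C₁ j hn hh hC₁
  obtain ⟨C, hC, hB⟩ := hBIL n 𝒜 C₀ hn
  set g : ℝ → ℝ := fun a => (1 + |a|) ^ j * ‖h a‖ with hg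
  set M : ℝ := C₁ * C₁ * Real.exp (8 * C₀) * 729 * C with hM
  have hM0 : 0 ≤ M := by positivity
  have hI : 0 ≤ ∫ a, g a := integral_nonneg fun a => by positivity
  refine ⟨1 + M * ((∫ a, g a) * ∫ a, g a), le_add_of_nonneg_right (by positivity), fun R hR => ?_⟩
  obtain ⟨X₁, hB⟩ := hB R hR
  obtain ⟨X₂, h3, hX₂⟩ := c.ev_el 1
  refine ⟨max X₁ X₂, fun X y₁ y₂ χ Ψ Γ τ T₁ T₂ F H u₁ u₂ 𝒮 hX hχ hΨ hE hc hF hH hHb hu₁ hu₂ h𝒮 => ?_⟩
  have hX1 : X₁ ≤ X := (le_max_left _ _).trans hX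
  have hX2 : X₂ ≤ X := (le_max_right _ _).trans hX
  have hℓ : 0 < el k K X := one_pos.trans_le (hX₂ X hX2)
  obtain ⟨-, -, hy1, hy2⟩ := c.lo hc.toPair (by linarith)
  set Q : ℝ := R ^ (-(1 / 4 : ℝ)) * (y₁ * y₂ / Real.log X ^ 2) with hQ
  have hQ0 : 0 ≤ Q := by positivity
  rw [mul_assoc, ← hQ]
  rcases T₁.eq_empty_or_nonempty with rfl | ⟨t₀, ht₀⟩
  · simp only [sum_empty, norm_zero]; positivity
  rcases T₂.eq_empty_or_nonempty with rfl | ⟨t₀', ht₀'⟩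
  · simp only [sum_empty, sum_const_zero, norm_zero]; positivity
  have hτ : τ ≠ 0 := hc.pri.ne_zero
  have n1 : ∀ t ∈ T₁, t ≠ 0 := fun t ht => (hc.b1.pri t ht).ne_zero
  have n2 : ∀ t ∈ T₂, t ≠ 0 := fun t ht => (hc.b2.pri t ht).ne_zero
  have hlw : lw (pr τ) ≤ C₀ := by
    refine (lw_mono ?_).trans (hc.tame t₀ ht₀ t₀' ht₀')
    rw [mul_assoc, pr_mul hτ (mul_ne_zero (n1 _ ht₀) (n2 _ ht₀'))]
    exact subset_union_left
  have hi : Integrable fun p : ℝ × ℝ => M * Q * (g p.1 * g p.2) :=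
    ((hh.int j).mul_prod (hh.int j)).const_mul _
  simp only [dX, dd]
  rw [swap T₁ T₂ 𝒮 _ _ _ fun t ht t' ht' S _ => integrable_term hχ hΨ hℓ hEV0 hh
    (G := fun b => H b * u₁ t b * u₂ t' b) ((hH.mul (hu₁ t ht).1).mul (hu₂ t' ht').1) (C₁ := C₁)
    (fun b => by
      rw [norm_mul, norm_mul]
      exact (mul_le_of_le_one_right (by positivity) ((hu₂ t' ht').2 b)).trans
        ((mul_le_of_le_one_right (norm_nonneg _) ((hu₁ t ht).2 b)).trans (hHb b))) _ _]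
  refine (norm_integral_le_of_norm_le hi (ae_of_all _ fun p => ?_)).trans ?_
  swap
  · rw [integral_const_mul, Measure.volume_eq_prod, integral_prod_mul]
    nlinarith
  obtain ⟨b, a⟩ := p
  have E := fun v : Pl K => hEV0 _ _ (norm_cf_sq hΨ.bd (re_sx hℓ a) v)
    (norm_cf_sq hχ.bd (re_sx hℓ b) v)
  have e3 := fun v => (E v).2.1
  have e4 : ∀ v : Pl K, ‖(Ev (cf Ψ (sx (el k K X) a) v) (cf χ (sx (el k K X) b) v))⁻¹ - 1‖ ≤
      4 * (nv v)⁻¹ := fun v => by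
    refine (E v).2.2.2.2.2.2.1.trans ?_
    have h1 := mul_le_mul (norm_cf hχ.bd (re_sx hℓ b) v) (norm_dif hχ hΨ hℓ a b v) (norm_nonneg _)
      (by positivity)
    have h2 : (√(nv v))⁻¹ * (√(nv v))⁻¹ = (nv v)⁻¹ := by
      rw [← mul_inv, Real.mul_self_sqrt (nv_pos v).le]
    nlinarith
  have hb := hB X y₁ y₂ Γ T₁ T₂ _ _ F _ 𝒮 hX1 hc.toPair (adc hχ hΨ hℓ hEV0 a b hτ hc.sub
    (norm_co e3 (PP K (el k K X)) (fun t ht => hc.b1.card_pr ht) fun t ht => (hu₁ t ht).2 b)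
    (norm_co e3 (PP K (el k K X)) (fun t ht => hc.b2.card_pr ht) fun t ht => (hu₂ t ht).2 b) hF)
    fun S hS => (h𝒮 S hS).2
  rw [mul_assoc, ← hQ] at hb
  have h1 := (norm_iv' e4 (PP K (el k K X)) (pr τ)).trans
    (Real.exp_le_exp.2 (mul_le_mul_of_nonneg_left hlw (by norm_num)))
  have h2 := (hE a b).trans (mul_le_mul_of_nonneg_left (pow_le a b j) hC₁)
  simp only [OdP, EvP] at h2 ⊢
  rw [point (fun v => (E v).1) (fun S hS => (h𝒮 S hS).1) hτ n1 n2 hc.c1 hc.c2 hc.c12 F Γ (H b) (h a)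
    (fun t => u₁ t b) fun t => u₂ t b]
  simp only [norm_mul, Complex.norm_ofNat]
  calc _ ≤ C₁ * ‖h b‖ * ‖h a‖ * (C₁ * ((1 + |b|) ^ j * (1 + |a|) ^ j)) * Real.exp (8 * C₀) * 729 *
        (C * Q) := by
        have := hHb b
        gcongr
    _ = _ := by simp only [hM, hg]; ring

end Pool.Agent.P.MP_b8021b_nt.BP
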