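import Pool.Agent.P.MP_b8021b_nt.BP.StC
import Pool.Agent.P.MP_b8021b_nt.BS.RecC
import Pool.Agent.P.MP_b8021b_nt.BS.PVal

/-! The local condition at a sensitive place. -/

namespace Pool.Agent.P.MP_b8021b_nt.BP

open NumberField IsDedekindDomain Finset MeasureTheory
open Pool.Agent.P.MP_b8021b_nt.VE Pool.Agent.P.MP_b8021b_nt.VC Pool.Agent.P.MP_b8021b_nt.BS.CF
open Pool.Agent.P.MP_b8021b_nt.BS
open scoped Classical ComplexConjugate Real

variable {k : Type} [Field k] [NumberField k] [Algebra k ℂ] {K : Type} [Field K] [NumberField K]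
  [Algebra k K]

namespace PLIN

variable {ζ s s' x y z : K} {v : Pl K}

theorem root (h1 : vl v ζ = 1) (h : vl v (s ^ 2 - ζ) < 1) : s ≠ 0 ∧ od v s = 0 := by
  have h2 : vl v (s ^ 2) = 1 := h1 ▸ (vl v).map_eq_of_sub_lt (h1 ▸ h)
  have h3 := od_eq_zero_of_vl v h2
  rw [od_pow] at h3
  exact ⟨fun e => by simp [e] at h2, by omega⟩

theorem roots (hK : Om K) (hv : ¬ Dv 2 v) (h1 : vl v ζ = 1) (h : vl v (s ^ 2 - ζ) < 1)
    (h' : vl v (s' ^ 2 - ζ) < 1) : LP 2 v (s * s') := by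
  obtain ⟨i, hi⟩ := hK
  obtain ⟨h0, h2⟩ := root h1 h'
  have h3 := (vl v).map_sub_lt h h'
  have h4 := (od_eq_zero_iff v h0).1 h2
  rw [show s ^ 2 - ζ - (s' ^ 2 - ζ) = (s - s') * (s + s') by ring, map_mul] at h3
  rw [LP, (vl_nat_eq v).2 hv, one_pow]
  by_cases h5 : vl v (s - s') < 1
  · exact ⟨s', by rwa [show s * s' / s' ^ 2 - 1 = (s - s') / s' by field_simp, map_div₀, h4,
      div_one]⟩
  · refine ⟨i * s', ?_⟩
    rw [mul_pow, hi, show s * s' / (-1 * s' ^ 2) - 1 = -(s + s') / s' by field_simp; ring,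
      map_div₀, h4, div_one, Valuation.map_neg]
    exact not_le.1 fun h6 => h3.not_ge (one_le_mul (not_lt.1 h5) h6)

theorem cancel (h : LP 2 v x) (h' : LP 2 v y) (e : x = z * y) : LP 2 v z :=
  RecP.lp_cancel (e ▸ h) h'

theorem not_lp (h : Odd (od v x)) : ¬ LP 2 v x := fun e =>
  Int.not_even_iff_odd.2 h (PVal.lp_even e)

end PLIN

open PLIN in
theorem y_lIN (c : Cx k K) : Y_LIN K := by
  intro ζ T v hζ ⟨hv, hs⟩ hT ho
  have h1 : vl v ζ = 1 := (od_eq_zero_iff v hs.ne_zero).1 (hζ.od v)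
  have hl : El 2 := Or.inl rfl
  have hT2 := LP.pow_self v two_ne_zero hT
  refine ⟨fun x y hx e => ?_, fun a b ha hb => ?_, fun b hb he => ?_, fun b u hb hu => ?_,
    fun a b u _ _ hu ha hb oa ob h => ?_⟩
  · rcases Int.even_or_odd (od v x) with h | h
    · exact Or.inl ((c.val ζ T x y v hv hζ hT hx e).2.2 ho hs h)
    refine Or.inr ⟨x / T, ?_, by
      rw [show x * (x / T) * T = x ^ 2 by field_simp]; exact LP.pow_self v two_ne_zero hx⟩
    have e' : y ^ 2 = x * T ^ 2 * ((x / T) ^ 2 - ζ) := by rw [e]; field_simp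
    generalize x / T = s at e' ⊢
    by_cases h0 : s ^ 2 - ζ = 0
    · simp [h0]
    have h2 := congrArg (od v) e'
    rw [od_mul v (mul_ne_zero hx (pow_ne_zero 2 hT)) h0, od_mul v hx (pow_ne_zero 2 hT), od_pow,
      od_pow] at h2
    obtain ⟨j, hj⟩ := h
    rcases le_or_gt (vl v (s ^ 2)) 1 with h3 | h3
    · have := (od_nonneg_iff v h0).2 ((vl v).map_sub_le h3 h1.le)
      exact (od_pos_iff v h0).1 (by omega)
    · have := od_eq_of_vl v ((vl v).map_sub_eq_of_lt_left (h1 ▸ h3 : vl v ζ < vl v (s ^ 2)))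
      rw [od_pow] at this
      omega
  · rcases ha with ha | ⟨s, h2, ha⟩ <;> rcases hb with hb | ⟨s', h3, hb⟩
    · exact ⟨Or.inl (ha.mul hb), LN.of_right c.lib.hen hl _ hb⟩
    · exact ⟨Or.inr ⟨s', h3, by simpa only [mul_assoc] using ha.mul hb⟩, LN.of_left c.lib.hen hl
        (left_ne_zero_of_mul (left_ne_zero_of_mul hb.ne_zero)) ha⟩
    · exact ⟨Or.inr ⟨s, h2, by convert ha.mul hb using 1; ring⟩, LN.of_right c.lib.hen hl _ hb⟩
    · have h4 : LP 2 v (a * b) :=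
        cancel (ha.mul hb) ((roots c.om hv h1 h2 h3).mul hT2) (by ring)
      have a0 := left_ne_zero_of_mul h4.ne_zero
      exact ⟨Or.inl h4, RecP.ln_self c.lib.hen c.om (right_ne_zero_of_mul h4.ne_zero)
        (cancel h4 (LP.pow_self v two_ne_zero a0) (by field_simp))⟩
  · rcases hb with hb | ⟨s, h2, hb⟩
    · exact hb
    refine (not_lp ?_ hb).elim
    have h3 := left_ne_zero_of_mul hb.ne_zero
    rw [od_mul v h3 hT, od_mul v (left_ne_zero_of_mul h3) (root h1 h2).1, (root h1 h2).2, add_zero]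
    exact he.add_odd ho
  · rcases hb with hb | ⟨s, h2, hb⟩
    · exact ⟨Or.inl hb, Or.inl (hb.mul hu)⟩
    · exact ⟨Or.inr ⟨s, h2, by simpa only [mul_assoc] using hb.mul hu⟩,
        Or.inr ⟨s, h2, by convert hb.mul hu using 1; ring⟩⟩
  · obtain ⟨s, h2, ha⟩ := ha.resolve_left (not_lp oa)
    obtain ⟨s', h3, hb⟩ := hb.resolve_left (not_lp ob)
    exact hu (cancel (ha.mul hb) (h.mul ((roots c.om hv h1 h2 h3).mul hT2)) (by ring))

end Pool.Agent.P.MP_b8021b_nt.BP
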