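import Pool.Agent.P.MP_b8021b_nt.BP.StC

/-! Places at which a unit is or is not a square, in short blocks. -/

namespace Pool.Agent.P.MP_b8021b_nt.BP

open NumberField IsDedekindDomain Finset MeasureTheory
open Pool.Agent.P.MP_b8021b_nt.VE Pool.Agent.P.MP_b8021b_nt.VC Pool.Agent.P.MP_b8021b_nt.BS.CF
open Pool.Agent.P.MP_b8021b_nt.BS
open scoped Classical ComplexConjugate Real
variable {k : Type} [Field k] [NumberField k] [Algebra k ℂ] {K : Type} [Field K] [NumberField K] [Algebra k K]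

namespace PBLK

theorem sum_pls (F : Pl K → ℝ) {a b : ℝ} (hab : a ≤ b) :
    ∑ v ∈ pls K a b, F v = ∑ v ∈ pls K 0 b, F v - ∑ v ∈ pls K 0 a, F v := by
  rw [← sum_sdiff_eq_sub (pls_mono le_rfl hab)]
  refine sum_congr (Finset.ext fun v => ?_) fun _ _ => rfl
  simp only [mem_sdiff, mem_pls, nv_pos v, true_and, not_le, and_comm]

theorem key (hME1 : Y_ME1 K) (g : Pl K → ℝ) (P : Pl K → Prop) (E : Finset (Pl K)) (C₂ : ℝ)
    (hg : ∀ v, (1 + g v) / 2 ≤ (if P v then 1 else 0) + if v ∈ E then 1 else 0)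
    (h2 : ∀ y : ℝ, 1 ≤ y → |∑ v ∈ pls K 0 y, g v * (Real.log (nv v) / nv v)| ≤ C₂) :
    ∃ C : ℝ, 0 ≤ C ∧ ∀ a b : ℝ, 1 ≤ a → a ≤ b →
      Real.log (b / a) / 2 - C ≤ lw ((pls K a b).filter P) := by
  obtain ⟨C₁, h1⟩ := hME1
  refine ⟨max 0 (C₁ + C₂ + lw E), le_max_left _ _, fun a b ha hab => ?_⟩
  have p0 : ∀ v : Pl K, 0 ≤ Real.log (nv v) / nv v := fun v =>
    div_nonneg (log_nv_pos v).le (nv_pos v).le
  have h3 : ∑ v ∈ pls K a b, (1 + g v) / 2 * (Real.log (nv v) / nv v) ≤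
      lw ((pls K a b).filter P) + lw E := by
    refine (sum_le_sum fun v _ => mul_le_mul_of_nonneg_right (hg v) (p0 v)).trans ?_
    simp only [add_mul, ite_mul, one_mul, zero_mul, sum_add_distrib]
    rw [sum_ite_mem, ← sum_filter]
    exact add_le_add le_rfl (lw_mono inter_subset_right)
  have e : ∑ v ∈ pls K a b, (1 + g v) / 2 * (Real.log (nv v) / nv v) =
      (lw (pls K a b) + ∑ v ∈ pls K a b, g v * (Real.log (nv v) / nv v)) / 2 := by
    rw [lw, ← sum_add_distrib, sum_div]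
    exact sum_congr rfl fun v _ => by ring
  rw [e, lw, sum_pls _ hab, sum_pls _ hab] at h3
  have a1 := abs_le.1 (h1 a ha)
  have a2 := abs_le.1 (h1 b (ha.trans hab))
  have a3 := abs_le.1 (h2 a ha)
  have a4 := abs_le.1 (h2 b (ha.trans hab))
  have a5 := le_max_right 0 (C₁ + C₂ + lw E)
  rw [Real.log_div (by linarith) (by linarith)]
  unfold lw at a1 a2
  linarith [a1.2, a2.1, a3.2, a4.1]

end PBLK

open PBLK in
theorem y_bLK (c : Cx k K) (hME1 : Y_ME1 K) (hME2 : Y_ME2 K) : Y_BLK K := by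
  intro ζ hζ
  have z0 : ζ ≠ 0 := fun e => hζ.ns (e ▸ IsSquare.zero)
  have ns : ¬ ∃ z : K, ζ = z ^ 2 := fun ⟨z, e⟩ => hζ.ns ⟨z, by rw [e, sq]⟩
  obtain ⟨j, χ, hj, hχ, hv, hlow⟩ := c.lib.chi K 2 ζ c.om le_rfl dvd_rfl z0
    fun v _ => by rw [hζ.od v]; exact dvd_zero _
  have hN : 2 ≤ 2 ^ j := Nat.le_self_pow (by omega) _
  have e' : ∀ v : Pl K, Cop (2 ^ j) v.asIdeal ↔ ¬ Dv 2 v := fun v => by
    rw [cop_prime_iff, dv_pow v hj]
  have nt : ¬ IsTriv (2 ^ j) χ := fun h => by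
    obtain ⟨v, -, d, l⟩ := c.lib.c1 K 2 2 ζ c.om (Or.inl rfl) two_ne_zero ns
    have := h _ ((e' v).2 d)
    rw [hv v d, if_neg l] at this
    norm_num at this
  obtain ⟨C₂, h2⟩ := hME2 _ χ hN hχ nt (hlow ns)
  have h3 : ∀ y : ℝ, 1 ≤ y →
      |∑ v ∈ pls K 0 y, (χ v.asIdeal).re * (Real.log (nv v) / nv v)| ≤ C₂ := fun y hy => by
    refine le_trans (le_of_eq ?_) ((Complex.abs_re_le_norm _).trans (h2 y hy))
    simp only [Complex.re_sum, Complex.re_mul_ofReal]
  have hE : ∀ v : Pl K, v ∈ (finite_dv K two_ne_zero).toFinset ↔ Dv 2 v := fun v =>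
    Set.Finite.mem_toFinset _
  obtain ⟨C, h0, hC⟩ := key hME1 (fun v => -(χ v.asIdeal).re) (Ins ζ)
    (finite_dv K two_ne_zero).toFinset C₂ (fun v => by
      by_cases d : Dv 2 v
      · rw [hχ.zero _ fun h => (e' v).1 h d, if_pos ((hE v).2 d), if_neg fun h : Ins ζ v => h.1 d]
        norm_num
      · rw [hv v d, if_neg ((hE v).not.2 d)]
        by_cases l : LP 2 v ζ
        · rw [if_pos l, if_neg fun h : Ins ζ v => h.2 l]
          norm_num
        · rw [if_neg l, if_pos (show Ins ζ v from ⟨d, l⟩)]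
          norm_num) fun y hy => by simpa only [neg_mul, sum_neg_distrib, abs_neg] using h3 y hy
  obtain ⟨C', h0', hC'⟩ := key hME1 (fun v => (χ v.asIdeal).re) (Sens ζ)
    (finite_dv K two_ne_zero).toFinset C₂ (fun v => by
      by_cases d : Dv 2 v
      · rw [hχ.zero _ fun h => (e' v).1 h d, if_pos ((hE v).2 d), if_neg fun h : Sens ζ v => h.1 d]
        norm_num
      · rw [hv v d, if_neg ((hE v).not.2 d)]
        by_cases l : LP 2 v ζ
        · rw [if_pos l, if_pos (show Sens ζ v from ⟨d, l⟩)]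
          norm_num
        · rw [if_neg l, if_neg fun h : Sens ζ v => l h.2]
          norm_num) h3
  set B := Real.exp (2 * C + 2) with hB
  have hB2 : 2 ≤ B := by linarith [Real.add_one_le_exp (2 * C + 2)]
  refine ⟨B, B⁻¹, max B (Real.exp (10 * C')), hB2, by positivity, fun y hy => ?_⟩
  have y1 : B ≤ y := (le_max_left _ _).trans hy
  have y0 : 0 < y := by linarith
  have l0 : 0 < Real.log y := Real.log_pos (by linarith)
  constructor
  · have h4 := hC (y / B) y ((one_le_div (by linarith)).2 y1) (div_le_self y0.le (by linarith))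
    rw [div_div_cancel₀ y0.ne', hB, Real.log_exp, ← hB] at h4
    have h5 := sum_le_card_nsmul ((pls K (y / B) y).filter (Ins ζ))
      (fun v => Real.log (nv v) / nv v) (Real.log y / (y / B)) fun v hv => by
        obtain ⟨b1, b2⟩ := mem_pls.1 (mem_filter.1 hv).1
        exact div_le_div₀ l0.le (Real.log_le_log (nv_pos v) b2) (by positivity) b1.le
    rw [nsmul_eq_mul] at h5
    have h6 : 1 ≤ (((pls K (y / B) y).filter (Ins ζ)).card : ℝ) * (Real.log y / (y / B)) := by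
      unfold lw at h4
      linarith
    rw [← div_le_iff₀ (by positivity)] at h6
    refine le_of_eq_of_le ?_ h6
    field_simp
  · have y2 : 10 * C' ≤ Real.log y := (Real.le_log_iff_exp_le y0).2 ((le_max_right _ _).trans hy)
    have h4 := hC' y (y ^ 2) (by linarith) (by nlinarith)
    rw [sq, mul_div_cancel_right₀ _ y0.ne', ← sq] at h4
    have h5 : lw (QQ ζ y) ≤ 2 * Real.log y * ∑ v ∈ QQ ζ y, (nv v)⁻¹ := by
      rw [mul_sum]
      refine sum_le_sum fun v hv => ?_
      have := Real.log_le_log (nv_pos v) (mem_pls.1 (mem_filter.1 hv).1).2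
      rw [Real.log_pow, Nat.cast_ofNat] at this
      exact mul_le_mul_of_nonneg_right this (inv_nonneg.2 (nv_pos v).le)
    refine le_of_mul_le_mul_left (le_trans ?_ (h4.trans h5)) (by positivity : 0 < 2 * Real.log y)
    linarith

end Pool.Agent.P.MP_b8021b_nt.BP
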