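import Pool.Agent.P.MP_b8021b_nt.BP.StC

/-! Lower bounds for the sum of the reciprocals of the norms of places. -/

namespace Pool.Agent.P.MP_b8021b_nt.BP

open NumberField IsDedekindDomain Finset MeasureTheory
open Pool.Agent.P.MP_b8021b_nt.VE Pool.Agent.P.MP_b8021b_nt.VC Pool.Agent.P.MP_b8021b_nt.BS.CF
open Pool.Agent.P.MP_b8021b_nt.BS
open scoped Classical ComplexConjugate Real
variable {k : Type} [Field k] [NumberField k] [Algebra k ℂ] {K : Type} [Field K] [NumberField K]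
  [Algebra k K]

namespace PMER

theorem fibre (g : Ideal (𝓞 K) → ℝ) (P : Pl K → Prop)
    (hg : ∀ v : Pl K, g v.asIdeal ≤ if P v then 1 else 0) (s : ℝ) {q N : ℕ} (hq : q.Prime)
    (hN : q ≤ N) : (∑ I ∈ DS.idl K q, g I) * (q : ℝ) ^ (-s) ≤
      ∑ v ∈ pls K 0 N with Ideal.absNorm v.asIdeal = q, if P v then nv v ^ (-s) else 0 := by
  have e : ∑ v ∈ pls K 0 N with Ideal.absNorm v.asIdeal = q, g v.asIdeal =
      ∑ I ∈ DS.idl K q, g I := by
    refine sum_nbij (fun v => v.asIdeal) (fun v hv => DS.mem_idl.2 (mem_filter.1 hv).2)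
      (fun v _ w _ e => HeightOneSpectrum.ext e) (fun I hI => ?_) fun _ _ => rfl
    have h1 := DS.mem_idl.1 (mem_coe.1 hI)
    obtain ⟨v, rfl⟩ := exists_pl (I := I) (by rwa [h1])
    exact ⟨v, mem_coe.2 (mem_filter.2 ⟨mem_pls.2 ⟨nv_pos v, Nat.cast_le.2 (h1.trans_le hN)⟩, h1⟩),
      rfl⟩
  rw [← e, sum_mul]
  refine sum_le_sum fun v hv => ?_
  rw [← (mem_filter.1 hv).2]
  refine (mul_le_mul_of_nonneg_right (hg v) (by positivity)).trans (le_of_eq ?_)
  rw [ite_mul, one_mul, zero_mul]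

theorem key (hCH2 : Y_CH2 K) (W : ℝ) : ∃ C : ℝ, ∀ (g : Ideal (𝓞 K) → ℝ) (P : Pl K → Prop),
    (∀ v : Pl K, g v.asIdeal ≤ if P v then 1 else 0) → ∀ y : ℝ, 3 ≤ y →
      DS.ds (fun q => ∑ I ∈ DS.idl K q, g I) (1 + 1 / Real.log y) - C ≤
        ∑ v ∈ (pls K W y).filter P, (nv v)⁻¹ := by
  obtain ⟨C, hC, -, h2, -⟩ := hCH2
  refine ⟨(pls K 0 W).card + C, fun g P hg y hy => ?_⟩
  have l0 : 0 < Real.log y := Real.log_pos (by linarith)
  have s0 : 0 < 1 / Real.log y := by positivity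
  have p0 : 0 ≤ ∑ v ∈ (pls K W y).filter P, (nv v)⁻¹ :=
    sum_nonneg fun v _ => inv_nonneg.2 (nv_pos v).le
  have f0 : ∀ v : Pl K, 0 ≤ nv v ^ (-(1 + 1 / Real.log y)) := fun v =>
    Real.rpow_nonneg (nv_pos v).le _
  rw [sub_le_iff_le_add]
  refine tsum_le_of_sum_le' (by positivity) fun T => ?_
  set N := T.sup fun q => (q : ℕ)
  have h3 := h2 y _ ((pls K 0 N).filter fun v => y < nv v) (by linarith) s0
    fun v hv => (mem_filter.1 hv).2
  rw [one_div_mul_cancel l0.ne', div_one, Real.log_one, max_self, add_zero, mul_one] at h3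
  calc _ ≤ ∑ q ∈ T.map (Function.Embedding.subtype _), ∑ v ∈ pls K 0 N with
        Ideal.absNorm v.asIdeal = q, if P v then nv v ^ (-(1 + 1 / Real.log y)) else 0 := by
        rw [sum_map]
        exact sum_le_sum fun q hq => fibre g P hg _ q.2 (le_sup (f := fun q : Nat.Primes => (q : ℕ)) hq)
    _ ≤ ∑ v ∈ pls K 0 N, if P v then nv v ^ (-(1 + 1 / Real.log y)) else 0 := by
        rw [sum_fiberwise_eq_sum_filter]
        exact sum_le_sum_of_subset_of_nonneg (filter_subset _ _) fun v _ _ =>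
          ite_nonneg (f0 v) le_rfl
    _ ≤ ∑ v ∈ pls K 0 N, ((if v ∈ (pls K W y).filter P then (nv v)⁻¹ else 0) +
        ((if v ∈ pls K 0 W then 1 else 0) +
          if y < nv v then nv v ^ (-(1 + 1 / Real.log y)) else 0)) := by
        refine sum_le_sum fun v _ => ?_
        have a1 : 1 ≤ nv v := one_le_two.trans (two_le_NN v)
        have a2 : nv v ^ (-(1 + 1 / Real.log y)) ≤ (nv v)⁻¹ := by
          rw [← Real.rpow_neg_one]
          exact Real.rpow_le_rpow_of_exponent_le a1 (by linarith)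
        have a3 : (nv v)⁻¹ ≤ 1 := inv_le_one_of_one_le₀ a1
        have a4 := f0 v
        simp only [mem_filter, mem_pls, nv_pos v, true_and]
        by_cases b1 : P v <;> by_cases b2 : nv v ≤ W <;> by_cases b3 : y < nv v <;>
          simp only [b1, b2, b3, ← not_le (a := nv v) (b := W), ← not_lt (a := y) (b := nv v),
            if_true, if_false, not_true, not_false_iff, and_self, and_true, and_false] <;> linarith
    _ ≤ _ := by
        rw [sum_add_distrib, sum_add_distrib, sum_ite_mem, sum_ite_mem, ← sum_filter]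
        refine add_le_add (sum_le_sum_of_subset_of_nonneg inter_subset_right fun v _ _ =>
          inv_nonneg.2 (nv_pos v).le) (add_le_add ?_ h3)
        rw [sum_const, nsmul_one, Nat.cast_le]
        exact card_le_card inter_subset_right

theorem range_s {y : ℝ} (hy : 3 ≤ y) : 1 < 1 + 1 / Real.log y ∧ 1 + 1 / Real.log y ≤ 2 ∧
    Real.log (1 / (1 + 1 / Real.log y - 1)) = Real.log (Real.log y) := by
  have l1 : 1 ≤ Real.log y := (Real.le_log_iff_exp_le (by linarith)).2
    (Real.exp_one_lt_d9.le.trans (by linarith))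
  have h1 : 1 / Real.log y ≤ 1 := (div_le_one (by linarith)).2 l1
  have h0 : 0 < 1 / Real.log y := by positivity
  exact ⟨by linarith, by linarith, by rw [add_sub_cancel_left, one_div_one_div]⟩

end PMER

open PMER in
theorem y_mER (c : Cx k K) (hCH2 : Y_CH2 K) : Y_MER K := by
  intro W
  obtain ⟨C, hC⟩ := key hCH2 W
  refine ⟨?_, fun ζ hζ => ?_⟩
  · obtain ⟨C1, h1⟩ := c.lib.i.den1 K c.om 2 le_rfl
    refine ⟨C1 + C, fun y hy => ?_⟩
    obtain ⟨s1, s2, s3⟩ := range_s hy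
    have h2 := hC (fun I => (triv K 2 I).re) (fun _ => True) (fun v => by
      rw [DS.triv_apply, if_pos trivial]
      split_ifs <;> simp) y hy
    have h3 := (abs_le.1 (h1 _ s1 s2)).1
    rw [filter_true] at h2
    simp only [s3, dsum, DS.lam_eq, Complex.re_sum] at h3
    unfold DS.ds at h2
    linarith
  · have z0 : ζ ≠ 0 := fun e => hζ.ns (e ▸ IsSquare.zero)
    have ns : ¬ ∃ z : K, ζ = z ^ 2 := fun ⟨z, e⟩ => hζ.ns ⟨z, by rw [e, sq]⟩
    obtain ⟨j, χ, hj, hχ, hv, hlow⟩ := c.lib.chi K 2 ζ c.om le_rfl dvd_rfl z0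
      fun v _ => by rw [hζ.od v]; exact dvd_zero _
    have hN : 2 ≤ 2 ^ j := Nat.le_self_pow (by omega) _
    obtain ⟨C1, h1⟩ := c.lib.i.den1 K c.om _ hN
    obtain ⟨C3, h3⟩ := hlow ns
    obtain ⟨A1, a1⟩ := DS.re_bdd c.lib.i.hl (DS.triv_isChar (E := K) (2 ^ j))
    obtain ⟨A2, a2⟩ := DS.re_bdd c.lib.i.hl hχ.toIsChar
    refine ⟨(C1 + C3) / 2 + C, fun y hy => ?_⟩
    obtain ⟨s1, s2, s3⟩ := range_s hy
    have h2 := hC (fun I => ((triv K (2 ^ j) I).re + (χ I).re) / 2) (Sens ζ) (fun v => by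
      have e' : Cop (2 ^ j) v.asIdeal ↔ ¬ Dv 2 v := by rw [cop_prime_iff, dv_pow v hj]
      rw [DS.triv_apply]
      by_cases d : Dv 2 v
      · rw [hχ.zero _ fun h => e'.1 h d, if_neg fun h => e'.1 h d,
          if_neg fun h : Sens ζ v => h.1 d]
        simp
      · rw [hv v d, if_pos (e'.2 d)]
        by_cases l : LP 2 v ζ
        · rw [if_pos l, if_pos (show Sens ζ v from ⟨d, l⟩)]
          norm_num
        · rw [if_neg l, if_neg fun h : Sens ζ v => l h.2]
          norm_num) y hy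
    have e : DS.ds (fun q => ∑ I ∈ DS.idl K q, ((triv K (2 ^ j) I).re + (χ I).re) / 2)
        (1 + 1 / Real.log y) = (dsum (lam (triv K (2 ^ j))) (1 + 1 / Real.log y) +
          dsum (lam χ) (1 + 1 / Real.log y)) / 2 := by
      unfold DS.ds dsum
      rw [← (DS.summable_ds a1 s1).tsum_add (DS.summable_ds a2 s1), ← tsum_div_const]
      refine tsum_congr fun q => ?_
      simp only [DS.lam_eq, Complex.re_sum, ← sum_div, sum_add_distrib]
      ring
    have h4 := (abs_le.1 (h1 _ s1 s2)).1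
    have h5 := h3 _ s1 s2
    rw [s3] at h4
    rw [e] at h2
    linarith

end Pool.Agent.P.MP_b8021b_nt.BP
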