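import Pool.Agent.P.MP_b8021b_nt.BP.StC

/-! The first moment over the family. -/

namespace Pool.Agent.P.MP_b8021b_nt.BP

open NumberField IsDedekindDomain Finset MeasureTheory
open Pool.Agent.P.MP_b8021b_nt.VE Pool.Agent.P.MP_b8021b_nt.VC Pool.Agent.P.MP_b8021b_nt.BS.CF
open Pool.Agent.P.MP_b8021b_nt.BS
open scoped Classical ComplexConjugate Real

variable {k : Type} [Field k] [NumberField k] [Algebra k ℂ] {K : Type} [Field K] [NumberField K]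
  [Algebra k K]

namespace PNV1

theorem exp_le {x : ℝ} (hx : 0 ≤ x) : Real.exp (x - x ^ 2) ≤ 1 + x := by
  rw [← Real.le_log_iff_exp_le (by linarith)]
  refine le_trans ?_ (Real.one_sub_inv_le_log_of_pos (by linarith))
  have h : (1 + x)⁻¹ ≤ 1 - x + x ^ 2 := by
    rw [inv_le_iff_one_le_mul₀ (by linarith)]
    nlinarith [pow_nonneg hx 3]
  linarith

/-- the total mass is at least a multiple of the logarithm -/
theorem z0 (hCH2 : Y_CH2 K) (hMER : Y_MER K) (W : ℝ) :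
    ∃ a : ℝ, 0 < a ∧ ∀ y : ℝ, 3 ≤ y → a * Real.log y ≤ Z0 (pls K W y) := by
  obtain ⟨C, -, -, -, h3, -⟩ := hCH2
  obtain ⟨⟨D, hD⟩, -⟩ := hMER W
  refine ⟨Real.exp (-D - C), Real.exp_pos _, fun y hy => ?_⟩
  have h1 := h3 1 (pls K W y) one_pos le_rfl
  have e : ∀ v ∈ pls K W y, nv v ^ (-(1 + 1 : ℝ)) = (nv v)⁻¹ ^ 2 := fun v _ => by
    rw [Real.rpow_neg (nv_pos v).le, one_add_one_eq_two, Real.rpow_two, inv_pow]
  rw [sum_congr rfl e, div_one, Real.log_one, add_zero, mul_one] at h1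
  have h2 := hD y hy
  rw [← Real.exp_log (Real.log_pos (by linarith : 1 < y)), ← Real.exp_add]
  refine le_trans (Real.exp_le_exp.2 ?_) ((Real.exp_sum (pls K W y)
    fun v => (nv v)⁻¹ - (nv v)⁻¹ ^ 2).le.trans (prod_le_prod (fun _ _ => (Real.exp_pos _).le)
      fun v _ => exp_le (inv_nonneg.2 (nv_pos v).le)))
  rw [sum_sub_distrib]
  linarith

theorem sum_le (W y u : ℝ) : ∑ S ∈ TT K W y u, (nS S)⁻¹ ≤ Z0 (pls K W y) := by
  rw [Z0, prod_one_add]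
  refine (sum_le_sum_of_subset_of_nonneg (filter_subset _ _)
    fun S _ _ => inv_nonneg.2 (nS_pos S).le).trans (le_of_eq (sum_congr rfl fun S _ => ?_))
  rw [nS_eq, prod_inv_distrib]

end PNV1

open PNV1 in
theorem y_nV1 (c : Cx k K) (hFI : Y_FI) (hVW : Y_VW) (hCH2 : Y_CH2 K) (hMER : Y_MER K)
    (hFM0 : Y_FM0 k K) (hCELL : Y_CELL k K) : Y_NV1 k K := by
  intro n Ψ f Ct γ c₀ A 𝒜 C B c₅ hG hΨ hFE hC hB hc
  obtain ⟨h, hh⟩ := hFI
  obtain ⟨-, -, I0, -⟩ := hVW h f hh hFE.ker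
  set I : ℝ := ∫ z in Set.Ioi (0 : ℝ), f z with hI
  obtain ⟨C₃, X₁, C0, hF⟩ := hFM0 n 𝒜 C hG
  refine ⟨max 1 ((20 * C₃ / c₅ ^ 2) ^ 2), fun W c₁ hW hc₁ => ?_⟩
  have W1 : 1 ≤ W := (le_max_left _ _).trans hW
  have W2 : C₃ / √W ≤ c₅ ^ 2 / 20 := by
    have := Real.le_sqrt_of_sq_le ((le_max_right _ _).trans hW)
    rw [div_le_iff₀ (by positivity)] at this
    rw [div_le_div_iff₀ (Real.sqrt_pos.2 (by linarith)) (by norm_num)]
    linarith
  obtain ⟨a, a0, ha⟩ := z0 hCH2 hMER W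
  obtain ⟨X₂, hX₂⟩ := hCELL n Ψ f Ct γ c₀ A 𝒜 C (I * c₅ ^ 2 / 40) hG hΨ hFE hC (by positivity)
  refine ⟨I * c₅ ^ 2 / 40 * (c₁ * (a * c₁ / 5) / B), max (max X₁ X₂) (max 3 (3 ^ c₁⁻¹)),
    by positivity, fun Φ ζ u X F hX ok hy hJ hQ hFs hm => ?_⟩
  simp only [max_le_iff] at hX
  obtain ⟨⟨x1, x2⟩, x3, x4⟩ := hX
  have L0 : 0 < Real.log X := Real.log_pos (by linarith)
  have y3 : 3 ≤ X ^ c₁ := by
    have := Real.rpow_le_rpow (by positivity) x4 hc₁.le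
    rwa [Real.rpow_inv_rpow (by norm_num) hc₁.ne'] at this
  have hZ : a * c₁ * Real.log X ≤ Z0 (pls K W Φ.y) := by
    refine le_trans ?_ (ha _ (y3.trans hy))
    rw [mul_assoc, ← Real.log_rpow (by linarith)]
    exact mul_le_mul_of_nonneg_left (Real.log_le_log (by linarith) hy) a0.le
  have h1 := hF Φ ζ B c₅ W u X F x1 hB hc.le W1 ok hQ (fun S hS q hq => ⟨(hFs S hS q hq).1,
    (hFs S hS q hq).2.1⟩) hm
  set Q := ∑ q ∈ QQ ζ Φ.yq, (nv q)⁻¹ with hQ'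
  set M := X / (B * Real.log X ^ 2) * Φ.𝒥.card * (Z0 (pls K W Φ.y) * Q) with hM
  have Z1 : 0 ≤ Z0 (pls K W Φ.y) := le_trans (by positivity) hZ
  have Q0 : 0 ≤ Q := by linarith
  have M1 : c₁ * (a * c₁ / 5) / B * X ≤ M := by
    rw [show c₁ * (a * c₁ / 5) / B * X = X / (B * Real.log X ^ 2) * (c₁ * Real.log X) *
      (a * c₁ * Real.log X * (1 / 5)) by field_simp, hM]
    gcongr
  have M0 : 0 ≤ M := le_trans (by positivity) M1
  set G : Finset (Pl K) → Pl K → 𝓞 K → 𝓞 K → ℂ := fun S q t t' =>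
    Lam f Ψ (Φ.τ (insert q S) * t * t') * MX k Ψ X (Φ.τ (insert q S) * t * t') with hGd
  set w : Finset (Pl K) → Pl K → 𝓞 K → 𝓞 K → ℂ := fun S q t t' =>
    wF (F S q) (insert q (S.filter (Sens ζ))) (t * t') with hw
  have h2 : ‖Φ.sum ζ W u fun S q t t' => w S q t t' * (G S q t t' - I)‖ ≤ I * c₅ ^ 2 / 40 * M := by
    have b : ∀ S ∈ TT K W Φ.y u, ∀ q ∈ QQ ζ Φ.yq, ∀ j ∈ Φ.𝒥,
        ‖∑ t ∈ Φ.T₁ (insert q S) j, ∑ t' ∈ Φ.T₂ j, w S q t t' * (G S q t t' - I)‖ ≤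
          I * c₅ ^ 2 / 40 * (X / (B * Real.log X ^ 2)) * ((nS S)⁻¹ * (nv q)⁻¹) :=
      fun S hS q hq j hj => by
        refine (hX₂ X _ _ _ _ _ _ (F S q) x2 (ok.cell S hS q hq j hj) (hFs S hS q hq).1
          ((hFs S hS q hq).2.2 j hj)).trans (le_of_eq ?_)
        have e := ok.prod S hS q hq j hj
        have := nS_pos S
        have := nv_pos q
        generalize Φ.y₁ (insert q S) j * Φ.y₂ j = Y at e ⊢
        generalize Real.log X = L at L0 ⊢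
        rw [← e]
        field_simp
    refine (norm_sum_le_of_le _ fun S hS => norm_sum_le_of_le _ fun q hq =>
      norm_sum_le_of_le _ fun j hj => b S hS q hq j hj).trans ?_
    simp only [sum_const, nsmul_eq_mul, ← mul_sum, ← sum_mul, ← hQ']
    rw [hM]
    have := sum_le (K := K) W Φ.y u
    calc _ = I * c₅ ^ 2 / 40 * (X / (B * Real.log X ^ 2) * Φ.𝒥.card *
          ((∑ S ∈ TT K W Φ.y u, (nS S)⁻¹) * Q)) := by ring
      _ ≤ _ := by gcongr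
  have h3 : (Φ.sum ζ W u fun S q t t' => w S q t t' * G S q t t') =
      (Φ.sum ζ W u fun S q t t' => w S q t t' * (G S q t t' - I)) + I * Φ.sum ζ W u w := by
    simp only [Fm.sum, mul_sum, ← sum_add_distrib]
    refine sum_congr rfl fun _ _ => sum_congr rfl fun _ _ => sum_congr rfl fun _ _ =>
      sum_congr rfl fun _ _ => sum_congr rfl fun _ _ => by ring
  change _ ≤ ‖Φ.sum ζ W u fun S q t t' => w S q t t' * G S q t t'‖
  refine le_trans ?_ (Complex.re_le_norm _)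
  rw [h3, Complex.add_re, Complex.re_ofReal_mul]
  have h4 := (abs_le.1 ((Complex.abs_re_le_norm _).trans h2)).1
  have h5 : I * (M * (c₅ ^ 2 / 20)) ≤ I * (Φ.sum ζ W u w).re :=
    mul_le_mul_of_nonneg_left (le_trans (mul_le_mul_of_nonneg_left (by linarith) M0) h1) I0.le
  have h6 := mul_le_mul_of_nonneg_left M1 (show 0 ≤ I * c₅ ^ 2 / 40 by positivity)
  linarith

end Pool.Agent.P.MP_b8021b_nt.BP
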