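import Pool.Agent.P.MP_b8021b_nt.BP.StC
import Pool.Agent.P.MP_b8021b_nt.BS.CF.PPC
import Pool.Agent.P.MP_b8021b_nt.BS.CF.PExt

/-! Primes in ray classes and systems of representatives. -/

namespace Pool.Agent.P.MP_b8021b_nt.BP

open NumberField IsDedekindDomain Finset MeasureTheory
open Pool.Agent.P.MP_b8021b_nt.VE Pool.Agent.P.MP_b8021b_nt.VC Pool.Agent.P.MP_b8021b_nt.BS.CF
open Pool.Agent.P.MP_b8021b_nt.BS
open scoped Classical ComplexConjugate Real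
variable {k : Type} [Field k] [NumberField k] [Algebra k ℂ] {K : Type} [Field K] [NumberField K]
  [Algebra k K]

namespace PDIR

theorem w_nonneg (v : Pl K) : 0 ≤ Real.log (nv v) / nv v :=
  div_nonneg (log_nv_pos v).le (nv_pos v).le

/-- a lower bound for each character -/
theorem low (c : Cx k K) (hME1 : Y_ME1 K) (hME2 : Y_ME2 K) {N : ℕ} (hN : 2 ≤ N)
    {I : Ideal (𝓞 K)} (hI : Cop N I) (ψ : Ideal (𝓞 K) →* ℂ) : ∃ C : ℝ, RC N ψ → ∀ y : ℝ, 1 ≤ y →
      (if ψ = triv K N then Real.log y else 0) - C ≤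
        (ψ I * ∑ v ∈ pls K 0 y, ψ v.asIdeal * (Real.log (nv v) / nv v : ℝ)).re := by
  by_cases hψ : RC N ψ
  swap
  · exact ⟨0, fun h => absurd h hψ⟩
  by_cases e : ψ = triv K N
  · obtain ⟨C, hC⟩ := hME1
    refine ⟨C + lw (pls K 0 (NN (sp (N : 𝓞 K)))), fun _ y hy => ?_⟩
    rw [if_pos e, e, triv_cop hI, one_mul, Complex.re_sum]
    have h1 := (abs_le.1 (hC y hy)).1
    have h2 : lw (pls K 0 y) ≤ ∑ v ∈ pls K 0 y,
        ((triv K N v.asIdeal * (Real.log (nv v) / nv v : ℝ)).re +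
          if Dv N v then Real.log (nv v) / nv v else 0) := by
      refine sum_le_sum fun v _ => ?_
      by_cases d : Dv N v
      · rw [if_pos d, triv_not fun h => (cop_prime_iff v).1 h d, zero_mul, Complex.zero_re, zero_add]
      · rw [if_neg d, triv_cop ((cop_prime_iff v).2 d), one_mul, Complex.ofReal_re, add_zero]
    rw [sum_add_distrib, ← sum_filter] at h2
    have h3 : ∑ v ∈ (pls K 0 y).filter (Dv N), Real.log (nv v) / nv v ≤
        lw (pls K 0 (NN (sp (N : 𝓞 K)))) :=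
      lw_mono fun v hv => mem_pls.2 ⟨nv_pos v, nv_le_of_dv (by omega) (mem_filter.1 hv).2⟩
    linarith
  · have t : ¬ IsTriv N ψ := fun t => e (eq_triv hψ.toIsChar t)
    have : ∃ C : ℝ, ∀ s : ℝ, 1 < s → s ≤ 2 → -C ≤ dsum (lam ψ) s := by
      by_cases e : ∀ I, Cop N I → ψ I ^ 2 = 1
      · exact c.nv2 K N ψ c.om hN hψ t e
      · push Not at e
        exact c.nvc K N ψ c.om hN hψ e
    obtain ⟨C, hC⟩ := hME2 N ψ hN hψ t this
    refine ⟨C, fun _ y hy => ?_⟩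
    rw [if_neg e, zero_sub]
    refine (abs_le.1 ((Complex.abs_re_le_norm _).trans ?_)).1
    rw [norm_mul, hψ.norm_cop I hI, one_mul]
    exact hC y hy

/-- the relation between two ideals with the same complementary place -/
theorem key {N : ℕ} (hN : 2 ≤ N) {I J : Ideal (𝓞 K)} {v : Pl K} (hI : Cop N I) (hJ : Cop N J)
    (h : ∃ γ : 𝓞 K, (N : 𝓞 K) ∣ γ - 1 ∧ I * v.asIdeal = sp γ) :
    (∃ γ : 𝓞 K, (N : 𝓞 K) ∣ γ - 1 ∧ J * v.asIdeal = sp γ) ↔ Ray N I J := by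
  obtain ⟨γ, h1, h2⟩ := h
  have ne : ∀ {I : Ideal (𝓞 K)} {γ : 𝓞 K}, Cop N I → I * v.asIdeal = sp γ → γ ≠ 0 :=
    fun hI e z => mul_ne_zero (ExtP.cop_ne_bot hN hI) v.ne_bot (by rw [e, z]; simp)
  constructor
  · rintro ⟨γ', h3, h4⟩
    refine ⟨γ', γ, ne hJ h4, ne hI h2, h3, h1, ?_⟩
    change I * sp γ' = J * sp γ
    rw [← h4, ← h2, mul_left_comm]
  · rintro ⟨α, β, h3, h4, h5, h6, h7⟩
    obtain ⟨u, h8, h9⟩ := PCP.gen (n := N) (I := J * v.asIdeal) ⟨β, α * γ, h4,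
      mul_ne_zero h3 (ne hI h2), h6, by
        rw [show α * γ - 1 = (α - 1) * γ + (γ - 1) by ring]; exact (h5.mul_right _).add h1, by
        rw [mul_right_comm, ← h7, mul_right_comm, h2, Ideal.top_mul, mul_comm α,
          Ideal.span_singleton_mul_span_singleton]⟩
    exact ⟨u, h8, h9.symm⟩

end PDIR

open PDIR

theorem y_dIR (c : Cx k K) (hME1 : Y_ME1 K) (hME2 : Y_ME2 K) : Y_DIR K := by
  intro N I W hN hI
  by_contra hcon
  push Not at hcon
  obtain ⟨𝒳, hX, hO⟩ := c.lib.i.rep K c.om N hN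
  choose C hC using low c hME1 hME2 hN hI
  have top : ∀ ψ : Ideal (𝓞 K) →* ℂ, ψ ⊤ = 1 := fun ψ => by rw [← Ideal.one_eq_top, map_one]
  have ht : triv K N ∈ 𝒳 := (hX _).2 (RC.triv K N)
  have main : ∀ y : ℝ, 1 ≤ y → Real.log y - ∑ ψ ∈ 𝒳, C ψ ≤ 𝒳.card * lw (pls K 0 W) := by
    intro y hy
    have h1 := sum_le_sum fun ψ hψ => hC ψ ((hX ψ).1 hψ) y hy
    rw [sum_sub_distrib, sum_ite_eq' 𝒳, if_pos ht, ← Complex.re_sum] at h1
    refine h1.trans ?_
    simp only [mul_sum]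
    rw [sum_comm, Complex.re_sum]
    have h2 : ∀ v ∈ pls K 0 y, (∑ ψ ∈ 𝒳, ψ I * (ψ v.asIdeal * (Real.log (nv v) / nv v : ℝ))).re ≤
        if nv v ≤ W then 𝒳.card * (Real.log (nv v) / nv v) else 0 := by
      intro v _
      have w0 := w_nonneg v
      by_cases d : Dv N v
      · rw [sum_eq_zero fun ψ hψ => by
          rw [((hX ψ).1 hψ).zero v.asIdeal fun h => (cop_prime_iff v).1 h d, zero_mul, mul_zero],
          Complex.zero_re]
        split_ifs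
        · positivity
        · exact le_rfl
      · have o := hO (I * v.asIdeal) ⊤ (IsCoprime.mul_left hI ((cop_prime_iff v).2 d))
          (by rw [Cop, ← Ideal.one_eq_top]; exact isCoprime_one_left)
        simp only [top, map_one, mul_one, map_mul] at o
        simp only [← mul_assoc]
        rw [← sum_mul, o]
        by_cases r : Ray N (I * v.asIdeal) ⊤
        · obtain ⟨u, h3, h4⟩ := PCP.gen r
          rw [if_pos r, if_pos (not_lt.1 fun l => hcon v d l u h3 h4.symm), ← Complex.ofReal_natCast,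
            ← Complex.ofReal_mul, Complex.ofReal_re]
        · rw [if_neg r, zero_mul, Complex.zero_re]
          split_ifs
          · positivity
          · exact le_rfl
    refine (sum_le_sum h2).trans ?_
    rw [← sum_filter, ← mul_sum]
    exact mul_le_mul_of_nonneg_left (lw_mono fun v hv =>
      mem_pls.2 ⟨nv_pos v, (mem_filter.1 hv).2⟩) (Nat.cast_nonneg _)
  have h := main (Real.exp (|∑ ψ ∈ 𝒳, C ψ + 𝒳.card * lw (pls K 0 W)| + 1))
    (Real.one_le_exp (by positivity))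
  rw [Real.log_exp] at h
  linarith [le_abs_self (∑ ψ ∈ 𝒳, C ψ + 𝒳.card * lw (pls K 0 W))]

theorem y_rEP (c : Cx k K) (hDIR : Y_DIR K) : Y_REP K := by
  intro N W hN
  obtain ⟨-, g, cl, -, hcl, -⟩ := c.cls N hN
  have : ∀ i : Fin g, ∃ J, Cop N J ∧ ((∃ I, Cop N I ∧ cl I = i) → cl J = i) := fun i => by
    by_cases e : ∃ I, Cop N I ∧ cl I = i
    · obtain ⟨I, h1, h2⟩ := e
      exact ⟨I, h1, fun _ => h2⟩
    · exact ⟨⊤, by rw [Cop, ← Ideal.one_eq_top]; exact isCoprime_one_left, fun h => absurd h e⟩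
  choose f f1 f2 using this
  choose v v1 v2 v3 using fun i => hDIR N (f i) W hN (f1 i)
  refine ⟨(univ.filter fun i => cl (f i) = i).image v, fun I hI => ?_, fun w hw => ?_,
    fun I J w hI hJ _ h => key hN hI hJ h⟩
  · have e := f2 (cl I) ⟨I, hI, rfl⟩
    refine ⟨v (cl I), ⟨mem_image_of_mem _ (mem_filter.2 ⟨mem_univ _, e⟩),
      (key hN (f1 _) hI (v3 _)).2 ((hcl _ _ (f1 _) hI).1 e)⟩, fun w ⟨hw, h⟩ => ?_⟩
    obtain ⟨j, hj, rfl⟩ := mem_image.1 hw
    rw [← (hcl _ _ (f1 _) hI).2 ((key hN (f1 _) hI (v3 j)).1 h), (mem_filter.1 hj).2]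
  · obtain ⟨j, -, rfl⟩ := mem_image.1 hw
    exact ⟨v1 j, v2 j⟩

theorem y_gD2 (c : Cx k K) (hREP : Y_REP K) : Y_GD2 K := by
  intro m hm
  obtain ⟨n₀, -, g0⟩ := c.good.1 1 one_ne_zero
  have h0 : 2 ≤ 4 * n₀ ^ 2 := by
    have := Nat.pos_of_ne_zero (pow_ne_zero 2 g0.pos)
    omega
  obtain ⟨ℛ, r1, r2, -⟩ := hREP _ 0 h0
  obtain ⟨ℛ', s1, s2, -⟩ := hREP _ (∑ v ∈ ℛ, nv v) h0
  obtain ⟨n, hn, g⟩ := c.good.1 (m * (4 * n₀ ^ 2) * ∏ v ∈ ℛ ∪ ℛ', Ideal.absNorm v.asIdeal)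
    (mul_ne_zero (mul_ne_zero hm (by omega)) (prod_ne_zero_iff.2 fun v _ e =>
      v.ne_bot (Ideal.absNorm_eq_zero_iff.1 e)))
  refine ⟨n₀, n, ℛ, ℛ', ((dvd_mul_right _ _).mul_right _).trans hn, g0, g,
    ((dvd_mul_left _ _).mul_right _).trans hn, r1, s1, fun v hv => ⟨(dv_absNorm v).of_dvd
      (((dvd_prod_of_mem _ hv).mul_left _).trans hn), fun d => ?_⟩, disjoint_left.2 fun v a b => ?_⟩
  · have d' : Dv (4 * n₀ ^ 2) v := d.of_dvd ((dvd_pow_self _ two_ne_zero).mul_left _)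
    rcases mem_union.1 hv with h | h
    · exact (r2 v h).1 d'
    · exact (s2 v h).1 d'
  · exact (s2 v b).2.not_ge (single_le_sum (f := fun v : Pl K => nv v)
      (fun w _ => (nv_pos w).le) a)

end Pool.Agent.P.MP_b8021b_nt.BP
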