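import Pool.Agent.P.MP_b8021b_nt.BP.StC

/-! The classes attached to the sets of places. -/

namespace Pool.Agent.P.MP_b8021b_nt.BP

open NumberField IsDedekindDomain Finset MeasureTheory
open Pool.Agent.P.MP_b8021b_nt.VE Pool.Agent.P.MP_b8021b_nt.VC Pool.Agent.P.MP_b8021b_nt.BS.CF
open Pool.Agent.P.MP_b8021b_nt.BS
open scoped Classical ComplexConjugate Real

variable {k : Type} [Field k] [NumberField k] [Algebra k ℂ] {K : Type} [Field K] [NumberField K]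
  [Algebra k K]

namespace PRDAT

variable {ζ t₀ : K} {𝓛 : K → Prop} {V : Finset (Pl K)}

/-- a factor that is a local square over two and at `V` changes only the ramification -/
theorem rel_mul (hLIN : Y_LIN K) (hζ : Un ζ) (h𝓛 : Grp2 ζ 𝓛) (ht : t₀ ≠ 0)
    (hV : ∀ v ∈ V, Sens ζ v ∧ Odd (od v t₀)) {A B : Finset (Pl K)} {c β : K}
    (hc : Rel ζ 𝓛 V t₀ A c) (hβ : β ≠ 0) (hl : ∀ v, Dv 2 v ∨ v ∈ V → LP 2 v β)
    (ho : ∀ v, Odd (od v β) ↔ ¬ (v ∈ A ↔ v ∈ B)) : Rel ζ 𝓛 V t₀ B (c * β) := by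
  refine ⟨h𝓛.mul _ _ hc.1 (h𝓛.lp β hβ fun v hv => hl v (Or.inl hv)), fun v h2 hv => ?_,
    fun v hv => ((hLIN ζ t₀ v hζ (hV v hv).1 ht (hV v hv).2).2.2.2.1 c β (hc.2.2 v hv)
      (hl v (Or.inr hv))).2⟩
  rw [od_mul v (h𝓛.ne c hc.1) hβ, Int.odd_add, ← Int.not_odd_iff_even, hc.2.1 v h2 hv, ho]
  tauto

/-- an integral class -/
theorem ex_om (hLIN : Y_LIN K) (hζ : Un ζ) (h𝓛 : Grp2 ζ 𝓛) (ht : t₀ ≠ 0)
    (hV : ∀ v ∈ V, Sens ζ v ∧ Odd (od v t₀)) (A : Finset (Pl K)) :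
    ∃ ω : 𝓞 K, ω ≠ 0 ∧ ((∃ c, Rel ζ 𝓛 V t₀ A c) → Rel ζ 𝓛 V t₀ A ω) := by
  by_cases h : ∃ c, Rel ζ 𝓛 V t₀ A c
  · obtain ⟨c, hc⟩ := h
    obtain ⟨x, y, hy, rfl⟩ := IsFractionRing.div_surjective (A := 𝓞 K) c
    have y0 : algebraMap (𝓞 K) K y ≠ 0 := by simpa using nonZeroDivisors.ne_zero hy
    have h := rel_mul hLIN hζ h𝓛 ht hV (B := A) hc (pow_ne_zero 2 y0)
      (fun v _ => LP.pow_self v two_ne_zero y0) fun v => by
        rw [od_pow]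
        simp
    have e : algebraMap (𝓞 K) K x / algebraMap (𝓞 K) K y * algebraMap (𝓞 K) K y ^ 2 =
        ((x * y : 𝓞 K) : K) := by
      rw [RingOfIntegers.coe_eq_algebraMap, map_mul]
      field_simp
    rw [e] at h
    exact ⟨x * y, fun e' => h𝓛.ne _ h.1 (by simp [e']), fun _ => h⟩
  · exact ⟨1, one_ne_zero, fun h' => absurd h' h⟩

/-- the valuations of a generator -/
theorem odd_gen {D : Finset (Pl K)} {w : Pl K} {β : 𝓞 K} (hw : w ∉ D)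
    (e : eI D * w.asIdeal = sp β) :
    β ≠ 0 ∧ ∀ v, Odd (od v (β : K)) ↔ ¬ (v ∈ D ↔ v ∈ ({w} : Finset (Pl K))) := by
  have h0 : β ≠ 0 := fun e' => mul_ne_zero (eI_ne_bot D) w.ne_bot (by simpa [e'] using e)
  refine ⟨h0, fun v => ?_⟩
  rw [od_coe v h0, ← sp, ← e, cnt_mul v (eI_ne_bot D) w.ne_bot, cnt_eI, mem_singleton]
  by_cases h : v = w
  · subst h
    simp [hw, cnt_self]
  · by_cases h' : v ∈ D <;> simp [h, h', cnt_ne v h]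

/-- balanced generators -/
theorem ex_gen (c : Cx k K) {N : ℕ} (hN : 1 ≤ N) {ℛ : Finset (Pl K)} (hR : Reps N ℛ) :
    ∃ C : ℝ, 1 ≤ C ∧ ∀ D : Finset (Pl K), ∃ (w : Pl K) (β : 𝓞 K), w ∈ ℛ ∧ (Cop N (eI D) →
      eI D * w.asIdeal = sp β ∧ (N : 𝓞 K) ∣ β - 1 ∧ Bal k (C * nv w) (nS D) β) := by
  obtain ⟨C, hC, hbal⟩ := c.bal2 N hN
  refine ⟨C, hC, fun D => ?_⟩
  by_cases h : Cop N (eI D)
  · obtain ⟨w, ⟨hw, γ, h1, e⟩, -⟩ := hR _ h
    have h0 : γ ≠ 0 := fun e' => mul_ne_zero (eI_ne_bot D) w.ne_bot (by simpa [e'] using e)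
    obtain ⟨u, hu, hb⟩ := hbal γ h0
    refine ⟨w, u * γ, hw, fun _ => ⟨?_, ?_, fun φ => (hb φ).1.trans ?_⟩⟩
    · rw [e, sp, sp, Ideal.span_singleton_mul_left_unit u.isUnit]
    · rw [show (u : 𝓞 K) * γ - 1 = u * (γ - 1) + (u - 1) by ring]
      exact dvd_add (h1.mul_left _) hu
    · have hr := c.one_le_rk
      have h2 : nv w ^ (1 / rk k K) ≤ nv w := by
        conv_rhs => rw [← Real.rpow_one (nv w)]
        exact Real.rpow_le_rpow_of_exponent_le (one_le_two.trans (two_le_NN w))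
          ((div_le_one (by linarith)).2 hr)
      rw [← e, NN_mul, Real.mul_rpow (nS_pos D).le (nv_pos w).le, mul_assoc, mul_comm (nv w)]
      have := nS_pos D
      gcongr
  · obtain ⟨w, ⟨hw, -⟩, -⟩ := hR ⊤ (by rw [Cop, ← Ideal.one_eq_top]; exact isCoprime_one_left)
    exact ⟨w, 1, hw, fun h' => absurd h' h⟩

end PRDAT

open PRDAT in
theorem y_rDAT (c : Cx k K) (hLIN : Y_LIN K) (hREP : Y_REP K) : Y_RDAT k K := by
  intro ζ t₀ 𝓛 V N₀ hζ h𝓛 ht hV hN₀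
  obtain ⟨N, hN, h8, hN0, hNV⟩ : ∃ N : ℕ, N ≠ 0 ∧ 8 ∣ N ∧ N₀ ∣ N ∧
      ∀ v ∈ V, Ideal.absNorm v.asIdeal ∣ N :=
    ⟨8 * N₀ * ∏ v ∈ V, Ideal.absNorm v.asIdeal, mul_ne_zero (mul_ne_zero (by norm_num) hN₀)
      (prod_ne_zero_iff.2 fun v _ e => v.ne_bot (Ideal.absNorm_eq_zero_iff.1 e)),
      (dvd_mul_right _ _).mul_right _, (dvd_mul_left _ _).mul_right _,
      fun v hv => (dvd_prod_of_mem _ hv).mul_left _⟩
  have h2 : 2 ≤ N := le_trans (by norm_num) (Nat.le_of_dvd (Nat.pos_of_ne_zero hN) h8)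
  obtain ⟨ℛ, hR, -, hray⟩ := hREP N 0 h2
  obtain ⟨C, hC, hgen⟩ := ex_gen c (one_le_two.trans h2) hR
  choose cl β hcl hβ using hgen
  choose ω ω0 hω using fun v : Pl K => ex_om hLIN hζ h𝓛 ht hV {v}
  obtain ⟨W, W1, hWN, hW⟩ : ∃ W : ℝ, 1 ≤ W ∧ (∀ v : Pl K, Dv N v → nv v ≤ W) ∧
      ∀ v ∈ ℛ, nv v ≤ W ∧ NN (sp (ω v)) ≤ W := by
    have n1 : 1 ≤ NN (sp (N : 𝓞 K)) :=
      one_le_NN (Ideal.span_singleton_eq_bot.not.2 (Nat.cast_ne_zero.2 hN))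
    have p (v : Pl K) : 0 ≤ nv v + NN (sp (ω v)) := by positivity
    have s0 := sum_nonneg fun v (_ : v ∈ ℛ) => p v
    refine ⟨NN (sp (N : 𝓞 K)) + ∑ v ∈ ℛ, (nv v + NN (sp (ω v))), by linarith,
      fun v hv => by linarith [nv_le_of_dv hN hv], fun v hv => ?_⟩
    have := single_le_sum (fun v (_ : v ∈ ℛ) => p v) hv
    have := nv_pos v
    have : 0 ≤ NN (sp (ω v)) := Nat.cast_nonneg _
    exact ⟨by linarith, by linarith⟩
  have hcop (D : Finset (Pl K)) (hD : ∀ v ∈ D, W < nv v) : Cop N (eI D) :=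
    (cop_eI hN).2 fun v hv h => (hD v hv).not_ge (hWN v h)
  have hpr (D : Finset (Pl K)) (v : Pl K) (h : ω (cl D) ∈ v.asIdeal) : nv v ≤ W :=
    (NN_le_of_le (Ideal.span_singleton_eq_bot.not.2 (ω0 _))
      ((Ideal.span_singleton_le_iff_mem _).2 h)).trans (hW _ (hcl D)).2
  refine ⟨⟨N, W, C * W, cl, ω, β, fun v => ∃ c, Rel ζ 𝓛 V t₀ {v} c⟩, hN0,
    ⟨h2, h8, one_le_mul_of_one_le_of_one_le hC W1, hWN, fun D => (hW _ (hcl D)).1, fun D => ω0 _,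
      hpr, fun D => (hW _ (hcl D)).2.trans (le_mul_of_one_le_left (by linarith) hC),
      fun D hD => ?_, fun D D' hD hD' => ?_⟩, hNV, fun D hD => ?_⟩
  · obtain ⟨e, h1, hb⟩ := hβ D (hcop D hD)
    refine ⟨e, h1, fun φ => (hb φ).trans ?_⟩
    have := (hW _ (hcl D)).1
    have := nS_pos D
    have : 0 ≤ C := by linarith
    dsimp only
    gcongr
  · obtain ⟨e, h1, -⟩ := hβ D (hcop D hD)
    obtain ⟨e', h1', -⟩ := hβ D' (hcop D' hD')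
    have h := hray _ _ _ (hcop D hD) (hcop D' hD') (hcl D) ⟨_, h1, e⟩
    exact ⟨fun a => h.1 ⟨_, h1', (show cl D = cl D' from a) ▸ e'⟩,
      fun a => (hR _ (hcop D' hD')).unique ⟨hcl D, h.2 a⟩ ⟨hcl D', _, h1', e'⟩⟩
  · obtain ⟨e, h1, -⟩ := hβ D (hcop D hD)
    obtain ⟨β0, ho⟩ := odd_gen (fun h => (hD _ h).not_ge (hW _ (hcl D)).1) e
    have β0' : (β D : K) ≠ 0 := by simpa using β0
    have hl (v : Pl K) (hv : Dv 2 v ∨ v ∈ V) : LP 2 v (β D : K) :=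
      lp_of_dvd h8 h1 (hv.elim (fun h => h.of_dvd ((by norm_num : 2 ∣ 8).trans h8))
        fun h => Dv.of_dvd (Ideal.absNorm_mem _) (hNV v h))
    refine ⟨fun ⟨a, ha⟩ => ?_, fun v hv => ?_⟩
    · have hr : ∃ c, Rel ζ 𝓛 V t₀ {cl D} c := ⟨_, rel_mul hLIN hζ h𝓛 ht hV ha β0' hl ho⟩
      refine ⟨hr, ?_⟩
      have h := rel_mul hLIN hζ h𝓛 ht hV (B := D) (hω _ hr) β0' hl
        fun v => (ho v).trans (not_congr iff_comm)
      simpa [RD.z] using h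
    · change ω (cl D) * β D ∈ v.asIdeal ↔ v ∈ D
      have hv' : W < nv v := hv
      rw [v.isPrime.mul_mem_iff_mem_or_mem, or_iff_right fun h => hv'.not_ge (hpr D v h),
        ← Ideal.span_singleton_le_iff_mem, ← sp, ← e, v.isPrime.mul_le, eI_le_iff, or_iff_left]
      exact fun h => hv'.not_ge ((NN_le_of_le (cl D).ne_bot h).trans (hW _ (hcl D)).1)

end Pool.Agent.P.MP_b8021b_nt.BP
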