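import Pool.Agent.P.MP_b8021b_nt.BP.StC

/-! The first moment of the kernel of the Redei matrix. -/

namespace Pool.Agent.P.MP_b8021b_nt.BP

open NumberField IsDedekindDomain Finset MeasureTheory
open Pool.Agent.P.MP_b8021b_nt.VE Pool.Agent.P.MP_b8021b_nt.VC Pool.Agent.P.MP_b8021b_nt.BS.CF
open Pool.Agent.P.MP_b8021b_nt.BS
open scoped Classical ComplexConjugate Real

variable {k : Type} [Field k] [NumberField k] [Algebra k ℂ] {K : Type} [Field K] [NumberField K]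
  [Algebra k K]

namespace PRED2

/-- the splitting of the double sum -/
theorem split {ι : Type} [DecidableEq ι] (P : Finset ι) {e : ι} (he : e ∈ P) (p q : ι → Prop)
    [DecidablePred p] [DecidablePred q] (hq : ∀ i, q i ↔ ¬ p i) (hp : p e) (g : ι → ℝ)
    (h0 : ∀ i, 0 ≤ g i) (h1 : g e = 1) (κ : ι → ι → ℂ) (hκ : ∀ i j, ‖κ i j‖ ≤ 1) :
    ‖∑ D ∈ P.filter q, ∑ E ∈ P, κ D E * (g D * g E : ℝ)‖ ≤ ∑ D ∈ P, g D +
      ∑ E ∈ (P.erase e).filter p, g E * ‖∑ D ∈ P, κ D E * (g D : ℝ)‖ +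
      (1 + ∑ D ∈ (P.erase e).filter p, g D) ^ 2 +
      ‖∑ D ∈ P.filter q, ∑ E ∈ P.filter q, κ D E * (g D * g E : ℝ)‖ := by
  rw [filter_congr fun i _ => hq i]
  have hn : ∀ (s : Finset ι) E, ‖∑ D ∈ s, κ D E * (g D : ℝ)‖ ≤ ∑ D ∈ s, g D := fun s E =>
    norm_sum_le_of_le _ fun D _ => by
      rw [norm_mul, Complex.norm_real, Real.norm_of_nonneg (h0 D)]
      exact mul_le_of_le_one_left (h0 D) (hκ D E)
  have hs : ∀ {M : Type} [AddCommMonoid M] (F : ι → M),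
      ∑ E ∈ P.filter p, F E = F e + ∑ E ∈ (P.erase e).filter p, F E := fun F => by
    rw [filter_erase, add_sum_erase _ _ (mem_filter.2 ⟨he, hp⟩)]
  set s := ∑ D ∈ (P.erase e).filter p, g D with hs'
  have s0 : 0 ≤ s := sum_nonneg fun i _ => h0 i
  have e1 : ∑ D ∈ P.filter (fun D => ¬ p D), ∑ E ∈ P, κ D E * (g D * g E : ℝ) =
      ∑ D ∈ P.filter (fun D => ¬ p D), κ D e * (g D : ℝ) +
      ∑ E ∈ (P.erase e).filter p, (g E : ℝ) * ∑ D ∈ P.filter (fun D => ¬ p D), κ D E * (g D : ℝ) +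
      ∑ D ∈ P.filter (fun D => ¬ p D), ∑ E ∈ P.filter (fun D => ¬ p D),
        κ D E * (g D * g E : ℝ) := by
    simp only [mul_sum]
    rw [sum_comm (s := (P.erase e).filter p), ← sum_add_distrib, ← sum_add_distrib]
    refine sum_congr rfl fun D _ => ?_
    rw [← sum_filter_add_sum_filter_not P p, hs, h1, mul_one]
    congr 2
    exact sum_congr rfl fun E _ => by push_cast; ring
  have e2 : ∀ E, ‖∑ D ∈ P.filter (fun D => ¬ p D), κ D E * (g D : ℝ)‖ ≤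
      ‖∑ D ∈ P, κ D E * (g D : ℝ)‖ + (1 + s) := fun E => by
    rw [eq_sub_of_add_eq' (sum_filter_add_sum_filter_not P p fun D => κ D E * (g D : ℝ))]
    refine (norm_sub_le _ _).trans (add_le_add_right ((hn _ E).trans_eq ?_) _)
    rw [hs, h1]
  have e3 : ‖∑ E ∈ (P.erase e).filter p, ((g E : ℝ) : ℂ) *
      ∑ D ∈ P.filter (fun D => ¬ p D), κ D E * (g D : ℝ)‖ ≤
      ∑ E ∈ (P.erase e).filter p, g E * ‖∑ D ∈ P, κ D E * (g D : ℝ)‖ + s * (1 + s) := by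
    rw [hs', sum_mul, ← sum_add_distrib]
    refine norm_sum_le_of_le _ fun E _ => ?_
    rw [norm_mul, Complex.norm_real, Real.norm_of_nonneg (h0 E), ← mul_add]
    exact mul_le_mul_of_nonneg_left (e2 E) (h0 E)
  have e4 : ‖∑ D ∈ P.filter (fun D => ¬ p D), κ D e * (g D : ℝ)‖ ≤ ∑ D ∈ P, g D :=
    (hn _ e).trans (sum_le_sum_of_subset_of_nonneg (filter_subset _ _) fun i _ _ => h0 i)
  have e5 : s * (1 + s) ≤ (1 + s) ^ 2 := by nlinarith
  rw [e1]
  refine (norm_add₃_le).trans ?_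
  linarith

theorem decay {C ε : ℝ} (hC : 0 ≤ C) (j : ℕ) (hε : 0 < ε) : ∃ y₁ : ℝ, ∀ y, y₁ ≤ y →
    C * Real.log y ^ j * D0 y ^ (-(1 / 8 : ℝ)) ≤ ε := by
  refine ⟨Real.exp (C / ε + Real.exp ((48 * (j + 1)) ^ 2)), fun y hy => ?_⟩
  have h1 := (Real.le_log_iff_exp_le ((Real.exp_pos _).trans_le hy)).2 hy
  have h2 : 0 ≤ C / ε := by positivity
  have h3 := Real.exp_pos ((48 * (j + 1 : ℝ)) ^ 2)
  set L := Real.log y
  have hL : 0 < L := by linarith
  have h4 : (48 * (j + 1 : ℝ)) ^ 2 ≤ Real.log L := (Real.le_log_iff_exp_le hL).2 (by linarith)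
  have h5 : 48 * (j + 1 : ℝ) ≤ √(Real.log L) := Real.le_sqrt_of_sq_le h4
  have h6 : √(Real.log L) ^ 2 = Real.log L := Real.sq_sqrt ((sq_nonneg _).trans h4)
  have h7 := Real.pow_div_factorial_le_exp √(Real.log L) (Real.sqrt_nonneg _) 3
  have h8 : ((j + 1 : ℕ) : ℝ) * Real.log L ≤ Real.exp √(Real.log L) / 8 := by
    have := mul_le_mul_of_nonneg_right h5 (sq_nonneg √(Real.log L))
    rw [pow_succ', h6] at h7
    rw [h6] at this
    norm_num [Nat.factorial] at h7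
    push_cast
    linarith
  have h9 : D0 y ^ (-(1 / 8 : ℝ)) ≤ (L ^ (j + 1))⁻¹ := by
    rw [D0, ← Real.exp_mul, ← Real.exp_log (pow_pos hL (j + 1)), ← Real.exp_neg, Real.log_pow]
    exact Real.exp_le_exp.2 (by linarith)
  calc C * L ^ j * D0 y ^ (-(1 / 8 : ℝ)) ≤ C * L ^ j * (L ^ (j + 1))⁻¹ := by gcongr
    _ = C / L := by rw [pow_succ]; field_simp
    _ ≤ ε := by
      rw [div_le_iff₀ hL, mul_comm, ← div_le_iff₀ hε]
      linarith

theorem one_le_D0 (y : ℝ) : 1 ≤ D0 y := Real.one_le_exp (Real.exp_pos _).le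

variable {d : RD K} {D E : Finset (Pl K)}

omit [NumberField k] in
theorem sp_z (h : d.Ok k) (hD : ∀ v ∈ D, d.W < nv v) :
    sp (d.z D) = sp (d.ω (d.cl D)) * (eI D * (d.cl D).asIdeal) := by
  rw [RD.z, sp_mul, (h.gen D hD).1]

omit [NumberField k] in
theorem sp_ne (h : d.Ok k) (D : Finset (Pl K)) : sp (d.ω (d.cl D)) ≠ ⊥ :=
  Ideal.span_singleton_eq_bot.not.2 (h.ω_ne D)

omit [NumberField k] in
theorem z_ne (h : d.Ok k) (hD : ∀ v ∈ D, d.W < nv v) : d.z D ≠ 0 := fun e =>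
  mul_ne_zero (sp_ne h D) (mul_ne_zero (eI_ne_bot D) (d.cl D).ne_bot)
    ((sp_z h hD).symm.trans (Ideal.span_singleton_eq_bot.2 e))

omit [NumberField k] in
theorem NN_z (h : d.Ok k) (hD : ∀ v ∈ D, d.W < nv v) : NN (sp (d.z D)) ≤ d.C * d.W * nS D := by
  rw [sp_z h hD, NN_mul, NN_mul, mul_assoc, mul_comm d.W]
  exact mul_le_mul (h.ω_le D) (mul_le_mul_of_nonneg_left (h.cl_le D) (nS_pos D).le)
    (mul_pos (nS_pos D) (nv_pos _)).le (zero_le_one.trans h.one_le)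

omit [NumberField k] in
theorem od_z (h : d.Ok k) (hD : ∀ v ∈ D, d.W < nv v) {v : Pl K} (hv : d.W < nv v) :
    od v (d.z D : K) = if v ∈ D then 1 else 0 := by
  have h1 : cnt v (sp (d.ω (d.cl D))) = 0 := (cnt_eq_zero v).2 fun e =>
    hv.not_ge (h.ω_pr D v ((Ideal.span_singleton_le_iff_mem _).1 e))
  have h2 : cnt v (d.cl D).asIdeal = 0 := cnt_ne v fun e => hv.not_ge (e ▸ h.cl_le D)
  have h3 : cnt v (sp (d.z D)) = if v ∈ D then 1 else 0 := by
    rw [sp_z h hD, cnt_mul v (sp_ne h D) (mul_ne_zero (eI_ne_bot D) (d.cl D).ne_bot),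
      cnt_mul v (eI_ne_bot D) (d.cl D).ne_bot, h1, h2, cnt_eI, zero_add, add_zero]
  rw [od_coe v (z_ne h hD), h3]
  split_ifs <;> rfl

omit [NumberField k] in
theorem od2 (h : d.Ok k) (hD : ∀ v ∈ D, d.W < nv v) (hE : ∀ v ∈ E, d.W < nv v) (e : D ≠ E) :
    Od2 (d.z D) (d.z E) := by
  obtain ⟨v, hv⟩ := not_forall.1 fun H => e (Finset.ext H)
  have h1 : d.W < nv v := by
    by_cases a : v ∈ D
    · exact hD v a
    · exact hE v (by tauto)
  refine ⟨v, fun a => h1.not_ge (h.dv v ?_), ?_⟩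
  · obtain ⟨m, hm⟩ := (by norm_num : 2 ∣ 8).trans h.eight
    rw [Dv, hm, Nat.cast_mul]
    exact Ideal.mul_mem_right _ _ a
  · push_cast
    rw [od_mul v (by simpa using z_ne h hD) (by simpa using z_ne h hE), od_z h hD h1,
      od_z h hE h1]
    by_cases a : v ∈ D <;> by_cases b : v ∈ E <;> simp_all

theorem gg_pos (v : Pl K) : 0 < gg v := by
  have := nv_pos v
  unfold gg
  positivity

theorem gS_nonneg (D : Finset (Pl K)) : 0 ≤ gS D := prod_nonneg fun v _ => (gg_pos v).le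

theorem GG_nonneg (S : Finset (Pl K)) : 0 ≤ GG S :=
  prod_nonneg fun v _ => (inv_pos.2 (add_pos one_pos (gg_pos v))).le

theorem GG_le (S : Finset (Pl K)) : GG S ≤ 1 :=
  prod_le_one (fun v _ => (inv_pos.2 (add_pos one_pos (gg_pos v))).le)
    fun v _ => inv_le_one_of_one_le₀ (le_add_of_nonneg_right (gg_pos v).le)

theorem GG_mul (S : Finset (Pl K)) : GG S * ∑ D ∈ S.powerset, gS D = 1 := by
  unfold gS GG
  rw [← prod_one_add, ← prod_mul_distrib]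
  exact prod_eq_one fun v _ => inv_mul_cancel₀ (add_pos one_pos (gg_pos v)).ne'

theorem prod_coe (x : 𝓞 K) (S : Finset (Pl K)) : ((∏ v ∈ S, (1 + lr x v * gg v) : ℝ) : ℂ) =
    ∏ v ∈ S, (1 + leg x v * (gg v : ℝ)) := by
  push_cast
  simp only [lr_coe]

theorem term_coe (d : RD K) (D S : Finset (Pl K)) :
    ((if d.r D then gS D * ∏ v ∈ S, (1 + lr (d.z D) v * gg v) else 0 : ℝ) : ℂ) =
      ∑ E ∈ S.powerset, d.κ D E * (gS D * gS E : ℝ) := by
  unfold RD.κ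
  split_ifs
  · rw [Complex.ofReal_mul, prod_coe, prod_one_add, mul_sum]
    refine sum_congr rfl fun E _ => ?_
    rw [prod_mul_distrib, jac_eI, Complex.ofReal_mul, gS, gS, Complex.ofReal_prod E]
    ring
  · simp

theorem norm_κ (d : RD K) (D E : Finset (Pl K)) : ‖d.κ D E‖ ≤ 1 := by
  unfold RD.κ
  split_ifs
  · exact norm_jac_le _ _
  · simp

end PRED2

open PRED2 in
theorem y_rED2 (c : Cx k K) (hTE : Y_TE K) (hKF1 : Y_KF1 k K) (hKF2 : Y_KF2 k K)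
    (hRT2 : Y_RT2 k K) (hBB4 : Y_BB4 K) : Y_RED2 k K := by
  intro ζ hζ
  obtain ⟨n, N₀, hn, hN, hnN, hKF⟩ := hKF1
  refine ⟨N₀, hN, fun d hd hdN => ?_⟩
  obtain ⟨C, W₀, b, Φ, hk⟩ := hKF d hd hdN
  obtain ⟨C', hC', hKB⟩ := hKF2 n d C W₀ b Φ hn hd (hnN.trans hdN) hk
  obtain ⟨W₁, hW₁⟩ := hTE ζ (d.C * d.W) (1 / 40) hζ (by norm_num)
  obtain ⟨W₂, hW₂⟩ := hRT2 ζ n d C W₀ (1 / 40) b Φ hζ hd hk (by norm_num)
  obtain ⟨C₁, j, hC₁, hB⟩ := hBB4
  obtain ⟨y₃, hy₃⟩ := decay (mul_nonneg (zero_le_one.trans hC₁) hC') j (ε := 1 / 40) (by norm_num)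
  refine ⟨max W₀ (max W₁ W₂), fun W hW => ?_⟩
  simp only [max_le_iff] at hW
  obtain ⟨y₁, hy₁⟩ := hW₁ W hW.2.1
  obtain ⟨y₂, hy₂⟩ := hW₂ W hW.2.2
  refine ⟨max (max y₁ y₂) (max y₃ 3), fun y hy => ?_⟩
  simp only [max_le_iff] at hy
  have r2 := hy₂ y hy.1.2
  have r3 := hy₃ y hy.2.1
  set S := (pls K W y).filter (Sens ζ) with hS
  have hs : S ⊆ pls K W y := filter_subset _ _
  have hv : ∀ v ∈ S, W₀ < nv v := fun v h => hW.1.trans_lt (mem_pls.1 (hs h)).1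
  have hD : ∀ D ∈ (S.powerset.erase ∅).filter (fun E => nS E ≤ D0 y), ∀ v ∈ D, d.W < nv v :=
    fun D h v e => hk.2.1.trans_lt (hv v (mem_powerset.1 (mem_erase.1 (mem_filter.1 h).1).2 e))
  obtain ⟨t1, t2⟩ := hy₁ y hy.1.1 ((S.powerset.erase ∅).filter (fun E => nS E ≤ D0 y)) d.z
    (fun _ => 1) (fun D h => ⟨(mem_erase.1 (mem_filter.1 h).1).1,
      (mem_powerset.1 (mem_erase.1 (mem_filter.1 h).1).2).trans hs, (mem_filter.1 h).2,
      z_ne hd (hD D h), NN_z hd (hD D h)⟩) (fun D h E h' => od2 hd (hD D h) (hD E h'))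
    fun _ => by simp
  have r4 := (hB d.κ S C' y (D0 y) hC' hy.2.2 (one_le_D0 y)
    (fun v h => mem_pls.2 ⟨nv_pos v, (mem_pls.1 (hs h)).2⟩) (hKB S hv)).trans r3
  have h1 : nS (∅ : Finset (Pl K)) ≤ D0 y := by
    rw [nS_eq, prod_empty]
    exact one_le_D0 y
  have sp := split S.powerset (empty_mem_powerset S) (fun E => nS E ≤ D0 y)
    (fun E => D0 y < nS E) (fun _ => not_le.symm) h1 gS gS_nonneg prod_empty d.κ (norm_κ d)
  have g0 := GG_nonneg S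
  have g1 := GG_le S
  have g2 := GG_mul S
  have a1 : ∑ D ∈ (S.powerset.erase ∅).filter (fun E => nS E ≤ D0 y), (if d.r D then
      gS D * ∏ v ∈ S, (1 + lr (d.z D) v * gg v) else 0) ≤
      ∑ D ∈ (S.powerset.erase ∅).filter (fun E => nS E ≤ D0 y),
        gS D * ‖∏ v ∈ S, (1 + 1 * leg (d.z D) v * (gg v : ℝ))‖ := sum_le_sum fun D _ => by
    split_ifs
    · refine mul_le_mul_of_nonneg_left ?_ (gS_nonneg D)
      simp only [one_mul]
      rw [← prod_coe, Complex.norm_real]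
      exact le_abs_self _
    · exact mul_nonneg (gS_nonneg D) (norm_nonneg _)
  have a2 : ∑ D ∈ (S.powerset.erase ∅).filter (fun E => ¬ nS E ≤ D0 y), (if d.r D then
      gS D * ∏ v ∈ S, (1 + lr (d.z D) v * gg v) else 0) ≤
      ‖∑ D ∈ S.powerset.filter (fun E => D0 y < nS E), ∑ E ∈ S.powerset,
        d.κ D E * (gS D * gS E : ℝ)‖ := by
    rw [filter_erase, erase_eq_of_notMem (by simp [h1])]
    simp only [not_le, ← term_coe]
    rw [← Complex.ofReal_sum, Complex.norm_real]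
    exact le_abs_self _
  rw [← sum_filter_add_sum_filter_not _ (fun E => nS E ≤ D0 y), mul_add]
  have a3 := mul_le_mul_of_nonneg_left a1 g0
  have a4 := mul_le_mul_of_nonneg_left (a2.trans sp) g0
  have a5 := (mul_le_of_le_one_left (norm_nonneg _) g1).trans r4
  rw [mul_add, mul_add, mul_add] at a4
  linarith

end Pool.Agent.P.MP_b8021b_nt.BP
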