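import Pool.Agent.P.MP_b8021b_nt.BP.StC

/-! The sum over the last prime. -/

namespace Pool.Agent.P.MP_b8021b_nt.BP

open NumberField IsDedekindDomain Finset MeasureTheory
open Pool.Agent.P.MP_b8021b_nt.VE Pool.Agent.P.MP_b8021b_nt.VC Pool.Agent.P.MP_b8021b_nt.BS.CF
open Pool.Agent.P.MP_b8021b_nt.BS
open scoped Classical ComplexConjugate Real

variable {k : Type} [Field k] [NumberField k] [Algebra k ℂ] {K : Type} [Field K] [NumberField K]
  [Algebra k K]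

namespace PRED3

variable {d : RD K} {D E : Finset (Pl K)}

omit [NumberField k] in
theorem sp_z (h : d.Ok k) (hD : ∀ v ∈ D, d.W < nv v) :
    sp (d.z D) = sp (d.ω (d.cl D)) * (eI D * (d.cl D).asIdeal) := by
  rw [RD.z, sp_mul, (h.gen D hD).1]

omit [NumberField k] in
theorem sp_ne (h : d.Ok k) (D : Finset (Pl K)) : sp (d.ω (d.cl D)) ≠ ⊥ :=
  Ideal.span_singleton_eq_bot.not.2 (h.ω_ne D)

omit [NumberField k] in
theorem z_ne (h : d.Ok k) (hD : ∀ v ∈ D, d.W < nv v) : d.z D ≠ 0 := fun e =>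
  mul_ne_zero (sp_ne h D) (mul_ne_zero (eI_ne_bot D) (d.cl D).ne_bot)
    ((sp_z h hD).symm.trans (Ideal.span_singleton_eq_bot.2 e))

omit [NumberField k] in
theorem NN_z (h : d.Ok k) (hD : ∀ v ∈ D, d.W < nv v) : NN (sp (d.z D)) ≤ d.C * d.W * nS D := by
  rw [sp_z h hD, NN_mul, NN_mul, mul_assoc, mul_comm d.W]
  exact mul_le_mul (h.ω_le D) (mul_le_mul_of_nonneg_left (h.cl_le D) (nS_pos D).le)
    (mul_pos (nS_pos D) (nv_pos _)).le (zero_le_one.trans h.one_le)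

omit [NumberField k] in
theorem od_z (h : d.Ok k) (hD : ∀ v ∈ D, d.W < nv v) {v : Pl K} (hv : d.W < nv v) :
    od v (d.z D : K) = if v ∈ D then 1 else 0 := by
  have h1 : cnt v (sp (d.ω (d.cl D))) = 0 := (cnt_eq_zero v).2 fun e =>
    hv.not_ge (h.ω_pr D v ((Ideal.span_singleton_le_iff_mem _).1 e))
  have h2 : cnt v (d.cl D).asIdeal = 0 := cnt_ne v fun e => hv.not_ge (e ▸ h.cl_le D)
  have h3 : cnt v (sp (d.z D)) = if v ∈ D then 1 else 0 := by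
    rw [sp_z h hD, cnt_mul v (sp_ne h D) (mul_ne_zero (eI_ne_bot D) (d.cl D).ne_bot),
      cnt_mul v (eI_ne_bot D) (d.cl D).ne_bot, h1, h2, cnt_eI, zero_add, add_zero]
  rw [od_coe v (z_ne h hD), h3]
  split_ifs <;> rfl

omit [NumberField k] in
theorem od2 (h : d.Ok k) (hD : ∀ v ∈ D, d.W < nv v) (hE : ∀ v ∈ E, d.W < nv v) (e : D ≠ E) :
    Od2 (d.z D) (d.z E) := by
  obtain ⟨v, hv⟩ := not_forall.1 fun H => e (Finset.ext H)
  have h1 : d.W < nv v := by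
    by_cases a : v ∈ D
    · exact hD v a
    · exact hE v (by tauto)
  refine ⟨v, fun a => h1.not_ge (h.dv v ?_), ?_⟩
  · obtain ⟨m, hm⟩ := (by norm_num : 2 ∣ 8).trans h.eight
    rw [Dv, hm, Nat.cast_mul]
    exact Ideal.mul_mem_right _ _ a
  · push_cast
    rw [od_mul v (by simpa using z_ne h hD) (by simpa using z_ne h hE), od_z h hD h1,
      od_z h hE h1]
    by_cases a : v ∈ D <;> by_cases b : v ∈ E <;> simp_all

theorem pik_mem (r : Finset (Pl K) → Prop) (z : Finset (Pl K) → 𝓞 K) (D Γ : Finset (Pl K)) :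
    0 ≤ pik r z D Γ ∧ pik r z D Γ ≤ 1 := by
  have h : ∀ v, 0 ≤ (1 + lr (z D) v) / 2 ∧ (1 + lr (z D) v) / 2 ≤ 1 := fun v => by
    have := abs_le.1 (abs_lr (z D) v)
    constructor <;> linarith [this.1, this.2]
  have h0 := prod_nonneg fun v (_ : v ∈ Γ \ D) => (h v).1
  unfold pik
  split_ifs
  · exact ⟨by positivity, mul_le_one₀ (inv_le_one_of_one_le₀ (one_le_pow₀ one_le_two)) h0
      (prod_le_one (fun v _ => (h v).1) fun v _ => (h v).2)⟩
  · exact ⟨le_rfl, zero_le_one⟩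

theorem Z0_eq (P : Finset (Pl K)) : Z0 P = ∑ τ ∈ P.powerset, (nS τ)⁻¹ := by
  rw [Z0, prod_one_add]
  exact sum_congr rfl fun τ _ => by rw [nS_eq, prod_inv_distrib]

theorem sum_mem_le {P : Finset (Pl K)} {s : Finset (Finset (Pl K))} {v : Pl K}
    (h : ∀ τ ∈ s, τ ⊆ P ∧ v ∈ τ) : ∑ τ ∈ s, (nS τ)⁻¹ ≤ (nv v)⁻¹ * Z0 P := by
  have e : ∀ τ ∈ s, (nS τ)⁻¹ = (nv v)⁻¹ * (nS (τ.erase v))⁻¹ := fun τ hτ => by
    rw [nS_eq, nS_eq, ← mul_prod_erase _ _ (h τ hτ).2, mul_inv]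
  have hi : Set.InjOn (fun τ : Finset (Pl K) => τ.erase v) s := fun τ hτ τ' hτ' e => by
    rw [← insert_erase (h τ hτ).2, show τ.erase v = τ'.erase v from e, insert_erase (h τ' hτ').2]
  rw [sum_congr rfl e, ← mul_sum, Z0_eq, ← sum_image (f := fun σ => (nS σ)⁻¹) hi]
  refine mul_le_mul_of_nonneg_left (sum_le_sum_of_subset_of_nonneg (fun σ hσ => ?_)
    fun σ _ _ => (inv_pos.2 (nS_pos σ)).le) (inv_pos.2 (nv_pos v)).le
  obtain ⟨τ, hτ, rfl⟩ := mem_image.1 hσ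
  exact mem_powerset.2 ((erase_subset _ _).trans (h τ hτ).1)

theorem swap {α β : Type} [DecidableEq β] (s : Finset α) (t : α → Finset β) (f : α → β → ℝ) :
    ∑ x ∈ s, ∑ y ∈ t x, f x y = ∑ y ∈ s.biUnion t, ∑ x ∈ s.filter fun x => y ∈ t x, f x y :=
  sum_comm' fun x y => by
    rw [mem_filter, mem_biUnion]
    exact ⟨fun h => ⟨h, x, h⟩, fun h => h.1⟩

theorem cs {β : Type} (s : Finset β) (w B : β → ℝ) {C W Z : ℝ} (hC : 0 ≤ C) (hW : 0 < W)
    (hZ : 0 ≤ Z) (h0 : ∀ D ∈ s, 0 ≤ w D ∧ w D ≤ W⁻¹ * Z) (h1 : ∑ D ∈ s, w D ≤ 2 * Z)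
    (h2 : ∑ D ∈ s, B D ^ 2 ≤ C * 2 ^ 2) : ∑ D ∈ s, w D * B D ≤ √(8 * C) / √W * Z := by
  refine (le_abs_self _).trans (abs_le_of_sq_le_sq ((sum_mul_sq_le_sq_mul_sq _ _ _).trans ?_)
    (by positivity))
  have h3 : ∑ D ∈ s, w D ^ 2 ≤ W⁻¹ * Z * (2 * Z) := by
    refine le_trans ?_ (mul_le_mul_of_nonneg_left h1 (by positivity))
    rw [mul_sum]
    exact sum_le_sum fun D h => by
      rw [sq]
      exact mul_le_mul_of_nonneg_right (h0 D h).2 (h0 D h).1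
  refine (mul_le_mul h3 h2 (sum_nonneg fun _ _ => sq_nonneg _) (by positivity)).trans_eq ?_
  rw [mul_pow, div_pow, Real.sq_sqrt (by positivity), Real.sq_sqrt hW.le]
  ring

end PRED3

open PRED3

theorem y_rED3 (c : Cx k K) (hSLH : Y_SLH k K) : Y_RED3 k K := by
  intro ζ d hd
  obtain ⟨C, y₀, hC, y2, ps⟩ := hSLH
  refine ⟨√(8 * C), y₀, fun W y u yq hW h1 hy hq hZ => ?_⟩
  have W0 : 0 < W := by linarith
  have q1 : 1 < yq := by linarith
  have hm : ∀ τ ∈ TT K W y u, ∀ D ∈ (τ.filter (Sens ζ)).powerset.erase ∅,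
      τ ⊆ pls K W y ∧ D ≠ ∅ ∧ D ⊆ τ ∧ nS τ ≤ y ^ u := fun τ hτ D hD =>
    ⟨mem_powerset.1 (mem_filter.1 hτ).1, (mem_erase.1 hD).1,
      (mem_powerset.1 (mem_erase.1 hD).2).trans (filter_subset _ _), (mem_filter.1 hτ).2.1⟩
  have hb : ∀ D ∈ (TT K W y u).biUnion fun τ => (τ.filter (Sens ζ)).powerset.erase ∅,
      D ≠ ∅ ∧ nS D ≤ y ^ u ∧ ∀ v ∈ D, W < nv v := fun D hD => by
    obtain ⟨τ, hτ, h⟩ := mem_biUnion.1 hD
    obtain ⟨a1, a2, a3, a4⟩ := hm τ hτ D h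
    exact ⟨a2, (nS_mono a3).trans a4, fun v hv => (mem_pls.1 (a1 (a3 hv))).1⟩
  have hw := fun D hD v hv => hW.trans_lt ((hb D hD).2.2 v hv)
  have f0 : ∀ τ D : Finset (Pl K), 0 ≤ (nS τ)⁻¹ * pik d.r d.z D (τ.filter (Sens ζ)) :=
    fun τ D => mul_nonneg (inv_pos.2 (nS_pos τ)).le (pik_mem _ _ _ _).1
  have Z0' : 0 ≤ Z0 (pls K W y) := prod_nonneg fun v _ => by have := nv_pos v; positivity
  have p1 := ps yq (yq ^ 2) _ _ d.z (QQ ζ yq) (fun _ => 1) hy (by nlinarith) (filter_subset _ _)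
    (fun _ => norm_one.le)
    (fun D hD => ⟨z_ne hd (hw D hD), (NN_z hd (hw D hD)).trans (le_trans
      (mul_le_mul_of_nonneg_left (hb D hD).2.1 (mul_nonneg (zero_le_one.trans hd.one_le)
        ((nv_pos _).le.trans (hd.cl_le D)))) hq)⟩)
    fun D hD E hE e => od2 hd (hw D hD) (hw E hE) e
  simp only [mul_sum (s := Finset.erase _ _), ← mul_assoc] at hZ ⊢
  rw [swap]
  simp only [← sum_mul]
  refine cs _ _ _ (by linarith) W0 Z0' (fun D hD => ⟨sum_nonneg fun τ _ => f0 τ D, ?_⟩) ?_ ?_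
  · obtain ⟨v, hv⟩ := nonempty_iff_ne_empty.2 (hb D hD).1
    refine (sum_le_sum fun τ _ => mul_le_of_le_one_right (inv_pos.2 (nS_pos τ)).le
      (pik_mem _ _ _ _).2).trans ((sum_mem_le (v := v) fun τ hτ => ?_).trans
      (mul_le_mul_of_nonneg_right (inv_anti₀ W0 ((hb D hD).2.2 v hv).le) Z0'))
    obtain ⟨a1, -, a3, -⟩ := hm τ (mem_filter.1 hτ).1 D (mem_filter.1 hτ).2
    exact ⟨a1, a3 hv⟩
  · rw [← swap]
    exact le_trans (sum_le_sum_of_subset_of_nonneg (filter_subset _ _)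
      fun τ _ _ => sum_nonneg fun D _ => f0 τ D) hZ
  · refine le_trans (le_of_eq (sum_congr rfl fun D _ => ?_)) (p1.trans ?_)
    · simp only [one_mul, ← lr_coe, ← Complex.ofReal_div, ← Complex.ofReal_sum, Complex.norm_real,
        Real.norm_eq_abs, sq_abs]
    · rw [Real.log_pow, mul_div_cancel_right₀ _ (Real.log_pos q1).ne']
      have := Real.log_le_sub_one_of_pos two_pos
      have := Real.log_nonneg one_le_two
      push_cast
      gcongr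
      linarith

end Pool.Agent.P.MP_b8021b_nt.BP
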