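import Pool.Agent.P.MP_b8021b_nt.BP.StC

/-! A positive proportion of the mass has a trivial kernel. -/

namespace Pool.Agent.P.MP_b8021b_nt.BP

open NumberField IsDedekindDomain Finset MeasureTheory
open Pool.Agent.P.MP_b8021b_nt.VE Pool.Agent.P.MP_b8021b_nt.VC Pool.Agent.P.MP_b8021b_nt.BS.CF
open Pool.Agent.P.MP_b8021b_nt.BS
open scoped Classical ComplexConjugate Real
variable {k : Type} [Field k] [NumberField k] [Algebra k ℂ] {K : Type} [Field K] [NumberField K]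
  [Algebra k K]

namespace PTAU

theorem pik_nonneg (r : Finset (Pl K) → Prop) (z : Finset (Pl K) → 𝓞 K) (D Γ : Finset (Pl K)) :
    0 ≤ pik r z D Γ := by
  unfold pik
  split_ifs
  · exact mul_nonneg (by positivity) (prod_nonneg fun v _ =>
      div_nonneg (by linarith [(abs_le.1 (abs_lr (z D) v)).1]) zero_le_two)
  · exact le_rfl

omit [NumberField k] in
theorem mean (hRED1 : Y_RED1) {d : RD K} (hd : d.Ok k) (p : Pl K → Prop) {P : Finset (Pl K)}
    (hP : ∀ v ∈ P, d.W < nv v) :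
    ∑ τ ∈ P.powerset, (nS τ)⁻¹ * ∑ D ∈ (τ.filter p).powerset.erase ∅,
      pik d.r d.z D (τ.filter p) = Z0 P * (GG (P.filter p) *
        ∑ D ∈ (P.filter p).powerset.erase ∅, (if d.r D then
          gS D * ∏ v ∈ P.filter p, (1 + lr (d.z D) v * gg v) else 0)) := by
  have e : ∀ τ ∈ P.powerset, (nS τ)⁻¹ * ∑ D ∈ (τ.filter p).powerset.erase ∅,
      pik d.r d.z D (τ.filter p) = ∑ D ∈ (P.filter p).powerset.erase ∅,
        (nS τ)⁻¹ * if D ⊆ τ then pik d.r d.z D (τ.filter p) else 0 := fun τ hτ => by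
    rw [← mul_sum, ← sum_filter]
    congr 2
    ext D
    simp only [mem_erase, mem_filter, mem_powerset, and_assoc]
    exact and_congr_right fun _ => ⟨fun h => ⟨h.trans (filter_subset_filter _ (mem_powerset.1 hτ)),
      h.trans (filter_subset _ _)⟩, fun h v hv => mem_filter.2 ⟨h.2 hv, (mem_filter.1 (h.1 hv)).2⟩⟩
  rw [sum_congr rfl e, sum_comm, mul_sum, mul_sum]
  refine sum_congr rfl fun D hD => ?_
  have hD' := mem_powerset.1 (mem_of_mem_erase hD)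
  by_cases h : d.r D
  · have h1 := hRED1 (Pl K) P D p nv (lr (d.z D)) nv_pos hD' fun v hv => by
      have a := (hd.gen D fun w hw => hP w (mem_filter.1 (hD' hw)).1).1
      have b : d.β D ∈ v.asIdeal := (Ideal.span_singleton_le_iff_mem _).1
        (a.ge.trans (Ideal.mul_le_left.trans (eI_le_iff.2 hv)))
      rw [lr, leg_eq_zero.2 (show d.z D ∈ v.asIdeal from Ideal.mul_mem_left _ _ b), Complex.zero_re]
    simp only [pik, if_pos h, nS_eq]
    refine h1.trans ?_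
    simp only [Z0, GG, gS, gg, mul_assoc]
  · simp [pik, h]

end PTAU

open PTAU

theorem y_tAU (c : Cx k K) (hRED1 : Y_RED1) (hRED2 : Y_RED2 k K) (hRED3 : Y_RED3 k K)
    (hMARK : Y_MARK K) (hBLK : Y_BLK K) : Y_TAU k K := by
  intro ζ hζ
  obtain ⟨N₀, n0, h2⟩ := hRED2 ζ hζ
  refine ⟨N₀, n0, fun d hd hN => ?_⟩
  obtain ⟨W₂, h2⟩ := h2 d hd hN
  obtain ⟨C, y₀, h3⟩ := hRED3 ζ d hd
  obtain ⟨u, W₃, u1, h4⟩ := hMARK
  obtain ⟨_, _, y₄, -, -, h5⟩ := hBLK ζ hζ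
  have z0 := c.cz_pos
  have A1 : 1 ≤ (u + 1) / cz k K := (one_le_div z0).2 (by linarith [c.cz_le])
  refine ⟨u, (u + 1) / cz k K, max (max W₂ W₃) (max (max d.W 1) ((20 * C) ^ 2)), u1, A1,
    fun W hW => ?_⟩
  simp only [max_le_iff] at hW
  obtain ⟨⟨w2, w3⟩, ⟨w0, w1⟩, wC⟩ := hW
  obtain ⟨y₂, h2⟩ := h2 W w2
  refine ⟨max (max y₂ 2) (max (max y₀ y₄) (d.C * d.W)), fun y yq hy hq => ?_⟩
  simp only [max_le_iff] at hy
  obtain ⟨⟨a2, a1⟩, ⟨a0, a4⟩, aC⟩ := hy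
  have y0 : 0 < y := by linarith
  have b1 : y ≤ yq := (Real.self_le_rpow_of_one_le (by linarith) A1).trans hq
  have Q5 := (h5 yq (a4.trans b1)).2
  refine ⟨Q5, ?_⟩
  have Z : 0 ≤ Z0 (pls K W y) := prod_nonneg fun v _ => by have := nv_pos v; positivity
  have X := (mean hRED1 hd (Sens ζ) fun v hv => w0.trans_lt (mem_pls.1 hv).1).trans_le
    (mul_le_mul_of_nonneg_left (h2 y a2) Z)
  have R := h3 W y u yq w0 w1 (a0.trans b1) (by
    refine le_trans ?_ (Real.rpow_le_rpow (by positivity) hq z0.le)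
    rw [← Real.rpow_mul y0.le, div_mul_cancel₀ _ z0.ne', Real.rpow_add y0, Real.rpow_one, mul_comm]
    exact mul_le_mul_of_nonneg_left aC (by positivity)) (by linarith)
  have M := h4 W y w3 a1
  have X' := (sum_le_sum_of_subset_of_nonneg (s := TT K W y u) (filter_subset _ _) fun τ _ _ =>
    mul_nonneg (inv_nonneg.2 (nS_pos τ).le) (sum_nonneg fun D _ => pik_nonneg _ _ _ _)).trans X
  have R' : C / √W * Z0 (pls K W y) ≤ 1 / 20 * Z0 (pls K W y) := by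
    refine mul_le_mul_of_nonneg_right ((div_le_iff₀ (Real.sqrt_pos.2 (by linarith))).2 ?_) Z
    linarith [Real.le_sqrt_of_sq_le wC]
  have e : ∑ τ ∈ TT K W y u, ∑ q ∈ QQ ζ yq,
      (nS τ * nv q)⁻¹ * ((1 - Yv d.r d.z (τ.filter (Sens ζ)) q) / 2) =
      (∑ τ ∈ TT K W y u, (nS τ)⁻¹) * (∑ q ∈ QQ ζ yq, (nv q)⁻¹) / 2 -
      (∑ τ ∈ TT K W y u, (nS τ)⁻¹ * ∑ D ∈ (τ.filter (Sens ζ)).powerset.erase ∅,
        pik d.r d.z D (τ.filter (Sens ζ))) * (∑ q ∈ QQ ζ yq, (nv q)⁻¹) / 4 -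
      (∑ τ ∈ TT K W y u, (nS τ)⁻¹ * ∑ D ∈ (τ.filter (Sens ζ)).powerset.erase ∅,
        pik d.r d.z D (τ.filter (Sens ζ)) * ∑ q ∈ QQ ζ yq, lr (d.z D) q / nv q) / 4 := by
    rw [sum_mul, sum_mul, sum_div, sum_div, sum_div, ← sum_sub_distrib, ← sum_sub_distrib]
    refine sum_congr rfl fun τ _ => ?_
    rw [sum_congr rfl fun D _ => mul_sum _ _ _, sum_comm, mul_sum (QQ ζ yq), mul_sum (QQ ζ yq),
      mul_sum (QQ ζ yq), sum_div, sum_div, sum_div, ← sum_sub_distrib, ← sum_sub_distrib]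
    refine sum_congr rfl fun q _ => ?_
    have : Yv d.r d.z (τ.filter (Sens ζ)) q * (nv q)⁻¹ =
        (∑ D ∈ (τ.filter (Sens ζ)).powerset.erase ∅, pik d.r d.z D (τ.filter (Sens ζ))) *
          (nv q)⁻¹ / 2 + (∑ D ∈ (τ.filter (Sens ζ)).powerset.erase ∅,
            pik d.r d.z D (τ.filter (Sens ζ)) * (lr (d.z D) q / nv q)) / 2 := by
      rw [Yv, sum_mul, sum_mul, sum_div, sum_div, ← sum_add_distrib]
      exact sum_congr rfl fun D _ => by ring
    rw [mul_inv]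
    linear_combination (-(nS τ)⁻¹ / 2) * this
  rw [e]
  have Q0 : 0 ≤ ∑ q ∈ QQ ζ yq, (nv q)⁻¹ := by linarith
  have f1 := mul_le_mul_of_nonneg_right M Q0
  have f2 := mul_le_mul_of_nonneg_right X' Q0
  have f3 := mul_le_mul_of_nonneg_left Q5 Z
  linarith

end Pool.Agent.P.MP_b8021b_nt.BP
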