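import Pool.Agent.P.MP_b8021b_nt.BP.StC

/-! The descent for one twist, as a function on the sign vectors. -/

namespace Pool.Agent.P.MP_b8021b_nt.BP

open NumberField IsDedekindDomain Finset MeasureTheory
open Pool.Agent.P.MP_b8021b_nt.VE Pool.Agent.P.MP_b8021b_nt.VC Pool.Agent.P.MP_b8021b_nt.BS.CF
open Pool.Agent.P.MP_b8021b_nt.BS
open scoped Classical ComplexConjugate Real
variable {k : Type} [Field k] [NumberField k] [Algebra k ℂ] {K : Type} [Field K] [NumberField K] [Algebra k K]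

namespace PSELM

theorem dv_self (v : Pl K) : Dv (Ideal.absNorm v.asIdeal) v := Ideal.absNorm_mem _

theorem jac_sign {Γ D : Finset (Pl K)} {u : 𝓞 K} (hu : ∀ v ∈ Γ, u ∉ v.asIdeal) (hD : D ⊆ Γ) :
    jac u (eI D) = (-1) ^ (D ∩ Γ.filter fun v => leg u v = -1).card := by
  rw [jac_eI, ← prod_const, ← prod_ite_mem]
  refine prod_congr rfl fun v hv => ?_
  rcases leg_of_not_mem (hu v (hD hv)) with e | e
  · rw [if_neg fun h => by
      have := (mem_filter.1 h).2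
      rw [e] at this
      norm_num at this, e]
  · rw [if_pos (mem_filter.2 ⟨hD hv, e⟩), e]

theorem wF_eq {Γ : Finset (Pl K)} {u : 𝓞 K} (hu : ∀ v ∈ Γ, u ∉ v.asIdeal)
    (F : Finset (Pl K) → ℝ) : wF F Γ u =
      (∑ D ∈ Γ.powerset, F D * (-1) ^ (D ∩ Γ.filter fun v => leg u v = -1).card : ℝ) := by
  rw [wF]
  push_cast
  exact sum_congr rfl fun D hD => by rw [jac_sign hu (mem_powerset.1 hD)]

theorem le_Yv (r : Finset (Pl K) → Prop) (z : Finset (Pl K) → 𝓞 K) {Γ : Finset (Pl K)} {q : Pl K}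
    (hq : q ∉ Γ) : (∑ D ∈ Γ.powerset.erase ∅,
      if r D ∧ ∀ v ∈ insert q Γ, v ∉ D → leg (z D) v = 1 then ((2 : ℝ) ^ D.card)⁻¹ else 0) ≤
      Yv r z Γ q := by
  refine sum_le_sum fun D hD => ?_
  have hD' := mem_powerset.1 (mem_of_mem_erase hD)
  have h0 : ∀ v, 0 ≤ (1 + lr (z D) v) / 2 := fun v => by linarith [(abs_le.1 (abs_lr (z D) v)).1]
  split_ifs with h
  · have h1 : ∀ v ∈ insert q Γ, v ∉ D → (1 + lr (z D) v) / 2 = 1 := fun v hv hv' => by
      rw [lr, h.2 v hv hv']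
      norm_num
    rw [pik, if_pos h.1, h1 q (mem_insert_self _ _) fun e => hq (hD' e), mul_one,
      prod_eq_one fun v hv => h1 v (mem_insert_of_mem (mem_sdiff.1 hv).1) (mem_sdiff.1 hv).2,
      mul_one]
  · refine mul_nonneg ?_ (h0 q)
    rw [pik]
    split_ifs
    · exact mul_nonneg (by positivity) (prod_nonneg fun v _ => h0 v)
    · exact le_rfl

end PSELM

open PSELM in
theorem y_sELM (c : Cx k K) (hFOUR : Y_FOUR) (hGRP : Y_GRP K) (hKILL : Y_KILL K)
    (hFLIP : Y_FLIP K) (hUFIN : Y_UFIN K) (hRDAT : Y_RDAT k K) : Y_SELM k K := by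
  intro ζ hU
  obtain ⟨𝓛, hL⟩ := hGRP ζ
  obtain ⟨V, hK⟩ := hKILL _ _ hU hL
  refine ⟨V, hK.1, fun t₀ h8 hV N₀ hN => ?_⟩
  have t0 : t₀ ≠ 0 := ne_zero_of_dvd (n := 8) (by norm_num) (by exact_mod_cast h8)
  have k0 : (t₀ : K) ≠ 0 := by exact_mod_cast t0
  have hV' : ∀ v, Sens (ζ : K) v → (Odd (od v (t₀ : K)) ↔ v ∈ V) := fun v hv => by
    rw [← hV v hv.1, and_iff_left hv.2]
  have hVo : ∀ v ∈ V, Odd (od v (t₀ : K)) := fun v hv => (hV' v (hK.1 v hv)).2 hv
  obtain ⟨d, h1, hd, h2, h3⟩ := hRDAT _ _ 𝓛 V N₀ hU hL k0 (fun v hv => ⟨hK.1 v hv, hVo v hv⟩) hN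
  refine ⟨d, h1, hd, fun Γ q τ a1 a2 a3 a4 a5 => ?_⟩
  have k1 : (τ : K) ≠ 0 := by exact_mod_cast a3
  have hq : q ∉ Γ := fun h => a2 q h (dv_self q)
  have big : ∀ v ∈ V, ∀ w ∈ insert q Γ, ¬ Dv (Ideal.absNorm v.asIdeal) w := fun v hv w hw h =>
    (hd.dv w (h.of_dvd (h2 v hv))).not_gt (a1 w hw).2
  have nV : ∀ v ∈ insert q Γ, v ∉ V := fun v hv h => big v h v hv (dv_self v)
  have odd : ∀ v ∈ insert q Γ, Odd (od v ((t₀ : K) * τ)) := fun v hv => by
    rw [od_mul v k0 k1]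
    exact (Int.not_odd_iff_even.1 fun h => nV v hv ((hV' v (a1 v hv).1).1 h)).add_odd
      ((a5 v (a1 v hv).1).2 hv)
  obtain ⟨F, f1, f2, f3, f4⟩ := hFOUR (Pl K) Γ q
    (fun S => ∀ u : 𝓞 K, (∀ v ∈ insert q Γ, u ∉ v.asIdeal) →
      ((insert q Γ).filter fun v => leg u v = -1) = S →
        Unr (ζ : K) 𝓛 V t₀ (insert q Γ) ((t₀ : K) * τ * u))
    (fun D => d.r D ∧ ∀ v ∈ insert q Γ, v ∉ D → leg (d.z D) v = 1)
    (fun D => D.filter fun v => ¬ Lin (ζ : K) v ((t₀ : K) * τ) (d.z D)) hq (by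
      intro S hS g1 g2
      push Not at g1 g2
      obtain ⟨u, u1, u2, u3⟩ := g1
      obtain ⟨u', w1, w2, w3⟩ := g2
      have e1 : ∀ v ∈ insert q Γ, leg u v = -1 ↔ v ∈ S := fun v hv => by
        rw [← u2, mem_filter, and_iff_right hv]
      have e2 : ∀ v ∈ insert q Γ, leg u' v = -1 ↔ v ∈ insert q S := fun v hv => by
        rw [← w2, mem_filter, and_iff_right hv]
      obtain ⟨D, d1, d2, d3, d4, d5⟩ := hFLIP _ _ _ 𝓛 V Γ q d.r d.z u u' hU hL hK k0
        (mul_ne_zero k0 k1) hVo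
        (fun v hv => ⟨(a1 v hv).1, nV v hv, odd v hv, u1 v hv, w1 v hv⟩)
        (fun v hv => (mem_union.1 hv).elim (fun h => big v h q (mem_insert_self _ _)) (a2 v))
        (fun D hD hc => by
          obtain ⟨b1, b2⟩ := h3 D fun v hv => (a1 v (hD hv)).2
          exact ⟨(b1 hc).1, (b1 hc).2, fun v hv hv' h => hv' ((b2 v (a1 v hv).2).1 h)⟩)
        (fun v hv => by
          have hv' := mem_insert_of_mem (b := q) hv
          have e : leg u v = -1 ↔ leg u' v = -1 := by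
            rw [e1 v hv', e2 v hv', mem_insert, or_iff_right fun h : v = q => hq (h ▸ hv)]
          by_cases h : leg u v = -1
          · rw [h, e.1 h]
          · rw [(leg_of_not_mem (u1 v hv')).resolve_right h,
              (leg_of_not_mem (w1 v hv')).resolve_right (mt e.2 h)])
        (fun h => hq (hS ((e1 q (mem_insert_self _ _)).1
          (h.trans ((e2 q (mem_insert_self _ _)).2 (mem_insert_self _ _)))))) u3 w3
      refine ⟨D, d1, d2, ⟨d3, d4⟩, Finset.ext fun v => ?_⟩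
      rw [mem_inter, mem_filter, and_comm]
      exact and_congr_right fun hv => (e1 v (mem_insert_of_mem (d1 hv))).symm.trans (d5 v hv))
  refine ⟨F, f1, f2, le_trans ?_ f3, fun u hu => ?_⟩
  · have := le_Yv d.r d.z hq
    refine div_le_div_of_nonneg_right (sub_le_sub_left (le_trans (le_of_eq ?_) this) _) zero_le_two
    exact sum_congr rfl fun D _ => by congr
  rw [wF_eq hu, f4 _ (filter_subset _ _)]
  split_ifs with hG
  · refine ⟨Or.inr Complex.ofReal_one, fun _ b1 b2 => ?_⟩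
    have k2 : (u : K) ≠ 0 := by
      have : u ≠ 0 := fun h => hu q (mem_insert_self _ _) (h ▸ zero_mem _)
      exact_mod_cast this
    have hu' := hG u hu rfl
    rw [mul_assoc] at hu' ⊢
    refine hUFIN _ _ _ 𝓛 V _ hU hL hK k0 (mul_ne_zero k1 k2) (fun v hv => TopL.lp_two h8 hv) hV'
      (fun v hv => (a4 v hv).mul (b1 v hv)) (fun v hv => ?_) (fun v hv => (a1 v hv).1) hu'
    rw [od_mul v k1 k2, Int.odd_add, iff_true_right (b2 v hv), a5 v hv]
  · exact ⟨Or.inl Complex.ofReal_zero, fun h => absurd h (by simp)⟩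

end Pool.Agent.P.MP_b8021b_nt.BP
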