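import Pool.Agent.P.MP_b8021b_nt.BP.StC

/-! The terms of the Redei moment with a small second index. -/

namespace Pool.Agent.P.MP_b8021b_nt.BP

open NumberField IsDedekindDomain Finset MeasureTheory
open Pool.Agent.P.MP_b8021b_nt.VE Pool.Agent.P.MP_b8021b_nt.VC Pool.Agent.P.MP_b8021b_nt.BS.CF
open Pool.Agent.P.MP_b8021b_nt.BS
open scoped Classical ComplexConjugate Real
variable {k : Type} [Field k] [NumberField k] [Algebra k ℂ] {K : Type} [Field K] [NumberField K] [Algebra k K]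

namespace PRT2

theorem gg_pos (v : Pl K) : 0 < gg v := by
  have := nv_pos v
  unfold gg
  positivity

theorem gS_nonneg (D : Finset (Pl K)) : 0 ≤ gS D := prod_nonneg fun v _ => (gg_pos v).le

theorem GG_nonneg (S : Finset (Pl K)) : 0 ≤ GG S :=
  prod_nonneg fun v _ => by have := gg_pos v; positivity

omit [NumberField K] in
theorem norm_le {n : ℕ} {χ : Ideal (𝓞 K) →* ℂ} (h : IsChar n χ) (I : Ideal (𝓞 K)) : ‖χ I‖ ≤ 1 := by
  by_cases hI : Cop n I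
  · exact (h.norm_cop I hI).le
  · rw [h.zero I hI, norm_zero]; exact zero_le_one

omit [NumberField K] in
theorem rc_triv {n : ℕ} : RC n (triv K n) where
  norm_cop I h := by
    have : triv K n I = 1 := if_pos h
    rw [this, norm_one]
  zero I h := if_neg h
  prin α h := by
    refine if_pos ?_
    obtain ⟨c, hc⟩ := h
    unfold Cop
    rw [Ideal.isCoprime_span_singleton_iff]
    exact ⟨1, -c, by linear_combination hc⟩

/-- the indicator of a class as a combination of characters -/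
theorem expand (c : Cx k K) (d : RD K) (hd : d.Ok k) :
    ∃ (𝒳 : Finset (Ideal (𝓞 K) →* ℂ)) (w : Pl K → (Ideal (𝓞 K) →* ℂ) → ℂ),
      (∀ χ ∈ 𝒳, ∀ I, ‖χ I‖ ≤ 1) ∧ (∀ ρ, ∑ χ ∈ 𝒳, ‖w ρ χ‖ ≤ 1) ∧
      ∀ D, (∀ v ∈ D, d.W < nv v) → ∀ ρ,
        (if d.cl D = ρ then 1 else 0) = ∑ χ ∈ 𝒳, w ρ χ * χ (eI D) := by
  obtain ⟨𝒳, h1, h2⟩ := c.lib.i.rep K c.om d.N hd.two
  have hb : ∀ χ ∈ 𝒳, ∀ I, ‖χ I‖ ≤ 1 := fun χ h => norm_le ((h1 χ).1 h).toIsChar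
  have hc : 0 < 𝒳.card := card_pos.2 ⟨_, (h1 _).2 rc_triv⟩
  have hc' : (0 : ℝ) < 𝒳.card := Nat.cast_pos.2 hc
  have hc'' : (𝒳.card : ℂ) ≠ 0 := Nat.cast_ne_zero.2 hc.ne'
  have hN : d.N ≠ 0 := by have := hd.two; omega
  have hcop : ∀ D : Finset (Pl K), (∀ v ∈ D, d.W < nv v) → Cop d.N (eI D) := fun D hD =>
    (cop_eI hN).2 fun v hv h => (hD v hv).not_ge (hd.dv v h)
  refine ⟨𝒳, fun ρ χ => if h : ∃ D', (∀ v ∈ D', d.W < nv v) ∧ d.cl D' = ρ then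
    conj (χ (eI h.choose)) / 𝒳.card else 0, hb, fun ρ => ?_, fun D hD ρ => ?_⟩
  · refine (sum_le_card_nsmul _ _ (1 / (𝒳.card : ℝ)) fun χ hχ => ?_).trans ?_
    · beta_reduce
      split_ifs with h
      · rw [norm_div, Complex.norm_conj, Complex.norm_natCast]
        exact div_le_div_of_nonneg_right (hb χ hχ _) hc'.le
      · rw [norm_zero]; positivity
    · rw [nsmul_eq_mul, mul_one_div_cancel hc'.ne']
  · by_cases h : ∃ D', (∀ v ∈ D', d.W < nv v) ∧ d.cl D' = ρ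
    · simp only [dif_pos h]
      have e := h2 _ _ (hcop D hD) (hcop _ h.choose_spec.1)
      have e' := hd.ray D _ hD h.choose_spec.1
      rw [h.choose_spec.2] at e'
      have : ∑ χ ∈ 𝒳, conj (χ (eI h.choose)) / 𝒳.card * χ (eI D) =
          (∑ χ ∈ 𝒳, χ (eI D) * conj (χ (eI h.choose))) / 𝒳.card := by
        rw [sum_div]
        exact sum_congr rfl fun χ _ => by ring
      rw [this, e]
      by_cases hr : d.cl D = ρ
      · rw [if_pos hr, if_pos (e'.1 hr), div_self hc'']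
      · rw [if_neg hr, if_neg (fun h => hr (e'.2 h)), zero_div]
    · simp only [dif_neg h, zero_mul, sum_const_zero]
      exact if_neg fun e => h ⟨D, hD, e⟩

theorem euler (χ : Ideal (𝓞 K) →* ℂ) (z : 𝓞 K) (S : Finset (Pl K)) :
    ∑ D ∈ S.powerset, χ (eI D) * jac z (eI D) * (gS D : ℝ) =
      ∏ v ∈ S, (1 + χ v.asIdeal * leg z v * (gg v : ℝ)) := by
  rw [prod_one_add]
  refine sum_congr rfl fun D _ => ?_
  rw [prod_mul_distrib, prod_mul_distrib, jac_eI, gS, Complex.ofReal_prod, eI, map_prod]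

theorem od_eq {W : ℝ} {E : Finset (Pl K)} {z : 𝓞 K} (hz : z ≠ 0)
    (h : ∃ w : Pl K, nv w ≤ W ∧ sp z = eI E * w.asIdeal) {v : Pl K} (hv : W < nv v) :
    od v (z : K) = if v ∈ E then 1 else 0 := by
  obtain ⟨w, hw, e⟩ := h
  have hne : v ≠ w := fun e => by rw [e] at hv; exact hv.not_ge hw
  have e' : Ideal.span {z} = eI E * w.asIdeal := e
  rw [od_coe v hz, e', cnt_mul v (eI_ne_bot E) w.ne_bot, cnt_ne v hne, cnt_eI]
  split_ifs <;> simp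

theorem od2 {W : ℝ} {E E' : Finset (Pl K)} {z z' : 𝓞 K} (hz : z ≠ 0) (hz' : z' ≠ 0)
    (h : ∃ w : Pl K, nv w ≤ W ∧ sp z = eI E * w.asIdeal)
    (h' : ∃ w : Pl K, nv w ≤ W ∧ sp z' = eI E' * w.asIdeal)
    (hE : ∀ v ∈ E, W < nv v ∧ ¬ Dv 2 v) (hE' : ∀ v ∈ E', W < nv v ∧ ¬ Dv 2 v) (hne : E ≠ E') :
    Od2 z z' := by
  have a : (z : K) ≠ 0 := RingOfIntegers.coe_ne_zero_iff.2 hz
  have a' : (z' : K) ≠ 0 := RingOfIntegers.coe_ne_zero_iff.2 hz'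
  have m : ((z * z' : 𝓞 K) : K) = (z : K) * (z' : K) := map_mul (algebraMap (𝓞 K) K) z z'
  obtain ⟨v, hv⟩ : ∃ v, ¬ (v ∈ E ↔ v ∈ E') := not_forall.1 fun h => hne (Finset.ext h)
  have hW : W < nv v ∧ ¬ Dv 2 v := by
    by_cases h1 : v ∈ E
    · exact hE v h1
    · exact hE' v (by tauto)
  refine ⟨v, hW.2, ?_⟩
  rw [m, od_mul v a a', od_eq hz h hW.1, od_eq hz' h' hW.1]
  by_cases h1 : v ∈ E <;> by_cases h2 : v ∈ E' <;> simp_all

end PRT2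

open PRT2 in
theorem y_rT2 (c : Cx k K) (hTE : Y_TE K) : Y_RT2 k K := by
  intro ζ n d C W₀ ε b Φ hζ hd ⟨_, hW, hΦ, hK⟩ hε
  obtain ⟨𝒳, w, hb, hw, hx⟩ := expand c d hd
  set R := pls K 0 d.W with hR
  have hR0 : (0 : ℝ) < R.card + 1 := by positivity
  obtain ⟨W₁, h1⟩ := hTE ζ C (ε / (R.card + 1)) hζ (div_pos hε hR0)
  refine ⟨max W₀ W₁, fun W hW' => ?_⟩
  obtain ⟨y₁, h2⟩ := h1 W ((le_max_right _ _).trans hW')
  refine ⟨y₁, fun y hy => ?_⟩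
  set S := (pls K W y).filter (Sens ζ) with hS
  set ℰ := (S.powerset.erase ∅).filter (fun E => nS E ≤ D0 y) with hℰ
  have hSm : ∀ v ∈ S, W₀ < nv v ∧ ¬ Dv 2 v := fun v hv =>
    ⟨((le_max_left _ _).trans hW').trans_lt (mem_pls.1 (mem_filter.1 hv).1).1,
      (mem_filter.1 hv).2.1⟩
  have hEm : ∀ E ∈ ℰ, E ≠ ∅ ∧ E ⊆ S ∧ nS E ≤ D0 y := fun E hE =>
    ⟨(mem_erase.1 (mem_filter.1 hE).1).1, mem_powerset.1 (mem_erase.1 (mem_filter.1 hE).1).2,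
      (mem_filter.1 hE).2⟩
  have hKE := fun E (hE : E ∈ ℰ) => hK E fun v hv => (hSm v ((hEm E hE).2.1 hv)).1
  set P : (Ideal (𝓞 K) →* ℂ) → Finset (Pl K) → ℂ := fun χ E =>
    ∏ v ∈ S, (1 + χ v.asIdeal * leg (b E) v * (gg v : ℝ)) with hP
  have h3 : ∀ χ ∈ 𝒳, GG S * ∑ E ∈ ℰ, gS E * ‖P χ E‖ ≤ ε / (R.card + 1) := fun χ hχ =>
    (h2 y hy ℰ b (fun v => χ v.asIdeal) (fun E hE => ⟨(hEm E hE).1,
      (hEm E hE).2.1.trans (filter_subset _ _), (hEm E hE).2.2, (hKE E hE).2.1,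
      (hKE E hE).2.2.2.1⟩) (fun E hE E' hE' hne => od2 (hKE E hE).2.1 (hKE E' hE').2.1
      (hKE E hE).2.2.2.2.1 (hKE E' hE').2.2.2.2.1 (fun v hv => hSm v ((hEm E hE).2.1 hv))
      (fun v hv => hSm v ((hEm E' hE').2.1 hv)) hne) fun v => hb χ hχ _).2
  have h4 : ∀ E ∈ ℰ, ‖∑ D ∈ S.powerset, d.κ D E * (gS D : ℝ)‖ ≤
      ∑ ρ ∈ R, ∑ χ ∈ 𝒳, ‖w ρ χ‖ * ‖P χ E‖ := by
    intro E hE
    have e : ∑ D ∈ S.powerset, d.κ D E * (gS D : ℝ) =
        ∑ ρ ∈ R, ∑ χ ∈ 𝒳, Φ ρ E * (w ρ χ * P χ E) := by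
      simp only [hP, ← euler, mul_sum]
      rw [sum_congr rfl fun ρ _ => sum_comm, sum_comm]
      refine sum_congr rfl fun D hD => ?_
      have hD' : ∀ v ∈ D, W₀ < nv v := fun v hv => (hSm v (mem_powerset.1 hD hv)).1
      have e1 : Φ (d.cl D) E = ∑ ρ ∈ R, (if d.cl D = ρ then 1 else 0) * Φ ρ E := by
        simp only [ite_mul, one_mul, zero_mul]
        rw [sum_ite_eq, if_pos (mem_pls.2 ⟨nv_pos _, hd.cl_le D⟩)]
      rw [(hKE E hE).2.2.2.2.2 D hD', e1, sum_mul, sum_mul]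
      refine sum_congr rfl fun ρ _ => ?_
      rw [hx D (fun v hv => hW.trans_lt (hD' v hv)) ρ, sum_mul, sum_mul, sum_mul]
      exact sum_congr rfl fun χ _ => by ring
    rw [e]
    refine (norm_sum_le _ _).trans (sum_le_sum fun ρ _ => (norm_sum_le _ _).trans
      (sum_le_sum fun χ _ => ?_))
    rw [norm_mul, norm_mul]
    exact mul_le_of_le_one_left (by positivity) (hΦ ρ E)
  calc GG S * ∑ E ∈ ℰ, gS E * ‖∑ D ∈ S.powerset, d.κ D E * (gS D : ℝ)‖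
      ≤ GG S * ∑ E ∈ ℰ, gS E * ∑ ρ ∈ R, ∑ χ ∈ 𝒳, ‖w ρ χ‖ * ‖P χ E‖ :=
        mul_le_mul_of_nonneg_left (sum_le_sum fun E hE =>
          mul_le_mul_of_nonneg_left (h4 E hE) (gS_nonneg E)) (GG_nonneg S)
    _ = ∑ ρ ∈ R, ∑ χ ∈ 𝒳, ‖w ρ χ‖ * (GG S * ∑ E ∈ ℰ, gS E * ‖P χ E‖) := by
        simp only [mul_sum]
        rw [sum_comm]
        refine sum_congr rfl fun ρ _ => ?_
        rw [sum_comm]
        exact sum_congr rfl fun χ _ => sum_congr rfl fun E _ => by ring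
    _ ≤ ∑ _ρ ∈ R, ε / (R.card + 1) := by
        refine sum_le_sum fun ρ _ => (sum_le_sum fun χ hχ =>
          mul_le_mul_of_nonneg_left (h3 χ hχ) (norm_nonneg _)).trans ?_
        rw [← sum_mul]
        exact mul_le_of_le_one_left (div_pos hε hR0).le (hw ρ)
    _ ≤ ε := by
        rw [sum_const, nsmul_eq_mul, ← mul_div_assoc, div_le_iff₀ hR0]
        nlinarith

end Pool.Agent.P.MP_b8021b_nt.BP
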