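import Pool.Agent.P.MP_b8021b_nt.BP.StC

/-! The terms of the Redei moment with one small index. -/

namespace Pool.Agent.P.MP_b8021b_nt.BP

open NumberField IsDedekindDomain Finset MeasureTheory
open Pool.Agent.P.MP_b8021b_nt.VE Pool.Agent.P.MP_b8021b_nt.VC Pool.Agent.P.MP_b8021b_nt.BS.CF
open Pool.Agent.P.MP_b8021b_nt.BS
open scoped Classical ComplexConjugate Real

variable {k : Type} [Field k] [NumberField k] [Algebra k ℂ] {K : Type} [Field K] [NumberField K]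
  [Algebra k K]

namespace PTE

theorem norm_one_add (w : ℂ) : ‖1 + w‖ ≤ Real.exp (w.re + ‖w‖ ^ 2) := by
  refine (pow_le_pow_iff_left₀ (norm_nonneg _) (Real.exp_pos _).le two_ne_zero).1 ?_
  rw [← Real.exp_nat_mul]
  refine le_trans ?_ (Real.add_one_le_exp _)
  simp only [Complex.sq_norm, Complex.normSq_apply, Complex.add_re, Complex.add_im, Complex.one_re,
    Complex.one_im, Nat.cast_ofNat]
  nlinarith [mul_self_nonneg w.re, mul_self_nonneg w.im]

theorem prodb {α : Type} (S : Finset α) (p : α → Prop) (w : α → ℂ) :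
    ‖∏ v ∈ S, (1 + w v)‖ ≤ Real.exp (∑ v ∈ S.filter p, ‖w v‖ +
      (‖∑ v ∈ S.filter fun v => ¬p v, w v‖ + ∑ v ∈ S.filter fun v => ¬p v, ‖w v‖ ^ 2)) := by
  rw [← prod_filter_mul_prod_filter_not S p, norm_mul, Real.exp_add, norm_prod, norm_prod]
  refine mul_le_mul ?_ ?_ (prod_nonneg fun _ _ => norm_nonneg _) (Real.exp_pos _).le
  · rw [Real.exp_sum]
    refine prod_le_prod (fun _ _ => norm_nonneg _) fun v _ => (norm_add_le _ _).trans ?_
    rw [norm_one, add_comm]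
    exact Real.add_one_le_exp _
  · refine (prod_le_prod (fun _ _ => norm_nonneg _) fun v _ => norm_one_add (w v)).trans ?_
    rw [← Real.exp_sum, sum_add_distrib, ← Complex.re_sum]
    gcongr
    exact Complex.re_le_norm _

theorem gg_pos (v : Pl K) : 0 < gg v := by have := nv_pos v; unfold gg; positivity

theorem gg_le (v : Pl K) : gg v ≤ (nv v)⁻¹ :=
  inv_anti₀ (nv_pos v) (by linarith [nv_pos v])

theorem gS_nonneg (D : Finset (Pl K)) : 0 ≤ gS D := prod_nonneg fun v _ => (gg_pos v).le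

theorem gS_le (D : Finset (Pl K)) : gS D ≤ (nS D)⁻¹ := by
  rw [nS_eq, ← prod_inv_distrib]
  exact prod_le_prod (fun v _ => (gg_pos v).le) fun v _ => gg_le v

theorem GG_nonneg (S : Finset (Pl K)) : 0 ≤ GG S :=
  prod_nonneg fun v _ => by have := gg_pos v; positivity

theorem GG_le (S : Finset (Pl K)) : GG S ≤ Real.exp (-(∑ v ∈ S, (nv v)⁻¹) / 3) := by
  rw [← sum_neg_distrib, sum_div, Real.exp_sum]
  refine prod_le_prod (fun v _ => by have := gg_pos v; positivity) fun v _ => ?_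
  refine le_trans ?_ (Real.add_one_le_exp _)
  have h : 2 ≤ nv v := two_le_NN v
  have e : -(nv v)⁻¹ / 3 + 1 - (1 + gg v)⁻¹ = (nv v - 2) / (3 * nv v * (2 * nv v + 2)) := by
    unfold gg
    field_simp
    ring
  have : 0 ≤ (nv v - 2) / (3 * nv v * (2 * nv v + 2)) := div_nonneg (by linarith) (by positivity)
  linarith

theorem norm_w {a : Pl K → ℂ} (ha : ∀ v, ‖a v‖ ≤ 1) (x : 𝓞 K) (v : Pl K) :
    ‖a v * leg x v * (gg v : ℝ)‖ ≤ gg v := by
  rw [norm_mul, norm_mul, Complex.norm_real, Real.norm_of_nonneg (gg_pos v).le]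
  exact mul_le_of_le_one_left (gg_pos v).le
    (mul_le_one₀ (ha v) (norm_nonneg _) ((sgn_leg x).norm_le v))

theorem GG_mul {a : Pl K → ℂ} (ha : ∀ v, ‖a v‖ ≤ 1) (x : 𝓞 K) (S : Finset (Pl K)) :
    GG S * ‖∏ v ∈ S, (1 + a v * leg x v * (gg v : ℝ))‖ ≤ 1 := by
  rw [GG, norm_prod, ← prod_mul_distrib]
  refine prod_le_one (fun v _ => by have := gg_pos v; positivity) fun v _ => ?_
  have := gg_pos v
  rw [inv_mul_le_iff₀ (by positivity), mul_one]
  exact (norm_add_le _ _).trans (by rw [norm_one]; exact add_le_add_right (norm_w ha x v) _)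

theorem sum_gS {𝒟 : Finset (Finset (Pl K))} {b : ℝ} (h : ∀ D ∈ 𝒟, nS D ≤ b) :
    ∑ D ∈ 𝒟, gS D ≤ ∑ I ∈ ids K b, (NN I)⁻¹ := by
  refine (sum_le_sum fun D _ => gS_le D).trans ?_
  rw [← sum_image (f := fun I => (NN I)⁻¹) eI_inj.injOn]
  refine sum_le_sum_of_subset_of_nonneg (fun I hI => ?_) fun I _ _ => by unfold NN; positivity
  obtain ⟨D, hD, rfl⟩ := mem_image.1 hI
  exact mem_ids.2 ⟨eI_ne_bot D, h D hD⟩

theorem small {A B ε s : ℝ} (hA : 0 ≤ A) (hε : 0 < ε) (h0 : 0 < s) (h1 : 24 * (B + 1) ≤ s)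
    (h2 : 2 * A / ε ≤ s) : A * Real.exp (-s ^ 2 / 24 + B * s) ≤ ε / 2 := by
  have e1 : Real.exp (-s ^ 2 / 24 + B * s) ≤ Real.exp (-s) := Real.exp_le_exp.2 (by nlinarith)
  have e2 := Real.add_one_le_exp s
  rw [div_le_iff₀ hε] at h2
  refine (mul_le_mul_of_nonneg_left e1 hA).trans ?_
  rw [Real.exp_neg, ← div_eq_mul_inv, div_le_iff₀ (Real.exp_pos _)]
  nlinarith

theorem few {ι : Type} (𝒟 : Finset ι) (B : ι → ℝ) {C s : ℝ} (hC : 0 ≤ C) (hs : 2 ≤ s)
    (h : ∑ D ∈ 𝒟, B D ^ 2 ≤ C * (1 + (s ^ 2 - 2 * s)) ^ 2) :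
    ((𝒟.filter fun D => s ^ 2 / 8 < B D).card : ℝ) ≤ 64 * C := by
  have h1 := card_nsmul_le_sum (𝒟.filter fun D => s ^ 2 / 8 < B D) (fun D => B D ^ 2)
    ((s ^ 2 / 8) ^ 2) fun D hD => pow_le_pow_left₀ (by positivity) (mem_filter.1 hD).2.le 2
  have h2 := sum_le_sum_of_subset_of_nonneg (f := fun D => B D ^ 2)
    (filter_subset (fun D => s ^ 2 / 8 < B D) 𝒟) fun _ _ _ => sq_nonneg _
  have h3 : (1 + (s ^ 2 - 2 * s)) ^ 2 ≤ (s ^ 2) ^ 2 :=
    pow_le_pow_left₀ (by nlinarith) (by linarith) 2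
  rw [nsmul_eq_mul] at h1
  refine le_of_mul_le_mul_right (a := (s ^ 2 / 8) ^ 2) ?_ (by positivity)
  calc _ ≤ C * (s ^ 2) ^ 2 := h1.trans (h2.trans (h.trans (mul_le_mul_of_nonneg_left h3 hC)))
    _ = _ := by ring

end PTE

open PTE

theorem y_tE (c : Cx k K) (hCH2 : Y_CH2 K) (hMER : Y_MER K) (hDIV : Y_DIV K) (hSLH : Y_SLH k K) :
    Y_TE K := by
  intro ζ C₀ ε hζ hε
  obtain ⟨C2, c2, p1, -, p3, -⟩ := hCH2
  obtain ⟨-, CD, cd, pd⟩ := hDIV
  obtain ⟨CS, y₀, cs, y2, ps⟩ := hSLH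
  have cz0 := c.cz_pos
  refine ⟨Real.exp 1 + 128 * CS / ε, fun W hW => ?_⟩
  obtain ⟨CM, pm⟩ := (hMER W).2 ζ hζ
  have w1 : Real.exp 1 ≤ W := le_trans (le_add_of_nonneg_right (by positivity)) hW
  have w2 : 128 * CS / ε ≤ W := le_trans (le_add_of_nonneg_left (by positivity)) hW
  have w0 : 0 < W := (Real.exp_pos 1).trans_le w1
  obtain ⟨A, hA⟩ : ∃ A, A = 9 * CD ^ 2 * Real.exp (CM / 3 + 2 * C2) := ⟨_, rfl⟩
  have A0 : 0 ≤ A := by rw [hA]; positivity
  obtain ⟨s₁, t1, t2, t3, t4, t5⟩ : ∃ s₁, 2 ≤ s₁ ∧ y₀ ≤ s₁ ∧ (1 + |C₀|) / cz k K ≤ s₁ ∧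
      24 * (2 + 2 * C2 + 1) ≤ s₁ ∧ 2 * A / ε ≤ s₁ :=
    ⟨max 2 (max y₀ (max ((1 + |C₀|) / cz k K) (max (24 * (2 + 2 * C2 + 1)) (2 * A / ε)))),
      by simp, by simp, by simp, by simp, by simp⟩
  refine ⟨Real.exp (Real.exp (s₁ ^ 2)), fun y hy 𝒟 z a hD hO ha => ?_⟩
  obtain ⟨s, hs, rfl⟩ : ∃ s, s₁ ≤ s ∧ y = Real.exp (Real.exp (s ^ 2)) := by
    have y0 : 0 < y := (Real.exp_pos _).trans_le hy
    have y1 := (Real.le_log_iff_exp_le y0).2 hy
    have y3 : 0 < Real.log y := (Real.exp_pos _).trans_le y1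
    have y4 := (Real.le_log_iff_exp_le y3).2 y1
    refine ⟨√(Real.log (Real.log y)), Real.le_sqrt_of_sq_le y4, ?_⟩
    rw [Real.sq_sqrt ((sq_nonneg _).trans y4), Real.exp_log y3, Real.exp_log y0]
  have s2 : 2 ≤ s := t1.trans hs
  have s0 : 0 < s := by linarith
  have d0 : D0 (Real.exp (Real.exp (s ^ 2))) = Real.exp (Real.exp s) := by
    rw [D0, Real.log_exp, Real.log_exp, Real.sqrt_sq s0.le]
  have es := Real.add_one_le_exp s
  have es2 := Real.add_one_le_exp (2 * s)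
  have es3 := Real.add_one_le_exp (Real.exp (2 * s))
  have zy : Real.exp (Real.exp (2 * s)) ≤ Real.exp (Real.exp (s ^ 2)) := by
    gcongr
    nlinarith
  have pm1 := pm (Real.exp (Real.exp (s ^ 2))) (by linarith)
  rw [Real.log_exp, Real.log_exp] at pm1
  obtain ⟨𝒮, h𝒮⟩ : ∃ 𝒮, 𝒮 = (pls K W (Real.exp (Real.exp (s ^ 2)))).filter (Sens ζ) := ⟨_, rfl⟩
  have m𝒮 : ∀ v ∈ 𝒮, W < nv v ∧ nv v ≤ Real.exp (Real.exp (s ^ 2)) := fun v hv =>
    mem_pls.1 (mem_filter.1 (h𝒮 ▸ hv)).1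
  rw [← h𝒮] at pm1 ⊢
  have g1 : GG 𝒮 ≤ Real.exp (-s ^ 2 / 6 + CM / 3) :=
    (GG_le 𝒮).trans (Real.exp_le_exp.2 (by linarith))
  have g0 := GG_nonneg 𝒮
  have σ0 : 0 ≤ ∑ D ∈ 𝒟, gS D := sum_nonneg fun D _ => gS_nonneg D
  have σ1 : 1 + ∑ D ∈ 𝒟, gS D ≤ 3 * CD * Real.exp s := by
    have h1 := (sum_gS fun D h => (hD D h).2.2.1).trans
      (pd _ (by rw [d0]; exact Real.one_le_exp (Real.exp_pos _).le)).2.1
    rw [d0, Real.log_exp] at h1
    nlinarith
  have key : Real.exp (-s ^ 2 / 6 + CM / 3) * Real.exp (C2 * (1 + 2 * s) + (s ^ 2 / 8 + C2)) *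
      (3 * CD * Real.exp s) ^ 2 ≤ ε / 2 := by
    refine le_trans (le_of_eq ?_) (small (B := 2 + 2 * C2) A0 hε s0 (t4.trans hs) (t5.trans hs))
    rw [hA, mul_pow, ← Real.exp_nat_mul, ← Real.exp_add, mul_left_comm, ← Real.exp_add,
      mul_assoc (9 * CD ^ 2), ← Real.exp_add]
    congr 1
    · ring
    · congr 1
      push_cast
      ring
  have E1 : 1 ≤ Real.exp (C2 * (1 + 2 * s) + (s ^ 2 / 8 + C2)) := Real.one_le_exp (by positivity)
  constructor
  · refine le_trans ?_ (key.trans (by linarith))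
    exact mul_le_mul (g1.trans (le_mul_of_one_le_right (Real.exp_pos _).le E1))
      (pow_le_pow_left₀ (by linarith) σ1 2) (sq_nonneg _) (by positivity)
  have q1 : ∑ v ∈ 𝒮.filter fun v => nv v ≤ Real.exp (Real.exp (2 * s)), (nv v)⁻¹ ≤
      C2 * (1 + 2 * s) := by
    have h1 := p1 (Real.exp 1) (Real.exp (Real.exp (2 * s)))
      (by linarith [Real.add_one_le_exp 1]) (Real.exp_le_exp.2 (by linarith))
    rw [Real.log_exp, Real.log_exp, div_one, Real.log_exp] at h1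
    refine le_trans (sum_le_sum_of_subset_of_nonneg (fun v hv => ?_)
      fun v _ _ => (inv_pos.2 (nv_pos v)).le) h1
    exact mem_pls.2 ⟨w1.trans_lt (m𝒮 v (mem_filter.1 hv).1).1, (mem_filter.1 hv).2⟩
  have q2 : ∀ S : Finset (Pl K), ∑ v ∈ S, (nv v)⁻¹ ^ 2 ≤ C2 := fun S => by
    have h1 := p3 1 S one_pos le_rfl
    rw [div_one, Real.log_one, add_zero, mul_one] at h1
    refine le_trans (le_of_eq (sum_congr rfl fun v _ => ?_)) h1
    rw [Real.rpow_neg (nv_pos v).le, one_add_one_eq_two, Real.rpow_two, inv_pow]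
  have q3 := ps (Real.exp (Real.exp (2 * s))) (Real.exp (Real.exp (s ^ 2))) _ 𝒟 z
    (𝒮.filter fun v => ¬nv v ≤ Real.exp (Real.exp (2 * s))) (fun v => a v * (nv v * gg v : ℝ))
    (by linarith) zy
    (fun v hv => mem_pls.2 ⟨not_le.1 (mem_filter.1 hv).2, (m𝒮 v (mem_filter.1 hv).1).2⟩)
    (fun v => by
      have h1 := nv_pos v
      have h2 := gg_pos v
      rw [norm_mul, Complex.norm_real, Real.norm_of_nonneg (by positivity)]
      exact mul_le_one₀ (ha v) (by positivity)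
        ((mul_le_mul_of_nonneg_left (gg_le v) h1.le).trans_eq (mul_inv_cancel₀ h1.ne')))
    (fun D h => ⟨(hD D h).2.2.2.1, (hD D h).2.2.2.2.trans (by
      have h1 := (hD D h).2.2.1
      have h2 : 1 + |C₀| ≤ Real.exp s * cz k K := (div_le_iff₀ cz0).1 (by linarith)
      rw [d0] at h1
      rw [← Real.exp_mul, two_mul, Real.exp_add]
      calc C₀ * nS D ≤ Real.exp |C₀| * Real.exp (Real.exp s) :=
            mul_le_mul (by linarith [le_abs_self C₀, Real.add_one_le_exp |C₀|]) h1 (nS_pos D).le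
              (Real.exp_pos _).le
        _ ≤ _ := by
          rw [← Real.exp_add, Real.exp_le_exp, mul_assoc]
          nlinarith [abs_nonneg C₀])⟩) hO
  rw [Real.log_exp, Real.log_exp, ← Real.exp_sub, Real.log_exp] at q3
  have q4 := few 𝒟 _ (by linarith) s2 q3
  have e0 : ∀ (D : Finset (Pl K)) (v : Pl K),
      a v * (nv v * gg v : ℝ) * leg (z D) v / (nv v : ℝ) = a v * leg (z D) v * (gg v : ℝ) :=
    fun D v => by
      have : ((nv v : ℝ) : ℂ) ≠ 0 := by exact_mod_cast (nv_pos v).ne'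
      rw [Complex.ofReal_mul, div_eq_iff this]
      ring
  simp only [e0] at q4
  rw [mul_sum]
  refine (sum_le_sum (g := fun D => GG 𝒮 * Real.exp (C2 * (1 + 2 * s) + (s ^ 2 / 8 + C2)) * gS D +
    if s ^ 2 / 8 < ‖∑ v ∈ 𝒮.filter fun v => ¬nv v ≤ Real.exp (Real.exp (2 * s)),
      a v * leg (z D) v * (gg v : ℝ)‖ then W⁻¹ else 0) fun D h => ?_).trans ?_
  · have u0 := gS_nonneg D
    split_ifs with hb
    · obtain ⟨v, hv⟩ := nonempty_iff_ne_empty.2 (hD D h).1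
      have u1 : gS D ≤ W⁻¹ := (gS_le D).trans
        (inv_anti₀ w0 ((mem_pls.1 ((hD D h).2.1 hv)).1.le.trans (nv_le_nS hv)))
      rw [mul_left_comm]
      exact ((mul_le_of_le_one_right u0 (GG_mul ha _ _)).trans u1).trans
        (le_add_of_nonneg_left (by positivity))
    · rw [add_zero, mul_comm (gS D), ← mul_assoc]
      refine mul_le_mul_of_nonneg_right (mul_le_mul_of_nonneg_left
        ((prodb 𝒮 (fun v => nv v ≤ Real.exp (Real.exp (2 * s))) _).trans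
          (Real.exp_le_exp.2 (add_le_add ?_ (add_le_add (not_lt.1 hb) ?_)))) g0) u0
      · exact (sum_le_sum fun v _ => (norm_w ha _ v).trans (gg_le v)).trans q1
      · exact (sum_le_sum fun v _ => pow_le_pow_left₀ (norm_nonneg _)
          ((norm_w ha _ v).trans (gg_le v)) 2).trans (q2 _)
  · rw [sum_add_distrib, ← mul_sum, ← sum_filter, sum_const, nsmul_eq_mul]
    have r1 : GG 𝒮 * Real.exp (C2 * (1 + 2 * s) + (s ^ 2 / 8 + C2)) * ∑ D ∈ 𝒟, gS D ≤ ε / 2 := by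
      refine le_trans (mul_le_mul (mul_le_mul_of_nonneg_right g1 (Real.exp_pos _).le) ?_ σ0
        (by positivity)) key
      nlinarith
    have r2 : 64 * CS * W⁻¹ ≤ ε / 2 := by
      rw [div_le_iff₀ hε] at w2
      rw [← div_eq_mul_inv, div_le_iff₀ w0]
      linarith
    linarith [mul_le_mul_of_nonneg_right q4 (inv_pos.2 w0).le]

end Pool.Agent.P.MP_b8021b_nt.BP
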