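import Pool.Agent.P.MP_b8021b_nt.BP.StC

/-! The construction of the family of twists. -/

namespace Pool.Agent.P.MP_b8021b_nt.BP

open NumberField IsDedekindDomain Finset MeasureTheory
open Pool.Agent.P.MP_b8021b_nt.VE Pool.Agent.P.MP_b8021b_nt.VC Pool.Agent.P.MP_b8021b_nt.BS.CF
open Pool.Agent.P.MP_b8021b_nt.BS
open scoped Classical ComplexConjugate Real

variable {k : Type} [Field k] [NumberField k] [Algebra k ℂ] {K : Type} [Field K] [NumberField K] [Algebra k K]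

namespace PCON

/-- the blocks -/
noncomputable def bl (ζ : K) (g : Pl K → 𝓞 K) (B y : ℝ) : Finset (𝓞 K) :=
  ((pls K (y / B) y).filter (Ins ζ)).image g

theorem mem_bl {ζ : K} {g : Pl K → 𝓞 K} {B y : ℝ} {t : 𝓞 K} (h : t ∈ bl ζ g B y) :
    ∃ v, g v = t ∧ y / B < nv v ∧ nv v ≤ y ∧ Ins ζ v := by
  obtain ⟨v, hv, e⟩ := mem_image.1 h
  obtain ⟨h1, h2⟩ := mem_filter.1 hv
  exact ⟨v, e, (mem_pls.1 h1).1, (mem_pls.1 h1).2, h2⟩

variable (k) in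
/-- the data of the blocks -/
structure Dt (ζ : K) (n : ℕ) (𝒜 : Fin 3 → Finset (Pl K)) (τ : Finset (Pl K) → 𝓞 K)
    (g : Fin 3 → Pl K → 𝓞 K) (C B c y₀ : ℝ) : Prop where
  C1 : 1 ≤ C
  B2 : 2 ≤ B
  c0 : 0 < c
  dv : ∀ v : Pl K, Dv n v → nv v ≤ C
  aux : ∀ i, ∀ v ∈ 𝒜 i, Ins ζ v ∧ nv v ≤ C
  dis : ∀ i j, i ≠ j → Disjoint (𝒜 i) (𝒜 j)
  tau : ∀ S : Finset (Pl K), (∀ v ∈ S, C < nv v) → Pri (n ^ 2) (τ S) ∧
    Bal k C (NN (sp (τ S))) (τ S) ∧ S ⊆ pr (τ S) ∧ pr (τ S) ⊆ S ∪ 𝒜 0 ∧ NN (sp (τ S)) ≤ C * nS S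
  gen : ∀ i v, C < nv v → g i v ≠ 0 ∧ v ∈ pr (g i v) ∧ pr (g i v) ⊆ insert v (𝒜 i)
  blk : ∀ i y, y₀ ≤ y → Blk k n (𝒜 0 ∪ 𝒜 1 ∪ 𝒜 2) C y (bl ζ (g i) B y) ∧
    c * y / Real.log y ≤ (bl ζ (g i) B y).card

variable (k K) in
/-- the chain of the scales -/
structure Sc (C B B' y₀ W u X y yq : ℝ) (𝒥 : Finset ℕ) : Prop where
  X1 : 1 ≤ X
  B1 : 1 ≤ B'
  CW : C ≤ W
  Wq : W ≤ yq
  yy : y ≤ yq
  yu : y ^ u ≤ yq
  yd : y ^ Module.finrank ℤ (𝓞 K) ≤ yq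
  Bq : B ≤ yq
  Bq' : B' ≤ yq
  y0 : y₀ ≤ yq
  q3 : yq ^ 3 ≤ X ^ (et k K * cz k K / 2)
  q3' : yq ^ 3 ≤ X ^ et k K
  q4 : yq ^ 4 ≤ X ^ (et k K / 100)
  big : yq * X ^ (2 * et k K) * X ^ (2 * et k K) ≤ X ^ (1 - et k K / 100)
  J : ∀ j ∈ 𝒥, X ^ et k K ≤ B ^ j ∧ B ^ j ≤ X ^ (2 * et k K)

/-- the family -/
noncomputable def fam (ζ : K) (τ : Finset (Pl K) → 𝓞 K) (g : Fin 3 → Pl K → 𝓞 K)
    (B B' X y yq : ℝ) (𝒥 : Finset ℕ) : Fm K where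
  y := y
  yq := yq
  𝒥 := 𝒥
  τ := τ
  y₁ S j := X / (B' * nS S * B ^ j)
  y₂ j := B ^ j
  T₁ S j := bl ζ (g 1) B (X / (B' * nS S * B ^ j))
  T₂ j := bl ζ (g 2) B (B ^ j)

variable {ζ : K} {n : ℕ} {𝒜 : Fin 3 → Finset (Pl K)} {τ : Finset (Pl K) → 𝓞 K}
  {g : Fin 3 → Pl K → 𝓞 K} {C B B' c y₀ W u X y yq : ℝ} {𝒥 : Finset ℕ}
  {S : Finset (Pl K)} {q : Pl K} {j : ℕ}

theorem memT (h : S ∈ TT K W y u) : (∀ v ∈ S, W < nv v ∧ nv v ≤ y) ∧ nS S ≤ y ^ u ∧ lw S ≤ 1 :=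
  ⟨fun _ hv => mem_pls.1 (mem_powerset.1 (mem_filter.1 h).1 hv), (mem_filter.1 h).2⟩

theorem memQ (h : q ∈ QQ ζ yq) : yq < nv q ∧ nv q ≤ yq ^ 2 ∧ Sens ζ q :=
  ⟨(mem_pls.1 (mem_filter.1 h).1).1, (mem_pls.1 (mem_filter.1 h).1).2, (mem_filter.1 h).2⟩

theorem Sc.low (s : Sc k K C B B' y₀ W u X y yq 𝒥) (hS : S ∈ TT K W y u) (hq : q ∈ QQ ζ yq) :
    (∀ v ∈ insert q S, C < nv v ∧ nv v ≤ yq ^ 2) ∧ nS (insert q S) = nS S * nv q ∧
      nS (insert q S) ≤ yq ^ 3 := by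
  obtain ⟨a1, a2, -⟩ := memT hS
  obtain ⟨b1, b2, -⟩ := memQ hq
  have q1 : 1 ≤ yq := s.B1.trans s.Bq'
  have hn : q ∉ S := fun h => by linarith [(a1 q h).2, s.yy]
  have e : nS (insert q S) = nS S * nv q := by rw [nS, eI_insert hn, NN_mul, mul_comm]
  refine ⟨fun v hv => ?_, e, ?_⟩
  · rcases mem_insert.1 hv with rfl | h
    · exact ⟨by linarith [s.CW, s.Wq], b2⟩
    · exact ⟨s.CW.trans_lt (a1 v h).1,
        ((a1 v h).2.trans s.yy).trans (le_self_pow₀ q1 two_ne_zero)⟩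
  · rw [e, pow_succ']
    exact mul_le_mul (a2.trans s.yu) b2 (nv_pos q).le (by linarith)

theorem Sc.rng (s : Sc k K C B B' y₀ W u X y yq 𝒥) (hB : 2 ≤ B) (hj : j ∈ 𝒥) {N : ℝ} (h1 : 1 ≤ N)
    (h3 : N ≤ yq ^ 3) : yq ≤ yq ^ 2 ∧ yq ^ 2 ≤ B ^ j / B ∧ yq ^ 2 ≤ B ^ j ∧
      X ^ (2 * et k K) ≤ X / (B' * N * B ^ j) / B ∧ X ^ (2 * et k K) ≤ X / (B' * N * B ^ j) ∧
      X ^ (1 - et k K / 100) ≤ X / (B' * N * B ^ j) * B ^ j ∧ X / (B' * N * B ^ j) ≤ X ∧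
      B' * N * (X / (B' * N * B ^ j) * B ^ j) = X := by
  have q1 : 1 ≤ yq := s.B1.trans s.Bq'
  have X1 := s.X1
  have B1 := s.B1
  have X0 : 0 < X := by linarith
  have B0 : 0 < B := by linarith
  have b1 : 1 ≤ B ^ j := one_le_pow₀ (by linarith)
  obtain ⟨j1, j2⟩ := s.J j hj
  have e1 : yq ^ 2 ≤ B ^ j / B := by
    rw [le_div_iff₀ B0]
    refine le_trans ?_ (s.q3'.trans j1)
    rw [pow_succ yq 2]
    exact mul_le_mul_of_nonneg_left s.Bq (by positivity)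
  have e2 : X ^ (1 - et k K / 100) ≤ X / (B' * N * B ^ j) * B ^ j := by
    rw [Real.rpow_sub X0, Real.rpow_one,
      show X / (B' * N * B ^ j) * B ^ j = X / (B' * N) by field_simp]
    refine div_le_div_of_nonneg_left X0.le (by positivity) (le_trans ?_ s.q4)
    rw [pow_succ' yq 3]
    exact mul_le_mul s.Bq' h3 (by positivity) (by positivity)
  have e3 : X ^ (2 * et k K) ≤ X / (B' * N * B ^ j) / B := by
    rw [le_div_iff₀ B0]
    refine le_of_mul_le_mul_right (le_trans ?_ (s.big.trans e2)) (a := B ^ j) (by positivity)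
    rw [mul_comm _ B]
    gcongr
    exact s.Bq
  have e4 : ∀ z : ℝ, 0 ≤ z → z / B ≤ z := fun z hz => div_le_self hz (by linarith)
  exact ⟨le_self_pow₀ q1 two_ne_zero, e1, e1.trans (e4 _ (by positivity)), e3,
    e3.trans (e4 _ (by positivity)), e2,
    div_le_self X0.le (one_le_mul_of_one_le_of_one_le (one_le_mul_of_one_le_of_one_le B1 h1) b1),
    by field_simp⟩

theorem disj {A A' U U' P P' : Finset (Pl K)} (hA : ∀ v ∈ A, nv v ≤ C) (hA' : ∀ v ∈ A', nv v ≤ C)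
    (hU : ∀ v ∈ U, C < nv v) (hU' : ∀ v ∈ U', C < nv v) (h : Disjoint A A') (h' : Disjoint U U')
    (hP : P ⊆ U ∪ A) (hP' : P' ⊆ U' ∪ A') : Disjoint P P' := by
  refine disjoint_left.2 fun v a b => ?_
  rcases mem_union.1 (hP a) with a | a <;> rcases mem_union.1 (hP' b) with b | b
  · exact disjoint_left.1 h' a b
  · exact absurd (hA' v b) (not_le.2 (hU v a))
  · exact absurd (hA v a) (not_le.2 (hU' v b))
  · exact disjoint_left.1 h a b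

/-- the prime factors of a member of the family -/
theorem fact (d : Dt k ζ n 𝒜 τ g C B c y₀) {U : Finset (Pl K)} {v₁ v₂ : Pl K}
    (hU : ∀ v ∈ U, C < nv v) (h1 : C < nv v₁) (h2 : C < nv v₂) :
    pr (τ U * g 1 v₁ * g 2 v₂) ⊆ U ∪ {v₁} ∪ {v₂} ∪ (𝒜 0 ∪ 𝒜 1 ∪ 𝒜 2) ∧
      ∀ w, C < nv w → (w ∈ pr (τ U * g 1 v₁ * g 2 v₂) ↔ w ∈ U ∨ w = v₁ ∨ w = v₂) := by
  obtain ⟨a1, -, a2, a3, -⟩ := d.tau U hU
  obtain ⟨b1, b2, b3⟩ := d.gen 1 v₁ h1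
  obtain ⟨c1, c2, c3⟩ := d.gen 2 v₂ h2
  rw [pr_mul (mul_ne_zero a1.ne_zero b1) c1, pr_mul a1.ne_zero b1]
  have na : ∀ i w, C < nv w → w ∉ 𝒜 i := fun i w h e => absurd (d.aux i w e).2 (not_le.2 h)
  refine ⟨fun w hw => ?_, fun w hw => ⟨fun h => ?_, fun h => ?_⟩⟩
  · simp only [mem_union, mem_singleton] at hw ⊢
    rcases hw with (h | h) | h
    · have := mem_union.1 (a3 h); tauto
    · have := mem_insert.1 (b3 h); tauto
    · have := mem_insert.1 (c3 h); tauto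
  · simp only [mem_union] at h
    rcases h with (h | h) | h
    · exact Or.inl ((mem_union.1 (a3 h)).resolve_right (na _ w hw))
    · exact Or.inr (Or.inl ((mem_insert.1 (b3 h)).resolve_right (na _ w hw)))
    · exact Or.inr (Or.inr ((mem_insert.1 (c3 h)).resolve_right (na _ w hw)))
  · simp only [mem_union]
    rcases h with h | rfl | rfl
    exacts [Or.inl (Or.inl (a2 h)), Or.inl (Or.inr b2), Or.inr c2]

theorem lw_one (v : Pl K) : lw {v} ≤ 1 := by simpa using lw_le_card {v}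

theorem cell (d : Dt k ζ n 𝒜 τ g C B c y₀) (s : Sc k K C B B' y₀ W u X y yq 𝒥) {C' : ℝ}
    (hC : C ≤ C') (hC' : 4 + lw (𝒜 0 ∪ 𝒜 1 ∪ 𝒜 2) ≤ C') (hB : B' = C * C' ^ rk k K * C' ^ rk k K)
    (hS : S ∈ TT K W y u) (hq : q ∈ QQ ζ yq) (hj : j ∈ 𝒥) :
    Cell k n (𝒜 0 ∪ 𝒜 1 ∪ 𝒜 2) C' X (insert q (S.filter (Sens ζ))) (τ (insert q S))
      (X / (B' * nS (insert q S) * B ^ j)) (B ^ j)
      (bl ζ (g 1) B (X / (B' * nS (insert q S) * B ^ j))) (bl ζ (g 2) B (B ^ j)) := by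
  obtain ⟨a1, a2, a3⟩ := s.low hS hq
  obtain ⟨r0, r1, r2, r3, r4, r5, r6, r7⟩ := s.rng d.B2 hj (one_le_nS _) a3
  obtain ⟨j1, j2⟩ := s.J j hj
  obtain ⟨t1, t2, t3, t4, t5⟩ := d.tau _ fun v hv => (a1 v hv).1
  have C0 : 0 ≤ C' := by linarith [d.C1]
  have Cq : C ≤ yq ^ 2 := (s.CW.trans s.Wq).trans r0
  have y2 : y₀ ≤ B ^ j := (s.y0.trans r0).trans r2
  have y1 : y₀ ≤ X / (B' * nS (insert q S) * B ^ j) := (y2.trans j2).trans r4
  have p2 : 0 ≤ B ^ j := (sq_nonneg _).trans r2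
  have p1 : 0 ≤ X / (B' * nS (insert q S) * B ^ j) := (p2.trans j2).trans r4
  have sub : insert q (S.filter (Sens ζ)) ⊆ insert q S := insert_subset_insert _ (filter_subset _ _)
  have m1 : ∀ t ∈ bl ζ (g 1) B (X / (B' * nS (insert q S) * B ^ j)),
      ∃ v, g 1 v = t ∧ X ^ (2 * et k K) < nv v ∧ yq ^ 2 < nv v := fun t ht => by
    obtain ⟨v, e, h, -⟩ := mem_bl ht
    exact ⟨v, e, r3.trans_lt h, ((r2.trans j2).trans r3).trans_lt h⟩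
  have m2 : ∀ t ∈ bl ζ (g 2) B (B ^ j),
      ∃ v, g 2 v = t ∧ nv v ≤ X ^ (2 * et k K) ∧ yq ^ 2 < nv v := fun t ht => by
    obtain ⟨v, e, h, h', -⟩ := mem_bl ht
    exact ⟨v, e, h'.trans j2, r1.trans_lt h⟩
  have cp : ∀ i v, 0 ≠ i → yq ^ 2 < nv v → IsCoprime (τ (insert q S)) (g i v) := fun i v hi h => by
    obtain ⟨b1, -, b3⟩ := d.gen i v (Cq.trans_lt h)
    refine (isCoprime_iff' t1.ne_zero b1).2 (disj (U' := {v}) (fun w e => (d.aux 0 w e).2)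
      (fun w e => (d.aux i w e).2) (fun w e => (a1 w e).1)
      (fun w e => mem_singleton.1 e ▸ Cq.trans_lt h) (d.dis 0 i hi)
      (disjoint_singleton_right.2 fun e => absurd (a1 v e).2 (not_le.2 h)) t4
      (by rwa [← insert_eq]))
  refine ⟨⟨(d.blk 1 _ y1).1.mono hC C0 p1, (d.blk 2 _ y2).1.mono hC C0 p2,
    fun v hv e => absurd (d.dv v e) (not_le.2 (a1 v (sub hv)).1),
    ((nS_mono sub).trans a3).trans s.q3, j1, j2, r5, r6⟩, t1, sub.trans t3,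
    t2.mono hC C0 (Nat.cast_nonneg _) le_rfl, fun t ht => ?_, fun t ht => ?_,
    fun t ht t' ht' => ?_, ?_, fun t ht t' ht' => ?_⟩
  · obtain ⟨v, rfl, -, h⟩ := m1 t ht
    exact cp 1 v (by decide) h
  · obtain ⟨v, rfl, -, h⟩ := m2 t ht
    exact cp 2 v (by decide) h
  · obtain ⟨v, rfl, h1, h⟩ := m1 t ht
    obtain ⟨v', rfl, h1', h'⟩ := m2 t' ht'
    obtain ⟨b1, -, b3⟩ := d.gen 1 v (Cq.trans_lt h)
    obtain ⟨c1, -, c3⟩ := d.gen 2 v' (Cq.trans_lt h')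
    exact (isCoprime_iff' b1 c1).2 (disj (U := {v}) (U' := {v'}) (fun w e => (d.aux 1 w e).2)
      (fun w e => (d.aux 2 w e).2) (fun w e => mem_singleton.1 e ▸ Cq.trans_lt h)
      (fun w e => mem_singleton.1 e ▸ Cq.trans_lt h') (d.dis 1 2 (by decide))
      (disjoint_singleton.2 fun e => absurd h1' (not_le.2 (e ▸ h1))) (by rwa [← insert_eq])
      (by rwa [← insert_eq]))
  · refine le_trans ?_ r7.le
    generalize X / (B' * nS (insert q S) * B ^ j) = y₁ at p1 ⊢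
    calc _ ≤ C * nS (insert q S) * (C' ^ rk k K * y₁) * (C' ^ rk k K * B ^ j) := by gcongr
      _ = _ := by rw [hB]; ring
  · obtain ⟨v, rfl, -, h⟩ := m1 t ht
    obtain ⟨v', rfl, -, h'⟩ := m2 t' ht'
    have e1 := lw_mono (fact d (fun w e => (a1 w e).1) (Cq.trans_lt h) (Cq.trans_lt h')).1
    have e2 := lw_union_le (insert q S ∪ {v} ∪ {v'}) (𝒜 0 ∪ 𝒜 1 ∪ 𝒜 2)
    have e3 := lw_union_le (insert q S ∪ {v}) {v'}
    have e4 := lw_union_le (insert q S) {v}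
    have e5 := lw_union_le {q} S
    rw [← insert_eq] at e5
    linarith [lw_one v, lw_one v', lw_one q, (memT hS).2.2]

theorem blk_eq {j j' : ℕ} {x : ℝ} (hB : 2 ≤ B) (h1 : B ^ j / B < x) (h2 : x ≤ B ^ j') : j ≤ j' := by
  have h := h1.trans_le h2
  rw [div_lt_iff₀ (by linarith), ← pow_succ] at h
  exact Nat.le_of_lt_succ ((pow_lt_pow_iff_right₀ (by linarith)).1 h)

theorem ok (d : Dt k ζ n 𝒜 τ g C B c y₀) (s : Sc k K C B B' y₀ W u X y yq 𝒥) {C' : ℝ}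
    (hC : C ≤ C') (hC' : 4 + lw (𝒜 0 ∪ 𝒜 1 ∪ 𝒜 2) ≤ C') (hB : B' = C * C' ^ rk k K * C' ^ rk k K) :
    (fam ζ τ g B B' X y yq 𝒥).Ok k ζ n (𝒜 0 ∪ 𝒜 1 ∪ 𝒜 2) C' B' c W u X := by
  have Cq : C ≤ yq := s.CW.trans s.Wq
  have q2 : 2 ≤ yq := d.B2.trans s.Bq
  have mem : ∀ S ∈ TT K W y u, ∀ q ∈ QQ ζ yq, ∀ j ∈ 𝒥,
      (∀ t ∈ bl ζ (g 1) B (X / (B' * nS (insert q S) * B ^ j)), ∃ v, g 1 v = t ∧
        X ^ (2 * et k K) < nv v ∧ yq ^ 2 < nv v ∧ C < nv v ∧ Ins ζ v) ∧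
      ∀ t ∈ bl ζ (g 2) B (B ^ j), ∃ v, g 2 v = t ∧ nv v ≤ X ^ (2 * et k K) ∧ yq ^ 2 < nv v ∧
        C < nv v ∧ Ins ζ v ∧ B ^ j / B < nv v ∧ nv v ≤ B ^ j := fun S hS q hq j hj => by
    obtain ⟨r0, r1, r2, r3, -⟩ := s.rng d.B2 hj (one_le_nS _) (s.low hS hq).2.2
    obtain ⟨-, j2⟩ := s.J j hj
    refine ⟨fun t ht => ?_, fun t ht => ?_⟩
    · obtain ⟨v, e, h, -, hi⟩ := mem_bl ht
      have := ((r2.trans j2).trans r3).trans_lt h
      exact ⟨v, e, r3.trans_lt h, this, (Cq.trans r0).trans_lt this, hi⟩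
    · obtain ⟨v, e, h, h', hi⟩ := mem_bl ht
      exact ⟨v, e, h'.trans j2, r1.trans_lt h, ((Cq.trans r0).trans r1).trans_lt h, hi, h, h'⟩
  refine ⟨fun S hS q hq j hj => cell d s hC hC' hB hS hq hj, fun S hS q hq j hj => ?_,
    fun S hS q hq j hj => ?_, s.Wq, fun S hS q hq v hv e => ?_, fun S hS q hq v hv => ?_,
    fun S hS q hq j hj t ht v hv e => ?_, ?_⟩
  · obtain ⟨-, a2, a3⟩ := s.low hS hq
    rw [← a2]
    exact (s.rng d.B2 hj (one_le_nS _) a3).2.2.2.2.2.2.2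
  · obtain ⟨r0, -, r2, -, r4, -, r6, -⟩ := s.rng d.B2 hj (one_le_nS _) (s.low hS hq).2.2
    obtain ⟨-, j2⟩ := s.J j hj
    have key : ∀ i z, yq ≤ z → z ≤ X → c * z / Real.log X ≤ (bl ζ (g i) B z).card :=
      fun i z h1 h2 => le_trans (div_le_div_of_nonneg_left (mul_nonneg d.c0.le (by linarith))
        (Real.log_pos (by linarith)) (Real.log_le_log (by linarith) h2))
        (d.blk i z (s.y0.trans h1)).2
    exact ⟨key 1 _ (((r0.trans r2).trans j2).trans r4) r6,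
      key 2 _ (r0.trans r2) ((j2.trans r4).trans r6)⟩
  · have h1 := nv_le_of_dv (fun h => v.ne_bot (Ideal.absNorm_eq_zero_iff.1 h)) e
    rw [NN, Ideal.absNorm_span_natCast, Nat.cast_pow] at h1
    have h2 := pow_le_pow_left₀ (nv_pos v).le ((memT hS).1 v hv).2 (Module.finrank ℤ (𝓞 K))
    exact absurd ((h1.trans h2).trans s.yd) (not_le.2 (memQ hq).1)
  · obtain ⟨t1, -, t3, t4, -⟩ := d.tau _ fun v hv => ((s.low hS hq).1 v hv).1
    refine (mem_pr t1.ne_zero).symm.trans ⟨fun h => ?_, fun h => t3 h⟩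
    exact (mem_union.1 (t4 h)).resolve_right fun e => (d.aux 0 v e).1.2 hv.2
  · have key : ∀ i w, C < nv w → Ins ζ w → g i w ∉ v.asIdeal := fun i w h hi e => by
      obtain ⟨b1, -, b3⟩ := d.gen i w h
      rcases mem_insert.1 (b3 ((mem_pr b1).2 e)) with rfl | h'
      exacts [hi.2 hv.2, (d.aux i v h').1.2 hv.2]
    rcases mem_union.1 ht with h | h
    · obtain ⟨w, rfl, -, -, h1, h2⟩ := (mem S hS q hq j hj).1 t h
      exact key 1 w h1 h2 e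
    · obtain ⟨w, rfl, -, -, h1, h2, -⟩ := (mem S hS q hq j hj).2 t h
      exact key 2 w h1 h2 e
  · intro S hS q hq j hj t₁ h₁ t₂ h₂ S' hS' q' hq' j' hj' t₁' h₁' t₂' h₂' e
    obtain ⟨v₁, rfl, a1, a2, a3, -⟩ := (mem S hS q hq j hj).1 t₁ h₁
    obtain ⟨v₂, rfl, b1, b2, b3, -, b4, b5⟩ := (mem S hS q hq j hj).2 t₂ h₂
    obtain ⟨w₁, rfl, c1, c2, c3, -⟩ := (mem S' hS' q' hq' j' hj').1 t₁' h₁'
    obtain ⟨w₂, rfl, d1, d2, d3, -, d4, d5⟩ := (mem S' hS' q' hq' j' hj').2 t₂' h₂'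
    have l := (s.low hS hq).1
    have l' := (s.low hS' hq').1
    have e' := congrArg prI e
    rw [prI_sp, prI_sp] at e'
    have E : ∀ w, C < nv w → (w ∈ insert q S ∨ w = v₁ ∨ w = v₂ ↔
        w ∈ insert q' S' ∨ w = w₁ ∨ w = w₂) := fun w hw =>
      ((fact d (fun v h => (l v h).1) a3 b3).2 w hw).symm.trans
        (e' ▸ (fact d (fun v h => (l' v h).1) c3 d3).2 w hw)
    obtain rfl : v₁ = w₁ := by
      rcases (E v₁ a3).1 (Or.inr (Or.inl rfl)) with h | h | h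
      · exact absurd (l' _ h).2 (not_le.2 a2)
      · exact h
      · exact absurd d1 (not_le.2 (h ▸ a1))
    obtain rfl : v₂ = w₂ := by
      rcases (E v₂ b3).1 (Or.inr (Or.inr rfl)) with h | h | h
      · exact absurd (l' _ h).2 (not_le.2 b2)
      · exact absurd b1 (not_le.2 (h ▸ a1))
      · exact h
    have E1 : ∀ w, w ∈ insert q S ↔ w ∈ insert q' S' := fun w => by
      refine ⟨fun h => ?_, fun h => ?_⟩
      · rcases (E w (l w h).1).1 (Or.inl h) with h' | rfl | rfl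
        exacts [h', absurd (l _ h).2 (not_le.2 a2), absurd (l _ h).2 (not_le.2 b2)]
      · rcases (E w (l' w h).1).2 (Or.inl h) with h' | rfl | rfl
        exacts [h', absurd (l' _ h).2 (not_le.2 a2), absurd (l' _ h).2 (not_le.2 b2)]
    have nq : ∀ T ∈ TT K W y u, ∀ p ∈ QQ ζ yq, p ∉ T := fun T hT p hp h =>
      absurd (((memT hT).1 p h).2.trans s.yy) (not_le.2 (memQ hp).1)
    obtain rfl : q = q' :=
      (mem_insert.1 ((E1 q).1 (mem_insert_self q S))).resolve_right (nq S' hS' q hq)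
    refine ⟨?_, rfl, le_antisymm (blk_eq d.B2 b4 d5) (blk_eq d.B2 d4 b5), rfl, rfl⟩
    rw [← erase_insert (nq S hS q hq), Finset.ext E1, erase_insert (nq S' hS' q hq)]

end PCON

open PCON in
theorem y_cON (c : Cx k K) (hCON1 : Y_CON1 k K) : Y_CON k K := by
  intro ζ hζ
  obtain ⟨n₁, h1, H⟩ := hCON1 ζ hζ
  refine ⟨n₁, h1, fun n hn h2 => ?_⟩
  obtain ⟨𝒜, τ, g, C, B, c₀, y₀, a1, a2, a3, a4, a5, a6, a7, a8, a9⟩ := H n hn h2
  have d : Dt k ζ n 𝒜 τ g C B c₀ y₀ := ⟨a1, a2, a3, a4, a5, a6, a7, a8, a9⟩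
  obtain ⟨C', hC'⟩ : ∃ C', C' = max C (4 + lw (𝒜 0 ∪ 𝒜 1 ∪ 𝒜 2)) := ⟨_, rfl⟩
  have c1 : C ≤ C' := hC' ▸ le_max_left _ _
  have c2 : 1 ≤ C' ^ rk k K := Real.one_le_rpow (a1.trans c1) (Nat.cast_nonneg _)
  obtain ⟨B', hB'⟩ : ∃ B', B' = C * C' ^ rk k K * C' ^ rk k K := ⟨_, rfl⟩
  have B1 : 1 ≤ B' :=
    hB' ▸ one_le_mul_of_one_le_of_one_le (one_le_mul_of_one_le_of_one_le a1 c2) c2
  refine ⟨𝒜 0 ∪ 𝒜 1 ∪ 𝒜 2, C', B', c₀, C, a1.trans c1, by linarith, a3, fun W u A hW hu hA => ?_⟩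
  have e0 := c.et_pos
  have e1 := c.et_le
  have z0 := c.cz_pos
  have z1 := c.cz_le
  have ez : et k K * cz k K ≤ et k K / 100 := by nlinarith
  obtain ⟨A', hA'⟩ : ∃ A' : ℝ, A' = A + u + Module.finrank ℤ (𝓞 K) := ⟨_, rfl⟩
  have d0 : (0 : ℝ) ≤ Module.finrank ℤ (𝓞 K) := Nat.cast_nonneg _
  have A0 : 0 < A' := by linarith
  have lB : 0 < Real.log B := Real.log_pos (by linarith)
  obtain ⟨a, ha⟩ : ∃ a, a = et k K * cz k K / 6 := ⟨_, rfl⟩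
  have a0 : 0 < a := by rw [ha]; positivity
  obtain ⟨X₀, X3, hX₀⟩ := ev_log (max (max W B) (max B' y₀)) 0 a0
  refine ⟨min (a / A') (et k K / (2 * Real.log B)), X₀, by positivity, fun X hX => ?_⟩
  have X1 : 1 ≤ X := by linarith
  have X0 : 0 < X := by linarith
  have hM := hX₀ X hX
  rw [pow_zero, mul_one, max_le_iff, max_le_iff, max_le_iff] at hM
  have L0 : 0 ≤ Real.log X := Real.log_nonneg X1
  have mono : ∀ {s t : ℝ}, s ≤ t → X ^ s ≤ X ^ t := fun h => Real.rpow_le_rpow_of_exponent_le X1 h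
  have yp : ∀ t : ℝ, t ≤ A' → (X ^ (a / A')) ^ t ≤ X ^ a := fun t ht => by
    rw [← Real.rpow_mul X0.le]
    refine mono ?_
    rw [div_mul_eq_mul_div, div_le_iff₀ A0]
    exact mul_le_mul_of_nonneg_left ht a0.le
  have qp : ∀ m : ℕ, (X ^ a) ^ m = X ^ (a * m) := fun m => by
    rw [← Real.rpow_natCast, ← Real.rpow_mul X0.le]
  obtain ⟨b, hb⟩ : ∃ b, b = et k K * Real.log X / Real.log B := ⟨_, rfl⟩
  have bl : b * Real.log B = et k K * Real.log X := by rw [hb]; field_simp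
  have b2 : 2 ≤ b := by
    have h3 := Real.log_le_log (by linarith) hM.1.2
    rw [Real.log_rpow X0] at h3
    rw [hb, le_div_iff₀ lB]
    have : 2 * a ≤ et k K := by linarith
    nlinarith
  have s : Sc k K C B B' y₀ W u X (X ^ (a / A')) (X ^ a) (Icc ⌈b⌉₊ ⌊2 * b⌋₊) := by
    refine ⟨X1, B1, hW, hM.1.1, ?_, yp u (by linarith), ?_, hM.1.2, hM.2.1, hM.2.2, ?_, ?_, ?_, ?_,
      fun j hj => ?_⟩
    · simpa using yp 1 (by linarith)
    · simpa using yp (Module.finrank ℤ (𝓞 K)) (by linarith)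
    · rw [qp]; exact mono (by push_cast; linarith)
    · rw [qp]; exact mono (by push_cast; linarith)
    · rw [qp]; exact mono (by push_cast; linarith)
    · rw [← Real.rpow_add X0, ← Real.rpow_add X0]; exact mono (by linarith)
    · have j1 : b ≤ j := Nat.ceil_le.1 (mem_Icc.1 hj).1
      have j2 : (j : ℝ) ≤ 2 * b := (Nat.le_floor_iff (by linarith)).1 (mem_Icc.1 hj).2
      have B0 : 0 < B := by linarith
      constructor <;> rw [← Real.log_le_log_iff (by positivity) (by positivity),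
        Real.log_rpow X0, Real.log_pow] <;> nlinarith
  refine ⟨_, ok d s c1 (hC' ▸ le_max_right _ _) hB', yp A (by linarith), mono (min_le_left _ _), ?_⟩
  change _ ≤ ((Icc ⌈b⌉₊ ⌊2 * b⌋₊).card : ℝ)
  have f1 := Nat.lt_floor_add_one (2 * b)
  have f2 := Nat.ceil_lt_add_one (a := b) (by linarith)
  have f3 : ⌈b⌉₊ ≤ ⌊2 * b⌋₊ + 1 := by
    have : (⌈b⌉₊ : ℝ) ≤ ⌊2 * b⌋₊ + 1 := by linarith
    exact_mod_cast this
  rw [Nat.card_Icc, Nat.cast_sub f3]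
  push_cast
  have f4 : et k K / (2 * Real.log B) * Real.log X = b / 2 := by rw [hb]; field_simp
  have f5 := mul_le_mul_of_nonneg_right (min_le_right (a / A') (et k K / (2 * Real.log B))) L0
  linarith

end Pool.Agent.P.MP_b8021b_nt.BP
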