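import Pool.Agent.P.MP_b8021b_nt.BP.StC

/-! The first moment over a cell. -/

namespace Pool.Agent.P.MP_b8021b_nt.BP

open NumberField IsDedekindDomain Finset MeasureTheory
open Pool.Agent.P.MP_b8021b_nt.VE Pool.Agent.P.MP_b8021b_nt.VC Pool.Agent.P.MP_b8021b_nt.BS.CF
open Pool.Agent.P.MP_b8021b_nt.BS
open scoped Classical ComplexConjugate Real

variable {k : Type} [Field k] [NumberField k] [Algebra k ℂ] {K : Type} [Field K] [NumberField K]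
  [Algebra k K]

namespace PCELL

theorem split {ι κ : Type} (T₁ T₂ : Finset ι) (R : Finset κ) (w L a e M : ι → ι → ℂ)
    (b : κ → ι → ι → ℂ) (d : κ → ℂ) (γ J : ℂ) :
    ∑ t ∈ T₁, ∑ t' ∈ T₂, w t t' * (L t t' * M t t' - J) =
      ∑ t ∈ T₁, ∑ t' ∈ T₂, w t t' * (a t t' * M t t' - J) +
      γ * ∑ I ∈ R, d I * ∑ t ∈ T₁, ∑ t' ∈ T₂, w t t' * (e t t' * b I t t' * M t t') +
      ∑ t ∈ T₁, ∑ t' ∈ T₂,
        w t t' * (L t t' - (a t t' + e t t' * γ * ∑ I ∈ R, d I * b I t t')) * M t t' := by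
  simp only [mul_sum]
  rw [sum_comm (s := R), ← sum_add_distrib, ← sum_add_distrib]
  refine sum_congr rfl fun t _ => ?_
  rw [sum_comm (s := R), ← sum_add_distrib, ← sum_add_distrib]
  refine sum_congr rfl fun t' _ => ?_
  have : ∑ I ∈ R, γ * (d I * (w t t' * (e t t' * b I t t' * M t t'))) =
      w t t' * (∑ I ∈ R, e t t' * γ * (d I * b I t t')) * M t t' := by
    rw [mul_sum, sum_mul]
    exact sum_congr rfl fun _ _ => by ring
  rw [this]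
  ring

theorem card (c : Cx k K) (hSLT : Y_SLT k K) {n : ℕ} (hn : Good K n) (𝒜 : Finset (Pl K)) (C₀ : ℝ) :
    ∃ C X₀ : ℝ, 1 ≤ C ∧ 3 ≤ X₀ ∧ ∀ X, X₀ ≤ X → ∀ y T, X ^ et k K ≤ y → Blk k n 𝒜 C₀ y T →
      (T.card : ℝ) ≤ C * y := by
  obtain ⟨C, y₀, hC, -, h⟩ := hSLT n 𝒜 C₀ hn
  obtain ⟨X₀, h3, h1⟩ := ev_log (max y₀ 3) 0 c.et_pos
  refine ⟨C, X₀, hC, h3, fun X hX y T hy hT => ?_⟩
  have h2 : max y₀ 3 ≤ y := by simpa using (h1 X hX).trans hy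
  have h4 := (le_max_right _ _).trans h2
  exact (h y T ((le_max_left _ _).trans h2) hT).1.trans (div_le_self (by positivity)
    ((Real.le_log_iff_exp_le (by linarith)).2 (Real.exp_one_lt_three.le.trans h4)))

theorem mol (c : Cx k K) (hDIV : Y_DIV K) : ∃ C : ℝ, 1 ≤ C ∧ ∀ (X : ℝ) (Ψ : Ideal (𝓞 K) → ℂ) t,
    3 ≤ X → (∀ I, ‖Ψ I‖ ≤ 1) → ‖MX k Ψ X t‖ ≤ C * X ^ (1 / 2 : ℝ) := by
  obtain ⟨C, hC, h⟩ := hDIV.2
  refine ⟨C, hC, fun X Ψ t hX hΨ => ?_⟩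
  have h0 : 0 < el k K X := mul_pos c.la_pos (Real.log_pos (by linarith))
  have h1 := c.exp_el (X := X) (by linarith) 1
  rw [one_mul, one_mul] at h1
  refine (norm_Mw hΨ (sgn_leg t) h0).trans ((h _ (Real.one_le_exp h0.le)).1.trans ?_)
  rw [h1]
  exact mul_le_mul_of_nonneg_left (Real.rpow_le_rpow_of_exponent_le (by linarith)
    (by linarith [c.et_eq, c.et_le])) (by linarith)

end PCELL

open PCELL in
theorem y_cELL (c : Cx k K) (hDIV : Y_DIV K) (hGEO : Y_GEO K) (hSLT : Y_SLT k K)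
    (hAFE : Y_AFE k K) (hCELA : Y_CELA k K) (hCELB : Y_CELB k K) : Y_CELL k K := by
  intro n Ψ f Ct γ c₀ A 𝒜 C₀ ε hn hΨ hF hC₀ hε
  obtain ⟨G, hG, bG⟩ := hGEO.2 n hn.pos
  have hA : 0 ≤ A := (norm_nonneg _).trans (hF.bd ⊥)
  have hB : 0 < ‖γ‖ * A * G + 1 := by positivity
  obtain ⟨C₁, X₁, hC₁, h3, b1⟩ := card c hSLT hn 𝒜 C₀
  obtain ⟨C₂, hC₂, b2⟩ := mol c hDIV
  obtain ⟨C₃, X₃, hC₃, b3⟩ := hAFE n Ψ f Ct γ c₀ A hn hΨ hF
  obtain ⟨X₄, b4⟩ := hCELA n Ψ f 𝒜 C₀ (ε / 3) hn hΨ hF.ker (by positivity)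
  obtain ⟨X₅, b5⟩ := hCELB n Ψ f 𝒜 C₀ c₀ (ε / 3 / (‖γ‖ * A * G + 1)) hn hΨ hF.ker hC₀ hF.pos
    (by positivity)
  obtain ⟨X₆, -, b6⟩ := ev_log (C₁ ^ 2 * C₂ * C₃ / (ε / 3)) 2 (a := 1 / 2) (by norm_num)
  refine ⟨max (max X₁ X₃) (max (max X₄ X₅) X₆), fun X y₁ y₂ Γ τ T₁ T₂ F hX hc hP hw => ?_⟩
  simp only [max_le_iff] at hX
  obtain ⟨⟨x1, x3⟩, ⟨x4, x5⟩, x6⟩ := hX
  have X3 : 3 ≤ X := h3.trans x1
  have X1 : 1 ≤ X := by linarith
  have hL : 0 < Real.log X := Real.log_pos (by linarith)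
  obtain ⟨-, l1, p1, p2⟩ := c.lo hc.toPair X1
  have hQ : 0 ≤ y₁ * y₂ / Real.log X ^ 2 := by positivity
  rw [split T₁ T₂ (sm K n (ZZ k K X)) (fun t t' => wF F Γ (t * t')) _
    (fun t t' => AX k Ψ f X 1 (τ * t * t')) (fun t t' => eps k (τ * t * t')) _
    (fun I t t' => AX k (cj Ψ) f X (c₀ * NN I * X / NN (sp (τ * t * t'))) (τ * t * t'))
    (fun I => Ct I / (√(NN I) : ℝ)) γ]
  refine (norm_add₃_le).trans ((add_le_add_three (b4 X y₁ y₂ Γ τ T₁ T₂ F x4 hc hP hw)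
    (?_ : _ ≤ ε / 3 * (y₁ * y₂ / Real.log X ^ 2))
    (?_ : _ ≤ ε / 3 * (y₁ * y₂ / Real.log X ^ 2))).trans_eq (by ring))
  · rw [norm_mul]
    refine (mul_le_mul_of_nonneg_left ((norm_sum_le_of_le _ (n := fun I => A * (ε / 3 /
      (‖γ‖ * A * G + 1) * (y₁ * y₂ / Real.log X ^ 2)) * (√(NN I))⁻¹) fun I hI => ?_).trans
      (?_ : _ ≤ A * (ε / 3 / (‖γ‖ * A * G + 1) * (y₁ * y₂ / Real.log X ^ 2)) * G))
      (norm_nonneg γ)).trans ?_
    · have h1 := one_le_NN (mem_ids.1 (mem_filter.1 hI).1).1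
      rw [norm_mul, norm_div, Complex.norm_real, Real.norm_of_nonneg (Real.sqrt_nonneg _),
        div_eq_mul_inv, mul_right_comm]
      refine mul_le_mul_of_nonneg_right (mul_le_mul (hF.bd I) (b5 X y₁ y₂ _ Γ τ T₁ T₂ F x5
        (le_mul_of_one_le_right hF.pos.le h1) hc hP hw) (norm_nonneg _) hA) (by positivity)
    · rw [← mul_sum]
      exact mul_le_mul_of_nonneg_left (bG _) (by positivity)
    · generalize y₁ * y₂ / Real.log X ^ 2 = Q at *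
      rw [show ‖γ‖ * (A * (ε / 3 / (‖γ‖ * A * G + 1) * Q) * G) =
        ε / 3 * Q * (‖γ‖ * A * G / (‖γ‖ * A * G + 1)) by ring]
      exact mul_le_of_le_one_right (by positivity) ((div_le_one hB).2 (by linarith))
  · have hs : 0 < X ^ (1 / 2 : ℝ) := by positivity
    have e : X = X ^ (1 / 2 : ℝ) * X ^ (1 / 2 : ℝ) := by
      rw [← Real.rpow_add (by linarith)]; norm_num
    refine (norm_sum_le_of_le _ (n := fun _ => C₁ * y₂ * (C₃ / X * (C₂ * X ^ (1 / 2 : ℝ))))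
      fun t ht => ?_).trans ?_
    · refine (norm_sum_le_of_le _ (n := fun _ => C₃ / X * (C₂ * X ^ (1 / 2 : ℝ)))
        fun t' ht' => ?_).trans ?_
      · obtain ⟨m1, m2, -⟩ := hc.mem c.toCtx hC₀ X1 ht ht'
        rw [norm_mul, norm_mul]
        exact mul_le_mul ((mul_le_of_le_one_left (norm_nonneg _) (hw t ht t' ht')).trans
          (b3 X x3 _ m1 m2)) (b2 X Ψ _ X3 hΨ.norm_le) (norm_nonneg _) (by positivity)
      · rw [sum_const, nsmul_eq_mul]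
        exact mul_le_mul_of_nonneg_right (b1 X x1 _ _ hc.lo2 hc.b2) (by positivity)
    · rw [sum_const, nsmul_eq_mul]
      refine (mul_le_mul_of_nonneg_right (b1 X x1 _ _ l1 hc.b1) (by positivity)).trans ?_
      have h6 := b6 X x6
      generalize X ^ (1 / 2 : ℝ) = s at *
      generalize Real.log X = l at *
      rw [div_mul_eq_mul_div, div_le_iff₀ (by positivity)] at h6
      rw [e, show C₁ * y₁ * (C₁ * y₂ * (C₃ / (s * s) * (C₂ * s))) =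
        C₁ ^ 2 * C₂ * C₃ * l ^ 2 / s * (y₁ * y₂ / l ^ 2) by field_simp]
      exact mul_le_mul_of_nonneg_right ((div_le_iff₀' hs).2 h6) hQ

end Pool.Agent.P.MP_b8021b_nt.BP
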