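import Pool.Agent.P.MP_b8021b_nt.BP.StC

/-! Cutting the integral of the central value by a smooth step. -/

namespace Pool.Agent.P.MP_b8021b_nt.BP

open NumberField IsDedekindDomain Finset MeasureTheory
open Pool.Agent.P.MP_b8021b_nt.VE Pool.Agent.P.MP_b8021b_nt.VC Pool.Agent.P.MP_b8021b_nt.BS.CF
open Pool.Agent.P.MP_b8021b_nt.BS
open scoped Classical ComplexConjugate Real

variable {k : Type} [Field k] [NumberField k] [Algebra k ℂ] {K : Type} [Field K] [NumberField K]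
  [Algebra k K]

namespace PAF1

/-- the substitution `u = b / τ` on the positive reals -/
theorem subst (h : ℝ → ℂ) {b : ℝ} (hb : 0 < b)
    (hi : IntegrableOn (fun u => h u / u) (Set.Ioi 0)) :
    IntegrableOn (fun τ => h (b / τ) / τ) (Set.Ioi 0) ∧
      ∫ τ in Set.Ioi 0, h (b / τ) / τ = ∫ u in Set.Ioi 0, h u / u := by
  have him : (fun τ : ℝ => b / τ) '' Set.Ioi 0 = Set.Ioi 0 := by
    ext u
    constructor
    · rintro ⟨τ, h0, rfl⟩
      exact div_pos hb h0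
    · intro hu
      have hu0 : 0 < u := hu
      exact ⟨b / u, div_pos hb hu0, by field_simp⟩
  have hd : ∀ τ ∈ Set.Ioi (0 : ℝ),
      HasDerivWithinAt (fun τ : ℝ => b / τ) (-(b / τ ^ 2)) (Set.Ioi 0) τ := by
    intro τ hτ
    have := ((hasDerivAt_inv (ne_of_gt hτ)).const_mul b).hasDerivWithinAt (s := Set.Ioi 0)
    simpa only [div_eq_mul_inv, mul_neg] using this
  have hinj : Set.InjOn (fun τ : ℝ => b / τ) (Set.Ioi 0) := by
    intro x hx y hy e
    have e' : b / x = b / y := e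
    rw [div_eq_div_iff (ne_of_gt hx) (ne_of_gt hy)] at e'
    exact (mul_left_cancel₀ hb.ne' e').symm
  have he : ∀ τ ∈ Set.Ioi (0 : ℝ),
      |-(b / τ ^ 2)| • (h (b / τ) / ((b / τ : ℝ) : ℂ)) = h (b / τ) / τ := by
    intro τ hτ
    have h0 : (τ : ℂ) ≠ 0 := by exact_mod_cast (ne_of_gt hτ)
    have h1 : (b : ℂ) ≠ 0 := by exact_mod_cast hb.ne'
    rw [abs_neg, abs_of_pos (div_pos hb (pow_pos hτ 2)), Complex.real_smul]
    push_cast
    field_simp
  constructor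
  · rw [← him, integrableOn_image_iff_integrableOn_abs_deriv_smul measurableSet_Ioi hd hinj] at hi
    exact hi.congr_fun he measurableSet_Ioi
  · conv_rhs => rw [← him, integral_image_eq_integral_abs_deriv_smul measurableSet_Ioi hd hinj]
    exact (setIntegral_congr_fun measurableSet_Ioi he).symm

/-- the cut function is integrable -/
theorem int (g : ℝ → ℂ) {r Y ℓ : ℝ} (hr : 0 < r) (hY : 0 < Y) (hℓ : 0 < ℓ)
    (hg : ∀ x : ℝ, 0 < x → IntegrableOn (fun τ => g τ / τ) (Set.Ioi x)) :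
    IntegrableOn (fun τ : ℝ => (St (Real.log (r / (τ * Y)) / ℓ) : ℝ) * g τ / τ) (Set.Ioi 0) := by
  have hx : 0 < r / (Real.exp ℓ * Y) := by positivity
  have hm : Measurable fun τ : ℝ => ((St (Real.log (r / (τ * Y)) / ℓ) : ℝ) : ℂ) :=
    Complex.measurable_ofReal.comp (continuous_St.measurable.comp (by fun_prop))
  simp only [mul_div_assoc]
  refine IntegrableOn.of_forall_sdiff_eq_zero
    ((hg _ hx).bdd_mul (c := 1) hm.aestronglyMeasurable (ae_of_all _ fun τ => norm_St _))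
    measurableSet_Ioi fun τ hτ => ?_
  have h0 : 0 < τ := hτ.1
  have h1 : τ ≤ r / (Real.exp ℓ * Y) := not_lt.1 hτ.2
  rw [St_log hℓ, Complex.ofReal_zero, zero_mul]
  rw [le_div_iff₀ (by positivity)] at h1 ⊢
  linarith

theorem main (g g' : ℝ → ℂ) (ε : ℂ) {b Y ℓ : ℝ} (hb : 0 < b) (hY : 0 < Y) (hℓ : 0 < ℓ)
    (hg : ∀ x : ℝ, 0 < x → IntegrableOn (fun τ => g τ / τ) (Set.Ioi x))
    (hg' : ∀ x : ℝ, 0 < x → IntegrableOn (fun τ => g' τ / τ) (Set.Ioi x))
    (hf : ∀ τ, 0 < τ → g τ = ε * g' (b / τ)) :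
    ∫ τ in Set.Ioi (0 : ℝ), g τ / τ =
      (∫ τ in Set.Ioi (0 : ℝ), (St (Real.log (1 / (τ * Y)) / ℓ) : ℝ) * g τ / τ) +
        ε * ∫ τ in Set.Ioi (0 : ℝ),
          (St (Real.log (b * (Y ^ 2 * Real.exp ℓ) / (τ * Y)) / ℓ) : ℝ) * g' τ / τ := by
  obtain ⟨h1, h2⟩ := subst (fun τ => (St (Real.log (b * (Y ^ 2 * Real.exp ℓ) / (τ * Y)) / ℓ) : ℝ) *
    g' τ) hb (int g' (by positivity) hY hℓ hg')
  rw [← h2, ← integral_const_mul, ← integral_add (int g one_pos hY hℓ hg) (h1.const_mul ε)]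
  refine setIntegral_congr_fun measurableSet_Ioi fun τ hτ => ?_
  have h0 : 0 < τ := hτ
  have e : Real.log (b * (Y ^ 2 * Real.exp ℓ) / (b / τ * Y)) / ℓ =
      1 - Real.log (1 / (τ * Y)) / ℓ := by
    rw [show b * (Y ^ 2 * Real.exp ℓ) / (b / τ * Y) = τ * Y * Real.exp ℓ by field_simp,
      Real.log_mul (by positivity) (by positivity), Real.log_exp, one_div, Real.log_inv]
    field_simp
    ring
  have e' := congrArg Complex.ofReal (St_add (Real.log (1 / (τ * Y)) / ℓ))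
  simp only [e, hf τ h0]
  push_cast at e'
  linear_combination -(ε * g' (b / τ) / τ) * e'

end PAF1

theorem y_aF1 (c : Cx k K) : Y_AF1 k K := by
  intro n Ψ f Ct γ c₀ A ℓ Y t hΨ hF hℓ hY ht
  have hNt : 0 < NN (sp t) := NN_pos (by simpa using ht.ne_zero)
  have hi : ∀ (D : Ideal (𝓞 K) → ℂ) (B : ℝ), (∀ I, ‖D I‖ ≤ B) → ∀ x : ℝ, 0 < x →
      IntegrableOn (fun τ => Tw f D t τ / τ) (Set.Ioi x) := fun D B hD =>
    ((c.thb f hF.ker).2.2 (fun I => D I * jac t I) B fun I => by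
      rw [norm_mul]
      exact (mul_le_of_le_one_right (norm_nonneg _) (norm_jac_le t I)).trans (hD I)).2.2.2
  rw [Lam, PAF1.main _ _ (eps k t * γ) (div_pos hF.pos hNt) hY hℓ (hi Ψ 1 hΨ) (hi Ct A hF.bd)
    fun τ hτ => by rw [hF.fe t ht τ hτ, div_div, mul_comm τ], div_mul_eq_mul_div c₀]

end Pool.Agent.P.MP_b8021b_nt.BP
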