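import Pool.Agent.P.MP_b8021b_nt.BP.StC
import Pool.Agent.P.MP_b8021b_nt.BS.PThB

/-! Interchange of the sum and the integral, and the truncation. -/

namespace Pool.Agent.P.MP_b8021b_nt.BP

open NumberField IsDedekindDomain Finset MeasureTheory
open Pool.Agent.P.MP_b8021b_nt.VE Pool.Agent.P.MP_b8021b_nt.VC Pool.Agent.P.MP_b8021b_nt.BS.CF
open Pool.Agent.P.MP_b8021b_nt.BS
open scoped Classical ComplexConjugate Real
variable {k : Type} [Field k] [NumberField k] [Algebra k ℂ] {K : Type} [Field K] [NumberField K] [Algebra k K]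

namespace PAF2

variable {f : ℝ → ℝ} {ℓ Y y z ρ : ℝ}

/-- the integrand -/
noncomputable def g (f : ℝ → ℝ) (ℓ Y y z : ℝ) : ℝ := St (Real.log (y / (z * Y)) / ℓ) * f z

theorem meas_g (hf : Ker f) : Measurable (g f ℓ Y y) :=
  (continuous_St.measurable.comp (by fun_prop)).mul hf.meas

theorem g_nonneg (hf : Ker f) (hz : 0 < z) : 0 ≤ g f ℓ Y y z :=
  mul_nonneg (St_nonneg _) (hf.pos z hz).le

theorem g_zero (hℓ : 0 < ℓ) (hY : 0 < Y) (hz : 0 < z) (h : z ≤ y / (Y * Real.exp ℓ)) :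
    g f ℓ Y y z = 0 := by
  rw [g, St_log hℓ, zero_mul]
  rw [le_div_iff₀ (by positivity)] at h ⊢
  linarith

theorem tail (hf : Ker f) {a b C : ℝ} (ha : 0 ≤ a) (hb : 0 < b) (hC : 0 ≤ C)
    (h1 : ∀ z, a < z → f z ≤ C * z ^ (-3 : ℝ)) (h2 : ∀ z, a < z → z ≤ b → g f ℓ Y y z = 0) :
    IntegrableOn (g f ℓ Y y) (Set.Ioi a) ∧ ∫ z in Set.Ioi a, g f ℓ Y y z ≤ C * b ^ (-2 : ℝ) := by
  have hi : IntegrableOn (fun z : ℝ => C * z ^ (-3 : ℝ)) (Set.Ioi b) :=
    (integrableOn_Ioi_rpow_of_lt (by norm_num) hb).const_mul C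
  have hG : Integrable ((Set.Ioi b).indicator fun z : ℝ => C * z ^ (-3 : ℝ)) :=
    (integrable_indicator_iff measurableSet_Ioi).2 hi
  have hle : ∀ z ∈ Set.Ioi a,
      g f ℓ Y y z ≤ (Set.Ioi b).indicator (fun z : ℝ => C * z ^ (-3 : ℝ)) z := fun z hz => by
    by_cases h : z ∈ Set.Ioi b
    · rw [Set.indicator_of_mem h]
      exact (mul_le_of_le_one_left (hf.pos z (ha.trans_lt hz)).le (St_le_one _)).trans (h1 z hz)
    · rw [Set.indicator_of_notMem h, h2 z hz (not_lt.1 h)]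
  have hint : IntegrableOn (g f ℓ Y y) (Set.Ioi a) :=
    Integrable.mono' hG.integrableOn (meas_g hf).aestronglyMeasurable
      ((ae_restrict_iff' measurableSet_Ioi).2 (ae_of_all _ fun z hz => by
        rw [Real.norm_of_nonneg (g_nonneg hf (ha.trans_lt hz))]; exact hle z hz))
  refine ⟨hint, (setIntegral_mono_on hint hG.integrableOn measurableSet_Ioi hle).trans ?_⟩
  refine (setIntegral_le_integral hG (ae_of_all _ fun z =>
    Set.indicator_nonneg (fun x hx => ?_) z)).trans ?_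
  · have : 0 < x := hb.trans hx
    positivity
  rw [integral_indicator measurableSet_Ioi, integral_const_mul,
    integral_Ioi_rpow_of_lt (by norm_num) hb, show (-3 : ℝ) + 1 = -2 by norm_num]
  have : 0 ≤ b ^ (-2 : ℝ) := by positivity
  exact mul_le_mul_of_nonneg_left (by linarith) hC

theorem vf (hf : Ker f) : ∃ C : ℝ, 0 ≤ C ∧ ∀ ℓ Y y : ℝ, 0 < ℓ → 0 < Y → 0 < y →
    IntegrableOn (g f ℓ Y y) (Set.Ioi 0) ∧
      Vf f ℓ Y y ≤ C * (y / (Y * Real.exp ℓ)) ^ (-2 : ℝ) := by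
  obtain ⟨C, h0, hC⟩ := PThB.dec' hf (B := 3) (by norm_num)
  exact ⟨C, h0, fun ℓ Y y hℓ hY hy =>
    tail hf le_rfl (by positivity) h0 hC fun z hz h => g_zero hℓ hY hz h⟩

theorem vf_nonneg (hf : Ker f) : 0 ≤ Vf f ℓ Y y :=
  setIntegral_nonneg measurableSet_Ioi fun _ hz => g_nonneg hf hz

theorem vw (hf : Ker f) {A : ℝ} (hA : 0 < A) : ∃ C : ℝ, 0 ≤ C ∧ ∀ ℓ Y y : ℝ, 0 < ℓ → 0 < Y → 0 < y →
    |Vf f ℓ Y y - Vw f ℓ Y y| ≤
      C * Real.exp (-(A * ℓ)) * (max 1 (y / (Y * Real.exp ℓ))) ^ (-2 : ℝ) := by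
  obtain ⟨C, h0, hC⟩ := PThB.dec' hf (B := A + 3) (by linarith)
  obtain ⟨_, _, h1⟩ := vf hf
  refine ⟨C, h0, fun ℓ Y y hℓ hY hy => ?_⟩
  have hi := (h1 ℓ Y y hℓ hY hy).1
  have he := Real.exp_pos ℓ
  have e : Vf f ℓ Y y = Vw f ℓ Y y + ∫ z in Set.Ioi (Real.exp ℓ), g f ℓ Y y z := by
    have := setIntegral_union (μ := volume) (f := g f ℓ Y y) (Set.Ioc_disjoint_Ioi (b := Real.exp ℓ) le_rfl)
      measurableSet_Ioi (hi.mono_set fun _ h => h.1)
      (hi.mono_set (Set.Ioi_subset_Ioi he.le))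
    rwa [Set.Ioc_union_Ioi_eq_Ioi he.le] at this
  rw [e, add_sub_cancel_left,
    abs_of_nonneg (setIntegral_nonneg measurableSet_Ioi fun z hz => g_nonneg hf (he.trans hz))]
  refine (tail hf he.le (one_pos.trans_le (le_max_left _ _)) (by positivity) (fun z hz => ?_)
    fun z hz h => ?_).2
  · have hz0 := he.trans hz
    refine (hC z hz0).trans ?_
    rw [neg_add, Real.rpow_add hz0, ← mul_assoc]
    gcongr
    rw [show -(A * ℓ) = ℓ * -A by ring, Real.exp_mul]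
    exact Real.rpow_le_rpow_of_nonpos he hz.le (by linarith)
  · have h1 : 1 < z := (Real.one_le_exp hℓ.le).trans_lt hz
    exact g_zero hℓ hY (he.trans hz) ((le_max_iff.1 h).resolve_left (not_le.2 h1))

theorem vw_zero (hℓ : 0 < ℓ) (hY : 0 < Y) (h : Y * Real.exp (2 * ℓ) ≤ y) : Vw f ℓ Y y = 0 := by
  refine setIntegral_eq_zero_of_forall_eq_zero fun z hz => g_zero hℓ hY hz.1 (hz.2.trans ?_)
  rw [le_div_iff₀ (by positivity)]
  rw [two_mul, Real.exp_add] at h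
  linarith

theorem sc (hf : Ker f) (hρ : 0 < ρ) (hY : 0 < Y) (hℓ : 0 < ℓ) {N : ℝ} (hN : 0 ≤ N) :
    IntegrableOn (fun τ => √N * g f ℓ Y (ρ * N) (N * τ)) (Set.Ioi 0) ∧
      ∫ τ in Set.Ioi 0, √N * g f ℓ Y (ρ * N) (N * τ) = Vf f ℓ Y (ρ * N) / √N := by
  rcases hN.eq_or_lt with rfl | hN
  · simp
  obtain ⟨_, _, h1⟩ := vf hf
  have hi := (h1 ℓ Y (ρ * N) hℓ hY (by positivity)).1
  have h2 := (integrableOn_Ioi_comp_mul_left_iff (g f ℓ Y (ρ * N)) 0 hN).2 (by rwa [mul_zero])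
  refine ⟨Integrable.const_mul h2 _, ?_⟩
  rw [integral_const_mul, integral_comp_mul_left_Ioi _ 0 hN, mul_zero, smul_eq_mul, ← mul_assoc,
    ← div_eq_mul_inv, Real.sqrt_div_self', one_div, mul_comm, ← div_eq_mul_inv]
  rfl

theorem NN_bot : NN (⊥ : Ideal (𝓞 K)) = 0 := by simp [NN]

theorem sumq (hc : X_Cnt K) : ∃ C : ℝ, 1 ≤ C ∧ ∀ (w : ℝ) (s : Finset (Ideal (𝓞 K))), 0 < w →
    (∀ I ∈ s, I ≠ ⊥) → ∑ I ∈ s, (max 1 (NN I / w)) ^ (-2 : ℝ) ≤ C * w := by
  obtain ⟨C₁, h1, hC₁⟩ := hc.1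
  obtain ⟨C₂, h2, hC₂⟩ := (hc.2 2 one_lt_two).2
  refine ⟨C₁ + C₂, by linarith, fun w s hw hs => ?_⟩
  rw [← sum_filter_add_sum_filter_not s fun I => NN I ≤ w, add_mul]
  refine add_le_add ((sum_le_card_nsmul _ _ 1 fun I _ =>
    Real.rpow_le_one_of_one_le_of_nonpos (le_max_left _ _) (by norm_num)).trans ?_) ?_
  · rw [nsmul_eq_mul, mul_one]
    exact hC₁ w _ hw.le fun I hI => ⟨hs I (mem_filter.1 hI).1, (mem_filter.1 hI).2⟩
  have h3 := hC₂ (max 1 w) (s.filter fun I => ¬ NN I ≤ w) (le_max_left _ _) fun I hI =>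
    max_le (one_le_NN (hs I (mem_filter.1 hI).1)) (not_le.1 (mem_filter.1 hI).2).le
  have h4 : ∀ I ∈ s.filter fun I => ¬ NN I ≤ w,
      (max 1 (NN I / w)) ^ (-2 : ℝ) ≤ w ^ 2 * NN I ^ (-2 : ℝ) := fun I hI => by
    have hN := NN_pos (hs I (mem_filter.1 hI).1)
    refine (Real.rpow_le_rpow_of_nonpos (by positivity) (le_max_right _ _) (by norm_num)).trans_eq ?_
    rw [Real.div_rpow hN.le hw.le, Real.rpow_neg hw.le, Real.rpow_two, div_inv_eq_mul, mul_comm]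
  refine (sum_le_sum h4).trans ?_
  rw [← mul_sum]
  refine (mul_le_mul_of_nonneg_left h3 (by positivity)).trans ?_
  rw [show (1 : ℝ) - 2 = -1 by norm_num, Real.rpow_neg_one]
  calc w ^ 2 * (C₂ * (max 1 w)⁻¹) ≤ w ^ 2 * (C₂ * w⁻¹) := by gcongr; exact le_max_right _ _
    _ = C₂ * w := by field_simp

end PAF2

open PAF2

theorem y_aF2a (c : Cx k K) : Y_AF2a K := by
  intro f D A₀ ρ Y ℓ hf hD hρ hY hℓ
  have := PThB.cnt_ideal (K := K)
  have hA : 0 ≤ A₀ := (norm_nonneg _).trans (hD ⊥)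
  have hs := fun I : Ideal (𝓞 K) => sc hf hρ hY hℓ (N := NN I) (Nat.cast_nonneg _)
  obtain ⟨C, h0, hC⟩ := vf hf
  have h := hasSum_integral_of_summable_integral_norm (μ := volume.restrict (Set.Ioi (0 : ℝ)))
    (F := fun (I : Ideal (𝓞 K)) τ => D I * (√(NN I) * g f ℓ Y (ρ * NN I) (NN I * τ) : ℝ))
    (fun I => (hs I).1.ofReal.const_mul _) (by
      refine Summable.of_nonneg_of_le (fun I => integral_nonneg fun _ => norm_nonneg _) (fun I => ?_)
        (((c.cnt.2 2 one_lt_two).1).mul_left (A₀ * (C * (ρ / (Y * Real.exp ℓ)) ^ (-2 : ℝ))))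
      rw [setIntegral_congr_fun measurableSet_Ioi
        (g := fun τ => ‖D I‖ * (√(NN I) * g f ℓ Y (ρ * NN I) (NN I * τ))) fun τ hτ => ?_,
        integral_const_mul, (hs I).2]
      · by_cases hI : I = ⊥
        · simp [hI, NN_bot]
        have hN := NN_pos hI
        have h1 := (hC ℓ Y (ρ * NN I) hℓ hY (by positivity)).2
        rw [mul_div_right_comm, Real.mul_rpow (by positivity) hN.le, ← mul_assoc] at h1
        rw [mul_assoc]
        exact mul_le_mul (hD I) ((div_le_self (vf_nonneg hf)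
          (Real.one_le_sqrt.2 (one_le_NN hI))).trans h1) (div_nonneg (vf_nonneg hf) (by positivity)) hA
      · by_cases hI : I = ⊥
        · simp [hI, NN_bot]
        have hN := NN_pos hI
        have : 0 < NN I * τ := mul_pos hN hτ
        simp only [norm_mul (D I), Complex.norm_real]
        rw [Real.norm_of_nonneg (mul_nonneg (by positivity) (g_nonneg hf this))])
  refine (congrArg₂ (HasSum · ·) (funext fun I => ?_) ?_).mp h
  · rw [integral_const_mul, integral_complex_ofReal, (hs I).2, Complex.ofReal_div, mul_div_assoc]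
  · refine (setIntegral_congr_fun measurableSet_Ioi fun τ hτ => ?_).symm
    have hτ' : (τ : ℂ) ≠ 0 := Complex.ofReal_ne_zero.2 (ne_of_gt hτ)
    simp only [Th]
    rw [← tsum_mul_left, ← tsum_div_const]
    refine tsum_congr fun I => ?_
    by_cases hI : I = ⊥
    · simp [hI, NN_bot]
    have hN := (NN_pos hI).ne'
    rw [g, show ρ * NN I / (NN I * τ * Y) = ρ / (τ * Y) by field_simp, mul_comm (NN I) τ]
    push_cast
    field_simp

theorem y_aF2 (c : Cx k K) (hAF2a : Y_AF2a K) : Y_AF2 K := by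
  intro f A hf hA
  obtain ⟨C, h0, hC⟩ := vw hf hA
  obtain ⟨C', h1, hC'⟩ := sumq c.cnt
  refine ⟨(C + 1) * C', by nlinarith, fun D A₀ ρ Y ℓ Z hD hρ hY hℓ hZ => ?_⟩
  have hA₀ : 0 ≤ A₀ := (norm_nonneg _).trans (hD ⊥)
  have hb : HasSum (fun I => D I * (Vw f ℓ Y (ρ * NN I) : ℝ) / (√(NN I) : ℝ))
      (∑ I ∈ ids K Z, D I * (Vw f ℓ Y (ρ * NN I) : ℝ) / (√(NN I) : ℝ)) :=
    hasSum_sum_of_ne_finset_zero fun I hI => by
      by_cases h : I = ⊥
      · simp [h, NN_bot]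
      have : Z ≤ NN I := (not_le.1 fun h' => hI (mem_ids.2 ⟨h, h'⟩)).le
      rw [vw_zero hℓ hY (hZ.trans (by gcongr))]
      simp
  have h := (hAF2a f D A₀ ρ Y ℓ hf hD hρ hY hℓ).sub hb
  refine le_of_tendsto' h.norm fun s => ?_
  set w := Y * Real.exp ℓ / ρ with hw
  have hw0 : 0 < w := by positivity
  rw [← sum_filter_of_ne (p := fun I => I ≠ ⊥) fun I _ h h' => h (by simp [h', NN_bot])]
  refine (norm_sum_le_of_le _ (n := fun I => A₀ * (C * Real.exp (-(A * ℓ))) *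
    (max 1 (NN I / w)) ^ (-2 : ℝ)) fun I hI => ?_).trans ?_
  · have hI := (mem_filter.1 hI).2
    have hN := NN_pos hI
    have h2 := hC ℓ Y (ρ * NN I) hℓ hY (by positivity)
    rw [show ρ * NN I / (Y * Real.exp ℓ) = NN I / w by rw [hw]; field_simp] at h2
    rw [← sub_div, ← mul_sub, ← Complex.ofReal_sub, norm_div, norm_mul, Complex.norm_real,
      Complex.norm_real, Real.norm_of_nonneg (Real.sqrt_nonneg _), Real.norm_eq_abs, mul_assoc]
    exact (div_le_self (by positivity) (Real.one_le_sqrt.2 (one_le_NN hI))).trans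
      (mul_le_mul (hD I) h2 (abs_nonneg _) hA₀)
  rw [← mul_sum]
  calc _ ≤ A₀ * ((C + 1) * Real.exp (-(A * ℓ))) * (C' * w) := by
        refine mul_le_mul (by gcongr; linarith) (hC' w _ hw0 fun I hI => (mem_filter.1 hI).2)
          (sum_nonneg fun I _ => by positivity) (by positivity)
    _ = _ := by ring

end Pool.Agent.P.MP_b8021b_nt.BP
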