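import Pool.Agent.P.MP_b8021b_nt.BP.StC

/-! Two decompositions of sums over ideals. -/

namespace Pool.Agent.P.MP_b8021b_nt.BP

open NumberField IsDedekindDomain Finset MeasureTheory
open Pool.Agent.P.MP_b8021b_nt.VE Pool.Agent.P.MP_b8021b_nt.VC Pool.Agent.P.MP_b8021b_nt.BS.CF
open Pool.Agent.P.MP_b8021b_nt.BS
open scoped Classical ComplexConjugate Real

variable {k : Type} [Field k] [NumberField k] [Algebra k ℂ] {K : Type} [Field K] [NumberField K]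
  [Algebra k K]

namespace PAF3

theorem sum_param {α : Type} {T : Finset α} {m : α → Ideal (𝓞 K)} {G : Ideal (𝓞 K) → ℂ} {Z : ℝ}
    (hG : ∀ I, Z < NN I → G I = 0) (hi : Set.InjOn m T) (h0 : ∀ a ∈ T, m a ≠ ⊥)
    (hs : ∀ I ∈ ids K Z, ∃ a ∈ T, m a = I) : ∑ I ∈ ids K Z, G I = ∑ a ∈ T, G (m a) := by
  rw [← sum_image hi]
  refine sum_subset (fun I hI => mem_image.2 (hs I hI)) fun I hI hn => hG I (not_le.1 fun e => ?_)
  obtain ⟨a, ha, rfl⟩ := mem_image.1 hI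
  exact hn (mem_ids.2 ⟨h0 a ha, e⟩)

theorem mem_of_dvd {I J : Ideal (𝓞 K)} {Z : ℝ} (hI : I ∈ ids K Z) (h : J ∣ I) : J ∈ ids K Z :=
  mem_ids.2 ⟨ne_zero_of_dvd_ne_zero (mem_ids.1 hI).1 h,
    (NN_le_of_le (mem_ids.1 hI).1 (Ideal.dvd_iff_le.1 h)).trans (mem_ids.1 hI).2⟩

theorem ex_split (n : ℕ) (I : Ideal (𝓞 K)) (hI : I ≠ ⊥) :
    ∃ A B : Ideal (𝓞 K), (∀ w : Pl K, A ≤ w.asIdeal → Dv n w) ∧ Cop n B ∧ A * B = I := by
  refine ideal_induction (P := fun I => ∃ A B : Ideal (𝓞 K),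
    (∀ w : Pl K, A ≤ w.asIdeal → Dv n w) ∧ Cop n B ∧ A * B = I)
    ⟨⊤, 1, fun w h => h Submodule.mem_top, isCoprime_one_left, mul_one _⟩ ?_ I hI
  rintro v _ - ⟨A, B, hA, hB, rfl⟩
  by_cases h : Dv n v
  · exact ⟨v.asIdeal * A, B, fun w e => (w.isPrime.mul_le.1 e).elim (fun l => l h) (hA w), hB,
      mul_assoc _ _ _⟩
  · exact ⟨A, v.asIdeal * B, hA, IsCoprime.mul_left ((cop_prime_iff v).2 h) hB, mul_left_comm _ _ _⟩

end PAF3

open PAF3 in
theorem y_aF3 (c : Cx k K) : Y_AF3 K := by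
  intro n χ D t W Z hn hχ hD ht hW
  have cop : ∀ A ∈ sm K n Z, ∀ B ∈ (ids K Z).filter (Cop n), IsCoprime A B := fun A hA B hB => by
    obtain ⟨a1, a2⟩ := mem_filter.1 hA
    obtain ⟨b1, b2⟩ := mem_filter.1 hB
    exact (isCoprime_iff (mem_ids.1 a1).1 (mem_ids.1 b1).1).2 (disjoint_left.2 fun v hv hv' =>
      (cop_iff hn (mem_ids.1 b1).1).1 b2 v hv' (a2 v hv))
  rw [sum_param (T := sm K n Z ×ˢ (ids K Z).filter (Cop n)) (m := fun x => x.1 * x.2)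
    (fun I h => by rw [hW _ h.le, mul_zero, zero_div]), sum_product]
  · refine sum_congr rfl fun I hI => ?_
    obtain ⟨a1, a2⟩ := mem_filter.1 hI
    have a0 := (mem_ids.1 a1).1
    have j1 : jac t I = 1 := jac_eq_one a0 fun v hv =>
      v.asIdeal.mem_of_dvd ht (a2 v ((mem_prI a0).2 hv))
    rw [Aw, mul_sum, sum_filter]
    refine sum_congr rfl fun J _ => ?_
    split_ifs with h
    · rw [hD I J h, jac_mul_right, j1, sg_leg, NN_mul, Real.sqrt_mul (Nat.cast_nonneg _),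
        Complex.ofReal_mul]
      ring
    · simp [hχ J h]
  · rintro ⟨A, B⟩ h ⟨A', B'⟩ h' (e : A * B = A' * B')
    obtain ⟨hA, hB⟩ := mem_product.1 (mem_coe.1 h)
    obtain ⟨hA', hB'⟩ := mem_product.1 (mem_coe.1 h')
    obtain rfl : A = A' := associated_iff_eq.1 (associated_of_dvd_dvd
      ((cop A hA B' hB').dvd_of_dvd_mul_right (e ▸ dvd_mul_right A B))
      ((cop A' hA' B hB).dvd_of_dvd_mul_right (e ▸ dvd_mul_right A' B')))
    rw [mul_left_cancel₀ (mem_ids.1 (mem_filter.1 hA).1).1 e]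
  · intro x h
    obtain ⟨hA, hB⟩ := mem_product.1 h
    exact mul_ne_zero (mem_ids.1 (mem_filter.1 hA).1).1 (mem_ids.1 (mem_filter.1 hB).1).1
  · intro I hI
    obtain ⟨A, B, hA, hB, rfl⟩ := ex_split n I (mem_ids.1 hI).1
    have a1 := mem_of_dvd hI (dvd_mul_right A B)
    exact ⟨(A, B), mem_product.2 ⟨mem_filter.2 ⟨a1, fun v hv =>
      hA v ((mem_prI (mem_ids.1 a1).1).1 hv)⟩,
      mem_filter.2 ⟨mem_of_dvd hI (dvd_mul_left B A), hB⟩⟩, rfl⟩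

open PAF3 in
theorem y_iS1 (c : Cx k K) : Y_IS1 K := by
  intro G 𝔟 Z hb hG
  have key : ∀ L ∈ ids K Z, ∀ a ∈ (prI (𝔟 * L)).powerset,
      ∀ J ∈ (ids K Z).filter (fun J => Squarefree J ∧ IsCoprime J (𝔟 * L)),
      Squarefree (eI a * J) ∧ prI (eI a * J) ∩ prI (𝔟 * L) = a := fun L hL a ha J hJ => by
    obtain ⟨j1, j2, j3⟩ := mem_filter.1 hJ
    have j0 := (mem_ids.1 j1).1
    have d := (isCoprime_iff j0 (mul_ne_zero hb (mem_ids.1 hL).1)).1 j3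
    have s := mem_powerset.1 ha
    refine ⟨squarefree_mul_iff.2 ⟨((isCoprime_iff (eI_ne_bot a) j0).2 ?_).isRelPrime,
      squarefree_eI a, j2⟩, ?_⟩
    · rw [prI_eI]
      exact (d.mono_right s).symm
    · rw [prI_mul (eI_ne_bot a) j0, prI_eI, union_inter_distrib_right, inter_eq_left.2 s,
        disjoint_iff_inter_eq_empty.1 d, union_empty]
  rw [sum_param (T := (ids K Z).sigma fun L => (prI (𝔟 * L)).powerset ×ˢ
    (ids K Z).filter (fun J => Squarefree J ∧ IsCoprime J (𝔟 * L)))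
    (m := fun x => eI x.2.1 * x.1 ^ 2 * x.2.2) hG, sum_sigma]
  · exact sum_congr rfl fun L _ => sum_product _ _ _
  · rintro ⟨L, a, J⟩ h ⟨L', a', J'⟩ h' (e : eI a * L ^ 2 * J = eI a' * L' ^ 2 * J')
    obtain ⟨hL, h⟩ := mem_sigma.1 (mem_coe.1 h)
    obtain ⟨hL', h'⟩ := mem_sigma.1 (mem_coe.1 h')
    obtain ⟨k1, k2⟩ := key L hL a (mem_product.1 h).1 J (mem_product.1 h).2
    obtain ⟨k3, k4⟩ := key L' hL' a' (mem_product.1 h').1 J' (mem_product.1 h').2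
    obtain ⟨e1, rfl⟩ := PDec.uniq_dec k1 k3 (mem_ids.1 hL).1 (mem_ids.1 hL').1
      (by rw [mul_right_comm, e, mul_right_comm])
    obtain rfl : a = a' := by rw [← k2, e1, k4]
    rw [mul_left_cancel₀ (eI_ne_bot a) e1]
  · intro x h
    obtain ⟨hL, h⟩ := mem_sigma.1 h
    exact mul_ne_zero (mul_ne_zero (eI_ne_bot _) (pow_ne_zero 2 (mem_ids.1 hL).1))
      (mem_ids.1 (mem_filter.1 (mem_product.1 h).2).1).1
  · intro I hI
    obtain ⟨N, L, hN, hL, rfl⟩ := PDec.ex_dec I (mem_ids.1 hI).1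
    have e : eI (prI N ∩ prI (𝔟 * L)) * eI (prI N \ prI (𝔟 * L)) = N := by
      rw [eI, eI, prod_inter_mul_prod_sdiff]
      exact eI_prI hN
    refine ⟨⟨L, prI N ∩ prI (𝔟 * L), eI (prI N \ prI (𝔟 * L))⟩, mem_sigma.2
      ⟨mem_of_dvd hI ((dvd_pow_self L two_ne_zero).mul_left N), mem_product.2
        ⟨mem_powerset.2 inter_subset_right, mem_filter.2
          ⟨mem_of_dvd hI ((Dvd.intro_left _ e).mul_right _), squarefree_eI _,
            (isCoprime_iff (eI_ne_bot _) (mul_ne_zero hb hL)).2 ?_⟩⟩⟩, ?_⟩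
    · rw [prI_eI]
      exact sdiff_disjoint
    · change _ * L ^ 2 * _ = _
      rw [mul_right_comm, e]

end Pool.Agent.P.MP_b8021b_nt.BP
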