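import Pool.Agent.P.MP_b8021b_nt.BP.StC

/-! The approximate functional equation. -/

namespace Pool.Agent.P.MP_b8021b_nt.BP

open NumberField IsDedekindDomain Finset MeasureTheory
open Pool.Agent.P.MP_b8021b_nt.VE Pool.Agent.P.MP_b8021b_nt.VC Pool.Agent.P.MP_b8021b_nt.BS.CF
open Pool.Agent.P.MP_b8021b_nt.BS
open scoped Classical ComplexConjugate Real

variable {k : Type} [Field k] [NumberField k] [Algebra k ℂ] {K : Type} [Field K] [NumberField K]
  [Algebra k K]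

theorem y_aFE (c : Cx k K) (hFI : Y_FI) (hVW : Y_VW) (hAF1 : Y_AF1 k K) (hAF2 : Y_AF2 K)
    (hAF3 : Y_AF3 K) : Y_AFE k K := by
  intro n Ψ f Ct γ c₀ A hn hΨ hF
  obtain ⟨h, hh⟩ := hFI
  obtain ⟨_, -, hV⟩ := hVW h f hh hF.ker
  have hla := c.la_pos
  have hc := hF.pos
  have hA : 0 ≤ A := (norm_nonneg _).trans (hF.bd ⊤)
  obtain ⟨C, hC, h2⟩ := hAF2 f (2 / la k K) hF.ker (by positivity)
  obtain ⟨X₀, h3, hX₀⟩ := c.ev_el (max 1 (-Real.log c₀))
  refine ⟨C + ‖γ‖ * (C * A / c₀), X₀, le_add_of_le_of_nonneg hC (by positivity),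
    fun X hX t ht hN => ?_⟩
  have hX0 : 0 < X := by linarith
  have hl : 0 < el k K X := one_pos.trans_le (le_of_max_le_left (hX₀ X hX))
  have hY := c.Y0_pos hX0
  have hY1 : 1 ≤ Y0 k K X := by
    rw [c.Y0_eq hX0]
    exact Real.one_le_rpow (by linarith) (by linarith [c.et_eq, c.et_le])
  have hNt : 0 < NN (sp t) := NN_pos (by simpa using ht.ne_zero)
  have h4 : Y0 k K X * Real.exp (el k K X) ≤ X := by
    refine le_trans ?_ (c.Y0_sq hX0).le
    rw [sq, mul_assoc]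
    exact le_mul_of_one_le_left (by positivity) hY1
  have h5 : Real.exp (-(2 / la k K * el k K X)) = (X * X)⁻¹ := by
    rw [← neg_mul, c.exp_el hX0, neg_mul, div_mul_cancel₀ _ hla.ne', Real.rpow_neg hX0.le,
      Real.rpow_two, sq]
  obtain ⟨ρ, hρ⟩ : ∃ ρ, ρ = c₀ * X / NN (sp t) := ⟨_, rfl⟩
  have h6 : c₀ ≤ ρ := by
    rw [hρ, le_div_iff₀ hNt]
    exact mul_le_mul_of_nonneg_left hN hc.le
  have hρ0 : 0 < ρ := hc.trans_le h6
  have h7 : ∀ r, Real.exp (-(2 * el k K X)) ≤ r →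
      Y0 k K X * Real.exp (2 * el k K X) ≤ r * ZZ k K X := fun r hr => by
    refine le_trans (le_of_eq ?_) (mul_le_mul_of_nonneg_right hr (by rw [ZZ]; positivity))
    rw [ZZ, mul_left_comm, ← Real.exp_add]
    congr 2
    ring
  have h8 := h7 1 (Real.exp_le_one_iff.2 (by linarith))
  have h9 := h7 ρ (le_trans ((Real.le_log_iff_exp_le hc).1
    (by linarith [le_of_max_le_right (hX₀ X hX)])) h6)
  have e1 := h2 (fun I => Ψ I * jac t I) 1 1 _ _ _ (fun I => by
    rw [norm_mul]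
    exact mul_le_one₀ (hΨ.norm_le I) (norm_nonneg _) (norm_jac_le t I)) one_pos hY hl h8
  have e2 := h2 (fun I => Ct I * jac t I) A ρ _ _ _ (fun I => by
    rw [norm_mul]
    exact (mul_le_of_le_one_right (norm_nonneg _) (norm_jac_le t I)).trans (hF.bd I)) hρ0 hY hl h9
  have e3 := hAF3 n (cj Ψ) Ct t (fun y => Vw f (el k K X) (Y0 k K X) (ρ * y)) (ZZ k K X) hn.pos
    (fun I hI => by
      change conj (Ψ I) = 0
      rw [hΨ.zero I hI, map_zero]) hF.cov (ht.mono (dvd_pow_self n two_ne_zero)).1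
    fun y hy => by
      rw [(hV.2 _ _ hl hY).2.2.2.1 _ (h9.trans (mul_le_mul_of_nonneg_left hy hρ0.le)),
        Complex.ofReal_zero]
  have e4 : ∀ (I : Ideal (𝓞 K)) (y : ℝ), ρ * (NN I * y) = c₀ * NN I * X / NN (sp t) * y :=
    fun I y => by rw [hρ]; ring
  simp only [e4] at e3
  rw [e3] at e2
  rw [h5] at e1 e2
  rw [hAF1 n Ψ f Ct γ c₀ A _ _ t hΨ.norm_le hF hl hY ht, c.Y0_sq hX0, ← hρ, AB, add_sub_add_comm,
    ← mul_sub, add_div]
  refine (norm_add_le _ _).trans (add_le_add (e1.trans ?_) ?_)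
  · rw [mul_one, div_one, le_div_iff₀ hX0]
    refine le_trans (le_of_eq ?_) (mul_le_of_le_one_right (by linarith) ((div_le_one hX0).2 h4))
    field_simp
  · rw [norm_mul, norm_mul, ((c.g3 n hn).1 t (ht.mono (dvd_pow_self n two_ne_zero))).1, one_mul,
      mul_div_assoc]
    refine mul_le_mul_of_nonneg_left (e2.trans ?_) (norm_nonneg _)
    refine (mul_le_mul_of_nonneg_right (mul_le_mul_of_nonneg_left
      (div_le_div₀ hX0.le h4 hc h6) (by positivity)) (by positivity)).trans (le_of_eq ?_)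
    field_simp

end Pool.Agent.P.MP_b8021b_nt.BP
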