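import Pool.Agent.P.MP_b8021b_nt.BP.StC

/-! Auxiliary inert primes and balanced generators. -/

namespace Pool.Agent.P.MP_b8021b_nt.BP

open NumberField IsDedekindDomain Finset MeasureTheory
open Pool.Agent.P.MP_b8021b_nt.VE Pool.Agent.P.MP_b8021b_nt.VC Pool.Agent.P.MP_b8021b_nt.BS.CF
open Pool.Agent.P.MP_b8021b_nt.BS
open scoped Classical ComplexConjugate Real
variable {k : Type} [Field k] [NumberField k] [Algebra k ℂ] {K : Type} [Field K] [NumberField K] [Algebra k K]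

namespace PAUX

theorem stage (hREP : Y_REP K) {ζ : K} {N : ℕ} (hN : 2 ≤ N) (h2 : 2 ∣ N)
    (η : Ideal (𝓞 K) →* ℂ) (hp : ∀ α : 𝓞 K, (N : 𝓞 K) ∣ α - 1 → η (sp α) = 1)
    (hv : ∀ v : Pl K, ¬ Dv 2 v → η v.asIdeal = if LP 2 v ζ then 1 else -1)
    (v₀ : Pl K) (h0 : ¬ Dv N v₀) (h0' : ¬ LP 2 v₀ ζ) (W : ℝ) :
    ∃ 𝒜 : Finset (Pl K), (∀ v ∈ 𝒜, Ins ζ v ∧ ¬ Dv N v ∧ W < nv v) ∧ ∀ I, Cop N I →
      ∃ a ⊆ 𝒜, a.card ≤ 2 ∧ ∃ γ : 𝓞 K, (N : 𝓞 K) ∣ γ - 1 ∧ sp γ = I * eI a := by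
  have odd : ∀ v : Pl K, ¬ Dv N v → ¬ Dv 2 v := fun v h e => h (e.of_dvd h2)
  have key : ∀ (I : Ideal (𝓞 K)) (v : Pl K) (γ : 𝓞 K), η I = -1 → ¬ Dv N v →
      (N : 𝓞 K) ∣ γ - 1 → I * v.asIdeal = sp γ → Ins ζ v := by
    intro I v γ hI h hγ e
    refine ⟨odd v h, fun hl => ?_⟩
    have := hp γ hγ
    rw [← e, map_mul, hI, hv v (odd v h), if_pos hl] at this
    norm_num at this
  have neg : ∀ v : Pl K, Ins ζ v → η v.asIdeal = -1 := fun v h => by rw [hv v h.1, if_neg h.2]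
  obtain ⟨ℛ, r1, r2, -⟩ := hREP N W hN
  obtain ⟨ℛ', s1, s2, -⟩ := hREP N (|W| + ∑ v ∈ ℛ, nv v) hN
  obtain ⟨p, ⟨p1, γ₀, p2, p3⟩, -⟩ := s1 _ ((cop_prime_iff v₀).2 h0)
  have p4 : Ins ζ p := key _ p γ₀ (neg v₀ ⟨odd _ h0, h0'⟩) (s2 p p1).1 p2 p3
  have hs : 0 ≤ ∑ v ∈ ℛ, nv v := sum_nonneg fun v _ => (nv_pos v).le
  have p5 : p ∉ ℛ := fun h => by
    have := single_le_sum (f := fun v : Pl K => nv v) (fun v _ => (nv_pos v).le) h
    linarith [(s2 p p1).2, abs_nonneg W]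
  refine ⟨insert p (ℛ.filter (Ins ζ)), fun v h => ?_, fun I hI => ?_⟩
  · rcases mem_insert.1 h with rfl | h
    · exact ⟨p4, (s2 v p1).1, by linarith [(s2 v p1).2, le_abs_self W]⟩
    · exact ⟨(mem_filter.1 h).2, r2 v (mem_filter.1 h).1⟩
  have pm : η I = 1 ∨ η I = -1 := by
    refine cop_induction (P := fun I => η I = 1 ∨ η I = -1) hN
      (Or.inl (by rw [← Ideal.one_eq_top, map_one])) (fun v J h _ ih => ?_) I hI
    rw [map_mul, hv v (odd v h)]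
    rcases ih with e | e <;> split_ifs <;> simp [e]
  rcases pm with e | e
  · obtain ⟨v, ⟨v1, γ, v2, v3⟩, -⟩ := r1 (I * p.asIdeal)
      (cop_mul.2 ⟨hI, (cop_prime_iff p).2 (s2 p p1).1⟩)
    have v4 := key _ v γ (by rw [map_mul, e, neg p p4, one_mul]) (r2 v v1).1 v2 v3
    have v5 : p ∉ ({v} : Finset (Pl K)) := fun h => p5 (mem_singleton.1 h ▸ v1)
    refine ⟨insert p {v}, insert_subset_insert _ (singleton_subset_iff.2 (mem_filter.2 ⟨v1, v4⟩)),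
      card_le_two, γ, v2, ?_⟩
    rw [eI_insert v5, ← v3, mul_assoc, eI, prod_singleton]
  · obtain ⟨v, ⟨v1, γ, v2, v3⟩, -⟩ := r1 I hI
    refine ⟨{v}, singleton_subset_iff.2 (mem_insert_of_mem
      (mem_filter.2 ⟨v1, key I v γ e (r2 v v1).1 v2 v3⟩)), by simp, γ, v2, ?_⟩
    rw [← v3, eI, prod_singleton]

end PAUX

theorem y_aUX (c : Cx k K) (hREP : Y_REP K) : Y_AUX k K := by
  intro ζ hζ
  have z0 : ζ ≠ 0 := fun e => hζ.ns (e ▸ IsSquare.zero)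
  have ns : ¬ ∃ z : K, ζ = z ^ 2 := fun ⟨z, e⟩ => hζ.ns ⟨z, by rw [e, sq]⟩
  obtain ⟨j, η, j1, hη, hv, -⟩ := c.lib.chi K 2 ζ c.om le_rfl dvd_rfl z0
    (fun v _ => by rw [hζ.od v]; exact dvd_zero _)
  refine ⟨2 ^ j, by positivity, fun N hN h2 => ?_⟩
  have d2 : 2 ∣ N := (dvd_pow_self 2 (by omega)).trans hN
  obtain ⟨v₀, -, h0, h0'⟩ := c.lib.c1 K 2 N ζ c.om (Or.inl rfl) (by omega) ns
  choose F hF hG using PAUX.stage hREP h2 d2 η
    (fun α h => hη.prin α ((Nat.cast_dvd_cast hN).trans h)) hv v₀ h0 h0'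
  choose! a a1 a2 γ g1 g2 using hG
  obtain ⟨B, B1, hB⟩ := c.bal2 N (by omega)
  choose! u u1 u2 using hB
  let w : ℕ → ℝ := fun n => Nat.rec 1 (fun _ x => x + ∑ v ∈ F x, nv v) n
  have ws : ∀ n, w (n + 1) = w n + ∑ v ∈ F (w n), nv v := fun n => rfl
  have wm : Monotone w := monotone_nat_of_le_succ fun n => by
    rw [ws]; exact le_add_of_nonneg_right (sum_nonneg fun v _ => (nv_pos v).le)
  have w1 : ∀ n, 1 ≤ w n := fun n => wm (Nat.zero_le n)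
  have le : ∀ i j, i < j → ∀ v ∈ F (w i), nv v ≤ w j := fun i j h v hv => by
    have := single_le_sum (f := fun v : Pl K => nv v) (fun v _ => (nv_pos v).le) hv
    linarith [wm (Nat.succ_le_of_lt h), ws i, w1 i]
  have w3 : w 3 ≤ B * w 3 ^ 2 := by nlinarith [w1 3]
  refine ⟨fun i => F (w i), fun i => a (w i), fun i I => u (γ (w i) I) * γ (w i) I, B * w 3 ^ 2,
    (w1 3).trans w3, fun i v hv => ⟨(hF _ v hv).1, (hF _ v hv).2.1, (le i 3 i.2 v hv).trans w3⟩,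
    fun i j hij => ?_, fun i I hI => ?_⟩
  · refine disjoint_left.2 fun v h h' => ?_
    rcases lt_or_gt_of_ne hij with e | e
    · linarith [le i j e v h, (hF _ v h').2.2]
    · linarith [le j i e v h', (hF _ v h).2.2]
  have g0 : γ (w i) I ≠ 0 := fun e => not_unit_nat h2 (isUnit_of_dvd_one (by
    have := g1 (w i) I hI
    rwa [e, zero_sub, dvd_neg] at this))
  refine ⟨a1 _ I hI, a2 _ I hI, ?_, ?_, fun φ => ((u2 _ g0 φ).1).trans ?_⟩
  · rw [show (u (γ (w i) I) : 𝓞 K) * γ (w i) I - 1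
      = (u (γ (w i) I) - 1) * γ (w i) I + (γ (w i) I - 1) by ring]
    exact ((u1 _ g0).mul_right _).add (g1 _ I hI)
  · rw [← g2 _ I hI]
    exact Ideal.span_singleton_mul_left_unit (Units.isUnit _) _
  · have h1 : nS (a (w i) I) ≤ w 3 ^ 2 := by
      rw [nS_eq]
      refine (prod_le_prod (g := fun _ => w 3) (fun v _ => (nv_pos v).le)
        fun v hv => le i 3 i.2 v (a1 _ I hI hv)).trans ?_
      rw [prod_const]
      exact pow_le_pow_right₀ (w1 3) (a2 _ I hI)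
    have h3 : nS (a (w i) I) ^ (1 / rk k K) ≤ w 3 ^ 2 :=
      (Real.rpow_le_self_of_one_le (one_le_nS _) ((div_le_one (by linarith [c.one_le_rk])).2
        c.one_le_rk)).trans h1
    rw [g2 _ I hI, NN_mul, Real.mul_rpow (by positivity) (by positivity), mul_comm (NN I ^ _),
      ← mul_assoc]
    gcongr

end Pool.Agent.P.MP_b8021b_nt.BP
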