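import Pool.Agent.P.MP_b8021b_nt.BP.StC

/-! One bilinear block. -/

namespace Pool.Agent.P.MP_b8021b_nt.BP

open NumberField IsDedekindDomain Finset MeasureTheory
open Pool.Agent.P.MP_b8021b_nt.VE Pool.Agent.P.MP_b8021b_nt.VC Pool.Agent.P.MP_b8021b_nt.BS.CF
open Pool.Agent.P.MP_b8021b_nt.BS
open scoped Classical ComplexConjugate Real

variable {k : Type} [Field k] [NumberField k] [Algebra k ℂ] {K : Type} [Field K] [NumberField K]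
  [Algebra k K]

namespace PBB3

theorem norm_sq_le {α : Type} (s : Finset α) (c : α → ℂ) :
    ‖∑ p ∈ s, c p‖ ^ 2 ≤ s.card * ∑ p ∈ s, ‖c p‖ ^ 2 :=
  (pow_le_pow_left₀ (norm_nonneg _) (norm_sum_le _ _) 2).trans sq_sum_le_card_mul_sum_sq

theorem fib {α β : Type} (s : Finset α) (g : α → β) (c : α → ℂ) {F : ℝ}
    (h : ∀ p ∈ s, ((s.filter fun q => g q = g p).card : ℝ) ≤ F) :
    ∑ w ∈ s.image g, ‖∑ p ∈ s.filter fun p => g p = w, c p‖ ^ 2 ≤ F * ∑ p ∈ s, ‖c p‖ ^ 2 := by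
  rw [← sum_fiberwise_of_maps_to (fun p hp => mem_image_of_mem g hp), mul_sum]
  refine sum_le_sum fun w hw => (norm_sq_le _ _).trans ?_
  obtain ⟨p, hp, rfl⟩ := mem_image.1 hw
  exact mul_le_mul_of_nonneg_right (h p hp) (sum_nonneg fun _ _ => sq_nonneg _)

theorem sq_eq (T : Finset (𝓞 K)) (a : 𝓞 K → ℂ) (I : Ideal (𝓞 K)) :
    (∑ t ∈ T, a t * jac t I) ^ 2 = ∑ w ∈ (T ×ˢ T).image fun p => p.1 * p.2,
      (∑ p ∈ (T ×ˢ T).filter fun p => p.1 * p.2 = w, a p.1 * a p.2) * jac w I := by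
  rw [sq, sum_mul_sum, ← sum_product',
    ← sum_fiberwise_of_maps_to (fun p hp => mem_image_of_mem (fun p : 𝓞 K × 𝓞 K => p.1 * p.2) hp)]
  refine sum_congr rfl fun w _ => ?_
  rw [sum_mul]
  refine sum_congr rfl fun p hp => ?_
  rw [← (mem_filter.1 hp).2, jac_mul_left]
  ring

theorem ne_zero {n : ℕ} (hn : Good K n) {t : 𝓞 K} (ht : (n : 𝓞 K) ∣ t - 1) : t ≠ 0 := by
  obtain ⟨v, hv⟩ := exists_dv K (n := n) (le_trans (by norm_num)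
    (Nat.le_of_dvd (Nat.pos_of_ne_zero hn.pos) hn.eight))
  simpa using (lp_of_dvd hn.eight ht hv).ne_zero

theorem card_fib {T : Finset (𝓞 K)} (h0 : ∀ t ∈ T, t ≠ 0) (hi : Set.InjOn sp (T : Set (𝓞 K)))
    {w : 𝓞 K} (hw : w ≠ 0) :
    ((T ×ˢ T).filter fun q => q.1 * q.2 = w).card ≤ Set.ncard {J | J ∣ sp w} := by
  have hf : {J | J ∣ sp w}.Finite :=
    (Ideal.finite_setOfPred_absNorm_le (S := 𝓞 K) (Ideal.absNorm (sp w))).subset fun J hJ =>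
      Nat.cast_le.1 (NN_le_of_le (by simpa using hw) (Ideal.dvd_iff_le.1 hJ))
  rw [← Set.ncard_coe_finset]
  refine Set.ncard_le_ncard_of_injOn (fun q => sp q.1) (fun q hq => ?_) (fun q hq q' hq' e => ?_) hf
  · rw [← (mem_filter.1 hq).2, sp_mul]
    exact dvd_mul_right _ _
  · obtain ⟨h1, h2⟩ := mem_filter.1 hq
    obtain ⟨h3, h4⟩ := mem_filter.1 hq'
    have e1 : q.1 = q'.1 := hi (mem_product.1 h1).1 (mem_product.1 h3).1 e
    refine Prod.ext e1 (mul_left_cancel₀ (h0 _ (mem_product.1 h1).1) ?_)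
    rw [h2, e1, h4]

theorem root {S C P u : ℝ} (hS : 0 ≤ S) (hC : 1 ≤ C) (hP : 0 ≤ P) (hu : 0 < u)
    (h : S ^ 4 * u ^ 4 ≤ C * P ^ 2) : S ≤ C * √P * u⁻¹ := by
  rw [← div_eq_mul_inv, le_div_iff₀ hu]
  refine (pow_le_pow_iff_left₀ (by positivity) (by positivity) four_ne_zero).1 ?_
  rw [mul_pow, mul_pow, show √P ^ 4 = (√P ^ 2) ^ 2 by ring, Real.sq_sqrt hP]
  exact h.trans (mul_le_mul_of_nonneg_right (le_self_pow₀ hC four_ne_zero) (sq_nonneg _))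

theorem two {x : ℝ} (h0 : 0 ≤ x) (h1 : x ≤ 1) : 1 + x ^ (3 / 4 : ℝ) ≤ 2 := by
  linarith [Real.rpow_le_one h0 h1 (by norm_num : (0 : ℝ) ≤ 3 / 4)]

theorem le_rpow {x Y e : ℝ} (hY : 1 ≤ Y) (he : 0 ≤ e) (h : x ^ 2 ≤ Y) : x ≤ Y ^ (1 / 2 + e) :=
  (Real.le_sqrt_of_sq_le h).trans (by
    rw [Real.sqrt_eq_rpow]
    exact Real.rpow_le_rpow_of_exponent_le hY (by linarith))

end PBB3

open PBB3

theorem y_bB3 (c : Cx k K) (hDIV : Y_DIV K) : Y_BB3 k K := by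
  intro n C₀ hn
  obtain ⟨d1, CD, cd, pd⟩ := hDIV
  obtain ⟨CE, ce, pe⟩ := d1 1 (1 / 8) le_rfl (by norm_num)
  obtain ⟨C1, c1, p1⟩ := c.ls1 n hn C₀
  obtain ⟨C2, c2, p2⟩ := c.ls1 n hn (C₀ * C₀)
  obtain ⟨F, hF⟩ : ∃ F, F = CE * (16 * (C₀ * C₀) ^ rk k K) ^ (1 / 8 : ℝ) := ⟨_, rfl⟩
  have cc := mul_self_nonneg C₀
  have F0 : 0 ≤ F := by rw [hF]; positivity
  refine ⟨(4 * C1 * CD) ^ 2 + 64 * CD ^ 3 * C2 * F, ?_, fun M N T 𝒩 a b hN hM hT hi h𝒩 => ?_⟩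
  · have : 1 ≤ (4 * C1 * CD) ^ 2 := one_le_pow₀ (by nlinarith)
    exact le_add_of_le_of_nonneg this (by positivity)
  have N0 : 0 < N := by linarith
  have M0 : 0 < M := by linarith
  have r0 : 0 ≤ 1 / (40 * rk k K) := by positivity
  obtain ⟨u, u1, rfl⟩ : ∃ u, 1 ≤ u ∧ N = u ^ 8 :=
    ⟨N ^ (1 / 8 : ℝ), Real.one_le_rpow hN (by norm_num), by
      rw [← Real.rpow_natCast, ← Real.rpow_mul N0.le]; norm_num⟩
  have u0 : 0 < u := by linarith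
  obtain ⟨A, hA⟩ : ∃ A, A = ∑ t ∈ T, ‖a t‖ ^ 2 := ⟨_, rfl⟩
  have A0 : 0 ≤ A := hA ▸ sum_nonneg fun _ _ => sq_nonneg _
  have cn : (𝒩.card : ℝ) ≤ CD * (2 * u ^ 8) :=
    le_trans (Nat.cast_le.2 (card_le_card fun I hI =>
      mem_ids.2 ⟨(h𝒩 I hI).1.ne_zero, (h𝒩 I hI).2.1⟩)) (pd _ (by linarith)).1
  have h𝒩' : ∀ I ∈ 𝒩, Squarefree I ∧ NN I ≤ 2 * u ^ 8 := fun I h => ⟨(h𝒩 I h).1, (h𝒩 I h).2.1⟩
  rw [← hA, Real.rpow_neg N0.le, ← Real.rpow_natCast u 8, ← Real.rpow_mul u0.le,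
    show ((8 : ℕ) : ℝ) * (1 / 8) = 1 by norm_num, Real.rpow_one]
  refine root (norm_nonneg _) ?_ (by positivity) u0 ?_
  · have : 1 ≤ (4 * C1 * CD) ^ 2 := one_le_pow₀ (by nlinarith)
    exact le_add_of_le_of_nonneg this (by positivity)
  rw [add_mul]
  rcases le_or_gt ((2 * u ^ 8) ^ 2) M with hc | hc
  · refine le_add_of_le_of_nonneg ?_ (by positivity)
    have q1 := p1 T 𝒩 M (2 * u ^ 8) (hN.trans hM) (by positivity) (le_rpow (hN.trans hM) r0 hc)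
      hT h𝒩' b
    have q2 : ∑ I ∈ 𝒩, ‖b I‖ ^ 2 ≤ CD * (2 * u ^ 8) * (u ^ 8)⁻¹ ^ 2 := by
      refine le_trans ?_ (mul_le_mul_of_nonneg_right cn (by positivity))
      rw [← nsmul_eq_mul]
      exact sum_le_card_nsmul _ _ _ fun I h => pow_le_pow_left₀ (norm_nonneg _) (h𝒩 I h).2.2 2
    have q3 := q1.trans (mul_le_mul (mul_le_mul_of_nonneg_left
      (two (by positivity) ((div_le_one M0).2 hc)) (by positivity)) q2
      (sum_nonneg fun _ _ => sq_nonneg _) (by positivity))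
    have q4 : ‖∑ t ∈ T, ∑ I ∈ 𝒩, a t * b I * jac t I‖ ^ 2 ≤
        A * (C1 * M * 2 * (CD * (2 * u ^ 8) * (u ^ 8)⁻¹ ^ 2)) := by
      refine le_trans ?_ (mul_le_mul_of_nonneg_left q3 A0)
      rw [hA]
      refine le_trans (pow_le_pow_left₀ (norm_nonneg _) ((norm_sum_le _ _).trans_eq
        (sum_congr rfl fun t _ => ?_)) 2) (sum_mul_sq_le_sq_mul_sq _ _ _)
      rw [← norm_mul, mul_sum]
      simp only [mul_assoc]
    calc _ = (‖∑ t ∈ T, ∑ I ∈ 𝒩, a t * b I * jac t I‖ ^ 2) ^ 2 * u ^ 4 := by ring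
      _ ≤ (A * (C1 * M * 2 * (CD * (2 * u ^ 8) * (u ^ 8)⁻¹ ^ 2))) ^ 2 * u ^ 16 := by gcongr; omega
      _ = _ := by field_simp; ring
  · refine le_add_of_nonneg_of_le (by positivity) ?_
    have t0 : ∀ t ∈ T, t ≠ 0 := fun t h => ne_zero hn (hT t h).1
    have b2 : ∀ p ∈ T ×ˢ T, Bal k (C₀ * C₀) (M * M) (p.1 * p.2) := fun p hp =>
      (hT _ (mem_product.1 hp).1).2.mul (hT _ (mem_product.1 hp).2).2 M0.le M0.le
    have Y1 : 1 ≤ (2 * M) ^ 2 := one_le_pow₀ (by linarith)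
    have NM : (2 * u ^ 8) ^ 2 ≤ (2 * M) ^ 2 := by gcongr
    have q1 := hs_of_hl (p2 ((T ×ˢ T).image fun p => p.1 * p.2) 𝒩 ((2 * M) ^ 2) (2 * u ^ 8) Y1
      (by positivity) (le_rpow Y1 r0 NM) (fun w hw => by
        obtain ⟨p, hp, rfl⟩ := mem_image.1 hw
        refine ⟨?_, (b2 p hp).mono le_rfl cc (by positivity) (by nlinarith)⟩
        rw [show p.1 * p.2 - 1 = (p.1 - 1) * p.2 + (p.2 - 1) by ring]
        exact ((hT _ (mem_product.1 hp).1).1.mul_right _).add (hT _ (mem_product.1 hp).2).1) h𝒩')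
      (by positivity) fun w => ∑ p ∈ (T ×ˢ T).filter fun p => p.1 * p.2 = w, a p.1 * a p.2
    have q2 := fib (T ×ˢ T) (fun p => p.1 * p.2) (fun p => a p.1 * a p.2) (F := F * u ^ 4)
      fun p hp => by
        have w0 := mul_ne_zero (t0 _ (mem_product.1 hp).1) (t0 _ (mem_product.1 hp).2)
        refine (Nat.cast_le.2 (card_fib t0 hi w0)).trans
          ((pe _ (by simpa using w0)).2.trans ?_)
        have e : u ^ 4 = (u ^ 32) ^ (1 / 8 : ℝ) := by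
          rw [← Real.rpow_natCast u 32, ← Real.rpow_mul u0.le, ← Real.rpow_natCast]
          norm_num
        rw [hF, e, mul_assoc, ← Real.mul_rpow (by positivity) (by positivity)]
        refine mul_le_mul_of_nonneg_left (Real.rpow_le_rpow (Nat.cast_nonneg _)
          (((b2 p hp).NN_le c.toCtx (by positivity)).trans ?_) (by norm_num)) (by linarith)
        calc _ ≤ (C₀ * C₀) ^ rk k K * ((2 * u ^ 8) ^ 2 * (2 * u ^ 8) ^ 2) := by gcongr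
          _ = _ := by ring
    have e2 : ∑ p ∈ T ×ˢ T, ‖a p.1 * a p.2‖ ^ 2 = A ^ 2 := by
      rw [hA, sq (∑ _ ∈ T, _), sum_mul_sum, sum_product]
      simp only [norm_mul, mul_pow]
    rw [e2] at q2
    have q3 := q1.trans (mul_le_mul (mul_le_mul_of_nonneg_left
      (two (by positivity) ((div_le_one (by positivity)).2 NM)) (by positivity)) q2
      (sum_nonneg fun _ _ => sq_nonneg _) (by positivity))
    simp only [← sq_eq, norm_pow] at q3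
    have q4 : ‖∑ t ∈ T, ∑ I ∈ 𝒩, a t * b I * jac t I‖ ≤
        (u ^ 8)⁻¹ * ∑ I ∈ 𝒩, ‖∑ t ∈ T, a t * jac t I‖ := by
      rw [sum_comm, mul_sum]
      refine (norm_sum_le _ _).trans (sum_le_sum fun I h => ?_)
      refine le_trans (le_of_eq ?_) (mul_le_mul_of_nonneg_right (h𝒩 I h).2.2 (norm_nonneg _))
      rw [← norm_mul, mul_sum]
      simp only [mul_assoc, mul_left_comm]
    have q5 := sq_sum_le_card_mul_sum_sq (s := 𝒩) (f := fun I => ‖∑ t ∈ T, a t * jac t I‖)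
    have q6 := sq_sum_le_card_mul_sum_sq (s := 𝒩) (f := fun I => ‖∑ t ∈ T, a t * jac t I‖ ^ 2)
    calc _ ≤ ((u ^ 8)⁻¹ * ∑ I ∈ 𝒩, ‖∑ t ∈ T, a t * jac t I‖) ^ 4 * u ^ 4 := by gcongr
      _ = (u ^ 8)⁻¹ ^ 4 * u ^ 4 * ((∑ I ∈ 𝒩, ‖∑ t ∈ T, a t * jac t I‖) ^ 2) ^ 2 := by ring
      _ ≤ (u ^ 8)⁻¹ ^ 4 * u ^ 4 * (𝒩.card * ∑ I ∈ 𝒩, ‖∑ t ∈ T, a t * jac t I‖ ^ 2) ^ 2 := by
        gcongr
      _ = (u ^ 8)⁻¹ ^ 4 * u ^ 4 * 𝒩.card ^ 2 * (∑ I ∈ 𝒩, ‖∑ t ∈ T, a t * jac t I‖ ^ 2) ^ 2 := by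
        ring
      _ ≤ (u ^ 8)⁻¹ ^ 4 * u ^ 4 * (CD * (2 * u ^ 8)) ^ 2 * (CD * (2 * u ^ 8) *
          (C2 * (2 * M) ^ 2 * 2 * (F * u ^ 4 * A ^ 2))) :=
        mul_le_mul (by gcongr) (q6.trans (mul_le_mul cn q3
          (sum_nonneg fun _ _ => sq_nonneg _) (by positivity))) (sq_nonneg _) (by positivity)
      _ = _ := by field_simp; ring

end Pool.Agent.P.MP_b8021b_nt.BP
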