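import Pool.Agent.P.MP_b8021b_nt.BP.StC

/-! The sum over the large dyadic blocks. -/

namespace Pool.Agent.P.MP_b8021b_nt.BP

open NumberField IsDedekindDomain Finset MeasureTheory
open Pool.Agent.P.MP_b8021b_nt.VE Pool.Agent.P.MP_b8021b_nt.VC Pool.Agent.P.MP_b8021b_nt.BS.CF
open Pool.Agent.P.MP_b8021b_nt.BS
open scoped Classical ComplexConjugate Real
variable {k : Type} [Field k] [NumberField k] [Algebra k ℂ] {K : Type} [Field K] [NumberField K] [Algebra k K]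

namespace PBB4

theorem ex_idx {r : ℝ} (h : 1 < r) : ∃ i : ℕ, 2 ^ i < r ∧ r ≤ 2 ^ (i + 1) := by
  obtain ⟨n, h1, h2⟩ := exists_mem_Ioc_zpow (one_pos.trans h) (one_lt_two (α := ℝ))
  have h3 : 0 < n + 1 := (one_lt_zpow_iff_right₀ (one_lt_two (α := ℝ))).1 (h.trans_le h2)
  lift n to ℕ using by omega
  exact ⟨n, by exact_mod_cast h1, by exact_mod_cast h2⟩

theorem blocks {ι : Type*} (P : Finset ι) (idx : ι → ℕ) (f : ι → ι → ℂ) {B w : ℝ} (hB : 0 ≤ B)
    (hw0 : 0 ≤ w) (hw : w < 1)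
    (h : ∀ i j, ‖∑ A ∈ P.filter (idx · = i), ∑ E ∈ P.filter (idx · = j), f A E‖ ≤
      B * w ^ i * w ^ j) : ‖∑ A ∈ P, ∑ E ∈ P, f A E‖ ≤ B * (1 - w)⁻¹ ^ 2 := by
  have hm : ∀ A ∈ P, idx A ∈ range (P.sup idx + 1) := fun A hA =>
    mem_range.2 (Nat.lt_succ_of_le (le_sup hA))
  have hg : ∑ i ∈ range (P.sup idx + 1), w ^ i ≤ (1 - w)⁻¹ := by
    rw [← tsum_geometric_of_lt_one hw0 hw]
    exact (summable_geometric_of_lt_one hw0 hw).sum_le_tsum _ fun _ _ => by positivity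
  have e : ∑ A ∈ P, ∑ E ∈ P, f A E = ∑ i ∈ range (P.sup idx + 1), ∑ j ∈ range (P.sup idx + 1),
      ∑ A ∈ P.filter (idx · = i), ∑ E ∈ P.filter (idx · = j), f A E := by
    rw [← sum_fiberwise_of_maps_to hm]
    refine sum_congr rfl fun i _ => ?_
    rw [sum_comm (s := range _)]
    exact sum_congr rfl fun A _ => (sum_fiberwise_of_maps_to hm (f A)).symm
  rw [e]
  calc _ ≤ ∑ i ∈ range (P.sup idx + 1), ∑ j ∈ range (P.sup idx + 1), B * w ^ i * w ^ j :=
        norm_sum_le_of_le _ fun i _ => norm_sum_le_of_le _ fun j _ => h i j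
    _ = B * (∑ i ∈ range (P.sup idx + 1), w ^ i) ^ 2 := by
        rw [sq, sum_mul_sum, mul_sum]
        refine sum_congr rfl fun i _ => ?_
        rw [mul_sum]
        exact sum_congr rfl fun j _ => mul_assoc _ _ _
    _ ≤ _ := by gcongr

theorem gg_pos (v : Pl K) : 0 < gg v := by
  have := nv_pos v
  unfold gg; positivity

theorem gS_pos (A : Finset (Pl K)) : 0 < gS A := prod_pos fun v _ => gg_pos v

/-- the trick of Rankin -/
theorem rankin (𝒮 : Finset (Pl K)) (𝒟 : Finset (Finset (Pl K))) {M s : ℝ} (hM : 0 < M) (hs : 0 ≤ s)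
    (h : ∀ A ∈ 𝒟, A ⊆ 𝒮 ∧ M ≤ nS A) :
    ∑ A ∈ 𝒟, gS A ≤ (∏ v ∈ 𝒮, (1 + gg v * nv v ^ s)) * M ^ (-s) := by
  have e : ∀ A : Finset (Pl K), ∏ v ∈ A, gg v * nv v ^ s = gS A * nS A ^ s := fun A => by
    rw [prod_mul_distrib, nS_eq, Real.finsetProd_rpow _ _ fun v _ => (nv_pos v).le, gS]
  rw [prod_one_add, sum_mul]
  calc _ ≤ ∑ A ∈ 𝒟, (∏ v ∈ A, gg v * nv v ^ s) * M ^ (-s) := by
        refine sum_le_sum fun A hA => ?_
        rw [e, mul_assoc, Real.rpow_neg hM.le, ← div_eq_mul_inv]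
        exact le_mul_of_one_le_right (gS_pos A).le ((one_le_div (by positivity)).2
          (Real.rpow_le_rpow hM.le (h A hA).2 hs))
    _ ≤ _ := by
        refine sum_le_sum_of_subset_of_nonneg (fun A hA => mem_powerset.2 (h A hA).1)
          fun A _ _ => ?_
        have := gS_pos A
        have := nS_pos A
        rw [e]; positivity

theorem one_le_log {y : ℝ} (hy : 3 ≤ y) : 1 ≤ Real.log y :=
  (Real.le_log_iff_exp_le (by linarith)).2 (by linarith [Real.exp_one_lt_d9])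

theorem term_le {y : ℝ} (hy : 3 ≤ y) {v : Pl K} (hv : nv v ≤ y) :
    gg v * nv v ^ (1 / Real.log y) ≤ 9 * nv v ^ (-(1 + 1 / Real.log y)) := by
  have h0 := nv_pos v
  have hL := one_le_log hy
  have h1 : nv v ^ (1 / Real.log y) ≤ 3 := by
    refine (Real.rpow_le_rpow h0.le hv (by positivity)).trans ?_
    rw [Real.rpow_def_of_pos (by linarith), mul_one_div_cancel (by linarith)]
    linarith [Real.exp_one_lt_d9]
  have h2 : 0 < nv v ^ (1 / Real.log y) := by positivity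
  have h3 : gg v ≤ (nv v)⁻¹ := inv_anti₀ h0 (by linarith)
  rw [Real.rpow_neg h0.le, Real.rpow_add h0, Real.rpow_one, mul_inv, mul_left_comm]
  refine mul_le_mul h3 ?_ h2.le (by positivity)
  rw [← div_eq_mul_inv, le_div_iff₀ h2]
  nlinarith

theorem prod_le (hCH2 : Y_CH2 K) : ∃ (Q : ℝ) (J : ℕ), 1 ≤ Q ∧ ∀ (y : ℝ) (𝒮 : Finset (Pl K)), 3 ≤ y →
    𝒮 ⊆ pls K 0 y → ∏ v ∈ 𝒮, (1 + gg v * nv v ^ (1 / Real.log y)) ≤ Q * Real.log y ^ J := by
  obtain ⟨C, hC, -, -, h, -⟩ := hCH2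
  refine ⟨Real.exp (9 * C), ⌈9 * C⌉₊, Real.one_le_exp (by linarith), fun y 𝒮 hy hS => ?_⟩
  have hL := one_le_log hy
  have h1 := h (1 / Real.log y) 𝒮 (by positivity) ((div_le_one (by linarith)).2 hL)
  rw [one_div_one_div] at h1
  have h2 : 0 ≤ Real.log (Real.log y) := Real.log_nonneg hL
  calc _ ≤ ∏ v ∈ 𝒮, Real.exp (9 * nv v ^ (-(1 + 1 / Real.log y))) := by
        refine prod_le_prod (fun v _ => ?_) fun v hv => ?_
        · have := gg_pos v
          have := nv_pos v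
          positivity
        · linarith [term_le hy (mem_pls.1 (hS hv)).2,
            Real.add_one_le_exp (9 * nv v ^ (-(1 + 1 / Real.log y)))]
    _ ≤ Real.exp (9 * C + ⌈9 * C⌉₊ * Real.log (Real.log y)) := by
        rw [← Real.exp_sum, ← mul_sum]
        refine Real.exp_le_exp.2 ?_
        nlinarith [mul_le_mul_of_nonneg_right (Nat.le_ceil (9 * C)) h2]
    _ = _ := by rw [Real.exp_add, Real.exp_nat_mul, Real.exp_log (by linarith)]

theorem geo_le {L : ℝ} (hL : 1 ≤ L) : (1 - (2 : ℝ) ^ (-(1 / L) / 4))⁻¹ ≤ 8 * L := by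
  have h2 : 1 / 2 + 1 / 10 < Real.log 2 := by linarith [Real.log_two_gt_d9]
  set t := Real.log 2 * (1 / L) / 4 with ht
  have h0 : 0 < t := by positivity
  have h1 : (2 : ℝ) ^ (-(1 / L) / 4) ≤ (1 + t)⁻¹ := by
    rw [Real.rpow_def_of_pos two_pos, show Real.log 2 * (-(1 / L) / 4) = -t by rw [ht]; ring,
      Real.exp_neg]
    exact inv_anti₀ (by positivity) (by linarith [Real.add_one_le_exp t])
  have h3 : t * L = Real.log 2 / 4 := by rw [ht]; field_simp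
  have h4 : (8 * L)⁻¹ ≤ 1 - (1 + t)⁻¹ := by
    rw [show 1 - (1 + t)⁻¹ = ((1 + t) / t)⁻¹ by field_simp; ring]
    refine inv_anti₀ (by positivity) ?_
    rw [div_le_iff₀ h0]
    nlinarith
  rw [← inv_inv (8 * L)]
  exact inv_anti₀ (by positivity) (by linarith)

end PBB4

open PBB4 in
theorem y_bB4 (c : Cx k K) (hCH2 : Y_CH2 K) : Y_BB4 K := by
  obtain ⟨Q, J, hQ, hP⟩ := prod_le hCH2
  refine ⟨64 * Q, J + 2, by linarith, fun κ 𝒮 C₀ y D hC hy hD hS hK => ?_⟩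
  have hL := one_le_log hy
  have hD0 : 0 < D := by linarith
  set L := Real.log y with hLy
  set P := 𝒮.powerset.filter fun A => D < nS A with hPd
  obtain ⟨idx, hi⟩ : ∃ idx : Finset (Pl K) → ℕ, ∀ A ∈ P,
      2 ^ idx A < nS A / D ∧ nS A / D ≤ 2 ^ (idx A + 1) := by
    choose! idx h using fun A (hA : A ∈ P) => ex_idx ((one_lt_div hD0).2 (mem_filter.1 hA).2)
    exact ⟨idx, h⟩
  set w : ℝ := 2 ^ (-(1 / L) / 4) with hw
  have hw0 : 0 < w := by positivity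
  have hw1 : w < 1 := Real.rpow_lt_one_of_one_lt_of_neg one_lt_two
    (div_neg_of_neg_of_pos (neg_lt_zero.2 (by positivity)) four_pos)
  set R := Q * L ^ J with hR
  have hR1 : 1 ≤ R := one_le_mul_of_one_le_of_one_le hQ (one_le_pow₀ hL)
  have hM : ∀ i : ℕ, D ≤ 2 ^ i * D := fun i => le_mul_of_one_le_left hD0.le (one_le_pow₀ one_le_two)
  have hb : ∀ i, ∀ A ∈ P.filter (idx · = i),
      A ⊆ 𝒮 ∧ 2 ^ i * D < nS A ∧ nS A ≤ 2 * (2 ^ i * D) := fun i A hA => by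
    obtain ⟨h1, rfl⟩ := mem_filter.1 hA
    obtain ⟨h2, h3⟩ := hi A h1
    refine ⟨mem_powerset.1 (mem_filter.1 h1).1, (lt_div_iff₀ hD0).1 h2, ?_⟩
    rw [div_le_iff₀ hD0, pow_succ] at h3
    linarith
  have hm : ∀ i j, j ≤ i → √(∑ A ∈ P.filter (idx · = i), gS A) ≤ R * w ^ i * w ^ j := by
    intro i j hj
    have h1 := rankin 𝒮 (P.filter (idx · = i)) (M := 2 ^ i) (s := 1 / L) (by positivity)
      (by positivity) fun A hA => ⟨(hb i A hA).1,
        (le_mul_of_one_le_right (by positivity) hD).trans (hb i A hA).2.1.le⟩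
    have h2 : ((2 : ℝ) ^ i) ^ (-(1 / L)) = (w ^ i * w ^ i) ^ 2 := by
      rw [hw, ← Real.rpow_natCast 2 i, ← Real.rpow_mul zero_le_two, ← sq, ← pow_mul, ← pow_mul,
        ← Real.rpow_natCast, ← Real.rpow_mul zero_le_two]
      congr 1; push_cast; ring
    have h3 : w ^ i ≤ w ^ j := pow_le_pow_of_le_one hw0.le hw1.le hj
    refine Real.sqrt_le_iff.2 ⟨by positivity, h1.trans ?_⟩
    rw [h2, mul_assoc, mul_pow R]
    exact mul_le_mul ((hP y 𝒮 hy hS).trans (le_self_pow₀ hR1 two_ne_zero)) (by gcongr)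
      (by positivity) (by positivity)
  have key := blocks P idx (fun A E => κ A E * (gS A * gS E : ℝ))
    (B := C₀ * R * D ^ (-(1 / 8 : ℝ))) (by positivity) hw0.le hw1 fun i j => by
      refine (hK _ _ _ _ (hD.trans (hM i)) (hD.trans (hM j)) (hb i) (hb j)).trans ?_
      have h1 : min (2 ^ i * D) (2 ^ j * D) ^ (-(1 / 8 : ℝ)) ≤ D ^ (-(1 / 8 : ℝ)) :=
        Real.rpow_le_rpow_of_nonpos hD0 (le_min (hM i) (hM j)) (by norm_num)
      have h2 : √(if 2 ^ j * D ≤ 2 ^ i * D then ∑ A ∈ P.filter (idx · = i), gS A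
          else ∑ A ∈ P.filter (idx · = j), gS A) ≤ R * w ^ i * w ^ j := by
        split_ifs with h
        · exact hm i j ((pow_le_pow_iff_right₀ one_lt_two).1 (le_of_mul_le_mul_right h hD0))
        · rw [mul_right_comm]
          refine hm j i (not_lt.1 fun l => h ?_)
          gcongr
          exact one_le_two
      calc _ ≤ C₀ * (R * w ^ i * w ^ j) * D ^ (-(1 / 8 : ℝ)) := by gcongr
        _ = _ := by ring
  refine key.trans ?_
  have h1 : (1 - w)⁻¹ ^ 2 ≤ (8 * L) ^ 2 :=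
    pow_le_pow_left₀ (inv_nonneg.2 (by linarith)) (geo_le hL) 2
  calc _ ≤ C₀ * R * D ^ (-(1 / 8 : ℝ)) * (8 * L) ^ 2 := by gcongr
    _ = _ := by rw [hR]; ring

end Pool.Agent.P.MP_b8021b_nt.BP
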