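import Pool.Agent.P.MP_b8021b_nt.BP.StC

/-! The bilinear form is bounded by two mean squares. -/

namespace Pool.Agent.P.MP_b8021b_nt.BP

open NumberField IsDedekindDomain Finset MeasureTheory
open Pool.Agent.P.MP_b8021b_nt.VE Pool.Agent.P.MP_b8021b_nt.VC Pool.Agent.P.MP_b8021b_nt.BS.CF
open Pool.Agent.P.MP_b8021b_nt.BS
open scoped Classical ComplexConjugate Real
variable {k : Type} [Field k] [NumberField k] [Algebra k ℂ] {K : Type} [Field K] [NumberField K] [Algebra k K]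

namespace PBIL0

theorem comm4 {α β γ δ : Type*} (A : Finset α) (B : Finset β) (C : Finset γ) (D : Finset δ)
    (g : α → β → γ → δ → ℂ) :
    ∑ a ∈ A, ∑ b ∈ B, ∑ c ∈ C, ∑ d ∈ D, g a b c d = ∑ c ∈ C, ∑ d ∈ D, ∑ a ∈ A, ∑ b ∈ B, g a b c d :=
  (sum_congr rfl fun _ _ => sum_comm).trans (sum_comm.trans (sum_congr rfl fun _ _ =>
    (sum_congr rfl fun _ _ => sum_comm).trans sum_comm))

theorem bs_eq (T₁ T₂ : Finset (𝓞 K)) (a₁ a₂ : 𝓞 K → ℂ) (F : Finset (Pl K) → ℝ)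
    (Γ : Finset (Pl K)) (c : Finset (Pl K) → ℂ) (𝒮 : Finset (Finset (Pl K))) :
    bs T₁ T₂ a₁ a₂ F Γ c 𝒮 = ∑ D ∈ Γ.powerset, ∑ S ∈ 𝒮, F D * c S *
      ((∑ t ∈ T₁, a₁ t * jac t (eI D) * jac t (eI S)) *
        ∑ t ∈ T₂, a₂ t * jac t (eI D) * jac t (eI S)) := by
  simp only [sum_mul_sum]
  simp only [mul_sum]
  rw [← comm4]
  refine sum_congr rfl fun t _ => sum_congr rfl fun t' _ => ?_
  rw [wF, mul_assoc, sum_mul_sum, mul_sum]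
  refine sum_congr rfl fun D _ => ?_
  rw [mul_sum]
  refine sum_congr rfl fun S _ => ?_
  rw [jac_mul_left, jac_mul_left]
  ring

omit [NumberField K] in
theorem core {ι : Type*} (P : Finset ι) (φ : ι → Ideal (𝓞 K)) (w : ι → ℂ)
    {𝒩 : Finset (Ideal (𝓞 K))} {T₁ T₂ : Finset (𝓞 K)} {a₁ a₂ : 𝓞 K → ℂ} {Δ₁ Δ₂ κ : ℝ}
    (h1 : MS T₁ 𝒩 Δ₁) (h2 : MS T₂ 𝒩 Δ₂) (hκ : 0 ≤ κ) (ha₁ : ∀ t, ‖a₁ t‖ ≤ 1)
    (ha₂ : ∀ t, ‖a₂ t‖ ≤ 1) (hw : ∀ p ∈ P, ‖w p‖ ≤ κ) (hφ : ∀ p ∈ P, w p ≠ 0 → φ p ∈ 𝒩)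
    (hi : ∀ p ∈ P, ∀ q ∈ P, w p ≠ 0 → w q ≠ 0 → φ p = φ q → p = q) :
    ‖∑ p ∈ P, w p * ((∑ t ∈ T₁, a₁ t * jac t (φ p)) * ∑ t ∈ T₂, a₂ t * jac t (φ p))‖ ≤
      κ * √(Δ₁ * Δ₂) := by
  obtain ⟨A, hA⟩ : ∃ A : Ideal (𝓞 K) → ℂ, ∀ I, ∑ t ∈ T₁, a₁ t * jac t I = A I := ⟨_, fun _ => rfl⟩
  obtain ⟨B, hB⟩ : ∃ B : Ideal (𝓞 K) → ℂ, ∀ I, ∑ t ∈ T₂, a₂ t * jac t I = B I := ⟨_, fun _ => rfl⟩
  have e1 := h1 a₁ ha₁
  have e2 := h2 a₂ ha₂
  simp only [hA, hB] at e1 e2 ⊢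
  rw [← sum_filter_of_ne (p := fun p => w p ≠ 0) fun p _ h => left_ne_zero_of_mul h]
  have e3 : ∑ p ∈ P.filter (fun p => w p ≠ 0), ‖A (φ p)‖ * ‖B (φ p)‖ ≤ ∑ I ∈ 𝒩, ‖A I‖ * ‖B I‖ := by
    rw [← sum_image (f := fun I => ‖A I‖ * ‖B I‖) fun p hp q hq =>
      hi p (mem_filter.1 hp).1 q (mem_filter.1 hq).1 (mem_filter.1 hp).2 (mem_filter.1 hq).2]
    refine sum_le_sum_of_subset_of_nonneg (fun I hI => ?_) fun _ _ _ => by positivity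
    obtain ⟨p, hp, rfl⟩ := mem_image.1 hI
    exact hφ p (mem_filter.1 hp).1 (mem_filter.1 hp).2
  have e4 : ∑ I ∈ 𝒩, ‖A I‖ * ‖B I‖ ≤ √(Δ₁ * Δ₂) :=
    Real.le_sqrt_of_sq_le ((sum_mul_sq_le_sq_mul_sq _ _ _).trans (mul_le_mul e1 e2
      (sum_nonneg fun _ _ => by positivity) ((sum_nonneg fun _ _ => by positivity).trans e1)))
  refine (norm_sum_le _ _).trans (le_trans ?_ (mul_le_mul_of_nonneg_left (e3.trans e4) hκ))
  rw [mul_sum]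
  refine sum_le_sum fun p hp => ?_
  rw [norm_mul, norm_mul]
  exact mul_le_mul_of_nonneg_right (hw p (mem_filter.1 hp).1) (by positivity)

theorem split_inj {α : Type*} [DecidableEq α] {Γ D D' S S' : Finset α} (hD : D ⊆ Γ) (hD' : D' ⊆ Γ)
    (hS : Disjoint S Γ) (hS' : Disjoint S' Γ) (h : D ∪ S = D' ∪ S') : (D, S) = (D', S') := by
  rw [disjoint_left] at hS hS'
  have h1 := fun x => (Finset.ext_iff.1 h x)
  simp only [mem_union] at h1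
  refine Prod.ext (Finset.ext fun x => ?_) (Finset.ext fun x => ?_)
  · exact ⟨fun e => ((h1 x).1 (Or.inl e)).resolve_right fun e' => hS' e' (hD e),
      fun e => ((h1 x).2 (Or.inl e)).resolve_right fun e' => hS e' (hD' e)⟩
  · exact ⟨fun e => ((h1 x).1 (Or.inr e)).resolve_left fun e' => hS e (hD' e'),
      fun e => ((h1 x).2 (Or.inr e)).resolve_left fun e' => hS' e (hD e')⟩

end PBIL0

open PBIL0

theorem y_bIL0 (c : Cx k K) : Y_BIL0 K := by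
  intro n T₁ T₂ a₁ a₂ F Γ cf 𝒮 𝒩 Δ₁ Δ₂ κ hA h1 h2 hκ hc
  have hF : ∀ D ∈ Γ.powerset, ∀ S ∈ 𝒮, ‖(F D : ℂ) * cf S‖ ≤ κ := fun D hD S hS => by
    have e : F D ^ 2 ≤ 1 :=
      (single_le_sum (f := fun D => F D ^ 2) (fun _ _ => sq_nonneg _) hD).trans hA.par
    rw [norm_mul, Complex.norm_real, Real.norm_eq_abs]
    exact (mul_le_of_le_one_left (norm_nonneg _) ((sq_le_one_iff_abs_le_one _).1 e)).trans (hc S hS)
  rw [bs_eq]
  constructor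
  · intro h𝒩
    rw [← sum_product']
    refine le_trans (le_of_eq (congrArg _ (sum_congr rfl fun p hp => ?_)))
      (core (Γ.powerset ×ˢ 𝒮) (fun p => eI (p.1 ∪ p.2)) (fun p => F p.1 * cf p.2) h1 h2 hκ hA.a1
        hA.a2 (fun p hp => hF _ (mem_product.1 hp).1 _ (mem_product.1 hp).2)
        (fun p hp h => h𝒩 _ (mem_product.1 hp).2 (right_ne_zero_of_mul h) _
          (mem_powerset.1 (mem_product.1 hp).1))
        fun p hp q hq e e' h => split_inj (mem_powerset.1 (mem_product.1 hp).1)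
          (mem_powerset.1 (mem_product.1 hq).1) (hA.supp _ (right_ne_zero_of_mul e)).1
          (hA.supp _ (right_ne_zero_of_mul e')).1 (eI_inj h))
    by_cases h0 : cf p.2 = 0
    · simp only [h0, mul_zero, zero_mul]
    · have e : Disjoint p.1 p.2 :=
        ((hA.supp _ h0).1.mono_right (mem_powerset.1 (mem_product.1 hp).1)).symm
      simp only [eI_union e, jac_mul_right, mul_assoc]
  · intro h𝒩
    refine (norm_sum_le _ _).trans ((sum_le_card_nsmul _ _ (κ * √(Δ₁ * Δ₂)) fun D hD => ?_).trans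
      (le_of_eq ?_))
    · have hb : ∀ {a : 𝓞 K → ℂ}, (∀ t, ‖a t‖ ≤ 1) → ∀ t, ‖a t * jac t (eI D)‖ ≤ 1 := fun ha t => by
        rw [norm_mul]
        exact mul_le_one₀ (ha t) (norm_nonneg _) (norm_jac_le _ _)
      exact core 𝒮 eI (fun S => F D * cf S) h1 h2 hκ (hb hA.a1) (hb hA.a2) (hF D hD)
        (fun S hS h => h𝒩 S hS (right_ne_zero_of_mul h)) fun _ _ _ _ _ _ h => eI_inj h
    · rw [card_powerset, nsmul_eq_mul, mul_assoc]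
      push_cast
      rfl

end Pool.Agent.P.MP_b8021b_nt.BP
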