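import Pool.Agent.P.MP_b8021b_nt.BP.StC

/-! The bounds of Chebyshev for the places of a number field. -/

namespace Pool.Agent.P.MP_b8021b_nt.BP

open NumberField IsDedekindDomain Finset MeasureTheory
open Pool.Agent.P.MP_b8021b_nt.VE Pool.Agent.P.MP_b8021b_nt.VC Pool.Agent.P.MP_b8021b_nt.BS.CF
open Pool.Agent.P.MP_b8021b_nt.BS
open scoped Classical ComplexConjugate Real

variable {k : Type} [Field k] [NumberField k] [Algebra k ℂ] {K : Type} [Field K] [NumberField K]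
  [Algebra k K]

namespace PCH1

theorem under (v : Pl K) : ∃ p : ℕ, p.Prime ∧ Dv p v ∧ p ≤ Ideal.absNorm v.asIdeal := by
  have := v.isMaximal
  obtain ⟨p, n, h0, h1, h2, h3⟩ := Ideal.exists_prime_and_absNorm_eq_pow v.asIdeal
  exact ⟨p, h2, h1, h3 ▸ Nat.le_self_pow h0.ne' p⟩

theorem fibre {p : ℕ} (hp : p.Prime) {S : Finset (Pl K)}
    (h : ∀ v ∈ S, Dv p v ∧ p ≤ Ideal.absNorm v.asIdeal) : S.card ≤ Module.finrank ℤ (𝓞 K) := by
  have h1 : sp (p : 𝓞 K) ≤ eI S := Ideal.dvd_iff_le.1 (prod_dvd_of_coprime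
    (fun v _ w _ e => v.isCoprime_of_ne w e) fun v a => Ideal.dvd_span_singleton.2 (h v a).1)
  have h2 : nS S ≤ NN (sp (p : 𝓞 K)) :=
    NN_le_of_le (Ideal.span_singleton_eq_bot.not.2 (Nat.cast_ne_zero.2 hp.ne_zero)) h1
  have h3 : (p : ℝ) ^ S.card ≤ nS S := by
    rw [nS_eq, ← prod_const]
    exact prod_le_prod (fun _ _ => Nat.cast_nonneg _) fun v a => Nat.cast_le.2 (h v a).2
  have h4 : NN (sp (p : 𝓞 K)) = (p : ℝ) ^ Module.finrank ℤ (𝓞 K) := by
    rw [NN, Ideal.absNorm_span_natCast, Nat.cast_pow]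
  exact (pow_le_pow_iff_right₀ (Nat.one_lt_cast.2 hp.one_lt)).1 (h3.trans (h2.trans_eq h4))

theorem card_le (y : ℝ) :
    (pls K 0 y).card ≤ Module.finrank ℤ (𝓞 K) * Nat.primeCounting ⌊y⌋₊ := by
  choose f h1 h2 h3 using under (K := K)
  rw [← Nat.primesLE_card_eq_primeCounting]
  refine card_le_mul_card_image_of_maps_to (f := f) (fun v a => Nat.mem_primesLE.2
    ⟨(h3 v).trans (Nat.le_floor (mem_pls.1 a).2), h1 v⟩) _ fun p a =>
    fibre (Nat.mem_primesLE.1 a).2 fun v b => ?_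
  obtain ⟨-, rfl⟩ := mem_filter.1 b
  exact ⟨h2 v, h3 v⟩

theorem count : ∃ C : ℝ, 1 ≤ C ∧ ∀ y : ℝ, 2 ≤ y →
    ((pls K 0 y).card : ℝ) ≤ C * y / Real.log y := by
  have l4 : 0 < Real.log 4 := Real.log_pos (by norm_num)
  refine ⟨Module.finrank ℤ (𝓞 K) * (2 * Real.log 4 + 2) + 1,
    le_add_of_nonneg_left (by positivity), fun y hy => ?_⟩
  have y0 : 0 < y := by linarith
  have h1 := Chebyshev.pi_le_log4_mul_div (x := y) (by linarith)
  have h2 : 0 < Real.log y := Real.log_pos (by linarith)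
  have h3 : Real.log √y ≤ √y := Real.log_le_self (Real.sqrt_nonneg y)
  have h4 := Real.mul_self_sqrt y0.le
  rw [Real.log_sqrt y0.le] at h1 h3
  have h5 : (Nat.primeCounting ⌊y⌋₊ : ℝ) ≤ (2 * Real.log 4 + 2) * y / Real.log y := by
    refine h1.trans ?_
    rw [div_div_eq_mul_div, le_div_iff₀ h2, add_mul, div_mul_cancel₀ _ h2.ne']
    nlinarith [Real.sqrt_nonneg y]
  calc ((pls K 0 y).card : ℝ) ≤ Module.finrank ℤ (𝓞 K) * (Nat.primeCounting ⌊y⌋₊ : ℝ) := by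
        exact_mod_cast card_le y
    _ ≤ Module.finrank ℤ (𝓞 K) * ((2 * Real.log 4 + 2) * y / Real.log y) := by gcongr
    _ ≤ _ := by
        rw [← mul_div_assoc, ← mul_assoc]
        gcongr
        exact le_add_of_nonneg_right zero_le_one

theorem dyadic {C : ℝ} (h : ∀ y : ℝ, 2 ≤ y → ((pls K 0 y).card : ℝ) ≤ C * y / Real.log y)
    (j : ℕ) : lw (pls K 0 (2 ^ j)) ≤ 2 * C * j := by
  induction j with
  | zero =>
    have : pls K 0 (2 ^ 0) = ∅ := eq_empty_of_forall_notMem fun v a => by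
      linarith [(mem_pls.1 a).2, two_le_NN v]
    rw [this]
    simp [lw]
  | succ j ih =>
    have p0 : (0 : ℝ) < 2 ^ j := by positivity
    have p1 : (2 : ℝ) ≤ 2 ^ (j + 1) := le_self_pow₀ one_le_two j.succ_ne_zero
    have l0 : 0 < Real.log (2 ^ (j + 1)) := Real.log_pos (by linarith)
    have h1 : pls K 0 (2 ^ (j + 1)) ⊆ pls K 0 (2 ^ j) ∪ pls K (2 ^ j) (2 ^ (j + 1)) := fun v a => by
      rw [mem_union, mem_pls, mem_pls]
      exact (le_or_gt (nv v) (2 ^ j)).imp (fun b => ⟨nv_pos v, b⟩) fun b => ⟨b, (mem_pls.1 a).2⟩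
    have h2 : lw (pls K (2 ^ j) (2 ^ (j + 1))) ≤
        (pls K (2 ^ j) (2 ^ (j + 1))).card • (Real.log (2 ^ (j + 1)) / 2 ^ j) :=
      sum_le_card_nsmul _ _ _ fun v a => div_le_div₀ l0.le
        (Real.log_le_log (nv_pos v) (mem_pls.1 a).2) p0 (mem_pls.1 a).1.le
    have h3 : ((pls K (2 ^ j) (2 ^ (j + 1))).card : ℝ) ≤ C * 2 ^ (j + 1) / Real.log (2 ^ (j + 1)) :=
      (Nat.cast_le.2 (card_le_card (pls_mono p0.le le_rfl))).trans (h _ p1)
    have h4 : C * 2 ^ (j + 1) / Real.log (2 ^ (j + 1)) * (Real.log (2 ^ (j + 1)) / 2 ^ j) =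
        2 * C := by
      field_simp
      ring
    rw [nsmul_eq_mul] at h2
    have h5 := h2.trans ((mul_le_mul_of_nonneg_right h3 (by positivity)).trans_eq h4)
    have h6 := (lw_mono h1).trans (lw_union_le _ _)
    push_cast
    linarith

end PCH1

theorem y_cH1 (c : Cx k K) : Y_CH1 K := by
  obtain ⟨C, h1, h2⟩ := PCH1.count (K := K)
  refine ⟨8 * C, by linarith, fun y hy => ?_⟩
  have l0 : 0 < Real.log y := Real.log_pos (by linarith)
  refine ⟨(h2 y hy).trans (by gcongr; linarith), ?_⟩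
  obtain ⟨n, a, b⟩ := exists_nat_pow_near (x := y) (by linarith) one_lt_two
  have h3 := (lw_mono (pls_mono le_rfl b.le)).trans (PCH1.dyadic h2 (n + 1))
  have h4 := Real.log_le_log (by positivity) a
  have h5 := Real.log_le_log two_pos hy
  have h6 := Real.log_two_gt_d9
  rw [Real.log_pow] at h4
  have h7 : (n : ℝ) + 1 ≤ 4 * Real.log y := by nlinarith [(Nat.cast_nonneg n : (0 : ℝ) ≤ n)]
  push_cast at h3
  nlinarith

end Pool.Agent.P.MP_b8021b_nt.BP
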