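import Pool.Agent.P.MP_b8021b_nt.BP.StC

/-! Sums over primes. -/

namespace Pool.Agent.P.MP_b8021b_nt.BP

open NumberField IsDedekindDomain Finset MeasureTheory
open Pool.Agent.P.MP_b8021b_nt.VE Pool.Agent.P.MP_b8021b_nt.VC Pool.Agent.P.MP_b8021b_nt.BS.CF
open Pool.Agent.P.MP_b8021b_nt.BS
open scoped Classical ComplexConjugate Real

variable {k : Type} [Field k] [NumberField k] [Algebra k ℂ] {K : Type} [Field K] [NumberField K]
  [Algebra k K]

namespace PCH2

theorem split {f : Pl K → ℝ} (hf : ∀ v, 0 ≤ f v) (a b c : ℝ) :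
    ∑ v ∈ pls K a c, f v ≤ ∑ v ∈ pls K a b, f v + ∑ v ∈ pls K b c, f v := by
  rw [← sum_filter_add_sum_filter_not (pls K a c) fun v => nv v ≤ b]
  refine add_le_add (sum_le_sum_of_subset_of_nonneg (fun v hv => ?_) fun v _ _ => hf v)
    (sum_le_sum_of_subset_of_nonneg (fun v hv => ?_) fun v _ _ => hf v) <;>
    rw [mem_filter, mem_pls] at hv
  exacts [mem_pls.2 ⟨hv.1.1, hv.2⟩, mem_pls.2 ⟨not_le.1 hv.2, hv.1.2⟩]

theorem log_pos {z : ℝ} (hz : 2 ≤ z) : 0 < Real.log z := Real.log_pos (by linarith)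

variable {C : ℝ} (h : ∀ y : ℝ, 2 ≤ y → lw (pls K 0 y) ≤ C * Real.log y)
include h

theorem block {z : ℝ} (hz : 2 ≤ z) : ∑ v ∈ pls K z (z ^ 2), (nv v)⁻¹ ≤ 2 * C := by
  have h1 := h (z ^ 2) (by nlinarith)
  rw [Real.log_pow] at h1
  refine le_of_mul_le_mul_left ?_ (log_pos hz)
  rw [mul_sum]
  refine le_trans (sum_le_sum fun v hv => ?_) ((sum_le_sum_of_subset_of_nonneg
    (f := fun v => Real.log (nv v) / nv v) (pls_mono (a' := 0) (by linarith) le_rfl)
    fun v _ _ => div_nonneg (log_nv_pos v).le (nv_pos v).le).trans (h1.trans (le_of_eq ?_)))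
  · exact mul_le_mul_of_nonneg_right (Real.log_le_log (by linarith) (mem_pls.1 hv).1.le)
      (inv_nonneg.2 (nv_pos v).le)
  · push_cast
    ring

theorem blocks (J : ℕ) : ∀ z : ℝ, 2 ≤ z → ∑ v ∈ pls K z (z ^ 2 ^ J), (nv v)⁻¹ ≤ 2 * C * J ∧
    (0 ≤ C → ∑ v ∈ pls K z (z ^ 2 ^ J), (nv v)⁻¹ * (Real.log (nv v))⁻¹ ≤ 4 * C / Real.log z) := by
  induction J with
  | zero =>
    intro z hz
    have : pls K z (z ^ 2 ^ 0) = ∅ := eq_empty_of_forall_notMem fun v hv => by
      rw [mem_pls, pow_zero, pow_one] at hv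
      exact hv.1.not_ge hv.2
    rw [this]
    have := log_pos hz
    exact ⟨by simp, fun _ => by rw [sum_empty]; positivity⟩
  | succ J ih =>
    intro z hz
    have hl := log_pos hz
    obtain ⟨h1, h2⟩ := ih (z ^ 2) (by nlinarith)
    have h3 := block h hz
    rw [pow_succ', pow_mul]
    refine ⟨(split (fun v => inv_nonneg.2 (nv_pos v).le) _ (z ^ 2) _).trans ?_, fun hC =>
      (split (fun v => mul_nonneg (inv_nonneg.2 (nv_pos v).le)
        (inv_nonneg.2 (log_nv_pos v).le)) _ (z ^ 2) _).trans ?_⟩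
    · push_cast
      linarith
    · have h4 : ∑ v ∈ pls K z (z ^ 2), (nv v)⁻¹ * (Real.log (nv v))⁻¹ ≤ 2 * C * (Real.log z)⁻¹ := by
        refine le_trans ?_ (mul_le_mul_of_nonneg_right h3 (inv_nonneg.2 hl.le))
        rw [sum_mul]
        exact sum_le_sum fun v hv => mul_le_mul_of_nonneg_left
          (inv_anti₀ hl (Real.log_le_log (by linarith) (mem_pls.1 hv).1.le))
          (inv_nonneg.2 (nv_pos v).le)
      refine (add_le_add h4 (h2 hC)).trans (le_of_eq ?_)
      rw [Real.log_pow]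
      push_cast
      field_simp
      ring

theorem one (hC : 0 ≤ C) {y z : ℝ} (hy : 2 ≤ y) (hz : y ≤ z) :
    ∑ v ∈ pls K y z, (nv v)⁻¹ ≤ 4 * C * (1 + Real.log (Real.log z / Real.log y)) := by
  have hl := log_pos hy
  have h1 : 1 ≤ Real.log z / Real.log y := (one_le_div hl).2 (Real.log_le_log (by linarith) hz)
  obtain ⟨n, h2, h3⟩ := exists_nat_pow_near h1 one_lt_two
  have h4 : z ≤ y ^ 2 ^ (n + 1) := by
    rw [← Real.log_le_log_iff (by linarith) (by positivity), Real.log_pow]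
    rw [div_lt_iff₀ hl] at h3
    exact_mod_cast h3.le
  have h5 := Real.log_le_log (by positivity) h2
  rw [Real.log_pow] at h5
  have h6 := Real.log_two_gt_d9
  have h7 : (0 : ℝ) ≤ n := Nat.cast_nonneg n
  refine (sum_le_sum_of_subset_of_nonneg (pls_mono le_rfl h4)
    fun v _ _ => inv_nonneg.2 (nv_pos v).le).trans ((blocks h (n + 1) y hy).1.trans ?_)
  push_cast
  have h8 : (n : ℝ) + 1 ≤ 2 * (1 + Real.log (Real.log z / Real.log y)) := by nlinarith
  nlinarith [mul_le_mul_of_nonneg_left h8 hC]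

theorem tail (hC : 0 ≤ C) {z σ : ℝ} (hz : 2 ≤ z) (hσ : 0 < σ) (h1 : 1 ≤ σ * Real.log z)
    {S : Finset (Pl K)} (hS : ∀ v ∈ S, z < nv v) : ∑ v ∈ S, nv v ^ (-(1 + σ)) ≤ 4 * C := by
  obtain ⟨J, hJ⟩ := pow_unbounded_of_one_lt (∑ v ∈ S, nv v) one_lt_two
  have h2 : S ⊆ pls K z (z ^ 2 ^ J) := fun v hv => mem_pls.2 ⟨hS v hv,
    ((single_le_sum (fun v _ => (nv_pos v).le) hv).trans hJ.le).trans
      ((pow_le_pow_right₀ one_le_two Nat.lt_two_pow_self.le).trans
        (pow_le_pow_left₀ two_pos.le hz _))⟩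
  have h3 := (sum_le_sum_of_subset_of_nonneg h2 fun v _ _ => mul_nonneg
    (inv_nonneg.2 (nv_pos v).le) (inv_nonneg.2 (log_nv_pos v).le)).trans ((blocks h J z hz).2 hC)
  have h4 : ∑ v ∈ S, nv v ^ (-(1 + σ)) ≤ σ⁻¹ * ∑ v ∈ S, (nv v)⁻¹ * (Real.log (nv v))⁻¹ := by
    rw [mul_sum]
    refine sum_le_sum fun v _ => ?_
    have h5 := nv_pos v
    have h6 := log_nv_pos v
    have h7 := Real.log_le_rpow_div h5.le hσ
    rw [le_div_iff₀ hσ] at h7
    rw [Real.rpow_neg h5.le, Real.rpow_add h5, Real.rpow_one, ← mul_inv, ← mul_inv]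
    refine inv_anti₀ (by positivity) ?_
    nlinarith [mul_le_mul_of_nonneg_left h7 h5.le]
  refine h4.trans ((mul_le_mul_of_nonneg_left h3 (inv_nonneg.2 hσ.le)).trans ?_)
  rw [inv_mul_eq_div, div_div, mul_comm _ σ]
  exact div_le_self (by positivity) h1

theorem two (hC : 0 ≤ C) {y σ : ℝ} {S : Finset (Pl K)} (hy : 2 ≤ y) (hσ : 0 < σ)
    (hS : ∀ v ∈ S, y < nv v) : ∑ v ∈ S, nv v ^ (-(1 + σ)) ≤
      8 * C * (1 + max 0 (Real.log (1 / (σ * Real.log y)))) := by
  obtain ⟨z, h1, h2, h3⟩ : ∃ z, y ≤ z ∧ 1 ≤ σ * Real.log z ∧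
      Real.log (Real.log z / Real.log y) ≤ max 0 (Real.log (1 / (σ * Real.log y))) := by
    rcases le_total y (Real.exp (1 / σ)) with e | e
    · refine ⟨_, e, ?_, ?_⟩ <;> rw [Real.log_exp]
      · rw [mul_one_div_cancel hσ.ne']
      · rw [div_div]
        exact le_max_right _ _
    · refine ⟨y, le_rfl, ?_, ?_⟩
      · rw [← Real.le_log_iff_exp_le (by linarith), div_le_iff₀ hσ] at e
        linarith
      · rw [div_self (log_pos hy).ne', Real.log_one]
        exact le_max_left _ _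
  have h4 := tail h hC (hy.trans h1) hσ h2 (S := S.filter fun v => ¬nv v ≤ z)
    fun v hv => not_le.1 (mem_filter.1 hv).2
  have h5 : ∑ v ∈ S.filter fun v => nv v ≤ z, nv v ^ (-(1 + σ)) ≤ ∑ v ∈ pls K y z, (nv v)⁻¹ := by
    refine le_trans (sum_le_sum fun v _ => ?_) (sum_le_sum_of_subset_of_nonneg
      (fun v hv => mem_pls.2 ⟨hS v (mem_filter.1 hv).1, (mem_filter.1 hv).2⟩)
      fun v _ _ => inv_nonneg.2 (nv_pos v).le)
    rw [← Real.rpow_neg_one]
    exact Real.rpow_le_rpow_of_exponent_le (one_le_two.trans (two_le_NN v)) (by linarith)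
  have h6 := one h hC hy h1
  have h7 := le_max_left 0 (Real.log (1 / (σ * Real.log y)))
  rw [← sum_filter_add_sum_filter_not S fun v => nv v ≤ z]
  nlinarith [mul_le_mul_of_nonneg_left h3 hC, mul_nonneg hC h7]

end PCH2

open PCH2

theorem y_cH2 (c : Cx k K) (hCH1 : Y_CH1 K) : Y_CH2 K := by
  obtain ⟨C, hC, h⟩ := hCH1
  obtain ⟨-, C', hC', h'⟩ := c.cnt.2 (3 / 2) (by norm_num)
  have C0 : 0 ≤ C := by linarith
  have h0 := fun y hy => (h y hy).2
  refine ⟨20 * C + 2 * C', by linarith, fun y z hy hz => (one h0 C0 hy hz).trans ?_,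
    fun y σ S hy hσ hS => (two h0 C0 hy hσ hS).trans ?_, fun σ S hσ hσ' => ?_,
    fun W S hW hS => ?_⟩
  · have := Real.log_nonneg
      ((one_le_div (log_pos hy)).2 (Real.log_le_log (by linarith) hz))
    exact mul_le_mul_of_nonneg_right (by linarith) (by linarith)
  · exact mul_le_mul_of_nonneg_right (by linarith) (by positivity)
  · have h1 := two h0 C0 le_rfl hσ (S := S.filter fun v => ¬nv v ≤ 2)
      fun v hv => not_le.1 (mem_filter.1 hv).2
    have h2 := Real.log_two_gt_d9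
    have h3 := Real.log_two_lt_d9
    have h4 : 0 ≤ Real.log (1 / σ) := Real.log_nonneg ((one_le_div hσ).2 hσ')
    have h5 : max 0 (Real.log (1 / (σ * Real.log 2))) ≤ 1 + Real.log (1 / σ) := by
      refine max_le (by linarith) ((Real.log_le_log (by positivity)
        (show _ ≤ 2 * (1 / σ) from ?_)).trans ?_)
      · rw [mul_one_div, div_le_div_iff₀ (by positivity) hσ]
        nlinarith
      · rw [Real.log_mul two_ne_zero (by positivity)]
        linarith
    have h6 : ∑ v ∈ S.filter fun v => nv v ≤ 2, nv v ^ (-(1 + σ)) ≤ 4 * C := by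
      refine (sum_le_card_nsmul _ _ 1 fun v _ => Real.rpow_le_one_of_one_le_of_nonpos
        (one_le_two.trans (two_le_NN v)) (by linarith)).trans ?_
      have h7 : ((S.filter fun v => nv v ≤ 2).card : ℝ) ≤ (pls K 0 2).card :=
        Nat.cast_le.2 (card_le_card fun v hv => mem_pls.2 ⟨nv_pos v, (mem_filter.1 hv).2⟩)
      rw [nsmul_eq_mul, mul_one]
      refine h7.trans ((h 2 le_rfl).1.trans ?_)
      rw [div_le_iff₀ (by linarith)]
      nlinarith
    rw [← sum_filter_add_sum_filter_not S fun v => nv v ≤ 2]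
    nlinarith [mul_le_mul_of_nonneg_left h5 C0, mul_nonneg C0 h4,
      mul_nonneg (zero_le_one.trans hC') h4]
  · have h1 := h' W (S.image fun v => v.asIdeal) hW fun I hI => by
      obtain ⟨v, hv, rfl⟩ := mem_image.1 hI
      exact (hS v hv).le
    rw [sum_image fun _ _ _ _ e => HeightOneSpectrum.ext e,
      show (1 : ℝ) - 3 / 2 = -(1 / 2) by norm_num, Real.rpow_neg (by linarith),
      ← Real.sqrt_eq_rpow, ← div_eq_mul_inv] at h1
    have h2 : ∑ v ∈ S, Real.log (nv v) / nv v ^ 2 ≤ 2 * ∑ v ∈ S, nv v ^ (-(3 / 2 : ℝ)) := by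
      rw [mul_sum]
      refine sum_le_sum fun v _ => ?_
      have h3 := nv_pos v
      have h4 := Real.log_le_rpow_div h3.le (show (0 : ℝ) < 1 / 2 by norm_num)
      rw [show -(3 / 2 : ℝ) = 1 / 2 - (2 : ℕ) by norm_num, Real.rpow_sub h3, Real.rpow_natCast,
        ← mul_div_assoc]
      exact div_le_div_of_nonneg_right (by linarith) (by positivity)
    refine h2.trans ((mul_le_mul_of_nonneg_left h1 zero_le_two).trans ?_)
    rw [← mul_div_assoc]
    exact div_le_div_of_nonneg_right (by linarith) (Real.sqrt_nonneg _)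

end Pool.Agent.P.MP_b8021b_nt.BP
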