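import Pool.Agent.P.MP_b8021b_nt.BP.StC

/-! The blocks of twists. -/

namespace Pool.Agent.P.MP_b8021b_nt.BP

open NumberField IsDedekindDomain Finset MeasureTheory
open Pool.Agent.P.MP_b8021b_nt.VE Pool.Agent.P.MP_b8021b_nt.VC Pool.Agent.P.MP_b8021b_nt.BS.CF
open Pool.Agent.P.MP_b8021b_nt.BS
open scoped Classical ComplexConjugate Real

variable {k : Type} [Field k] [NumberField k] [Algebra k ℂ] {K : Type} [Field K] [NumberField K]
  [Algebra k K]

theorem y_cON1 (c : Cx k K) (hBLK : Y_BLK K) (hAUX : Y_AUX k K) : Y_CON1 k K := by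
  intro ζ hζ
  obtain ⟨n₁, h1, hA⟩ := hAUX ζ hζ
  obtain ⟨B, c₀, y₀, hB, hc, hK⟩ := hBLK ζ hζ
  refine ⟨n₁, h1, fun n hn h2 => ?_⟩
  obtain ⟨𝒜, ax, tg, C₁, c1, a1, a2, a3⟩ := hA (n ^ 2) (hn.trans (dvd_pow_self n two_ne_zero))
    (by nlinarith)
  have n0 : n ≠ 0 := by omega
  set C := C₁ ^ 2 + NN (sp (n : 𝓞 K)) with hC
  have N0 : 0 ≤ NN (sp (n : 𝓞 K)) := Nat.cast_nonneg _
  have c2 : C₁ ≤ C := by nlinarith
  have c3 : ∀ v : Pl K, Dv n v → nv v ≤ C := fun v h =>
    (nv_le_of_dv n0 h).trans (le_add_of_nonneg_left (by positivity))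
  have key : ∀ i (S : Finset (Pl K)), (∀ v ∈ S, C < nv v) → ∃ a ⊆ 𝒜 i, a.card ≤ 2 ∧
      sp (tg i (eI S)) = eI S * eI a ∧ Pri (n ^ 2) (tg i (eI S)) ∧ pr (tg i (eI S)) = S ∪ a ∧
      Bal k C₁ (nS S) (tg i (eI S)) := fun i S hS => by
    obtain ⟨b1, b2, b3, b4, b5⟩ := a3 i (eI S) ((cop_eI (pow_ne_zero 2 n0)).2 fun v hv e =>
      (hS v hv).not_ge (c3 v ((dv_pow v one_le_two).1 e)))
    have d : Disjoint S (ax i (eI S)) := disjoint_left.2 fun v hv hv' =>
      (hS v hv).not_ge ((a1 i v (b1 hv')).2.2.trans c2)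
    refine ⟨_, b1, b2, b4, ⟨b3, ?_⟩, ?_, b5⟩
    · rw [b4, ← eI_union d]
      exact squarefree_eI _
    · rw [← prI_sp, b4, ← eI_union d, prI_eI]
  have one : ∀ v : Pl K, C < nv v → ∀ w ∈ ({v} : Finset (Pl K)), C < nv w := fun v h w hw =>
    mem_singleton.1 hw ▸ h
  have e1 : ∀ v : Pl K, eI {v} = v.asIdeal := fun v => prod_singleton _ _
  have C0 : 0 ≤ C := by linarith
  refine ⟨𝒜, fun S => tg 0 (eI S), fun i v => tg i (eI {v}), C, B, c₀, max y₀ (B * C + B ^ 2),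
    c1.trans c2, hB, hc, c3, fun i v hv => ⟨(a1 i v hv).1, (a1 i v hv).2.2.trans c2⟩, a2,
    fun S hS => ?_, fun i v hv => ?_, fun i y hy => ?_⟩
  · obtain ⟨a, b1, b2, b3, b4, b5, b6⟩ := key 0 S hS
    have s0 := (nS_pos S).le
    have s1 : nS a ≤ C := by
      rw [nS_eq]
      calc _ ≤ C₁ ^ a.card := by
            rw [← prod_const]
            exact prod_le_prod (fun v _ => (nv_pos v).le) fun v hv => (a1 0 v (b1 hv)).2.2
        _ ≤ C₁ ^ 2 := pow_le_pow_right₀ c1 b2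
        _ ≤ C := le_add_of_nonneg_right N0
    refine ⟨b4, b6.mono c2 C0 s0 ?_, b5 ▸ subset_union_left, b5 ▸ union_subset_union_right b1, ?_⟩
    · rw [b3, NN_mul]
      exact le_mul_of_one_le_right s0 (one_le_nS a)
    · rw [b3, NN_mul, mul_comm]
      exact mul_le_mul_of_nonneg_right s1 s0
  · obtain ⟨a, b1, -, -, b4, b5, -⟩ := key i {v} (one v hv)
    refine ⟨ne_zero_of_sqf b4.2, b5 ▸ mem_union_left _ (mem_singleton_self v), ?_⟩
    rw [b5, insert_eq]
    exact union_subset_union_right b1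
  · have y1 : B * C + B ^ 2 ≤ y := (le_max_right _ _).trans hy
    have B0 : 0 < B := by linarith
    have y2 : 0 ≤ B * C := by positivity
    have y3 : 0 < B ^ 2 := by positivity
    have y4 : C ≤ y / B := (le_div_iff₀ B0).2 (by linarith)
    have y5 : √y ≤ y / B := by
      rw [le_div_iff₀ B0]
      calc √y * B ≤ √y * √y := by
            gcongr
            exact Real.le_sqrt_of_sq_le (by linarith)
        _ = y := Real.mul_self_sqrt (by linarith)
    have m : ∀ v ∈ (pls K (y / B) y).filter (Ins ζ), y / B < nv v ∧ nv v ≤ y := fun v hv =>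
      mem_pls.1 (mem_filter.1 hv).1
    have k1 := fun v hv => key i {v} (one v (y4.trans_lt (m v hv).1))
    have inj : ∀ v ∈ (pls K (y / B) y).filter (Ins ζ), ∀ w ∈ (pls K (y / B) y).filter (Ins ζ),
        sp (tg i (eI {v})) = sp (tg i (eI {w})) → v = w := fun v hv w hw e => by
      obtain ⟨a, -, -, -, -, b5, -⟩ := k1 v hv
      obtain ⟨a', b1, -, -, -, b5', -⟩ := k1 w hw
      rw [← prI_sp, e, prI_sp, b5'] at b5
      rcases mem_union.1 (b5 ▸ mem_union_left a (mem_singleton_self v)) with h | h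
      · exact mem_singleton.1 h
      · exact absurd ((a1 i v (b1 h)).2.2.trans c2) (y4.trans_lt (m v hv).1).not_ge
    refine ⟨⟨fun t ht => ?_, fun t ht => ?_, fun t ht => ?_, fun t ht t' ht' e => ?_⟩, ?_⟩
    · obtain ⟨v, hv, rfl⟩ := mem_image.1 ht
      obtain ⟨a, -, -, -, b4, -⟩ := k1 v hv
      exact b4
    · obtain ⟨v, hv, rfl⟩ := mem_image.1 ht
      obtain ⟨a, -, -, -, -, -, b6⟩ := k1 v hv
      refine b6.mono c2 C0 (nS_pos _).le ?_
      rw [nS, e1]
      exact (m v hv).2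
    · obtain ⟨v, hv, rfl⟩ := mem_image.1 ht
      obtain ⟨a, b1, b2, b3, -⟩ := k1 v hv
      refine ⟨v, a, b1.trans ?_, b2, by rw [b3, e1], y5.trans_lt (m v hv).1, (m v hv).2⟩
      fin_cases i
      · exact subset_union_left.trans subset_union_left
      · exact subset_union_right.trans subset_union_left
      · exact subset_union_right
    · obtain ⟨v, hv, rfl⟩ := mem_image.1 (mem_coe.1 ht)
      obtain ⟨w, hw, rfl⟩ := mem_image.1 (mem_coe.1 ht')
      rw [inj v hv w hw e]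
    · rw [card_image_of_injOn fun v hv w hw e => inj v hv w hw (congrArg sp e)]
      exact (hK y ((le_max_left _ _).trans hy)).1

end Pool.Agent.P.MP_b8021b_nt.BP
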