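import Pool.Agent.P.MP_b8021b_nt.BP.StC

/-! The expansion of the mollified polynomial along squarefree ideals. -/

namespace Pool.Agent.P.MP_b8021b_nt.BP

open NumberField IsDedekindDomain Finset MeasureTheory
open Pool.Agent.P.MP_b8021b_nt.VE Pool.Agent.P.MP_b8021b_nt.VC Pool.Agent.P.MP_b8021b_nt.BS.CF
open Pool.Agent.P.MP_b8021b_nt.BS
open scoped Classical ComplexConjugate Real
variable {k : Type} [Field k] [NumberField k] [Algebra k ℂ] {K : Type} [Field K] [NumberField K]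
  [Algebra k K]

set_option linter.unusedSectionVars false

namespace PDEC

/-- the sign vector attached to a set of places -/
noncomputable def xs (𝒱 T : Finset (Pl K)) (v : Pl K) : ℂ :=
  if v ∈ 𝒱 then 0 else if v ∈ T then -1 else 1

/-- the flip at one place -/
noncomputable def ef (w v : Pl K) : ℂ := if v = w then -1 else 1

theorem sgn_xs (𝒱 T : Finset (Pl K)) : Sgn (xs 𝒱 T) := fun v => by
  unfold xs; split_ifs <;> simp

theorem xs_zero (𝒱 T : Finset (Pl K)) (v : Pl K) : v ∈ 𝒱 ↔ xs 𝒱 T v = 0 := by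
  unfold xs; split_ifs <;> simp [*]

theorem flip {U : Finset (Pl K)} (𝒱 : Finset (Pl K)) {w : Pl K} (hw : w ∈ U) {I : Ideal (𝓞 K)}
    (h : sg (ef w) I = -1) : ∑ T ∈ U.powerset, sg (xs 𝒱 T) I = 0 := by
  rw [← insert_erase hw, sum_powerset_insert (notMem_erase w U), ← sum_add_distrib]
  refine sum_eq_zero fun T hT => ?_
  have h1 : w ∉ T := fun e => notMem_erase w U (mem_powerset.1 hT e)
  have e : xs 𝒱 (insert w T) = fun v => xs 𝒱 T v * ef w v := funext fun v => by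
    by_cases a : v = w <;> by_cases b : v ∈ 𝒱 <;> simp_all [xs, ef]
  rw [e, sg_mul_fun, h, mul_neg_one, add_neg_cancel]

theorem ef_one {w : Pl K} {I : Ideal (𝓞 K)} (hI : I ≠ ⊥) (h : w ∉ prI I) : sg (ef w) I = 1 := by
  rw [sg_eq_prod _ hI subset_rfl]
  exact prod_eq_one fun v hv => by rw [ef, if_neg fun e : v = w => h (e ▸ hv), one_pow]

theorem ef_eI {w : Pl K} {S : Finset (Pl K)} (h : w ∈ S) : sg (ef w) (eI S) = -1 := by
  rw [sg_eI, ← mul_prod_erase _ _ h,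
    prod_eq_one (f := ef w) fun v hv => if_neg (ne_of_mem_erase hv), mul_one]
  exact if_pos rfl

theorem orth {U 𝒱 S S' : Finset (Pl K)} (hU : Disjoint U 𝒱) (h : S ⊆ U) (h' : S' ⊆ U) :
    ∑ T ∈ U.powerset, sg (xs 𝒱 T) (eI S * eI S') = if S = S' then 2 ^ U.card else 0 := by
  split_ifs with e
  · rw [sum_congr rfl (g := fun _ => 1) fun T _ => ?_]
    · simp
    rw [e, sg_mul, sg_eI, ← prod_mul_distrib]
    refine prod_eq_one fun v hv => ?_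
    rw [xs, if_neg (disjoint_left.1 hU (h' hv))]
    split_ifs <;> simp
  · obtain ⟨w, hw⟩ := not_forall.1 fun a => e (Finset.ext a)
    by_cases a : w ∈ S
    · exact flip 𝒱 (h a) (by
        rw [sg_mul, ef_eI a, ef_one (eI_ne_bot _) (by rw [prI_eI]; tauto), mul_one])
    · have b : w ∈ S' := by tauto
      exact flip 𝒱 (h' b) (by
        rw [sg_mul, ef_eI b, ef_one (eI_ne_bot _) (by rwa [prI_eI]), one_mul])

theorem vanish {U S : Finset (Pl K)} (𝒱 : Finset (Pl K)) (h : S ⊆ U) {I : Ideal (𝓞 K)}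
    (hI : I ≠ ⊥) (hN : NN I < nS S) : ∑ T ∈ U.powerset, sg (xs 𝒱 T) (I * eI S) = 0 := by
  by_cases a : S ⊆ prI I
  · exact absurd (NN_le_of_le hI (Ideal.le_of_dvd
      ((PDec.eI_dvd hI).2 fun v hv => (mem_prI hI).1 (a hv)))) hN.not_ge
  · obtain ⟨w, h1, h2⟩ := not_subset.1 a
    exact flip 𝒱 (h h1) (by rw [sg_mul, ef_one hI h2, ef_eI h1, one_mul])

section

variable {h H W : ℝ → ℂ} {χ Ψ : Ideal (𝓞 K) →* ℂ} {ℓ Z : ℝ} {𝒰 : Finset (Pl K)}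

theorem integrable_term (hEV0 : Y_EV0) (hh : FR h) (hℓ : 0 < ℓ) (hH : Integrable H)
    (hχ : ∀ I, ‖χ I‖ ≤ 1) (hΨ : ∀ I, ‖Ψ I‖ ≤ 1) (S Q : Finset (Pl K)) :
    Integrable fun p : ℝ × ℝ => H p.1 * h p.2 * (OdP χ Ψ ℓ p.2 p.1 S * EvP χ Ψ ℓ p.2 p.1 Q) := by
  have h0 : Integrable h :=
    (integrable_norm_iff hh.cont.aestronglyMeasurable).1 (by simpa using hh.int 0)
  have hs : ∀ a, 0 ≤ (sx ℓ a).re := fun a => by rw [sx_re]; positivity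
  have m1 : ∀ v, Measurable fun p : ℝ × ℝ => cf χ (sx ℓ p.1) v := fun v =>
    (((continuous_cf χ v).comp (continuous_sx ℓ)).comp continuous_fst).measurable
  have m2 : ∀ v, Measurable fun p : ℝ × ℝ => cf Ψ (sx ℓ p.2) v := fun v =>
    (((continuous_cf Ψ v).comp (continuous_sx ℓ)).comp continuous_snd).measurable
  refine (hH.mul_prod h0).mul_bdd (c := 4 ^ S.card * 3 ^ Q.card)
    (Measurable.aestronglyMeasurable ?_) (.of_forall fun p => ?_)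
  · refine (Finset.measurable_fun_prod _ fun v _ => ?_).mul
      (Finset.measurable_fun_prod _ fun v _ => ?_)
    · exact ((m1 v).sub (m2 v)).div (((m1 v).pow_const 2).const_sub 1)
    · exact (((m2 v).mul (m1 v)).const_sub 1).div (((m1 v).pow_const 2).const_sub 1)
  · have e := fun v => hEV0 _ _ (norm_cf_sq hΨ (hs p.2) v) (norm_cf_sq hχ (hs p.1) v)
    rw [norm_mul, OdP, EvP, norm_prod, norm_prod, ← prod_const, ← prod_const]
    refine mul_le_mul (prod_le_prod (fun _ _ => norm_nonneg _) fun v _ => ?_)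
      (prod_le_prod (fun _ _ => norm_nonneg _) fun v _ => (e v).2.2.1)
      (prod_nonneg fun _ _ => norm_nonneg _) (prod_nonneg fun _ _ => by norm_num)
    have a1 := norm_cf_sq hΨ (hs p.2) v
    have a2 := norm_cf_sq hχ (hs p.1) v
    have a3 := norm_sub_le (cf χ (sx ℓ p.1) v) (cf Ψ (sx ℓ p.2) v)
    nlinarith [(e v).2.2.2.1, sq_nonneg (‖cf χ (sx ℓ p.1) v‖ - 1), sq_nonneg (‖cf Ψ (sx ℓ p.2) v‖ - 1)]

/-- the expansion over all sets of places -/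
theorem expand (hEV0 : Y_EV0) (hEXP : Y_EXP K) (hh : FR h) (hℓ : 0 < ℓ) (hW : Wt ℓ Z W H 0)
    (hχ : ∀ I, ‖χ I‖ ≤ 1) (hΨ : ∀ I, ‖Ψ I‖ ≤ 1) (h1 : pls K 0 Z ⊆ 𝒰)
    (h2 : pls K 0 (Real.exp ℓ) ⊆ 𝒰) {x : Pl K → ℂ} {𝒱 : Finset (Pl K)} (hx : Sgn x)
    (hV : ∀ v ∈ 𝒰, v ∈ 𝒱 ↔ x v = 0) :
    Aw χ x W Z * Mw Ψ x ℓ = ∑ S ∈ (𝒰 \ 𝒱).powerset, sg x (eI S) * dd χ Ψ H h ℓ 𝒰 S 𝒱 := by
  have hs : ∀ a, 0 ≤ (sx ℓ a).re := fun a => by rw [sx_re]; positivity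
  rw [(hEXP h H W χ Ψ x ℓ Z 0 𝒰 hh hℓ hW hχ hΨ hx h1 h2).2]
  simp only [dd, ← integral_const_mul]
  rw [← integral_finsetSum _ fun S _ => (integrable_term hEV0 hh hℓ hW.int hχ hΨ _ _).const_mul _]
  refine integral_congr_ae (.of_forall fun p => ?_)
  have e : ∏ v ∈ 𝒰, (1 - cf Ψ (sx ℓ p.2) v * x v) / (1 - cf χ (0 + sx ℓ p.1) v * x v) =
      ∏ v ∈ 𝒰 \ 𝒱, (Od (cf Ψ (sx ℓ p.2) v) (cf χ (sx ℓ p.1) v) * x v +
        Ev (cf Ψ (sx ℓ p.2) v) (cf χ (sx ℓ p.1) v)) := by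
    rw [← prod_subset (sdiff_subset (t := 𝒱)) fun v a b => by
      simp [(hV v a).1 (by simpa [a] using b)]]
    refine prod_congr rfl fun v hv => ?_
    obtain ⟨a, b⟩ := mem_sdiff.1 hv
    rw [zero_add, add_comm]
    exact (hEV0 _ _ (norm_cf_sq hΨ (hs p.2) v) (norm_cf_sq hχ (hs p.1) v)).2.2.2.2.2.2.2 _
      ((hx v).resolve_left fun z => b ((hV v a).2 z))
  simp only [e, prod_add, mul_sum]
  refine sum_congr rfl fun S _ => ?_
  rw [prod_mul_distrib, sg_eI, OdP, EvP, sdiff_right_comm]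
  ring

/-- the coefficients vanish for large norm -/
theorem dd_zero (hEV0 : Y_EV0) (hEXP : Y_EXP K) (hh : FR h) (hℓ : 0 < ℓ) (hW : Wt ℓ Z W H 0)
    (hχ : ∀ I, ‖χ I‖ ≤ 1) (hΨ : ∀ I, ‖Ψ I‖ ≤ 1) (h1 : pls K 0 Z ⊆ 𝒰)
    (h2 : pls K 0 (Real.exp ℓ) ⊆ 𝒰) {𝒱 S : Finset (Pl K)} (hS : S ⊆ 𝒰 \ 𝒱)
    (hN : Z * Real.exp ℓ < nS S) : dd χ Ψ H h ℓ 𝒰 S 𝒱 = 0 := by
  have a : ∑ T ∈ (𝒰 \ 𝒱).powerset,
      Aw χ (xs 𝒱 T) W Z * Mw Ψ (xs 𝒱 T) ℓ * sg (xs 𝒱 T) (eI S) =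
      2 ^ (𝒰 \ 𝒱).card * dd χ Ψ H h ℓ 𝒰 S 𝒱 := by
    simp only [expand hEV0 hEXP hh hℓ hW hχ hΨ h1 h2 (sgn_xs 𝒱 _) fun v _ => xs_zero 𝒱 _ v, sum_mul]
    rw [sum_comm, sum_congr rfl (g := fun S' => (if S' = S then 2 ^ (𝒰 \ 𝒱).card else 0) *
      dd χ Ψ H h ℓ 𝒰 S' 𝒱) fun S' h' => ?_]
    · simp [hS]
    · rw [← orth disjoint_sdiff_self_left (mem_powerset.1 h') hS, sum_mul]
      exact sum_congr rfl fun T _ => by rw [sg_mul]; ring
  refine (mul_eq_zero.1 (a.symm.trans ?_)).resolve_left (pow_ne_zero _ two_ne_zero)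
  simp only [Aw, Mw, sum_mul, mul_sum]
  rw [sum_comm]
  refine sum_eq_zero fun S' _ => ?_
  rw [sum_comm]
  refine sum_eq_zero fun J hJ => ?_
  obtain ⟨j0, j1⟩ := mem_ids.1 hJ
  by_cases b : Real.exp ℓ ≤ nS S'
  · simp [St_log hℓ b]
  have z := vanish 𝒱 hS (mul_ne_zero j0 (eI_ne_bot S')) (by
    rw [NN_mul]
    exact (mul_le_mul j1 (not_le.1 b).le (nS_pos _).le ((Nat.cast_nonneg _).trans j1)).trans_lt hN)
  rw [← mul_zero (χ J * W (NN J) / (√(NN J) : ℝ) *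
    ((-1) ^ S'.card * Ψ (eI S') * (St (Real.log (nS S') / ℓ) / √(nS S') : ℝ))), ← z, mul_sum]
  exact sum_congr rfl fun T _ => by rw [sg_mul, sg_mul]; ring

end

end PDEC

open PDEC in
theorem y_dEC (c : Cx k K) (hEV0 : Y_EV0) (hEXP : Y_EXP K) : Y_DEC K := by
  intro h H W χ Ψ ℓ Z 𝒰 hh hℓ hW hχ hΨ h1 h2 x 𝒱 hx hV
  have e : ∀ S ∈ 𝒰.powerset, S ∉ (𝒰 \ 𝒱).powerset → sg x (eI S) = 0 := fun S a b => by
    obtain ⟨v, c1, c2⟩ := not_subset.1 (mem_powerset.not.1 b)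
    have c3 := mem_powerset.1 a c1
    rw [sg_eI]
    exact prod_eq_zero c1 ((hV v c3).1 (by simpa [c3] using c2))
  rw [expand hEV0 hEXP hh hℓ hW hχ hΨ h1 h2 hx hV,
    sum_subset (powerset_mono.2 sdiff_subset) fun S a b => by rw [e S a b, zero_mul]]
  refine (sum_filter_of_ne fun S a b => not_lt.1 fun l => b ?_).symm
  by_cases d : S ∈ (𝒰 \ 𝒱).powerset
  · rw [dd_zero hEV0 hEXP hh hℓ hW hχ hΨ h1 h2 (mem_powerset.1 d) l, mul_zero]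
  · rw [e S a d, zero_mul]

end Pool.Agent.P.MP_b8021b_nt.BP
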