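import Pool.Agent.P.MP_b8021b_nt.BP.StC
import Pool.Agent.P.MP_b8021b_nt.BS.PoiGs

/-! Independence of the symbols and reduction to squarefree moduli. -/

namespace Pool.Agent.P.MP_b8021b_nt.BP

open NumberField IsDedekindDomain Finset MeasureTheory
open Pool.Agent.P.MP_b8021b_nt.VE Pool.Agent.P.MP_b8021b_nt.VC Pool.Agent.P.MP_b8021b_nt.BS.CF
open Pool.Agent.P.MP_b8021b_nt.BS
open scoped Classical ComplexConjugate Real
variable {k : Type} [Field k] [NumberField k] [Algebra k ℂ] {K : Type} [Field K] [NumberField K]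
  [Algebra k K]

namespace PDG1

theorem av_add {I : Ideal (𝓞 K)} (hI : I ≠ ⊥) (g g' : 𝓞 K → ℂ) :
    PoiN.av I (fun x => g x + g' x) = PoiN.av I g + PoiN.av I g' := by
  have := PoiN.finq hI
  unfold PoiN.av
  rw [finsum_add_distrib (Set.toFinite _) (Set.toFinite _), add_div]

theorem av_leg {v : Pl K} (h : ¬ Dv 2 v) : PoiN.av v.asIdeal (fun x => leg x v) = 0 := by
  obtain ⟨F, _, _, _, ρ, hs, hk, -⟩ := exists_res v
  have h2 : ringChar F ≠ 2 := fun e => h ((hk _).1 (by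
    rw [map_natCast, ← e]; exact ringChar.Nat.cast_ringChar))
  obtain ⟨a, ha⟩ := quadraticChar_exists_neg_one h2
  have a0 : a ≠ 0 := fun e => by simp [e] at ha
  obtain ⟨u, hu⟩ := hs a
  obtain ⟨u', hu'⟩ := hs a⁻¹
  refine PoiN.av_eq_zero (fun x y e => leg_congr e) (u := u) (u' := u')
    ((hk _).1 (by rw [map_sub, map_mul, hu, hu', map_one, mul_inv_cancel₀ a0, sub_self])) 0
    (c := -1) (by norm_num) fun x => ?_
  rw [add_zero, leg_mul, leg_eq_quad ρ hs hk u, hu, ha, Int.cast_neg, Int.cast_one]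

theorem mem_eI {x : 𝓞 K} {E : Finset (Pl K)} : x ∈ eI E ↔ ∀ v ∈ E, x ∈ v.asIdeal := by
  by_cases h : x = 0
  · simp [h]
  · rw [← Ideal.span_singleton_le_iff_mem, ← Ideal.dvd_iff_le, PDec.eI_dvd (by simpa using h)]
    simp only [Ideal.span_singleton_le_iff_mem]

theorem jac_zero {x : 𝓞 K} {I : Ideal (𝓞 K)} {v : Pl K} (hI : I ≠ ⊥) (hv : v ∈ prI I)
    (hx : x ∈ v.asIdeal) : jac x I = 0 := by
  rw [jac_eq_prod hI (prI I) fun w e => (mem_prI hI).2 e]
  exact prod_eq_zero hv (by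
    rw [leg_eq_zero.2 hx, zero_pow fun e => (cnt_eq_zero v).1 e ((mem_prI hI).1 hv)])

theorem jac_exp {q s : Ideal (𝓞 K)} (hq : q ≠ ⊥) (hs : s ≠ ⊥) (x : 𝓞 K) :
    jac x (q * s ^ 2) = ∑ E ∈ (prI s \ prI q).powerset,
      (-1) ^ E.card * if x ∈ eI E then jac x q else 0 := by
  have e : jac x (q * s ^ 2) =
      (∏ v ∈ prI s \ prI q, (1 + if x ∈ v.asIdeal then (-1 : ℂ) else 0)) * jac x q := by
    rw [jac_mul_right, jac_pow_right]
    by_cases h : ∃ v ∈ prI s, x ∈ v.asIdeal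
    · obtain ⟨v, h1, h2⟩ := h
      rw [jac_zero hs h1 h2, zero_pow two_ne_zero, mul_zero]
      by_cases h3 : v ∈ prI q
      · rw [jac_zero hq h3 h2, mul_zero]
      · rw [prod_eq_zero (mem_sdiff.2 ⟨h1, h3⟩) (by rw [if_pos h2, add_neg_cancel]), zero_mul]
    · push Not at h
      rw [prod_eq_one fun v hv => by rw [if_neg (h v (mem_sdiff.1 hv).1), add_zero],
        jac_eq_prod hs (prI s) fun w e => (mem_prI hs).2 e, ← prod_pow,
        prod_eq_one fun v hv => by rw [← pow_mul, mul_comm, pow_mul, leg_sq (h v hv), one_pow],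
        mul_one, one_mul]
  rw [e, prod_one_add, sum_mul]
  refine sum_congr rfl fun E _ => ?_
  rw [prod_ite_zero, prod_const]
  by_cases h : x ∈ eI E
  · rw [if_pos h, if_pos (mem_eI.1 h)]
  · rw [if_neg h, if_neg (mt mem_eI.2 h), zero_mul, mul_zero]

theorem av_jac (hDG1 : Y_DG1 K) {q : Ideal (𝓞 K)} (hq : Squarefree q) (h2 : Cop 2 q) :
    PoiN.av q (fun x => jac x q) = if q = ⊤ then 1 else 0 := by
  obtain ⟨S, rfl⟩ := exists_eI hq
  simp only [jac_eI]
  rw [hDG1.1 S fun _ z => z]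
  rcases S.eq_empty_or_nonempty with rfl | ⟨v, hv⟩
  · rw [prod_empty, if_pos eI_empty]
  · rw [if_neg fun e : eI S = ⊤ => v.isPrime.ne_top (top_le_iff.1 (e.ge.trans (eI_le_iff.2 hv)))]
    exact prod_eq_zero hv (av_leg ((cop_eI two_ne_zero).1 h2 v hv))

end PDG1

open PDG1

theorem y_dG1 (c : Cx k K) : Y_DG1 K := by
  refine ⟨fun 𝒰 g => ?_, fun v g h => ?_, fun 𝒰 J hJ h => ?_⟩
  · induction 𝒰 using Finset.induction_on with
    | empty => simpa using PoiN.av_const (eI_ne_bot (∅ : Finset (Pl K))) 1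
    | insert v S hv ih =>
      simp only [prod_insert hv]
      rw [eI_insert hv, PoiN.av_crt v.ne_bot (eI_ne_bot S) (PDec.cop_v.2 fun e => hv (eI_le_iff.1 e))
        (fun x y e => by rw [leg_congr e])
        fun x y e => prod_congr rfl fun w hw => by rw [leg_congr (eI_le_iff.2 hw e)], ih]
  · have e : ∀ x, g (leg x v) = (if x - 0 ∈ v.asIdeal then g 0 - (g 1 + g (-1)) / 2 else 0) +
        ((g 1 + g (-1)) / 2 + (g 1 - g (-1)) / 2 * leg x v) := fun x => by
      rw [sub_zero]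
      by_cases hx : x ∈ v.asIdeal
      · rw [if_pos hx, leg_eq_zero.2 hx]; ring
      · rcases leg_of_not_mem hx with e | e <;> rw [if_neg hx, e] <;> ring
    rw [PoiN.av_congr e, av_add v.ne_bot, av_add v.ne_bot, PoiN.av_ind, PoiN.av_const v.ne_bot,
      PoiN.av_const_mul, av_leg h, Complex.ofReal_natCast]
    ring
  · rw [← PoiN.av_le (mul_ne_zero (eI_ne_bot 𝒰) hJ) Ideal.mul_le_left fun x y e => ?_,
      PoiN.av_le (mul_ne_zero (eI_ne_bot 𝒰) hJ) Ideal.mul_le_right fun x y e => jac_congr e]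
    rw [jac_eq_prod hJ 𝒰 fun w e => h ((mem_prI hJ).2 e),
      jac_eq_prod hJ 𝒰 fun w e => h ((mem_prI hJ).2 e)]
    exact prod_congr rfl fun w hw => by rw [leg_congr (eI_le_iff.2 hw e)]

theorem y_rQ (c : Cx k K) (hDG1 : Y_DG1 K) : Y_RQ k K := by
  intro q s X hq h2 hs hX
  have q0 : q ≠ ⊥ := hq.ne_zero
  have n0 : q * s ^ 2 ≠ ⊥ := mul_ne_zero q0 (pow_ne_zero 2 hs)
  have e1 : SS k ⊤ (q * s ^ 2) X =
      ∑ E ∈ (prI s \ prI q).powerset, (-1) ^ E.card * SS k (eI E) q X := by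
    simp only [SS, Submodule.mem_top, if_true, jac_exp q0 hs, sum_mul, mul_assoc]
    rw [Summable.tsum_finsetSum fun E _ => Summable.mul_left _ ?_]
    · simp only [tsum_mul_left]
    refine .of_norm_bounded (c.gs.1 (fun _ => X ^ (-(1 / rk k K))) 0
      fun _ => Real.rpow_pos_of_pos hX _) fun x => ?_
    rw [norm_mul, Complex.norm_real, Real.norm_of_nonneg (gau_pos _ _).le, pow_zero]
    refine mul_le_mul_of_nonneg_right ?_ (gau_pos _ _).le
    split_ifs
    · exact norm_jac_le _ _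
    · simp
  have e2 : ∀ E ∈ (prI s \ prI q).powerset,
      PoiN.av (q * s ^ 2) (fun x => if x ∈ eI E then jac x q else 0) =
        (if q = ⊤ then 1 else 0) / (NN (eI E) : ℝ) := by
    intro E hE
    have hE := mem_powerset.1 hE
    have p1 : PoiN.Per (eI E) fun x => if x - 0 ∈ eI E then (1 : ℂ) else 0 := fun x y e => by
      simp only [sub_zero]
      exact if_congr ((eI E).sub_mem_iff_left ((eI E).neg_mem e) |>.symm.trans (by simp)).symm rfl rfl
    have p2 : PoiN.Per q fun x => jac x q := fun x y e => jac_congr e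
    have le : q * s ^ 2 ≤ eI E * q := by
      rw [mul_comm]
      exact Ideal.mul_mono_left (Ideal.dvd_iff_le.1 (((PDec.eI_dvd hs).2 fun v hv =>
        (mem_prI hs).1 (mem_sdiff.1 (hE hv)).1).trans (dvd_pow_self s two_ne_zero)))
    rw [PoiN.av_congr (g' := fun x => (if x - 0 ∈ eI E then (1 : ℂ) else 0) * jac x q)
        fun x => by simp,
      PoiN.av_le n0 le ((p1.mono Ideal.mul_le_left).mul (p2.mono Ideal.mul_le_right)),
      PoiN.av_crt (eI_ne_bot E) q0 ((isCoprime_iff (eI_ne_bot E) q0).2 (by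
        rw [prI_eI]; exact disjoint_left.2 fun v hv => (mem_sdiff.1 (hE hv)).2)) p1 p2,
      PoiN.av_ind, av_jac hDG1 hq h2, Complex.ofReal_natCast]
    ring
  rw [RJ, e1, PoiN.av_congr (jac_exp q0 hs), PoiN.av_sum n0, mul_sum, ← sum_sub_distrib]
  refine sum_congr rfl fun E hE => ?_
  rw [PoiN.av_const_mul, e2 E hE, Re2]
  split_ifs
  · push_cast; ring
  · ring

end Pool.Agent.P.MP_b8021b_nt.BP
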