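import Pool.Agent.P.MP_b8021b_nt.BP.StC

/-! The diagonal of the mollified second moment. -/

namespace Pool.Agent.P.MP_b8021b_nt.BP

open NumberField IsDedekindDomain Finset MeasureTheory
open Pool.Agent.P.MP_b8021b_nt.VE Pool.Agent.P.MP_b8021b_nt.VC Pool.Agent.P.MP_b8021b_nt.BS.CF
open Pool.Agent.P.MP_b8021b_nt.BS
open scoped Classical ComplexConjugate Real
variable {k : Type} [Field k] [NumberField k] [Algebra k ℂ] {K : Type} [Field K] [NumberField K] [Algebra k K]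

namespace PDIAG

theorem mink {ι α : Type} [Fintype ι] [MeasurableSpace α] (μ : Measure α) (F : ι → α → ℂ)
    (g : α → ℝ) (hF : ∀ i, Integrable (F i) μ) (hg : Integrable g μ) (h0 : ∀ p, 0 ≤ g p)
    (h : ∀ p, ∑ i, ‖F i p‖ ^ 2 ≤ g p ^ 2) : ∑ i, ‖∫ p, F i p ∂μ‖ ^ 2 ≤ (∫ p, g p ∂μ) ^ 2 := by
  set A : ι → ℂ := fun i => ∫ p, F i p ∂μ with hA
  set S : ℝ := ∑ i, ‖A i‖ ^ 2 with hS
  have hS0 : 0 ≤ S := sum_nonneg fun i _ => sq_nonneg _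
  have e1 : (S : ℂ) = ∫ p, ∑ i, conj (A i) * F i p ∂μ := by
    rw [integral_finsetSum _ fun i _ => (hF i).const_mul _, hS, Complex.ofReal_sum]
    refine sum_congr rfl fun i _ => ?_
    rw [integral_const_mul, Complex.conj_mul']
    simp
  have e2 : ∀ p, ‖∑ i, conj (A i) * F i p‖ ≤ √S * g p := by
    intro p
    refine (norm_sum_le _ _).trans ?_
    simp only [norm_mul, Complex.norm_conj]
    refine (Real.sum_mul_le_sqrt_mul_sqrt _ _ _).trans ?_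
    refine mul_le_mul_of_nonneg_left ?_ (Real.sqrt_nonneg _)
    exact Real.sqrt_le_iff.2 ⟨h0 p, h p⟩
  have e3 : S ≤ √S * ∫ p, g p ∂μ := by
    have := norm_integral_le_of_norm_le (hg.const_mul √S) (Filter.Eventually.of_forall e2)
    rwa [← e1, Complex.norm_real, Real.norm_of_nonneg hS0, integral_const_mul] at this
  have hI : 0 ≤ ∫ p, g p ∂μ := integral_nonneg h0
  have e4 : √S ≤ ∫ p, g p ∂μ := by
    by_contra hc
    have h1 := not_le.1 hc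
    have h2 : 0 < √S := hI.trans_lt h1
    have h3 := mul_lt_mul_of_pos_left h1 h2
    rw [Real.mul_self_sqrt hS0] at h3
    linarith
  exact (Real.sqrt_le_left hI).1 e4

theorem norm_av_real (I : Ideal (𝓞 K)) [Fintype (𝓞 K ⧸ I)] (r : 𝓞 K → ℝ) (hr : ∀ x, 0 ≤ r x) :
    ‖PoiN.av I fun x => (r x : ℂ)‖ = (∑ q : 𝓞 K ⧸ I, r q.out) / Ideal.absNorm I := by
  unfold PoiN.av
  rw [finsum_eq_sum_of_fintype, norm_div, Complex.norm_natCast, ← Complex.ofReal_sum,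
    Complex.norm_real, Real.norm_of_nonneg (sum_nonneg fun q _ => hr _)]

/-- the local factor -/
noncomputable def lf (a b t : ℂ) : ℂ := ((‖(1 - a * t) / (1 - b * t)‖ ^ 2 : ℝ) : ℂ)

theorem loc_alg (hE : Y_EV0) {a b : ℂ} {N δ : ℝ} (hN : 2 ≤ N) (hδ : 0 ≤ δ) (hδ2 : δ ≤ 2)
    (ha : ‖a‖ ^ 2 ≤ 1 / 2) (hb : ‖b‖ ^ 2 ≤ 1 / 2) (h1 : ‖b‖ * ‖b - a‖ ≤ δ / N)
    (h2 : ‖b - a‖ ^ 2 ≤ δ ^ 2 / N) :
    ‖lf a b 0 / (N : ℝ) + (1 - 1 / (N : ℝ)) * ((lf a b 1 + lf a b (-1)) / 2)‖ ≤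
      Real.exp (16 * (δ / N)) := by
  obtain ⟨-, -, -, e4, -, e6, -, e8⟩ := hE a b ha hb
  have hN0 : 0 < N := by linarith
  set E := Ev a b
  set O := Od a b
  have p1 : lf a b 0 / (N : ℝ) + (1 - 1 / (N : ℝ)) * ((lf a b 1 + lf a b (-1)) / 2) =
      ((1 / N + (1 - 1 / N) * (‖E‖ ^ 2 + ‖O‖ ^ 2) : ℝ) : ℂ) := by
    have q := parallelogram_law_with_norm ℂ E O
    have q1 : lf a b 0 = 1 := by simp [lf]
    have q2 : lf a b 1 = ((‖E + O‖ ^ 2 : ℝ) : ℂ) := by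
      rw [lf, e8 1 (Or.inl rfl), mul_one]
    have q3 : lf a b (-1) = ((‖E - O‖ ^ 2 : ℝ) : ℂ) := by
      rw [lf, e8 (-1) (Or.inr rfl), mul_neg_one, ← sub_eq_add_neg]
    have q4 : ‖E‖ ^ 2 + ‖O‖ ^ 2 = (‖E + O‖ ^ 2 + ‖E - O‖ ^ 2) / 2 := by linarith
    rw [q1, q2, q3, q4]
    push_cast
    ring
  set u := δ / N with hu
  have hu0 : 0 ≤ u := by positivity
  have hu1 : u ≤ 1 := by rw [hu, div_le_one hN0]; linarith
  have hE1 : ‖E‖ ≤ 1 + 2 * u := by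
    have := norm_add_le (E - 1) 1
    rw [sub_add_cancel, norm_one] at this
    linarith [mul_assoc 2 ‖b‖ ‖b - a‖]
  have hE2 : ‖E‖ ^ 2 ≤ 1 + 8 * u := by
    have := pow_le_pow_left₀ (norm_nonneg _) hE1 2
    nlinarith
  have hO2 : ‖O‖ ^ 2 ≤ 8 * u := by
    have q1 := pow_le_pow_left₀ (norm_nonneg _) e4 2
    have q2 : δ ^ 2 / N = δ * u := by rw [hu]; ring
    nlinarith
  have hi0 : 0 ≤ 1 / N := by positivity
  have hi1 : 1 / N ≤ 1 := by rw [div_le_one hN0]; linarith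
  have hn : 0 ≤ ‖E‖ ^ 2 + ‖O‖ ^ 2 := by positivity
  rw [p1, Complex.norm_real, Real.norm_of_nonneg
    (add_nonneg hi0 (mul_nonneg (by linarith) hn))]
  have q5 := mul_le_mul_of_nonneg_left (add_le_add hE2 hO2) (sub_nonneg.2 hi1)
  have q6 := Real.add_one_le_exp (16 * u)
  nlinarith [mul_nonneg hi0 hu0]

theorem loc (hE : Y_EV0) (hD : Y_DG1 K) {Ψ : Ideal (𝓞 K) →* ℂ} (hΨ : Ch 2 Ψ) {s s' : ℂ}
    (hs : 0 ≤ s.re) (hs' : 0 ≤ s'.re) (v : Pl K) :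
    ‖PoiN.av v.asIdeal fun x => lf (cf Ψ s v) (cf Ψ s' v) (leg x v)‖ ≤
      Real.exp (16 * (‖(nv v : ℂ) ^ (-s) - (nv v : ℂ) ^ (-s')‖ / nv v)) := by
  have hN := two_le_NN v
  have hN0 := nv_pos v
  by_cases h2 : Dv 2 v
  · have e : ∀ t, cf Ψ t v = 0 := fun t => by rw [cf, hΨ.zero v h2, zero_mul]
    have e' : (fun x => lf (cf Ψ s v) (cf Ψ s' v) (leg x v)) = fun _ => 1 := by
      funext x
      simp [lf, e]
    rw [e', PoiN.av_const v.ne_bot, norm_one]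
    exact Real.one_le_exp (by positivity)
  · rw [hD.2.1 v _ h2]
    set δ := ‖(nv v : ℂ) ^ (-s) - (nv v : ℂ) ^ (-s')‖ with hδ
    have hr : 0 ≤ (√(nv v))⁻¹ := by positivity
    have hr2 : (√(nv v))⁻¹ * (√(nv v))⁻¹ = (nv v)⁻¹ := by
      rw [← mul_inv, Real.mul_self_sqrt hN0.le]
    have hd : ‖cf Ψ s' v - cf Ψ s v‖ ≤ (√(nv v))⁻¹ * δ := by
      rw [cf_eq, cf_eq, ← mul_sub, norm_mul, norm_mul, Complex.norm_real, Real.norm_of_nonneg hr,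
        norm_sub_rev]
      exact mul_le_mul_of_nonneg_right (mul_le_of_le_one_left hr (hΨ.bd _)) (norm_nonneg _)
    refine loc_alg hE hN (norm_nonneg _) ?_ (norm_cf_sq hΨ.bd hs v) (norm_cf_sq hΨ.bd hs' v) ?_ ?_
    · have h1 : (1 : ℝ) ≤ nv v := by linarith
      linarith [norm_sub_le ((nv v : ℂ) ^ (-s)) ((nv v : ℂ) ^ (-s')), norm_cpow_le h1 hs,
        norm_cpow_le h1 hs']
    · refine (mul_le_mul (norm_cf hΨ.bd hs' v) hd (norm_nonneg _) hr).trans (le_of_eq ?_)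
      rw [← mul_assoc, hr2, div_eq_inv_mul]
    · refine (pow_le_pow_left₀ (norm_nonneg _) hd 2).trans (le_of_eq ?_)
      rw [mul_pow, sq (√(nv v))⁻¹, hr2, div_eq_inv_mul]

theorem glob (hE : Y_EV0) (hU : Y_EU K) (hD : Y_DG1 K) : ∃ j : ℕ, ∀ (Ψ : Ideal (𝓞 K) →* ℂ)
    (ℓ a a' b : ℝ) (𝒰 : Finset (Pl K)), Ch 2 Ψ → 1 ≤ ℓ →
    ‖PoiN.av (eI 𝒰) fun x => ((‖∏ v ∈ 𝒰, (1 - cf Ψ (sx ℓ a) v * leg x v) /
      (1 - cf Ψ (sx ℓ b + sx ℓ a') v * leg x v)‖ ^ 2 : ℝ) : ℂ)‖ ≤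
      (((6 * (1 + |b|)) ^ j * (1 + |a'|) ^ j) * (1 + |a|) ^ j) ^ 2 := by
  obtain ⟨C, hC, hU⟩ := hU
  refine ⟨⌈8 * C⌉₊, fun Ψ ℓ a a' b 𝒰 hΨ hℓ => ?_⟩
  have hl : 0 < ℓ := by linarith
  have e : (fun x : 𝓞 K => ((‖∏ v ∈ 𝒰, (1 - cf Ψ (sx ℓ a) v * leg x v) /
      (1 - cf Ψ (sx ℓ b + sx ℓ a') v * leg x v)‖ ^ 2 : ℝ) : ℂ)) = fun x => ∏ v ∈ 𝒰,
      lf (cf Ψ (sx ℓ a) v) (cf Ψ (sx ℓ b + sx ℓ a') v) (leg x v) := by
    funext x
    rw [norm_prod, ← prod_pow, Complex.ofReal_prod]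
    rfl
  have hi : 0 ≤ 1 / ℓ := by positivity
  have r1 : 1 / ℓ ≤ (sx ℓ a).re := (sx_re ℓ a).ge
  have r2 : 1 / ℓ ≤ (sx ℓ b + sx ℓ a').re := by
    rw [Complex.add_re, sx_re, sx_re]
    linarith
  rw [e, hD.1 𝒰 fun v t => lf (cf Ψ (sx ℓ a) v) (cf Ψ (sx ℓ b + sx ℓ a') v) t, norm_prod]
  refine (prod_le_prod (fun v _ => norm_nonneg _) fun v _ =>
    loc hE hD hΨ (hi.trans r1) (hi.trans r2) v).trans ?_
  set U := 2 + |a| + |a'| + |b| with hUd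
  have ha := abs_nonneg a
  have ha' := abs_nonneg a'
  have hb := abs_nonneg b
  have hU1 : 1 ≤ U := by linarith
  have q := hU ℓ U (sx ℓ a) (sx ℓ b + sx ℓ a') 𝒰 hℓ hU1 r1 r2
    ((norm_sx hl a).trans (div_le_div_of_nonneg_right (by linarith) hl.le))
    ((norm_add_le _ _).trans ((add_le_add (norm_sx hl b) (norm_sx hl a')).trans (by
      rw [← add_div]
      exact div_le_div_of_nonneg_right (by linarith) hl.le)))
  rw [← Real.exp_sum, ← mul_sum]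
  have hlog := Real.log_nonneg hU1
  have q1 : 16 * (C * (1 + Real.log U)) ≤ (2 : ℕ) * ((⌈8 * C⌉₊ : ℕ) * (1 + Real.log U)) := by
    have := mul_le_mul_of_nonneg_right (Nat.le_ceil (8 * C)) (add_nonneg zero_le_one hlog)
    push_cast
    linarith
  refine (Real.exp_le_exp.2 ((mul_le_mul_of_nonneg_left q (by norm_num)).trans q1)).trans ?_
  rw [Real.exp_nat_mul, Real.exp_nat_mul, ← mul_pow, ← mul_pow]
  refine pow_le_pow_left₀ (by positivity) (pow_le_pow_left₀ (by positivity) ?_ _) 2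
  rw [Real.exp_add, Real.exp_log (by linarith)]
  have q2 : Real.exp 1 ≤ 3 := Real.exp_one_lt_d9.le.trans (by norm_num)
  have q3 : U ≤ 2 * (1 + |b|) * (1 + |a'|) * (1 + |a|) := by
    have t1 := mul_nonneg ha ha'
    have t2 := mul_nonneg ha hb
    have t3 := mul_nonneg ha' hb
    have t4 := mul_nonneg t1 hb
    nlinarith
  nlinarith [mul_le_mul q2 q3 (by linarith) (by norm_num : (0 : ℝ) ≤ 3)]

end PDIAG

open PDIAG in
theorem y_dIAG (c : Cx k K) (hFI : Y_FI) (hWB : Y_WB) (hEV0 : Y_EV0) (hEU : Y_EU K)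
    (hEXP : Y_EXP K) (hDG1 : Y_DG1 K) : Y_DIAG K := by
  obtain ⟨h, hh⟩ := hFI
  obtain ⟨C₀, -, hW⟩ := hWB h hh
  obtain ⟨j, hj⟩ := glob hEV0 hEU hDG1
  set w : ℝ → ℝ := fun a => (1 + |a|) ^ j * ‖h a‖ with hw
  set I : ℝ := ∫ a, w a with hI
  refine ⟨1 + (6 ^ j * (I * I)) ^ 2, 2 * j, le_add_of_nonneg_right (sq_nonneg _), ?_⟩
  intro Ψ ℓ Y Z b 𝒰 hΨ hℓ hY hZ hsub
  have hl : 0 < ℓ := by linarith
  have hY0 : 0 < Y := by linarith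
  have hWt := (hW ℓ Y b hℓ hY0).1
  rw [← hZ] at hWt
  have hsub' : pls K 0 (Real.exp ℓ) ⊆ 𝒰 := (pls_mono le_rfl (by
    rw [hZ]; exact le_mul_of_one_le_left (Real.exp_pos _).le hY)).trans hsub
  have hX := fun x : 𝓞 K => hEXP h _ _ Ψ Ψ (leg x) ℓ Z _ 𝒰 hh hl hWt hΨ.bd hΨ.bd (sgn_leg x)
    hsub hsub'
  have := PoiN.finq (eI_ne_bot 𝒰)
  have := Fintype.ofFinite (𝓞 K ⧸ eI 𝒰)
  have hN : (0 : ℝ) < Ideal.absNorm (eI 𝒰) := nS_pos 𝒰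
  set N : ℝ := ((Ideal.absNorm (eI 𝒰) : ℕ) : ℝ) with hNd
  set D : ℝ := √N * (Y ^ (1 / ℓ) * (6 * (1 + |b|)) ^ j) with hDd
  have hint : Integrable (fun p : ℝ × ℝ => D * (w p.1 * w p.2)) :=
    ((hh.int j).mul_prod (hh.int j)).const_mul D
  have key := mink volume (fun (q : 𝓞 K ⧸ eI 𝒰) (p : ℝ × ℝ) => h p.1 * (Y : ℂ) ^ sx ℓ p.1 * h p.2 *
      ∏ v ∈ 𝒰, (1 - cf Ψ (sx ℓ p.2) v * leg q.out v) /
        (1 - cf Ψ (sx ℓ b + sx ℓ p.1) v * leg q.out v)) (fun p => D * (w p.1 * w p.2))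
    (fun q => (hX q.out).1) hint (fun p => by positivity) (fun p => by
      have q1 := hj Ψ ℓ p.2 p.1 b 𝒰 hΨ hℓ
      rw [norm_av_real _ _ (fun x => sq_nonneg _), div_le_iff₀ hN] at q1
      simp only [norm_mul (h p.1 * (Y : ℂ) ^ sx ℓ p.1 * h p.2), mul_pow, ← mul_sum]
      refine (mul_le_mul_of_nonneg_left q1 (sq_nonneg _)).trans (le_of_eq ?_)
      rw [norm_mul, norm_mul, Complex.norm_cpow_eq_rpow_re_of_pos hY0, sx_re, hDd, mul_pow √N,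
        Real.sq_sqrt hN.le]
      simp only [hw]
      ring)
  have e1 : ∫ p : ℝ × ℝ, D * (w p.1 * w p.2) = D * (I * I) := by
    rw [integral_const_mul, Measure.volume_eq_prod, integral_prod_mul]
  rw [e1] at key
  rw [norm_av_real _ _ (fun x => sq_nonneg _), div_le_iff₀ hN]
  simp only [fun x => (hX x).2]
  refine key.trans ?_
  have e2 : Y ^ (2 / ℓ) = (Y ^ (1 / ℓ)) ^ 2 := by
    rw [← Real.rpow_natCast, ← Real.rpow_mul hY0.le]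
    congr 1
    push_cast
    ring
  have e3 : (D * (I * I)) ^ 2 = (6 ^ j * (I * I)) ^ 2 * Y ^ (2 / ℓ) * (1 + |b|) ^ (2 * j) * N := by
    rw [hDd, e2, mul_pow, mul_pow √N, Real.sq_sqrt hN.le, mul_pow 6]
    ring
  rw [e3]
  gcongr
  linarith

end Pool.Agent.P.MP_b8021b_nt.BP
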