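import Pool.Agent.P.MP_b8021b_nt.BP.StC

/-! The divisor bound and the harmonic sum. -/

namespace Pool.Agent.P.MP_b8021b_nt.BP

open NumberField IsDedekindDomain Finset MeasureTheory
open Pool.Agent.P.MP_b8021b_nt.VE Pool.Agent.P.MP_b8021b_nt.VC Pool.Agent.P.MP_b8021b_nt.BS.CF
open Pool.Agent.P.MP_b8021b_nt.BS
open scoped Classical ComplexConjugate Real

variable {k : Type} [Field k] [NumberField k] [Algebra k ℂ] {K : Type} [Field K] [NumberField K] [Algebra k K]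

namespace PDIV

variable {I : Ideal (𝓞 K)}

theorem NN_prod (hI : I ≠ ⊥) : NN I = ∏ v ∈ prI I, nv v ^ cnt v I := by
  have h := (cpow_eq_sg 1 hI).trans (sg_eq_prod _ hI subset_rfl)
  simp only [Complex.cpow_one] at h
  exact_mod_cast h

theorem ncard_le (hI : I ≠ ⊥) : Set.ncard {J | J ∣ I} ≤ ∏ v ∈ prI I, (cnt v I + 1) := by
  have h0 : ∀ J, J ∣ I → J ≠ ⊥ := fun J h e => hI (zero_dvd_iff.1 (e ▸ h : (⊥ : Ideal (𝓞 K)) ∣ I))
  have h := Set.ncard_le_ncard_of_injOn (s := {J | J ∣ I})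
    (t := SetLike.coe ((prI I).pi fun v => range (cnt v I + 1)))
    (fun J v _ => cnt v J) (fun J hJ => mem_coe.2 (mem_pi.2 fun v _ =>
      mem_range.2 (Nat.lt_succ_of_le ((dvd_iff_cnt (h0 J hJ) hI).1 hJ v))))
    (fun J hJ J' hJ' e => ext_cnt (h0 J hJ) (h0 J' hJ') fun v => by
      by_cases hv : v ∈ prI I
      · exact congrFun (congrFun e v) hv
      · have h1 := (dvd_iff_cnt (h0 J hJ) hI).1 hJ v
        have h2 := (dvd_iff_cnt (h0 J' hJ') hI).1 hJ' v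
        have h3 := (cnt_eq_zero v).2 fun e' => hv ((mem_prI hI).2 e')
        omega) (finite_toSet _)
  simpa only [Set.ncard_coe_finset, card_pi, card_range] using h

theorem mult {a ε : ℝ} (ha : 1 ≤ a) (hε : 0 < ε) : ∃ C : ℝ, 1 ≤ C ∧ ∀ I : Ideal (𝓞 K), I ≠ ⊥ →
    ∏ v ∈ prI I, a * (cnt v I + 1) ≤ C * NN I ^ ε := by
  obtain ⟨r, hr⟩ : ∃ r : ℝ, r = 2 ^ ε := ⟨_, rfl⟩
  have r1 : 0 < r - 1 := sub_pos.2 (hr ▸ Real.one_lt_rpow one_lt_two hε)
  obtain ⟨D, hD⟩ : ∃ D : ℝ, D = a * (1 + (r - 1)⁻¹) := ⟨_, rfl⟩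
  have D1 : 1 ≤ D :=
    hD ▸ one_le_mul_of_one_le_of_one_le ha (le_add_of_nonneg_right (by positivity))
  obtain ⟨F, hF⟩ : ∃ F, F = pls K 0 ((2 * a) ^ ε⁻¹) := ⟨_, rfl⟩
  refine ⟨D ^ F.card, one_le_pow₀ D1, fun I hI => ?_⟩
  have h1 : ∏ v ∈ prI I, (if v ∈ F then D else 1) ≤ D ^ F.card := by
    rw [prod_ite_mem, prod_const]
    exact pow_le_pow_right₀ D1 (card_le_card inter_subset_right)
  refine le_trans ?_ (mul_le_mul_of_nonneg_right h1 (by positivity))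
  rw [NN_prod hI, ← Real.finsetProd_rpow _ _ fun v _ => pow_nonneg (nv_pos v).le _,
    ← prod_mul_distrib]
  refine prod_le_prod (fun v _ => by positivity) fun v hv => ?_
  have e0 : cnt v I ≠ 0 := fun e => (cnt_eq_zero v).1 e ((mem_prI hI).1 hv)
  generalize cnt v I = e at e0
  rw [← Real.rpow_pow_comm (nv_pos v).le]
  split_ifs with h
  · have h2 : r ^ e ≤ (nv v ^ ε) ^ e :=
      pow_le_pow_left₀ (by linarith) (hr ▸ Real.rpow_le_rpow zero_le_two (two_le_NN v) hε.le) e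
    have h3 := one_add_mul_sub_le_pow (a := r) (by linarith) e
    refine le_trans ?_ (mul_le_mul_of_nonneg_left (h3.trans h2) (by linarith))
    rw [hD, mul_assoc]
    refine mul_le_mul_of_nonneg_left ?_ (by linarith)
    have h4 : (r - 1)⁻¹ * (e * (r - 1)) = e := by field_simp
    have h5 : 0 ≤ (r - 1)⁻¹ := by positivity
    have h6 : 0 ≤ e * (r - 1) := by positivity
    nlinarith
  · have h2 : (2 * a) ^ ε⁻¹ ≤ nv v := not_lt.1 fun l => h (hF ▸ mem_pls.2 ⟨nv_pos v, l.le⟩)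
    have h3 : 2 * a ≤ nv v ^ ε := (Real.rpow_inv_le_iff_of_pos (by linarith) (nv_pos v).le hε).1 h2
    have h4 : (e : ℝ) + 1 ≤ 2 ^ e := by exact_mod_cast Nat.lt_two_pow_self
    rw [one_mul]
    refine le_trans ?_ (pow_le_pow_left₀ (by linarith) h3 e)
    rw [mul_pow, mul_comm]
    exact mul_le_mul h4 (le_self_pow₀ ha e0) (by linarith) (by positivity)

theorem harm {C : ℝ} (h : ∀ y : ℝ, 0 ≤ y → ((ids K y).card : ℝ) ≤ C * y) (n : ℕ) :
    ∑ I ∈ ids K (2 ^ n), (NN I)⁻¹ ≤ C * (2 * n + 1) := by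
  induction n with
  | zero =>
    refine (sum_le_card_nsmul _ _ 1 fun I hI =>
      inv_le_one_of_one_le₀ (one_le_NN (mem_ids.1 hI).1)).trans ?_
    simpa using h 1 zero_le_one
  | succ n ih =>
    rw [← sum_filter_add_sum_filter_not _ (fun I => NN I ≤ 2 ^ n)]
    have h1 : ∑ I ∈ (ids K (2 ^ (n + 1))).filter (fun I => NN I ≤ 2 ^ n), (NN I)⁻¹ ≤
        ∑ I ∈ ids K (2 ^ n), (NN I)⁻¹ := sum_le_sum_of_subset_of_nonneg (fun I hI =>
      mem_ids.2 ⟨(mem_ids.1 (mem_filter.1 hI).1).1, (mem_filter.1 hI).2⟩) fun _ _ _ => by positivity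
    have h2 : ∑ I ∈ (ids K (2 ^ (n + 1))).filter (fun I => ¬ NN I ≤ 2 ^ n), (NN I)⁻¹ ≤ C * 2 := by
      refine (sum_le_card_nsmul _ _ (2 ^ n)⁻¹ fun I hI =>
        inv_anti₀ (by positivity) (not_le.1 (mem_filter.1 hI).2).le).trans ?_
      rw [nsmul_eq_mul, ← div_eq_mul_inv, div_le_iff₀ (by positivity), mul_assoc, ← pow_succ']
      exact le_trans (Nat.cast_le.2 (card_filter_le _ _)) (h _ (by positivity))
    push_cast
    linarith

end PDIV

open PDIV in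
theorem y_dIV (c : Cx k K) : Y_DIV K := by
  refine ⟨fun a ε ha hε => ?_, ?_⟩
  · obtain ⟨C, C1, h⟩ := mult (K := K) ha hε
    refine ⟨C, C1, fun I hI => ⟨le_trans ?_ (h I hI), le_trans ?_ (h I hI)⟩⟩
    · rw [← prod_const]
      exact prod_le_prod (fun _ _ => by linarith) fun v _ =>
        le_mul_of_one_le_right (by linarith) (le_add_of_nonneg_left (Nat.cast_nonneg _))
    · refine (Nat.cast_le.2 (ncard_le hI)).trans ?_
      push_cast
      exact prod_le_prod (fun _ _ => by positivity) fun v _ =>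
        le_mul_of_one_le_left (by positivity) ha
  obtain ⟨C, C1, h⟩ := c.cnt.1
  have h0 : ∀ y : ℝ, 0 ≤ y → ((ids K y).card : ℝ) ≤ C * y := fun y hy =>
    h y _ hy fun I hI => mem_ids.1 hI
  have C4 : ∀ y : ℝ, 0 ≤ y → C * y ≤ 4 * C * y := fun y hy => by nlinarith
  refine ⟨4 * C, by linarith, fun y hy => ⟨(h0 y (by linarith)).trans (C4 y (by linarith)), ?_,
    fun 𝔡 hd => ?_⟩⟩
  · obtain ⟨n, h1, h2⟩ := exists_nat_pow_near hy one_lt_two
    have h3 := Real.log_le_log (by positivity) h1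
    rw [Real.log_pow] at h3
    have h4 : (n : ℝ) ≤ 2 * Real.log y := by
      nlinarith [Real.log_two_gt_d9, (Nat.cast_nonneg n : (0 : ℝ) ≤ n)]
    refine (sum_le_sum_of_subset_of_nonneg (fun I hI => mem_ids.2
      ⟨(mem_ids.1 hI).1, (mem_ids.1 hI).2.trans h2.le⟩) fun _ _ _ => by positivity).trans
      ((harm h0 (n + 1)).trans ?_)
    push_cast
    nlinarith
  · have d0 := NN_pos hd
    have h1 : (ids K y).filter (fun J => J ≤ 𝔡) ⊆ (ids K (y / NN 𝔡)).image (𝔡 * ·) := fun J hJ => by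
      obtain ⟨h2, h3⟩ := mem_filter.1 hJ
      obtain ⟨J', rfl⟩ := Ideal.dvd_iff_le.2 h3
      obtain ⟨h4, h5⟩ := mem_ids.1 h2
      refine mem_image_of_mem _ (mem_ids.2 ⟨right_ne_zero_of_mul h4, ?_⟩)
      rwa [le_div_iff₀' d0, ← NN_mul]
    have y0 : 0 ≤ y / NN 𝔡 := by positivity
    rw [mul_div_assoc]
    exact (Nat.cast_le.2 ((card_le_card h1).trans card_image_le)).trans
      ((h0 _ y0).trans (C4 _ y0))

end Pool.Agent.P.MP_b8021b_nt.BP
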