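import Pool.Agent.P.MP_b8021b_nt.BP.StC

/-! Comparison of two exponents, and the finite Euler product against the series. -/

namespace Pool.Agent.P.MP_b8021b_nt.BP

open NumberField IsDedekindDomain Finset MeasureTheory
open Pool.Agent.P.MP_b8021b_nt.VE Pool.Agent.P.MP_b8021b_nt.VC Pool.Agent.P.MP_b8021b_nt.BS.CF
open Pool.Agent.P.MP_b8021b_nt.BS
open scoped Classical ComplexConjugate Real

variable {k : Type} [Field k] [NumberField k] [Algebra k ℂ] {K : Type} [Field K] [NumberField K]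
  [Algebra k K]

namespace PEU

theorem one_le_nv (v : Pl K) : 1 ≤ nv v := one_le_two.trans (two_le_NN v)

theorem diff_le (v : Pl K) {σ : ℝ} {α β : ℂ} (ha : σ ≤ α.re) (hb : σ ≤ β.re) :
    ‖(nv v : ℂ) ^ (-α) - (nv v : ℂ) ^ (-β)‖ ≤ 2 * nv v ^ (-σ) := by
  refine (norm_sub_le _ _).trans ?_
  rw [norm_cpow_neg (nv_pos v), norm_cpow_neg (nv_pos v), two_mul]
  exact add_le_add (Real.rpow_le_rpow_of_exponent_le (one_le_nv v) (neg_le_neg ha))
    (Real.rpow_le_rpow_of_exponent_le (one_le_nv v) (neg_le_neg hb))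

theorem tail {C σ a : ℝ} (hC : ∀ (X : ℝ) (𝒩 : Finset (Ideal (𝓞 K))), 0 ≤ X →
      (∀ I ∈ 𝒩, I ≠ ⊥ ∧ NN I ≤ X) → (𝒩.card : ℝ) ≤ C * X) (h1 : 1 ≤ C) (h0 : 0 < σ) (hσ : σ ≤ 1)
    (J : ℕ) (S : Finset (Pl K)) (hS : ∀ v ∈ S, Real.exp a < nv v ∧ nv v ≤ Real.exp (a + J)) :
    ∑ v ∈ S, nv v ^ (-(1 + σ)) ≤
      6 * C / σ * (Real.exp (-σ * a) - Real.exp (-σ * (a + J))) := by
  induction J generalizing S with
  | zero =>
    rw [sum_eq_zero fun v hv => absurd ((hS v hv).1.trans_le (hS v hv).2) (by simp)]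
    simp
  | succ J ih =>
    rw [← sum_filter_add_sum_filter_not S fun v => nv v ≤ Real.exp (a + J)]
    have h2 := ih (S.filter fun v => nv v ≤ Real.exp (a + J)) fun v hv =>
      ⟨(hS v (mem_filter.1 hv).1).1, (mem_filter.1 hv).2⟩
    set T := S.filter fun v => ¬ nv v ≤ Real.exp (a + J) with hT
    have h3 : (T.card : ℝ) ≤ C * Real.exp (a + (J + 1 : ℕ)) := by
      rw [← card_image_of_injective T (f := fun v => v.asIdeal) fun _ _ e => HeightOneSpectrum.ext e]
      refine hC _ _ (Real.exp_pos _).le fun I hI => ?_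
      obtain ⟨v, hv, rfl⟩ := mem_image.1 hI
      exact ⟨v.ne_bot, (hS v (mem_filter.1 hv).1).2⟩
    have h4 : ∑ v ∈ T, nv v ^ (-(1 + σ)) ≤ T.card • Real.exp (-(1 + σ) * (a + J)) :=
      sum_le_card_nsmul _ _ _ fun v hv => by
        rw [mul_comm, Real.exp_mul]
        exact Real.rpow_le_rpow_of_nonpos (Real.exp_pos _) (not_le.1 (mem_filter.1 hv).2).le
          (by linarith)
    set E := Real.exp (-σ * (a + J)) with hE
    have hE0 : 0 < E := Real.exp_pos _
    have h5 : Real.exp (a + (J + 1 : ℕ)) * Real.exp (-(1 + σ) * (a + J)) = Real.exp 1 * E := by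
      rw [hE, ← Real.exp_add, ← Real.exp_add]; congr 1; push_cast; ring
    have h6 : Real.exp (-σ * (a + (J + 1 : ℕ))) = E * Real.exp (-σ) := by
      rw [hE, ← Real.exp_add]; congr 1; push_cast; ring
    have h7 : Real.exp (-σ) ≤ 1 - σ / 2 := by
      rw [Real.exp_neg, inv_le_comm₀ (Real.exp_pos _) (by linarith)]
      refine le_trans ?_ (Real.add_one_le_exp σ)
      rw [inv_le_iff_one_le_mul₀ (by linarith)]
      nlinarith
    have h8 : ∑ v ∈ T, nv v ^ (-(1 + σ)) ≤ C * (3 * E) := by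
      refine h4.trans ?_
      rw [nsmul_eq_mul]
      refine (mul_le_mul_of_nonneg_right h3 (Real.exp_pos _).le).trans ?_
      rw [mul_assoc, h5]
      gcongr
      exact Real.exp_one_lt_three.le
    have h9 : C * (3 * E) ≤ 6 * C / σ * (E - E * Real.exp (-σ)) := by
      have : C * (3 * E) = 6 * C / σ * (E - E * (1 - σ / 2)) := by field_simp; ring
      rw [this]
      gcongr
    rw [h6]
    linarith

theorem tail' {C ℓ : ℝ} (hC : ∀ (X : ℝ) (𝒩 : Finset (Ideal (𝓞 K))), 0 ≤ X →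
      (∀ I ∈ 𝒩, I ≠ ⊥ ∧ NN I ≤ X) → (𝒩.card : ℝ) ≤ C * X) (h1 : 1 ≤ C) (hℓ : 1 ≤ ℓ)
    (S : Finset (Pl K)) (hS : ∀ v ∈ S, v ∉ PP K ℓ) :
    ∑ v ∈ S, nv v ^ (-(1 + 1 / ℓ)) ≤ 12 * C / ℓ := by
  have h0 : 0 < ℓ := by linarith
  obtain ⟨J, hJ⟩ := exists_nat_ge (nS S)
  refine (tail (a := ℓ ^ 2) hC h1 (by positivity) ((div_le_one h0).2 hℓ) J S fun v hv =>
    ⟨not_le.1 fun e => hS v hv (mem_pls.2 ⟨nv_pos v, e⟩), ?_⟩).trans ?_
  · have := Real.add_one_le_exp (ℓ ^ 2 + J)
    have := nv_le_nS hv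
    have := sq_nonneg ℓ
    linarith
  · have h2 : -(1 / ℓ) * ℓ ^ 2 = -ℓ := by field_simp
    have h3 : Real.exp (-ℓ) ≤ 2 / ℓ ^ 2 := by
      rw [Real.exp_neg, inv_le_comm₀ (Real.exp_pos _) (by positivity), inv_div]
      simpa using Real.pow_div_factorial_le_exp ℓ h0.le 2
    have h4 : 12 * C / ℓ = 6 * C / (1 / ℓ) * (2 / ℓ ^ 2 - 0) := by field_simp; ring
    rw [h2, h4]
    gcongr
    exact (Real.exp_pos _).le

end PEU

theorem y_eU (c : Cx k K) (hCH1 : Y_CH1 K) (hCH2 : Y_CH2 K) : Y_EU K := by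
  obtain ⟨C, hC, h1⟩ := hCH1
  obtain ⟨C', hC', -, h2, -⟩ := hCH2
  refine ⟨2 * C + 2 * C', by linarith, fun ℓ U α β S hℓ hU ha hb ha' hb' => ?_⟩
  have hl : 0 < ℓ := by linarith
  have hσ : 0 < 1 / ℓ := by positivity
  set y := max 2 (Real.exp (ℓ / U)) with hy
  have y2 : 2 ≤ y := le_max_left _ _
  have ly : 0 < Real.log y := Real.log_pos (by linarith)
  have lU := Real.log_nonneg hU
  have A : ∑ v ∈ S.filter (fun v => nv v ≤ y), ‖(nv v : ℂ) ^ (-α) - (nv v : ℂ) ^ (-β)‖ / nv v ≤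
      2 * C := by
    calc _ ≤ ∑ v ∈ S.filter (fun v => nv v ≤ y), 2 / Real.log y * (Real.log (nv v) / nv v) := by
          refine sum_le_sum fun v hv => ?_
          rw [← mul_div_assoc]
          refine div_le_div_of_nonneg_right ?_ (nv_pos v).le
          rcases max_choice 2 (Real.exp (ℓ / U)) with e | e
          · rw [le_antisymm (mem_filter.1 hv).2 ((hy.trans e).le.trans (two_le_NN v)),
              div_mul_cancel₀ _ ly.ne']
            refine (norm_sub_le _ _).trans ?_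
            have := norm_cpow_le (x := y) (by linarith) (hσ.le.trans ha)
            have := norm_cpow_le (x := y) (by linarith) (hσ.le.trans hb)
            linarith
          · refine (norm_cpow_sub (PEU.one_le_nv v) (hσ.le.trans ha) (hσ.le.trans hb)).trans
              (mul_le_mul_of_nonneg_right ((norm_sub_le _ _).trans ?_) (log_nv_pos v).le)
            rw [hy, e, Real.log_exp, div_div_eq_mul_div, mul_div_assoc]
            linarith
      _ = 2 / Real.log y * lw (S.filter fun v => nv v ≤ y) := by rw [lw, mul_sum]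
      _ ≤ 2 / Real.log y * (C * Real.log y) := mul_le_mul_of_nonneg_left
          ((lw_mono fun v hv => mem_pls.2 ⟨nv_pos v, (mem_filter.1 hv).2⟩).trans (h1 y y2).2)
          (by positivity)
      _ = 2 * C := by field_simp
  have B : ∑ v ∈ S.filter (fun v => ¬ nv v ≤ y),
      ‖(nv v : ℂ) ^ (-α) - (nv v : ℂ) ^ (-β)‖ / nv v ≤ 2 * (C' * (1 + Real.log U)) := by
    calc _ ≤ ∑ v ∈ S.filter (fun v => ¬ nv v ≤ y), 2 * nv v ^ (-(1 + 1 / ℓ)) := by
          refine sum_le_sum fun v _ => ?_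
          rw [neg_add, Real.rpow_add (nv_pos v), Real.rpow_neg_one, mul_comm _⁻¹, ← mul_assoc,
            ← div_eq_mul_inv]
          exact div_le_div_of_nonneg_right (PEU.diff_le v ha hb) (nv_pos v).le
      _ ≤ _ := by
          rw [← mul_sum]
          refine mul_le_mul_of_nonneg_left
            ((h2 y _ _ y2 hσ fun v hv => not_le.1 (mem_filter.1 hv).2).trans ?_) two_pos.le
          gcongr
          refine max_le lU (Real.log_le_log (by positivity) ?_)
          have : ℓ / U ≤ Real.log y :=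
            (Real.le_log_iff_exp_le (by linarith)).2 (le_max_right _ _)
          rw [div_le_iff₀ (by linarith)] at this
          rw [div_le_iff₀ (by positivity), one_div, mul_left_comm, inv_mul_eq_div, one_le_div hl]
          linarith
  rw [← sum_filter_add_sum_filter_not S fun v => nv v ≤ y]
  have := mul_nonneg (zero_le_one.trans hC) lU
  linarith

theorem y_ePA (c : Cx k K) : Y_EPA K := by
  obtain ⟨C, hC, h1⟩ := c.cnt.1
  refine ⟨18 * C * Real.exp (18 * C), one_le_mul_of_one_le_of_one_le (by linarith)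
    (Real.one_le_exp (by linarith)), fun χ ℓ s hχ hℓ hs => ?_⟩
  have hl : 0 < ℓ := by linarith
  have hσ : 0 < 1 / ℓ := by positivity
  obtain ⟨-, hsum, hL⟩ := c.lib.i.ep K χ (1 + s) hχ (by
    simp only [Complex.add_re, Complex.one_re]; linarith)
  set w : Pl K → ℂ := fun v => χ v.asIdeal * (nv v : ℂ) ^ (-(1 + s)) with hw
  have hw1 : ∀ v, ‖w v‖ ≤ nv v ^ (-(1 + s).re) := fun v => by
    rw [hw, norm_mul, norm_cpow_neg (nv_pos v)]
    exact mul_le_of_le_one_left (by positivity) (hχ _)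
  have hw2 : ∀ v, ‖w v‖ ≤ nv v ^ (-(1 + 1 / ℓ)) := fun v => (hw1 v).trans
    (Real.rpow_le_rpow_of_exponent_le (PEU.one_le_nv v) (by
      simp only [Complex.add_re, Complex.one_re]; linarith))
  have hw3 : ∀ v, ‖w v‖ ≤ 1 / 2 := fun v => (hw2 v).trans
    ((Real.rpow_le_rpow_of_exponent_le (PEU.one_le_nv v) (z := -1) (by linarith)).trans (by
      rw [Real.rpow_neg_one, one_div]; exact inv_anti₀ two_pos (two_le_NN v)))
  have hg : ∀ v, ‖-Complex.log (1 - w v)‖ ≤ 3 / 2 * ‖w v‖ := fun v => by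
    rw [norm_neg, sub_eq_add_neg, ← norm_neg (w v)]
    exact Complex.norm_log_one_add_half_le_self (by rw [norm_neg]; exact hw3 v)
  have hn : Summable fun v => ‖-Complex.log (1 - w v)‖ :=
    (hsum.mul_left (3 / 2)).of_nonneg_of_le (fun _ => norm_nonneg _) fun v =>
      (hg v).trans (mul_le_mul_of_nonneg_left (hw1 v) (by norm_num))
  have hL' : LSeries (lam χ) (1 + s) = Complex.exp (∑' v, -Complex.log (1 - w v)) := by
    rw [hL]; simp only [hw, Complex.ofReal_natCast]
  set T := ∑' v : ↑((PP K ℓ : Set (Pl K))ᶜ), -Complex.log (1 - w v) with hT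
  have hP : (∏ v ∈ PP K ℓ, (1 - w v)) * LSeries (lam χ) (1 + s) = Complex.exp T := by
    rw [hL', ← hn.of_norm.sum_add_tsum_compl (s := PP K ℓ), Complex.exp_add, Complex.exp_sum,
      ← mul_assoc, ← prod_mul_distrib, prod_eq_one fun v _ => ?_, one_mul]
    have : 1 - w v ≠ 0 := fun e => by
      have := hw3 v
      rw [← sub_eq_zero.1 e] at this
      norm_num at this
    rw [Complex.exp_neg, Complex.exp_log this, mul_inv_cancel₀ this]
  have hb : ‖T‖ ≤ 18 * C / ℓ := by
    refine (norm_tsum_le_tsum_norm (hn.subtype _)).trans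
      ((hn.subtype _).tsum_le_of_sum_le fun S => ?_)
    have h2 := PEU.tail' h1 hC hℓ (S.image Subtype.val) fun v hv => by
      obtain ⟨u, -, rfl⟩ := mem_image.1 hv
      exact u.2
    rw [sum_image Subtype.val_injective.injOn] at h2
    calc _ ≤ ∑ v ∈ S, 3 / 2 * nv v.1 ^ (-(1 + 1 / ℓ)) := sum_le_sum fun v _ =>
          (hg v).trans (mul_le_mul_of_nonneg_left (hw2 v) (by norm_num))
      _ ≤ 3 / 2 * (12 * C / ℓ) := by rw [← mul_sum]; gcongr
      _ = _ := by ring
  have h3 := Complex.norm_exp_sub_sum_le_norm_mul_exp T 1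
  simp only [range_one, sum_singleton, pow_zero, Nat.factorial_zero, Nat.cast_one, div_one,
    pow_one] at h3
  rw [hP, mul_div_right_comm]
  refine h3.trans (mul_le_mul hb (Real.exp_le_exp.2 (hb.trans (div_le_self (by linarith) hℓ)))
    (Real.exp_pos _).le (by positivity))

end Pool.Agent.P.MP_b8021b_nt.BP
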