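import Pool.Agent.P.MP_b8021b_nt.BP.StC

/-! The local factors and the bound for the even part. -/

namespace Pool.Agent.P.MP_b8021b_nt.BP

open NumberField IsDedekindDomain Finset MeasureTheory
open Pool.Agent.P.MP_b8021b_nt.VE Pool.Agent.P.MP_b8021b_nt.VC Pool.Agent.P.MP_b8021b_nt.BS.CF
open Pool.Agent.P.MP_b8021b_nt.BS
open scoped Classical ComplexConjugate Real

variable {k : Type} [Field k] [NumberField k] [Algebra k ℂ] {K : Type} [Field K] [NumberField K]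
  [Algebra k K]

namespace PEV0

theorem bd {x : ℂ} (h : ‖x‖ ≤ 1 / 2) :
    1 - x ≠ 0 ∧ ‖1 - x‖ ≤ 3 / 2 ∧ ∀ y : ℂ, ‖y / (1 - x)‖ ≤ 2 * ‖y‖ := by
  have h1 := norm_sub_norm_le 1 x
  have h2 := norm_sub_le 1 x
  rw [norm_one] at h1 h2
  have h3 : 0 < ‖1 - x‖ := by linarith
  refine ⟨norm_pos_iff.1 h3, by linarith, fun y => ?_⟩
  rw [norm_div, div_le_iff₀ h3]
  linarith [mul_le_mul_of_nonneg_left (by linarith : 1 / 2 ≤ ‖1 - x‖) (norm_nonneg y)]

end PEV0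

open PEV0 in
theorem y_eV0 : Y_EV0 := by
  intro a b ha hb
  obtain ⟨a1, a2, a3⟩ := bd (x := a * b) (by
    rw [norm_mul]
    linarith [sq_nonneg (‖a‖ - ‖b‖)])
  obtain ⟨b1, b2, b3⟩ := bd (x := b ^ 2) (by rwa [norm_pow])
  refine ⟨div_ne_zero a1 b1, ?_, (b3 _).trans (by linarith), b3 _, ?_, ?_, ?_, fun x hx => ?_⟩
  · rw [Ev, inv_div]
    exact (a3 _).trans (by linarith)
  · rw [Ev, Od, div_div_div_cancel_right₀ b1]
    exact a3 _
  · rw [Ev, div_sub_one b1, show 1 - a * b - (1 - b ^ 2) = b * (b - a) by ring, mul_assoc,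
      ← norm_mul]
    exact b3 _
  · rw [Ev, inv_div, div_sub_one a1, show 1 - b ^ 2 - (1 - a * b) = -(b * (b - a)) by ring,
      mul_assoc, ← norm_mul, ← norm_neg (b * (b - a))]
    exact a3 _
  · have h2 : x ^ 2 = 1 := by rcases hx with rfl | rfl <;> norm_num
    have h3 : 1 - b ^ 2 = (1 - b * x) * (1 + b * x) := by linear_combination b ^ 2 * h2
    have h4 : 1 - b * x ≠ 0 := left_ne_zero_of_mul (h3 ▸ b1)
    rw [Ev, Od, div_mul_eq_mul_div, ← add_div, div_eq_div_iff h4 b1, h3]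
    linear_combination (b * x - 1) * a * b * h2

theorem y_eVA (c : Cx k K) (hEV0 : Y_EV0) (hEU : Y_EU K) : Y_EVA K := by
  obtain ⟨C, c1, h⟩ := hEU
  refine ⟨Real.exp (2 * C), ⌈2 * C⌉₊, Real.one_le_exp (by linarith), fun Ψ ℓ a b 𝒬 hΨ hℓ => ?_⟩
  have l0 : 0 < ℓ := by linarith
  have a0 := abs_nonneg a
  have b0 := abs_nonneg b
  have U1 : 1 ≤ 1 + |a| + |b| := by linarith
  have r : ∀ a, 0 ≤ (sx ℓ a).re := fun a => by rw [sx_re]; positivity
  have h1 := h ℓ _ (sx ℓ b) (sx ℓ a) 𝒬 hℓ U1 (sx_re ℓ b).ge (sx_re ℓ a).ge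
    ((norm_sx l0 b).trans (div_le_div_of_nonneg_right (by linarith) l0.le))
    ((norm_sx l0 a).trans (div_le_div_of_nonneg_right (by linarith) l0.le))
  calc _ ≤ Real.exp (∑ v ∈ 𝒬, 2 * (‖(nv v : ℂ) ^ (-sx ℓ b) - (nv v : ℂ) ^ (-sx ℓ a)‖ / nv v)) := by
        rw [EvP, norm_prod, Real.exp_sum]
        refine prod_le_prod (fun v _ => norm_nonneg _) fun v _ => ?_
        have c3 := (hEV0 _ _ (norm_cf_sq hΨ (r a) v) (norm_cf_sq hΨ (r b) v)).2.2.2.2.2.1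
        have c4 := norm_sub_norm_le (Ev (cf Ψ (sx ℓ a) v) (cf Ψ (sx ℓ b) v)) 1
        have c5 : ‖cf Ψ (sx ℓ b) v - cf Ψ (sx ℓ a) v‖ ≤
            (√(nv v))⁻¹ * ‖(nv v : ℂ) ^ (-sx ℓ b) - (nv v : ℂ) ^ (-sx ℓ a)‖ := by
          rw [cf_eq, cf_eq, ← mul_sub, norm_mul, norm_mul, Complex.norm_real,
            Real.norm_of_nonneg (by positivity)]
          exact mul_le_mul_of_nonneg_right (mul_le_of_le_one_left (by positivity) (hΨ _))
            (norm_nonneg _)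
        have c7 := mul_le_mul (norm_cf hΨ (r b) v) c5 (norm_nonneg _) (by positivity)
        rw [← mul_assoc, ← mul_inv, Real.mul_self_sqrt (nv_pos v).le, ← div_eq_inv_mul] at c7
        rw [norm_one] at c4
        linarith [Real.add_one_le_exp
          (2 * (‖(nv v : ℂ) ^ (-sx ℓ b) - (nv v : ℂ) ^ (-sx ℓ a)‖ / nv v))]
    _ ≤ Real.exp (2 * C + ⌈2 * C⌉₊ * Real.log (1 + |a| + |b|)) := by
        rw [← mul_sum]
        have := mul_le_mul_of_nonneg_right (Nat.le_ceil (2 * C)) (Real.log_nonneg U1)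
        exact Real.exp_le_exp.2 (by linarith)
    _ = _ := by rw [Real.exp_add, Real.exp_nat_mul, Real.exp_log (by linarith)]

end Pool.Agent.P.MP_b8021b_nt.BP
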