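import Pool.Agent.P.MP_b8021b_nt.BP.StC

/-! The even part of the Euler product on the second side is small. -/

namespace Pool.Agent.P.MP_b8021b_nt.BP

open NumberField IsDedekindDomain Finset MeasureTheory
open Pool.Agent.P.MP_b8021b_nt.VE Pool.Agent.P.MP_b8021b_nt.VC Pool.Agent.P.MP_b8021b_nt.BS.CF
open Pool.Agent.P.MP_b8021b_nt.BS
open scoped Classical ComplexConjugate Real

variable {k : Type} [Field k] [NumberField k] [Algebra k ℂ] {K : Type} [Field K] [NumberField K]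
  [Algebra k K]

namespace PEVB

theorem half_le {x : ℂ} (h : ‖x‖ ≤ 1 / 2) : 1 / 2 ≤ ‖1 - x‖ := by
  have := norm_sub_norm_le 1 x
  rw [norm_one] at this
  linarith

theorem one_sub_le {x : ℂ} (h : ‖x‖ ≤ 1 / 2) (y : ℂ) :
    ‖1 - y‖ ≤ ‖1 - x‖ * Real.exp (2 * ‖y - x‖) := by
  have h1 : ‖1 - y‖ ≤ ‖1 - x‖ + ‖y - x‖ := by
    rw [show 1 - y = (1 - x) - (y - x) by ring]
    exact norm_sub_le _ _
  have h2 := half_le h
  have h3 := mul_le_mul_of_nonneg_left (Real.add_one_le_exp (2 * ‖y - x‖)) (norm_nonneg (1 - x))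
  have h4 := mul_le_mul_of_nonneg_right h2 (norm_nonneg (y - x))
  linarith

/-- a local term -/
noncomputable def g (θ s : ℂ) (v : Pl K) : ℂ := θ * ((nv v)⁻¹ : ℝ) * (nv v : ℂ) ^ (-s)

theorem one_le_nv (v : Pl K) : 1 ≤ nv v := one_le_two.trans (two_le_NN v)

theorem cf_mul (χ χ' : Ideal (𝓞 K) → ℂ) (s s' : ℂ) (v : Pl K) :
    cf χ s v * cf χ' s' v = g (χ v.asIdeal * χ' v.asIdeal) (s + s') v := by
  have h0 : (nv v : ℂ) ≠ 0 := by exact_mod_cast (nv_pos v).ne'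
  have h1 : ((nv v)⁻¹ : ℝ) = (√(nv v))⁻¹ * (√(nv v))⁻¹ := by
    rw [← mul_inv, Real.mul_self_sqrt (nv_pos v).le]
  rw [cf_eq, cf_eq, g, neg_add, Complex.cpow_add _ _ h0, h1, Complex.ofReal_mul]
  ring

theorem norm_g {θ s : ℂ} (hθ : ‖θ‖ ≤ 1) (hs : 0 ≤ s.re) (v : Pl K) : ‖g θ s v‖ ≤ 1 / 2 := by
  rw [g, norm_mul, norm_mul, Complex.norm_real, Real.norm_of_nonneg (inv_pos.2 (nv_pos v)).le]
  calc _ ≤ 1 * (nv v)⁻¹ * 1 := by
        have := nv_pos v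
        gcongr
        exact norm_cpow_le (one_le_nv v) hs
    _ ≤ 1 / 2 := by
        rw [one_mul, mul_one, one_div]
        exact inv_anti₀ two_pos (two_le_NN v)

theorem g_real (θ : ℂ) (σ : ℝ) (v : Pl K) : g θ σ v = θ * ((nv v)⁻¹ * nv v ^ (-σ) : ℝ) := by
  rw [g, Complex.ofReal_mul, Complex.ofReal_cpow (nv_pos v).le, Complex.ofReal_neg, mul_assoc]

theorem cmp {θ : Pl K → ℂ} (hθ : ∀ v, ‖θ v‖ ≤ 1) {s s' : ℂ} (hs : 0 ≤ s'.re) {S : Finset (Pl K)}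
    {E : ℝ} (h : ∑ v ∈ S, ‖(nv v : ℂ) ^ (-s) - (nv v : ℂ) ^ (-s')‖ / nv v ≤ E) :
    ‖∏ v ∈ S, (1 - g (θ v) s v)‖ ≤ ‖∏ v ∈ S, (1 - g (θ v) s' v)‖ * Real.exp (2 * E) := by
  rw [norm_prod, norm_prod]
  calc _ ≤ ∏ v ∈ S, ‖1 - g (θ v) s' v‖ *
          Real.exp (2 * (‖(nv v : ℂ) ^ (-s) - (nv v : ℂ) ^ (-s')‖ / nv v)) := by
        refine prod_le_prod (fun v _ => norm_nonneg _) fun v _ =>
          (one_sub_le (norm_g (hθ v) hs v) _).trans ?_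
        gcongr
        rw [g, g, ← mul_sub, norm_mul, norm_mul, Complex.norm_real,
          Real.norm_of_nonneg (inv_pos.2 (nv_pos v)).le, div_eq_inv_mul]
        exact mul_le_mul_of_nonneg_right
          (mul_le_of_le_one_left (inv_pos.2 (nv_pos v)).le (hθ v)) (norm_nonneg _)
    _ ≤ _ := by
        rw [prod_mul_distrib, ← Real.exp_sum, ← mul_sum]
        gcongr

/-- the product with a pole -/
theorem pole (hCH1 : Y_CH1 K) (hMER : Y_MER K) {n : ℕ} (hn : n ≠ 0) {Ψ : Ideal (𝓞 K) →* ℂ}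
    (h : IsP k n Ψ) : ∃ C : ℝ, 0 ≤ C ∧ ∀ ℓ : ℝ, 2 ≤ ℓ →
      ‖∏ v ∈ PP K ℓ, (1 - g (Ψ v.asIdeal * cj Ψ v.asIdeal) (2 / ℓ : ℝ) v)‖ ≤ C / ℓ := by
  obtain ⟨C1, -, h1⟩ := hCH1
  obtain ⟨C2, h2⟩ := (hMER (NN (sp (n : 𝓞 K)))).1
  refine ⟨Real.exp (C2 + 2 * C1), by positivity, fun ℓ hℓ => ?_⟩
  have l0 : 0 < ℓ := by linarith
  have e3 : 3 ≤ Real.exp ℓ := by linarith [Real.add_one_le_exp ℓ]
  have a1 := (h1 _ (by linarith)).2
  have a2 := h2 _ e3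
  rw [Real.log_exp] at a1 a2
  set T := pls K (NN (sp (n : 𝓞 K))) (Real.exp ℓ)
  have hT : T ⊆ PP K ℓ := pls_mono (Nat.cast_nonneg _) (Real.exp_le_exp.2 (by nlinarith))
  have a3 : lw T ≤ C1 * ℓ := (lw_mono (pls_mono (Nat.cast_nonneg _) le_rfl)).trans a1
  let x : Pl K → ℝ := fun v => ‖Ψ v.asIdeal‖ ^ 2 * ((nv v)⁻¹ * nv v ^ (-(2 / ℓ)))
  have x0 : ∀ v, 0 ≤ x v := fun v => by
    have := nv_pos v
    positivity
  have hx : ∀ v, g (Ψ v.asIdeal * cj Ψ v.asIdeal) (2 / ℓ : ℝ) v = x v := fun v => by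
    rw [g_real, show cj Ψ v.asIdeal = conj (Ψ v.asIdeal) from rfl, Complex.mul_conj,
      Complex.normSq_eq_norm_sq, ← Complex.ofReal_mul]
  have b1 : ‖∏ v ∈ PP K ℓ, (1 - g (Ψ v.asIdeal * cj Ψ v.asIdeal) (2 / ℓ : ℝ) v)‖ ≤
      Real.exp (-∑ v ∈ PP K ℓ, x v) := by
    rw [norm_prod, ← sum_neg_distrib, Real.exp_sum]
    refine prod_le_prod (fun v _ => norm_nonneg _) fun v _ => ?_
    have c1 := norm_g (θ := Ψ v.asIdeal * cj Ψ v.asIdeal) (s := (2 / ℓ : ℝ)) (by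
      rw [norm_mul]
      exact mul_le_one₀ (h.norm_le _) (norm_nonneg _)
        ((Complex.norm_conj _).trans_le (h.norm_le _))) (by rw [Complex.ofReal_re]; positivity) v
    rw [hx, Complex.norm_real, Real.norm_of_nonneg (x0 v)] at c1
    rw [hx, ← Complex.ofReal_one, ← Complex.ofReal_sub, Complex.norm_real,
      Real.norm_of_nonneg (by linarith)]
    linarith [Real.add_one_le_exp (-x v)]
  have b2 : ∑ v ∈ T, (nv v)⁻¹ - 2 / ℓ * lw T ≤ ∑ v ∈ PP K ℓ, x v := by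
    refine le_trans ?_ (sum_le_sum_of_subset_of_nonneg hT fun v _ _ => x0 v)
    rw [lw, mul_sum, ← sum_sub_distrib]
    refine sum_le_sum fun v hv => ?_
    have c1 : ‖Ψ v.asIdeal‖ = 1 := h.norm_cop _ ((cop_prime_iff v).2 fun e =>
      (mem_pls.1 hv).1.not_ge (nv_le_of_dv hn e))
    have c2 := mul_le_mul_of_nonneg_left (Real.add_one_le_exp (Real.log (nv v) * -(2 / ℓ)))
      (inv_pos.2 (nv_pos v)).le
    simp only [x]
    rw [c1, Real.rpow_def_of_pos (nv_pos v), div_eq_inv_mul (Real.log _)]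
    linarith
  have b3 : 2 / ℓ * lw T ≤ 2 * C1 :=
    (mul_le_mul_of_nonneg_left a3 (by positivity)).trans_eq (by field_simp)
  refine b1.trans ?_
  rw [← Real.exp_log l0, ← Real.exp_sub, Real.exp_log l0]
  exact Real.exp_le_exp.2 (by linarith)

/-- removing places -/
theorem remove (hEV0 : Y_EV0) {χ Ψ : Ideal (𝓞 K) → ℂ} (hχ : ∀ I, ‖χ I‖ ≤ 1) (hΨ : ∀ I, ‖Ψ I‖ ≤ 1)
    {ℓ : ℝ} (hℓ : 0 < ℓ) (a b : ℝ) (S 𝒲 : Finset (Pl K)) :
    ‖EvP χ Ψ ℓ a b (S \ 𝒲)‖ ≤ Real.exp (8 * lw 𝒲) * ‖EvP χ Ψ ℓ a b S‖ := by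
  have r : ∀ a, 0 ≤ (sx ℓ a).re := fun a => by rw [sx_re]; positivity
  have E := fun v : Pl K => hEV0 _ _ (norm_cf_sq hΨ (r a) v) (norm_cf_sq hχ (r b) v)
  have e : EvP χ Ψ ℓ a b (S \ 𝒲) =
      (∏ v ∈ S ∩ 𝒲, (Ev (cf Ψ (sx ℓ a) v) (cf χ (sx ℓ b) v))⁻¹) * EvP χ Ψ ℓ a b S := by
    rw [prod_inv_distrib, eq_inv_mul_iff_mul_eq₀ (prod_ne_zero_iff.2 fun v _ => (E v).1), EvP, EvP,
      prod_inter_mul_prod_sdiff]
  rw [e, norm_mul]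
  refine mul_le_mul_of_nonneg_right ?_ (norm_nonneg _)
  calc _ ≤ Real.exp (∑ v ∈ S ∩ 𝒲, 4 * (nv v)⁻¹) := by
        rw [norm_prod, Real.exp_sum]
        refine prod_le_prod (fun v _ => norm_nonneg _) fun v _ => ?_
        have c1 := norm_cf hΨ (r a) v
        have c2 := norm_cf hχ (r b) v
        have c3 := (E v).2.2.2.2.2.2.1
        have c4 := norm_sub_norm_le (Ev (cf Ψ (sx ℓ a) v) (cf χ (sx ℓ b) v))⁻¹ 1
        have c5 := norm_sub_le (cf χ (sx ℓ b) v) (cf Ψ (sx ℓ a) v)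
        have c6 : ((nv v)⁻¹ : ℝ) = (√(nv v))⁻¹ * (√(nv v))⁻¹ := by
          rw [← mul_inv, Real.mul_self_sqrt (nv_pos v).le]
        have c7 : ‖cf χ (sx ℓ b) v‖ * ‖cf χ (sx ℓ b) v - cf Ψ (sx ℓ a) v‖ ≤
            (√(nv v))⁻¹ * (2 * (√(nv v))⁻¹) :=
          mul_le_mul c2 (by linarith) (norm_nonneg _) (by positivity)
        rw [norm_one] at c4
        linarith [Real.add_one_le_exp (4 * (nv v)⁻¹)]
    _ ≤ _ := by
        rw [← mul_sum]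
        have := sum_inv_le_lw (S ∩ 𝒲)
        have := lw_mono (inter_subset_right : S ∩ 𝒲 ⊆ 𝒲)
        exact Real.exp_le_exp.2 (by linarith)

end PEVB

open PEVB in
theorem y_eVB (c : Cx k K) (hEV0 : Y_EV0) (hCH1 : Y_CH1 K) (hEU : Y_EU K) (hMER : Y_MER K)
    (hLZ : Y_LZ k K) : Y_EVB k K := by
  intro n Ψ C₀ hn hΨ
  obtain ⟨C1, c1, h1⟩ := pole hCH1 hMER (by omega : n ≠ 0) hΨ
  obtain ⟨C2, c2, h2⟩ := hEU
  obtain ⟨z, C3, ℓ₀, -, c3, h3⟩ := hLZ n Ψ hn hΨ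
  obtain ⟨b1, b2⟩ := ch_of_isP hΨ
  refine ⟨1 + Real.exp (8 * C₀) * (C1 * (‖z‖ + 2 * C3) * (Real.exp (4 * C2) * 2 ^ ⌈4 * C2⌉₊)),
    max ℓ₀ 2, ⌈4 * C2⌉₊, le_add_of_nonneg_right (by positivity), fun ℓ a b 𝒲 hℓ hW => ?_⟩
  have l2 : 2 ≤ ℓ := (le_max_right _ _).trans hℓ
  have l0 : 0 < ℓ := by linarith
  have a0 := abs_nonneg a
  have b0 := abs_nonneg b
  set U := 2 * (1 + |a| + |b|) with hU
  have U1 : 1 ≤ U := by linarith
  have s0 : 1 / ℓ ≤ (((2 / ℓ : ℝ) : ℂ)).re := by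
    rw [Complex.ofReal_re]
    gcongr
    norm_num
  have s1 : ‖((2 / ℓ : ℝ) : ℂ)‖ = 2 / ℓ := by
    rw [Complex.norm_real, Real.norm_of_nonneg (by positivity)]
  have s2 : ‖((2 / ℓ : ℝ) : ℂ)‖ ≤ U / ℓ := by
    rw [s1]
    gcongr
    linarith
  have i0 : 0 ≤ 1 / ℓ := by positivity
  have r1 : ∀ x y, 1 / ℓ ≤ (sx ℓ x + sx ℓ y).re := fun x y => by
    rw [Complex.add_re, sx_re, sx_re]
    linarith
  have r2 : ∀ x y, |x| ≤ |a| + |b| → |y| ≤ |a| + |b| → ‖sx ℓ x + sx ℓ y‖ ≤ U / ℓ :=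
    fun x y hx hy => by
      refine (norm_add_le _ _).trans ((add_le_add (norm_sx l0 x) (norm_sx l0 y)).trans ?_)
      rw [← add_div]
      gcongr
      linarith
  have m : ∀ χ χ' : Ideal (𝓞 K) →* ℂ, Ch n χ → Ch n χ' →
      ∀ v : Pl K, ‖χ v.asIdeal * χ' v.asIdeal‖ ≤ 1 := fun χ χ' h h' v => by
    rw [norm_mul]
    exact mul_le_one₀ (h.bd _) (norm_nonneg _) (h'.bd _)
  have p1 := cmp (m _ _ b1 b2) (i0.trans s0) (h2 ℓ U _ _ (PP K ℓ) (by linarith) U1 (r1 a b) s0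
    (r2 a b (by linarith) (by linarith)) s2)
  have p2 := cmp (m _ _ b2 b2) (i0.trans (r1 b b)) (h2 ℓ U _ _ (PP K ℓ) (by linarith) U1 s0 (r1 b b)
    s2 (r2 b b (by linarith) (by linarith)))
  have p3 := h3 ℓ _ ((le_max_left _ _).trans hℓ) s0 (by rw [s1, div_le_one l0]; exact l2)
  have e1 : ‖∏ v ∈ PP K ℓ, (1 - Ψ v.asIdeal ^ 2 * (nv v : ℂ) ^ (-(1 + ((2 / ℓ : ℝ) : ℂ))))‖ =
      ‖∏ v ∈ PP K ℓ, (1 - g (cj Ψ v.asIdeal * cj Ψ v.asIdeal) (2 / ℓ : ℝ) v)‖ := by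
    rw [norm_prod, norm_prod]
    refine prod_congr rfl fun v _ => ?_
    rw [← Complex.norm_conj, g_real, ← Real.rpow_neg_one, ← Real.rpow_add (nv_pos v), ← neg_add,
      ← Complex.ofReal_one, ← Complex.ofReal_add, ← Complex.ofReal_neg,
      ← Complex.ofReal_cpow (nv_pos v).le, map_sub, map_mul, Complex.conj_ofReal,
      Complex.conj_ofReal, sq, map_mul]
    rfl
  have q0 : 0 < ‖∏ v ∈ PP K ℓ, (1 - g (cj Ψ v.asIdeal * cj Ψ v.asIdeal) (2 / ℓ : ℝ) v)‖ := by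
    rw [norm_prod]
    exact prod_pos fun v _ => one_half_pos.trans_le (half_le (norm_g (m _ _ b2 b2 v) (i0.trans s0) v))
  have p4 : ‖∏ v ∈ PP K ℓ, (1 - g (cj Ψ v.asIdeal * cj Ψ v.asIdeal) (2 / ℓ : ℝ) v)‖⁻¹ ≤
      ‖z‖ + 2 * C3 := by
    have d1 := (norm_sub_norm_le _ _).trans p3
    have d2 : 2 / ℓ + 1 / ℓ ≤ 2 := by
      rw [← add_div, div_le_iff₀ l0]
      linarith
    have d3 := mul_le_mul_of_nonneg_left d2 (by linarith : 0 ≤ C3)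
    rw [norm_inv, e1, s1] at d1
    linarith
  have e2 : EvP (cj Ψ) Ψ ℓ a b (PP K ℓ) =
      (∏ v ∈ PP K ℓ, (1 - g (Ψ v.asIdeal * cj Ψ v.asIdeal) (sx ℓ a + sx ℓ b) v)) /
        ∏ v ∈ PP K ℓ, (1 - g (cj Ψ v.asIdeal * cj Ψ v.asIdeal) (sx ℓ b + sx ℓ b) v) := by
    rw [EvP, ← prod_div_distrib]
    exact prod_congr rfl fun v _ => by rw [Ev, sq, cf_mul, cf_mul]
  set E := Real.exp (2 * (C2 * (1 + Real.log U)))
  have E0 : 0 < E := Real.exp_pos _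
  have p5 : E * E ≤ Real.exp (4 * C2) * 2 ^ ⌈4 * C2⌉₊ * (1 + |a| + |b|) ^ ⌈4 * C2⌉₊ := by
    rw [mul_assoc, ← mul_pow, ← hU, ← Real.exp_log (one_pos.trans_le U1), ← Real.exp_nat_mul,
      ← Real.exp_add, ← Real.exp_add]
    have := mul_le_mul_of_nonneg_right (Nat.le_ceil (4 * C2)) (Real.log_nonneg U1)
    exact Real.exp_le_exp.2 (by linarith)
  have p6 : ‖∏ v ∈ PP K ℓ, (1 - g (cj Ψ v.asIdeal * cj Ψ v.asIdeal) (sx ℓ b + sx ℓ b) v)‖⁻¹ ≤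
      (‖z‖ + 2 * C3) * E := by
    refine le_trans ?_ (mul_le_mul_of_nonneg_right p4 E0.le)
    rw [← div_eq_inv_mul, ← inv_div]
    exact inv_anti₀ (div_pos q0 E0) ((div_le_iff₀ E0).2 p2)
  have p7 : ‖EvP (cj Ψ) Ψ ℓ a b (PP K ℓ)‖ ≤ C1 / ℓ * E * ((‖z‖ + 2 * C3) * E) := by
    rw [e2, norm_div, div_eq_mul_inv]
    exact mul_le_mul (p1.trans (mul_le_mul_of_nonneg_right (h1 ℓ l2) E0.le)) p6 (by positivity)
      (by positivity)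
  refine (remove hEV0 b2.bd b1.bd l0 a b _ _).trans ?_
  calc _ ≤ Real.exp (8 * C₀) * (C1 / ℓ * (‖z‖ + 2 * C3) *
          (Real.exp (4 * C2) * 2 ^ ⌈4 * C2⌉₊ * (1 + |a| + |b|) ^ ⌈4 * C2⌉₊)) := by
        refine mul_le_mul (by gcongr) (p7.trans ?_) (norm_nonneg _) (by positivity)
        rw [mul_mul_mul_comm]
        exact mul_le_mul_of_nonneg_left p5 (by positivity)
    _ = Real.exp (8 * C₀) * (C1 * (‖z‖ + 2 * C3) * (Real.exp (4 * C2) * 2 ^ ⌈4 * C2⌉₊)) *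
          (1 + |a| + |b|) ^ ⌈4 * C2⌉₊ / ℓ := by ring
    _ ≤ _ := by
        gcongr
        exact le_add_of_nonneg_left zero_le_one

end Pool.Agent.P.MP_b8021b_nt.BP
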