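import Pool.Agent.P.MP_b8021b_nt.BP.StC

/-! The mollified polynomial as an integral of finite Euler products. -/

namespace Pool.Agent.P.MP_b8021b_nt.BP

open NumberField IsDedekindDomain Finset MeasureTheory
open Pool.Agent.P.MP_b8021b_nt.VE Pool.Agent.P.MP_b8021b_nt.VC Pool.Agent.P.MP_b8021b_nt.BS.CF
open Pool.Agent.P.MP_b8021b_nt.BS
open scoped Classical ComplexConjugate Real

variable {k : Type} [Field k] [NumberField k] [Algebra k ℂ] {K : Type} [Field K] [NumberField K]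
  [Algebra k K]

namespace PEXP

theorem cnt_ideal : Countable (Ideal (𝓞 K)) := by
  have h : (Set.univ : Set (Ideal (𝓞 K))) = ⋃ n : ℕ, {I | Ideal.absNorm I = n} := by
    ext I; simp
  have h2 : (Set.univ : Set (Ideal (𝓞 K))).Countable := by
    rw [h]
    exact Set.countable_iUnion fun n => (Ideal.finite_setOfPred_absNorm_eq n).countable
  exact Set.countable_univ_iff.1 h2

theorem term (χ : Ideal (𝓞 K) →* ℂ) (x : Pl K → ℂ) (s : ℂ) {I : Ideal (𝓞 K)} (hI : I ≠ ⊥) :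
    sg (fun v => cf χ s v * x v) I = χ I * sg x I / (√(NN I) : ℝ) * ((NN I : ℝ) : ℂ) ^ (-s) := by
  have h0 := NN_pos hI
  have h1 : ((NN I : ℝ) : ℂ) ^ (-(1 / 2 + s)) =
      (((√(NN I) : ℝ) : ℂ))⁻¹ * ((NN I : ℝ) : ℂ) ^ (-s) := by
    rw [neg_add, Complex.cpow_add _ _ (by exact_mod_cast h0.ne'), Real.sqrt_eq_rpow,
      ← Complex.ofReal_inv, ← Real.rpow_neg h0.le, Complex.ofReal_cpow h0.le]
    push_cast
    rfl
  rw [sg_mul_fun]
  unfold cf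
  rw [sg_mul_fun, ← hom_eq_sg χ hI, ← cpow_eq_sg _ hI, h1]
  ring

theorem norm_sg_mono {g g' : Pl K → ℂ} (h : ∀ v, ‖g v‖ ≤ ‖g' v‖) (I : Ideal (𝓞 K)) :
    ‖sg g I‖ ≤ ‖sg g' I‖ := by
  by_cases hI : I = ⊥
  · simp [hI, sg_bot]
  rw [sg_eq_prod g hI subset_rfl, sg_eq_prod g' hI subset_rfl, norm_prod, norm_prod]
  exact prod_le_prod (fun _ _ => norm_nonneg _) fun v _ => by
    rw [norm_pow, norm_pow]; exact pow_le_pow_left₀ (norm_nonneg _) (h v) _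

theorem cont_sg {g : ℝ → Pl K → ℂ} (h : ∀ v, Continuous fun b => g b v) (I : Ideal (𝓞 K)) :
    Continuous fun b => sg (g b) I := by
  by_cases hI : I = ⊥
  · simp only [hI, sg_bot]; exact continuous_const
  simp only [sg_eq_prod _ hI subset_rfl]
  exact continuous_finsetProd _ fun v _ => (h v).pow _

theorem norm_g {χ : Ideal (𝓞 K) → ℂ} {x : Pl K → ℂ} (hx : Sgn x) {s : ℂ} (v : Pl K) :
    ‖cf χ s v * x v‖ ≤ ‖cf χ s v‖ := by
  rw [norm_mul]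
  exact mul_le_of_le_one_right (norm_nonneg _) (hx.norm_le v)

theorem norm_g' {χ : Ideal (𝓞 K) → ℂ} (h : ∀ I, ‖χ I‖ ≤ 1) {x : Pl K → ℂ} (hx : Sgn x) {s : ℂ}
    (hs : 0 ≤ s.re) (v : Pl K) : ‖cf χ s v * x v‖ ≤ 3 / 4 :=
  (norm_g hx v).trans (le_of_sq_le_sq ((norm_cf_sq h hs v).trans (by norm_num)) (by norm_num))

theorem one_sub_ge {z : ℂ} (h : ‖z‖ ≤ 3 / 4) : 1 / 4 ≤ ‖1 - z‖ := by
  have := norm_sub_norm_le (1 : ℂ) z
  rw [norm_one] at this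
  linarith

theorem int_h {h : ℝ → ℂ} (hh : FR h) : Integrable h :=
  (integrable_norm_iff hh.cont.aestronglyMeasurable).1 (by simpa using hh.int 0)

theorem sx_nonneg {ℓ : ℝ} (hℓ : 0 < ℓ) (a : ℝ) : 0 ≤ (sx ℓ a).re := by rw [sx_re]; positivity

theorem moll {h : ℝ → ℂ} (hh : FR h) (Ψ : Ideal (𝓞 K) →* ℂ) (hΨ : ∀ I, ‖Ψ I‖ ≤ 1) {x : Pl K → ℂ}
    (hx : Sgn x) {ℓ : ℝ} (hℓ : 0 < ℓ) {𝒰 : Finset (Pl K)} (hU : pls K 0 (Real.exp ℓ) ⊆ 𝒰) :
    (Integrable fun a => h a * ∏ v ∈ 𝒰, (1 - cf Ψ (sx ℓ a) v * x v)) ∧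
    Mw Ψ x ℓ = ∫ a, h a * ∏ v ∈ 𝒰, (1 - cf Ψ (sx ℓ a) v * x v) := by
  have hc : ∀ v, Continuous fun a => cf Ψ (sx ℓ a) v * x v := fun v =>
    ((continuous_cf Ψ v).comp (continuous_sx ℓ)).mul continuous_const
  have hi : ∀ S : Finset (Pl K), Integrable fun a =>
      h a * ((-1) ^ S.card * sg (fun v => cf Ψ (sx ℓ a) v * x v) (eI S)) := fun S =>
    (int_h hh).mul_bdd (c := 1) (continuous_const.mul (cont_sg hc _)).aestronglyMeasurable
      (.of_forall fun a => by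
        rw [norm_mul, norm_pow, norm_neg, norm_one, one_pow, one_mul]
        exact norm_sg_le (fun v => (norm_g' hΨ hx (sx_nonneg hℓ a) v).trans (by norm_num)) _)
  have he : ∀ a, h a * ∏ v ∈ 𝒰, (1 - cf Ψ (sx ℓ a) v * x v) = ∑ S ∈ 𝒰.powerset,
      h a * ((-1) ^ S.card * sg (fun v => cf Ψ (sx ℓ a) v * x v) (eI S)) := fun a => by
    simp only [sub_eq_add_neg, prod_one_add, prod_neg, sg_eI, mul_sum]
  simp only [he]
  refine ⟨integrable_finsetSum _ fun S _ => hi S, ?_⟩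
  rw [integral_finsetSum _ fun S _ => hi S, Mw,
    sum_subset (powerset_mono.2 hU) fun S _ hS => ?_]
  · refine sum_congr rfl fun S _ => ?_
    simp only [term Ψ x _ (eI_ne_bot S)]
    rw [Complex.ofReal_div, hh.rep _ _ (nS_pos S) hℓ, ← integral_div, ← integral_const_mul]
    exact integral_congr_ae (.of_forall fun a => by dsimp only; ring)
  · obtain ⟨v, hv, hv'⟩ := not_subset.1 (mem_powerset.not.1 hS)
    have : Real.exp ℓ ≤ nS S :=
      (not_lt.1 fun e => hv' (mem_pls.2 ⟨nv_pos v, (nv_le_nS hv).trans e.le⟩))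
    simp [St_log hℓ this]

theorem long (hGEO : Y_GEO K) {H W : ℝ → ℂ} (χ : Ideal (𝓞 K) →* ℂ) (hχ : ∀ I, ‖χ I‖ ≤ 1)
    {x : Pl K → ℂ} (hx : Sgn x) {ℓ Z : ℝ} (hℓ : 0 < ℓ) {σ : ℂ} (hW : Wt ℓ Z W H σ)
    {𝒰 : Finset (Pl K)} (hU : pls K 0 Z ⊆ 𝒰) :
    (Integrable fun b => H b * ∏ v ∈ 𝒰, (1 - cf χ (σ + sx ℓ b) v * x v)⁻¹) ∧
    Aw χ x W Z = ∫ b, H b * ∏ v ∈ 𝒰, (1 - cf χ (σ + sx ℓ b) v * x v)⁻¹ := by
  have := cnt_ideal (K := K)
  have hr : ∀ b, 0 ≤ (σ + sx ℓ b).re := fun b => add_nonneg hW.re (sx_nonneg hℓ b)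
  have hc : ∀ v, Continuous fun b => cf χ (σ + sx ℓ b) v * x v := fun v =>
    ((continuous_cf χ v).comp (continuous_const.add (continuous_sx ℓ))).mul continuous_const
  have hn : ∀ b v, ‖cf χ (σ + sx ℓ b) v * x v‖ ≤ 3 / 4 := fun b v => norm_g' hχ hx (hr b) v
  refine ⟨hW.int.mul_bdd (c := ∏ _v ∈ 𝒰, 4) (continuous_finsetProd _ fun v _ =>
    (continuous_const.sub (hc v)).inv₀ fun b => norm_pos_iff.1
      (lt_of_lt_of_le (by norm_num) (one_sub_ge (hn b v)))).aestronglyMeasurable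
    (.of_forall fun b => ?_), ?_⟩
  · rw [norm_prod]
    refine prod_le_prod (fun _ _ => norm_nonneg _) fun v _ => ?_
    rw [norm_inv]
    exact inv_le_of_inv_le₀ (by norm_num) ((inv_eq_one_div _).trans_le (one_sub_ge (hn b v)))
  set G : Ideal (𝓞 K) → ℝ → ℂ := fun I b =>
    if prI I ⊆ 𝒰 then sg (fun v => cf χ (σ + sx ℓ b) v * x v) I else 0 with hG
  set g : Pl K → ℂ := fun v => (((√(nv v))⁻¹ : ℝ) : ℂ) with hg
  have hg0 : ∀ v, ‖g v‖ = (√(nv v))⁻¹ := fun v => Complex.norm_of_nonneg (by positivity)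
  have hs := (hGEO.1 𝒰 g fun v _ => by
    rw [hg0]
    exact inv_lt_one_of_one_lt₀
      (Real.lt_sqrt_of_sq_lt ((one_pow 2).trans_lt (one_lt_two.trans_le (two_le_NN v))))).1
  have hb : ∀ I b, ‖G I b‖ ≤ ‖if prI I ⊆ 𝒰 then sg g I else 0‖ := fun I b => by
    simp only [hG]
    split_ifs
    · exact norm_sg_mono (fun v => (norm_g hx v).trans
        ((norm_cf hχ (hr b) v).trans (hg0 v).ge)) I
    · exact le_rfl
  have hi : ∀ I, Integrable fun b => H b * G I b := fun I =>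
    hW.int.mul_bdd (Continuous.aestronglyMeasurable (by
      simp only [hG]
      split_ifs
      · exact cont_sg hc I
      · exact continuous_const)) (.of_forall (hb I))
  have h1 := hasSum_integral_of_summable_integral_norm hi
    ((hs.mul_left (∫ b, ‖H b‖)).of_nonneg_of_le (fun I => integral_nonneg fun _ => norm_nonneg _)
      fun I => by
        rw [← integral_mul_const]
        exact integral_mono (hi I).norm (hW.int.norm.mul_const _) fun b => by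
          dsimp only
          rw [norm_mul]
          exact mul_le_mul_of_nonneg_left (hb I b) (norm_nonneg _))
  have h2 : ∀ b, ∑' I, H b * G I b = H b * ∏ v ∈ 𝒰, (1 - cf χ (σ + sx ℓ b) v * x v)⁻¹ := fun b =>
    ((hGEO.1 𝒰 _ fun v _ => (hn b v).trans_lt (by norm_num)).2.mul_left _).tsum_eq
  have h3 : ∀ I, I ≠ ⊥ → prI I ⊆ 𝒰 →
      ∫ b, H b * G I b = χ I * sg x I * W (NN I) / (√(NN I) : ℝ) := fun I hI hp => by
    simp only [hG, if_pos hp, term χ x _ hI]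
    rw [hW.rep _ (one_le_NN hI), ← integral_const_mul, ← integral_div]
    exact integral_congr_ae (.of_forall fun a => by dsimp only; ring)
  simp only [h2] at h1
  refine HasSum.unique ?_ h1
  have h4 : Aw χ x W Z = ∑ I ∈ ids K Z, ∫ b, H b * G I b := sum_congr rfl fun I hI => by
    obtain ⟨h0, hZ⟩ := mem_ids.1 hI
    exact (h3 I h0 fun v hv => hU (mem_pls.2
      ⟨nv_pos v, (NN_le_of_le h0 ((mem_prI h0).1 hv)).trans hZ⟩)).symm
  rw [h4]
  refine hasSum_sum_of_ne_finset_zero fun I hI => ?_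
  by_cases h0 : I = ⊥
  · simp [hG, h0, sg_bot]
  by_cases hp : prI I ⊆ 𝒰
  · rw [h3 I h0 hp, hW.zero _ (not_le.1 fun e => hI (mem_ids.2 ⟨h0, e⟩)).le]
    simp
  · simp [hG, hp]

end PEXP

theorem y_eXP (c : Cx k K) (hGEO : Y_GEO K) : Y_EXP K := by
  intro h H W χ Ψ x ℓ Z σ 𝒰 hh hℓ hW hχ hΨ hx hZ hU
  obtain ⟨a1, a2⟩ := PEXP.long hGEO χ hχ hx hℓ hW hZ
  obtain ⟨m1, m2⟩ := PEXP.moll hh Ψ hΨ hx hℓ hU
  have he : ∀ p : ℝ × ℝ, H p.1 * h p.2 *
      ∏ v ∈ 𝒰, (1 - cf Ψ (sx ℓ p.2) v * x v) / (1 - cf χ (σ + sx ℓ p.1) v * x v) =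
      (H p.1 * ∏ v ∈ 𝒰, (1 - cf χ (σ + sx ℓ p.1) v * x v)⁻¹) *
        (h p.2 * ∏ v ∈ 𝒰, (1 - cf Ψ (sx ℓ p.2) v * x v)) := fun p => by
    simp only [div_eq_mul_inv, prod_mul_distrib]
    ring
  simp only [he]
  rw [a2, m2, Measure.volume_eq_prod]
  exact ⟨a1.mul_prod m1, (integral_prod_mul _ _).symm⟩

end Pool.Agent.P.MP_b8021b_nt.BP
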