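import Pool.Agent.P.MP_b8021b_nt.BP.StC

/-! The extension of the off diagonal summand to all ideals. -/

namespace Pool.Agent.P.MP_b8021b_nt.BP

open NumberField IsDedekindDomain Finset MeasureTheory
open Pool.Agent.P.MP_b8021b_nt.VE Pool.Agent.P.MP_b8021b_nt.VC Pool.Agent.P.MP_b8021b_nt.BS.CF
open Pool.Agent.P.MP_b8021b_nt.BS
open scoped Classical ComplexConjugate Real

variable {k : Type} [Field k] [NumberField k] [Algebra k ℂ] {K : Type} [Field K] [NumberField K]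
  [Algebra k K]

namespace PEXT

theorem lc_div {ω : ℝ → ℂ} {Λ T Z a : ℝ} (h : LC ω Λ T Z) (ha : 1 ≤ a) (hT : 1 ≤ T) :
    LC (fun y => ω (y / a)) Λ T (Z * a) := by
  have h0 : 0 < a := one_pos.trans_le ha
  refine ⟨fun y => h.bd _, fun y y' hy hy' => ?_, fun y hy => ?_⟩
  · have := h.lip _ _ (div_pos hy h0) (div_pos hy' h0)
    rwa [Real.log_div hy.ne' h0.ne', Real.log_div hy'.ne' h0.ne', sub_sub_sub_cancel_right] at this
  · obtain ⟨h1, h2⟩ := h.supp _ hy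
    rw [le_div_iff₀ h0] at h1
    exact ⟨(le_mul_of_one_le_right (by linarith) ha).trans h1, (div_le_iff₀ h0).1 h2⟩

theorem mu_pow {X D r : ℝ} (hX : 0 < X) (hD : 0 < D) (hr : 1 ≤ r) (j : ℕ) :
    (X ^ (1 / r) * D ^ (-(1 / r))) ^ (-(j * r)) = (D / X) ^ j := by
  have hr' : r ≠ 0 := by linarith
  rw [Real.rpow_neg hD.le, ← Real.inv_rpow hD.le, ← Real.mul_rpow hX.le (inv_pos.2 hD).le,
    ← Real.rpow_mul (by positivity), show 1 / r * -(j * r) = -(j : ℝ) by field_simp,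
    Real.rpow_neg (by positivity), Real.rpow_natCast, ← inv_pow, ← div_eq_mul_inv, inv_div]

omit [NumberField K] in
theorem peri_ite {I : Ideal (𝓞 K)} {F : 𝓞 K → ℂ} {a b : ℕ} (h : Peri (sp (a : 𝓞 K)) F)
    (hab : a ∣ b) (hb : (b : 𝓞 K) ∈ I) :
    Peri (sp (b : 𝓞 K)) fun g => if g ∈ I then F g else 0 := fun x y hxy => by
  have h1 : x - y ∈ I := (Ideal.span_singleton_le_iff_mem I).2 hb hxy
  have h2 : x ∈ I ↔ y ∈ I := ⟨fun e => by simpa using I.sub_mem e h1, fun e => by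
    simpa using I.add_mem h1 e⟩
  have h3 := h x y (Ideal.span_singleton_le_span_singleton.2 (Nat.cast_dvd_cast hab) hxy)
  simp only [h2, h3]

theorem nm {a : ℝ} (ha : 0 ≤ a) (S : ℂ) : ‖(a : ℂ) * S‖ = a * ‖S‖ := by
  rw [norm_mul, Complex.norm_real, Real.norm_of_nonneg ha]

theorem ar1 {w X a R Ne Nb C₁ C₂ Λ A β : ℝ} (hw : 0 < w) (hX : 0 < X) (ha : a ≤ R) (he : 0 < Ne)
    (hb : 0 < Nb) (h1 : 0 ≤ C₁) (h2 : 0 ≤ C₂) (hΛ : 0 ≤ Λ) (hA : 0 ≤ A) (hβ : 0 ≤ β) :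
    w * X * a / (Ne * Nb) * (C₁ * Λ * A * (C₂ * (Ne * Nb) / X) ^ 1 * β) ≤
      w * R * C₁ * C₂ * Λ * A * β := by
  rw [show w * X * a / (Ne * Nb) * (C₁ * Λ * A * (C₂ * (Ne * Nb) / X) ^ 1 * β) =
    w * a * C₁ * C₂ * Λ * A * β by field_simp]
  gcongr

theorem ar2 {w X a R Ne Nb Nd C₁ C₂ Λ A m Z t : ℝ} (hw : 0 < w) (hX : 0 < X) (ha0 : 0 ≤ a)
    (ha : a ≤ R) (he : 0 < Ne) (hb : 0 < Nb) (hd : 0 ≤ Nd) (h1 : 0 ≤ C₁) (h2 : 0 ≤ C₂)
    (hΛ : 0 ≤ Λ) (hA : 0 ≤ A) (hm : 0 ≤ m) (hZ : 0 ≤ Z) (ht : 0 ≤ t) :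
    w * X * a / (Ne * Nb) * (C₁ * Λ * A * (m * Ne * Nd) * (Z * a) ^ 3 *
      (C₂ * (Ne * Nb) / X) ^ 3 * t) ≤
      w * R ^ 4 * C₁ * C₂ ^ 3 * m * (Λ * A * (Ne * Nd) * (Z * Ne * Nb / X) ^ 2 * Z * t) := by
  rw [show w * X * a / (Ne * Nb) * (C₁ * Λ * A * (m * Ne * Nd) * (Z * a) ^ 3 *
      (C₂ * (Ne * Nb) / X) ^ 3 * t) =
      w * a ^ 4 * C₁ * C₂ ^ 3 * m * (Λ * A * (Ne * Nd) * (Z * Ne * Nb / X) ^ 2 * Z * t) by
    field_simp]
  gcongr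

theorem id1 {w X a Ne Nb NJ β : ℝ} {d o P S : ℂ} (ha : 0 < a) (he : 0 < Ne) (hb : 0 < Nb)
    (hJ : 0 < NJ) (h : P = (w * X / (Ne * Nb * NJ) : ℝ) * d * S) :
    ((w * X * a / (Ne * Nb) : ℝ) : ℂ) * (β * d * (o / (NJ * a : ℝ)) * S) = o * P * β := by
  have h1 : (a : ℂ) ≠ 0 := Complex.ofReal_ne_zero.2 ha.ne'
  have h2 : (Ne : ℂ) ≠ 0 := Complex.ofReal_ne_zero.2 he.ne'
  have h3 : (Nb : ℂ) ≠ 0 := Complex.ofReal_ne_zero.2 hb.ne'
  have h4 : (NJ : ℂ) ≠ 0 := Complex.ofReal_ne_zero.2 hJ.ne'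
  rw [h]
  push_cast
  field_simp

end PEXT

open PEXT in
theorem y_eXT (c : Cx k K) (hKS : Y_KS k K) (hFOLD : Y_FOLD k K) (hPHI : Y_PHI k K) :
    Y_EXT k K := by
  intro n₀ n ℛ ℛ' Ψ hG hΨ
  have hn0 : 1 ≤ n₀ := Nat.one_le_iff_ne_zero.2 hG.g0.pos
  have hN : 2 ≤ 4 * n₀ ^ 2 := by have := Nat.one_le_pow 2 n₀ hn0; omega
  have hn : 2 ≤ n := hN.trans (Nat.le_of_dvd (Nat.pos_of_ne_zero hG.g.pos) hG.dvd)
  obtain ⟨ℓ, ⟨U⟩⟩ := c.ub (n := 4 * n₀ ^ 2) (by omega)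
  obtain ⟨C₁, h1, hK⟩ := hKS _ ℓ U
  obtain ⟨C₂, M₀, h2, hM, hP⟩ := hPHI n₀ n ℛ ℛ' Ψ hG hΨ
  obtain ⟨B, -⟩ := c.bf
  have hj := (c.lib.part k B K _ ℓ U).2.2.2.1
  have hw := c.cW_pos
  have hr := c.one_le_rk
  have hv : ∀ v ∈ ℛ, Dv n v := fun v e => (hG.mem v (mem_union_left _ e)).1
  set R := NN (sp (n : 𝓞 K))
  have hR : 0 ≤ R := Nat.cast_nonneg _
  have h1' : 0 ≤ C₁ := by linarith
  have h2' : 0 < C₂ := by linarith
  have p1 : 0 ≤ cW k K * R * C₁ * C₂ := by positivity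
  have p2 : 0 ≤ ℛ.card * (cW k K * R ^ 4 * C₁ * C₂ ^ 3 * ((n * M₀ : ℕ) : ℝ)) := by positivity
  refine ⟨1 + cW k K * R * C₁ * C₂ + ℛ.card * (cW k K * R ^ 4 * C₁ * C₂ ^ 3 * ((n * M₀ : ℕ) : ℝ)),
    by linarith, fun e b ω X Λ T Z hb hc heb hω hX hT hZ => ?_⟩
  obtain ⟨η, Φ, hη, hΦ⟩ := hP e b hb hc heb
  have e0 : e ≠ ⊥ := left_ne_zero_of_mul (Cop_ne_bot hn hc)
  have he := NN_pos e0
  have hb' := NN_pos hb.ne_zero
  have hΛ : 0 ≤ Λ := (norm_nonneg _).trans (hω.bd 0)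
  have hA : 0 ≤ √(NN b) := Real.sqrt_nonneg _
  have hD : 0 < C₂ * (NN e * NN b) := by positivity
  have hμ : 0 < X ^ (1 / rk k K) * (C₂ * (NN e * NN b)) ^ (-(1 / rk k K)) := by positivity
  have hη' : ∀ φ, X ^ (1 / rk k K) * (C₂ * (NN e * NN b)) ^ (-(1 / rk k K)) ≤
      X ^ (1 / rk k K) * η φ := fun φ => mul_le_mul_of_nonneg_left (hη φ) (by positivity)
  have hv1 : ∀ v : Pl K, 1 ≤ nv v := fun v => one_le_two.trans (two_le_NN v)
  have hZ' : ∀ v : Pl K, 1 ≤ Z * nv v := fun v => one_le_mul_of_one_le_of_one_le hZ (hv1 v)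
  have m1 : 1 ≤ Ideal.absNorm e := Nat.one_le_iff_ne_zero.2 fun h =>
    e0 (Ideal.absNorm_eq_zero_iff.1 h)
  have z0 : ∀ v ∈ ℛ, ∀ g, Φ v 0 g = 0 := fun v h g => by
    by_contra h'
    exact (((hΦ v h).1 0 g).2 h').1 rfl
  have cp : ∀ v : Pl K, 0 ≤ cW k K * X * nv v / (NN e * NN b) := fun v => by
    have := nv_pos v; positivity
  obtain ⟨G, g1, g2, g3, g4⟩ := hFOLD _ ℓ U ℛ (fun v g => (cW k K * X * nv v / (NN e * NN b) : ℝ) *
    ∑' κ, Φ v κ g * gz U (fun y => ω (y / nv v)) (fun φ => X ^ (1 / rk k K) * η φ) (emb k κ)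
      (emb k g)) (cW k K * R * C₁ * C₂ * Λ * √(NN b)) Z hN hG.rep (by positivity) fun v h g => by
    refine ⟨?_, fun h' => ?_⟩
    · have a1 := (hK _ Λ T _ _ _ _ (M₀ * Ideal.absNorm e) (Φ v) (lc_div hω (hv1 v) hT) hT (hZ' v)
        hμ hη' (Nat.mul_pos hM m1) (fun κ g => ((hΦ v h).1 κ g).1) (z0 v h) (hΦ v h).2.1).1 g
      have a2 := mu_pow hX hD hr 1
      rw [Nat.cast_one, one_mul] at a2
      rw [a2] at a1
      rw [nm (cp v)]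
      exact (mul_le_mul_of_nonneg_left a1 (cp v)).trans
        (ar1 hw hX (nv_le_of_dv hG.g.pos (hv v h)) he hb' h1' h2'.le hΛ hA (U.β_nonneg _))
    · obtain ⟨κ, hκ⟩ : ∃ κ, Φ v κ g * gz U (fun y => ω (y / nv v))
          (fun φ => X ^ (1 / rk k K) * η φ) (emb k κ) (emb k g) ≠ 0 := by
        by_contra h''
        simp only [not_exists, not_not] at h''
        exact h' (by simp only [h'', tsum_zero, mul_zero])
      obtain ⟨-, a1, a2⟩ := ((hΦ v h).1 κ g).2 (left_ne_zero_of_mul hκ)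
      refine ⟨a1, a2, ?_⟩
      rw [c.NN_eq]
      refine ((lc_div hω (hv1 v) hT).supp _ fun h'' => right_ne_zero_of_mul hκ ?_).2
      simp only [gz, h'', zero_div, mul_zero, zero_mul]
  refine ⟨G, fun J => (g1 J).trans ?_, fun J hJ hJ' => ?_, fun 𝔡 h𝔡 => ?_⟩
  · gcongr
    linarith
  · by_cases hJN : Cop (4 * n₀ ^ 2) J
    · refine g3 J _ hJN fun v h g a1 a2 => ?_
      have a3 := (hΦ v h).2.2 X J g hX hJ hJ' a1 a2
      have a4 : nz (emb k g) = NN J * nv v := by rw [← c.NN_eq, ← a2, NN_mul]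
      have a5 : ∀ κ, Φ v κ g * gz U (fun y => ω (y / nv v)) (fun φ => X ^ (1 / rk k K) * η φ)
          (emb k κ) (emb k g) = U.β (emb k g) * dP (emb k g) * (ω (NN J) / (NN J * nv v : ℝ)) *
          (Φ v κ g * (gau (fun φ => X ^ (1 / rk k K) * η φ / ‖emb k g φ‖ ^ 2) (emb k κ) : ℝ)) :=
        fun κ => by
          rw [gz, a4, mul_div_cancel_right₀ _ (nv_pos v).ne']; ring
      simp only [a5]
      rw [tsum_mul_left, id1 (nv_pos v) he hb' (NN_pos hJ.ne_zero) a3]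
      ring
    · rw [g2 J hJN, hΨ.zero J fun h => hJN (Cop_of_dvd h hG.dvd), zero_mul, zero_div, zero_mul]
  · have d1 : 1 ≤ Ideal.absNorm 𝔡 := Nat.one_le_iff_ne_zero.2 fun h =>
      h𝔡 (Ideal.absNorm_eq_zero_iff.1 h)
    have hd := (NN_pos h𝔡).le
    have ht : 0 ≤ T ^ (-(1 / (2 * rk k K))) := by positivity
    have hS : 0 ≤ Λ * √(NN b) * (NN e * NN 𝔡) * (Z * NN e * NN b / X) ^ 2 * Z *
        T ^ (-(1 / (2 * rk k K))) := by positivity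
    rw [g4 𝔡, nm (by positivity)]
    refine (mul_le_of_le_one_left (norm_nonneg _) (inv_le_one_of_one_le₀ hj)).trans
      ((norm_sum_le _ _).trans ((sum_le_card_nsmul _ _ (cW k K * R ^ 4 * C₁ * C₂ ^ 3 *
        ((n * M₀ : ℕ) : ℝ) * (Λ * √(NN b) * (NN e * NN 𝔡) * (Z * NN e * NN b / X) ^ 2 * Z *
          T ^ (-(1 / (2 * rk k K))))) fun v h => ?_).trans ?_))
    · have a1 := (hK _ Λ T _ _ _ _ (n * M₀ * Ideal.absNorm e * Ideal.absNorm 𝔡)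
        (fun κ g => if g ∈ 𝔡 * v.asIdeal then Φ v κ g else 0) (lc_div hω (hv1 v) hT) hT (hZ' v)
        hμ hη' (Nat.mul_pos (Nat.mul_pos (Nat.mul_pos (by omega) hM) m1) d1)
        (fun κ g => by
          split_ifs
          exacts [((hΦ v h).1 κ g).1, norm_zero.trans_le hA])
        (fun g => by rw [z0 v h, ite_self]) fun κ hκ => peri_ite ((hΦ v h).2.1 κ hκ)
          ⟨n * Ideal.absNorm 𝔡, by ring⟩ (by
            rw [show n * M₀ * Ideal.absNorm e * Ideal.absNorm 𝔡 * Ideal.absNorm (sp κ) =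
              M₀ * Ideal.absNorm e * Ideal.absNorm (sp κ) * (Ideal.absNorm 𝔡 * n) by ring,
              Nat.cast_mul, Nat.cast_mul (Ideal.absNorm 𝔡)]
            exact Ideal.mul_mem_left _ _ (Ideal.mul_mem_mul (Ideal.absNorm_mem 𝔡) (hv v h)))).2
      have a2 := mu_pow hX hD hr 3
      rw [Nat.cast_ofNat] at a2
      rw [a2, Nat.cast_mul, Nat.cast_mul] at a1
      refine le_trans (le_of_eq ?_) ((mul_le_mul_of_nonneg_left a1 (cp v)).trans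
        (ar2 hw hX (nv_pos v).le (nv_le_of_dv hG.g.pos (hv v h)) he hb' hd h1' h2'.le hΛ hA
          (Nat.cast_nonneg _) (by linarith) ht))
      rw [← nm (cp v), mul_finsum]
      refine congrArg _ (finsum_congr fun g => ?_)
      split_ifs
      · rfl
      · simp only [zero_mul, tsum_zero, mul_zero]
    · rw [nsmul_eq_mul, ← mul_assoc]
      refine (mul_le_mul_of_nonneg_right (le_add_of_nonneg_left (add_nonneg zero_le_one p1))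
        hS).trans_eq ?_
      ring

end Pool.Agent.P.MP_b8021b_nt.BP
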