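import Pool.Agent.P.MP_b8021b_nt.BP.StC
import Pool.Agent.P.MP_b8021b_nt.BS.PFE2

/-! The theta series over elements with explicit data. -/

namespace Pool.Agent.P.MP_b8021b_nt.BP

open NumberField IsDedekindDomain Finset MeasureTheory
open Pool.Agent.P.MP_b8021b_nt.VE Pool.Agent.P.MP_b8021b_nt.VC Pool.Agent.P.MP_b8021b_nt.BS.CF
open Pool.Agent.P.MP_b8021b_nt.BS
open scoped Classical ComplexConjugate Real

variable {k : Type} [Field k] [NumberField k] [Algebra k ℂ] {K : Type} [Field K] [NumberField K]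
  [Algebra k K]

open BS.PFE1 in
theorem y_fE1 (c : Cx k K) : Y_FE1 k K := by
  intro n m ℓ U Ψ ℛ J hG hΨ hR1 hR2 J0 hJ t ht τ hτ
  obtain ⟨-, -, -, -, -, hLT⟩ := c.gn m ℓ U
  have h0 : ∀ 𝔠 ∈ ℛ, 𝔠 ≠ ⊥ := fun 𝔠 h e => by
    have := hR1 𝔠 h
    rw [e, Ideal.mem_bot] at this
    exact hG.pos (by exact_mod_cast this)
  let T : Ideal (𝓞 K) → ℂ := fun I => Ψ I * jac t I * (√(NN I) * τ * kk U (τ * NN I) : ℝ)
  have hT : Summable T := by
    refine Summable.of_norm_bounded (((c.thb _ (c.km m ℓ U).1).1 τ hτ).mul_left τ).abs fun I => ?_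
    rw [norm_mul, norm_mul, Complex.norm_real, Real.norm_eq_abs,
      show √(NN I) * τ * kk U (τ * NN I) = τ * (√(NN I) * kk U (τ * NN I)) by ring]
    exact mul_le_of_le_one_left (abs_nonneg _)
      (mul_le_one₀ (hΨ.norm_le _) (norm_nonneg _) (norm_jac_le _ _))
  have key : ∀ 𝔠 ∈ ℛ, ((√(NN 𝔠) / J : ℝ) : ℂ) *
      LT U (fun β => co k Ψ 𝔠 β * dP (emb k β) * jac β (sp t)) (τ / NN 𝔠) =
      ∑' I, (if ∃ γ, I * 𝔠 = sp γ then 1 else 0) * T I := fun 𝔠 h => by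
    have N0 := NN_pos (h0 𝔠 h)
    rw [hLT _ 1 _ (norm_le hΨ t) (div_pos hτ N0), Th,
      ← Function.Injective.tsum_eq (g := (· * 𝔠)) (mul_left_injective₀ (h0 𝔠 h))
        fun I hI => not_not.1 fun e => hI (by simp only [CC_zero e, zero_mul]), ← tsum_mul_left]
    refine tsum_congr fun I => ?_
    by_cases hI : I = ⊥
    · simp [T, hI, NN]
    have e : √(NN 𝔠) / J * (J * (√(NN (I * 𝔠)) * (τ / NN 𝔠) * kk U (τ / NN 𝔠 * NN (I * 𝔠)))) =
        √(NN I) * τ * kk U (τ * NN I) := by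
      rw [NN_mul, Real.sqrt_mul (Nat.cast_nonneg _),
        show τ / NN 𝔠 * (NN I * NN 𝔠) = τ * NN I by field_simp]
      have := Real.mul_self_sqrt N0.le
      field_simp
      linear_combination (√(NN I) * kk U (τ * NN I)) * this
    simp only [T]
    rw [CC_mul c.rc hG (h0 𝔠 h) (hR1 𝔠 h) ht hJ hI, ← e]
    push_cast
    ring
  have hS : ∀ 𝔠 ∈ ℛ, Summable fun I => (if ∃ γ, I * 𝔠 = sp γ then 1 else 0) * T I := fun 𝔠 _ =>
    Summable.of_norm_bounded hT.norm fun I => by split_ifs <;> simp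
  rw [sum_congr rfl key, ← Summable.tsum_finsetSum hS]
  refine tsum_congr fun I => ?_
  change T I = _
  by_cases hI : I = ⊥
  · simp [T, hI, NN]
  obtain ⟨𝔠, ⟨h1, h2⟩, h3⟩ := hR2 I hI
  rw [sum_eq_single_of_mem 𝔠 h1 fun b hb ne => by
    rw [if_neg fun h => ne (h3 b ⟨hb, h⟩), zero_mul], if_pos h2, one_mul]

open BS.PFE2 in
theorem y_fE2 (c : Cx k K) : Y_FE2 k K := by
  intro n ℓ U hn hU
  obtain ⟨B, -⟩ := c.bf
  obtain ⟨c₀, -, hfe⟩ := PoiN.thE_fe B K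
  have hn0 : (n : 𝓞 K) ≠ 0 := by exact_mod_cast hn.pos
  set M : 𝓞 K := ((n ^ 3 : ℕ) : 𝓞 K) with hM
  have hM' : M = (n : 𝓞 K) ^ 3 := by rw [hM]; push_cast; rfl
  have hM0 : M ≠ 0 := by rw [hM']; exact pow_ne_zero _ hn0
  have hMb : sp M ≠ ⊥ := by simpa [sp] using hM0
  have hN2 : (((n ^ 2 : ℕ) : 𝓞 K)) = (n : 𝓞 K) ^ 2 := by push_cast; rfl
  refine ⟨c₀ * PoiN.PP k M, fun φ hφ t ht τ hτ => ?_⟩
  rw [show hatM M φ = PoiN.hat M φ from funext fun ν => (hat_eq M φ ν).symm]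
  have hφM : Peri (sp M) φ := fun x y h => hφ x y (Ideal.mem_span_singleton.2
    (Dvd.dvd.trans ⟨n, by rw [hM', hN2]; ring⟩ (Ideal.mem_span_singleton.1 h)))
  have ht0 := ht.ne_zero
  have htb : sp t ≠ ⊥ := ht.2.ne_zero
  have ht1 : (n : 𝓞 K) ∣ t - 1 := Dvd.dvd.trans ⟨n, by rw [hN2]; ring⟩ ht.1
  have ht8 := hn.dvd8 ht1
  have htK : (t : K) ≠ 0 := by exact_mod_cast ht0
  have hMK : (M : K) ≠ 0 := by exact_mod_cast hM0
  have hjn : jac (n : 𝓞 K) (sp t) = 1 := by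
    rw [← c.rc t n ht8 hn0]
    exact jac_eq_one_of_mem (by simpa [sp] using hn0) (Ideal.mem_span_singleton_self _) ht1
  have hjM : jac M (sp t) = 1 := by rw [hM', jac_pow_left _ htb, hjn, one_pow]
  have hcop : IsCoprime M t := by
    rw [hM']
    obtain ⟨s, hs⟩ := ht1
    exact IsCoprime.pow_left ⟨-s, 1, by linear_combination hs⟩
  have hφt : ∀ x, φ (t * x) = φ x := fun x => hφ _ _ (Ideal.mem_span_singleton.2 (by
    rw [show t * x - x = (t - 1) * x by ring]; exact ht.1.mul_right x))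
  have hc2 : Cop 2 (sp t) := cop_span_of_dvd (Dvd.dvd.trans ⟨4, by norm_num⟩ ht8)
  have hti : (t : K)⁻¹ ∈ Dual (sp t) := by simpa using div_mem_dual ht0 1
  have hhat : ∀ ν : 𝓞 K, PoiN.hat (M * t) (fun x => φ x * jac x (sp t)) ν =
      PoiN.hat M φ ν * jac ν (sp t) * (gsI (sp t) (t : K)⁻¹ / (NN (sp t) : ℝ)) := by
    intro ν
    rw [hat_eq, hat_eq, c.g1.1 M t φ _ _ hM0 ht0 hcop hφM (peri_jac _)
      (div_mem_dual (mul_ne_zero hM0 ht0) ν)]
    have e1 : (ν : K) / ((M * t : 𝓞 K) : K) * (t : 𝓞 K) = (ν : K) / M := by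
      push_cast; field_simp
    have e2 : (ν : K) / ((M * t : 𝓞 K) : K) * (M : 𝓞 K) = (t : K)⁻¹ * (ν : 𝓞 K) := by
      push_cast; field_simp
    have e3 : (fun x => jac (M * x) (sp t)) = fun x => jac x (sp t) := funext fun x => by
      rw [jac_mul_left, hjM, one_mul]
    rw [e1, e2, e3, funext hφt, ← gsI, (c.g2 _ _ ht.2 hc2 hti).1 ν, sp_mul, map_mul]
    push_cast
    ring
  have key := hfe _ ℓ U (sp (((n ^ 2 : ℕ) : 𝓞 K) * t)) (M * t) (fun x => φ x * jac x (sp t))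
    (mul_ne_zero hM0 ht0) (Ideal.mem_span_singleton.2 ⟨n, by rw [hM', hN2]; ring⟩)
    (fun κ hκ => by
      obtain ⟨a, ha⟩ := hn.dual (κ * ((((n ^ 2 : ℕ) : 𝓞 K) * t : 𝓞 K) : K)) fun b _ => by
        obtain ⟨m, hm⟩ := hκ ((((n ^ 2 : ℕ) : 𝓞 K) * t) * b)
          (Ideal.mul_mem_right _ _ (Ideal.mem_span_singleton_self _))
        refine ⟨m, ?_⟩
        rw [PoiN.tr] at hm
        have : Algebra.trace ℚ K (κ * (((((n ^ 2 : ℕ) : 𝓞 K) * t) * b : 𝓞 K) : K)) = m := by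
          exact_mod_cast hm
        rw [← this]
        congr 1
        push_cast
        ring
      refine ⟨a, ?_⟩
      rw [← ha, hM']
      push_cast
      ring)
    (fun x y h => by
      have h1 := Ideal.mem_span_singleton.1 h
      beta_reduce
      rw [hφ x y (Ideal.mem_span_singleton.2 ((dvd_mul_right _ _).trans h1)),
        jac_congr (Ideal.mem_span_singleton.2 ((dvd_mul_left _ _).trans h1))])
    (fun j x => by
      have e0 : sp (U.ε j : 𝓞 K) = ⊤ := Ideal.span_singleton_eq_top.2 (U.ε j).isUnit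
      have e1 : φ (U.ε j * x) = φ x := hφM _ _ (Ideal.mem_span_singleton.2 (by
        rw [show (U.ε j : 𝓞 K) * x - x = (U.ε j - 1) * x by ring]; exact (U.cong j).mul_right x))
      have e2 : jac (U.ε j : 𝓞 K) (sp t) = 1 := by
        rw [← c.rc t _ ht8 (Units.ne_zero _), e0, jac_top]
      have e3 : PoiN.PP k (U.ε j : 𝓞 K) = 1 := by
        rw [PP_eq, dP_eq_ty, hU j, ← c.NN_eq, e0]
        simp [NN]
      rw [e1, jac_mul_left, e2, e3, one_mul, mul_one]) τ hτ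
  rw [LT_eq U _ (fun x => φ x * jac x (sp t) * PoiN.PP k x) (fun x => by rw [PP_eq]; ring), key,
    LT_eq U _ (fun ν => PoiN.hat M φ ν * jac ν (sp t) * conj (PoiN.PP k ν))
      (fun x => by rw [PP_eq, map_mul, Complex.conj_ofReal]; ring)]
  have e4 : (τ * nz (emb k (M * t)))⁻¹ = (NN (sp M))⁻¹ / (τ * NN (sp t)) := by
    rw [← c.NN_eq, sp_mul, NN_mul]
    have := NN_pos hMb
    have := NN_pos htb
    field_simp
  have e5 : PoiN.thE U (fun ν => PoiN.hat (M * t) (fun x => φ x * jac x (sp t)) ν *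
      conj (PoiN.PP k ν)) ((NN (sp M))⁻¹ / (τ * NN (sp t))) =
      gsI (sp t) (t : K)⁻¹ / (NN (sp t) : ℝ) * PoiN.thE U (fun ν => PoiN.hat M φ ν *
        jac ν (sp t) * conj (PoiN.PP k ν)) ((NN (sp M))⁻¹ / (τ * NN (sp t))) := by
    unfold PoiN.thE
    rw [← tsum_mul_left]
    refine tsum_congr fun ν => ?_
    beta_reduce
    rw [hhat]
    ring
  rw [e4, e5, PoiN.PP_mul, PP_eq t, ← c.NN_eq, eps]
  have e6 : ((NN (sp t) : ℝ) : ℂ) = (√(NN (sp t)) : ℝ) * (√(NN (sp t)) : ℝ) := by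
    rw [← Complex.ofReal_mul, Real.mul_self_sqrt (NN_pos htb).le]
  have e7 : ((√(NN (sp t)) : ℝ) : ℂ) ≠ 0 := by
    exact_mod_cast (Real.sqrt_pos.2 (NN_pos htb)).ne'
  generalize PoiN.thE U _ _ = J
  rw [e6]
  field_simp

end Pool.Agent.P.MP_b8021b_nt.BP
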