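import Pool.Agent.P.MP_b8021b_nt.BP.StC
import Pool.Agent.P.MP_b8021b_nt.BS.PFE

/-! The functional equation with one dual series. -/

namespace Pool.Agent.P.MP_b8021b_nt.BP

open NumberField IsDedekindDomain Finset MeasureTheory
open Pool.Agent.P.MP_b8021b_nt.VE Pool.Agent.P.MP_b8021b_nt.VC Pool.Agent.P.MP_b8021b_nt.BS.CF
open Pool.Agent.P.MP_b8021b_nt.BS
open scoped Classical ComplexConjugate Real
variable {k : Type} [Field k] [NumberField k] [Algebra k ℂ] {K : Type} [Field K] [NumberField K]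
  [Algebra k K]

namespace PFE3

theorem prin {Q P : Ideal (𝓞 K)} {α : 𝓞 K} (h : Q * P = sp α) (h0 : P ≠ ⊥) (hP : ∃ δ, P = sp δ) :
    ∃ κ, Q = sp κ := by
  obtain ⟨δ, rfl⟩ := hP
  obtain ⟨κ, rfl⟩ : δ ∣ α :=
    Ideal.mem_span_singleton.1 (Ideal.mul_le_right (h.ge (Ideal.mem_span_singleton_self α)))
  exact ⟨κ, mul_right_cancel₀ h0 (by rw [h, sp_mul, mul_comm])⟩

/-- exactly one representative divides with a principal quotient -/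
theorem uniq {n : ℕ} (hn : Good K n) {ℛ : Finset (Ideal (𝓞 K))} (h1 : ∀ 𝔠 ∈ ℛ, (n : 𝓞 K) ∈ 𝔠)
    (h2 : ∀ I : Ideal (𝓞 K), I ≠ ⊥ → ∃! 𝔠, 𝔠 ∈ ℛ ∧ ∃ γ, I * 𝔠 = sp γ) {I : Ideal (𝓞 K)}
    (hI : I ≠ ⊥) (hle : I ≤ sp (n : 𝓞 K)) : ∃! 𝔠, 𝔠 ∈ ℛ ∧ ∃ κ, I = sp κ * 𝔠 := by
  have ne : ∀ 𝔠 : Ideal (𝓞 K), (n : 𝓞 K) ∈ 𝔠 → 𝔠 ≠ ⊥ := fun 𝔠 h e => by
    rw [e, Ideal.mem_bot] at h
    exact hn.pos (by exact_mod_cast h)
  obtain ⟨I', α, hI', e⟩ := hn.cr I hI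
  obtain ⟨𝔠, ⟨a, b⟩, u⟩ := h2 I' (ne _ hI')
  refine ⟨𝔠, ⟨a, ?_⟩, fun 𝔠' ⟨a', κ, b'⟩ => u 𝔠' ⟨a', prin (P := sp κ) (α := α) ?_ ?_ ⟨κ, rfl⟩⟩⟩
  · obtain ⟨Q, rfl⟩ : 𝔠 ∣ I := Ideal.dvd_iff_le.2
      (hle.trans ((Ideal.span_singleton_le_iff_mem _).2 (h1 𝔠 a)))
    obtain ⟨κ, rfl⟩ := prin (Q := Q) (P := I' * 𝔠) (α := α) (by rw [← e]; ring)
      (mul_ne_zero (ne _ hI') (ne _ (h1 𝔠 a))) b
    exact ⟨κ, mul_comm _ _⟩
  · rw [← e, b']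
    ring
  · exact left_ne_zero_of_mul (b' ▸ hI : sp κ * 𝔠' ≠ 0)

/-- the sum over the generators of a function of the ideal -/
theorem CC_eq {m : ℕ} {ℓ J : ℝ} {U : UB k K m ℓ}
    (hJ : ∀ α : 𝓞 K, α ≠ 0 → {κ : 𝓞 K | sp κ = sp α ∧ U.β (emb k κ) ≠ 0}.Finite ∧
      ∑ᶠ κ ∈ {κ : 𝓞 K | sp κ = sp α}, U.β (emb k κ) = J) {G : 𝓞 K → ℂ} {z : ℂ}
    {I : Ideal (𝓞 K)} (hI : I ≠ ⊥) (h : ∀ κ, κ ≠ 0 → sp κ = I → G κ = z) :
    CC U G I = (if ∃ κ, I = sp κ then 1 else 0) * z * J := by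
  unfold CC
  split_ifs with e
  · obtain ⟨α, rfl⟩ := e
    have ne : ∀ κ : 𝓞 K, sp κ = sp α → κ ≠ 0 := fun κ e h0 =>
      hI (by rw [← e, h0]; simp [sp])
    obtain ⟨f1, f2⟩ := hJ α (ne α rfl)
    have e1 : ∀ κ ∈ {κ : 𝓞 K | sp κ = sp α},
        G κ * (U.β (emb k κ) : ℝ) = z * (U.β (emb k κ) : ℝ) := fun κ e => by
      rw [h κ (ne κ e) e]
    rw [finsum_mem_congr rfl e1, one_mul, ← f2]
    have f3 : ({κ : 𝓞 K | sp κ = sp α} ∩ Function.support fun κ => U.β (emb k κ)).Finite := f1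
    let g : ℝ →+ ℂ := (AddMonoidHom.mulLeft z).comp Complex.ofRealHom.toAddMonoidHom
    exact (g.map_finsum_mem' f3).symm
  · rw [zero_mul, zero_mul]
    exact finsum_mem_eq_zero_of_forall_eq_zero fun κ e' => absurd ⟨κ, Eq.symm e'⟩ e

end PFE3

open PFE3 PFE in
theorem y_fE3 (c : Cx k K) (hFE1 : Y_FE1 k K) (hFE2 : Y_FE2 k K) (hCOV1 : Y_COV1 k K)
    (hCOV2 : Y_COV2 k K) : Y_FE3 k K := by
  intro n Ψ hn hΨ
  have h2 : 2 ≤ n := hn.two_le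
  have h3 : 2 ≤ n ^ 3 := h2.trans (Nat.le_self_pow (by norm_num) n)
  obtain ⟨ℓ, ⟨U⟩⟩ := c.ub (n := n ^ 3) (by omega)
  obtain ⟨hK, hM, -⟩ := c.km _ ℓ U
  obtain ⟨ℛ, hR1, hR2⟩ := c.good.2 n hn
  obtain ⟨J, J0, hJ, -⟩ := c.gn _ ℓ U
  obtain ⟨γ, hγ⟩ := hFE2 n ℓ U hn ((isP_pow hΨ).tr U)
  have hC := hCOV1 n Ψ hn hΨ
  have h0 : ∀ 𝔠 ∈ ℛ, 𝔠 ≠ ⊥ := fun 𝔠 h e => by
    have := hR1 𝔠 h
    rw [e, Ideal.mem_bot] at this
    exact hn.pos (by exact_mod_cast this)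
  have hb : sp ((n ^ 3 : ℕ) : 𝓞 K) ≠ ⊥ := by
    rw [Ne, Ideal.span_singleton_eq_bot]
    exact_mod_cast (by omega : n ^ 3 ≠ 0)
  have hc := inv_pos.2 (NN_pos hb)
  generalize (NN (sp ((n ^ 3 : ℕ) : 𝓞 K)))⁻¹ = c₀ at hc hγ
  have key : FE3 k n Ψ (kk U) (ctd k n Ψ) γ c₀ 1 := by
    refine ⟨hK, hc, fun I => (hC I).2.1, fun I => (hC I).2.2.1, fun t ht τ hτ => ?_⟩
    have hd1 : (n : 𝓞 K) ∣ t - 1 := (ht.mono (dvd_pow_self n (by norm_num))).1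
    have hT : 0 < NN (sp t) := NN_pos (Ideal.span_singleton_eq_bot.not.2 ht.ne_zero)
    have hx : 0 < c₀ / (τ * NN (sp t)) := by positivity
    have e0 : ∀ 𝔠 ∈ ℛ, c₀ / (τ / NN 𝔠 * NN (sp t)) = NN 𝔠 * (c₀ / (τ * NN (sp t))) :=
      fun 𝔠 h => by
        have := NN_pos (h0 𝔠 h)
        field_simp
    rw [hFE1 n _ ℓ U Ψ ℛ J hn hΨ hR1 hR2 J0 hJ t hd1 τ hτ, sum_congr rfl fun 𝔠 h => by
      rw [hγ _ (PFE1.peri h2 hΨ (h0 𝔠 h) (hR1 𝔠 h)) t ht _ (div_pos hτ (NN_pos (h0 𝔠 h))),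
        e0 𝔠 h, mul_left_comm], ← mul_sum]
    generalize c₀ / (τ * NN (sp t)) = x at hx
    refine congrArg _ ?_
    let T : Ideal (𝓞 K) → ℂ := fun I =>
      ctd k n Ψ I * jac t I * (√(NN I) * x * kk U (x * NN I) : ℝ)
    have hS : Summable T := by
      refine Summable.of_norm_bounded (((c.thb _ hK).1 x hx).mul_left x).abs fun I => ?_
      rw [norm_mul, norm_mul, Complex.norm_real, Real.norm_eq_abs,
        show √(NN I) * x * kk U (x * NN I) = x * (√(NN I) * kk U (x * NN I)) by ring]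
      exact mul_le_of_le_one_left (abs_nonneg _)
        (mul_le_one₀ (hC I).2.1 (norm_nonneg _) (norm_jac_le _ _))
    have e1 : ∀ 𝔠 ∈ ℛ, ((√(NN 𝔠) / J : ℝ) : ℂ) * LT U (fun κ => hatM ((n ^ 3 : ℕ) : 𝓞 K)
        (PFE1.co k Ψ 𝔠) κ * conj (dP (emb k κ)) * jac κ (sp t)) (NN 𝔠 * x) =
        ∑' I, (if ∃ κ, I = sp κ * 𝔠 then 1 else 0) * T I := fun 𝔠 h => by
      have N0 := NN_pos (h0 𝔠 h)
      have N1 : ((NN 𝔠 : ℝ) : ℂ) ≠ 0 := Complex.ofReal_ne_zero.2 N0.ne'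
      have hG := fun κ hκ => eq_div_of_mul_eq N1
        ((mul_comm _ _).trans (hCOV2 n Ψ 𝔠 κ hn hΨ (hR1 𝔠 h) hκ))
      generalize hg : (fun κ => hatM ((n ^ 3 : ℕ) : 𝓞 K) (PFE1.co k Ψ 𝔠) κ *
        conj (dP (emb k κ))) = G
      simp only [fun κ => congrFun hg κ] at hG ⊢
      rw [lt_eq c.rc c.gn U G (A := max 1 ‖G 0‖) (fun κ => ?_) (hn.dvd8 hd1) (mul_pos N0 hx),
        Tw, Th, ← Function.Injective.tsum_eq (g := (· * 𝔠)) (mul_left_injective₀ (h0 𝔠 h))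
        (f := fun I => (if ∃ κ, I = sp κ * 𝔠 then 1 else 0) * T I) fun I hI => not_not.1 fun e => hI (by
          beta_reduce
          rw [if_neg fun ⟨κ, a⟩ => e ⟨_, a.symm⟩, zero_mul]), ← tsum_mul_left]
      · refine tsum_congr fun I => ?_
        by_cases hI : I = ⊥
        · simp [T, hI, NN]
        have e : √(NN 𝔠) / J * (J / NN 𝔠 * (√(NN I) * (NN 𝔠 * x) * kk U (NN 𝔠 * x * NN I))) =
            √(NN (I * 𝔠)) * x * kk U (x * NN (I * 𝔠)) := by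
          rw [NN_mul, Real.sqrt_mul (Nat.cast_nonneg _),
            show NN 𝔠 * x * NN I = x * (NN I * NN 𝔠) by ring]
          field_simp
        simp only [T, mul_left_inj' (h0 𝔠 h)]
        rw [CC_eq hJ hI (z := ctd k n Ψ (I * 𝔠) / (NN 𝔠 : ℝ)) fun κ a b => b ▸ hG κ a, ← e,
          jac_mul_right, jac_eq_one_of_mem (h0 𝔠 h) (hR1 𝔠 h) hd1]
        push_cast
        ring
      · by_cases hκ : κ = 0
        · exact hκ ▸ le_max_right _ _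
        · rw [hG κ hκ, norm_div, Complex.norm_real, Real.norm_of_nonneg N0.le]
          exact ((div_le_one N0).2 ((hC _).2.1.trans (one_le_NN (h0 𝔠 h)))).trans (le_max_left _ _)
    rw [sum_congr rfl e1, ← Summable.tsum_finsetSum fun 𝔠 _ =>
      Summable.of_norm_bounded hS.norm fun I => by split_ifs <;> simp]
    refine tsum_congr fun I => ?_
    change _ = T I
    by_cases hI : I = ⊥
    · simp [T, hI, NN]
    by_cases hz : ctd k n Ψ I = 0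
    · simp [T, hz]
    obtain ⟨𝔠, ⟨a, b⟩, u⟩ := uniq hn hR1 hR2 hI ((hC I).2.2.2 hz)
    rw [sum_eq_single_of_mem 𝔠 a fun d hd ne => by
      rw [if_neg fun h => ne (u d ⟨hd, h⟩), zero_mul], if_pos b, one_mul]
  obtain ⟨η, η0, η1, hS⟩ := c.sq0
  obtain ⟨κ, hκ, hsq, hcj⟩ := isH_sq c.toCtx h2 hΨ
  obtain ⟨A₀, hA₀⟩ := hS _ _ _ Ψ 1 h2 hsq hκ hΨ.norm_le
    fun 𝔫 I J _ _ _ _ => by simp only [map_mul, map_pow, MonoidHom.mul_apply]; ring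
  obtain ⟨A₁, hA₁⟩ := hS _ _ _ _ 1 h2 hcj (neg_ne_zero.2 hκ) key.bd fun 𝔫 I J _ a b _ => by
    rw [key.cov _ _ (IsCoprime.pow_left a), key.cov _ _ (IsCoprime.pow_left b)]
    simp only [cj_apply, map_mul, map_pow, MonoidHom.mul_apply]
    ring
  exact ⟨_, _, γ, c₀, 1, hM, ⟨1, fun _ => ctd k n Ψ, fun _ => γ, fun _ => c₀, max A₀ A₁, η, η0, η1,
    hA₀.mono (le_max_left _ _), fun _ => ⟨hc, hA₁.mono (le_max_right _ _)⟩, fun t ht τ hτ => by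
      rw [key.fe t ht τ hτ, Fin.sum_univ_one, mul_assoc]⟩, key⟩

end Pool.Agent.P.MP_b8021b_nt.BP
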