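import Pool.Agent.P.MP_b8021b_nt.BP.StC
import Pool.Agent.P.MP_b8021b_nt.BS.PGn

/-! Folding a sum over generators into a sum over ideals. -/

namespace Pool.Agent.P.MP_b8021b_nt.BP

open NumberField IsDedekindDomain Finset MeasureTheory
open Pool.Agent.P.MP_b8021b_nt.VE Pool.Agent.P.MP_b8021b_nt.VC Pool.Agent.P.MP_b8021b_nt.BS.CF
open Pool.Agent.P.MP_b8021b_nt.BS
open scoped Classical ComplexConjugate Real
variable {k : Type} [Field k] [NumberField k] [Algebra k ℂ] {K : Type} [Field K] [NumberField K]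
  [Algebra k K]

namespace PFOLD

variable {N : ℕ} {ℓ : ℝ}

/-- the generators congruent to one that carry weight -/
noncomputable def gs (c : Ctx k K) (U : UB k K N ℓ) (I : Ideal (𝓞 K)) : Finset (𝓞 K) :=
  (PGn.fin c U I).toFinset.filter fun g => (N : 𝓞 K) ∣ g - 1

theorem mem_gs {c : Ctx k K} {U : UB k K N ℓ} {I : Ideal (𝓞 K)} {g : 𝓞 K} :
    g ∈ gs c U I ↔ (sp g = I ∧ U.β (emb k g) ≠ 0) ∧ (N : 𝓞 K) ∣ g - 1 := by
  rw [gs, mem_filter, Set.Finite.mem_toFinset, Set.mem_ofPred_eq]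

theorem ne_zero (hN : 2 ≤ N) {g : 𝓞 K} (h : (N : 𝓞 K) ∣ g - 1) : g ≠ 0 := by
  rintro rfl
  rw [zero_sub, dvd_neg] at h
  have h1 : Ideal.absNorm (sp (N : 𝓞 K)) = 1 :=
    Ideal.absNorm_eq_one_iff.2 (Ideal.span_singleton_eq_top.2 (isUnit_of_dvd_one h))
  rw [Ideal.absNorm_span_natCast, Nat.pow_eq_one] at h1
  rcases h1 with h1 | h1
  · omega
  · exact Module.finrank_pos.ne' h1

theorem mass (c : Ctx k K) (U : UB k K N ℓ) (hN : 2 ≤ N) {α : 𝓞 K} (hα : (N : 𝓞 K) ∣ α - 1) :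
    ∑ g ∈ gs c U (sp α), (U.β (emb k g) : ℂ) = U.j0 := by
  obtain ⟨B, -⟩ := c.bf
  have h0 := ne_zero hN hα
  have h := (c.lib.part k B K N ℓ U).2.2.2.2 0 0 α h0 fun j => ty_zero _
  rw [if_pos fun η _ => ty_zero _] at h
  simp only [ty_zero, mul_one] at h
  rw [← h, ← finsum_mem_eq_sum_of_inter_support_eq (fun g => (U.β (emb k g) : ℂ))
    (s := {g | sp g = sp α ∧ (N : 𝓞 K) ∣ g - 1}) (Set.ext fun g => ?_)]
  · symm
    refine finsum_mem_eq_of_bijOn (fun η : (𝓞 K)ˣ => (η : 𝓞 K) * α) ⟨fun η hη => ⟨?_, ?_⟩,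
      fun η _ η' _ e => Units.ext (mul_right_cancel₀ h0 e), fun κ hκ => ?_⟩ fun _ _ => rfl
    · exact Ideal.span_singleton_mul_left_unit η.isUnit α
    · rw [show (η : 𝓞 K) * α - 1 = (η - 1) * α + (α - 1) by ring]
      exact dvd_add (Dvd.dvd.mul_right hη _) hα
    · obtain ⟨u, hu⟩ := Ideal.span_singleton_eq_span_singleton.1 (Eq.symm hκ.1)
      refine ⟨u, ?_, by rw [← hu, mul_comm]⟩
      have h2 := hκ.2
      rw [← hu] at h2
      change (N : 𝓞 K) ∣ (u : 𝓞 K) - 1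
      rw [show (u : 𝓞 K) - 1 = (α * u - 1) - (α - 1) * u by ring]
      exact dvd_sub h2 (Dvd.dvd.mul_right hα _)
  · simp only [Set.mem_inter_iff, mem_coe, mem_gs, Set.mem_ofPred_eq, Function.mem_support,
      Complex.ofReal_ne_zero]
    tauto

omit [NumberField K] in
theorem cop {J I : Ideal (𝓞 K)} {g : 𝓞 K} (h : (N : 𝓞 K) ∣ g - 1) (e : sp g = J * I) :
    Cop N J := by
  obtain ⟨a, ha⟩ := h
  refine IsCoprime.of_mul_left_left (y := I) ?_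
  rw [← e, Ideal.isCoprime_span_singleton_iff]
  exact ⟨1, -a, by linear_combination ha⟩

theorem single (c : Ctx k K) (U : UB k K N ℓ) {ℛ : Finset (Pl K)} (hR : Reps N ℛ)
    {J : Ideal (𝓞 K)} (hJ : Cop N J) : ∃ v ∈ ℛ, ∃ γ : 𝓞 K, (N : 𝓞 K) ∣ γ - 1 ∧
      J * v.asIdeal = sp γ ∧ ∀ f : Pl K → 𝓞 K → ℂ,
        ∑ w ∈ ℛ, ∑ g ∈ gs c U (J * w.asIdeal), f w g = ∑ g ∈ gs c U (sp γ), f v g := by
  obtain ⟨v, ⟨hv, γ, h1, h2⟩, hu⟩ := hR J hJ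
  refine ⟨v, hv, γ, h1, h2, fun f => ?_⟩
  rw [sum_eq_single_of_mem v hv fun w hw e => sum_eq_zero fun g hg =>
    (e (hu w ⟨hw, g, (mem_gs.1 hg).2, (mem_gs.1 hg).1.1.symm⟩)).elim, h2]

theorem unfold_sum (c : Ctx k K) (U : UB k K N ℓ) (hN : 2 ≤ N) (v : Pl K) (Θ : 𝓞 K → ℂ) {Z : ℝ}
    (h : ∀ g, Θ g ≠ 0 → U.β (emb k g) ≠ 0 ∧ g ∈ v.asIdeal ∧ (N : 𝓞 K) ∣ g - 1 ∧
      NN (sp g) ≤ Z * nv v) (𝔡 : Ideal (𝓞 K)) :
    ∑ J ∈ (ids K Z).filter (fun J => J ≤ 𝔡), ∑ g ∈ gs c U (J * v.asIdeal), Θ g =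
      ∑ᶠ g, if g ∈ 𝔡 * v.asIdeal then Θ g else 0 := by
  rw [finsum_eq_sum_of_support_subset (s := ((ids K Z).filter fun J => J ≤ 𝔡).biUnion
    fun J => gs c U (J * v.asIdeal)) _ fun g hg => ?_, sum_biUnion fun J _ J' _ e => ?_]
  · refine sum_congr rfl fun J hJ => sum_congr rfl fun g hg => (if_pos ?_).symm
    refine Ideal.mul_mono_left (mem_filter.1 hJ).2 ?_
    rw [← (mem_gs.1 hg).1.1]
    exact Ideal.mem_span_singleton_self g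
  · exact disjoint_left.2 fun g h1 h2 => e (mul_right_cancel₀ v.ne_bot
      ((mem_gs.1 h1).1.1.symm.trans (mem_gs.1 h2).1.1))
  · rw [Function.mem_support] at hg
    have h1 : g ∈ 𝔡 * v.asIdeal := not_not.1 fun e => hg (if_neg e)
    rw [if_pos h1] at hg
    obtain ⟨h2, h3, h4, h5⟩ := h g hg
    obtain ⟨q, hq⟩ := exists_quo h3
    refine mem_coe.2 (mem_biUnion.2 ⟨q, mem_filter.2 ⟨mem_ids.2 ⟨fun e => ?_, ?_⟩, ?_⟩,
      mem_gs.2 ⟨⟨hq.symm, h2⟩, h4⟩⟩)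
    · rw [e, Ideal.bot_mul] at hq
      exact ne_zero hN h4 (Ideal.span_singleton_eq_bot.1 hq.symm)
    · rw [← hq, NN_mul] at h5
      exact le_of_mul_le_mul_right h5 (nv_pos v)
    · rw [← Ideal.dvd_iff_le, ← mul_dvd_mul_iff_right v.ne_bot, hq]
      exact Ideal.dvd_span_singleton.2 h1

end PFOLD

open PFOLD in
theorem y_fOLD (c : Cx k K) : Y_FOLD k K := by
  intro N ℓ U ℛ Θ M Z hN hR hM hΘ
  obtain ⟨B, -⟩ := c.bf
  have hj : 0 < U.j0 := one_pos.trans_le (c.lib.part k B K N ℓ U).2.2.2.1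
  refine ⟨fun J => ((U.j0)⁻¹ : ℝ) * ∑ v ∈ ℛ, ∑ g ∈ gs c.toCtx U (J * v.asIdeal), Θ v g, ?_⟩
  have h0 : ∀ J, ¬ Cop N J → ∑ v ∈ ℛ, ∑ g ∈ gs c.toCtx U (J * v.asIdeal), Θ v g = 0 :=
    fun J hJ => sum_eq_zero fun v _ => sum_eq_zero fun g hg =>
      (hJ (cop (mem_gs.1 hg).2 (mem_gs.1 hg).1.1)).elim
  refine ⟨fun J => ?_, fun J hJ => by simp only [h0 J hJ, mul_zero], fun J z hJ hz => ?_,
    fun 𝔡 => ?_⟩
  · by_cases hJ : Cop N J
    · obtain ⟨v, hv, γ, h1, -, h3⟩ := single c.toCtx U hR hJ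
      have h4 : ∑ g ∈ gs c.toCtx U (sp γ), U.β (emb k g) = U.j0 := by
        exact_mod_cast mass c.toCtx U hN h1
      simp only [h3 Θ, norm_mul, Complex.norm_real, Real.norm_of_nonneg (inv_pos.2 hj).le]
      rw [inv_mul_le_iff₀ hj, mul_comm, ← h4, mul_sum]
      exact norm_sum_le_of_le _ fun g _ => (hΘ v hv g).1
    · simp only [h0 J hJ, mul_zero, norm_zero, hM]
  · obtain ⟨v, hv, γ, h1, h2, h3⟩ := single c.toCtx U hR hJ
    have h4 : (U.j0 : ℂ) ≠ 0 := Complex.ofReal_ne_zero.2 hj.ne'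
    simp only [h3 Θ]
    rw [sum_congr rfl fun g hg => hz v hv g (mem_gs.1 hg).2 (h2.trans (mem_gs.1 hg).1.1.symm),
      ← mul_sum, mass c.toCtx U hN h1, Complex.ofReal_inv]
    field_simp
  · rw [← mul_sum, sum_comm]
    refine congrArg _ (sum_congr rfl fun v hv => unfold_sum c.toCtx U hN v (Θ v)
      (fun g hg => ⟨fun e => hg ?_, (hΘ v hv g).2 hg⟩) 𝔡)
    have := (hΘ v hv g).1
    rwa [e, mul_zero, norm_le_zero_iff] at this

end Pool.Agent.P.MP_b8021b_nt.BP
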