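import Pool.Agent.P.MP_b8021b_nt.BP.StC

/-! Finite Euler products. -/

namespace Pool.Agent.P.MP_b8021b_nt.BP

open NumberField IsDedekindDomain Finset MeasureTheory
open Pool.Agent.P.MP_b8021b_nt.VE Pool.Agent.P.MP_b8021b_nt.VC Pool.Agent.P.MP_b8021b_nt.BS.CF
open Pool.Agent.P.MP_b8021b_nt.BS
open scoped Classical ComplexConjugate Real

variable {k : Type} [Field k] [NumberField k] [Algebra k ℂ] {K : Type} [Field K] [NumberField K]
  [Algebra k K]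

namespace PGEO

/-- the ideals with all prime factors in a given set -/
def SS (𝒰 : Finset (Pl K)) : Set (Ideal (𝓞 K)) := {I | I ≠ ⊥ ∧ prI I ⊆ 𝒰}

theorem sg_pow (g : Pl K → ℂ) (v : Pl K) (j : ℕ) : sg g (v.asIdeal ^ j) = g v ^ j := by
  induction j with
  | zero => rw [pow_zero, pow_zero, Ideal.one_eq_top, sg_top]
  | succ j ih => rw [pow_succ, pow_succ, sg_mul, ih, sg_prime]

theorem mem_mul {𝒰 : Finset (Pl K)} (v : Pl K) (j : ℕ) (J : SS 𝒰) :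
    v.asIdeal ^ j * J ∈ SS (insert v 𝒰) := by
  have h0 : v.asIdeal ^ j * J ≠ ⊥ := mul_ne_zero (pow_ne_zero j v.ne_bot) J.2.1
  refine ⟨h0, fun w hw => ?_⟩
  rcases w.isPrime.mul_le.1 ((mem_prI h0).1 hw) with h | h
  · have := w.isPrime
    exact mem_insert.2 (Or.inl (HeightOneSpectrum.ext
      (v.isMaximal.eq_of_le w.isPrime.ne_top (Ideal.IsPrime.le_of_pow_le h)).symm))
  · exact mem_insert_of_mem (J.2.2 ((mem_prI J.2.1).2 h))

theorem bij {𝒰 : Finset (Pl K)} {v : Pl K} (hv : v ∉ 𝒰) : Function.Bijective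
    fun x : ℕ × SS 𝒰 => (⟨v.asIdeal ^ x.1 * x.2, mem_mul v x.1 x.2⟩ : SS (insert v 𝒰)) := by
  constructor
  · rintro ⟨j, J⟩ ⟨j', J'⟩ e
    have e1 : v.asIdeal ^ j * J = v.asIdeal ^ j' * J' := congrArg Subtype.val e
    have h : ∀ (j : ℕ) (J : SS 𝒰), cnt v (v.asIdeal ^ j * J) = j := fun j J => by
      rw [cnt_mul v (pow_ne_zero j v.ne_bot) J.2.1, cnt_pow v v.ne_bot, cnt_self,
        (cnt_eq_zero v).2 fun h => hv (J.2.2 ((mem_prI J.2.1).2 h)), mul_one, add_zero]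
    obtain rfl : j = j' := by rw [← h j J, e1, h]
    exact Prod.ext rfl (Subtype.ext (mul_left_cancel₀ (pow_ne_zero j v.ne_bot) e1))
  · rintro ⟨I, h0, h1⟩
    obtain ⟨J, e, hJ⟩ :=
      (FiniteMultiplicity.of_prime_left v.prime h0).exists_eq_pow_mul_and_not_dvd
    have J0 : J ≠ ⊥ := right_ne_zero_of_mul (e ▸ h0)
    refine ⟨⟨_, J, J0, fun w hw => ?_⟩, Subtype.ext e.symm⟩
    have h2 := (mem_prI J0).1 hw
    refine (mem_insert.1 (h1 ((mem_prI h0).2 (le_trans ?_ h2)))).resolve_left ?_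
    · exact Ideal.le_of_dvd (Dvd.intro_left _ e.symm)
    · rintro rfl
      exact hJ (Ideal.dvd_iff_le.2 h2)

theorem main (g : Pl K → ℂ) (𝒰 : Finset (Pl K)) (h : ∀ v ∈ 𝒰, ‖g v‖ < 1) :
    (Summable fun I : SS 𝒰 => ‖sg g I‖) ∧
      HasSum (fun I : SS 𝒰 => sg g I) (∏ v ∈ 𝒰, (1 - g v)⁻¹) := by
  induction 𝒰 using Finset.induction_on with
  | empty =>
    have h1 : (⊤ : Ideal (𝓞 K)) ∈ SS (∅ : Finset (Pl K)) :=
      eI_empty (K := K) ▸ ⟨eI_ne_bot ∅, (prI_eI ∅).le⟩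
    have h2 : ∀ I : SS (∅ : Finset (Pl K)), I = ⟨⊤, h1⟩ := fun I => Subtype.ext (by
      have := (isCoprime_iff I.2.1 I.2.1).2 (by rw [subset_empty.1 I.2.2]; simp)
      simpa [Ideal.isCoprime_iff_sup_eq] using this)
    refine ⟨(hasSum_single ⟨⊤, h1⟩ fun I hI => absurd (h2 I) hI).summable, ?_⟩
    rw [prod_empty, ← sg_top g]
    exact hasSum_single (f := fun I : SS (∅ : Finset (Pl K)) => sg g I) ⟨⊤, h1⟩
      fun I hI => absurd (h2 I) hI
  | insert v 𝒰 hv ih =>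
    obtain ⟨h1, h2⟩ := ih fun w hw => h w (mem_insert_of_mem hw)
    have h3 := h v (mem_insert_self v 𝒰)
    have h4 : Summable fun j : ℕ => ‖g v ^ j‖ := summable_norm_geometric_of_norm_lt_one h3
    have h6 := h4.mul_norm h1
    have h5 := (hasSum_geometric_of_norm_lt_one h3).mul h2 h6.of_norm
    rw [prod_insert hv, ← (Equiv.ofBijective _ (bij hv)).summable_iff,
      ← (Equiv.ofBijective _ (bij hv)).hasSum_iff]
    simpa only [Function.comp_def, Equiv.ofBijective_apply, sg_mul, sg_pow] using And.intro h6 h5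

theorem part1 (𝒰 : Finset (Pl K)) (g : Pl K → ℂ) (h : ∀ v ∈ 𝒰, ‖g v‖ < 1) :
    (Summable fun I : Ideal (𝓞 K) => ‖if prI I ⊆ 𝒰 then sg g I else 0‖) ∧
      HasSum (fun I : Ideal (𝓞 K) => if prI I ⊆ 𝒰 then sg g I else 0) (∏ v ∈ 𝒰, (1 - g v)⁻¹) := by
  obtain ⟨h1, h2⟩ := main g 𝒰 h
  have e : ∀ I, I ∉ Set.range (Subtype.val : SS 𝒰 → Ideal (𝓞 K)) →
      (if prI I ⊆ 𝒰 then sg g I else 0) = 0 := fun I hI => by
    split_ifs with h3
    · by_contra h4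
      exact hI ⟨⟨I, fun h5 => h4 (h5 ▸ sg_bot g), h3⟩, rfl⟩
    · rfl
  have e' : ∀ I : SS 𝒰, (if prI (I : Ideal (𝓞 K)) ⊆ 𝒰 then sg g I else 0) = sg g I :=
    fun I => if_pos I.2.2
  rw [← Subtype.val_injective.summable_iff fun I hI => by rw [e I hI, norm_zero],
    ← Subtype.val_injective.hasSum_iff e]
  simpa only [Function.comp_def, e'] using And.intro h1 h2

end PGEO

theorem y_gEO (c : Cx k K) : Y_GEO K := by
  refine ⟨PGEO.part1, fun n hn => ?_⟩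
  have e : ∀ x : ℝ, 0 < x → ‖(x : ℂ) ^ (-(1 / 2 : ℂ))‖ = (√x)⁻¹ := fun x hx => by
    rw [norm_cpow_neg hx, Real.sqrt_eq_rpow, ← Real.rpow_neg hx.le]
    norm_num
  obtain ⟨h1, -⟩ := PGEO.part1 (finite_dv K hn).toFinset
    (fun v => (nv v : ℂ) ^ (-(1 / 2 : ℂ))) fun v _ => by
      rw [e _ (nv_pos v)]
      exact inv_lt_one_of_one_lt₀ (Real.lt_sqrt_of_sq_lt (by linarith [two_le_NN v]))
  refine ⟨max 1 _, le_max_left _ _, fun Z => le_trans (le_of_eq (sum_congr rfl fun I hI => ?_))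
    ((h1.sum_le_tsum (sm K n Z) fun _ _ => norm_nonneg _).trans (le_max_right _ _))⟩
  obtain ⟨h2, h3⟩ := mem_filter.1 hI
  have h4 := (mem_ids.1 h2).1
  have h5 : prI I ⊆ (finite_dv K hn).toFinset := fun v hv => (Set.Finite.mem_toFinset _).2 (h3 v hv)
  rw [if_pos h5, ← cpow_eq_sg _ h4, e _ (NN_pos h4)]

end Pool.Agent.P.MP_b8021b_nt.BP
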