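import Pool.Agent.P.MP_b8021b_nt.BP.StC
import Pool.Agent.P.MP_b8021b_nt.BS.PSel

/-! The group of local conditions over two and the auxiliary places. -/

namespace Pool.Agent.P.MP_b8021b_nt.BP

open NumberField IsDedekindDomain Finset MeasureTheory
open Pool.Agent.P.MP_b8021b_nt.VE Pool.Agent.P.MP_b8021b_nt.VC Pool.Agent.P.MP_b8021b_nt.BS.CF
open Pool.Agent.P.MP_b8021b_nt.BS
open scoped Classical ComplexConjugate Real

variable {k : Type} [Field k] [NumberField k] [Algebra k ℂ] {K : Type} [Field K] [NumberField K]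
  [Algebra k K]

namespace PGRP

theorem nv_symm {F : Type} [Field F] [CharZero F] {b c : F} (hc : c ≠ 0) (h : NV 2 b c) :
    NV 2 c b := by
  obtain ⟨r, s, t, e⟩ := h
  rw [Nf_two] at e
  rcases eq_or_ne s 0 with rfl | hs
  · have e' : c = r ^ 2 := by simpa using e
    rw [e'] at hc ⊢
    exact NV.split (Or.inl rfl) (by rintro rfl; simp at hc) b
  · refine ⟨r / s, 1 / s, 0, ?_⟩
    rw [Nf_two, e]
    field_simp
    ring

theorem ln_nv (hH : Z_Hen) {v : Pl K} {b c : K} (hv : Dv 2 v) (h : LN 2 v b c) :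
    NV 2 (algebraMap K (v.adicCompletion K) b) (algebraMap K (v.adicCompletion K) c) := by
  have hl : El 2 := Or.inl rfl
  have h0 : ((2 : ℕ) : K) ≠ 0 := Nat.cast_ne_zero.2 two_ne_zero
  have h1 := (od_pos_iff v h0).2 ((vl_nat_lt v).2 hv)
  obtain ⟨r, s, t, e⟩ := h (2 * od v ((2 : ℕ) : K) + 1).toNat
  have h2 : vl v (c / Nf 2 b r s t - 1) < vl v ((2 : ℕ) : K) ^ 2 := by
    refine e.trans_lt ?_
    rw [← map_pow, vl_eq v (pow_ne_zero 2 h0), od_pow, WithZero.exp_lt_exp]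
    omega
  obtain ⟨-, ρ, hρ⟩ := ((hH K 2 v hl).2.1 _).1 (LP.of_near h2)
  have h3 := (od_of_near v (h2.trans_le (sq_le v 2))).2.1
  have h4 : c = Nf 2 b r s t * (c / Nf 2 b r s t) := by field_simp
  rw [h4, map_mul, hρ, Nf_map]
  exact NV.mul hl ⟨_, _, _, rfl⟩ (NV.pow hl _ _)

theorem ln_mul (hH : Z_Hen) {v : Pl K} {b c c' : K} (hv : Dv 2 v) (hc : c ≠ 0) (hc' : c' ≠ 0)
    (h : LN 2 v b c) (h' : LN 2 v b c') : LN 2 v b (c * c') := by
  refine (hH K 2 v (Or.inl rfl)).2.2 b _ (mul_ne_zero hc hc') ?_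
  rw [map_mul]
  exact (ln_nv hH hv h).mul (Or.inl rfl) (ln_nv hH hv h')

theorem ln_symm (hH : Z_Hen) {v : Pl K} {b c : K} (hv : Dv 2 v) (hb : b ≠ 0) (hc : c ≠ 0)
    (h : LN 2 v b c) : LN 2 v c b := by
  have : CharZero (v.adicCompletion K) := algebraRat.charZero _
  exact (hH K 2 v (Or.inl rfl)).2.2 c b hb (nv_symm ((map_ne_zero _).2 hc) (ln_nv hH hv h))

theorem loc_of_lp (ζ : K) {u : K} (h : ∀ v : Pl K, Dv 2 v → LP 2 v u) : Loc ζ u := by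
  intro v hv
  rcases eq_or_ne ζ 0 with rfl | hζ
  · exact ⟨1, by simpa using LP.one v two_ne_zero, by simpa using h v hv⟩
  have h0 : ((2 : ℕ) : K) ≠ 0 := Nat.cast_ne_zero.2 two_ne_zero
  have h1 := (od_pos_iff v h0).2 ((vl_nat_lt v).2 hv)
  obtain ⟨m, hm⟩ : ∃ m : ℕ, |od v ζ| + 1 ≤ m := ⟨(|od v ζ| + 1).toNat, Int.self_le_toNat _⟩
  obtain ⟨y, hy⟩ : ∃ y : K, y = ((2 : ℕ) : K) ^ m := ⟨_, rfl⟩
  have y0 : y ≠ 0 := hy ▸ pow_ne_zero m h0
  have h2 : LP 2 v (1 - ζ * y ^ 4) := by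
    refine LP.of_near ?_
    rw [sub_sub_cancel_left, Valuation.map_neg, ← map_pow,
      vl_lt_iff v (mul_ne_zero hζ (pow_ne_zero 4 y0)) (pow_ne_zero 2 h0),
      od_mul v hζ (pow_ne_zero 4 y0), od_pow, od_pow, hy, od_pow]
    have := neg_abs_le (od v ζ)
    have := abs_nonneg (od v ζ)
    push_cast at *
    nlinarith
  have h3 := LP.pow_self v two_ne_zero (inv_ne_zero y0)
  refine ⟨y⁻¹ ^ 2, ?_, (h v hv).mul h3⟩
  rw [show y⁻¹ ^ 2 * ((y⁻¹ ^ 2) ^ 2 - ζ) = (y⁻¹ ^ 2) ^ 3 * (1 - ζ * y ^ 4) by field_simp]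
  exact (h3.pow two_ne_zero 3).mul h2

open PSel

/-- the classes that satisfy the local conditions -/
def Sl (𝓛 : K → Prop) (x : K) : Prop := x ≠ 0 ∧ (∀ v : Pl K, ¬ Dv 2 v → Even (od v x)) ∧ 𝓛 x

/-- there are `m` independent classes -/
def Pm (ζ : K) (𝓛 : K → Prop) (m : ℕ) : Prop :=
  ∃ y : Fin m → K, (∀ i, Sl 𝓛 (y i)) ∧ Idp (Fin.cons ζ y : Fin (m + 1) → K)

theorem pm0 {ζ : K} (h : Un ζ) (𝓛 : K → Prop) : Pm ζ 𝓛 0 := by
  obtain ⟨y, -, h2⟩ := pm_zero h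
  exact ⟨y, fun i => i.elim0, h2⟩

theorem pm1 (hes : Z_ES) (ζ : K) (𝓛 : K → Prop) : ∃ M, ¬ Pm ζ 𝓛 M := by
  obtain ⟨Y, hY⟩ := (hes K).2 2 2 two_ne_zero two_ne_zero
  refine ⟨Y.card + 1, fun ⟨y, hy, hI⟩ => ?_⟩
  choose f hf z hz using fun i => hY (y i) (hy i).1 fun v hv => ((hy i).2.1 v hv).two_dvd
  obtain ⟨i, -, j, -, hij, e⟩ := exists_ne_map_eq_of_card_lt_of_maps_to
    (s := (univ : Finset (Fin (Y.card + 1)))) (t := Y) (by simp) (f := f) fun i _ => hf i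
  have := hI (Fin.cons 0 (Pi.single i 1 + Pi.single j 1)) ⟨f i * z i * z j, by
    rw [Fin.prod_univ_succ]
    simp only [Fin.cons_zero, Fin.cons_succ, pow_zero, one_mul, Pi.add_apply, pow_add,
      prod_mul_distrib]
    rw [prod_eq_single i (fun b _ hb => by simp [hb]) (by simp),
      prod_eq_single j (fun b _ hb => by simp [hb]) (by simp)]
    simp only [Pi.single_eq_same, pow_one]
    rw [hz i, hz j, ← e]
    ring⟩ i.succ
  simp [hij] at this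

end PGRP

open PGRP in
theorem y_gRP (c : Cx k K) : Y_GRP K := by
  intro ζ
  have hH := c.lib.hen
  have ne : ∀ x ∈ Submonoid.closure {x : K | x ≠ 0 ∧ Loc ζ x}, x ≠ 0 := fun x hx =>
    Submonoid.closure_induction (fun _ h => h.1) one_ne_zero (fun _ _ _ _ => mul_ne_zero) hx
  have key : ∀ (v : Pl K) (a : K), Dv 2 v → (∀ x, x ≠ 0 → Loc ζ x → LN 2 v a x) →
      ∀ x ∈ Submonoid.closure {x : K | x ≠ 0 ∧ Loc ζ x}, LN 2 v a x := fun v a hv h x hx =>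
    Submonoid.closure_induction (fun _ h1 => h _ h1.1 h1.2)
      (LN.of_right hH (Or.inl rfl) a (LP.one v two_ne_zero))
      (fun _ _ h1 h2 => ln_mul hH hv (ne _ h1) (ne _ h2)) hx
  refine ⟨fun x => x ∈ Submonoid.closure {x : K | x ≠ 0 ∧ Loc ζ x}, ne,
    fun x h1 h2 => Submonoid.subset_closure ⟨h1, h2⟩, fun _ _ => mul_mem,
    fun u h1 h2 => Submonoid.subset_closure ⟨h1, loc_of_lp ζ h2⟩, fun a b ha hb v hv => ?_⟩
  exact key v a hv (fun x h1 h2 => ln_symm hH hv h1 (ne a ha)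
    (key v x hv (fun y _ h3 => c.iso ζ x y h2 h3 v hv) a ha)) b hb

open PSel in
theorem y_kILL (c : Cx k K) : Y_KILL K := by
  intro ζ 𝓛 hζ hG
  obtain ⟨M, hM⟩ := PGRP.pm1 c.lib.es ζ 𝓛
  obtain ⟨m, ⟨y, hy, hI⟩, hmax⟩ := ex_max (PGRP.pm0 hζ 𝓛) M hM
  have hw : ∀ i, (Fin.cons ζ y : Fin (m + 1) → K) i ≠ 0 :=
    Fin.cases (ne0 hζ) fun i => (hy i).1
  obtain ⟨ϖ, hϖ⟩ := c.lib.c K 2 2 (m + 1) _ c.om (Or.inl rfl) two_ne_zero hw hI
  have pζ : ∀ j : Fin m, LP 2 (ϖ j.succ) ζ := fun j => ((hϖ _).2 0).2 (Fin.succ_ne_zero j).symm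
  have py : ∀ i j : Fin m, LP 2 (ϖ j.succ) (y i) ↔ i ≠ j := fun i j =>
    ((hϖ _).2 i.succ).trans (by simp)
  refine ⟨univ.image fun j : Fin m => ϖ j.succ, fun v hv => ?_, fun x hL ho hV => ?_⟩
  · obtain ⟨j, -, rfl⟩ := mem_image.1 hv
    exact ⟨(hϖ _).1, pζ j⟩
  have hx := hG.ne x hL
  have hout : ∀ v : Pl K, ¬ Dv 2 v → (∀ j : Fin m, ϖ j.succ ≠ v) → Even (od v x) :=
    fun v hv hn => ho v hv fun h => by
      obtain ⟨j, -, hj⟩ := mem_image.1 h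
      exact hn j hj
  have hin : ∀ j : Fin m, Even (od (ϖ j.succ) x) := fun j => by
    refine even_iff_two_dvd.2 (c.lib.wr K 2 2 (y j) x _ c.om (Or.inl rfl) le_rfl dvd_rfl (hy j).1 hx
      (hϖ _).1 (fun v hv => ((hy j).2.1 v hv).two_dvd) (fun h => (py j j).1 h rfl) fun v hv => ?_)
    by_cases h2 : Dv 2 v
    · exact Or.inl (hG.iso _ _ (hy j).2.2 hL v h2)
    by_cases hn : ∀ i : Fin m, ϖ i.succ ≠ v
    · exact Or.inr ⟨h2, ((hy j).2.1 v h2).two_dvd, (hout v h2 hn).two_dvd⟩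
    · push Not at hn
      obtain ⟨i, rfl⟩ := hn
      exact Or.inl (LN.of_left c.lib.hen (Or.inl rfl) hx
        ((py j i).2 fun e => hv (by rw [e])))
  have hS : PGRP.Sl 𝓛 x := ⟨hx, fun v hv => by
    by_cases hn : ∀ i : Fin m, ϖ i.succ ≠ v
    · exact hout v hv hn
    · push Not at hn
      obtain ⟨i, rfl⟩ := hn
      exact hin i, hL⟩
  have px : ∀ j : Fin m, LP 2 (ϖ j.succ) x := fun j =>
    hV _ (mem_image.2 ⟨j, mem_univ _, rfl⟩) (hin j)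
  have hn : ¬ Idp (Fin.cons ζ (Fin.cons x y : Fin (m + 1) → K) : Fin (m + 2) → K) := fun h =>
    hmax ⟨Fin.cons x y, Fin.cases hS hy, h⟩
  simp only [Idp, not_forall] at hn
  obtain ⟨a, ⟨z, hz⟩, i₀, hi₀⟩ := hn
  have hw' : ∀ i, (Fin.cons ζ (Fin.cons x y : Fin (m + 1) → K) : Fin (m + 2) → K) i ≠ 0 :=
    Fin.cases (ne0 hζ) (Fin.cases hx fun i => (hy i).1)
  obtain ⟨z', hz'⟩ := red hw' hz
  have hz0 : z' ≠ 0 := fun e0 => by
    rw [e0, zero_pow two_ne_zero] at hz'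
    exact prod_ne_zero_iff.2 (fun i _ => pow_ne_zero _ (hw' i)) hz'
  simp only [Fin.prod_univ_succ, Fin.cons_zero, Fin.cons_succ] at hz'
  have hev : ∀ j : Fin m, a j.succ.succ % 2 = 0 := fun j => by
    by_contra ho
    have h1 := ((LP.pow_self (ϖ j.succ) two_ne_zero hz0).div
      ((pζ j).pow two_ne_zero (a 0 % 2))).div ((px j).pow two_ne_zero (a (Fin.succ 0) % 2))
    have h2 : LP 2 (ϖ j.succ) (∏ i ∈ univ.erase j, y i ^ (a i.succ.succ % 2)) :=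
      LP.prod two_ne_zero _ fun i hi => ((py i j).2 (ne_of_mem_erase hi)).pow two_ne_zero _
    have h3 := h1.div h2
    rw [← hz', ← mul_prod_erase univ _ (mem_univ j), Nat.mod_two_ne_zero.1 ho, pow_one,
      mul_div_cancel_left₀ _ (pow_ne_zero _ (ne0 hζ)), mul_div_cancel_left₀ _ (pow_ne_zero _ hx),
      mul_div_cancel_right₀ _ h2.ne_zero] at h3
    exact (py j j).1 h3 rfl
  simp only [hev, pow_zero, prod_const_one, mul_one] at hz'
  rcases Nat.mod_two_eq_zero_or_one (a 0) with h0 | h0 <;>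
    rcases Nat.mod_two_eq_zero_or_one (a (Fin.succ 0)) with h1 | h1 <;>
    simp only [h0, h1, pow_zero, pow_one, one_mul, mul_one] at hz'
  · refine absurd (Nat.dvd_of_mod_eq_zero ?_) hi₀
    exact Fin.cases h0 (Fin.cases h1 hev) i₀
  · exact Or.inl ⟨z', by rw [hz', sq]⟩
  · exact absurd ⟨z', by rw [hz', sq]⟩ hζ.ns
  · exact Or.inr ⟨z', by rw [hz', sq]⟩

end Pool.Agent.P.MP_b8021b_nt.BP
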