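import Pool.Agent.P.MP_b8021b_nt.BP.StC
import Pool.Agent.P.MP_b8021b_nt.BS.PPCh

/-! The factorisation of the Gauss sum of a product of two ideals. -/

namespace Pool.Agent.P.MP_b8021b_nt.BP

open NumberField IsDedekindDomain Finset MeasureTheory
open Pool.Agent.P.MP_b8021b_nt.VE Pool.Agent.P.MP_b8021b_nt.VC Pool.Agent.P.MP_b8021b_nt.BS.CF
open Pool.Agent.P.MP_b8021b_nt.BS
open scoped Classical ComplexConjugate Real
variable {k : Type} [Field k] [NumberField k] [Algebra k ℂ] {K : Type} [Field K] [NumberField K]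
  [Algebra k K]

namespace PGSF

theorem gs_eq {q : Ideal (𝓞 K)} (hq : q ≠ ⊥) (ξ : K) :
    gsI q ξ = (Ideal.absNorm q : ℂ) * PoiN.av q fun x => jac x q * etr (ξ * (x : 𝓞 K)) := by
  rw [PoiN.av, mul_div_cancel₀ _ (PoiN.nm_ne hq)]
  rfl

/-- the Gauss sum only depends on the frequency modulo the inverse different -/
theorem gs_congr (q : Ideal (𝓞 K)) {ξ ξ' : K} (h : ξ - ξ' ∈ Dual (⊤ : Ideal (𝓞 K))) :
    gsI q ξ = gsI q ξ' := by
  unfold gsI ft
  refine finsum_congr fun x => ?_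
  have e : ξ * (Quotient.out x : 𝓞 K) =
      ξ' * (Quotient.out x : 𝓞 K) + (ξ - ξ') * (Quotient.out x : 𝓞 K) := by ring
  rw [e, etr_add, etr_of_dual h trivial, mul_one]

/-- the Chinese remainder theorem for Gauss sums -/
theorem gs_mul {I J : Ideal (𝓞 K)} (hI : I ≠ ⊥) (hJ : J ≠ ⊥) (hc : IsCoprime I J) {ξ : K}
    (h : ξ ∈ Dual (I * J)) {u u' : 𝓞 K} (hu : u ∈ J) (hu' : u' ∈ I) (e : u + u' = 1) :
    gsI (I * J) ξ = gsI I (ξ * u) * gsI J (ξ * u') := by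
  have h1 : ξ * (u : 𝓞 K) ∈ Dual I := PPCh.dual_mul (by rwa [mul_comm J I]) hu
  have h2 : ξ * (u' : 𝓞 K) ∈ Dual J := PPCh.dual_mul h hu'
  have e' : (u : K) + u' = 1 := by exact_mod_cast e
  rw [gs_eq (mul_ne_zero hI hJ), gs_eq hI, gs_eq hJ, mul_mul_mul_comm,
    ← PoiN.av_crt hI hJ hc ((peri_jac I).etr h1) ((peri_jac J).etr h2), map_mul, Nat.cast_mul]
  congr 1
  refine PoiN.av_congr fun x => ?_
  have e2 : ξ * (x : 𝓞 K) = ξ * u * x + ξ * u' * x := by linear_combination -ξ * (x : K) * e'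
  rw [e2, etr_add, jac_mul_right]
  ring

theorem cop_pl {n : ℕ} {I : Ideal (𝓞 K)} {v : Pl K} (h : Cop n I) (hv : Dv n v) :
    IsCoprime I v.asIdeal :=
  IsCoprime.of_isCoprime_of_dvd_right h (Ideal.dvd_span_singleton.2 hv)

theorem quot_mem {I : Ideal (𝓞 K)} {g x : 𝓞 K} (hg : g ≠ 0) (h : x ∈ sp g) :
    (x : K) / g ∈ Dual I := by
  obtain ⟨z, rfl⟩ := Ideal.mem_span_singleton.1 h
  have h2 : (g : K) ≠ 0 := by exact_mod_cast hg
  push_cast
  rw [mul_div_cancel_left₀ _ h2]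
  exact coe_mem_dual I z

theorem jac_mul_self {x : 𝓞 K} {I : Ideal (𝓞 K)} (hI : I ≠ ⊥) (h : IsCoprime (sp x) I) :
    jac x I * jac x I = 1 := by
  rw [← sq, jac_sq hI, if_pos h]

end PGSF

open PGSF in
theorem y_gSF (c : Cx k K) : Y_GSF K := by
  intro n e b J v w g g' a a₁ a₂ κ hn hb hJ hneb hnJ heb hJeb hv hw hvw hg hg' h8 ha ha1 hb1 hb1'
    hc1 hc1' hκ
  have hb0 : b ≠ ⊥ := hb.ne_zero
  have hJ0 : J ≠ ⊥ := hJ.ne_zero
  have hne := (cop_mul.1 hneb).1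
  have hnb := (cop_mul.1 hneb).2
  have he0 : e ≠ ⊥ := fun h => v.isPrime.ne_top (by
    have := Ideal.isCoprime_iff_sup_eq.1 (cop_pl hne hv)
    rwa [h, bot_sup_eq] at this)
  have hg0 : g ≠ 0 := fun h => mul_ne_zero hJ0 v.ne_bot (by rw [hg, h]; simp [sp])
  have hg0' : g' ≠ 0 := fun h =>
    mul_ne_zero (mul_ne_zero he0 hb0) w.ne_bot (by rw [hg', h]; simp [sp])
  have hn0 : (n : K) ≠ 0 := Nat.cast_ne_zero.2 hn.pos
  have hgK : (g : K) ≠ 0 := by exact_mod_cast hg0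
  have hgK' : (g' : K) ≠ 0 := by exact_mod_cast hg0'
  have h2 : ∀ {I : Ideal (𝓞 K)}, Cop n I → Cop 2 I := fun h => by
    obtain ⟨m, rfl⟩ : 2 ∣ n := Dvd.dvd.trans (by norm_num) hn.eight
    exact (cop_mul_nat.1 h).1
  have hJb : IsCoprime J b := hJeb.of_mul_right_right
  obtain ⟨u', hu', u, hu, huu⟩ := Submodule.mem_sup.1
    ((Ideal.eq_top_iff_one _).1 (Ideal.isCoprime_iff_sup_eq.1 hJb))
  have hξ : (κ : K) / (n * (g * g' : 𝓞 K)) ∈ Dual (e * (J * b)) :=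
    PPCh.mk_dual (𝔠 := v.asIdeal * w.asIdeal) (by rw [sp_mul, ← hg, ← hg']; ring)
      (mul_ne_zero hg0 hg0') hκ
  have hξa := PPCh.dual_mul hξ ha
  have hκv : κ ∈ v.asIdeal := Ideal.mul_le_left (Ideal.mul_le_left hκ)
  have hκw : κ ∈ w.asIdeal * PPCh.dd K n := by
    rw [mul_assoc] at hκ
    exact Ideal.mul_le_right hκ
  have hη : (κ : K) / (n * g') ∈ Dual (e * b) := PPCh.mk_dual hg' hg0' hκw
  have hη2 : (κ : K) * a₂ / (n * g') ∈ Dual b := by
    rw [mul_div_right_comm]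
    exact PPCh.dual_mul hη hc1
  refine ⟨?_, (c.g2 b _ hb (h2 hnb) hη2).2.1⟩
  set ξ : K := (κ : K) / (n * (g * g' : 𝓞 K)) * a with hξd
  -- the factor at `J`
  have d1 : ξ * (u : 𝓞 K) ∈ Dual J := PPCh.dual_mul (by rwa [mul_comm b J]) hu
  have d2 : (a₁ : K) / g ∈ Dual J := fun x hx => by
    have := quot_mem (I := ⊤) hg0 (x := x * a₁) (hg ▸ Ideal.mul_mem_mul hx hb1) 1 trivial
    push_cast at this
    rwa [mul_one, mul_comm, mul_div_right_comm] at this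
  have m1 : a * u - a₁ ∈ J := by
    have e1 : a * u - a₁ = (a - 1) * u - u' - (a₁ - 1) := by linear_combination huu
    rw [e1]
    exact J.sub_mem (J.sub_mem (J.mul_mem_right _ (Ideal.mul_le_left ha1)) hu') hb1'
  have e1 : jac ((n : 𝓞 K) * g') J * gsI J (ξ * u) = jac κ J * gsI J ((a₁ : K) / g) := by
    rw [← (c.g2 J _ hJ (h2 hnJ) d1).1, ← (c.g2 J _ hJ (h2 hnJ) d2).1]
    refine gs_congr J ?_
    have := quot_mem (I := ⊤) hg0 (x := (a * u - a₁) * κ) (hg ▸ Ideal.mul_mem_mul m1 hκv)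
    convert this using 1
    rw [hξd]
    push_cast
    field_simp
  -- the factor at `b`
  have d3 : ξ * (u' : 𝓞 K) ∈ Dual b := PPCh.dual_mul hξa hu'
  have m2 : a * u' - a₂ ∈ e * b := by
    rw [Ideal.mul_eq_inf_of_isCoprime heb]
    refine ⟨e.sub_mem (e.mul_mem_right _ ha) hc1, ?_⟩
    have e2 : a * u' - a₂ = (a - 1) * u' - u - (a₂ - 1) := by linear_combination huu
    rw [e2]
    exact b.sub_mem (b.sub_mem (b.mul_mem_right _ (Ideal.mul_le_right ha1)) hu) hc1'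
  have e2 : jac g b * gsI b (ξ * u') = gsI b ((κ : K) * a₂ / (n * g')) := by
    rw [← (c.g2 b _ hb (h2 hnb) d3).1]
    refine gs_congr b ?_
    have := PPCh.dual_mul (J := ⊤) (by rwa [Ideal.mul_top]) m2 (ξ := (κ : K) / (n * g'))
    convert this using 1
    rw [hξd]
    push_cast
    field_simp
  -- the symbols
  have s1 : jac ((n : 𝓞 K) * g') J * jac ((n : 𝓞 K) * g') J = 1 := jac_mul_self hJ0 (by
    rw [sp_mul, ← hg']
    exact IsCoprime.mul_left (IsCoprime.symm hnJ) (hJeb.symm.mul_left (cop_pl hnJ hw).symm))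
  have s3 : leg g' v * leg g' v = 1 := by
    rw [← jac_prime]
    refine jac_mul_self v.ne_bot ?_
    rw [← hg']
    exact (cop_pl hneb hv).mul_left (w.isCoprime_of_ne v hvw.symm)
  have s4 := c.rc g g' h8 hg0'
  rw [← hg, ← hg', jac_mul_right, jac_mul_right, jac_mul_right, jac_prime g' v] at s4
  rw [gs_mul hJ0 hb0 hJb hξa hu hu' (by rw [add_comm]; exact huu), ← e2, jac_mul_right,
    jac_mul_left]
  rw [jac_mul_left] at e1 s1
  set A := gsI J (ξ * u)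
  set B := gsI b (ξ * u')
  set Z := gsI J ((a₁ : K) / g)
  have e3 : A = jac (n : 𝓞 K) J * jac g' J * (jac κ J * Z) := by
    rw [← e1, ← mul_assoc, s1, one_mul]
  rw [e3]
  linear_combination (-jac (n : 𝓞 K) J * jac κ J * Z * B * leg g' v) * s4 -
    (jac (n : 𝓞 K) J * jac κ J * Z * B * jac g' J) * s3

end Pool.Agent.P.MP_b8021b_nt.BP
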