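import Pool.Agent.P.MP_b8021b_nt.BP.StC

/-! The off diagonal terms for an arbitrary modulus. -/

namespace Pool.Agent.P.MP_b8021b_nt.BP

open NumberField IsDedekindDomain Finset MeasureTheory
open Pool.Agent.P.MP_b8021b_nt.VE Pool.Agent.P.MP_b8021b_nt.VC Pool.Agent.P.MP_b8021b_nt.BS.CF
open Pool.Agent.P.MP_b8021b_nt.BS
open scoped Classical ComplexConjugate Real

variable {k : Type} [Field k] [NumberField k] [Algebra k ℂ] {K : Type} [Field K] [NumberField K] [Algebra k K]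

namespace PIS

theorem num {X l Z s : ℝ} (hX : 1 ≤ X) (l0 : 0 < l) (l1 : l ≤ 1 / 10000) (hs : s = 5000 * l)
    (hZ : Z = X ^ (1 / 2 + 7 / 2 * l)) :
    X ^ (2 * l) * X ^ l * (X ^ (2 / 5 : ℝ) + Z ^ l * Z / X ^ (100 * l) +
      (X ^ (100 * l)) ^ 6 * (X ^ (9 * l)) ^ 2 * Z * (X ^ (2 / 5 : ℝ)) ^ (-s)) ≤
      3 * (Z * X ^ (-10 * l)) := by
  have X0 : 0 < X := by linarith
  have mono : ∀ {s t : ℝ}, s ≤ t → X ^ s ≤ X ^ t := fun h => Real.rpow_le_rpow_of_exponent_le hX h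
  rw [mul_add, mul_add, hZ, hs]
  simp only [← Real.rpow_natCast, ← Real.rpow_mul X0.le, ← Real.rpow_add X0, ← Real.rpow_sub X0]
  rw [show ∀ y : ℝ, 3 * y = y + y + y from fun y => by ring]
  refine add_le_add_three (mono ?_) (mono ?_) (mono ?_)
  · linarith
  · nlinarith
  · push_cast
    linarith

end PIS

open PIS in
theorem y_iS (c : Cx k K) (hDIV : Y_DIV K) (hIS1 : Y_IS1 K) (hIS2 : Y_IS2 k K) : Y_IS k K := by
  intro n₀ n ℛ ℛ' Ψ hg hΨ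
  have l0 := c.la_pos
  have l1 : la k K ≤ 1 / 10000 := by linarith [c.et_eq, c.et_le]
  obtain ⟨C, C1, hC⟩ := hIS2 n₀ n ℛ ℛ' Ψ _ hg hΨ l0
  obtain ⟨C₁, C11, h1⟩ := hDIV.1 8 _ (by norm_num) l0
  obtain ⟨C₂, C21, h2⟩ := hDIV.2
  obtain ⟨X₀, X3, hX₀⟩ := ev_log 2 1 l0
  refine ⟨C * C₁ * C₂ * 3, X₀, ?_, fun 𝔟 ω X Λ hX hb hN hω => ?_⟩
  · have := one_le_mul_of_one_le_of_one_le (one_le_mul_of_one_le_of_one_le C1 C11) C21
    linarith
  have X1 : 1 ≤ X := by linarith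
  have X0 : 0 < X := by linarith
  have mono : ∀ {s t : ℝ}, s ≤ t → X ^ s ≤ X ^ t := fun h => Real.rpow_le_rpow_of_exponent_le X1 h
  have one : ∀ {s : ℝ}, 0 ≤ s → 1 ≤ X ^ s := fun h => Real.one_le_rpow X1 h
  have Λ0 : 0 ≤ Λ := (norm_nonneg _).trans (hω.bd 1 le_rfl)
  have b0 : 𝔟 ≠ ⊥ := Cop_ne_bot hg.g.two_le hb
  have hZ := c.ZZ_eq X0
  rw [c.exp_el X0] at hN
  rw [← neg_mul, c.exp_el X0]
  generalize ZZ k K X = Z at hN hω hZ ⊢
  have Z1 : 1 ≤ Z := hZ ▸ one (by linarith)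
  have ZX : Z ≤ X := (hZ ▸ mono (by linarith) : Z ≤ X ^ (1 : ℝ)).trans_eq (Real.rpow_one X)
  have bN : NN 𝔟 ≤ X ^ (1 / 2 + 11 / 2 * la k K) := by
    rw [hZ, ← Real.rpow_add X0] at hN
    exact hN.trans (mono (by linarith))
  have bX : NN 𝔟 ≤ X := (bN.trans (mono (by linarith))).trans_eq (Real.rpow_one X)
  have hQ : Z * NN 𝔟 / X ≤ X ^ (9 * la k K) := by
    rw [div_le_iff₀ X0, ← Real.rpow_add_one X0.ne']
    refine (mul_le_mul_of_nonneg_left bN (by linarith)).trans ?_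
    rw [hZ, ← Real.rpow_add X0]
    exact mono (by linarith)
  have hs : 1 / (2 * rk k K) = 5000 * la k K := by
    have := c.one_le_rk
    unfold la
    field_simp
    norm_num
  have key := num X1 l0 l1 hs hZ
  have hl : ∑ L ∈ ids K Z, (NN L)⁻¹ ≤ C₂ * X ^ la k K := by
    refine (h2 Z Z1).2.1.trans (mul_le_mul_of_nonneg_left (le_trans ?_ (hX₀ X hX)) (by linarith))
    have h3 := Real.log_le_log (by linarith) ZX
    have h4 : 1 ≤ Real.log X := by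
      rw [Real.le_log_iff_exp_le X0]
      linarith [Real.exp_one_lt_d9]
    linarith
  rw [hIS1 (fun I => Ψ I * ω (NN I) / (√(NN I) : ℝ) * RJ k X (I * 𝔟)) 𝔟 Z b0
    fun I hI => by simp only [hω.zero _ hI, mul_zero, zero_div, zero_mul]]
  have hE := fun L hL a ha => hC 𝔟 L a ω X Λ (X ^ (2 / 5 : ℝ)) Z (X ^ (100 * la k K))
    (X ^ (9 * la k K)) hb hL ha hω X0 (one (by norm_num)) Z1 (one (by linarith)) hQ
  have E0 : 0 ≤ X ^ (2 / 5 : ℝ) + Z ^ la k K * Z / X ^ (100 * la k K) +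
      (X ^ (100 * la k K)) ^ 6 * (X ^ (9 * la k K)) ^ 2 * Z *
        (X ^ (2 / 5 : ℝ)) ^ (-(1 / (2 * rk k K))) := by positivity
  generalize X ^ (2 / 5 : ℝ) + Z ^ la k K * Z / X ^ (100 * la k K) +
      (X ^ (100 * la k K)) ^ 6 * (X ^ (9 * la k K)) ^ 2 * Z *
        (X ^ (2 / 5 : ℝ)) ^ (-(1 / (2 * rk k K))) = E at key hE E0
  refine (norm_sum_le _ _).trans ((sum_le_sum (g := fun L =>
    C * Λ * √(NN 𝔟) * E * (C₁ * X ^ (2 * la k K)) * (NN L)⁻¹) fun L hL => ?_).trans ?_)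
  · obtain ⟨L0, LZ⟩ := mem_ids.1 hL
    refine (norm_sum_le _ _).trans ((sum_le_card_nsmul _ _ _ fun a ha =>
      hE L L0 a (mem_powerset.1 ha)).trans ?_)
    have h3 : (8 : ℝ) ^ (prI (𝔟 * L)).card ≤ C₁ * X ^ (2 * la k K) := by
      refine (h1 _ (mul_ne_zero b0 L0)).1.trans (mul_le_mul_of_nonneg_left ?_ (by linarith))
      rw [Real.rpow_mul X0.le, Real.rpow_two, NN_mul, sq]
      exact Real.rpow_le_rpow (by positivity)
        (mul_le_mul bX (LZ.trans ZX) (by positivity) X0.le) l0.le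
    rw [nsmul_eq_mul, card_powerset]
    push_cast
    calc _ = C * Λ * √(NN 𝔟) * E * (2 * 4) ^ (prI (𝔟 * L)).card * (NN L)⁻¹ := by
          rw [mul_pow]; ring
      _ ≤ _ := by
          rw [show (2 * 4 : ℝ) = 8 by norm_num]
          gcongr
  · rw [← mul_sum]
    calc _ ≤ C * Λ * √(NN 𝔟) * E * (C₁ * X ^ (2 * la k K)) * (C₂ * X ^ la k K) := by gcongr
      _ = C * C₁ * C₂ * Λ * √(NN 𝔟) * (X ^ (2 * la k K) * X ^ la k K * E) := by ring
      _ ≤ C * C₁ * C₂ * Λ * √(NN 𝔟) * (3 * (Z * X ^ (-10 * la k K))) := by gcongr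
      _ = _ := by ring

end Pool.Agent.P.MP_b8021b_nt.BP
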