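import Pool.Agent.P.MP_b8021b_nt.BP.StC

/-! One term of the decomposition of the off diagonal sum. -/

namespace Pool.Agent.P.MP_b8021b_nt.BP

open NumberField IsDedekindDomain Finset MeasureTheory
open Pool.Agent.P.MP_b8021b_nt.VE Pool.Agent.P.MP_b8021b_nt.VC Pool.Agent.P.MP_b8021b_nt.BS.CF
open Pool.Agent.P.MP_b8021b_nt.BS
open scoped Classical ComplexConjugate Real
variable {k : Type} [Field k] [NumberField k] [Algebra k ℂ] {K : Type} [Field K] [NumberField K]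
  [Algebra k K]

namespace PIS2

theorem scale {ω : ℝ → ℂ} {Λ Z N : ℝ} (h : LL ω Λ Z) (hN : 1 ≤ N) :
    LL (fun y => ω (N * y)) Λ (Z / N) :=
  ⟨fun _ hy => h.bd _ (one_le_mul_of_one_le_of_one_le hN hy), fun y y' hy hy' => by
    have := h.lip _ _ (one_le_mul_of_one_le_of_one_le hN hy) (one_le_mul_of_one_le_of_one_le hN hy')
    rwa [Real.log_mul (by linarith) (by linarith), Real.log_mul (by linarith) (by linarith),
      add_sub_add_left_eq_sub] at this,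
    fun _ hy => h.zero _ (by rwa [div_lt_iff₀' (by linarith)] at hy)⟩

theorem cut {F : Ideal (𝓞 K) → ℂ} (p : Ideal (𝓞 K) → Prop) [DecidablePred p] {Z Z' : ℝ}
    (hZ : Z' ≤ Z) (h : ∀ J, Z' < NN J → F J = 0) :
    ∑ J ∈ (ids K Z).filter p, F J = ∑ J ∈ (ids K Z').filter p, F J := by
  refine (sum_subset (filter_subset_filter _ fun J hJ =>
    mem_ids.2 ⟨(mem_ids.1 hJ).1, (mem_ids.1 hJ).2.trans hZ⟩) fun J h1 h2 => h J ?_).symm
  exact not_le.1 fun e => h2 (mem_filter.2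
    ⟨mem_ids.2 ⟨(mem_ids.1 (mem_filter.1 h1).1).1, e⟩, (mem_filter.1 h1).2⟩)

theorem nS_le {E : Finset (Pl K)} {s : Ideal (𝓞 K)} (hs : s ≠ ⊥) (h : E ⊆ prI s) : nS E ≤ NN s := by
  refine NN_le_of_le hs (Ideal.dvd_iff_le.1 ((dvd_iff_cnt (eI_ne_bot E) hs).2 fun v => ?_))
  rw [cnt_eI]
  split_ifs with e
  · exact Nat.one_le_iff_ne_zero.2 fun z => (cnt_eq_zero v).1 z ((mem_prI hs).1 (h e))
  · exact Nat.zero_le _

theorem cop2 {n : ℕ} (hn : Good K n) {I : Ideal (𝓞 K)} (h : Cop n I) : Cop 2 I :=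
  IsCoprime.of_isCoprime_of_dvd_right h (Ideal.dvd_iff_le.2
    (Ideal.span_singleton_le_span_singleton.2
      (Nat.cast_dvd_cast ((by norm_num : 2 ∣ 8).trans hn.eight))))

theorem cop_sub {J b m : Ideal (𝓞 K)} (hJ : J ≠ ⊥) (hb : b ≠ ⊥) (hm : m ≠ ⊥) (h : prI b ⊆ prI m)
    (hc : IsCoprime J m) : IsCoprime J b :=
  (isCoprime_iff hJ hb).2 (((isCoprime_iff hJ hm).1 hc).mono_right h)

theorem wt {T Z Z' B Q u ε P : ℝ} (hT : 0 ≤ T) (h0 : 0 ≤ Z') (hZ : Z' ≤ Z) (hP : 1 ≤ P)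
    (hB : 0 ≤ B) (hu : 0 ≤ u) (hε : 0 ≤ ε) :
    T + P * Z' ^ ε * Z' / B + B ^ 6 * Q ^ 2 * Z' * u ≤
      P * (T + Z ^ ε * Z / B + B ^ 6 * Q ^ 2 * Z * u) := by
  have h1 : 0 ≤ Z := h0.trans hZ
  have a1 : T ≤ P * T := le_mul_of_one_le_left hT hP
  have a2 : P * Z' ^ ε * Z' / B ≤ P * Z ^ ε * Z / B := by gcongr
  have a3 : B ^ 6 * Q ^ 2 * Z' * u ≤ P * (B ^ 6 * Q ^ 2 * Z * u) :=
    le_trans (by gcongr) (le_mul_of_one_le_left (by positivity) hP)
  calc _ ≤ P * T + P * Z ^ ε * Z / B + P * (B ^ 6 * Q ^ 2 * Z * u) := by linarith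
    _ = _ := by ring

/-- the crude bound for a large divisor -/
theorem crude {n : ℕ} (hn : Good K n) {Ψ : Ideal (𝓞 K) →* ℂ} (hΨ : IsP k n Ψ) {C₁ C₂ X : ℝ}
    {e b m : Ideal (𝓞 K)} {ω : ℝ → ℂ} {Λ Z : ℝ} (h2 : 0 ≤ C₂)
    (H1 : ((ids K Z).card : ℝ) ≤ C₁ * Z)
    (H2 : ∀ q, Squarefree q → Cop 2 q → IsCoprime e q → ‖Re2 k X e q‖ ≤ C₂ * √(NN q))
    (he : e ≠ ⊥) (hb : Squarefree b) (hnb : Cop n b) (heb : IsCoprime e b) (hm : m ≠ ⊥)
    (hs : prI (e * b) ⊆ prI m) (hω : LL ω Λ Z) :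
    ‖∑ J ∈ (ids K Z).filter (fun J => Squarefree J ∧ IsCoprime J m),
      Ψ J * ω (NN J) / (√(NN J) : ℝ) * Re2 k X e (J * b)‖ ≤ C₁ * C₂ * Λ * √(NN b) * Z := by
  have hΛ : 0 ≤ Λ := (norm_nonneg _).trans (hω.bd 1 le_rfl)
  rw [prI_mul he hb.ne_zero] at hs
  refine (norm_sum_le _ _).trans ((sum_le_card_nsmul _ _ (C₂ * Λ * √(NN b)) fun J hJ => ?_).trans ?_)
  · obtain ⟨j1, j2, j3⟩ := mem_filter.1 hJ
    have j0 := (mem_ids.1 j1).1
    by_cases hc : Cop n J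
    · have a1 := H2 (J * b) (squarefree_mul_iff.2 ⟨(cop_sub j0 hb.ne_zero hm
        (subset_union_right.trans hs) j3).isRelPrime, j2, hb⟩) (cop2 hn (IsCoprime.mul_left hc hnb))
        ((cop_sub j0 he hm (subset_union_left.trans hs) j3).symm.mul_right heb)
      have a2 := hω.bd _ (one_le_NN j0)
      have a3 := hΨ.norm_le J
      have a4 : 0 < √(NN J) := Real.sqrt_pos.2 (NN_pos j0)
      rw [NN_mul, Real.sqrt_mul (NN_pos j0).le] at a1
      rw [norm_mul, norm_div, norm_mul, Complex.norm_real, Real.norm_of_nonneg a4.le]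
      calc _ ≤ 1 * Λ / √(NN J) * (C₂ * (√(NN J) * √(NN b))) := by gcongr
        _ = _ := by field_simp
    · rw [hΨ.zero J hc, zero_mul, zero_div, zero_mul, norm_zero]
      positivity
  · have a1 : (((ids K Z).filter (fun J => Squarefree J ∧ IsCoprime J m)).card : ℝ) ≤ C₁ * Z :=
      le_trans (by exact_mod_cast card_filter_le _ _) H1
    rw [nsmul_eq_mul]
    calc _ ≤ C₁ * Z * (C₂ * Λ * √(NN b)) := by gcongr
      _ = _ := by ring

end PIS2

open PIS2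

theorem y_iS2 (c : Cx k K) (hDIV : Y_DIV K) (hCR : Y_CR k K) (hRQ : Y_RQ k K) (hJS : Y_JS k K) :
    Y_IS2 k K := by
  intro n₀ n ℛ ℛ' Ψ ε hg hΨ hε
  obtain ⟨C₁, h1, H1⟩ := hDIV.2
  obtain ⟨C₂, h2, H2⟩ := hCR
  obtain ⟨C₃, h3, H3⟩ := hJS n₀ n ℛ ℛ' Ψ ε hg hΨ hε
  have h12 : 1 ≤ C₁ * C₂ := one_le_mul_of_one_le_of_one_le h1 h2
  refine ⟨C₁ * C₂ * C₃, one_le_mul_of_one_le_of_one_le h12 h3,
    fun 𝔟 L a ω X Λ T Z B Q hb hL ha hω hX hT hZ hB hQ => ?_⟩
  have hn := hg.g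
  have hΛ : 0 ≤ Λ := (norm_nonneg _).trans (hω.bd 1 le_rfl)
  have b0 : 𝔟 ≠ ⊥ := Cop_ne_bot hn.two_le hb
  have m0 : 𝔟 * L ≠ ⊥ := mul_ne_zero b0 hL
  have i0 : eI a * L ^ 2 ≠ ⊥ := mul_ne_zero (eI_ne_bot a) (pow_ne_zero 2 hL)
  set u := T ^ (-(1 / (2 * rk k K))) with hu
  have u0 : 0 ≤ u := by positivity
  set W := T + Z ^ ε * Z / B + B ^ 6 * Q ^ 2 * Z * u with hW
  have W0 : 0 ≤ W := by positivity
  by_cases hc : Cop n (eI a * L ^ 2)
  swap
  · rw [sum_eq_zero fun J _ => by rw [map_mul, hΨ.zero _ hc]; simp, norm_zero]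
    positivity
  obtain ⟨b, s', q1, q2, q3⟩ := PDec.ex_dec (eI a * 𝔟) (mul_ne_zero (eI_ne_bot a) b0)
  have s0 : s' * L ≠ ⊥ := mul_ne_zero q2 hL
  have hp : prI b ∪ prI (s' * L) ⊆ prI (𝔟 * L) := by
    have e1 : prI (b * s' ^ 2) ⊆ prI (𝔟 * L) := by
      rw [q3, prI_mul (eI_ne_bot a) b0, prI_eI]
      exact union_subset ha (by rw [prI_mul b0 hL]; exact subset_union_left)
    rw [sq, prI_mul q1.ne_zero (mul_ne_zero q2 q2), prI_mul q2 q2, union_self] at e1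
    rw [prI_mul q2 hL, ← union_assoc]
    exact union_subset e1 (by rw [prI_mul b0 hL]; exact subset_union_right)
  have hm : Cop n (𝔟 * L) := IsCoprime.mul_left hb
    (IsCoprime.of_mul_left_left (sq L ▸ IsCoprime.of_mul_left_right hc))
  have hsub : ∀ I, I ≠ ⊥ → prI I ⊆ prI (𝔟 * L) → Cop n I := fun I h0 h =>
    (cop_iff hn.pos h0).2 fun v hv => (cop_iff hn.pos m0).1 hm v (h hv)
  have hnb : Cop n b := hsub b q1.ne_zero (subset_union_left.trans hp)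
  set N := NN (eI a * L ^ 2) with hN
  have N1 : 1 ≤ N := one_le_NN i0
  have L1 := one_le_NN hL
  have S1 := one_le_NN s0
  have LN : NN L ≤ N := NN_le_of_le i0 (Ideal.mul_le_right.trans (Ideal.pow_le_self two_ne_zero))
  have LS : NN L ≤ NN (s' * L) := NN_le_of_le s0 Ideal.mul_le_right
  have e0 : NN b * NN (s' * L) ^ 2 = N * NN 𝔟 := by
    rw [hN, sq, ← NN_mul, ← NN_mul, ← NN_mul]
    congr 1
    calc _ = b * s' ^ 2 * L ^ 2 := by ring
      _ = _ := by rw [q3]; ring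
  have e1 : √(NN b) = √N * √(NN 𝔟) / NN (s' * L) := by
    rw [eq_div_iff (by linarith), ← Real.sqrt_mul (by linarith), ← e0,
      Real.sqrt_mul (NN_pos q1.ne_zero).le, Real.sqrt_sq (by linarith)]
  have sN : 0 < √N := Real.sqrt_pos.2 (by linarith)
  have hω' := scale hω N1
  have ZZ' : Z / N ≤ Z := div_le_self (by linarith) N1
  rw [cut _ ZZ' fun J hJ => by rw [NN_mul, ← hN, hω'.zero _ hJ]; simp]
  rcases lt_or_ge (Z / N) 1 with z1 | z1
  · rw [sum_eq_zero fun J hJ => absurd ((one_le_NN (mem_ids.1 (mem_filter.1 hJ).1).1).trans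
      (mem_ids.1 (mem_filter.1 hJ).1).2) (not_le.2 z1), norm_zero]
    positivity
  have key : ∀ J ∈ (ids K (Z / N)).filter (fun J => Squarefree J ∧ IsCoprime J (𝔟 * L)),
      Ψ (eI a * L ^ 2 * J) * ω (NN (eI a * L ^ 2 * J)) / (√(NN (eI a * L ^ 2 * J)) : ℝ) *
        RJ k X (eI a * L ^ 2 * J * 𝔟) = ∑ E ∈ (prI (s' * L) \ prI b).powerset,
        Ψ (eI a * L ^ 2) / (√N : ℝ) * (-1) ^ E.card *
          (Ψ J * ω (N * NN J) / (√(NN J) : ℝ) * Re2 k X (eI E) (J * b)) := by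
    intro J hJ
    obtain ⟨j1, j2, j3⟩ := mem_filter.1 hJ
    have j0 := (mem_ids.1 j1).1
    by_cases hJ : Cop n J
    swap
    · simp [map_mul, hΨ.zero J hJ]
    have e2 : eI a * L ^ 2 * J * 𝔟 = J * b * (s' * L) ^ 2 := by
      calc _ = eI a * 𝔟 * (L ^ 2 * J) := by ring
        _ = _ := by rw [← q3]; ring
    have e3 : prI (s' * L) \ prI (J * b) = prI (s' * L) \ prI b := by
      rw [prI_mul j0 q1.ne_zero, union_comm, sdiff_union_distrib, sdiff_eq_self_of_disjoint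
        (((isCoprime_iff j0 m0).1 j3).mono_right (subset_union_right.trans hp)).symm]
      exact inter_eq_left.2 sdiff_subset
    rw [e2, hRQ (J * b) (s' * L) X (squarefree_mul_iff.2 ⟨(cop_sub j0 q1.ne_zero m0
      (subset_union_left.trans hp) j3).isRelPrime, j2, q1⟩) (cop2 hn (IsCoprime.mul_left hJ hnb))
      s0 hX, e3, mul_sum, map_mul Ψ _ J, NN_mul _ J, ← hN, Real.sqrt_mul (by linarith)]
    push_cast
    exact sum_congr rfl fun E _ => by ring
  rw [sum_congr rfl key, sum_comm]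
  set P : ℝ := 2 ^ (prI (𝔟 * L)).card with hP
  have P1 : 1 ≤ P := one_le_pow₀ one_le_two
  refine (norm_sum_le _ _).trans ((sum_le_card_nsmul _ _
    (C₁ * C₂ * C₃ * Λ * (√(NN 𝔟) / NN L) * P * W) fun E hE => ?_).trans ?_)
  · have E1 := mem_powerset.1 hE
    have E2 : E ⊆ prI (s' * L) := E1.trans sdiff_subset
    have E3 : prI (eI E * b) ⊆ prI (𝔟 * L) := by
      rw [prI_mul (eI_ne_bot E) q1.ne_zero, prI_eI]
      exact union_subset (E2.trans (subset_union_right.trans hp)) (subset_union_left.trans hp)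
    have E4 : IsCoprime (eI E) b := (isCoprime_iff (eI_ne_bot E) q1.ne_zero).2 (by
      rw [prI_eI]; exact sdiff_disjoint.mono_left E1)
    have E5 := nS_le s0 E2
    have a1 : ‖Ψ (eI a * L ^ 2) / (√N : ℝ) * (-1) ^ E.card‖ ≤ 1 / √N := by
      rw [norm_mul, norm_pow, norm_neg, norm_one, one_pow, mul_one, norm_div, Complex.norm_real,
        Real.norm_of_nonneg sN.le]
      gcongr
      exact hΨ.norm_le _
    rw [← mul_sum, norm_mul]
    rcases le_or_gt (nS E) B with hEB | hEB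
    · have a2 := H3 (eI E) b (𝔟 * L) _ X Λ T (Z / N) B Q q1
        (hsub _ (mul_ne_zero (eI_ne_bot E) q1.ne_zero) E3) E4 m0 E3 hω' hX hT z1 hB hEB (by
          refine le_trans (div_le_div_of_nonneg_right ?_ hX.le) hQ
          have := NN_pos q1.ne_zero
          calc Z / N * NN (eI E) * NN b ≤ Z / N * NN (s' * L) ^ 2 * NN b := by
                gcongr
                exact E5.trans (le_self_pow₀ S1 two_ne_zero)
            _ = Z / N * (N * NN 𝔟) := by rw [← e0]; ring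
            _ = _ := by field_simp)
      have a3 := wt (T := T) (Q := Q) (by linarith) (by linarith) ZZ' P1 (by linarith : 0 ≤ B) u0
        hε.le
      calc _ ≤ 1 / √N * (C₃ * Λ * √(NN b) * (P * W)) :=
            mul_le_mul a1 (a2.trans (by gcongr)) (norm_nonneg _) (by positivity)
        _ = 1 * C₃ * Λ * (√(NN 𝔟) / NN (s' * L)) * P * W := by rw [e1]; field_simp
        _ ≤ _ := by gcongr
    · have a2 := crude hn hΨ (by linarith) (H1 _ z1).1
        (fun q f1 f2 f3 => H2 (eI E) q X (eI_ne_bot E) f1 f2 f3 hX) (eI_ne_bot E) q1 hnb E4 m0 E3 hω'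
      have a3 : Z / B ≤ P * W := by
        have a4 : Z / B ≤ Z ^ ε * Z / B := by
          gcongr
          exact le_mul_of_one_le_left (by linarith) (Real.one_le_rpow hZ hε.le)
        have a5 : 0 ≤ B ^ 6 * Q ^ 2 * Z * u := by positivity
        exact le_trans (by linarith) (le_mul_of_one_le_left W0 P1)
      calc _ ≤ 1 / √N * (C₁ * C₂ * Λ * √(NN b) * (Z / N)) :=
            mul_le_mul a1 a2 (norm_nonneg _) (by positivity)
        _ = C₁ * C₂ * 1 * Λ * (√(NN 𝔟) / N) * (Z / NN (s' * L)) := by rw [e1]; field_simp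
        _ ≤ C₁ * C₂ * C₃ * Λ * (√(NN 𝔟) / NN L) * (Z / B) := by
            gcongr
            exact hEB.le.trans E5
        _ ≤ C₁ * C₂ * C₃ * Λ * (√(NN 𝔟) / NN L) * (P * W) := by gcongr
        _ = _ := by ring
  · have a1 : (((prI (s' * L) \ prI b).powerset.card : ℕ) : ℝ) ≤ P := by
      rw [card_powerset]
      push_cast
      exact pow_le_pow_right₀ one_le_two
        (card_le_card (sdiff_subset.trans (subset_union_right.trans hp)))
    rw [nsmul_eq_mul]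
    calc _ ≤ P * (C₁ * C₂ * C₃ * Λ * (√(NN 𝔟) / NN L) * P * W) := by gcongr
      _ = _ := by rw [hP, show (4 : ℝ) = 2 * 2 by norm_num, mul_pow]; ring

end Pool.Agent.P.MP_b8021b_nt.BP
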