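import Pool.Agent.P.MP_b8021b_nt.BP.StC

/-!
The second form of the kernel of the Redei moment, by reciprocity.
-/

namespace Pool.Agent.P.MP_b8021b_nt.BP

open NumberField IsDedekindDomain Finset MeasureTheory
open Pool.Agent.P.MP_b8021b_nt.VE Pool.Agent.P.MP_b8021b_nt.VC Pool.Agent.P.MP_b8021b_nt.BS.CF
open Pool.Agent.P.MP_b8021b_nt.BS
open scoped Classical ComplexConjugate Real

variable {k : Type} [Field k] [NumberField k] [Algebra k ℂ] {K : Type} [Field K] [NumberField K]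
  [Algebra k K]

namespace PKF1

omit [NumberField K] in
theorem dv_of_dvd {n m : ℕ} {v : Pl K} (h : n ∣ m) (hv : Dv n v) : Dv m v :=
  v.asIdeal.mem_of_dvd (Nat.cast_dvd_cast h) hv

/-- balanced generators -/
theorem gen (c : Cx k K) {n : ℕ} (hn : n ≠ 0) {ℛ : Finset (Pl K)} (hR : Reps n ℛ) {W : ℝ}
    (hW : ∀ w ∈ ℛ, nv w ≤ W) (hnW : ∀ v : Pl K, Dv n v → nv v ≤ W) :
    ∃ C : ℝ, 1 ≤ C ∧ ∀ E : Finset (Pl K), ∃ b : 𝓞 K, (∀ v ∈ E, W < nv v) →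
      (n : 𝓞 K) ∣ b - 1 ∧ b ≠ 0 ∧ Bal k C (nS E) b ∧ NN (sp b) ≤ C * nS E ∧
        ∃ w ∈ ℛ, sp b = eI E * w.asIdeal := by
  obtain ⟨C, hC, hb⟩ := c.bal2 n (Nat.one_le_iff_ne_zero.2 hn)
  have m1 : 1 ≤ max 1 W := le_max_left _ _
  refine ⟨C * max 1 W, one_le_mul_of_one_le_of_one_le hC m1, fun E => ?_⟩
  by_cases hE : ∀ v ∈ E, W < nv v
  swap
  · exact ⟨0, fun h => absurd h hE⟩
  obtain ⟨w, ⟨hw, γ, h1, h2⟩, -⟩ :=
    hR (eI E) ((cop_eI hn).2 fun v hv h => (hE v hv).not_ge (hnW v h))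
  have g0 : γ ≠ 0 := fun e =>
    mul_ne_zero (eI_ne_bot E) w.ne_bot (h2.trans (by simp [e]))
  obtain ⟨u, hu, hu'⟩ := hb γ g0
  have e1 : sp ((u : 𝓞 K) * γ) = sp γ := Ideal.span_singleton_mul_left_unit u.isUnit γ
  have e2 : NN (sp γ) = nS E * nv w := by rw [← h2, NN_mul]
  have w1 : 1 ≤ nv w := one_le_two.trans (two_le_NN w)
  have w2 : nv w ≤ max 1 W := (hW w hw).trans (le_max_right _ _)
  have p0 := (nS_pos E).le
  refine ⟨u * γ, fun _ => ⟨?_, mul_ne_zero u.ne_zero g0, fun φ => (hu' φ).1.trans ?_, ?_, w, hw,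
    e1.trans h2.symm⟩⟩
  · rw [show (u : 𝓞 K) * γ - 1 = (u - 1) * γ + (γ - 1) by ring]
    exact (hu.mul_right _).add h1
  · have r1 : 1 / rk k K ≤ 1 := (div_le_one (one_pos.trans_le c.one_le_rk)).2 c.one_le_rk
    have w3 : nv w ^ (1 / rk k K) ≤ max 1 W := by
      refine le_trans ?_ w2
      simpa using Real.rpow_le_rpow_of_exponent_le w1 r1
    rw [e2, Real.mul_rpow p0 (nv_pos w).le, mul_comm (nS E ^ _), mul_assoc]
    gcongr
  · rw [e1, e2, mul_comm]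
    exact mul_le_mul_of_nonneg_right (w2.trans (le_mul_of_one_le_left (by positivity) hC)) p0

end PKF1

open PKF1 in
theorem y_kF1 (c : Cx k K) (hREP : Y_REP K) : Y_KF1 k K := by
  obtain ⟨n, -, hn⟩ := c.good.1 1 one_ne_zero
  have n2 : 2 ≤ n := le_trans (by norm_num) (Nat.le_of_dvd (Nat.pos_of_ne_zero hn.pos) hn.eight)
  obtain ⟨ℛ, hR, -⟩ := hREP n 0 n2
  refine ⟨n, n * ∏ w ∈ ℛ, Ideal.absNorm w.asIdeal, hn, mul_ne_zero hn.pos
    (prod_ne_zero_iff.2 fun w _ e => w.ne_bot (Ideal.absNorm_eq_zero_iff.1 e)),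
    dvd_mul_right _ _, fun d hd hN => ?_⟩
  have hw : ∀ w ∈ ℛ, Dv d.N w := fun w h =>
    dv_of_dvd (((dvd_prod_of_mem _ h).mul_left n).trans hN) (Ideal.absNorm_mem w.asIdeal)
  obtain ⟨C, hC, hb⟩ := gen c hn.pos hR (W := d.W) (fun w h => hd.dv w (hw w h))
    fun v h => hd.dv v (dv_of_dvd ((dvd_mul_right _ _).trans hN) h)
  choose b hb using hb
  refine ⟨C, d.W, b, fun v E => if d.rel v then jac (d.ω v) (eI E) * jac (b E) v.asIdeal else 0,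
    hC, le_rfl, fun v E => ?_, fun E hE => ?_⟩
  · beta_reduce
    split_ifs
    · rw [norm_mul]
      exact mul_le_one₀ (norm_jac_le _ _) (norm_nonneg _) (norm_jac_le _ _)
    · simp
  obtain ⟨h1, h2, h3, h4, w, hwR, h5⟩ := hb E hE
  refine ⟨h1, h2, h3, h4, ⟨w, hd.dv w (hw w hwR), h5⟩, fun D hD => ?_⟩
  obtain ⟨g1, g2, -⟩ := hd.gen D hD
  have l1 : jac (d.β D) w.asIdeal = 1 := by
    rw [jac_congr (y := 1) (w.asIdeal.mem_of_dvd g2 (hw w hwR)), jac_one w.ne_bot]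
  have l2 : jac (d.β D) (eI E) = jac (b E) (eI D) * jac (b E) (d.cl D).asIdeal := by
    have h8 : (8 : 𝓞 K) ∣ d.β D - 1 :=
      (by exact_mod_cast Nat.cast_dvd_cast (α := 𝓞 K) hd.eight : (8 : 𝓞 K) ∣ d.N).trans g2
    rw [← jac_mul_right, g1, ← c.rc _ _ h8 h2, h5, jac_mul_right, l1, mul_one]
  unfold RD.κ RD.r RD.z
  beta_reduce
  split_ifs
  · rw [jac_mul_left, l2]; ring
  · rw [zero_mul]

end Pool.Agent.P.MP_b8021b_nt.BP
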