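import Pool.Agent.P.MP_b8021b_nt.BP.StC

/-! The bilinear bound for the kernel of the Redei moment. -/

namespace Pool.Agent.P.MP_b8021b_nt.BP

open NumberField IsDedekindDomain Finset MeasureTheory
open Pool.Agent.P.MP_b8021b_nt.VE Pool.Agent.P.MP_b8021b_nt.VC Pool.Agent.P.MP_b8021b_nt.BS.CF
open Pool.Agent.P.MP_b8021b_nt.BS
open scoped Classical ComplexConjugate Real

variable {k : Type} [Field k] [NumberField k] [Algebra k ℂ] {K : Type} [Field K] [NumberField K]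
  [Algebra k K]

namespace PKF2

theorem gS_nonneg (D : Finset (Pl K)) : 0 ≤ gS D :=
  prod_nonneg fun v _ => by have := nv_pos v; unfold gg; positivity

theorem gS_le (D : Finset (Pl K)) : gS D ≤ (nS D)⁻¹ := by
  rw [nS_eq, ← prod_inv_distrib]
  exact prod_le_prod (fun v _ => by have := nv_pos v; unfold gg; positivity) fun v _ =>
    inv_anti₀ (nv_pos v) (by linarith [nv_pos v])

/-- the large places that divide an element -/
noncomputable def big (W : ℝ) (t : 𝓞 K) : Finset (Pl K) := (prI (sp t)).filter fun v => W < nv v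

theorem big_eq {W : ℝ} {t : 𝓞 K} {A : Finset (Pl K)} {w : Pl K} (hA : ∀ v ∈ A, W < nv v)
    (hw : nv w ≤ W) (h : sp t = eI A * w.asIdeal) : big W t = A := by
  have e : prI w.asIdeal = {w} := by simpa [eI] using prI_eI {w}
  rw [big, h, prI_mul (eI_ne_bot A) w.ne_bot, prI_eI, e, filter_union, filter_true_of_mem hA,
    filter_singleton, if_neg hw.not_gt, union_empty]

theorem core (hBB3 : Y_BB3 k K) {n : ℕ} (hn : Good K n) {C₀ : ℝ} (h0 : 0 ≤ C₀) :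
    ∃ C : ℝ, 0 ≤ C ∧ ∀ (W M N : ℝ) (𝒜 ℬ : Finset (Finset (Pl K))) (τ : Finset (Pl K) → 𝓞 K)
      (α β : Finset (Pl K) → ℂ), 1 ≤ N → N ≤ M →
      (∀ A ∈ 𝒜, (∀ v ∈ A, W < nv v) ∧ M < nS A ∧ nS A ≤ 2 * M ∧ (n : 𝓞 K) ∣ τ A - 1 ∧
        Bal k C₀ (nS A) (τ A) ∧ (∃ w : Pl K, nv w ≤ W ∧ sp (τ A) = eI A * w.asIdeal) ∧ ‖α A‖ ≤ 1) →
      (∀ B ∈ ℬ, N < nS B ∧ nS B ≤ 2 * N ∧ ‖β B‖ ≤ 1) →
      ‖∑ A ∈ 𝒜, ∑ B ∈ ℬ, α A * gS A * (β B * gS B) * jac (τ A) (eI B)‖ ≤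
        C * √(∑ A ∈ 𝒜, gS A) * N ^ (-(1 / 8 : ℝ)) := by
  obtain ⟨C, hC, h⟩ := hBB3 n C₀ hn
  refine ⟨C * √2, by positivity, fun W M N 𝒜 ℬ τ α β hN hM hA hB => ?_⟩
  have e1 : ∀ A ∈ 𝒜, big W (τ A) = A := fun A a => by
    obtain ⟨h1, -, -, -, -, ⟨w, h2, h3⟩, -⟩ := hA A a
    exact big_eq h1 h2 h3
  have e2 : ∀ A ∈ 𝒜, ∀ A' ∈ 𝒜, sp (τ A) = sp (τ A') → A = A' := fun A a A' a' e => by
    rw [← e1 A a, ← e1 A' a', big, big, e]
  have i1 : Set.InjOn τ 𝒜 := fun A a A' a' e => e2 A a A' a' (congrArg sp e)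
  have key := h (2 * M) N (𝒜.image τ) (ℬ.image eI) (fun t => α (big W t) * gS (big W t))
    (fun I => β (prI I) * gS (prI I)) hN (by linarith) (forall_mem_image.2 fun A a => by
      obtain ⟨-, -, h1, h2, h3, -⟩ := hA A a
      exact ⟨h2, h3.mono le_rfl h0 (nS_pos A).le h1⟩) (by
      rw [coe_image]
      rintro _ ⟨A, a, rfl⟩ _ ⟨A', a', rfl⟩ e
      rw [e2 A a A' a' e]) (forall_mem_image.2 fun B b => by
      obtain ⟨h1, h2, h3⟩ := hB B b
      refine ⟨squarefree_eI B, h2, ?_⟩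
      rw [prI_eI, norm_mul, Complex.norm_real, Real.norm_of_nonneg (gS_nonneg B)]
      exact (mul_le_of_le_one_left (gS_nonneg B) h3).trans
        ((gS_le B).trans (inv_anti₀ (by linarith) h1.le)))
  rw [sum_image i1, sum_image i1] at key
  simp only [sum_image eI_inj.injOn, prI_eI] at key
  rw [sum_congr rfl fun A a => by rw [e1 A a]] at key
  refine key.trans (mul_le_mul_of_nonneg_right ?_ (by positivity))
  rw [mul_assoc C, ← Real.sqrt_mul zero_le_two]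
  refine mul_le_mul_of_nonneg_left (Real.sqrt_le_sqrt ?_) (by linarith)
  rw [mul_assoc, mul_sum]
  refine mul_le_mul_of_nonneg_left (sum_le_sum fun A a => ?_) zero_le_two
  obtain ⟨-, h1, -, -, -, -, h2⟩ := hA A a
  have g0 := gS_nonneg A
  have g1 : M * gS A ≤ 1 := (mul_le_mul h1.le (gS_le A) g0 (nS_pos A).le).trans
    (mul_inv_cancel₀ (nS_pos A).ne').le
  have g2 : ‖α A * gS A‖ ≤ gS A := by
    rw [norm_mul, Complex.norm_real, Real.norm_of_nonneg g0]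
    exact mul_le_of_le_one_left g0 h2
  rw [e1 A a]
  calc _ ≤ M * gS A ^ 2 := by
        have : 0 ≤ M := by linarith
        gcongr
    _ = M * gS A * gS A := by ring
    _ ≤ _ := mul_le_of_le_one_left g0 g1

end PKF2

open PKF2

theorem y_kF2 (c : Cx k K) (hBB3 : Y_BB3 k K) : Y_KF2 k K := by
  intro n d C W b Φ hn hd hN ⟨hC, hW, hΦ, hb⟩
  have h0 : 0 ≤ max d.C C := le_max_of_le_right (by linarith)
  obtain ⟨A, hA, h⟩ := core hBB3 hn h0
  refine ⟨(pls K 0 d.W).card * A, by positivity, fun 𝒮 h𝒮 M N 𝒟 ℰ hM hN1 h𝒟 hℰ => ?_⟩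
  rw [← sum_fiberwise_of_maps_to (s := 𝒟) (t := pls K 0 d.W) (g := d.cl) fun D _ =>
    mem_pls.2 ⟨nv_pos _, hd.cl_le D⟩, mul_assoc, mul_assoc, ← nsmul_eq_mul, ← mul_assoc]
  refine (norm_sum_le _ _).trans (sum_le_card_nsmul _ _ _ fun v _ => ?_)
  by_cases hc : N ≤ M
  · rw [if_pos hc, min_eq_right hc]
    have key := h W M N (𝒟.filter fun D => d.cl D = v) ℰ d.β (fun _ => 1)
      (fun E => if d.rel v then jac (d.ω v) (eI E) else 0) hN1 hc (fun D hD => by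
        obtain ⟨h1, h2, h3⟩ := h𝒟 D (mem_filter.1 hD).1
        obtain ⟨g1, g2, g3⟩ := hd.gen D fun u hu => hW.trans_lt (h𝒮 u (h1 hu))
        exact ⟨fun u hu => h𝒮 u (h1 hu), h2, h3, (Nat.cast_dvd_cast hN).trans g2,
          g3.mono (le_max_left _ _) h0 (nS_pos D).le le_rfl,
          ⟨_, (hd.cl_le D).trans hW, g1.symm⟩, norm_one.le⟩) fun E hE => by
        refine ⟨(hℰ E hE).2.1, (hℰ E hE).2.2, ?_⟩
        split_ifs
        exacts [norm_jac_le _ _, by simp]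
    refine le_of_eq_of_le (congrArg _ (sum_congr rfl fun D hD => sum_congr rfl fun E _ => ?_))
      (key.trans ?_)
    · rw [RD.κ, RD.r, RD.z, (mem_filter.1 hD).2, jac_mul_left]
      split_ifs <;> push_cast <;> ring
    · gcongr
      exacts [fun D _ _ => gS_nonneg D, filter_subset _ _]
  · rw [if_neg hc, min_eq_left (not_le.1 hc).le, sum_comm]
    refine le_of_eq_of_le (congrArg _ (sum_congr rfl fun E hE => sum_congr rfl fun D hD => ?_))
      (h W N M ℰ (𝒟.filter fun D => d.cl D = v) b (Φ v) (fun _ => 1) hM (not_le.1 hc).le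
        (fun E hE => ?_) fun D hD => ?_)
    · rw [(hb E fun u hu => h𝒮 u ((hℰ E hE).1 hu)).2.2.2.2.2 D
        fun u hu => h𝒮 u ((h𝒟 D (mem_filter.1 hD).1).1 hu), (mem_filter.1 hD).2]
      push_cast
      ring
    · obtain ⟨h1, h2, h3⟩ := hℰ E hE
      obtain ⟨g1, -, g2, -, g3, -⟩ := hb E fun u hu => h𝒮 u (h1 hu)
      exact ⟨fun u hu => h𝒮 u (h1 hu), h2, h3, g1,
        g2.mono (le_max_right _ _) h0 (nS_pos E).le le_rfl, g3, hΦ v E⟩
    · exact ⟨(h𝒟 D (mem_filter.1 hD).1).2.1, (h𝒟 D (mem_filter.1 hD).1).2.2, norm_one.le⟩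

end Pool.Agent.P.MP_b8021b_nt.BP
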