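import Pool.Agent.P.MP_b8021b_nt.BP.StC

/-! The sum over the nonzero frequencies. -/

namespace Pool.Agent.P.MP_b8021b_nt.BP

open NumberField IsDedekindDomain Finset MeasureTheory
open Pool.Agent.P.MP_b8021b_nt.VE Pool.Agent.P.MP_b8021b_nt.VC Pool.Agent.P.MP_b8021b_nt.BS.CF
open Pool.Agent.P.MP_b8021b_nt.BS
open scoped Classical ComplexConjugate Real
variable {k : Type} [Field k] [NumberField k] [Algebra k ℂ] {K : Type} [Field K] [NumberField K]
  [Algebra k K]

namespace PKS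

/-- the support of the partition of unity is balanced -/
theorem bal (c : Ctx k K) {N : ℕ} {ℓ : ℝ} (U : UB k K N ℓ) : ∃ B : ℝ, 1 ≤ B ∧
    ∀ w : Emb k K → ℂ, U.β w ≠ 0 → (∀ φ, w φ ≠ 0) →
      ∀ φ, ‖w φ‖ ^ 2 ≤ B * nz w ^ (1 / rk k K) := by
  have hℓ : 0 ≤ U.m * ℓ := mul_nonneg (Nat.cast_nonneg _) (zero_le_one.trans U.one_le)
  refine ⟨Real.exp (2 * (U.m * ℓ)), Real.one_le_exp (by positivity), fun w hμ h0 φ => ?_⟩
  have hr : 0 < rk k K := one_pos.trans_le c.one_le_rk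
  set M : ℝ := (∑ ψ, lg w ψ) / rk k K with hM
  have hx : ∑ ψ, (lg w - fun _ => M : Emb k K → ℝ) ψ = 0 := by
    simp only [Pi.sub_apply, sum_sub_distrib, sum_const, card_univ, c.card_emb, nsmul_eq_mul, hM]
    rw [mul_div_cancel₀ _ hr.ne', sub_self]
  have h1 : ‖U.co (lg w - fun _ => M)‖ ≤ 1 := by
    rw [map_sub, U.co_const, sub_zero]
    exact (pi_norm_le_iff_of_nonneg zero_le_one).2 fun j => (U.abs_co_lt hμ j).le
  have h2 : |lg w φ - M| ≤ U.m * ℓ := by
    have := U.norm_lv_le (U.co (lg w - fun _ => M))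
    rw [U.lv_co hx] at this
    exact (norm_le_pi_norm (lg w - fun _ => M : Emb k K → ℝ) φ).trans
      (this.trans (mul_le_of_le_one_right hℓ h1))
  have h3 : nz w ^ (1 / rk k K) = Real.exp (2 * M) := by
    rw [Real.rpow_def_of_pos (nz_pos h0), log_nz h0, hM]
    congr 1
    ring
  have h4 : ‖w φ‖ ^ 2 = Real.exp (2 * lg w φ) := by
    rw [show (2 : ℝ) = (2 : ℕ) by norm_num, Real.exp_nat_mul, lg,
      Real.exp_log (norm_pos_iff.2 (h0 φ))]
  rw [h3, h4, ← Real.exp_add, Real.exp_le_exp]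
  linarith [(abs_le.1 h2).2]

theorem summ (c : Ctx k K) : Summable fun x : 𝓞 K => ‖emb k x‖ ^ (-(4 * rk k K)) := by
  obtain ⟨B, -⟩ := c.bf
  obtain ⟨_, h⟩ := c.lib.emb k B (Module.finrank k K)
  obtain ⟨hc, -, hD, -, -, hlat, hdisc, -⟩ := h K rfl
  obtain ⟨⟨hd, hz⟩, -⟩ := hdisc ⊤ top_ne_bot
  have hr := c.one_le_rk
  have h1 := ZLattice.summable_norm_rpow (L := lat k (⊤ : Ideal (𝓞 K))) (-(4 * rk k K)) (by
    rw [ZLattice.rank ℝ, Module.finrank_pi_fintype]
    simp only [Complex.finrank_real_complex, sum_const, card_univ, hc, smul_eq_mul]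
    push_cast
    linarith)
  obtain ⟨φ⟩ : Nonempty (Emb k K) := Fintype.card_pos_iff.mp (by omega)
  let i : 𝓞 K → lat k (⊤ : Ideal (𝓞 K)) := fun x => ⟨emb k x, (hlat ⊤ _).2 ⟨x, trivial, rfl⟩⟩
  have hi : Function.Injective i := fun a b e =>
    RingOfIntegers.ext (φ.toRingHom.injective (congrFun (congrArg Subtype.val e) φ))
  exact (h1.comp_injective hi).congr fun x => by
    rw [Function.comp_apply, Submodule.coe_norm]

theorem NN_le (c : Ctx k K) (x : 𝓞 K) : NN (sp x) ≤ (‖emb k x‖ ^ 2) ^ rk k K := by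
  rw [c.NN_eq, nz, Real.rpow_natCast, ← c.card_emb, ← card_univ, ← prod_const]
  exact prod_le_prod (fun _ _ => by positivity) fun φ _ =>
    pow_le_pow_left₀ (norm_nonneg _) (norm_le_pi_norm _ φ) 2

theorem gz_zero {N : ℕ} {ℓ : ℝ} (U : UB k K N ℓ) {ω : ℝ → ℂ} (η : Emb k K → ℝ)
    (ξ : Emb k K → ℂ) {z : Emb k K → ℂ} (h : ¬ (U.β z ≠ 0 ∧ ω (nz z) ≠ 0)) : gz U ω η ξ z = 0 := by
  rw [not_and_or, not_not, not_not] at h
  rcases h with e | e <;> simp [gz, e]

end PKS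

open PKS in
theorem y_kS (c : Cx k K) (hLATL : Y_LATL k K) (hLIPG : Y_LIPG k K) : Y_KS k K := by
  intro N ℓ U
  obtain ⟨C₁, hC₁, hL⟩ := hLATL N ℓ U
  obtain ⟨C₂, hC₂, hG⟩ := hLIPG N ℓ U
  obtain ⟨B, hB, hbal⟩ := bal c.toCtx U
  obtain ⟨gs1, C₃, hC₃, -, gs2, -⟩ := c.gs
  have hs := summ c.toCtx
  set σ := ∑' x : 𝓞 K, ‖emb k x‖ ^ (-(4 * rk k K)) with hσ
  have σ0 : 0 ≤ σ := tsum_nonneg fun _ => by positivity
  have hr : 0 < rk k K := one_pos.trans_le c.one_le_rk
  have B0 : 0 < B ^ rk k K := Real.rpow_pos_of_pos (by linarith) _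
  refine ⟨1 + C₃ * B ^ rk k K + C₁ * C₂ * σ, by
    rw [add_assoc]; exact le_add_of_nonneg_right (by positivity),
    fun ω Λ T Z μ A η m Φ hω hT hZ hμ hη hm hΦ h0 hp => ?_⟩
  have Λ0 : 0 ≤ Λ := (norm_nonneg _).trans (hω.bd 0)
  have A0 : 0 ≤ A := (norm_nonneg _).trans (hΦ 0 0)
  have one : ∀ g, (Summable fun κ => Φ κ g * gz U ω η (emb k κ) (emb k g)) ∧
      ‖∑' κ, Φ κ g * gz U ω η (emb k κ) (emb k g)‖ ≤
        C₃ * B ^ rk k K * Λ * A * μ ^ (-rk k K) * U.β (emb k g) := by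
    intro g
    have β0 := U.β_nonneg (emb k g)
    by_cases h : U.β (emb k g) ≠ 0 ∧ ω (nz (emb k g)) ≠ 0
    swap
    · simp only [gz_zero U η _ h, mul_zero, tsum_zero, norm_zero]
      exact ⟨summable_zero, by positivity⟩
    generalize emb k g = z at h β0
    have z1 : 0 < nz z := one_pos.trans_le (hT.trans (hω.supp _ h.2).1)
    have z0 : ∀ φ, z φ ≠ 0 := fun φ e => z1.ne' (prod_eq_zero (mem_univ φ) (by simp [e]))
    set ν := μ / (B * nz z ^ (1 / rk k K)) with hν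
    have ν0 : 0 < ν := by positivity
    have s1 : Summable fun x : 𝓞 K => if x = 0 then 0 else gau (fun _ => ν) (emb k x) :=
      (gs1 (fun _ => ν) 0 fun _ => ν0).of_nonneg_of_le
        (fun x => by split_ifs; exacts [le_rfl, (gau_pos _ _).le])
        fun x => by rw [pow_zero, one_mul]; split_ifs; exacts [(gau_pos _ _).le, le_rfl]
    have bd : ∀ κ, ‖Φ κ g * gz U ω η (emb k κ) z‖ ≤ A * (U.β z * (Λ / nz z)) *
        if κ = 0 then 0 else gau (fun _ => ν) (emb k κ) := by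
      intro κ
      split_ifs with e
      · simp [e, h0]
      rw [gz, norm_mul, norm_mul, norm_mul, norm_mul, norm_dP z0, mul_one, norm_div,
        Complex.norm_real, Complex.norm_real, Complex.norm_real, Real.norm_of_nonneg β0,
        Real.norm_of_nonneg z1.le, Real.norm_of_nonneg (gau_pos _ _).le, ← mul_assoc]
      refine mul_le_mul ?_ (gau_anti (fun φ => ?_) _) (gau_pos _ _).le (by positivity)
      · gcongr
        exacts [hΦ _ _, hω.bd _]
      · have := norm_pos_iff.2 (z0 φ)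
        exact div_le_div₀ (hμ.le.trans (hη φ)) (hη φ) (by positivity) (hbal z h.1 z0 φ)
    refine ⟨.of_norm_bounded (s1.mul_left _) bd, (tsum_of_norm_bounded (s1.hasSum.mul_left _) bd).trans
      ((mul_le_mul_of_nonneg_left (gs2 ν ν0) (by positivity)).trans (le_of_eq ?_))⟩
    rw [hν, Real.div_rpow hμ.le (by positivity), Real.rpow_neg (by positivity : 0 ≤ B * _),
      Real.mul_rpow (by linarith) (by positivity), ← Real.rpow_mul z1.le, one_div_mul_cancel hr.ne',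
      Real.rpow_one]
    field_simp
  refine ⟨fun g => (one g).2.trans ?_, ?_⟩
  · have β0 := U.β_nonneg (emb k g)
    gcongr
    linarith [show 0 ≤ C₁ * C₂ * σ by positivity]
  obtain ⟨F, -⟩ := c.bf
  have fin := (c.lib.part k F K N ℓ U).2.2.1 Z
  have out : ∀ κ g, g ∉ fin.toFinset → Φ κ g * gz U ω η (emb k κ) (emb k g) = 0 := fun κ g e => by
    rw [gz_zero U η _ fun h => e (fin.mem_toFinset.2 ⟨h.1, (hω.supp _ h.2).2⟩), mul_zero]
  rw [finsum_eq_sum_of_support_subset _ (s := fin.toFinset) fun g e => not_not.1 fun h =>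
    e (by simp only [out _ g h, tsum_zero]), ← Summable.tsum_finsetSum fun g _ => (one g).1]
  have bd : ∀ κ, ‖∑ g ∈ fin.toFinset, Φ κ g * gz U ω η (emb k κ) (emb k g)‖ ≤
      C₁ * C₂ * Λ * A * m * Z ^ 3 * μ ^ (-(3 * rk k K)) * T ^ (-(1 / (2 * rk k K))) *
        ‖emb k κ‖ ^ (-(4 * rk k K)) := by
    intro κ
    by_cases e : κ = 0
    · simp only [e, h0, zero_mul, sum_const_zero, norm_zero]
      positivity
    rcases A0.eq_or_lt with a | a
    · have : ∀ g, Φ κ g = 0 := fun g => norm_le_zero_iff.1 (a ▸ hΦ κ g)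
      simp only [this, zero_mul, sum_const_zero, norm_zero]
      positivity
    obtain ⟨φ⟩ : Nonempty (Emb k K) := by
      rw [← Fintype.card_pos_iff, c.card_emb]
      exact_mod_cast hr
    have ξ0 : emb k κ ≠ 0 := fun z => emb_ne_zero e φ (congrFun z φ)
    have ξ1 := norm_pos_iff.2 ξ0
    have n1 : 1 ≤ Ideal.absNorm (sp κ) := by
      exact_mod_cast one_le_NN (I := sp κ) (by simpa using e)
    have h1 := hL _ _ T Z (m * Ideal.absNorm (sp κ)) (fun g => Φ κ g / A)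
      (hG ω Λ T Z μ η (emb k κ) hω (by linarith) hμ hη ξ0) hT hZ (one_le_mul hm n1)
      (fun x y h => congrArg (· / (A : ℂ)) (hp κ e x y h)) fun g => by
        rw [norm_div, Complex.norm_real, Real.norm_of_nonneg A0, div_le_one a]
        exact hΦ κ g
    rw [finsum_eq_sum_of_support_subset _ (s := fin.toFinset) fun g e => not_not.1 fun h =>
      e (by rw [div_mul_eq_mul_div, out _ g h, zero_div])] at h1
    simp only [div_mul_eq_mul_div] at h1
    rw [← sum_div, norm_div, Complex.norm_real, Real.norm_of_nonneg A0, div_le_iff₀ a] at h1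
    refine h1.trans ?_
    have h2 : ‖emb k κ‖ ^ (-(4 * rk k K)) =
        (‖emb k κ‖ ^ 2) ^ (-(3 * rk k K)) * (‖emb k κ‖ ^ 2) ^ rk k K := by
      rw [← Real.rpow_add (by positivity), ← Real.rpow_natCast, ← Real.rpow_mul ξ1.le]
      congr 1
      push_cast
      ring
    rw [h2, Real.mul_rpow hμ.le (by positivity), Nat.cast_mul]
    have h3 := NN_le c.toCtx κ
    calc _ = C₁ * C₂ * Λ * A * m * Z ^ 3 * μ ^ (-(3 * rk k K)) * T ^ (-(1 / (2 * rk k K))) *
          ((‖emb k κ‖ ^ 2) ^ (-(3 * rk k K)) * NN (sp κ)) := by unfold NN; ring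
      _ ≤ _ := by gcongr
  refine (tsum_of_norm_bounded (hs.hasSum.mul_left _) bd).trans ?_
  calc _ = C₁ * C₂ * σ * Λ * A * m * Z ^ 3 * μ ^ (-(3 * rk k K)) * T ^ (-(1 / (2 * rk k K))) := by
        ring
    _ ≤ _ := by
        gcongr
        exact le_add_of_nonneg_left (by positivity)

end Pool.Agent.P.MP_b8021b_nt.BP
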