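import Pool.Agent.P.MP_b8021b_nt.BP.StC
import Pool.Agent.P.MP_b8021b_nt.VC.PWin2

/-! Sums of a test function of mean zero against a periodic function. -/

namespace Pool.Agent.P.MP_b8021b_nt.BP

open NumberField IsDedekindDomain Finset MeasureTheory
open Pool.Agent.P.MP_b8021b_nt.VE Pool.Agent.P.MP_b8021b_nt.VC Pool.Agent.P.MP_b8021b_nt.BS.CF
open Pool.Agent.P.MP_b8021b_nt.BS
open scoped Classical ComplexConjugate Real
variable {k : Type} [Field k] [NumberField k] [Algebra k ℂ] {K : Type} [Field K] [NumberField K]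
  [Algebra k K]

namespace PLATL

variable {N : ℕ} {ℓ : ℝ} {U : UB k K N ℓ} {G : (Emb k K → ℂ) → ℂ} {Λ T Z ρ : ℝ}

/-- points of the fundamental domain are balanced -/
lemma bal (c : Ctx k K) (U : UB k K N ℓ) : ∃ L : ℝ, 1 ≤ L ∧ ∀ (z : Emb k K → ℂ) (T Z : ℝ),
    U.β z ≠ 0 → 1 ≤ T → T ≤ nz z → nz z ≤ Z → ∀ φ,
    T ^ (1 / (2 * rk k K)) / L ≤ ‖z φ‖ ∧ ‖z φ‖ ≤ L * Z ^ (1 / (2 * rk k K)) := by
  have hr := c.one_le_rk
  have hℓ := U.one_le
  refine ⟨Real.exp (U.m * ℓ + 1), Real.one_le_exp (by positivity), fun z T Z h hT h1 h2 φ => ?_⟩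
  have h0 : ∀ i, z i ≠ 0 := fun i e => by
    have : nz z = 0 := prod_eq_zero (mem_univ i) (by simp [e])
    linarith
  have hp : 0 < nz z := by linarith
  have h3 := Win2.supp_beta U h (Real.log (nz z) * (1 / (2 * rk k K))) (by
    rw [Geo.nz_eq h0, Real.log_exp, sum_sub_distrib, sum_const, card_univ, c.card_emb,
      nsmul_eq_mul]
    have : ∑ i, lg z i - rk k K * (2 * (∑ i, lg z i) * (1 / (2 * rk k K))) = 0 := by
      field_simp
      ring
    rw [this, abs_zero]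
    exact zero_le_one) φ
  have h4 : ‖z φ‖ = Real.exp (lg z φ) := (Real.exp_log (norm_pos_iff.2 (h0 φ))).symm
  obtain ⟨h5, h6⟩ := abs_le.1 h3
  have he : 0 ≤ 1 / (2 * rk k K) := by positivity
  constructor
  · rw [div_le_iff₀ (Real.exp_pos _), h4, ← Real.exp_add]
    refine (Real.rpow_le_rpow (by linarith) h1 he).trans ?_
    rw [Real.rpow_def_of_pos hp]
    exact Real.exp_le_exp.2 (by linarith)
  · refine le_trans ?_ (mul_le_mul_of_nonneg_left (Real.rpow_le_rpow hp.le h2 he)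
      (Real.exp_pos _).le)
    rw [Real.rpow_def_of_pos hp, h4, ← Real.exp_add]
    exact Real.exp_le_exp.2 (by linarith)

/-- the oscillation at small scales -/
lemma osc (h : TF U G Λ T Z) (hρ : 0 < ρ) (hs : ∀ z, G z ≠ 0 → ∀ φ, ρ ≤ ‖z φ‖)
    {y y' : Emb k K → ℂ} {δ : ℝ} (hδ : δ ≤ 1 / 2) (hy : ‖y' - y‖ ≤ δ * ρ) :
    ‖G y' - G y‖ ≤ Λ * δ := by
  have h0 : 0 ≤ δ := nonneg_of_mul_nonneg_left ((norm_nonneg _).trans hy) hρ
  have key : ∀ w w' : Emb k K → ℂ, G w ≠ 0 → ‖w' - w‖ ≤ δ * ρ → ‖G w' - G w‖ ≤ Λ * δ :=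
    fun w w' a b => h.lip w w' δ (fun φ => norm_pos_iff.1 (hρ.trans_le (hs w a φ))) h0 hδ
      fun φ => ((norm_le_pi_norm (w' - w) φ).trans b).trans
        (mul_le_mul_of_nonneg_left (hs w a φ) h0)
  by_cases a : G y = 0
  · by_cases b : G y' = 0
    · rw [a, b, sub_self, norm_zero]
      exact mul_nonneg ((norm_nonneg _).trans (h.bd y)) h0
    · rw [norm_sub_rev] at hy ⊢
      exact key _ _ b hy
  · exact key _ _ a hy

lemma cont (h : TF U G Λ T Z) (hρ : 0 < ρ) (hs : ∀ z, G z ≠ 0 → ∀ φ, ρ ≤ ‖z φ‖) :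
    Continuous G := by
  have hΛ : 0 ≤ Λ := (norm_nonneg _).trans (h.bd 0)
  refine Metric.continuous_iff.2 fun b ε hε =>
    ⟨min (1 / 2) (ε / (Λ + 1)) * ρ, by positivity, fun a ha => ?_⟩
  rw [dist_eq_norm] at ha ⊢
  refine (osc h hρ hs (min_le_left _ _) ha.le).trans_lt
    ((mul_le_mul_of_nonneg_left (min_le_right _ _) hΛ).trans_lt ?_)
  rw [← mul_div_assoc, div_lt_iff₀ (by positivity)]
  linarith

/-- decomposition into residue classes -/
lemma classes (c : Ctx k K) {𝔟 : Ideal (𝓞 K)} (h𝔟 : 𝔟 ≠ ⊥) {Φ : 𝓞 K → ℂ} (hP : Peri 𝔟 Φ)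
    (hΦ : ∀ g, ‖Φ g‖ ≤ 1) (hf : {g : 𝓞 K | G (emb k g) ≠ 0}.Finite) {E : ℝ}
    (hE : ∀ a, ‖∑ᶠ x ∈ (lat k 𝔟 : Set (Emb k K → ℂ)), G (a + x)‖ ≤ E) :
    ‖∑ᶠ g, Φ g * G (emb k g)‖ ≤ NN 𝔟 * E := by
  obtain ⟨B, -⟩ := c.bf
  obtain ⟨_, h⟩ := c.lib.emb k B _
  have hm := (h K rfl).2.2.2.2.2.1 𝔟
  obtain ⟨φ₀⟩ : Nonempty (Emb k K) :=
    Fintype.card_pos_iff.1 ((h K rfl).1 ▸ (h K rfl).2.2.1)
  have := PoiN.finq h𝔟
  have := Fintype.ofFinite (𝓞 K ⧸ 𝔟)
  rw [finsum_eq_sum_of_support_subset (s := hf.toFinset) _ fun g hg => by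
    simpa using right_ne_zero_of_mul hg,
    ← sum_fiberwise_of_maps_to (t := univ) (g := Ideal.Quotient.mk 𝔟) fun _ _ => mem_univ _]
  refine (norm_sum_le _ _).trans ((sum_le_card_nsmul _ _ E fun q _ => ?_).trans_eq
    (by rw [card_univ, PoiN.card_quot, nsmul_eq_mul]))
  have e : ∀ g : 𝓞 K, Ideal.Quotient.mk 𝔟 g = q ↔ g - q.out ∈ 𝔟 := fun g => by
    rw [← Ideal.Quotient.eq, Ideal.Quotient.mk_out]
  rw [sum_congr rfl fun g hg => congrArg (· * G (emb k g))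
    (hP g q.out ((e g).1 (mem_filter.1 hg).2)), ← mul_sum, norm_mul]
  refine (mul_le_of_le_one_left (norm_nonneg _) (hΦ _)).trans (le_of_eq_of_le ?_ (hE (emb k q.out)))
  rw [← finsum_mem_eq_sum_of_inter_support_eq (s := {g | g - q.out ∈ 𝔟}) _ (by
    ext g
    simp [e]
    tauto)]
  refine congrArg _ (finsum_mem_eq_of_bijOn (fun g => emb k (g - q.out))
    ⟨fun g hg => (hm _).2 ⟨_, hg, rfl⟩, fun g _ g' _ e' => ?_, fun x hx => ?_⟩ fun g _ => ?_)
  · by_contra hne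
    refine emb_ne_zero (sub_ne_zero.2 hne) φ₀ ?_
    simp only [emb_sub, sub_left_inj] at e'
    rw [emb_sub, e', sub_self, Pi.zero_apply]
  · obtain ⟨a, ha, rfl⟩ := (hm _).1 hx
    exact ⟨a + q.out, by simpa using ha, by simp⟩
  · rw [emb_sub, add_sub_cancel]

end PLATL

open PLATL in
theorem y_lATL (c : Cx k K) : Y_LATL k K := by
  intro N ℓ U
  obtain ⟨L, hL, hb⟩ := bal c.toCtx U
  obtain ⟨C₁, hC₁, hcnt, -⟩ := c.gs.2
  obtain ⟨B₀, -⟩ := c.bf
  obtain ⟨C₀, hE⟩ := c.lib.emb k B₀ _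
  obtain ⟨-, -, hD, -, -, hm, hlat, -, ⟨Q, hQ, hS⟩, hv⟩ := hE K rfl
  obtain ⟨-, v, hv⟩ := hv Q hQ hS
  obtain ⟨_, hball⟩ := c.lib.ball k B₀ (Module.finrank k K)
  replace hball := (hball K rfl).1
  clear hE
  obtain ⟨φ₀⟩ : Nonempty (Emb k K) := Fintype.card_pos_iff.1 (c.card_emb ▸ hD)
  have hr := c.one_le_rk
  have hcov := c.cov_pos
  obtain ⟨B, hB, hBv⟩ : ∃ B : ℝ, 0 < B ∧ ∑ j, ‖v j‖ ≤ B :=
    ⟨∑ j, ‖v j‖ + 1, by positivity, by linarith⟩
  obtain ⟨V, hV, hVb⟩ : ∃ V : ℝ, 0 ≤ V ∧ ∀ R : ℝ, 0 ≤ R →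
      volume.real (Metric.closedBall (0 : Emb k K → ℂ) R) = R ^ (2 * rk k K) * V :=
    ⟨volume.real (Metric.ball (0 : Emb k K → ℂ) 1), measureReal_nonneg, fun R hR => by
      rw [Measure.addHaar_real_closedBall _ _ hR, Module.finrank_eq_card_basis v,
        ← Real.rpow_natCast]
      simp [mul_comm]⟩
  refine ⟨1 + B * L * (2 * (C₁ * L ^ (2 * rk k K)) + (2 * L) ^ (2 * rk k K) * V / cov2 k K),
    le_add_of_nonneg_right (by positivity), fun G Λ T Z m Φ h hT hZ hm1 hP hΦ => ?_⟩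
  have hΛ : 0 ≤ Λ := (norm_nonneg _).trans (h.bd 0)
  have hmR : (1 : ℝ) ≤ m := by exact_mod_cast hm1
  rw [Real.rpow_neg (by linarith)]
  have hs : ∀ z, G z ≠ 0 → ∀ φ, _ := fun z a => hb z T Z (h.supp z a).1 hT (h.supp z a).2.1
    (h.supp z a).2.2
  have ht : 1 ≤ T ^ (1 / (2 * rk k K)) := Real.one_le_rpow hT (by positivity)
  have hz : 1 ≤ Z ^ (1 / (2 * rk k K)) := Real.one_le_rpow hZ (by positivity)
  have hzZ : (Z ^ (1 / (2 * rk k K))) ^ (2 * rk k K) = Z := by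
    rw [← Real.rpow_mul (by linarith), one_div_mul_cancel (by positivity), Real.rpow_one]
  generalize T ^ (1 / (2 * rk k K)) = t at *
  generalize Z ^ (1 / (2 * rk k K)) = s at *
  have hn : ∀ z, G z ≠ 0 → ‖z‖ ≤ L * s := fun z a =>
    (pi_norm_le_iff_of_nonneg (by positivity)).2 fun φ => (hs z a φ).2
  have hf : {g : 𝓞 K | G (emb k g) ≠ 0}.Finite :=
    (hball 0 (L * s)).subset fun g hg => by simpa using hn _ hg
  have hx : 0 ≤ Λ * m * Z * t⁻¹ := by positivity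
  have hfin : ∀ A : ℝ, ‖∑ᶠ g, Φ g * G (emb k g)‖ ≤ B * L * A * (Λ * m * Z * t⁻¹) →
      A ≤ 2 * (C₁ * L ^ (2 * rk k K)) + (2 * L) ^ (2 * rk k K) * V / cov2 k K →
      ‖∑ᶠ g, Φ g * G (emb k g)‖ ≤ (1 + B * L * (2 * (C₁ * L ^ (2 * rk k K)) +
        (2 * L) ^ (2 * rk k K) * V / cov2 k K)) * Λ * m * Z * t⁻¹ := fun A h1 h2 => by
    refine h1.trans (le_of_le_of_eq (mul_le_mul_of_nonneg_right (le_add_of_nonneg_of_le zero_le_one
      (mul_le_mul_of_nonneg_left h2 (by positivity))) hx) (by ring))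
  rcases le_total t (2 * m * B * L) with hc | hc
  · refine hfin _ ?_ (le_add_of_nonneg_right (by positivity))
    rw [finsum_eq_sum_of_support_subset (s := hf.toFinset) _ fun g hg => by
      simpa using right_ne_zero_of_mul hg]
    refine (norm_sum_le _ _).trans ((sum_le_card_nsmul _ _ Λ fun g _ => ?_).trans ?_)
    · rw [norm_mul]
      exact (mul_le_of_le_one_left (norm_nonneg _) (hΦ g)).trans (h.bd _)
    · have h1 := hcnt (L * s) hf.toFinset (one_le_mul_of_one_le_of_one_le hL hz)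
        fun g hg => hn _ (hf.mem_toFinset.1 hg)
      rw [Real.mul_rpow (by positivity) (by positivity), hzZ] at h1
      have h2 : 1 ≤ 2 * m * B * L * t⁻¹ := by
        rwa [← div_eq_mul_inv, one_le_div (by positivity)]
      rw [nsmul_eq_mul]
      refine (mul_le_mul_of_nonneg_right h1 hΛ).trans ((le_mul_of_one_le_right (by positivity)
        h2).trans_eq (by ring))
  · refine hfin _ ?_ (le_add_of_nonneg_left (by positivity))
    have hm0 : (m : 𝓞 K) ≠ 0 := Nat.cast_ne_zero.2 (by omega)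
    have h𝔟 : sp (m : 𝓞 K) ≠ ⊥ := Ideal.span_singleton_eq_bot.not.2 hm0
    obtain ⟨⟨_, _⟩, hco⟩ := hlat _ h𝔟
    have hN := NN_pos h𝔟
    have hρ : 0 < t / L := by positivity
    have hδ : m * B * L / t ≤ 1 / 2 := by
      rw [div_le_iff₀ (by positivity)]
      linarith
    let w := v.unitsSMul fun _ => Units.mk0 (m : ℝ) (by positivity)
    have hw : ∀ j, w j = (m : ℝ) • v j := fun j => v.unitsSMul_apply j
    have hh : ∀ (y : Emb k K → ℂ) (a : _ → ℝ), (∀ j, |a j| ≤ 1) →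
        ‖y + ∑ j, a j • w j - y‖ ≤ m * B * L / t * (t / L) := fun y a ha => by
      rw [add_sub_cancel_left, show m * B * L / t * (t / L) = m * B by field_simp]
      refine (norm_sum_le _ _).trans (le_trans ?_ (mul_le_mul_of_nonneg_left hBv (by positivity)))
      rw [mul_sum]
      refine sum_le_sum fun j _ => ?_
      rw [hw, norm_smul, norm_smul, Real.norm_natCast]
      exact mul_le_of_le_one_left (by positivity) (ha j)
    refine (classes c.toCtx h𝔟 hP hΦ hf fun a => ?_).trans_eq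
      (?_ : NN (sp (m : 𝓞 K)) * (Λ * (m * B * L / t) * ((2 * (L * s)) ^ (2 * rk k K) * V) /
        (NN (sp (m : 𝓞 K)) * cov2 k K)) = _)
    · have := c.lat _ volume (lat k (sp (m : 𝓞 K))) _ w G (Λ * (m * B * L / t))
        (Metric.closedBall 0 (2 * (L * s))) a (fun j => ?_) (cont h hρ fun z a φ => (hs z a φ).1)
        (HasCompactSupport.intro (isCompact_closedBall 0 (L * s)) fun z a =>
          not_not.1 fun b => a (by simpa using hn z b))
        (isCompact_closedBall _ _).measure_ne_top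
        (fun y a ha => osc h hρ (fun z a φ => (hs z a φ).1) hδ (hh y a ha)) fun y a ha hy => ?_
      · rwa [h.int, zero_div, sub_zero, hco, hVb _ (by positivity)] at this
      · obtain ⟨b, hb⟩ := (hv j).2
        refine (hm _ _).2 ⟨m * b, Ideal.mul_mem_right _ _ (Ideal.mem_span_singleton_self _), ?_⟩
        rw [hw, ← hb]
        funext φ
        simp [emb]
      · rw [mem_closedBall_zero_iff]
        have h1 := (hh y a ha).trans (mul_le_of_le_one_left hρ.le (by linarith))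
        linarith [norm_le_insert' (y + ∑ j, a j • w j) y, hn y hy, (hs y hy φ₀).1, (hs y hy φ₀).2]
    · rw [← mul_assoc 2, Real.mul_rpow (by positivity) (by positivity), hzZ]
      field_simp

end Pool.Agent.P.MP_b8021b_nt.BP
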