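import Pool.Agent.P.MP_b8021b_nt.BP.StC

/-! Dirichlet series with a power saving in the partial sums, near the point one. -/

namespace Pool.Agent.P.MP_b8021b_nt.BP

open Finset Filter

namespace PLIP

/-- summation by parts -/
theorem abel (a w : ℕ → ℂ) (X : ℕ) : ∑ j ∈ Icc 1 X, a j * w j =
    (∑ j ∈ Icc 1 X, a j) * w (X + 1) +
      ∑ j ∈ range X, (∑ i ∈ Icc 1 (j + 1), a i) * (w (j + 1) - w (j + 1 + 1)) := by
  induction X with
  | zero => simp
  | succ X ih =>
    rw [sum_range_succ, sum_Icc_succ_top (by omega), ih, sum_Icc_succ_top (by omega : 1 ≤ X + 1) a]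
    ring

theorem log_step {x : ℝ} (hx : 1 ≤ x) :
    1 / (x + 1) ≤ Real.log (x + 1) - Real.log x ∧ Real.log (x + 1) - Real.log x ≤ 1 / x := by
  have h0 : 0 < x := by linarith
  rw [← Real.log_div (by linarith) h0.ne']
  constructor
  · have h := Real.one_sub_inv_le_log_of_pos (x := (x + 1) / x) (by positivity)
    refine le_trans (le_of_eq ?_) h
    field_simp
    ring
  · have h := Real.log_le_sub_one_of_pos (x := (x + 1) / x) (by positivity)
    refine h.trans (le_of_eq ?_)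
    field_simp
    ring

theorem tele {x η : ℝ} (hx : 1 ≤ x) (hη : 0 < η) :
    η * (x + 1) ^ (-1 - η) ≤ x ^ (-η) - (x + 1) ^ (-η) := by
  have h0 : 0 < x := by linarith
  have h1 : 0 < x + 1 := by linarith
  have e1 : x ^ (-η) = (x + 1) ^ (-η) * Real.exp (η * (Real.log (x + 1) - Real.log x)) := by
    rw [Real.rpow_def_of_pos h0, Real.rpow_def_of_pos h1, ← Real.exp_add]
    congr 1; ring
  have e2 : (x + 1) ^ (-1 - η) = (x + 1) ^ (-η) * (1 / (x + 1)) := by
    rw [show -1 - η = -η + -1 by ring, Real.rpow_add h1, Real.rpow_neg_one, one_div]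
  have h2 := Real.add_one_le_exp (η * (Real.log (x + 1) - Real.log x))
  have h3 := mul_le_mul_of_nonneg_left (log_step hx).1 hη.le
  have h4 : 0 < (x + 1) ^ (-η) := Real.rpow_pos_of_pos h1 _
  have h5 := mul_le_mul_of_nonneg_left (show η * (1 / (x + 1)) + 1 ≤
    Real.exp (η * (Real.log (x + 1) - Real.log x)) by linarith) h4.le
  rw [e2, e1]
  linarith

theorem tail {η : ℝ} (hη : 0 < η) {X : ℕ} (hX : 1 ≤ X) (n : ℕ) :
    ∑ j ∈ range n, ((j + X : ℕ) + 1 : ℝ) ^ (-1 - η) ≤ (X : ℝ) ^ (-η) / η := by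
  have h : η * ∑ j ∈ range n, ((j + X : ℕ) + 1 : ℝ) ^ (-1 - η) ≤
      (X : ℝ) ^ (-η) - ((n + X : ℕ) : ℝ) ^ (-η) := by
    induction n with
    | zero => simp
    | succ n ih =>
      have h1 : (1 : ℝ) ≤ ((n + X : ℕ) : ℝ) := by exact_mod_cast (by omega : 1 ≤ n + X)
      have h2 := tele h1 hη
      have e : ((n + 1 + X : ℕ) : ℝ) = ((n + X : ℕ) : ℝ) + 1 := by push_cast; ring
      rw [sum_range_succ, mul_add, e]
      linarith
  have h0 : (0 : ℝ) ≤ ((n + X : ℕ) : ℝ) ^ (-η) := by positivity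
  rw [le_div_iff₀ hη]
  linarith

theorem head {η : ℝ} (hη : 0 < η) (n : ℕ) :
    ∑ j ∈ range n, (j + 1 : ℝ) ^ (-1 - η) ≤ 1 + 1 / η := by
  cases n with
  | zero => simp only [range_zero, sum_empty]; positivity
  | succ n =>
    have h := tail hη (le_refl 1) n
    rw [sum_range_succ']
    simp only [Nat.cast_one, Real.one_rpow, Nat.cast_zero, zero_add] at h ⊢
    linarith

/-- weights of the form f j / j with f of logarithmic type -/
theorem key {a : ℕ → ℂ} {A η : ℝ} (hη : 0 < η) (hη1 : η ≤ 1) (hA : 0 ≤ A)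
    (hS : ∀ X : ℕ, ‖∑ j ∈ Icc 1 X, a j‖ ≤ A * (X : ℝ) ^ (1 - η)) (f : ℕ → ℂ) {B : ℝ}
    (hB : 0 ≤ B) (h1 : ∀ j : ℕ, ‖f (j + 1)‖ ≤ B * Real.log (j + 1))
    (h2 : ∀ j : ℕ, ‖f (j + 1) - f (j + 1 + 1)‖ ≤ B * (1 / (j + 1))) (X : ℕ) :
    ‖∑ j ∈ Icc 1 X, a j * (f j / j)‖ ≤ A * (1 / η + (2 / η + 1) * (1 + 2 / η)) * B := by
  rw [abel a (fun j => f j / j)]
  have t1 : ‖(∑ j ∈ Icc 1 X, a j) * (f (X + 1) / (X + 1 : ℕ))‖ ≤ A * (1 / η) * B := by
    have hx : (0 : ℝ) < X + 1 := by positivity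
    have l1 := Real.log_le_rpow_div hx.le hη
    have l2 : (X : ℝ) ^ (1 - η) ≤ (X + 1 : ℝ) ^ (1 - η) :=
      Real.rpow_le_rpow (by positivity) (by linarith) (by linarith)
    have l3 : (X + 1 : ℝ) ^ (1 - η) * (X + 1 : ℝ) ^ η = X + 1 := by
      rw [← Real.rpow_add hx]; simp
    rw [norm_mul, norm_div, Complex.norm_natCast, Nat.cast_add_one]
    calc _ ≤ (A * (X + 1 : ℝ) ^ (1 - η)) * (B * ((X + 1 : ℝ) ^ η / η) / (X + 1)) := by
          gcongr
          · exact (hS X).trans (by gcongr)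
          · exact (h1 X).trans (by gcongr)
      _ = A * (1 / η) * B * (((X + 1 : ℝ) ^ (1 - η) * (X + 1 : ℝ) ^ η) / (X + 1)) := by ring
      _ = _ := by rw [l3, div_self hx.ne', mul_one]
  have t2 : ∀ j ∈ range X, ‖(∑ i ∈ Icc 1 (j + 1), a i) *
      (f (j + 1) / (j + 1 : ℕ) - f (j + 1 + 1) / (j + 1 + 1 : ℕ))‖ ≤
      A * (2 / η + 1) * B * (j + 1 : ℝ) ^ (-1 - η / 2) := by
    intro j _
    have hx : (0 : ℝ) < j + 1 := by positivity
    have hx1 : (1 : ℝ) ≤ j + 1 := by linarith [(Nat.cast_nonneg j : (0 : ℝ) ≤ j)]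
    have hc : (j + 1 : ℂ) ≠ 0 := by exact_mod_cast Nat.succ_ne_zero j
    have hc2 : (j + 1 + 1 : ℂ) ≠ 0 := by exact_mod_cast Nat.succ_ne_zero (j + 1)
    have e : f (j + 1) / (j + 1 : ℕ) - f (j + 1 + 1) / (j + 1 + 1 : ℕ) =
        (f (j + 1) / ((j + 1 : ℕ) : ℂ) + (f (j + 1) - f (j + 1 + 1))) / ((j + 1 + 1 : ℕ) : ℂ) := by
      push_cast; field_simp; ring
    have l1 := Real.log_le_rpow_div hx.le (half_pos hη)
    have l2 : 1 ≤ (j + 1 : ℝ) ^ (η / 2) := Real.one_le_rpow hx1 (half_pos hη).le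
    have l3 : (j + 1 : ℝ) ^ (1 - η) * (j + 1 : ℝ) ^ (η / 2) =
        (j + 1 : ℝ) ^ (-1 - η / 2) * (j + 1) * (j + 1) := by
      rw [← Real.rpow_add hx, ← Real.rpow_add_one hx.ne', ← Real.rpow_add_one hx.ne']
      congr 1; ring
    have l4 : ‖f (j + 1) / ((j + 1 : ℕ) : ℂ) + (f (j + 1) - f (j + 1 + 1))‖ ≤
        B * (2 / η + 1) * (j + 1 : ℝ) ^ (η / 2) / (j + 1) := by
      refine (norm_add_le _ _).trans ?_
      rw [norm_div, Complex.norm_natCast, Nat.cast_add_one]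
      calc _ ≤ B * ((j + 1 : ℝ) ^ (η / 2) / (η / 2)) / (j + 1) +
            B * ((j + 1 : ℝ) ^ (η / 2) / (j + 1)) := by
            gcongr
            · exact (h1 j).trans (by gcongr)
            · exact (h2 j).trans (by gcongr)
        _ = _ := by field_simp
    rw [e, norm_mul, norm_div, Complex.norm_natCast]
    calc _ ≤ (A * (j + 1 : ℝ) ^ (1 - η)) *
          (B * (2 / η + 1) * (j + 1 : ℝ) ^ (η / 2) / (j + 1) / (j + 1)) := by
          gcongr
          · simpa using hS (j + 1)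
          · push_cast; linarith
      _ = A * (2 / η + 1) * B *
          ((j + 1 : ℝ) ^ (1 - η) * (j + 1 : ℝ) ^ (η / 2) / (j + 1) / (j + 1)) := by ring
      _ = _ := by rw [l3]; field_simp
  have t3 := (norm_sum_le _ _).trans (sum_le_sum t2)
  rw [← mul_sum] at t3
  have t4 := mul_le_mul_of_nonneg_left (head (half_pos hη) X)
    (show 0 ≤ A * (2 / η + 1) * B by positivity)
  rw [show 1 / (η / 2) = 2 / η by field_simp] at t4
  refine (norm_add_le _ _).trans ?_
  calc _ ≤ A * (1 / η) * B + A * (2 / η + 1) * B * (1 + 2 / η) := add_le_add t1 (t3.trans t4)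
    _ = _ := by ring

/-- the value at one -/
theorem lim {a : ℕ → ℂ} {A η : ℝ} (hη : 0 < η) (hA : 0 ≤ A)
    (hS : ∀ X : ℕ, ‖∑ j ∈ Icc 1 X, a j‖ ≤ A * (X : ℝ) ^ (1 - η)) : ∃ z : ℂ, ∀ X : ℕ, 1 ≤ X →
      ‖∑ j ∈ Icc 1 X, a j / j - z‖ ≤ A * (1 + 1 / η) * (X : ℝ) ^ (-η) := by
  set u : ℕ → ℂ := fun j => (∑ i ∈ Icc 1 (j + 1), a i) *
    (((j + 1 : ℕ) : ℂ)⁻¹ - ((j + 1 + 1 : ℕ) : ℂ)⁻¹) with hu
  have b : ∀ j : ℕ, ‖u j‖ ≤ A * (j + 1 : ℝ) ^ (-1 - η) := by
    intro j
    have hx : (0 : ℝ) < j + 1 := by positivity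
    have hc : (j + 1 : ℂ) ≠ 0 := by exact_mod_cast Nat.succ_ne_zero j
    have hc2 : (j + 1 + 1 : ℂ) ≠ 0 := by exact_mod_cast Nat.succ_ne_zero (j + 1)
    have e : ((j + 1 : ℕ) : ℂ)⁻¹ - ((j + 1 + 1 : ℕ) : ℂ)⁻¹ =
        1 / ((j + 1 : ℕ) : ℂ) / ((j + 1 + 1 : ℕ) : ℂ) := by
      push_cast; field_simp; ring
    have l3 : (j + 1 : ℝ) ^ (1 - η) = (j + 1 : ℝ) ^ (-1 - η) * (j + 1) * (j + 1) := by
      rw [← Real.rpow_add_one hx.ne', ← Real.rpow_add_one hx.ne']
      congr 1; ring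
    simp only [hu]
    rw [e, norm_mul, norm_div, norm_div, Complex.norm_natCast, Complex.norm_natCast, norm_one]
    calc _ ≤ (A * (j + 1 : ℝ) ^ (1 - η)) * (1 / (j + 1) / (j + 1)) := by
          gcongr
          · simpa using hS (j + 1)
          · push_cast; linarith
          · push_cast; linarith
      _ = _ := by rw [l3]; field_simp
  have hs : Summable u := by
    refine Summable.of_norm (summable_of_sum_range_le (c := A * (1 + 1 / η))
      (fun _ => norm_nonneg _) fun n => (sum_le_sum fun j _ => b j).trans ?_)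
    rw [← mul_sum]
    exact mul_le_mul_of_nonneg_left (head hη n) hA
  refine ⟨∑' j, u j, fun X hX => ?_⟩
  have hx : (0 : ℝ) < X := by exact_mod_cast hX
  have t1 : ‖(∑ j ∈ Icc 1 X, a j) * ((X + 1 : ℕ) : ℂ)⁻¹‖ ≤ A * (X : ℝ) ^ (-η) := by
    have l3 : (X : ℝ) ^ (1 - η) = (X : ℝ) ^ (-η) * X := by
      rw [← Real.rpow_add_one hx.ne']
      congr 1; ring
    rw [norm_mul, norm_inv, Complex.norm_natCast]
    calc _ ≤ (A * (X : ℝ) ^ (1 - η)) * (X : ℝ)⁻¹ := by
          gcongr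
          · exact hS X
          · omega
      _ = _ := by rw [l3]; field_simp
  have t2 : ‖∑' j, u (j + X)‖ ≤ A * ((X : ℝ) ^ (-η) / η) := by
    refine le_of_tendsto' ((summable_nat_add_iff X).2 hs).hasSum.tendsto_sum_nat.norm fun n => ?_
    refine (norm_sum_le _ _).trans ((sum_le_sum fun j _ => b (j + X)).trans ?_)
    rw [← mul_sum]
    exact mul_le_mul_of_nonneg_left (tail hη hX n) hA
  have e := abel a (fun j => (j : ℂ)⁻¹) X
  simp only [div_eq_mul_inv (a _)]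
  rw [e, ← hs.sum_add_tsum_nat_add X, add_comm _ (∑ j ∈ range X, _), add_sub_add_left_eq_sub]
  refine (norm_sub_le _ _).trans ((add_le_add t1 t2).trans (le_of_eq ?_))
  ring

theorem sum_term (a : ℕ → ℂ) (s : ℂ) (X : ℕ) : ∑ j ∈ range (X + 1), LSeries.term a s j =
    ∑ j ∈ Icc 1 X, a j / j +
      ∑ j ∈ Icc 1 X, a j * ((Complex.exp (Real.log j * (1 - s)) - 1) / j) := by
  induction X with
  | zero => simp
  | succ X ih =>
    have hx : (0 : ℝ) < ((X + 1 : ℕ) : ℝ) := by positivity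
    have hc : ((X + 1 : ℕ) : ℂ) ≠ 0 := by exact_mod_cast Nat.succ_ne_zero X
    have e1 := cpow_eq_exp hx s
    have e2 := cpow_eq_exp hx 1
    rw [Complex.ofReal_natCast] at e1 e2
    rw [Complex.cpow_one] at e2
    rw [sum_range_succ, ih, sum_Icc_succ_top (by omega), sum_Icc_succ_top (by omega),
      LSeries.term_of_ne_zero (Nat.succ_ne_zero X), e1, mul_sub, Complex.exp_sub, ← e2]
    have h0 := Complex.exp_ne_zero (Real.log ((X + 1 : ℕ) : ℝ) * s)
    rw [add_add_add_comm]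
    congr 1
    field_simp
    ring

end PLIP

open PLIP in
theorem y_lIP : Y_LIP := by
  intro a A η hη hη1 hS
  have hA : 0 ≤ A := by simpa using (norm_nonneg _).trans (hS 1)
  obtain ⟨z, hz⟩ := lim hη hA hS
  set C : ℝ := A * (1 / η + (2 / η + 1) * (1 + 2 / η)) with hC
  have c0 : 0 ≤ C := by positivity
  have c1 : 0 ≤ A * (1 + 1 / η) := by positivity
  have lg : ∀ j : ℕ, 0 ≤ Real.log (j + 1) := fun j =>
    Real.log_nonneg (by linarith [(Nat.cast_nonneg j : (0 : ℝ) ≤ j)])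
  have st : ∀ j : ℕ, |Real.log (j + 1) - Real.log (j + 1 + 1)| ≤ 1 / (j + 1) := by
    intro j
    have h := log_step (x := j + 1) (by linarith [(Nat.cast_nonneg j : (0 : ℝ) ≤ j)])
    have h0 : (0 : ℝ) ≤ 1 / (j + 1 + 1) := by positivity
    rw [abs_sub_comm, abs_of_nonneg (h0.trans h.1)]
    exact h.2
  refine ⟨z, A * (1 + 1 / η) + C, by positivity, fun X hX => ⟨(hz X hX).trans ?_, ?_⟩,
    fun s hs _ hsum => ?_⟩
  · gcongr
    linarith
  · have h := key hη hη1 hA hS (fun j => (Real.log j : ℂ)) zero_le_one (fun j => by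
      rw [Complex.norm_real, Nat.cast_add_one, Real.norm_of_nonneg (lg j), one_mul]) (fun j => by
      rw [← Complex.ofReal_sub, Complex.norm_real, one_mul, Real.norm_eq_abs,
        Nat.cast_add_one (j + 1), Nat.cast_add_one]
      exact st j) X
    simp only [Complex.ofReal_div, Complex.ofReal_natCast]
    linarith
  · have re : ∀ x : ℝ, 0 ≤ x → ((x : ℂ) * (1 - s)).re ≤ 0 := fun x hx => by
      rw [Complex.re_ofReal_mul, Complex.sub_re, Complex.one_re]
      exact mul_nonpos_of_nonneg_of_nonpos hx (by linarith)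
    have h := key hη hη1 hA hS (fun j => Complex.exp (Real.log j * (1 - s)) - 1)
      (norm_nonneg (s - 1)) (fun j => by
        have h := norm_exp_sub (re _ (lg j)) (w := 0) (by simp)
        rw [Complex.exp_zero, sub_zero, norm_mul, Complex.norm_real, Real.norm_of_nonneg (lg j),
          norm_sub_rev 1 s, mul_comm (Real.log _) ‖s - 1‖] at h
        rw [Nat.cast_add_one]
        exact h) (fun j => by
        have l2 := lg (j + 1)
        rw [Nat.cast_add_one] at l2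
        have h := norm_exp_sub (re _ (lg j)) (re _ l2)
        rw [← sub_mul, ← Complex.ofReal_sub, norm_mul, Complex.norm_real, Real.norm_eq_abs,
          norm_sub_rev 1 s] at h
        rw [sub_sub_sub_cancel_right, Nat.cast_add_one (j + 1), Nat.cast_add_one]
        refine h.trans ?_
        rw [mul_comm]
        exact mul_le_mul_of_nonneg_left (st j) (norm_nonneg _))
    have t1 : Tendsto (fun X : ℕ => ∑ j ∈ range (X + 1), LSeries.term a s j) atTop
        (nhds (LSeries a s)) := hsum.hasSum.tendsto_sum_nat.comp (tendsto_add_atTop_nat 1)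
    have t2 : Tendsto (fun X : ℕ => ∑ j ∈ Icc 1 X, a j / j) atTop (nhds z) := by
      refine tendsto_iff_norm_sub_tendsto_zero.2 (squeeze_zero'
        (Eventually.of_forall fun _ => norm_nonneg _) ((eventually_ge_atTop 1).mono hz) ?_)
      simpa using ((tendsto_rpow_neg_atTop hη).comp tendsto_natCast_atTop_atTop).const_mul
        (A * (1 + 1 / η))
    refine (le_of_tendsto' (t1.sub t2).norm fun X => ?_).trans
      (show C * ‖s - 1‖ ≤ _ by gcongr; linarith)
    rw [sum_term, add_sub_cancel_left]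
    exact h X

end Pool.Agent.P.MP_b8021b_nt.BP
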