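import Pool.Agent.P.MP_b8021b_nt.BP.StC
import Pool.Agent.P.MP_b8021b_nt.VC.PWin2
import Pool.Agent.P.MP_b8021b_nt.BS.PoiK

/-! The test function of the off diagonal terms is bounded, Lipschitz and odd. -/

namespace Pool.Agent.P.MP_b8021b_nt.BP

open NumberField IsDedekindDomain Finset MeasureTheory
open Pool.Agent.P.MP_b8021b_nt.VE Pool.Agent.P.MP_b8021b_nt.VC Pool.Agent.P.MP_b8021b_nt.BS.CF
open Pool.Agent.P.MP_b8021b_nt.BS
open scoped Classical ComplexConjugate Real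
variable {k : Type} [Field k] [NumberField k] [Algebra k ℂ] {K : Type} [Field K] [NumberField K] [Algebra k K]

namespace PLIPG

section Vec

variable {ι : Type} [Fintype ι] {a x y : ι → ℝ} {A B W M t : ℝ}

/-- the quadratic form in logarithmic coordinates -/
noncomputable def qf (a x : ι → ℝ) : ℝ := ∑ φ, a φ * Real.exp (-2 * x φ)

/-- the Gaussian divided by the norm -/
noncomputable def ee (a x : ι → ℝ) : ℝ := Real.exp (-2 * ∑ φ, x φ - 2 * π * qf a x)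

/-- balanced and of bounded norm -/
def Near (B W : ℝ) (x : ι → ℝ) : Prop :=
  (∀ φ, Fintype.card ι * x φ ≤ ∑ φ, x φ + B) ∧ 2 * ∑ φ, x φ ≤ W

lemma qf_nonneg (ha : ∀ φ, 0 ≤ a φ) (x : ι → ℝ) : 0 ≤ qf a x :=
  sum_nonneg fun φ _ => mul_nonneg (ha φ) (Real.exp_nonneg _)

lemma abs_sum_sub (h : ∀ φ, |x φ - y φ| ≤ t) :
    |∑ φ, x φ - ∑ φ, y φ| ≤ Fintype.card ι * t := by
  rw [← sum_sub_distrib]
  refine (abs_sum_le_sum_abs _ _).trans ((sum_le_card_nsmul _ _ t fun i _ => h i).trans ?_)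
  simp

lemma Near.close (hx : Near B W x) (h : ∀ φ, |x φ - y φ| ≤ 1) :
    Near (B + 2 * Fintype.card ι) (W + 2 * Fintype.card ι) y := by
  have h1 := abs_le.1 (abs_sum_sub h)
  have hn : (0 : ℝ) ≤ Fintype.card ι := by positivity
  refine ⟨fun φ => ?_, by linarith [hx.2]⟩
  have h2 := mul_le_mul_of_nonneg_left (abs_le.1 (h φ)).1 hn
  linarith [hx.1 φ]

lemma ee_le (hn : (1 : ℝ) ≤ Fintype.card ι) (ha : ∀ φ, 0 ≤ a φ) (hA : 0 < A) (hs : A ≤ ∑ φ, a φ)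
    (h : Near B W x) : ee a x * (1 + qf a x) ≤ (3 * Fintype.card ι : ℝ) ^ (3 * Fintype.card ι : ℝ) *
      A ^ (-(3 * Fintype.card ι : ℝ)) * Real.exp (2 * W + 6 * B) := by
  generalize hn' : (Fintype.card ι : ℝ) = n at hn ⊢
  have hn0 : 0 < n := by linarith
  have hq := qf_nonneg ha x
  have h1 : A * Real.exp (-2 * ((∑ φ, x φ + B) / n)) ≤ qf a x := by
    refine (mul_le_mul_of_nonneg_right hs (Real.exp_nonneg _)).trans ?_
    rw [sum_mul]
    refine sum_le_sum fun φ _ => mul_le_mul_of_nonneg_left (Real.exp_le_exp.2 ?_) (ha φ)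
    have : x φ ≤ (∑ φ, x φ + B) / n := by
      rw [le_div_iff₀' hn0, ← hn']
      exact h.1 φ
    linarith
  have h2 := PoiN.exp_neg_le (t := A * Real.exp (-2 * ((∑ φ, x φ + B) / n))) (B := 3 * n)
    (by positivity) (by positivity)
  rw [Real.mul_rpow hA.le (Real.exp_nonneg _), ← Real.exp_mul,
    show -2 * ((∑ φ, x φ + B) / n) * -(3 * n) = 6 * (∑ φ, x φ + B) by field_simp; ring] at h2
  calc ee a x * (1 + qf a x) ≤ ee a x * Real.exp (qf a x) :=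
        mul_le_mul_of_nonneg_left (by linarith [Real.add_one_le_exp (qf a x)]) (Real.exp_nonneg _)
    _ ≤ Real.exp (-(A * Real.exp (-2 * ((∑ φ, x φ + B) / n)))) * Real.exp (-2 * ∑ φ, x φ) := by
        rw [ee, ← Real.exp_add, ← Real.exp_add, Real.exp_le_exp]
        nlinarith [Real.pi_gt_three]
    _ ≤ (3 * n) ^ (3 * n) * (A ^ (-(3 * n)) * Real.exp (6 * (∑ φ, x φ + B))) *
        Real.exp (-2 * ∑ φ, x φ) := mul_le_mul_of_nonneg_right h2 (Real.exp_nonneg _)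
    _ = (3 * n) ^ (3 * n) * A ^ (-(3 * n)) * Real.exp (6 * (∑ φ, x φ + B) + -2 * ∑ φ, x φ) := by
        rw [Real.exp_add]; ring
    _ ≤ _ := mul_le_mul_of_nonneg_left (Real.exp_le_exp.2 (by linarith [h.2])) (by positivity)

lemma qf_lip (ha : ∀ φ, 0 ≤ a φ) (ht : t ≤ 1) (h : ∀ φ, |x φ - y φ| ≤ t) :
    qf a y - qf a x ≤ 8 * t * qf a x := by
  rw [qf, qf, ← sum_sub_distrib, mul_sum]
  refine sum_le_sum fun φ _ => ?_
  have h1 := abs_le.1 (Real.abs_exp_sub_one_le ((h φ).trans ht))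
  have h2 := h φ
  have h3 := abs_nonneg (x φ - y φ)
  have h4 := Real.exp_pos (x φ - y φ)
  have e : Real.exp (-2 * y φ) =
      Real.exp (-2 * x φ) * (Real.exp (x φ - y φ) * Real.exp (x φ - y φ)) := by
    rw [← Real.exp_add, ← Real.exp_add]
    congr 1
    ring
  have h5 : Real.exp (x φ - y φ) ≤ 1 + 2 * t := by linarith
  have h6 : Real.exp (x φ - y φ) * Real.exp (x φ - y φ) - 1 ≤ 8 * t := by
    have := mul_le_mul h5 h5 h4.le (by linarith)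
    nlinarith
  have h7 := mul_le_mul_of_nonneg_left h6 (mul_nonneg (ha φ) (Real.exp_nonneg (-2 * x φ)))
  rw [e]
  linarith

lemma ee_sub (ha : ∀ φ, 0 ≤ a φ) (h0 : 0 ≤ t) (ht : t ≤ 1) (h : ∀ φ, |x φ - y φ| ≤ t)
    (hM : ee a x * (1 + qf a x) ≤ M) : ee a x - ee a y ≤ (2 * Fintype.card ι + 64) * t * M := by
  have hq := qf_nonneg ha x
  have h1 := abs_le.1 (abs_sum_sub h)
  have h2 := qf_lip ha ht h
  have hn : (0 : ℝ) ≤ Fintype.card ι := by positivity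
  have e : ee a y = ee a x *
      Real.exp (-2 * ∑ φ, y φ - 2 * π * qf a y - (-2 * ∑ φ, x φ - 2 * π * qf a x)) := by
    rw [ee, ee, ← Real.exp_add]
    congr 1
    ring
  have h3 := Real.add_one_le_exp
    (-2 * ∑ φ, y φ - 2 * π * qf a y - (-2 * ∑ φ, x φ - 2 * π * qf a x))
  have h4 : 2 * π * (qf a y - qf a x) ≤ 64 * (t * qf a x) := by
    have := mul_le_mul_of_nonneg_left h2 (by positivity : 0 ≤ 2 * π)
    have := mul_le_mul_of_nonneg_right Real.pi_le_four (mul_nonneg h0 hq)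
    linarith
  have h5 : 1 - Real.exp (-2 * ∑ φ, y φ - 2 * π * qf a y - (-2 * ∑ φ, x φ - 2 * π * qf a x)) ≤
      (2 * Fintype.card ι + 64) * t * (1 + qf a x) := by
    have := mul_nonneg hn (mul_nonneg h0 hq)
    linarith
  have h6 := mul_le_mul_of_nonneg_left h5 (Real.exp_nonneg (-2 * ∑ φ, x φ - 2 * π * qf a x))
  have h7 := mul_le_mul_of_nonneg_left hM (by positivity : 0 ≤ (2 * Fintype.card ι + 64) * t)
  rw [e]
  rw [← ee] at h6
  linarith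

lemma ee_eq (η : ι → ℝ) (ξ : ι → ℂ) {z : ι → ℂ} (hz : ∀ φ, z φ ≠ 0) :
    gau (fun φ => η φ / ‖z φ‖ ^ 2) ξ / nz z = ee (fun φ => η φ * ‖ξ φ‖ ^ 2) (lg z) := by
  rw [Geo.nz_eq hz, gau, ee, ← Real.exp_sub, qf]
  congr 1
  rw [sum_congr rfl fun φ _ => show η φ * ‖ξ φ‖ ^ 2 * Real.exp (-2 * lg z φ) =
    η φ / ‖z φ‖ ^ 2 * ‖ξ φ‖ ^ 2 from ?_]
  · ring
  · rw [show -2 * lg z φ = -(lg z φ + lg z φ) by ring, Real.exp_neg, Real.exp_add, lg,
      Real.exp_log (norm_pos_iff.2 (hz φ))]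
    ring

lemma sum_ge {μ : ℝ} {η : ι → ℝ} (hμ : 0 < μ) (h : ∀ φ, μ ≤ η φ) (ξ : ι → ℂ) :
    μ * ‖ξ‖ ^ 2 ≤ ∑ φ, η φ * ‖ξ φ‖ ^ 2 := by
  have h0 : 0 ≤ ∑ φ, ‖ξ φ‖ ^ 2 := by positivity
  have h1 : ‖ξ‖ ≤ √(∑ φ, ‖ξ φ‖ ^ 2) := (pi_norm_le_iff_of_nonneg (Real.sqrt_nonneg _)).2 fun φ =>
    Real.le_sqrt_of_sq_le (single_le_sum (f := fun φ => ‖ξ φ‖ ^ 2) (fun _ _ => by positivity)
      (mem_univ φ))
  have h2 := (Real.le_sqrt (norm_nonneg _) h0).1 h1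
  refine (mul_le_mul_of_nonneg_left h2 hμ.le).trans ?_
  rw [mul_sum]
  exact sum_le_sum fun φ _ => mul_le_mul_of_nonneg_right (h φ) (by positivity)

lemma ne_of_nz {z : ι → ℂ} (h : nz z ≠ 0) (φ : ι) : z φ ≠ 0 := fun h0 =>
  h (prod_eq_zero (mem_univ φ) (by simp [h0]))

lemma int_odd (φ₀ : ι) (F : (ι → ℝ) → ℂ) : ∫ z : ι → ℂ, dP z * F (fun φ => ‖z φ‖) = 0 := by
  let e : ι → ℂ ≃ᵐ ℂ := fun φ => if φ = φ₀ then MeasurableEquiv.neg ℂ else MeasurableEquiv.refl ℂ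
  have h1 : ∀ φ, MeasurePreserving (e φ) := fun φ => by
    simp only [e]
    split_ifs
    · exact Measure.measurePreserving_neg _
    · exact MeasurePreserving.id _
  have h2 : MeasurePreserving (MeasurableEquiv.piCongrRight e) := volume_preserving_pi h1
  have h3 := h2.integral_comp' fun z : ι → ℂ => dP z * F (fun φ => ‖z φ‖)
  have h4 : ∀ z : ι → ℂ,
      MeasurableEquiv.piCongrRight e z = (fun φ => if φ = φ₀ then -1 else 1) * z := fun z => by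
    funext φ
    show e φ (z φ) = _
    simp only [e, Pi.mul_apply]
    split_ifs <;> simp
  have h5 : ∀ z : ι → ℂ, dP (MeasurableEquiv.piCongrRight e z) *
      F (fun φ => ‖MeasurableEquiv.piCongrRight e z φ‖) = -(dP z * F fun φ => ‖z φ‖) := fun z => by
    rw [h4, dP_mul, show dP (fun φ => if φ = φ₀ then -1 else 1) = -1 by simp [dP, dir],
      show (fun φ => ‖(((fun φ => if φ = φ₀ then -1 else 1) * z : ι → ℂ)) φ‖) = fun φ => ‖z φ‖ from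
        funext fun φ => by simp only [Pi.mul_apply]; split_ifs <;> simp]
    ring
  simp only [h5, integral_neg] at h3
  exact self_eq_neg.1 h3.symm

end Vec

variable {N : ℕ} {ℓ : ℝ} (U : UB k K N ℓ)

lemma near (hn : (1 : ℝ) ≤ Fintype.card (Emb k K)) {z : Emb k K → ℂ} {Z : ℝ} (h : U.β z ≠ 0)
    (h0 : ∀ φ, z φ ≠ 0) (hZ : nz z ≤ Z) :
    Near (Fintype.card (Emb k K) * (U.m * ℓ + 1)) (Real.log Z) (lg z) := by
  have hn0 : (0 : ℝ) < Fintype.card (Emb k K) := by linarith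
  refine ⟨fun φ => ?_, ?_⟩
  · have h1 := (abs_le.1 (Win2.supp_beta U h ((∑ φ, lg z φ) / Fintype.card (Emb k K)) (by
      rw [sum_sub_distrib, sum_const, card_univ, nsmul_eq_mul, mul_div_cancel₀ _ hn0.ne', sub_self,
        abs_zero]
      exact zero_le_one) φ)).2
    have h2 := mul_le_mul_of_nonneg_left h1 hn0.le
    rw [mul_sub, mul_div_cancel₀ _ hn0.ne'] at h2
    linarith
  · rw [Geo.nz_eq h0] at hZ
    exact (Real.le_log_iff_exp_le ((Real.exp_pos _).trans_le hZ)).2 hZ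

lemma gz_eq (ω : ℝ → ℂ) (η : Emb k K → ℝ) (ξ : Emb k K → ℂ) {z : Emb k K → ℂ}
    (hz : ∀ φ, z φ ≠ 0) : gz U ω η ξ z =
      U.β z * dP z * ω (nz z) * (ee (fun φ => η φ * ‖ξ φ‖ ^ 2) (lg z) : ℝ) := by
  rw [gz, ← ee_eq η ξ hz]
  push_cast
  ring

lemma bd_ML : Geo.ML (U.m * 2 + Fintype.card (Emb k K) * (4 * 1))
    fun z => ((U.β z : ℝ) : ℂ) * dP z := by
  simp only [dP_eq_ty]
  exact (Win2.beta_ML U).mul (Win2.ty_ML (fun _ => by simp) fun _ => by simp) (Win2.beta_le U)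
    (Win2.ty_le _ _)

lemma four {p p' w w' : ℂ} {e e' a b d Λ M : ℝ} (hp : ‖p‖ ≤ 1) (hw : ‖w‖ ≤ Λ) (hw' : ‖w'‖ ≤ Λ)
    (he : |e'| ≤ M) (h1 : ‖p' - p‖ ≤ a) (h2 : ‖w' - w‖ ≤ Λ * b) (h3 : |e' - e| ≤ d * M) :
    ‖p' * w' * e' - p * w * e‖ ≤ (a + b + d) * (Λ * M) := by
  have hΛ := (norm_nonneg _).trans hw
  have ha := (norm_nonneg _).trans h1
  have hb := (norm_nonneg _).trans h2
  rw [show p' * w' * e' - p * w * e =
    (p' - p) * w' * e' + p * (w' - w) * e' + p * w * ((e' - e : ℝ) : ℂ) by push_cast; ring]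
  refine (norm_add₃_le).trans ?_
  simp only [norm_mul, Complex.norm_real, Real.norm_eq_abs]
  calc _ ≤ a * Λ * M + 1 * (Λ * b) * M + 1 * Λ * (d * M) := by gcongr
    _ = _ := by ring

end PLIPG

open PLIPG in
theorem y_lIPG (c : Cx k K) : Y_LIPG k K := by
  intro N ℓ U
  have hr : rk k K = Fintype.card (Emb k K) := by rw [c.card_emb]
  have hn : (1 : ℝ) ≤ Fintype.card (Emb k K) := hr ▸ c.one_le_rk
  rw [hr]
  set n : ℝ := (Fintype.card (Emb k K) : ℝ) with hn'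
  set C0 : ℝ := (3 * n) ^ (3 * n) * Real.exp (4 * n + 6 * (n * (U.m * ℓ + 1) + 2 * n)) with hC0
  set K0 : ℝ := U.m * 2 + n * (4 * 1) + 4 * n + (2 * n + 64) * 2 with hK0
  have hC : 0 ≤ C0 := by positivity
  have hK : 1 ≤ K0 := by have : (0 : ℝ) ≤ U.m := by positivity
                         linarith
  refine ⟨max 1 (K0 * C0), le_max_left _ _, fun ω Λ T Z μ η ξ hω hT hμ hη hξ => ?_⟩
  have hΛ : 0 ≤ Λ := (norm_nonneg _).trans (hω.bd 0)
  have hA : 0 < μ * ‖ξ‖ ^ 2 := mul_pos hμ (pow_pos (norm_pos_iff.2 hξ) 2)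
  have ha : ∀ φ, 0 ≤ η φ * ‖ξ φ‖ ^ 2 := fun φ => mul_nonneg (hμ.le.trans (hη φ)) (by positivity)
  set M : ℝ := C0 * Z ^ 2 * (μ * ‖ξ‖ ^ 2) ^ (-(3 * n)) with hM
  have hM0 : 0 ≤ M := by positivity
  have hle : K0 * (Λ * M) ≤ max 1 (K0 * C0) * Λ * Z ^ 2 * (μ * ‖ξ‖ ^ 2) ^ (-(3 * n)) :=
    calc _ = K0 * C0 * Λ * Z ^ 2 * (μ * ‖ξ‖ ^ 2) ^ (-(3 * n)) := by rw [hM]; ring
      _ ≤ _ := by gcongr; exact le_max_right _ _
  have supp : ∀ z, gz U ω η ξ z ≠ 0 → U.β z ≠ 0 ∧ T ≤ nz z ∧ nz z ≤ Z := fun z hz =>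
    ⟨fun h => hz (by simp [gz, h]), hω.supp _ fun h => hz (by simp [gz, h])⟩
  have ne : ∀ z, gz U ω η ξ z ≠ 0 → ∀ φ, z φ ≠ 0 := fun z hz =>
    ne_of_nz (hT.trans_le (supp z hz).2.1).ne'
  have key : ∀ z, gz U ω η ξ z ≠ 0 → ∀ y : Emb k K → ℝ, (∀ φ, |lg z φ - y φ| ≤ 1) →
      ee (fun φ => η φ * ‖ξ φ‖ ^ 2) y * (1 + qf (fun φ => η φ * ‖ξ φ‖ ^ 2) y) ≤ M := by
    intro z hz y hy
    obtain ⟨h1, h2, h3⟩ := supp z hz
    refine (ee_le hn ha hA (sum_ge hμ hη ξ) ((near U hn h1 (ne z hz) h3).close hy)).trans_eq ?_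
    rw [hM, hC0, ← hn', ← Real.exp_log (hT.trans_le (h2.trans h3)), ← Real.exp_nat_mul,
      Real.log_exp, show 2 * (Real.log Z + 2 * n) + 6 * (n * (U.m * ℓ + 1) + 2 * n) =
        4 * n + 6 * (n * (U.m * ℓ + 1) + 2 * n) + (2 : ℕ) * Real.log Z by push_cast; ring,
      Real.exp_add]
    ring
  have bd1 : ∀ y : Emb k K → ℝ, ee (fun φ => η φ * ‖ξ φ‖ ^ 2) y *
      (1 + qf (fun φ => η φ * ‖ξ φ‖ ^ 2) y) ≤ M → |ee (fun φ => η φ * ‖ξ φ‖ ^ 2) y| ≤ M := by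
    intro y hy
    rw [abs_of_nonneg (show 0 ≤ ee _ y from Real.exp_nonneg _)]
    exact (le_mul_of_one_le_right (Real.exp_nonneg _) (by linarith [qf_nonneg ha y])).trans hy
  have bp : ∀ z, ‖((U.β z : ℝ) : ℂ) * dP z‖ ≤ 1 := fun z => by
    rw [norm_mul]
    exact mul_le_one₀ (Win2.beta_le U z) (norm_nonneg _) (norm_dP_le z)
  refine ⟨supp, fun z => le_trans ?_ hle, fun z z' δ hz h0 h1 h2 => ?_, ?_⟩
  · by_cases hz : gz U ω η ξ z = 0
    · rw [hz, norm_zero]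
      positivity
    · have h1 := bd1 _ (key z hz (lg z) fun φ => by simp)
      rw [gz_eq U ω η ξ (ne z hz), norm_mul, norm_mul, Complex.norm_real, Real.norm_eq_abs]
      calc _ ≤ K0 * Λ * M := by
            gcongr
            exacts [(bp z).trans hK, hω.bd _]
        _ = _ := by ring
  · refine le_trans ?_ (mul_le_mul_of_nonneg_right hle h0)
    have hz' : ∀ φ, z' φ ≠ 0 := fun φ => Geo.close_ne h1 (hz φ) (h2 φ)
    have l1 : ∀ φ, |lg z' φ - lg z φ| ≤ 2 * δ := fun φ => Geo.log_close h0 h1 (hz φ) (h2 φ)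
    have l2 : ∀ φ, |lg z φ - lg z' φ| ≤ 2 * δ := fun φ => by rw [abs_sub_comm]; exact l1 φ
    have hδ : 2 * δ ≤ 1 := by linarith
    by_cases hb : gz U ω η ξ z = 0 ∧ gz U ω η ξ z' = 0
    · rw [hb.1, hb.2, sub_self, norm_zero]
      positivity
    obtain ⟨k1, k2⟩ : ee (fun φ => η φ * ‖ξ φ‖ ^ 2) (lg z) *
        (1 + qf (fun φ => η φ * ‖ξ φ‖ ^ 2) (lg z)) ≤ M ∧ ee (fun φ => η φ * ‖ξ φ‖ ^ 2) (lg z') *
        (1 + qf (fun φ => η φ * ‖ξ φ‖ ^ 2) (lg z')) ≤ M := by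
      rcases not_and_or.1 hb with h | h
      · exact ⟨key z h _ fun φ => by simp, key z h _ fun φ => (l2 φ).trans hδ⟩
      · exact ⟨key z' h _ fun φ => (l1 φ).trans hδ, key z' h _ fun φ => by simp⟩
    rw [gz_eq U ω η ξ hz, gz_eq U ω η ξ hz']
    refine (four (b := 4 * n * δ) (d := (2 * n + 64) * (2 * δ)) (bp z) (hω.bd _) (hω.bd _)
      (bd1 _ k2) (bd_ML U z z' δ h0 h1 fun φ => ⟨hz φ, h2 φ⟩) ?_ ?_).trans_eq ?_
    · rw [Geo.nz_eq hz, Geo.nz_eq hz']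
      refine (hω.lip _ _ (Real.exp_pos _) (Real.exp_pos _)).trans
        (mul_le_mul_of_nonneg_left ?_ hΛ)
      rw [Real.log_exp, Real.log_exp, ← mul_sub, abs_mul, abs_two]
      linarith [abs_sum_sub l1]
    · exact abs_sub_le_iff.2 ⟨ee_sub ha (by linarith) hδ l1 k2, ee_sub ha (by linarith) hδ l2 k1⟩
    · rw [hK0]
      ring
  · have hne : Nonempty (Emb k K) := Fintype.card_pos_iff.1 (Nat.cast_pos.1 (one_pos.trans_le hn))
    rw [← int_odd hne.some fun x => (U.β fun φ => x φ) * (ω (nz fun φ => x φ) /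
      (nz (fun φ => x φ) : ℝ)) * (gau (fun φ => η φ / x φ ^ 2) ξ : ℝ)]
    refine integral_congr_ae (.of_forall fun z => ?_)
    have e1 : (U.β fun φ => (‖z φ‖ : ℂ)) = U.β z := by
      unfold UB.β lg
      simp only [Complex.norm_real, norm_norm]
    have e2 : (nz fun φ => (‖z φ‖ : ℂ)) = nz z := by
      unfold nz
      simp only [Complex.norm_real, norm_norm]
    simp only [gz, e1, e2]
    ring

end Pool.Agent.P.MP_b8021b_nt.BP
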