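import Pool.Agent.P.MP_b8021b_nt.BP.StC

/-! The amplified large sieve inequality. -/

namespace Pool.Agent.P.MP_b8021b_nt.BP

open NumberField IsDedekindDomain Finset MeasureTheory
open Pool.Agent.P.MP_b8021b_nt.VE Pool.Agent.P.MP_b8021b_nt.VC Pool.Agent.P.MP_b8021b_nt.BS.CF
open Pool.Agent.P.MP_b8021b_nt.BS
open scoped Classical ComplexConjugate Real

variable {k : Type} [Field k] [NumberField k] [Algebra k ℂ] {K : Type} [Field K] [NumberField K]
  [Algebra k K]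

namespace PLSH

set_option linter.unusedSectionVars false

variable {n : ℕ} {𝒜 : Finset (Pl K)} {C y : ℝ} {T : Finset (𝓞 K)}

theorem bal_prod {ι : Type} (s : Finset ι) (f : ι → 𝓞 K) (hy : 0 ≤ y)
    (h : ∀ i ∈ s, Bal k C y (f i)) : Bal k (C ^ s.card) (y ^ s.card) (∏ i ∈ s, f i) := by
  induction s using Finset.induction_on with
  | empty => intro φ; simp [emb]
  | insert a s ha ih =>
    rw [prod_insert ha, card_insert_of_notMem ha, pow_succ', pow_succ']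
    exact (h a (mem_insert_self a s)).mul (ih fun i hi => h i (mem_insert_of_mem hi)) hy
      (by positivity)

theorem dvd_prod {ι : Type} (s : Finset ι) (f : ι → 𝓞 K) (m : 𝓞 K) (h : ∀ i ∈ s, m ∣ f i - 1) :
    m ∣ ∏ i ∈ s, f i - 1 := by
  induction s using Finset.induction_on with
  | empty => simp
  | insert a s ha ih =>
    rw [prod_insert ha, show f a * ∏ i ∈ s, f i - 1 =
      (f a - 1) * ∏ i ∈ s, f i + (∏ i ∈ s, f i - 1) by ring]
    exact ((h a (mem_insert_self a s)).mul_right _).add (ih fun i hi => h i (mem_insert_of_mem hi))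

theorem card_pr_prod {ι : Type} (s : Finset ι) (f : ι → 𝓞 K)
    (h : ∀ i ∈ s, f i ≠ 0 ∧ (pr (f i)).card ≤ 3) : (pr (∏ i ∈ s, f i)).card ≤ 3 * s.card := by
  induction s using Finset.induction_on with
  | empty =>
    rw [prod_empty, ← prI_sp, show sp (1 : 𝓞 K) = ⊤ by simp, ← eI_empty, prI_eI]
    simp
  | insert a s ha ih =>
    have h1 := h a (mem_insert_self a s)
    have h2 := fun i hi => h i (mem_insert_of_mem hi)
    rw [prod_insert ha, card_insert_of_notMem ha,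
      pr_mul h1.1 (prod_ne_zero_iff.2 fun i hi => (h2 i hi).1)]
    have := ih h2
    have := card_union_le (pr (f a)) (pr (∏ i ∈ s, f i))
    omega

/-- the members of a block that divide a given integer -/
theorem card_dvd (h : Blk k n 𝒜 C y T) {w : 𝓞 K} (hw : w ≠ 0) :
    (T.filter fun t => t ∣ w).card ≤ (pr w).card * 2 ^ 𝒜.card := by
  rw [← card_powerset, ← card_product]
  refine le_trans ?_ (card_image_le (f := fun p : Pl K × Finset (Pl K) => p.1.asIdeal * eI p.2))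
  refine card_le_card_of_injOn sp (fun t ht => ?_)
    (h.inj.mono fun t ht => mem_coe.2 (mem_filter.1 (mem_coe.1 ht)).1)
  obtain ⟨h1, h2⟩ := mem_filter.1 (mem_coe.1 ht)
  obtain ⟨v, a, e1, -, e2, -⟩ := h.dec t h1
  refine mem_coe.2 (mem_image.2 ⟨(v, a), mem_product.2 ⟨(mem_pr hw).2 ?_, mem_powerset.2 e1⟩,
    e2.symm⟩)
  have e3 : sp t ≤ v.asIdeal := by rw [e2]; exact Ideal.mul_le_left
  exact v.asIdeal.mem_of_dvd h2 (e3 (Ideal.mem_span_singleton_self t))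

/-- the size of the fibres of the product map -/
theorem fibre (h : Blk k n 𝒜 C y T) (j : ℕ) {w : 𝓞 K}
    (hw : w ∈ (Fintype.piFinset fun _ : Fin j => T).image fun f => ∏ i, f i) :
    ((Fintype.piFinset fun _ : Fin j => T).filter fun f => ∏ i, f i = w).card ≤
      (3 * j * 2 ^ 𝒜.card) ^ j := by
  obtain ⟨g, hg, rfl⟩ := mem_image.1 hw
  have hg' := Fintype.mem_piFinset.1 hg
  have h0 : ∏ i, g i ≠ 0 := prod_ne_zero_iff.2 fun i _ => (h.pri _ (hg' i)).ne_zero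
  have h1 := card_pr_prod univ g fun i _ => ⟨(h.pri _ (hg' i)).ne_zero, h.card_pr (hg' i)⟩
  rw [card_univ, Fintype.card_fin] at h1
  refine (card_le_card (t := Fintype.piFinset fun _ : Fin j => T.filter fun t => t ∣ ∏ i, g i)
    fun f hf => ?_).trans ?_
  · obtain ⟨e1, e2⟩ := mem_filter.1 hf
    exact Fintype.mem_piFinset.2 fun i => mem_filter.2
      ⟨Fintype.mem_piFinset.1 e1 i, e2 ▸ dvd_prod_of_mem f (mem_univ i)⟩
  · rw [Fintype.card_piFinset, prod_const, card_univ, Fintype.card_fin]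
    exact Nat.pow_le_pow_left ((card_dvd h h0).trans (Nat.mul_le_mul_right _ h1)) j

/-- the coefficients of the power -/
noncomputable def bw (T : Finset (𝓞 K)) (a : 𝓞 K → ℂ) (j : ℕ) (w : 𝓞 K) : ℂ :=
  ∑ f ∈ (Fintype.piFinset fun _ : Fin j => T).filter fun f => ∏ i, f i = w, ∏ i, a (f i)

theorem pow_eq (T : Finset (𝓞 K)) (a : 𝓞 K → ℂ) (j : ℕ) {I : Ideal (𝓞 K)} (hI : I ≠ ⊥) :
    (∑ t ∈ T, a t * jac t I) ^ j =
      ∑ w ∈ (Fintype.piFinset fun _ : Fin j => T).image fun f => ∏ i, f i,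
        bw T a j w * jac w I := by
  rw [sum_pow', ← sum_fiberwise_of_maps_to (g := fun f : Fin j → 𝓞 K => ∏ i, f i)
    fun f hf => mem_image_of_mem _ hf]
  refine sum_congr rfl fun w _ => ?_
  rw [bw, sum_mul]
  refine sum_congr rfl fun f hf => ?_
  rw [← (mem_filter.1 hf).2, jac_prod_left _ _ hI, prod_mul_distrib]

theorem sum_bw (h : Blk k n 𝒜 C y T) {a : 𝓞 K → ℂ} (ha : ∀ t, ‖a t‖ ≤ 1) (j : ℕ) :
    ∑ w ∈ (Fintype.piFinset fun _ : Fin j => T).image fun f => ∏ i, f i, ‖bw T a j w‖ ^ 2 ≤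
      ((3 * j * 2 ^ 𝒜.card) ^ j : ℕ) * (T.card : ℝ) ^ j := by
  have e : (T.card : ℝ) ^ j = (Fintype.piFinset fun _ : Fin j => T).card := by
    rw [Fintype.card_piFinset, prod_const, card_univ, Fintype.card_fin, Nat.cast_pow]
  rw [e, card_eq_sum_card_image (fun f : Fin j → 𝓞 K => ∏ i, f i), Nat.cast_sum, mul_sum]
  refine sum_le_sum fun w hw => ?_
  have h1 : ‖bw T a j w‖ ≤
      ((Fintype.piFinset fun _ : Fin j => T).filter fun f => ∏ i, f i = w).card := by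
    rw [card_eq_sum_ones, Nat.cast_sum]
    refine norm_sum_le_of_le _ fun f _ => ?_
    rw [norm_prod, Nat.cast_one]
    exact prod_le_one (fun _ _ => norm_nonneg _) fun _ _ => ha _
  rw [sq]
  exact mul_le_mul (h1.trans (Nat.cast_le.2 (fibre h j hw))) h1 (norm_nonneg _) (Nat.cast_nonneg _)

end PLSH

open PLSH in
theorem y_lSH (c : Cx k K) : Y_LSH k K := by
  intro n 𝒜 C₀ j hn hj
  obtain ⟨m, rfl⟩ : ∃ m, j = m + 1 := ⟨j - 1, by omega⟩
  obtain ⟨C₁, h1, H1⟩ := c.ls1 n hn (C₀ ^ (m + 1))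
  obtain ⟨C₂, h2, H2⟩ := c.cnt.1
  have hA := one_le_nS 𝒜
  obtain ⟨M, hM⟩ : ∃ M : ℕ, M = (3 * (m + 1) * 2 ^ 𝒜.card) ^ (m + 1) := ⟨_, rfl⟩
  have M1 : (1 : ℝ) ≤ M := by rw [hM]; exact Nat.one_le_cast.2 (Nat.succ_le_of_lt (by positivity))
  have D1 : 1 ≤ C₂ ^ m * (C₁ * 2 * (M * (C₂ * nS 𝒜) ^ (m + 1))) :=
    one_le_mul_of_one_le_of_one_le (one_le_pow₀ h2) (one_le_mul_of_one_le_of_one_le (by linarith)
      (one_le_mul_of_one_le_of_one_le M1 (one_le_pow₀ (one_le_mul_of_one_le_of_one_le h2 hA))))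
  refine ⟨_, 1, D1, fun y N T 𝒩 a hy hT hN hNy h𝒩 ha => ?_⟩
  have y0 : 0 < y := by linarith
  have N0 : 0 < N := by linarith
  have hr := c.one_le_rk
  have Y1 : 1 ≤ y ^ (m + 1) := one_le_pow₀ hy
  have e1 : y ^ ((m + 1 : ℕ) / 2 : ℝ) = (y ^ (m + 1)) ^ (1 / 2 : ℝ) := by
    rw [← Real.rpow_natCast, ← Real.rpow_mul y0.le, mul_one_div]
  rw [e1] at hNy
  have hN2 : N ^ 2 ≤ y ^ (m + 1) := by
    refine (pow_le_pow_left₀ N0.le hNy 2).trans (le_of_eq ?_)
    rw [← Real.sqrt_eq_rpow, Real.sq_sqrt (by positivity)]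
  have L := hs_of_hl (H1 ((Fintype.piFinset fun _ : Fin (m + 1) => T).image fun f => ∏ i, f i) 𝒩
    (y ^ (m + 1)) N Y1 N0.le (hNy.trans (Real.rpow_le_rpow_of_exponent_le Y1
      (le_add_of_nonneg_right (by positivity)))) (fun w hw => by
      obtain ⟨f, hf, rfl⟩ := mem_image.1 hw
      have hf' := Fintype.mem_piFinset.1 hf
      refine ⟨dvd_prod _ _ _ fun i _ =>
        ((hT.pri _ (hf' i)).mono (dvd_pow_self n two_ne_zero)).1, ?_⟩
      have := bal_prod (k := k) univ f y0.le fun i _ => hT.bal _ (hf' i)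
      rwa [card_univ, Fintype.card_fin] at this) h𝒩) (by positivity) (bw T a (m + 1))
  have hb := sum_bw hT ha (m + 1)
  rw [← hM] at hb
  have hI : ∀ I ∈ 𝒩, I ≠ ⊥ := fun I e => (h𝒩 I e).1.ne_zero
  have c1 := H2 N 𝒩 N0.le fun I e => ⟨hI I e, (h𝒩 I e).2⟩
  have c2 : (T.card : ℝ) ≤ C₂ * (y * nS 𝒜) := by
    rw [← card_image_of_injOn hT.inj]
    refine H2 _ _ (by positivity) fun I e => ?_
    obtain ⟨t, ht, rfl⟩ := mem_image.1 e
    exact ⟨(hT.pri t ht).2.ne_zero, hT.NN_le ht⟩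
  have c3 : (N ^ 2 / y ^ (m + 1)) ^ (3 / 4 : ℝ) ≤ 1 :=
    Real.rpow_le_one (by positivity) ((div_le_one (by positivity)).2 hN2) (by norm_num)
  have P := pow_sum_le_card_mul_sum_pow (s := 𝒩)
    (f := fun I => ‖∑ t ∈ T, a t * jac t I‖ ^ 2) (fun _ _ => by positivity) m
  have e2 : ∑ I ∈ 𝒩, (‖∑ t ∈ T, a t * jac t I‖ ^ 2) ^ (m + 1) = ∑ I ∈ 𝒩,
      ‖∑ w ∈ (Fintype.piFinset fun _ : Fin (m + 1) => T).image fun f => ∏ i, f i,
        bw T a (m + 1) w * jac w I‖ ^ 2 := sum_congr rfl fun I e => by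
    rw [← pow_eq T a (m + 1) (hI I e), norm_pow, ← pow_mul, ← pow_mul, mul_comm]
  rw [e2] at P
  have e3 : (N ^ (1 - 1 / ((m + 1 : ℕ) : ℝ))) ^ (m + 1) = N ^ m := by
    rw [← Real.rpow_mul_natCast N0.le, ← Real.rpow_natCast]
    congr 1
    push_cast
    field_simp
    ring
  refine le_of_pow_le_pow_left₀ (Nat.succ_ne_zero m) (by positivity) (P.trans ?_)
  rw [Nat.succ_eq_add_one, mul_pow, mul_pow, e3]
  calc _ ≤ (C₂ * N) ^ m * (C₁ * y ^ (m + 1) * (1 + 1) * (M * (C₂ * (y * nS 𝒜)) ^ (m + 1))) := by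
        refine mul_le_mul (by gcongr) (L.trans (mul_le_mul (by gcongr) (hb.trans (by gcongr))
          (sum_nonneg fun _ _ => by positivity) (by positivity)))
          (sum_nonneg fun _ _ => by positivity) (by positivity)
    _ = C₂ ^ m * (C₁ * 2 * (M * (C₂ * nS 𝒜) ^ (m + 1))) * N ^ m * (y ^ 2) ^ (m + 1) := by
        simp only [mul_pow]; ring
    _ ≤ _ := by
        gcongr
        exact le_self_pow₀ D1 (Nat.succ_ne_zero m)

end Pool.Agent.P.MP_b8021b_nt.BP
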