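import Pool.Agent.P.MP_b8021b_nt.BP.StC

/-! The Fourier transform of the chirp. -/

namespace Pool.Agent.P.MP_b8021b_nt.BP

open NumberField IsDedekindDomain Finset MeasureTheory
open Pool.Agent.P.MP_b8021b_nt.VE Pool.Agent.P.MP_b8021b_nt.VC Pool.Agent.P.MP_b8021b_nt.BS.CF
open Pool.Agent.P.MP_b8021b_nt.BS
open scoped Classical ComplexConjugate Real

namespace PLSa

theorem prod_int (f g : ℝ → ℂ) : ∫ w : ℂ, f w.re * g w.im = (∫ u, f u) * ∫ v, g v := by
  rw [← integral_prod_mul, ← Measure.volume_eq_prod,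
    ← Complex.volume_preserving_equiv_real_prod.integral_comp' fun p : ℝ × ℝ => f p.1 * g p.2]
  rfl

theorem half_mul {x : ℂ} (hx : 0 < x.re) : x ^ (1 / 2 : ℂ) * conj x ^ (1 / 2 : ℂ) = (‖x‖ : ℝ) := by
  have h : x.arg ≠ π := fun e => by linarith [(Complex.arg_eq_pi_iff.1 e).1]
  have e : conj (1 / 2 : ℂ) = 1 / 2 := by simp [map_ofNat]
  have e' : (1 / 2 : ℂ) = ((1 / 2 : ℝ) : ℂ) := by push_cast; rfl
  rw [Complex.conj_cpow _ _ h, e, Complex.mul_conj', e', Complex.norm_cpow_real,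
    ← Real.sqrt_eq_rpow, ← Complex.ofReal_pow, Real.sq_sqrt (norm_nonneg _)]

/-- the case of a positive real parameter -/
theorem core {ε r : ℝ} (hε : 0 < ε) (hr : 0 < r) (η : ℂ) :
    ∫ w : ℂ, (Real.exp (-(2 * π) * ε * ‖w‖ ^ 2) : ℝ) *
      Complex.exp (2 * π * Complex.I * (2 * (w ^ 2 / r).re : ℝ)) *
      Complex.exp (-(2 * π * Complex.I) * (2 * (w * η).re : ℝ)) = chp ε r η := by
  obtain ⟨A, hA⟩ : ∃ A : ℂ, A = ε - 2 / r * Complex.I := ⟨_, rfl⟩
  have hB : conj A = ε + 2 / r * Complex.I := by simp [hA, map_ofNat]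
  have r0 : (r : ℂ) ≠ 0 := by exact_mod_cast hr.ne'
  have p0 : (π : ℂ) ≠ 0 := by exact_mod_cast Real.pi_ne_zero
  have a1 : A.re = ε := by simp [hA, Complex.div_ofReal_im]
  have A0 : A ≠ 0 := fun e => by rw [e] at a1; exact hε.ne a1
  have B0 : conj A ≠ 0 := by simpa using A0
  have hD : chD ε r = ε ^ 2 + 4 / r ^ 2 := by
    rw [chD, Complex.norm_real, Real.norm_of_nonneg hr.le]
  have D0 : 0 < chD ε r := by rw [hD]; positivity
  have hAB : A * conj A = (chD ε r : ℝ) := by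
    rw [hB, hA, hD]
    push_cast
    linear_combination (-4 / (r : ℂ) ^ 2) * Complex.I_sq
  have nA : ‖A‖ = √(chD ε r) := by
    rw [Complex.mul_conj', ← Complex.ofReal_pow, Complex.ofReal_inj] at hAB
    rw [← hAB, Real.sqrt_sq (norm_nonneg _)]
  have e : ∀ w : ℂ, (Real.exp (-(2 * π) * ε * ‖w‖ ^ 2) : ℝ) *
      Complex.exp (2 * π * Complex.I * (2 * (w ^ 2 / r).re : ℝ)) *
      Complex.exp (-(2 * π * Complex.I) * (2 * (w * η).re : ℝ)) =
      Complex.exp (-(2 * π * A) * (w.re : ℂ) ^ 2 + -(4 * π * Complex.I * η.re) * w.re + 0) *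
      Complex.exp (-(2 * π * conj A) * (w.im : ℂ) ^ 2 + 4 * π * Complex.I * η.im * w.im + 0) := by
    intro w
    rw [Complex.ofReal_exp, ← Complex.exp_add, ← Complex.exp_add, ← Complex.exp_add, hB, hA,
      Complex.sq_norm, Complex.normSq_apply, Complex.div_ofReal_re, sq w, Complex.mul_re,
      Complex.mul_re]
    congr 1
    push_cast
    ring
  have h1 : (-(2 * π * A)).re < 0 := by
    have : (-(2 * π * A)).re = -(2 * π * ε) := by simp [a1]
    rw [this, neg_lt_zero]; positivity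
  have h2 : (-(2 * π * conj A)).re < 0 := by
    have : (-(2 * π * conj A)).re = -(2 * π * ε) := by simp [a1]
    rw [this, neg_lt_zero]; positivity
  have e1 : (π : ℂ) / -(-(2 * π * A)) = (2 * A)⁻¹ := by field_simp
  have e2 : (π : ℂ) / -(-(2 * π * conj A)) = conj (2 * A)⁻¹ := by
    rw [map_inv₀, map_mul, map_ofNat]; field_simp
  have h3 : 0 < ((2 * A)⁻¹).re := by
    rw [Complex.inv_re]
    exact div_pos (by simpa [a1] using hε) (Complex.normSq_pos.2 (mul_ne_zero two_ne_zero A0))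
  simp only [e]
  rw [prod_int (fun u : ℝ => Complex.exp (-(2 * π * A) * (u : ℂ) ^ 2 +
      -(4 * π * Complex.I * η.re) * u + 0)) fun v : ℝ =>
      Complex.exp (-(2 * π * conj A) * (v : ℂ) ^ 2 + 4 * π * Complex.I * η.im * v + 0),
    integral_cexp_quadratic h1, integral_cexp_quadratic h2, e1, e2, mul_mul_mul_comm, half_mul h3,
    norm_inv, norm_mul, nA, Complex.norm_ofNat, chp, Complex.ofReal_mul,
    Complex.ofReal_exp, ← Complex.exp_add, mul_assoc (((2 * √(chD ε r))⁻¹ : ℝ) : ℂ),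
    ← Complex.exp_add]
  congr 2
  rw [Complex.norm_real, Real.norm_of_nonneg hr.le, Complex.re_ofReal_mul, sq η, Complex.mul_re,
    Complex.sq_norm, Complex.normSq_apply]
  push_cast
  rw [← hAB]
  field_simp
  rw [hB, hA]
  field_simp
  linear_combination (4 * π * r * ((η.re : ℂ) ^ 2 * (ε * r + 2 * Complex.I) +
    (η.im : ℂ) ^ 2 * (ε * r - 2 * Complex.I))) * Complex.I_sq

end PLSa

open PLSa in
theorem y_lSa : Y_LSa := by
  intro ε g ξ hε hg
  have hr : 0 < ‖g‖ := norm_pos_iff.2 hg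
  have r0 : (‖g‖ : ℂ) ≠ 0 := by exact_mod_cast hr.ne'
  obtain ⟨ω, hω⟩ : ∃ ω : Circle, g = ‖g‖ * (ω : ℂ) ^ 2 := ⟨Circle.exp (g.arg / 2), by
    rw [Circle.coe_exp, ← Complex.exp_nat_mul]
    conv_lhs => rw [← Complex.norm_mul_exp_arg_mul_I g]
    congr 2
    push_cast
    ring⟩
  have ω0 : (ω : ℂ) ≠ 0 := ω.coe_ne_zero
  rw [← (rotation ω).measurePreserving.integral_comp (rotation ω).toHomeomorph.measurableEmbedding]
  have e : chp ε g ξ = chp ε (‖g‖ : ℝ) (ω * ξ) := by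
    have e1 : chD ε g = chD ε (‖g‖ : ℝ) := by simp [chD]
    have e2 : g * ξ ^ 2 = (‖g‖ : ℝ) * (ω * ξ) ^ 2 := by rw [mul_pow, ← mul_assoc, ← hω]
    rw [chp, chp, e1, e2, norm_mul, Circle.norm_coe, one_mul, Complex.norm_real, norm_norm]
  rw [e, ← core hε hr]
  refine integral_congr_ae (Filter.Eventually.of_forall fun w => ?_)
  have e3 : ((ω : ℂ) * w) ^ 2 / g = w ^ 2 / (‖g‖ : ℝ) := by
    conv_lhs => rw [hω]
    field_simp
  simp only [rotation_apply]
  rw [e3, norm_mul, Circle.norm_coe, one_mul, mul_comm (ω : ℂ) w, mul_assoc w]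

end Pool.Agent.P.MP_b8021b_nt.BP
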