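import Pool.Agent.P.MP_b8021b_nt.BP.StC
import Pool.Agent.P.MP_b8021b_nt.BS.PoiO

/-! Poisson summation for the chirp. -/

namespace Pool.Agent.P.MP_b8021b_nt.BP

open NumberField IsDedekindDomain Finset MeasureTheory
open Pool.Agent.P.MP_b8021b_nt.VE Pool.Agent.P.MP_b8021b_nt.VC Pool.Agent.P.MP_b8021b_nt.BS.CF
open Pool.Agent.P.MP_b8021b_nt.BS
open scoped Classical ComplexConjugate Real
variable {k : Type} [Field k] [NumberField k] [Algebra k ℂ] {K : Type} [Field K] [NumberField K]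
  [Algebra k K]

namespace PLSb

/-- the chirp in one variable -/
noncomputable def ch (ε : ℝ) (g z : ℂ) : ℂ :=
  (Real.exp (-(2 * π) * ε * ‖z‖ ^ 2) : ℝ) * PoiN.ee (2 * (z ^ 2 / g).re)

theorem cont_ch (ε : ℝ) (g : ℂ) : Continuous (ch ε g) := by
  unfold ch PoiN.ee
  fun_prop

theorem dec_ch {ε : ℝ} (hε : 0 < ε) (g : ℂ) : PoiN.Dec (ch ε g) := by
  obtain ⟨C, hC⟩ := PoiN.dec_gau 0 hε
  refine ⟨C, fun z => le_of_eq_of_le ?_ (hC z)⟩
  rw [ch, PoiN.gau, norm_mul, PoiN.norm_ee, pow_zero, one_mul, mul_one]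
  congr 3
  ring

theorem chD_pos {ε : ℝ} (hε : 0 < ε) (g : ℂ) : 0 < chD ε g := by
  unfold chD
  positivity

theorem dec_chp {ε : ℝ} (hε : 0 < ε) (g : ℂ) : PoiN.Dec (chp ε g) := by
  have hD := chD_pos hε g
  obtain ⟨C, hC⟩ := PoiN.dec_gau 0 (div_pos hε hD)
  refine ⟨(2 * √(chD ε g))⁻¹ * C, fun z => ?_⟩
  have h1 : ∀ t : ℝ, ‖Complex.exp (-(2 * π * Complex.I) * (t : ℂ))‖ = 1 := fun t => by
    rw [← PoiN.norm_ee (-t), PoiN.ee]
    congr 2
    push_cast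
    ring
  have h2 : 0 ≤ (2 * √(chD ε g))⁻¹ := by positivity
  have h3 := hC z
  rw [PoiN.gau, pow_zero, one_mul, Complex.norm_real, Real.norm_of_nonneg (Real.exp_pos _).le] at h3
  rw [chp, norm_mul, h1, mul_one, Complex.norm_real,
    Real.norm_of_nonneg (mul_nonneg h2 (Real.exp_pos _).le), mul_assoc _ C]
  refine mul_le_mul_of_nonneg_left (le_of_eq_of_le ?_ h3) h2
  congr 1
  ring

theorem ft_ch (hLSa : Y_LSa) {ε : ℝ} (hε : 0 < ε) {g : ℂ} (hg : g ≠ 0) (ξ : ℂ) :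
    ∫ z : ℂ, ch ε g z * PoiN.ee (-(2 * (z * ξ).re)) = chp ε g ξ := by
  rw [← hLSa ε g ξ hε hg]
  refine integral_congr_ae (Filter.Eventually.of_forall fun z => ?_)
  simp only [ch, PoiN.ee]
  congr 2
  push_cast
  ring

theorem ft_prod {J : Type} [Fintype J] (hLSa : Y_LSa) {ε : ℝ} (hε : 0 < ε) {g : J → ℂ}
    (hg : ∀ φ, g φ ≠ 0) (κ : J → ℂ) :
    ∫ z : J → ℂ, (∏ φ, ch ε (g φ) (z φ)) * PoiN.ee (-PoiN.BB z κ) = ∏ φ, chp ε (g φ) (κ φ) := by
  have : ∀ z : J → ℂ, (∏ φ, ch ε (g φ) (z φ)) * PoiN.ee (-PoiN.BB z κ) =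
      ∏ φ, ch ε (g φ) (z φ) * PoiN.ee (-(2 * (z φ * κ φ).re)) := by
    intro z
    rw [PoiN.BB, ← Finset.sum_neg_distrib, PoiN.ee_sum, ← Finset.prod_mul_distrib]
  simp only [this]
  rw [integral_fintype_prod_volume_eq_prod
    (fun φ (z : ℂ) => ch ε (g φ) z * PoiN.ee (-(2 * (z * κ φ).re)))]
  exact Finset.prod_congr rfl fun φ _ => ft_ch hLSa hε (hg φ) _

theorem prod_ch (B : BF k) (ε : ℝ) (γ y : 𝓞 K) :
    ∏ φ : Emb k K, ch ε (emb k γ φ) (PoiN.embE k ((y : K) + 0) φ) =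
      etr ((y : K) ^ 2 / γ) * (gau (fun _ => ε) (emb k y) : ℝ) := by
  have h1 : etr ((y : K) ^ 2 / γ) = PoiN.ee (PoiN.tr ((y : K) ^ 2 / γ * 1)) := by
    simp [PoiN.ee, PoiN.tr, etr]
  rw [h1, ← PoiN.BB_embE B, PoiN.BB, PoiN.ee_sum, gau, Finset.mul_sum, Real.exp_sum,
    Complex.ofReal_prod, ← Finset.prod_mul_distrib]
  refine Finset.prod_congr rfl fun φ _ => ?_
  rw [ch, mul_comm]
  simp only [PoiN.embE, emb, add_zero, map_one, mul_one, map_div₀, map_pow, mul_assoc]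

/-- the two descriptions of the inverse different -/
noncomputable def eqv (K : Type) [Field K] [NumberField K] :
    Dual (⊤ : Ideal (𝓞 K)) ≃ {κ : K // PoiN.Dual κ} :=
  Equiv.subtypeEquivRight fun κ => by
    simp only [Dual, PoiN.Dual, PoiN.tr, Set.mem_ofPred_eq, Submodule.mem_top, forall_const]
    refine forall_congr' fun a => exists_congr fun m => ?_
    exact_mod_cast Iff.rfl

end PLSb

theorem y_lSb (c : Cx k K) (hLSa : Y_LSa) : Y_LSb k K := by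
  intro γ ε hγ hε
  obtain ⟨B, -⟩ := c.bf
  obtain ⟨c0, hc, hP⟩ := PoiN.poissonO B K
  have h0 : (γ : K) ≠ 0 := by exact_mod_cast hγ
  have hg : ∀ φ : Emb k K, emb k γ φ ≠ 0 := fun φ => (map_ne_zero φ).2 h0
  have h := (hP (fun z => ∏ φ, PLSb.ch ε (emb k γ φ) (z φ))
    (fun κ => ∏ φ, chp ε (emb k γ φ) (κ φ))
    (continuous_finsetProd _ fun φ _ => (PLSb.cont_ch ε _).comp (continuous_apply φ))
    (PoiN.dec_prod _ fun φ => PLSb.dec_ch hε _) (PoiN.dec_prod _ fun φ => PLSb.dec_chp hε _)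
    (PLSb.ft_prod hLSa hε hg) 0).2
  simp only [PLSb.prod_ch B] at h
  have h1 : (cov2 k K)⁻¹ = c0 := (eq_inv_of_mul_eq_one_left hc).symm
  rw [h1]
  have h2 := (PLSb.eqv K).hasSum_iff.2 h
  simp only [Function.comp_def, zero_mul, PoiN.tr, map_zero, Rat.cast_zero, PoiN.ee_zero,
    mul_one] at h2
  exact h2

end Pool.Agent.P.MP_b8021b_nt.BP
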