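import Pool.Agent.P.MP_b8021b_nt.BP.StC

/-! The Gauss sum of a squarefree element as a quadratic sum. -/

namespace Pool.Agent.P.MP_b8021b_nt.BP

open NumberField IsDedekindDomain Finset MeasureTheory
open Pool.Agent.P.MP_b8021b_nt.VE Pool.Agent.P.MP_b8021b_nt.VC Pool.Agent.P.MP_b8021b_nt.BS.CF
open Pool.Agent.P.MP_b8021b_nt.BS
open scoped Classical ComplexConjugate Real
variable {k : Type} [Field k] [NumberField k] [Algebra k ℂ] {K : Type} [Field K] [NumberField K]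
  [Algebra k K]

namespace PLSd

theorem per_etr {q : Ideal (𝓞 K)} {ξ : K} (h : ξ ∈ Dual q) :
    PoiN.Per q fun x => etr (ξ * (x : 𝓞 K)) := fun x y e => by
  simpa using Peri.etr (F := fun _ => 1) (fun _ _ _ => rfl) h x y e

omit [NumberField K] in
theorem per_sq {q : Ideal (𝓞 K)} {g : 𝓞 K → ℂ} (h : PoiN.Per q g) :
    PoiN.Per q fun x => g (x ^ 2) := fun x y e =>
  h _ _ (by rw [sq_sub_sq]; exact q.mul_mem_left _ e)

/-- counting square roots at one odd place -/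
theorem av_sq (v : Pl K) (h2 : ¬ Dv 2 v) {g : 𝓞 K → ℂ} (h : PoiN.Per v.asIdeal g) :
    PoiN.av v.asIdeal (fun y => g (y ^ 2)) =
      PoiN.av v.asIdeal (fun x => leg x v * g x) + PoiN.av v.asIdeal g := by
  have := v.isMaximal
  have := PoiN.finq v.ne_bot
  let _ := Ideal.Quotient.field v.asIdeal
  have := Fintype.ofFinite (𝓞 K ⧸ v.asIdeal)
  have hc : ringChar (𝓞 K ⧸ v.asIdeal) ≠ 2 := fun e => h2 (by
    have := (ringChar.spec (𝓞 K ⧸ v.asIdeal) 2).2 (by rw [e])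
    exact Ideal.Quotient.eq_zero_iff_mem.1 (by rwa [map_natCast]))
  unfold PoiN.av
  rw [← add_div]
  congr 1
  simp only [finsum_eq_sum_of_fintype]
  rw [← sum_add_distrib, ← sum_fiberwise_of_maps_to (s := univ) (t := univ)
    (g := fun y : 𝓞 K ⧸ v.asIdeal => y ^ 2) fun _ _ => mem_univ _]
  refine sum_congr rfl fun x _ => ?_
  have e1 : ∀ y ∈ univ.filter fun y : 𝓞 K ⧸ v.asIdeal => y ^ 2 = x,
      g (Quotient.out y ^ 2) = g (Quotient.out x) := fun y hy =>
    h _ _ (Ideal.Quotient.eq.1 (by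
      rw [map_pow, Ideal.Quotient.mk_out, Ideal.Quotient.mk_out]; exact (mem_filter.1 hy).2))
  have e2 := quadraticChar_card_sqrts hc x
  rw [Set.toFinset_ofPred] at e2
  rw [sum_congr rfl e1, sum_const, nsmul_eq_mul, leg_eq_quad (Ideal.Quotient.mk v.asIdeal)
    Ideal.Quotient.mk_surjective (fun _ => Ideal.Quotient.eq_zero_iff_mem), Ideal.Quotient.mk_out,
    ← Int.cast_natCast, e2]
  push_cast; ring

theorem av_etr {q : Ideal (𝓞 K)} {ξ : K} (h : ξ ∈ Dual q) (h' : ξ ∉ Dual ⊤) :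
    PoiN.av q (fun x => etr (ξ * (x : 𝓞 K))) = 0 := by
  obtain ⟨t, ht⟩ : ∃ t : 𝓞 K, etr (ξ * t) ≠ 1 := by
    by_contra e
    push Not at e
    exact h' fun a _ => etr_eq_one_iff.1 (e a)
  refine PoiN.av_eq_zero (per_etr h) (u := 1) (u' := 1) (by simp) t ht fun x => ?_
  rw [← etr_add]
  congr 1
  push_cast; ring

theorem dual_mul {I J : Ideal (𝓞 K)} {ξ : K} (h : ξ ∈ Dual (I * J)) {a : 𝓞 K} (ha : a ∈ J) :
    ξ * a ∈ Dual I := fun b hb => by
  simpa [mul_assoc, mul_comm (a : K)] using h (b * a) (Ideal.mul_mem_mul hb ha)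

omit [NumberField K] in
theorem split {a a' : 𝓞 K} (e : a' + a = 1) (ξ : K) : ξ * a + ξ * a' = ξ := by
  have : (a' : K) + a = 1 := by simpa using congrArg (algebraMap (𝓞 K) K) e
  linear_combination ξ * this

/-- primitivity passes to the components -/
theorem prim_mul {I J : Ideal (𝓞 K)} (hJ : J ≠ ⊥) {ξ : K} (h : ξ ∈ Dual (I * J))
    (hp : ∀ L, ξ ∈ Dual L → L ≤ I * J) {a a' : 𝓞 K} (ha' : a' ∈ I) (e : a' + a = 1) :
    ∀ L, ξ * a ∈ Dual L → L ≤ I := fun L hL => by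
  have h1 : ξ * a' ∈ Dual J := dual_mul (by rwa [mul_comm]) ha'
  have h2 : ξ ∈ Dual (L * J) := by
    have := Dual.add (Dual.anti (𝔮' := L * J) hL Ideal.mul_le_left)
      (Dual.anti (𝔮' := L * J) h1 Ideal.mul_le_right)
    rwa [split e] at this
  exact Ideal.dvd_iff_le.1 ((mul_dvd_mul_iff_right hJ).1 (Ideal.dvd_iff_le.2 (hp _ h2)))

theorem main (S : Finset (Pl K)) : (∀ v ∈ S, ¬ Dv 2 v) → ∀ ξ ∈ Dual (eI S),
    (∀ L, ξ ∈ Dual L → L ≤ eI S) →
    PoiN.av (eI S) (fun x => jac x (eI S) * etr (ξ * (x : 𝓞 K))) =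
      PoiN.av (eI S) fun y => etr (ξ * (y ^ 2 : 𝓞 K)) := by
  induction S using Finset.induction_on with
  | empty =>
    intro _ ξ h _
    have e : eI (∅ : Finset (Pl K)) = ⊤ := by simp [eI]
    rw [e] at h ⊢
    exact PoiN.av_congr fun x => by
      rw [jac_top, one_mul, etr_of_dual h Submodule.mem_top, etr_of_dual h Submodule.mem_top]
  | insert v S hv ih =>
    intro h2 ξ h hp
    have e : eI (insert v S) = v.asIdeal * eI S := prod_insert hv
    rw [e] at h hp ⊢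
    have hc : IsCoprime v.asIdeal (eI S) := Ideal.isCoprime_iff_sup_eq.2
      (v.isMaximal.1.2 _ (left_lt_sup.2 fun e => hv (eI_le_iff.1 e)))
    obtain ⟨a', ha', a, ha, e1⟩ := Ideal.isCoprime_iff_exists.1 hc
    have d1 : ξ * a ∈ Dual v.asIdeal := dual_mul h ha
    have d2 : ξ * a' ∈ Dual (eI S) := dual_mul (by rwa [mul_comm]) ha'
    have p1 := prim_mul (eI_ne_bot S) h hp ha' e1
    have p2 := prim_mul v.ne_bot (by rwa [mul_comm]) (by rwa [mul_comm]) ha
      ((add_comm _ _).trans e1)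
    have e2 : ∀ x : 𝓞 K, etr (ξ * x) = etr (ξ * a * x) * etr (ξ * a' * x) := fun x => by
      rw [← etr_add, ← add_mul, split e1]
    have l1 := av_sq v (h2 v (mem_insert_self _ _)) (per_etr d1)
    rw [av_etr d1 fun e => v.isPrime.ne_top (top_le_iff.1 (p1 _ e)), add_zero] at l1
    rw [PoiN.av_congr fun y => e2 (y ^ 2), PoiN.av_crt v.ne_bot (eI_ne_bot S) hc
      (per_sq (per_etr d1)) (per_sq (per_etr d2)), l1,
      ← ih (fun w hw => h2 w (mem_insert_of_mem hw)) _ d2 p2,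
      ← PoiN.av_crt v.ne_bot (eI_ne_bot S) hc
        (PoiN.Per.mul (fun _ _ e => leg_congr e) (per_etr d1))
        (PoiN.Per.mul (peri_jac _) (per_etr d2))]
    exact PoiN.av_congr fun x => by rw [jac_mul_right, jac_prime, e2]; ring

end PLSd

theorem y_lSd (c : Cx k K) : Y_LSd K := by
  intro n γ hn hs hc
  have h0 : γ ≠ 0 := ne_zero_of_sqf hs
  have h0' : (γ : K) ≠ 0 := RingOfIntegers.coe_ne_zero_iff.2 h0
  have h := PLSd.main (pr γ) (fun v hv e => (cop_eI hn.pos).1 (by rwa [eI_pr hs]) v hv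
    (v.asIdeal.mem_of_dvd (Nat.cast_dvd_cast ((by norm_num : 2 ∣ 8).trans hn.eight)) e))
    (γ : K)⁻¹
  rw [eI_pr hs] at h
  have h1 := h (fun a ha => by
      obtain ⟨b, rfl⟩ := Ideal.mem_span_singleton.1 ha
      have := coe_mem_dual ⊤ b 1 Submodule.mem_top
      simpa [h0'] using this)
    (fun L hL a ha => by
      obtain ⟨b, hb⟩ := hn.dual ((γ : K)⁻¹ * a) (PLSd.dual_mul (by rwa [Ideal.top_mul]) ha)
      have e : (n : 𝓞 K) * a = γ * b := RingOfIntegers.ext (by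
        have : (n : K) * a = γ * b := by rw [← hb]; field_simp
        simpa using this)
      exact Ideal.mem_span_singleton.2
        (((Ideal.isCoprime_span_singleton_iff _ _).1 hc).dvd_of_dvd_mul_left ⟨b, e⟩))
  unfold PoiN.av at h1
  rw [div_left_inj' (PoiN.nm_ne hs.ne_zero)] at h1
  unfold gsI ft
  rw [h1]
  refine finsum_congr fun x => ?_
  rw [zero_mul, etr_zero, mul_one]
  simp only [div_eq_inv_mul]
  push_cast; rfl

end Pool.Agent.P.MP_b8021b_nt.BP
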