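import Pool.Agent.P.MP_b8021b_nt.BP.StC
import Pool.Agent.P.MP_b8021b_nt.BS.PoiO

/-! The limit of the dual side in the formula of Landsberg and Schaar. -/

namespace Pool.Agent.P.MP_b8021b_nt.BP

open NumberField IsDedekindDomain Finset MeasureTheory
open Pool.Agent.P.MP_b8021b_nt.VE Pool.Agent.P.MP_b8021b_nt.VC Pool.Agent.P.MP_b8021b_nt.BS.CF
open Pool.Agent.P.MP_b8021b_nt.BS
open scoped Classical ComplexConjugate Real
variable {k : Type} [Field k] [NumberField k] [Algebra k ℂ] {K : Type} [Field K] [NumberField K]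
  [Algebra k K]

namespace PLSe

theorem ee_sub (s t : ℝ) : ‖PoiN.ee s - PoiN.ee t‖ ≤ 2 * π * |s - t| := by
  refine (norm_exp_sub (by simp) (by simp)).trans_eq ?_
  rw [← mul_sub, ← Complex.ofReal_sub]
  simp [abs_of_pos Real.pi_pos, -Complex.ofReal_sub]

theorem chD_pos (ε : ℝ) {g : ℂ} (hg : g ≠ 0) : 0 < chD ε g := by
  have := norm_pos_iff.2 hg
  unfold chD; positivity

section Vec

variable {ι : Type} [Fintype ι] {ε : ℝ} {g : ι → ℂ}

/-- the phase -/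
noncomputable def ph (ε : ℝ) (g ξ : ι → ℂ) : ℝ :=
  -∑ φ, 2 * (g φ * ξ φ ^ 2).re / (‖g φ‖ ^ 2 * chD ε (g φ))

theorem prod_chp (ε : ℝ) (g ξ : ι → ℂ) : ∏ φ, chp ε (g φ) (ξ φ) =
    (∏ φ, (2 * √(chD ε (g φ)))⁻¹ : ℝ) *
      (PoiN.ee (ph ε g ξ) * (gau (fun φ => ε / chD ε (g φ)) ξ : ℝ)) := by
  simp only [chp, prod_mul_distrib, ← Complex.ofReal_prod, ← Real.exp_sum, ← Complex.exp_sum,
    ← mul_sum, ← Complex.ofReal_sum, PoiN.ee, ph, gau]
  rw [Complex.ofReal_mul, mul_assoc, mul_comm (Complex.exp _), Complex.ofReal_neg, mul_neg,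
    neg_mul (2 * π * Complex.I), mul_sum]
  congr 4
  exact sum_congr rfl fun φ _ => by ring

theorem ph_sub (hε : 0 < ε) (hg : ∀ φ, g φ ≠ 0) (ξ : ι → ℂ) :
    ‖PoiN.ee (ph ε g ξ) - PoiN.ee (-∑ φ, 2 * (g φ * ξ φ ^ 2 / 4).re)‖ *
      gau (fun φ => ε / chD ε (g φ)) ξ ≤ ε * ‖g‖ * gau (fun φ => ε / chD ε (g φ) / 2) ξ := by
  obtain ⟨a, ha⟩ : ∃ a, a = 2 * π * ∑ φ, ε / chD ε (g φ) / 2 * ‖ξ φ‖ ^ 2 := ⟨_, rfl⟩
  have h1 : gau (fun φ => ε / chD ε (g φ) / 2) ξ = Real.exp (-a) := by rw [gau, ha, neg_mul]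
  have h2 : gau (fun φ => ε / chD ε (g φ)) ξ = Real.exp (-a) * Real.exp (-a) := by
    rw [gau, ha, ← Real.exp_add, ← neg_add, ← mul_add, ← sum_add_distrib, neg_mul]
    congr 3
    exact sum_congr rfl fun φ _ => by ring
  have h3 : a * Real.exp (-a) ≤ 1 := by
    rw [Real.exp_neg, ← div_eq_mul_inv, div_le_one (Real.exp_pos a)]
    linarith [Real.add_one_le_exp a]
  have h4 : 2 * π * |ph ε g ξ - -∑ φ, 2 * (g φ * ξ φ ^ 2 / 4).re| ≤ ε * ‖g‖ * a := by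
    rw [ha, mul_left_comm, ph, neg_sub_neg, ← sum_sub_distrib, mul_sum]
    refine mul_le_mul_of_nonneg_left ((abs_sum_le_sum_abs _ _).trans
      (sum_le_sum fun φ _ => ?_)) (by positivity)
    have p := chD_pos ε (hg φ)
    have q := norm_pos_iff.2 (hg φ)
    have e : 2 * (g φ * ξ φ ^ 2 / 4).re - 2 * (g φ * ξ φ ^ 2).re / (‖g φ‖ ^ 2 * chD ε (g φ)) =
        (g φ * ξ φ ^ 2).re * (ε * (ε / chD ε (g φ) / 2)) := by
      have : ε ^ 2 = chD ε (g φ) - 4 / ‖g φ‖ ^ 2 := by rw [chD]; ring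
      rw [Complex.div_ofNat_re, ← mul_div_assoc ε, ← mul_div_assoc ε, ← sq, this]
      field_simp
      ring
    rw [e, abs_mul, abs_of_nonneg (a := ε * _) (by positivity)]
    refine (mul_le_mul_of_nonneg_right ((Complex.abs_re_le_norm _).trans (show _ ≤ ‖g‖ * ‖ξ φ‖ ^ 2
      by rw [norm_mul, norm_pow]; gcongr; exact norm_le_pi_norm g φ)) (by positivity)).trans_eq ?_
    ring
  rw [h1, h2, ← mul_assoc]
  refine mul_le_mul_of_nonneg_right ?_ (Real.exp_pos _).le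
  refine (mul_le_mul_of_nonneg_right ((ee_sub _ _).trans h4) (Real.exp_pos _).le).trans ?_
  rw [mul_assoc]
  exact mul_le_of_le_one_right (by positivity) h3

theorem gau_div (y : ι → ℝ) (x : ι → ℂ) (n : ℕ) :
    gau y (fun φ => x φ / n) = gau (fun φ => y φ / n ^ 2) x := by
  simp only [gau, norm_div, Complex.norm_natCast, div_pow]
  congr 2
  exact sum_congr rfl fun φ _ => by ring

end Vec

/-- the limit of the phases -/
noncomputable def FF (n : ℕ) (ν : 𝓞 K) : ℂ :=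
  if ν ∈ dI K n then etr (-((ν : K) / n) ^ 2 / 4) else 0

theorem etr_int (a : 𝓞 K) : etr (a : K) = 1 := by
  simpa using etr_of_dual (coe_mem_dual ⊤ a) (a := 1) trivial

theorem norm_FF (n : ℕ) (ν : 𝓞 K) : ‖FF n ν‖ ≤ 1 := by
  unfold FF; split_ifs <;> simp [norm_etr]

theorem peri_FF {n : ℕ} (hn : n ≠ 0) : Peri (sp ((4 * n ^ 2 : ℕ) : 𝓞 K)) (FF n) := by
  intro x y h
  obtain ⟨b, hb⟩ := Ideal.mem_span_singleton.1 h
  obtain rfl : x = y + (4 * n ^ 2 : ℕ) * b := by rw [← hb]; ring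
  have h0 : (n : K) ≠ 0 := Nat.cast_ne_zero.2 hn
  have m : ((4 * n ^ 2 : ℕ) : 𝓞 K) * b ∈ dI K n := by
    have := coe_mem_dual (⊤ : Ideal (𝓞 K)) (4 * n * b)
    change _ ∈ Dual _
    convert this using 1
    push_cast
    field_simp
  unfold FF
  refine if_congr ((dI K n).add_mem_iff_left m) ?_ rfl
  rw [← mul_one (etr (-((y : K) / n) ^ 2 / 4)),
    ← etr_int (-(2 * y * b + ((4 * n ^ 2 : ℕ) : 𝓞 K) * b ^ 2)), ← etr_add]
  congr 1
  simp only [map_add, map_mul, map_pow, map_neg, map_natCast, map_ofNat]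
  push_cast
  field_simp
  ring

theorem ee_lim (c : Cx k K) {n : ℕ} (hn : n ≠ 0) {γ : 𝓞 K}
    (h : ((4 * n ^ 2 : ℕ) : 𝓞 K) ∣ γ - 1) (ν : 𝓞 K) :
    PoiN.ee (-∑ φ, 2 * (emb k γ φ * (emb k ν φ / n) ^ 2 / 4).re) =
      etr (-((ν : K) / n) ^ 2 / 4) := by
  obtain ⟨B, -⟩ := c.bf
  obtain ⟨b, hb⟩ := h
  obtain rfl : γ = 1 + (4 * n ^ 2 : ℕ) * b := by rw [← hb]; ring
  have h0 : (n : K) ≠ 0 := Nat.cast_ne_zero.2 hn
  have e := PoiN.BB_embE B (-(((1 + (4 * n ^ 2 : ℕ) * b : 𝓞 K) : K) * (ν / n) ^ 2 / 4)) 1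
  rw [← mul_one (etr _), ← etr_int (-(b * ν ^ 2)), ← etr_add]
  have e' : -((ν : K) / n) ^ 2 / 4 + ((-(b * ν ^ 2) : 𝓞 K) : K) =
      -(((1 + (4 * n ^ 2 : ℕ) * b : 𝓞 K) : K) * (ν / n) ^ 2 / 4) * 1 := by
    simp only [map_add, map_mul, map_pow, map_neg, map_natCast, map_one]
    push_cast
    field_simp
    ring
  rw [e', show ∀ ξ : K, etr ξ = PoiN.ee (PoiN.tr ξ) from fun ξ => by simp [PoiN.ee, PoiN.tr, etr],
    ← e, PoiN.BB, ← sum_neg_distrib]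
  refine congrArg _ (sum_congr rfl fun φ _ => ?_)
  simp only [PoiN.embE, emb, map_neg, map_div₀, map_mul, map_pow, map_natCast, map_ofNat, map_one,
    mul_one, Complex.neg_re, mul_neg]

theorem tsum_dual {n : ℕ} (hn : Good K n) (G : K → ℂ) :
    ∑' κ : Dual (⊤ : Ideal (𝓞 K)), G κ.1 =
      ∑' ν : 𝓞 K, if ν ∈ dI K n then G ((ν : K) / n) else 0 := by
  have h0 : (n : K) ≠ 0 := Nat.cast_ne_zero.2 hn.pos
  choose a ha using hn.dual
  have e : ∀ κ : Dual (⊤ : Ideal (𝓞 K)), (a κ.1 κ.2 : K) / n = κ.1 := fun κ => by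
    rw [← ha]; field_simp
  rw [← Function.Injective.tsum_eq (g := fun κ : Dual (⊤ : Ideal (𝓞 K)) => a κ.1 κ.2)
    (fun κ κ' q => Subtype.ext (by rw [← e κ, ← e κ', show a κ.1 κ.2 = a κ'.1 κ'.2 from q]))]
  · refine tsum_congr fun κ => ?_
    have m : (a κ.1 κ.2 : K) / n ∈ Dual ⊤ := by rw [e]; exact κ.2
    rw [if_pos (show a κ.1 κ.2 ∈ dI K n from m), e]
  · intro ν hν
    have m : ν ∈ dI K n := by_contra fun q => hν (if_neg q)
    exact ⟨⟨_, m⟩, RingOfIntegers.ext ((div_left_inj' h0).1 (e ⟨_, m⟩))⟩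

end PLSe

open PLSe Filter Topology in
theorem y_lSe (c : Cx k K) (hMV : Y_MV k K) : Y_LSe k K := by
  intro n hn
  have n2 := hn.two_le
  have n1 : (1 : ℝ) ≤ n := by exact_mod_cast one_le_two.trans n2
  obtain ⟨C, hC, hM⟩ := hMV (sp ((4 * n ^ 2 : ℕ) : 𝓞 K))
    (Ideal.span_singleton_eq_bot.not.2 (Nat.cast_ne_zero.2 (by have := hn.pos; positivity)))
  obtain ⟨L, hL⟩ : ∃ L, L = (cW k K : ℝ) * PoiN.av (sp ((4 * n ^ 2 : ℕ) : 𝓞 K)) (FF n) := ⟨_, rfl⟩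
  obtain ⟨A, hA⟩ : ∃ A, A = ‖(cW k K : ℝ) * PoiN.av (sp ((4 * n ^ 2 : ℕ) : 𝓞 K)) fun _ => 1‖ :=
    ⟨_, rfl⟩
  refine ⟨(∏ _φ : Emb k K, (n : ℝ) ^ 2 : ℝ) * L, fun γ hγ => ?_⟩
  have γ0 : γ ≠ 0 := fun e => not_unit_nat (E := K) (n := 4 * n ^ 2) (by nlinarith)
    (isUnit_of_dvd_one (by simpa [e] using hγ))
  obtain ⟨g, hg⟩ : ∃ g, g = emb k γ := ⟨_, rfl⟩
  have g0 : ∀ φ, g φ ≠ 0 := hg ▸ emb_ne_zero γ0
  obtain ⟨y, hy⟩ : ∃ y : ℝ → Emb k K → ℝ, y = fun ε φ => ε / chD ε (g φ) / n ^ 2 := ⟨_, rfl⟩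
  obtain ⟨f, hf⟩ : ∃ f : ℝ → 𝓞 K → ℂ, f = fun ε ν => (if ν ∈ dI K n then
    PoiN.ee (ph ε g fun φ => emb k ν φ / n) else 0) * (gau (y ε) (emb k ν) : ℝ) := ⟨_, rfl⟩
  have yb : ∀ ε, 0 < ε → ∀ φ, 0 < y ε φ ∧ y ε φ ≤ ε * ‖g‖ ^ 2 := fun ε e φ => by
    have p := chD_pos ε (g0 φ)
    have q := norm_pos_iff.2 (g0 φ)
    rw [hy]
    refine ⟨by positivity, (div_le_self (by positivity) (one_le_pow₀ n1)).trans ?_⟩
    rw [div_le_iff₀ p, mul_assoc]
    refine le_mul_of_one_le_right e.le (le_trans ?_ (mul_le_mul (pow_le_pow_left₀ q.le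
      (norm_le_pi_norm g φ) 2) (le_add_of_nonneg_left (sq_nonneg ε)) (by positivity)
      (by positivity)))
    rw [mul_div_cancel₀ _ (by positivity)]
    norm_num
  have sm : ∀ y : Emb k K → ℝ, (∀ φ, 0 < y φ) → Summable fun x : 𝓞 K => gau y (emb k x) :=
    fun y h => by simpa using c.gs.1 y 0 h
  have l1 : Tendsto (fun ε => (∏ φ, y ε φ : ℝ) * ∑' ν, f ε ν) (𝓝[>] 0) (𝓝 L) := by
    have r0 : Module.finrank k K ≠ 0 := by
      have := c.one_le_rk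
      exact_mod_cast (one_pos.trans_le this).ne'
    rw [← tendsto_sub_nhds_zero_iff]
    refine squeeze_zero_norm' (a := fun ε => C * (ε * ‖g‖ ^ 2) ^ Module.finrank k K +
      ε * ‖g‖ * (∏ _φ : Emb k K, 2) * (A + C * (ε * ‖g‖ ^ 2) ^ Module.finrank k K))
      (eventually_nhdsWithin_of_forall fun ε e => ?_) (tendsto_nhdsWithin_of_tendsto_nhds
        (Continuous.tendsto' (by fun_prop) _ _ (by simp [r0])))
    have y2 : ∀ φ, 0 < y ε φ / 2 ∧ y ε φ / 2 ≤ ε * ‖g‖ ^ 2 := fun φ => by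
      have := yb ε e φ
      constructor <;> linarith
    have m1 := hM (FF n) (y ε) _ (peri_FF hn.pos) (norm_FF n) (yb ε e)
    have m2 := hM (fun _ => 1) _ _ (fun _ _ _ => rfl) (by simp) y2
    have s1 := sm _ fun φ => (yb ε e φ).1
    have s2 := sm _ fun φ => (y2 φ).1
    rw [Real.rpow_natCast] at m1 m2
    replace m2 := (norm_le_norm_sub_add _ _).trans (add_le_add m2 hA.ge)
    simp only [one_mul, ← Complex.ofReal_tsum, ← Complex.ofReal_mul] at m2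
    replace m2 := (Complex.re_le_norm _).trans m2
    have d : ∀ ν, ‖f ε ν - FF n ν * (gau (y ε) (emb k ν) : ℝ)‖ ≤
        ε * ‖g‖ * gau (fun φ => y ε φ / 2) (emb k ν) := fun ν => by
      have := ph_sub e g0 fun φ => emb k ν φ / n
      rw [gau_div, gau_div, hg, ee_lim c hn.pos hγ, ← hg] at this
      rw [hf, FF]
      dsimp only
      split_ifs
      · rw [← sub_mul, norm_mul, Complex.norm_real, Real.norm_of_nonneg (gau_pos _ _).le, hy]
        simpa only [div_right_comm _ (2 : ℝ)] using this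
      · have := gau_pos (fun φ => y ε φ / 2) (emb k ν)
        have : 0 < ε := e
        simp only [zero_mul, sub_zero, norm_zero]
        positivity
    have s3 : Summable fun ν => FF n ν * (gau (y ε) (emb k ν) : ℝ) :=
      s1.of_norm_bounded fun ν => by
        rw [norm_mul, Complex.norm_real, Real.norm_of_nonneg (gau_pos _ _).le]
        exact mul_le_of_le_one_left (gau_pos _ _).le (norm_FF n ν)
    have s4 := (s2.mul_left (ε * ‖g‖)).of_norm_bounded d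
    have t := tsum_of_norm_bounded (s2.hasSum.mul_left (ε * ‖g‖)) d
    have p0 : 0 ≤ ∏ φ, y ε φ := prod_nonneg fun φ _ => (yb ε e φ).1.le
    have e1 : ∏ φ, y ε φ = (∏ _φ : Emb k K, 2) * ∏ φ, y ε φ / 2 := by
      rw [← prod_mul_distrib]
      exact prod_congr rfl fun φ _ => by ring
    have e2 := s3.tsum_add s4
    simp only [add_sub_cancel] at e2
    rw [e2, mul_add, add_sub_right_comm, hL]
    refine (norm_add_le _ _).trans (add_le_add m1 ?_)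
    rw [norm_mul, Complex.norm_real, Real.norm_of_nonneg p0]
    refine (mul_le_mul_of_nonneg_left t p0).trans ?_
    have : 0 < ε := e
    rw [e1, add_comm A]
    refine le_trans (le_of_eq ?_) (mul_le_mul_of_nonneg_left m2 (by positivity))
    rw [Complex.ofReal_re]
    ring
  have l2 : Tendsto (fun ε => ((∏ φ, n ^ 2 * √(chD ε (g φ)) / 2 : ℝ) : ℂ)) (𝓝[>] 0)
      (𝓝 ((∏ _φ : Emb k K, (n : ℝ) ^ 2 : ℝ) / (√(NN (sp γ)) : ℝ))) := by
    refine tendsto_nhdsWithin_of_tendsto_nhds (Continuous.tendsto' (by unfold chD; fun_prop) _ _ ?_)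
    rw [c.NN_eq, sqrt_nz, norm_prod, ← Complex.ofReal_div, ← prod_div_distrib, ← hg]
    refine congrArg _ (prod_congr rfl fun φ _ => ?_)
    rw [chD, show (0 : ℝ) ^ 2 + 4 / ‖g φ‖ ^ 2 = (2 / ‖g φ‖) ^ 2 by ring,
      Real.sqrt_sq (by positivity)]
    ring
  rw [mul_div_right_comm, ← hg]
  refine (l2.mul l1).congr' (eventually_nhdsWithin_of_forall fun ε e => ?_)
  have e0 : 0 < ε := e
  have e1 : ∀ ν : 𝓞 K, (if ν ∈ dI K n then ∏ φ, chp ε (g φ) (emK k ((ν : K) / n) φ) else 0) =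
      (∏ φ, (2 * √(chD ε (g φ)))⁻¹ : ℝ) * f ε ν := fun ν => by
    rw [hf, hy]
    dsimp only
    split_ifs
    · rw [show emK k ((ν : K) / n) = fun φ => emb k ν φ / n from funext fun φ => by
        simp [emK, emb], prod_chp, gau_div]
    · simp
  dsimp only
  rw [tsum_dual hn fun ξ => ∏ φ, chp ε (g φ) (emK k ξ φ)]
  simp only [e1]
  rw [tsum_mul_left, ← mul_assoc, ← mul_assoc, ← Complex.ofReal_mul, ← Complex.ofReal_mul,
    Real.rpow_natCast, ← c.card_emb, ← card_univ, ← prod_const, ← prod_mul_distrib,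
    ← prod_mul_distrib]
  congr 2
  refine prod_congr rfl fun φ _ => ?_
  have p := chD_pos ε (g0 φ)
  have q := Real.sqrt_pos.2 p
  rw [hy]
  dsimp only
  nth_rewrite 2 [← Real.mul_self_sqrt p.le]
  field_simp

end Pool.Agent.P.MP_b8021b_nt.BP
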