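import Pool.Agent.P.MP_b8021b_nt.BP.StC

/-! The finite Euler product of the square near one, and the even part. -/

namespace Pool.Agent.P.MP_b8021b_nt.BP

open NumberField IsDedekindDomain Finset MeasureTheory
open Pool.Agent.P.MP_b8021b_nt.VE Pool.Agent.P.MP_b8021b_nt.VC Pool.Agent.P.MP_b8021b_nt.BS.CF
open Pool.Agent.P.MP_b8021b_nt.BS
open scoped Classical ComplexConjugate Real
variable {k : Type} [Field k] [NumberField k] [Algebra k ℂ] {K : Type} [Field K] [NumberField K] [Algebra k K]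

namespace PLZ

/-- an approximate inverse is near the inverse -/
theorem inv_near {P L : ℂ} {d M : ℝ} (h : ‖P * L - 1‖ ≤ d) (hd : d ≤ 1 / 2) (hL : ‖L‖ ≤ M) :
    ‖P⁻¹ - L‖ ≤ 2 * M * d := by
  have hP : P ≠ 0 := by
    rintro rfl
    norm_num at h
    linarith
  have e : P⁻¹ - L = -(P⁻¹ * (P * L - 1)) := by field_simp; ring
  have h1 : ‖P⁻¹ - L‖ ≤ ‖P⁻¹‖ * d := by
    rw [e, norm_neg, norm_mul]
    exact mul_le_mul_of_nonneg_left h (norm_nonneg _)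
  have h2 : ‖P⁻¹‖ ≤ 2 * M := by
    have := norm_sub_norm_le P⁻¹ L
    have := mul_le_mul_of_nonneg_left hd (norm_nonneg P⁻¹)
    linarith
  exact h1.trans (mul_le_mul_of_nonneg_right h2 ((norm_nonneg _).trans h))

/-- the quotient of two numbers near the same point -/
theorem div_near {x y z : ℂ} {d : ℝ} (hz : z ≠ 0) (hx : ‖x⁻¹ - z‖ ≤ d) (hy : ‖y⁻¹ - z‖ ≤ d)
    (hd : d ≤ ‖z‖ / 2) : ‖x / y - 1‖ ≤ 4 * d / ‖z‖ := by
  have z0 := norm_pos_iff.2 hz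
  have h1 : ‖z‖ / 2 ≤ ‖x⁻¹‖ := by
    have := norm_sub_norm_le z x⁻¹
    rw [norm_sub_rev] at this
    linarith
  have h2 : x⁻¹ ≠ 0 := norm_pos_iff.1 (by linarith)
  have h3 : x ≠ 0 := fun e => h2 (by simp [e])
  have e : x / y - 1 = ((y⁻¹ - z) - (x⁻¹ - z)) / x⁻¹ := by field_simp; ring
  have h4 := norm_sub_le (y⁻¹ - z) (x⁻¹ - z)
  rw [e, norm_div, show 4 * d / ‖z‖ = (d + d) / (‖z‖ / 2) by field_simp; ring]
  exact div_le_div₀ (by linarith [norm_nonneg (x⁻¹ - z)]) (by linarith) (by linarith) h1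

theorem cf_mul (Ψ : Ideal (𝓞 K) → ℂ) (s t : ℂ) (v : Pl K) :
    cf Ψ s v * cf Ψ t v = Ψ v.asIdeal ^ 2 * (nv v : ℂ) ^ (-(1 + (s + t))) := by
  rw [cf, cf, mul_mul_mul_comm, ← Complex.cpow_add _ _ (by exact_mod_cast (nv_pos v).ne'), sq]
  congr 2
  ring

/-- the even part is a quotient of two Euler products -/
theorem evP_eq (Ψ : Ideal (𝓞 K) → ℂ) (ℓ a b : ℝ) (S : Finset (Pl K)) : EvP Ψ Ψ ℓ a b S =
    (∏ v ∈ S, (1 - Ψ v.asIdeal ^ 2 * (nv v : ℂ) ^ (-(1 + (sx ℓ a + sx ℓ b))))) /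
      ∏ v ∈ S, (1 - Ψ v.asIdeal ^ 2 * (nv v : ℂ) ^ (-(1 + (sx ℓ b + sx ℓ b)))) := by
  rw [EvP, ← prod_div_distrib]
  exact prod_congr rfl fun v _ => by rw [Ev, sq (cf _ _ _), cf_mul, cf_mul]

theorem cf_sub {Ψ : Ideal (𝓞 K) → ℂ} (h : ∀ I, ‖Ψ I‖ ≤ 1) {s t : ℂ} (hs : 0 ≤ s.re) (ht : 0 ≤ t.re)
    (v : Pl K) : ‖cf Ψ t v‖ * ‖cf Ψ t v - cf Ψ s v‖ ≤ ‖t - s‖ * (Real.log (nv v) / nv v) := by
  have h0 := nv_pos v
  have h1 : ‖cf Ψ t v - cf Ψ s v‖ ≤ (√(nv v))⁻¹ * (‖t - s‖ * Real.log (nv v)) := by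
    rw [cf_eq, cf_eq, ← mul_sub, norm_mul, norm_mul, Complex.norm_real,
      Real.norm_of_nonneg (by positivity)]
    exact mul_le_mul (mul_le_of_le_one_left (by positivity) (h _))
      (norm_cpow_sub (one_le_two.trans (two_le_NN v)) ht hs) (norm_nonneg _) (by positivity)
  refine (mul_le_mul (norm_cf h ht v) h1 (norm_nonneg _) (by positivity)).trans (le_of_eq ?_)
  rw [← mul_assoc, ← mul_inv, Real.mul_self_sqrt h0.le]
  ring

/-- the removal of a set of places -/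
theorem remove (hEV0 : Y_EV0) {Ψ : Ideal (𝓞 K) → ℂ} (h : ∀ I, ‖Ψ I‖ ≤ 1) {ℓ : ℝ} (hℓ : 0 < ℓ)
    (a b : ℝ) (S W : Finset (Pl K)) : ∃ Q : ℂ, EvP Ψ Ψ ℓ a b (S \ W) = EvP Ψ Ψ ℓ a b S * Q ∧
      ‖Q - 1‖ ≤ Real.exp (2 * ((|b| + |a|) / ℓ) * lw W) - 1 := by
  have hs : ∀ x, 0 ≤ (sx ℓ x).re := fun x => by rw [sx_re]; positivity
  have hv := fun v : Pl K => hEV0 _ _ (norm_cf_sq h (hs a) v) (norm_cf_sq h (hs b) v)
  refine ⟨∏ v ∈ S ∩ W, (Ev (cf Ψ (sx ℓ a) v) (cf Ψ (sx ℓ b) v))⁻¹, ?_, ?_⟩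
  · rw [EvP, EvP, ← prod_sdiff (inter_subset_left : S ∩ W ⊆ S), sdiff_inter_self_left, mul_assoc,
      ← prod_mul_distrib, prod_congr rfl fun v _ => mul_inv_cancel₀ (hv v).1, prod_const_one, mul_one]
  · have h1 := (S ∩ W).norm_prod_one_add_sub_one_le
      fun v => (Ev (cf Ψ (sx ℓ a) v) (cf Ψ (sx ℓ b) v))⁻¹ - 1
    simp only [add_sub_cancel] at h1
    refine h1.trans (sub_le_sub_right (Real.exp_le_exp.2 ?_) _)
    refine le_trans ?_ (mul_le_mul_of_nonneg_left (lw_mono (inter_subset_right : S ∩ W ⊆ W))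
      (by positivity))
    rw [lw, mul_sum]
    refine sum_le_sum fun v _ => (hv v).2.2.2.2.2.2.1.trans ?_
    rw [mul_assoc, mul_assoc]
    refine mul_le_mul_of_nonneg_left ((cf_sub h (hs a) (hs b) v).trans ?_) zero_le_two
    exact mul_le_mul_of_nonneg_right (norm_sx_sub hℓ b a)
      (div_nonneg (log_nv_pos v).le (nv_pos v).le)

end PLZ

open PLZ

theorem y_lZ (c : Cx k K) (hLIP : Y_LIP) (hEPA : Y_EPA K) : Y_LZ k K := by
  intro n Ψ hn hΨ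
  obtain ⟨κ, hκ, hχ, -⟩ := isH_sq c.toCtx hn hΨ
  obtain ⟨B, -⟩ := c.bf
  have b1 := DS.norm_le_one hχ.toIsChar
  obtain ⟨Q, Q2, hQ⟩ := c.toCtx.small
  obtain ⟨N, hN⟩ := c.lib.pss k B (Module.finrank k K)
  have r1 := c.toCtx.one_le_rk
  have r4 : 1 / (4 * rk k K) ≤ 1 := by
    rw [div_le_one (by linarith)]
    linarith
  obtain ⟨z, A, A0, -, hA⟩ := hLIP (lam (Ψ * Ψ : Ideal (𝓞 K) →* ℂ)) _ (1 / (4 * rk k K))
    (by positivity) r4 fun X =>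
      (hN K rfl Q n Q2 hQ hn).2.2.2 X (1 + ∑ φ, |(κ φ : ℝ)|) κ 0 _
        (le_add_of_nonneg_right (by positivity))
        (fun φ => (single_le_sum (f := fun φ => |(κ φ : ℝ)|) (fun _ _ => abs_nonneg _)
          (mem_univ φ)).trans (le_add_of_nonneg_left zero_le_one))
        (fun φ => by simp only [Pi.zero_apply, abs_zero]; positivity) hχ
        (c.toCtx.not_triv hn hχ hκ)
  replace hA := fun (s : ℂ) (s1 : 0 < s.re) (s2 : ‖s‖ ≤ 1) =>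
    hA (1 + s) (by simpa using s1) (by simpa using s2) (c.lib.i.ep K _ _ b1 (by simpa using s1)).1
  simp only [add_sub_cancel_left] at hA
  obtain ⟨C, C1, hC⟩ := hEPA
  have hz : z ≠ 0 := by
    rintro rfl
    obtain ⟨d, d0, hd⟩ := c.nvh n κ _ hn hχ hκ
    have e0 : 0 < d / (A + d + d) := by positivity
    have e1 : d / (A + d + d) ≤ 1 := by rw [div_le_one (by positivity)]; linarith
    have h1 := hd (1 + d / (A + d + d)) (by linarith) (by linarith)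
    have h2 := hA (d / (A + d + d) : ℝ) (by rwa [Complex.ofReal_re])
      (by rwa [Complex.norm_real, Real.norm_of_nonneg e0.le])
    rw [Complex.norm_real, Real.norm_of_nonneg e0.le, sub_zero] at h2
    rw [Complex.ofReal_add, Complex.ofReal_one] at h1
    have h3 := h1.trans h2
    rw [← mul_div_assoc, le_div_iff₀ (by positivity)] at h3
    nlinarith
  have M0 : 0 ≤ 2 * (‖z‖ + A) * C := by positivity
  refine ⟨z, 1 + A + 2 * (‖z‖ + A) * C, 2 * C, hz, by linarith, fun ℓ s h1 h2 h3 => ?_⟩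
  have l0 : 0 < ℓ := by linarith
  have l1 : 0 < 1 / ℓ := by positivity
  have h4 := hA s (l1.trans_le h2) h3
  have h5 := hC (Ψ * Ψ) ℓ s b1 (by linarith) h2
  have h6 := inv_near (M := ‖z‖ + A) h5 (by rw [div_le_div_iff₀ l0 two_pos]; linarith) (by
    have := norm_sub_norm_le (LSeries (lam (Ψ * Ψ : Ideal (𝓞 K) →* ℂ)) (1 + s)) z
    have := mul_le_mul_of_nonneg_left h3 A0
    linarith)
  simp only [MonoidHom.mul_apply, ← sq (Ψ _)] at h6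
  refine (norm_sub_le_norm_sub_add_norm_sub _ _ _).trans ((add_le_add h6 h4).trans ?_)
  have h7 := mul_nonneg M0 (norm_nonneg s)
  have h8 := mul_nonneg A0 l1.le
  rw [div_eq_mul_one_div C, ← mul_assoc]
  nlinarith [norm_nonneg s]

theorem y_eVL (c : Cx k K) (hEV0 : Y_EV0) (hLZ : Y_LZ k K) : Y_EVL k K := by
  intro n Ψ ε U C₀ hn hΨ hε
  obtain ⟨z, C, ℓ₀, hz, C1, hC⟩ := hLZ n Ψ hn hΨ
  have z0 := norm_pos_iff.2 hz
  have t0 : ∀ g : ℝ → ℝ, Continuous g → ∀ r, g 0 < r → ∀ᶠ ℓ : ℝ in Filter.atTop, g ℓ⁻¹ < r :=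
    fun g hg r hr => ((hg.tendsto 0).comp tendsto_inv_atTop_zero).eventually (gt_mem_nhds hr)
  have t1 := t0 (fun t => 4 * (C * ((2 * U + 3) * t)) / ‖z‖ * Real.exp (4 * U * C₀ * t) +
    (Real.exp (4 * U * C₀ * t) - 1)) (by fun_prop) ε (by simpa using hε)
  have t2 := t0 (fun t => C * ((2 * U + 3) * t)) (by fun_prop) (‖z‖ / 2) (by simpa using hz)
  have t3 := t0 (fun t => (2 * U + 2) * t) (by fun_prop) 1 (by simp)
  obtain ⟨L, hL⟩ := Filter.eventually_atTop.1 (t1.and (t2.and (t3.and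
    ((Filter.eventually_ge_atTop ℓ₀).and (Filter.eventually_gt_atTop 0)))))
  refine ⟨L, fun ℓ a b 𝒲 hℓ ha hb hW => ?_⟩
  obtain ⟨u1, u2, u3, u4, l0⟩ := hL ℓ hℓ
  have l1 : 0 < ℓ⁻¹ := by positivity
  have key : ∀ x, |x| ≤ U → ‖(∏ v ∈ PP K ℓ, (1 - Ψ v.asIdeal ^ 2 *
      (nv v : ℂ) ^ (-(1 + (sx ℓ x + sx ℓ b)))))⁻¹ - z‖ ≤ C * ((2 * U + 3) * ℓ⁻¹) := fun x hx => by
    have e1 : ‖sx ℓ x + sx ℓ b‖ ≤ (2 * U + 2) * ℓ⁻¹ := by
      refine (norm_add_le _ _).trans ((add_le_add (norm_sx l0 x) (norm_sx l0 b)).trans ?_)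
      rw [← add_div, div_eq_mul_inv]
      exact mul_le_mul_of_nonneg_right (by linarith) l1.le
    refine (hC ℓ _ u4 ?_ (e1.trans u3.le)).trans (mul_le_mul_of_nonneg_left ?_ (by linarith))
    · rw [Complex.add_re, sx_re, sx_re]
      exact le_add_of_nonneg_right (by positivity)
    · rw [one_div]
      linarith
  have h1 := div_near hz (key a ha) (key b hb) u2.le
  rw [← evP_eq] at h1
  obtain ⟨Q, hQ, h2⟩ := remove hEV0 hΨ.norm_le l0 a b (PP K ℓ) 𝒲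
  have U0 : 0 ≤ U := (abs_nonneg a).trans ha
  have h3 : ‖Q - 1‖ ≤ Real.exp (4 * U * C₀ * ℓ⁻¹) - 1 := by
    refine h2.trans (sub_le_sub_right (Real.exp_le_exp.2 ?_) _)
    calc 2 * ((|b| + |a|) / ℓ) * lw 𝒲 ≤ 2 * ((U + U) / ℓ) * C₀ :=
          mul_le_mul (by gcongr) hW (lw_nonneg _) (by positivity)
      _ = _ := by ring
  have h4 : ‖Q‖ ≤ Real.exp (4 * U * C₀ * ℓ⁻¹) := by
    have := norm_sub_norm_le Q 1
    rw [norm_one] at this
    linarith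
  rw [hQ, show EvP Ψ Ψ ℓ a b (PP K ℓ) * Q - 1 = (EvP Ψ Ψ ℓ a b (PP K ℓ) - 1) * Q + (Q - 1) by ring]
  refine (norm_add_le _ _).trans (le_trans (add_le_add ?_ h3) u1.le)
  rw [norm_mul]
  exact mul_le_mul h1 h4 (norm_nonneg _) ((norm_nonneg _).trans h1)

end Pool.Agent.P.MP_b8021b_nt.BP
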