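import Pool.Agent.P.MP_b8021b_nt.BP.StC

/-! Two identities for sums over ideals and the first theorem of Mertens. -/

namespace Pool.Agent.P.MP_b8021b_nt.BP

open NumberField IsDedekindDomain Finset MeasureTheory
open Pool.Agent.P.MP_b8021b_nt.VE Pool.Agent.P.MP_b8021b_nt.VC Pool.Agent.P.MP_b8021b_nt.BS.CF
open Pool.Agent.P.MP_b8021b_nt.BS
open scoped Classical ComplexConjugate Real
variable {k : Type} [Field k] [NumberField k] [Algebra k ℂ] {K : Type} [Field K] [NumberField K]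
  [Algebra k K]

namespace PME1

theorem fib (g : Ideal (𝓞 K) → ℂ) (w : ℕ → ℂ) (y : ℝ) :
    ∑ I ∈ ids K y, g I * w (Ideal.absNorm I) = ∑ j ∈ Icc 1 ⌊y⌋₊, lam g j * w j := by
  rw [← sum_fiberwise_of_maps_to (g := fun I => Ideal.absNorm I) (t := Icc 1 ⌊y⌋₊) fun I hI =>
    mem_Icc.2 ⟨Nat.one_le_cast.1 (one_le_NN (mem_ids.1 hI).1), Nat.le_floor (mem_ids.1 hI).2⟩]
  refine sum_congr rfl fun j hj => ?_
  obtain ⟨h1, h2⟩ := mem_Icc.1 hj
  rw [DS.lam_eq, sum_mul]
  refine sum_congr (Finset.ext fun I => ?_) fun I hI => by rw [DS.mem_idl.1 hI]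
  rw [mem_filter, DS.mem_idl, and_iff_right_iff_imp, mem_ids]
  rintro rfl
  exact ⟨fun e => by simp [e] at h1, (Nat.le_floor_iff' (by omega)).1 h2⟩

theorem NN_pow (v : Pl K) (j : ℕ) : NN (v.asIdeal ^ j) = nv v ^ j := by simp [NN, nv]

theorem shift (g : Ideal (𝓞 K) → ℂ) (y : ℝ) (v : Pl K) (j : ℕ) :
    ∑ J ∈ ids K (y / nv v ^ j), g (v.asIdeal ^ j * J) =
      ∑ I ∈ ids K y, if v.asIdeal ^ j ∣ I then g I else 0 := by
  have h0 : v.asIdeal ^ j ≠ ⊥ := pow_ne_zero j v.ne_bot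
  have e : ∀ J, J ∈ ids K (y / nv v ^ j) ↔ v.asIdeal ^ j * J ∈ ids K y := fun J => by
    rw [mem_ids, mem_ids, NN_mul, NN_pow, le_div_iff₀' (pow_pos (nv_pos v) j)]
    exact and_congr_left' ⟨mul_ne_zero h0, right_ne_zero_of_mul⟩
  rw [← sum_filter]
  refine sum_nbij (fun J => v.asIdeal ^ j * J)
    (fun J hJ => mem_filter.2 ⟨(e J).1 hJ, dvd_mul_right _ _⟩)
    (fun _ _ _ _ h => mul_left_cancel₀ h0 h) (fun I hI => ?_) fun _ _ => rfl
  obtain ⟨h1, J, rfl⟩ := mem_filter.1 (mem_coe.1 hI)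
  exact ⟨J, mem_coe.2 ((e J).2 h1), rfl⟩

theorem log_eq {y : ℝ} {m : ℕ} (hm : y < 2 ^ m) {I : Ideal (𝓞 K)} (hI : I ∈ ids K y) :
    Real.log (NN I) = ∑ v ∈ pls K 0 y, ∑ j ∈ Icc 1 m,
      if v.asIdeal ^ j ∣ I then Real.log (nv v) else 0 := by
  obtain ⟨h0, h1⟩ := mem_ids.1 hI
  have e := (cpow_eq_sg 1 h0).trans (sg_eq_prod _ h0 (S := pls K 0 y) fun v hv =>
    mem_pls.2 ⟨nv_pos v, (NN_le_of_le h0 ((mem_prI h0).1 hv)).trans h1⟩)
  simp only [Complex.cpow_one] at e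
  have e1 : NN I = ∏ v ∈ pls K 0 y, nv v ^ cnt v I := by exact_mod_cast e
  rw [e1, Real.log_prod fun v _ => (pow_pos (nv_pos v) _).ne']
  refine sum_congr rfl fun v _ => ?_
  have h2 : cnt v I ≤ m := by
    have a := NN_le_of_le h0 (Ideal.le_of_dvd (pow_multiplicity_dvd v.asIdeal I))
    rw [NN_pow] at a
    exact ((pow_lt_pow_iff_right₀ one_lt_two).1 (((pow_le_pow_left₀ zero_le_two (two_le_NN v)
      _).trans (a.trans h1)).trans_lt hm)).le
  have h3 : (Icc 1 m).filter (fun j => v.asIdeal ^ j ∣ I) = Icc 1 (cnt v I) := by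
    ext j
    rw [mem_filter, (FiniteMultiplicity.of_prime_left v.prime h0).pow_dvd_iff_le_multiplicity,
      mem_Icc, mem_Icc]
    change _ ∧ j ≤ cnt v I ↔ _
    omega
  rw [← sum_filter, h3, sum_const, Real.log_pow, Nat.card_Icc, nsmul_eq_mul, Nat.add_sub_cancel]

/-- dyadic summation -/
theorem dy {ι : Type} (N w : ι → ℝ) {C θ : ℝ} (hθ : θ < 1) (h0 : 0 ≤ θ) (hC : 0 ≤ C)
    (w0 : ∀ i, 0 ≤ w i) (h : ∀ (t : ℝ) (s : Finset ι), 0 < t → (∀ i ∈ s, 1 ≤ N i ∧ N i ≤ t) →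
      ∑ i ∈ s, w i ≤ C * t) : ∃ D : ℝ, ∀ (y : ℝ) (s : Finset ι), 0 < y →
      (∀ i ∈ s, 1 ≤ N i ∧ N i ≤ y) → ∑ i ∈ s, w i * (y / N i) ^ θ ≤ D * y := by
  have q2 : (2 : ℝ) ^ θ < 2 := by
    simpa using Real.rpow_lt_rpow_of_exponent_lt one_lt_two hθ
  have q0 : (0 : ℝ) < 2 ^ θ := by positivity
  obtain ⟨D, D0, hD⟩ : ∃ D : ℝ, 0 ≤ D ∧ 2 ^ θ * (D / 2) + 2 ^ θ * C = D := by
    have : 0 < 2 - (2 : ℝ) ^ θ := by linarith
    exact ⟨2 * 2 ^ θ * C / (2 - 2 ^ θ), by positivity, by field_simp; ring⟩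
  have key : ∀ (n : ℕ) (y : ℝ) (s : Finset ι), 0 < y → y < 2 ^ n →
      (∀ i ∈ s, 1 ≤ N i ∧ N i ≤ y) → ∑ i ∈ s, w i * (y / N i) ^ θ ≤ D * y := by
    intro n
    induction n with
    | zero =>
      intro y s y0 hy hs
      rw [sum_eq_zero fun i hi => absurd ((hs i hi).1.trans (hs i hi).2) (by simpa using hy)]
      positivity
    | succ n ih =>
      intro y s y0 hy hs
      have a1 := ih (y / 2) (s.filter fun i => N i ≤ y / 2) (by positivity)
        (by rw [pow_succ] at hy; linarith)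
        fun i hi => ⟨(hs i (mem_filter.1 hi).1).1, (mem_filter.1 hi).2⟩
      have a2 := h y (s.filter fun i => ¬ N i ≤ y / 2) y0 fun i hi => hs i (mem_filter.1 hi).1
      rw [← sum_filter_add_sum_filter_not s fun i => N i ≤ y / 2, ← hD, add_mul]
      refine add_le_add (le_trans (le_of_eq ?_) ((mul_le_mul_of_nonneg_left a1 q0.le).trans
        (le_of_eq (by ring)))) (le_trans ?_ ((mul_le_mul_of_nonneg_left a2 q0.le).trans
        (le_of_eq (by ring))))
      · rw [mul_sum]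
        refine sum_congr rfl fun i hi => ?_
        have := (hs i (mem_filter.1 hi).1).1
        rw [mul_left_comm, ← Real.mul_rpow zero_le_two (by positivity)]
        congr 2
        ring
      · rw [mul_sum]
        refine sum_le_sum fun i hi => ?_
        have b1 := (hs i (mem_filter.1 hi).1).1
        have b2 := not_le.1 (mem_filter.1 hi).2
        rw [mul_comm]
        exact mul_le_mul_of_nonneg_right (Real.rpow_le_rpow (by positivity)
          ((div_le_iff₀ (by linarith)).2 (by linarith)) h0) (w0 i)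
  exact ⟨D, fun y s y0 hs => (pow_unbounded_of_one_lt y one_lt_two).elim fun n hn =>
    key n y s y0 hn hs⟩

/-- the indicator of the odd ideals -/
noncomputable def g (I : Ideal (𝓞 K)) : ℝ := if Cop 2 I then 1 else 0

omit [NumberField K] in
theorem g_coe (I : Ideal (𝓞 K)) : (g I : ℂ) = triv K 2 I := by
  rw [DS.triv_apply, g]; split_ifs <;> simp

omit [NumberField K] in
theorem g_mem (I : Ideal (𝓞 K)) : 0 ≤ g I ∧ g I ≤ 1 := by
  rw [g]; split_ifs <;> simp

theorem count (c : Cx k K) : ∃ ρ A η : ℝ, 0 < ρ ∧ 0 ≤ A ∧ 0 < η ∧ η ≤ 1 ∧ ∀ x : ℝ, 1 ≤ x →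
    |∑ I ∈ ids K x, g I - ρ * x| ≤ A * x ^ (1 - η) := by
  obtain ⟨B, -⟩ := c.bf
  obtain ⟨Q, Q2, hQ⟩ := c.small
  obtain ⟨N, hN⟩ := c.lib.pss k B (Module.finrank k K)
  obtain ⟨r0, -, h, -⟩ := hN K rfl Q 2 Q2 hQ le_rfl
  have r1 := c.one_le_rk
  have r4 : 1 / (4 * rk k K) ≤ 1 := (div_le_one (by linarith)).2 (by linarith)
  refine ⟨Rs K 2, (Q * (2 : ℕ)) ^ N + Rs K 2, 1 / (4 * rk k K), r0, by positivity, by positivity,
    r4, fun x hx => ?_⟩
  have e := fib (triv K 2) (fun _ => 1) x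
  simp only [mul_one] at e
  have h1 := h ⌊x⌋₊
  rw [← e] at h1
  simp only [← g_coe] at h1
  rw [← Complex.ofReal_sum, ← Complex.ofReal_sub, Complex.norm_real, Real.norm_eq_abs] at h1
  have h2 := Real.rpow_le_rpow (Nat.cast_nonneg _) (Nat.floor_le (zero_le_one.trans hx))
    (sub_nonneg.2 r4)
  have h3 := Real.one_le_rpow hx (sub_nonneg.2 r4)
  have h4 : |Rs K 2 * (⌊x⌋₊ : ℝ) - Rs K 2 * x| ≤ Rs K 2 * 1 := by
    rw [← mul_sub, abs_mul, abs_of_pos r0]
    exact mul_le_mul_of_nonneg_left (Nat.abs_floor_sub_le (by linarith)) r0.le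
  rw [add_mul]
  exact (abs_sub_le _ _ _).trans (add_le_add (h1.trans (mul_le_mul_of_nonneg_left h2
    (by positivity))) (h4.trans (mul_le_mul_of_nonneg_left h3 r0.le)))

theorem geo {x : ℝ} (hx : 2 ≤ x) (m : ℕ) : ∑ j ∈ Ioc 1 m, (x ^ j)⁻¹ ≤ 2 / x ^ 2 := by
  have x0 : 0 < x := by linarith
  have : ∀ n, ∑ j ∈ Ioc 1 (n + 1), (x ^ j)⁻¹ ≤ 2 / x ^ 2 - 2 / x ^ (n + 2) := fun n => by
    induction n with
    | zero => simp
    | succ n ih =>
      rw [sum_Ioc_succ_top (by omega)]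
      have : 2 / x ^ (n + 1 + 2) ≤ (x ^ (n + 2))⁻¹ := by
        rw [pow_succ x (n + 2), div_le_iff₀ (by positivity), inv_mul_cancel_left₀ (by positivity)]
        exact hx
      rw [div_eq_mul_inv 2 (x ^ (n + 2))] at ih
      change _ + (x ^ (n + 2))⁻¹ ≤ _
      linarith
  rcases m with _ | m
  · simp only [show Ioc 1 0 = ∅ from rfl, sum_empty]; positivity
  · exact (this m).trans (sub_le_self _ (by positivity))

end PME1

open PME1

set_option linter.unusedVariables false in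
theorem y_mEI (c : Cx k K) : Y_MEI K := by
  refine ⟨fib, fun g y m hm => ?_⟩
  simp only [shift, mul_sum]
  rw [sum_congr rfl fun v _ => sum_comm, sum_comm]
  refine sum_congr rfl fun I hI => ?_
  rw [log_eq hm hI, Complex.ofReal_sum, mul_sum]
  refine sum_congr rfl fun v _ => ?_
  rw [Complex.ofReal_sum, mul_sum]
  refine sum_congr rfl fun j _ => ?_
  split_ifs
  · exact mul_comm _ _
  · simp

theorem y_mE1 (c : Cx k K) (hCH1 : Y_CH1 K) (hCH2 : Y_CH2 K) (hMEI : Y_MEI K) : Y_ME1 K := by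
  obtain ⟨ρ, A, η, r0, A0, e0, e1, hT⟩ := count c
  obtain ⟨C1, c1, h1⟩ := hCH1
  obtain ⟨C2, -, -, -, -, h2⟩ := hCH2
  obtain ⟨C3, c3, h3⟩ := c.cnt.1
  have t0 : 0 ≤ 1 - η := by linarith
  obtain ⟨D1, d1⟩ := dy (fun I : Ideal (𝓞 K) => NN I) (fun _ => 1) (θ := 1 / 2) (C := C3)
    (by norm_num) (by norm_num) (by linarith) (fun _ => zero_le_one) fun t s t0 hs => by
      simpa using h3 t s t0.le fun I hI =>
        ⟨fun e => by have := (hs I hI).1; norm_num [e, NN] at this, (hs I hI).2⟩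
  obtain ⟨D2, d2⟩ := dy (fun v : Pl K => nv v) (fun v => Real.log (nv v)) (θ := 1 - η) (C := C1)
    (by linarith) t0 (by linarith) (fun v => (log_nv_pos v).le) fun t s t0 hs => by
      rcases s.eq_empty_or_nonempty with rfl | ⟨v, hv⟩
      · rw [sum_empty]; positivity
      have a := (two_le_NN v).trans (hs v hv).2
      have l := Real.log_pos (one_lt_two.trans_le a)
      refine (sum_le_card_nsmul s _ (Real.log t) fun w hw =>
        Real.log_le_log (nv_pos w) (hs w hw).2).trans ?_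
      rw [nsmul_eq_mul, ← le_div_iff₀ l]
      exact le_trans (Nat.cast_le.2 (card_le_card fun w hw =>
        mem_pls.2 ⟨nv_pos w, (hs w hw).2⟩)) (h1 t a).1
  obtain ⟨E, hE⟩ : ∃ E : Finset (Pl K), ∀ v, v ∈ E ↔ Dv 2 v :=
    ⟨_, fun v => (finite_dv K two_ne_zero).mem_toFinset⟩
  refine ⟨(A / η + 2 * D1 + (A * D2 + 2 * C3 * C2 + ρ * lw E)) / ρ, fun y hy => ?_⟩
  have y0 : 0 < y := by linarith
  have l0 := Real.log_nonneg hy
  obtain ⟨m, hm⟩ := pow_unbounded_of_one_lt y one_lt_two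
  have id : ∑ I ∈ ids K y, g I * Real.log (NN I) = ∑ v ∈ pls K 0 y, ∑ j ∈ Icc 1 (m + 1),
      Real.log (nv v) * ∑ J ∈ ids K (y / nv v ^ j), g (v.asIdeal ^ j * J) := by
    exact_mod_cast hMEI.2 (fun I => g I) y (m + 1) (hm.trans (by rw [pow_succ]; linarith))
  have L : |∑ I ∈ ids K y, g I * Real.log (NN I) - ρ * y * Real.log y| ≤ (A / η + 2 * D1) * y := by
    have a1 : |(∑ I ∈ ids K y, g I) * Real.log y - ρ * y * Real.log y| ≤ A / η * y := by
      rw [← sub_mul, abs_mul, abs_of_nonneg l0]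
      refine (mul_le_mul (hT y hy) (Real.log_le_rpow_div y0.le e0) l0 (by positivity)).trans
        (le_of_eq ?_)
      rw [mul_div_assoc', mul_assoc, ← Real.rpow_add y0, sub_add_cancel, Real.rpow_one]
      ring
    have a2 : |∑ I ∈ ids K y, g I * Real.log (NN I) - (∑ I ∈ ids K y, g I) * Real.log y| ≤
        2 * (D1 * y) := by
      rw [sum_mul, ← sum_sub_distrib]
      refine (abs_sum_le_sum_abs _ _).trans (le_trans ?_ (mul_le_mul_of_nonneg_left
        (d1 y (ids K y) y0 fun I hI => ⟨one_le_NN (mem_ids.1 hI).1, (mem_ids.1 hI).2⟩) zero_le_two))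
      rw [mul_sum]
      refine sum_le_sum fun I hI => ?_
      have b0 := NN_pos (mem_ids.1 hI).1
      have b1 := Real.log_le_rpow_div (div_pos y0 b0).le one_half_pos
      have b2 := Real.log_nonneg ((one_le_div b0).2 (mem_ids.1 hI).2)
      rw [← mul_sub, abs_mul, abs_sub_comm, ← Real.log_div y0.ne' b0.ne', abs_of_nonneg b2,
        abs_of_nonneg (g_mem I).1]
      have := mul_le_of_le_one_left b2 (g_mem I).2
      linarith
    have := abs_sub_le (∑ I ∈ ids K y, g I * Real.log (NN I))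
      ((∑ I ∈ ids K y, g I) * Real.log y) (ρ * y * Real.log y)
    linarith
  have R : |∑ I ∈ ids K y, g I * Real.log (NN I) - ρ * y * lw (pls K 0 y)| ≤
      (A * D2 + 2 * C3 * C2 + ρ * lw E) * y := by
    have a : ∀ v ∈ pls K 0 y, |∑ j ∈ Icc 1 (m + 1), Real.log (nv v) *
        ∑ J ∈ ids K (y / nv v ^ j), g (v.asIdeal ^ j * J) - ρ * y * (Real.log (nv v) / nv v)| ≤
        A * (Real.log (nv v) * (y / nv v) ^ (1 - η)) + 2 * C3 * y * (Real.log (nv v) / nv v ^ 2) +
          if v ∈ E then ρ * y * (Real.log (nv v) / nv v) else 0 := by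
      intro v hv
      have n0 := nv_pos v
      have b0 := (log_nv_pos v).le
      have b1 : |∑ j ∈ Ioc 1 (m + 1), ∑ J ∈ ids K (y / nv v ^ j), g (v.asIdeal ^ j * J)| ≤
          C3 * y * (2 / nv v ^ 2) := by
        rw [abs_of_nonneg (sum_nonneg fun _ _ => sum_nonneg fun _ _ => (g_mem _).1)]
        refine le_trans ?_ (mul_le_mul_of_nonneg_left (geo (two_le_NN v) (m + 1)) (by positivity))
        rw [mul_sum]
        refine sum_le_sum fun j _ => (sum_le_card_nsmul _ _ 1 fun _ _ => (g_mem _).2).trans ?_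
        rw [nsmul_one, mul_assoc, ← div_eq_mul_inv]
        exact h3 _ _ (by positivity) fun I => mem_ids.1
      have b2 : |∑ J ∈ ids K (y / nv v), g (v.asIdeal * J) - ρ * (y / nv v)| ≤
          A * (y / nv v) ^ (1 - η) + if v ∈ E then ρ * (y / nv v) else 0 := by
        split_ifs with h
        · have h' : ¬ Cop 2 v.asIdeal := fun e => (cop_prime_iff v).1 e ((hE v).1 h)
          rw [sum_eq_zero fun J _ => show g (v.asIdeal * J) = 0 from
            if_neg fun e => h' (IsCoprime.of_mul_left_left e), zero_sub,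
            abs_neg, abs_of_nonneg (by positivity)]
          exact le_add_of_nonneg_left (by positivity)
        · have h' : Cop 2 v.asIdeal := (cop_prime_iff v).2 fun e => h ((hE v).2 e)
          rw [add_zero, sum_congr rfl fun J _ => show g (v.asIdeal * J) = g J from
            if_congr ⟨IsCoprime.of_mul_left_right, IsCoprime.mul_left h'⟩ rfl rfl]
          exact hT _ ((one_le_div n0).2 (mem_pls.1 hv).2)
      rw [← mul_sum, ← Ioc_insert_left (by omega : 1 ≤ m + 1), sum_insert left_notMem_Ioc, pow_one,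
        pow_one, show ρ * y * (Real.log (nv v) / nv v) = Real.log (nv v) * (ρ * (y / nv v)) by ring,
        ← mul_sub, abs_mul, abs_of_nonneg b0, add_sub_right_comm]
      refine (mul_le_mul_of_nonneg_left ((abs_add_le _ _).trans (add_le_add b2 b1)) b0).trans
        (le_of_eq ?_)
      split_ifs <;> ring
    rw [id, lw, mul_sum, ← sum_sub_distrib]
    refine (abs_sum_le_sum_abs _ _).trans ((sum_le_sum a).trans ?_)
    rw [sum_add_distrib, sum_add_distrib, ← mul_sum, ← mul_sum, sum_ite_mem, ← mul_sum]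
    have b1 := mul_le_mul_of_nonneg_left (d2 y (pls K 0 y) y0 fun v hv =>
      ⟨one_le_two.trans (two_le_NN v), (mem_pls.1 hv).2⟩) A0
    have b2 := mul_le_mul_of_nonneg_left (h2 1 (pls K 0 y) le_rfl fun v _ =>
      one_lt_two.trans_le (two_le_NN v)) (by positivity : 0 ≤ 2 * C3 * y)
    have b3 := mul_le_mul_of_nonneg_left (lw_mono (inter_subset_right (s₁ := pls K 0 y) (s₂ := E)))
      (by positivity : 0 ≤ ρ * y)
    rw [Real.sqrt_one, div_one] at b2
    unfold lw at b3 ⊢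
    linarith
  rw [le_div_iff₀ r0]
  refine le_of_mul_le_mul_right ?_ y0
  have := abs_sub_le (ρ * y * lw (pls K 0 y)) (∑ I ∈ ids K y, g I * Real.log (NN I))
    (ρ * y * Real.log y)
  rw [← mul_sub, abs_mul, abs_of_pos (mul_pos r0 y0), abs_sub_comm (ρ * y * _)] at this
  linarith

end Pool.Agent.P.MP_b8021b_nt.BP
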