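import Pool.Agent.P.MP_b8021b_nt.BP.StC
import Pool.Agent.P.MP_b8021b_nt.VC.PDen

/-! The first theorem of Mertens for a nontrivial ray class character. -/

namespace Pool.Agent.P.MP_b8021b_nt.BP

open NumberField IsDedekindDomain Finset MeasureTheory
open Pool.Agent.P.MP_b8021b_nt.VE Pool.Agent.P.MP_b8021b_nt.VC Pool.Agent.P.MP_b8021b_nt.BS.CF
open Pool.Agent.P.MP_b8021b_nt.BS
open scoped Classical ComplexConjugate Real
variable {k : Type} [Field k] [NumberField k] [Algebra k ℂ] {K : Type} [Field K] [NumberField K]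
  [Algebra k K]

namespace PME2

theorem dy (hCH1 : Y_CH1 K) {η : ℝ} (h0 : 0 < η) : ∃ D : ℝ, ∀ y : ℝ, 0 < y →
    ∑ v ∈ pls K 0 y, Real.log (nv v) / nv v * nv v ^ η ≤ D * y ^ η := by
  obtain ⟨C, hC, h⟩ := hCH1
  set q : ℝ := (2 ^ η)⁻¹ with hq
  have q1 : 0 < 1 - q := sub_pos.2 (inv_lt_one_of_one_lt₀ (Real.one_lt_rpow one_lt_two h0))
  have key : ∀ (j : ℕ) (y : ℝ), 0 < y → y < 2 ^ j →
      ∑ v ∈ pls K 0 y, Real.log (nv v) / nv v * nv v ^ η ≤ 2 * C / (1 - q) * y ^ η := by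
    intro j
    induction j with
    | zero =>
      intro y y0 hy
      rw [sum_eq_zero fun v hv => absurd (mem_pls.1 hv).2 (by linarith [two_le_NN v])]
      positivity
    | succ j ih =>
      intro y y0 hy
      rcases lt_or_ge y 2 with y2 | y2
      · rw [sum_eq_zero fun v hv => absurd (mem_pls.1 hv).2 (by linarith [two_le_NN v])]
        positivity
      have l0 : 0 < Real.log y := Real.log_pos (by linarith)
      have a1 := ih (y / 2) (by positivity) (by rw [pow_succ] at hy; linarith)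
      have sub := pls_mono (K := K) (le_refl 0) (half_le_self y0.le)
      have a2 : ∑ v ∈ pls K 0 y \ pls K 0 (y / 2), Real.log (nv v) / nv v * nv v ^ η ≤
          2 * C * y ^ η := by
        refine (sum_le_card_nsmul _ _ (Real.log y / (y / 2) * y ^ η) fun v hv => ?_).trans ?_
        · obtain ⟨b1, b2⟩ := mem_sdiff.1 hv
          have b3 := (mem_pls.1 b1).2
          have b4 : y / 2 ≤ nv v := not_lt.1 fun e => b2 (mem_pls.2 ⟨nv_pos v, e.le⟩)
          have := nv_pos v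
          have := log_nv_pos v
          gcongr
        · rw [nsmul_eq_mul]
          refine (mul_le_mul_of_nonneg_right ((Nat.cast_le.2 (card_le_card sdiff_subset)).trans
            (h y y2).1) (by positivity)).trans (le_of_eq ?_)
          field_simp
      rw [← sum_sdiff sub]
      refine (add_le_add a2 a1).trans (le_of_eq ?_)
      rw [Real.div_rpow y0.le two_pos.le, div_eq_mul_inv (y ^ η), ← hq]
      field_simp
      ring
  refine ⟨2 * C / (1 - q), fun y y0 => ?_⟩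
  obtain ⟨j, hj⟩ := pow_unbounded_of_one_lt y (one_lt_two (α := ℝ))
  exact key j y y0 hj

theorem geo {x : ℝ} (hx : 2 ≤ x) (m : ℕ) : ∑ j ∈ Icc 2 (m + 1), (x ^ j)⁻¹ ≤ 2 / x ^ 2 := by
  have x0 : 0 < x := by linarith
  have key : ∀ m : ℕ, ∑ j ∈ Icc 2 (m + 1), (x ^ j)⁻¹ ≤ 2 / x ^ 2 - 2 / x ^ (m + 2) := by
    intro m
    induction m with
    | zero => simp
    | succ m ih =>
      rw [sum_Icc_succ_top (by omega)]
      have : (x ^ (m + 2))⁻¹ + 2 / x ^ (m + 1 + 2) ≤ 2 / x ^ (m + 2) := by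
        have : 2 / x ^ (m + 1 + 2) ≤ (x ^ (m + 2))⁻¹ := by
          rw [div_le_iff₀ (by positivity), show m + 1 + 2 = m + 2 + 1 by ring, pow_succ x (m + 2),
            inv_mul_cancel_left₀ (by positivity)]
          exact hx
        rw [div_eq_mul_inv 2 (x ^ (m + 2))]
        linarith
      linarith
  exact (key m).trans (sub_le_self _ (by positivity))

theorem ne_zero {χ : Ideal (𝓞 K) →* ℂ} (ep : S_EP) (b1 : ∀ I, ‖χ I‖ ≤ 1) {C A : ℝ} {z : ℂ}
    (hA : 0 ≤ A) (hC : ∀ s : ℝ, 1 < s → s ≤ 2 → -C ≤ dsum (lam χ) s)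
    (h : ∀ s : ℂ, 1 < s.re → ‖s - 1‖ ≤ 1 → LSeriesSummable (lam χ) s →
      ‖LSeries (lam χ) s - z‖ ≤ A * ‖s - 1‖) : z ≠ 0 := by
  rintro rfl
  obtain ⟨C1, c1⟩ := Den.cmp ep χ b1
  set e := Real.exp (-C - C1)
  have e0 : 0 < e := Real.exp_pos _
  set δ := min 1 (e / (A + 1))
  have d0 : 0 < δ := lt_min one_pos (by positivity)
  have d1 : δ ≤ 1 := min_le_left _ _
  have d2 : δ * (A + 1) ≤ e := (le_div_iff₀ (by positivity)).1 (min_le_right _ _)
  have s1 : 1 < 1 + δ := by linarith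
  have n1 : ‖((1 + δ : ℝ) : ℂ) - 1‖ = δ := by
    rw [Complex.ofReal_add, Complex.ofReal_one, add_sub_cancel_left, Complex.norm_real,
      Real.norm_of_nonneg d0.le]
  have a1 := h (1 + δ : ℝ) s1 (n1.trans_le d1) (ep K χ _ b1 s1).1
  obtain ⟨c2, c3⟩ := c1 _ s1
  have a2 : e ≤ ‖LSeries (lam χ) (1 + δ : ℝ)‖ := by
    rw [← Real.le_log_iff_exp_le (norm_pos_iff.2 c2)]
    linarith [(abs_le.1 c3).2, hC _ s1 (by linarith)]
  rw [n1, sub_zero] at a1
  linarith

end PME2

open PME2 in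
theorem y_mE2 (c : Cx k K) (hLIP : Y_LIP) (hCH1 : Y_CH1 K) (hCH2 : Y_CH2 K) (hMEI : Y_MEI K) :
    Y_ME2 K := by
  rintro n χ hn hχ hT ⟨C₀, hC₀⟩
  have b1 := DS.norm_le_one hχ.toIsChar
  obtain ⟨A, η₀, η0, hA⟩ := c.lib.i.ps K c.om n χ hn hχ hT
  have A0 : 0 ≤ A := by simpa using (norm_nonneg _).trans (hA 1)
  set η := min η₀ (1 / 2)
  have e0 : 0 < η := lt_min η0 one_half_pos
  have e1 : η ≤ 1 := (min_le_right _ _).trans (by norm_num)
  obtain ⟨z, A', A1, h1, h2⟩ := hLIP (lam χ) A η e0 e1 fun X => by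
    rcases Nat.eq_zero_or_pos X with rfl | hX
    · simp only [Nat.cast_zero, zero_lt_one, Icc_eq_empty_of_lt, sum_empty, norm_zero]
      positivity
    · exact (hA X).trans (mul_le_mul_of_nonneg_left (Real.rpow_le_rpow_of_exponent_le
        (by exact_mod_cast hX) (by linarith [min_le_left η₀ (1 / 2)])) A0)
  have z0 : 0 < ‖z‖ := norm_pos_iff.2 (ne_zero c.lib.i.ep b1 A1 hC₀ h2)
  obtain ⟨D, hD⟩ := dy hCH1 e0
  obtain ⟨C₂, -, -, -, -, h4⟩ := hCH2
  set T : ℝ → ℂ := fun x => ∑ J ∈ ids K x, χ J * ((Ideal.absNorm J : ℂ))⁻¹ with hT'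
  have t1 : ∀ x : ℝ, 1 ≤ x → ‖T x - z‖ ≤ 2 * A' * x ^ (-η) := fun x hx => by
    have f1 : 1 ≤ ⌊x⌋₊ := Nat.le_floor (by exact_mod_cast hx)
    have f2 : x ≤ 2 * ⌊x⌋₊ := by
      have : (1 : ℝ) ≤ ⌊x⌋₊ := by exact_mod_cast f1
      linarith [Nat.lt_floor_add_one x]
    rw [hT']
    dsimp only
    rw [hMEI.1 χ (fun j => (j : ℂ)⁻¹) x]
    refine (h1 _ f1).1.trans ?_
    rw [mul_comm 2, mul_assoc]
    refine mul_le_mul_of_nonneg_left ?_ A1
    calc _ ≤ (x / 2) ^ (-η) := Real.rpow_le_rpow_of_nonpos (by linarith) (by linarith) (by linarith)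
      _ = 2 ^ η * x ^ (-η) := by
        rw [Real.div_rpow (by linarith) two_pos.le, Real.rpow_neg two_pos.le, div_inv_eq_mul,
          mul_comm]
      _ ≤ _ := mul_le_mul_of_nonneg_right
        ((Real.rpow_le_rpow_of_exponent_le one_le_two e1).trans_eq (Real.rpow_one 2))
        (by positivity)
  have t2 : ∀ x : ℝ, ‖T x‖ ≤ ‖z‖ + 2 * A' := fun x => by
    rcases lt_or_ge x 1 with hx | hx
    · rw [show T x = 0 from sum_eq_zero fun J hJ => absurd (mem_ids.1 hJ).2
        (by linarith [one_le_NN (mem_ids.1 hJ).1]), norm_zero]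
      positivity
    · have := Real.rpow_le_one_of_one_le_of_nonpos hx (neg_nonpos.2 e0.le)
      linarith [norm_sub_norm_le (T x) z, t1 x hx, mul_le_of_le_one_right (mul_nonneg two_pos.le A1) this]
  refine ⟨(A' + 2 * A' * D + (‖z‖ + 2 * A') * (2 * C₂)) / ‖z‖, fun y hy => ?_⟩
  have y0 : 0 < y := by linarith
  obtain ⟨m, hm⟩ := pow_unbounded_of_one_lt y (one_lt_two (α := ℝ))
  have k1 := hMEI.2 (fun I => χ I * ((Ideal.absNorm I : ℂ))⁻¹) y (m + 1)
    (hm.trans_le (pow_le_pow_right₀ one_le_two m.le_succ))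
  have k2 : ‖∑ I ∈ ids K y, χ I * ((Ideal.absNorm I : ℂ))⁻¹ * (Real.log (NN I) : ℝ)‖ ≤ A' := by
    have := hMEI.1 χ (fun j => (Real.log j / j : ℝ)) y
    rw [sum_congr rfl fun I _ => show _ = χ I * (Real.log (Ideal.absNorm I) / Ideal.absNorm I : ℝ) by
      push_cast; ring, this]
    exact (h1 _ (Nat.le_floor (by exact_mod_cast hy))).2
  have k3 : ∀ (v : Pl K) (j : ℕ), ∑ J ∈ ids K (y / nv v ^ j),
      χ (v.asIdeal ^ j * J) * ((Ideal.absNorm (v.asIdeal ^ j * J) : ℂ))⁻¹ =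
      χ v.asIdeal ^ j * ((nv v ^ j)⁻¹ : ℝ) * T (y / nv v ^ j) := fun v j => by
    rw [hT', mul_sum]
    refine sum_congr rfl fun J _ => ?_
    simp only [map_mul, map_pow, nv, NN]
    push_cast
    ring
  simp only [k3] at k1
  have k4 : z * ∑ v ∈ pls K 0 y, χ v.asIdeal * (Real.log (nv v) / nv v : ℝ) =
      ∑ I ∈ ids K y, χ I * ((Ideal.absNorm I : ℂ))⁻¹ * (Real.log (NN I) : ℝ) -
      ∑ v ∈ pls K 0 y, χ v.asIdeal * (Real.log (nv v) / nv v : ℝ) * (T (y / nv v) - z) -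
      ∑ v ∈ pls K 0 y, ∑ j ∈ Icc 2 (m + 1), (Real.log (nv v) : ℝ) *
        (χ v.asIdeal ^ j * ((nv v ^ j)⁻¹ : ℝ) * T (y / nv v ^ j)) := by
    rw [k1, mul_sum, ← sum_sub_distrib, ← sum_sub_distrib]
    refine sum_congr rfl fun v _ => ?_
    rw [← Finset.insert_Icc_add_one_left_eq_Icc (by omega : 1 ≤ m + 1), sum_insert (by simp)]
    simp only [pow_one]
    push_cast
    ring
  have k5 : ‖∑ v ∈ pls K 0 y, χ v.asIdeal * (Real.log (nv v) / nv v : ℝ) * (T (y / nv v) - z)‖ ≤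
      2 * A' * D := by
    calc _ ≤ ∑ v ∈ pls K 0 y, 2 * A' * y ^ (-η) * (Real.log (nv v) / nv v * nv v ^ η) := by
          refine norm_sum_le_of_le _ fun v hv => ?_
          have v0 := nv_pos v
          have v1 := log_nv_pos v
          rw [norm_mul, norm_mul, Complex.norm_real, Real.norm_of_nonneg (by positivity)]
          refine (mul_le_mul (mul_le_of_le_one_left (by positivity) (b1 _))
            (t1 _ ((one_le_div v0).2 (mem_pls.1 hv).2)) (norm_nonneg _) (by positivity)).trans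
            (le_of_eq ?_)
          rw [Real.div_rpow y0.le v0.le, Real.rpow_neg v0.le, div_inv_eq_mul]
          ring
      _ ≤ 2 * A' * y ^ (-η) * (D * y ^ η) := by
          rw [← mul_sum]
          exact mul_le_mul_of_nonneg_left (hD y y0) (by positivity)
      _ = _ := by
          rw [Real.rpow_neg y0.le]
          field_simp
  have k6 : ‖∑ v ∈ pls K 0 y, ∑ j ∈ Icc 2 (m + 1), (Real.log (nv v) : ℝ) *
        (χ v.asIdeal ^ j * ((nv v ^ j)⁻¹ : ℝ) * T (y / nv v ^ j))‖ ≤ (‖z‖ + 2 * A') * (2 * C₂) := by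
    calc _ ≤ ∑ v ∈ pls K 0 y, (‖z‖ + 2 * A') * (2 * (Real.log (nv v) / nv v ^ 2)) := by
          refine norm_sum_le_of_le _ fun v _ => ?_
          have v0 := nv_pos v
          have v1 := log_nv_pos v
          calc _ ≤ ∑ j ∈ Icc 2 (m + 1), (‖z‖ + 2 * A') * Real.log (nv v) * (nv v ^ j)⁻¹ := by
                refine norm_sum_le_of_le _ fun j _ => ?_
                rw [norm_mul, norm_mul, norm_mul, Complex.norm_real, Complex.norm_real,
                  Real.norm_of_nonneg v1.le, Real.norm_of_nonneg (by positivity), norm_pow]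
                refine (mul_le_mul_of_nonneg_left (mul_le_mul (mul_le_of_le_one_left
                  (by positivity) (pow_le_one₀ (norm_nonneg _) (b1 _))) (t2 _) (norm_nonneg _)
                  (by positivity)) v1.le).trans (le_of_eq (by ring))
            _ ≤ (‖z‖ + 2 * A') * Real.log (nv v) * (2 / nv v ^ 2) := by
                rw [← mul_sum]
                exact mul_le_mul_of_nonneg_left (geo (two_le_NN v) m) (by positivity)
            _ = _ := by ring
      _ ≤ _ := by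
          rw [← mul_sum, ← mul_sum]
          have := h4 1 (pls K 0 y) le_rfl fun v _ => one_lt_two.trans_le (two_le_NN v)
          rw [Real.sqrt_one, div_one] at this
          gcongr
  rw [le_div_iff₀ z0, mul_comm, ← norm_mul, k4]
  exact (norm_sub_le _ _).trans (add_le_add ((norm_sub_le _ _).trans (add_le_add k2 k5)) k6)

end Pool.Agent.P.MP_b8021b_nt.BP
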