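import Pool.Agent.P.MP_b8021b_nt.BP.StC

/-! Gaussian mean values of periodic functions, and the value of the Gauss sum. -/

namespace Pool.Agent.P.MP_b8021b_nt.BP

open NumberField IsDedekindDomain Finset MeasureTheory
open Pool.Agent.P.MP_b8021b_nt.VE Pool.Agent.P.MP_b8021b_nt.VC Pool.Agent.P.MP_b8021b_nt.BS.CF
open Pool.Agent.P.MP_b8021b_nt.BS
open scoped Classical ComplexConjugate Real

variable {k : Type} [Field k] [NumberField k] [Algebra k ℂ] {K : Type} [Field K] [NumberField K]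
  [Algebra k K]

namespace PMV

theorem ft_eq {𝔮 : Ideal (𝓞 K)} (h : 𝔮 ≠ ⊥) (F : 𝓞 K → ℂ) (ξ : K) :
    ft 𝔮 F ξ = (NN 𝔮 : ℝ) * PoiN.av 𝔮 fun x => F x * etr (ξ * (x : 𝓞 K)) := by
  rw [PoiN.av, ft, NN, Complex.ofReal_natCast, mul_div_cancel₀ _ (PoiN.nm_ne h)]

theorem ft_zero {𝔮 : Ideal (𝓞 K)} (h : 𝔮 ≠ ⊥) (F : 𝓞 K → ℂ) :
    ft 𝔮 F 0 = (NN 𝔮 : ℝ) * PoiN.av 𝔮 F := by
  simp only [ft_eq h, zero_mul, etr_zero, mul_one]

theorem norm_ft {𝔮 : Ideal (𝓞 K)} (h : 𝔮 ≠ ⊥) {F : 𝓞 K → ℂ} (hF : ∀ x, ‖F x‖ ≤ 1) (ξ : K) :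
    ‖ft 𝔮 F ξ‖ ≤ NN 𝔮 := by
  have h0 : (0 : ℝ) ≤ NN 𝔮 := Nat.cast_nonneg _
  rw [ft_eq h, norm_mul, Complex.norm_real, Real.norm_of_nonneg h0]
  exact mul_le_of_le_one_right h0 (PoiN.norm_av_le h fun x => by
    rw [norm_mul, norm_etr, mul_one]; exact hF x)

/-- the dual of an ideal has a common denominator -/
theorem exists_den (c : Cx k K) {𝔮 : Ideal (𝓞 K)} (h : 𝔮 ≠ ⊥) :
    ∃ (m : ℕ) (ι : Dual 𝔮 → 𝓞 K), m ≠ 0 ∧ ∀ ξ, (m : K) * ξ.1 = ι ξ := by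
  obtain ⟨n, -, hn⟩ := c.good.1 1 one_ne_zero
  have e : ∀ ξ : Dual 𝔮, ∃ a : 𝓞 K, ((n * Ideal.absNorm 𝔮 : ℕ) : K) * ξ.1 = a := fun ξ => by
    obtain ⟨a, ha⟩ := hn.dual (ξ.1 * (Ideal.absNorm 𝔮 : ℕ)) fun b _ => by
      simpa [mul_assoc] using ξ.2 _ (𝔮.mul_mem_right b (Ideal.absNorm_mem 𝔮))
    exact ⟨a, by rw [← ha]; push_cast; ring⟩
  choose ι hι using e
  exact ⟨_, ι, mul_ne_zero hn.pos (Ideal.absNorm_eq_zero_iff.not.2 h), hι⟩

theorem gau_le {m : ℕ} (hm : m ≠ 0) {ξ : K} {a : 𝓞 K} (h : (m : K) * ξ = a) {y : Emb k K → ℝ}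
    {μ : ℝ} (hy : ∀ φ, 0 < y φ ∧ y φ ≤ μ) :
    gau (fun φ => (y φ)⁻¹) (emK k ξ) ≤ gau (fun _ => (μ * m ^ 2)⁻¹) (emb k a) := by
  refine (gau_anti (y := fun _ => μ⁻¹) (fun φ => inv_anti₀ (hy φ).1 (hy φ).2) _).trans_eq ?_
  have h0 : (m : ℝ) ≠ 0 := Nat.cast_ne_zero.2 hm
  unfold gau
  congr 2
  refine sum_congr rfl fun φ _ => ?_
  have e : emb k a φ = m * emK k ξ φ := by
    change φ (a : K) = m * φ ξ
    rw [← h, map_mul, map_natCast]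
  rw [e, norm_mul, Complex.norm_natCast, mul_inv]
  field_simp

theorem peri {γ : 𝓞 K} (h : γ ≠ 0) : Peri (sp γ) fun y : 𝓞 K => etr ((y : K) ^ 2 / γ) := by
  intro x y e
  obtain ⟨w, hw⟩ := Ideal.mem_span_singleton'.1 e
  have h0 : (γ : K) ≠ 0 := by exact_mod_cast h
  have hx : (x : K) = y + w * γ := by
    have := congrArg (fun t : 𝓞 K => (t : K)) hw
    push_cast at this
    linear_combination -this
  have e1 : (x : K) ^ 2 / γ = (y : K) ^ 2 / γ + (w : K) * ((y + y + w * γ : 𝓞 K) : K) := by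
    rw [hx]; push_cast; field_simp; ring
  beta_reduce
  rw [e1, etr_add, etr_of_dual (coe_mem_dual ⊤ w) Submodule.mem_top, mul_one]

end PMV

open PMV in
theorem y_mV (c : Cx k K) : Y_MV k K := by
  intro 𝔮 h𝔮
  obtain ⟨m, ι, hm, hι⟩ := exists_den c h𝔮
  obtain ⟨hs, C, hC, -, hb, -⟩ := c.gs
  have hW := c.cW_pos
  have hm0 : (0 : ℝ) < m := Nat.cast_pos.2 (Nat.pos_of_ne_zero hm)
  have hmK : (m : K) ≠ 0 := Nat.cast_ne_zero.2 hm
  refine ⟨1 + cW k K * C * ((m : ℝ) ^ 2) ^ rk k K, le_add_of_nonneg_right (by positivity),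
    fun F y μ hF hF1 hy => ?_⟩
  have hμ : 0 < μ := by
    have : Nonempty (Emb k K) := Fintype.card_pos_iff.1 (by
      rw [c.card_emb]; exact_mod_cast one_pos.trans_le c.one_le_rk)
    obtain ⟨φ⟩ := this
    exact (hy φ).1.trans_le (hy φ).2
  have hN : 0 < NN 𝔮 := one_pos.trans_le (one_le_NN h𝔮)
  have inj : Function.Injective ι := fun ξ ξ' e =>
    Subtype.ext (mul_left_cancel₀ hmK (by rw [hι, hι, e]))
  set z : Dual 𝔮 := ⟨0, by simpa using coe_mem_dual 𝔮 0⟩ with hz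
  have z0 : ι z = 0 := by
    have := hι z
    rw [hz, mul_zero] at this
    exact_mod_cast this.symm
  set ν : ℝ := (μ * m ^ 2)⁻¹ with hν
  have hν0 : 0 < ν := by positivity
  have s1 : Summable fun x : 𝓞 K => gau (fun _ => ν) (emb k x) := by
    simpa using hs (fun _ => ν) 0 fun _ => hν0
  have g0 : ∀ x : 𝓞 K, 0 ≤ if x = 0 then 0 else gau (fun _ => ν) (emb k x) := fun x => by
    split_ifs; exacts [le_rfl, (gau_pos _ _).le]
  have s2 : Summable fun x : 𝓞 K => if x = 0 then 0 else gau (fun _ => ν) (emb k x) :=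
    s1.of_nonneg_of_le g0 fun x => by split_ifs; exacts [(gau_pos _ _).le, le_rfl]
  set f : Dual 𝔮 → ℂ := fun ξ => ft 𝔮 F ξ.1 * (gau (fun φ => (y φ)⁻¹) (emK k ξ.1) : ℝ) with hf
  have b1 : ∀ ξ, ‖f ξ‖ ≤ NN 𝔮 * gau (fun _ => ν) (emb k (ι ξ)) := fun ξ => by
    rw [hf, norm_mul, Complex.norm_real, Real.norm_of_nonneg (gau_pos _ _).le]
    exact mul_le_mul (norm_ft h𝔮 hF1 _) (gau_le hm (hι ξ) hy) (gau_pos _ _).le hN.le
  have s3 : Summable f := .of_norm_bounded ((s1.comp_injective inj).mul_left (NN 𝔮)) b1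
  have b2 : ‖∑' ξ, if ξ = z then 0 else f ξ‖ ≤ NN 𝔮 * (C * ν ^ (-rk k K)) := by
    refine (tsum_of_norm_bounded ((s2.comp_injective inj).hasSum.mul_left (NN 𝔮)) fun ξ => ?_).trans
      (mul_le_mul_of_nonneg_left ((tsum_comp_le_tsum_of_inj s2 g0 inj).trans (hb ν hν0)) hN.le)
    by_cases e : ξ = z
    · simp [e, z0]
    · have e' : ι ξ ≠ 0 := fun e' => e (inj (e'.trans z0.symm))
      simpa [e, e'] using b1 ξ
  have e1 := c.t1 𝔮 F y 0 h𝔮 hF zero_le_one fun φ => (hy φ).1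
  simp only [pow_zero, one_mul] at e1
  have e2 : f z = (NN 𝔮 : ℝ) * PoiN.av 𝔮 F := by
    simp [hf, hz, ft_zero h𝔮, gau, emK]
  have e3 : (∏ φ, y φ) * ((NN 𝔮 * cov2 k K)⁻¹ * ∏ φ, (2 * y φ)⁻¹) = cW k K / NN 𝔮 := by
    rw [mul_left_comm, ← prod_mul_distrib, prod_congr rfl fun φ _ =>
      (by have := (hy φ).1; field_simp : y φ * (2 * y φ)⁻¹ = 2⁻¹), prod_const, card_univ,
      c.card_emb, cW, inv_pow]
    have := c.cov_pos
    field_simp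
  have hN' : ((NN 𝔮 : ℝ) : ℂ) ≠ 0 := Complex.ofReal_ne_zero.2 hN.ne'
  rw [e1, ← mul_assoc, ← Complex.ofReal_mul, e3, s3.tsum_eq_add_tsum_ite z, e2]
  have e4 : ∀ A B : ℂ, ((cW k K / NN 𝔮 : ℝ) : ℂ) * ((NN 𝔮 : ℝ) * A + B) - (cW k K : ℝ) * A =
      ((cW k K / NN 𝔮 : ℝ) : ℂ) * B := fun A B => by
    rw [Complex.ofReal_div]; field_simp; ring
  rw [e4, norm_mul, Complex.norm_real, Real.norm_of_nonneg (by positivity)]
  refine (mul_le_mul_of_nonneg_left b2 (by positivity)).trans ?_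
  rw [hν, Real.inv_rpow (by positivity), Real.rpow_neg (by positivity), _root_.inv_inv,
    Real.mul_rpow hμ.le (by positivity), add_mul]
  have : 0 < μ ^ rk k K := by positivity
  refine le_add_of_nonneg_of_le (by positivity) (le_of_eq ?_)
  field_simp

open PMV Filter Topology in
theorem y_lS (c : Cx k K) (hMV : Y_MV k K) (hLSb : Y_LSb k K) (hLSe : Y_LSe k K)
    (hLSd : Y_LSd K) : Y_LS K := by
  intro n hn γ hγ
  obtain ⟨z, hz⟩ := hLSe n hn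
  have key : ∀ γ : 𝓞 K, γ ≠ 0 → ((4 * n ^ 2 : ℕ) : 𝓞 K) ∣ γ - 1 →
      (cW k K : ℝ) * PoiN.av (sp γ) (fun y : 𝓞 K => etr ((y : K) ^ 2 / γ)) =
        ((cov2 k K)⁻¹ : ℝ) * (z / (√(NN (sp γ)) : ℝ)) := fun γ h0 h1 => by
    obtain ⟨C, -, hC⟩ := hMV (sp γ) (by simpa using h0)
    refine tendsto_nhds_unique ?_ ((hz γ h1).const_mul (((cov2 k K)⁻¹ : ℝ) : ℂ))
    have t0 : Tendsto (fun ε : ℝ => C * ε ^ rk k K) (𝓝[>] 0) (𝓝 0) := by
      have hr : 0 < rk k K := one_pos.trans_le c.one_le_rk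
      have := ((Real.continuousAt_rpow_const 0 _ (Or.inr hr.le)).tendsto.mono_left
        (nhdsWithin_le_nhds (s := Set.Ioi 0))).const_mul C
      simpa [Real.zero_rpow hr.ne'] using this
    refine tendsto_iff_norm_sub_tendsto_zero.2 (squeeze_zero' (.of_forall fun _ => norm_nonneg _)
      (eventually_nhdsWithin_of_forall fun ε hε => ?_) t0)
    have h := hC _ (fun _ => ε) ε (peri h0) (fun _ => (norm_etr _).le) fun _ => ⟨hε, le_rfl⟩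
    rw [← (hLSb γ ε h0 hε).tsum_eq, tsum_mul_left, prod_const, card_univ, c.card_emb,
      ← Real.rpow_natCast, mul_left_comm] at h
    exact h
  have h1 := key 1 one_ne_zero (by simp)
  have e1 : PoiN.av (sp (1 : 𝓞 K)) (fun y : 𝓞 K => etr ((y : K) ^ 2 / ((1 : 𝓞 K) : K))) = 1 := by
    rw [PoiN.av_congr (g' := fun _ => 1) fun y => ?_, PoiN.av_const (by simp)]
    simpa [etr_zero] using peri (K := K) one_ne_zero y 0 (by simp)
  have e2 : NN (sp (1 : 𝓞 K)) = 1 := by simp [NN]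
  rw [e1, e2, Real.sqrt_one, Complex.ofReal_one, div_one, mul_one] at h1
  have h0 : γ ≠ 0 := hγ.ne_zero
  have hN : 0 < NN (sp γ) := one_pos.trans_le (one_le_NN (by simpa using h0))
  have h2 := key γ h0 hγ.1
  rw [← mul_div_assoc, ← h1, div_eq_mul_inv] at h2
  have h3 := mul_left_cancel₀ (Complex.ofReal_ne_zero.2 c.cW_pos.ne') h2
  have hd : (n : 𝓞 K) ∣ γ - 1 := Dvd.dvd.trans ⟨4 * n, by push_cast; ring⟩ hγ.1
  rw [hLSd n γ hn hγ.2 (cop_span_of_dvd hd), ft_zero (by simpa using h0), h3, ← Complex.ofReal_inv,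
    ← Complex.ofReal_mul, ← div_eq_mul_inv, Real.div_sqrt]

end Pool.Agent.P.MP_b8021b_nt.BP
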