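import Pool.Agent.P.MP_b8021b_nt.BP.StC
import Pool.Agent.P.MP_b8021b_nt.BS.PPer
import Pool.Agent.P.MP_b8021b_nt.BS.PCube

/-! Periodicity of the symbol in the generator, and sums of periodic functions over cubes. -/

namespace Pool.Agent.P.MP_b8021b_nt.BP

open NumberField IsDedekindDomain Finset MeasureTheory
open Pool.Agent.P.MP_b8021b_nt.VE Pool.Agent.P.MP_b8021b_nt.VC Pool.Agent.P.MP_b8021b_nt.BS.CF
open Pool.Agent.P.MP_b8021b_nt.BS
open scoped Classical ComplexConjugate Real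
variable {k : Type} [Field k] [NumberField k] [Algebra k ℂ] {K : Type} [Field K] [NumberField K]
  [Algebra k K]

namespace PPER

open PCube

variable {ι : Type} [Fintype ι] (b : Module.Basis ι ℤ (𝓞 K))

theorem sum_full (a : ℤ) (q : ℕ) {m : ℕ} (hm : 1 ≤ m) {F : 𝓞 K → ℂ} (hF : Peri (sp (m : 𝓞 K)) F) :
    ∑ x ∈ box b fun _ => Ico a (a + q * m), (F x - PoiN.av (sp (m : 𝓞 K)) F) = 0 := by
  have h0 : sp (m : 𝓞 K) ≠ ⊥ := by
    rw [Ne, Ideal.span_singleton_eq_bot]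
    exact Nat.cast_ne_zero.2 (by omega)
  have := PoiN.finq h0
  have := Fintype.ofFinite (𝓞 K ⧸ sp (m : 𝓞 K))
  have hz : ∑ r : 𝓞 K ⧸ sp (m : 𝓞 K), (F (Quotient.out r) - PoiN.av (sp (m : 𝓞 K)) F) = 0 := by
    rw [sum_sub_distrib, sum_const, card_univ, PoiN.card_quot, nsmul_eq_mul, PoiN.av,
      finsum_eq_sum_of_fintype, mul_div_cancel₀ _ (PoiN.nm_ne h0), sub_self]
  rw [← sum_fiberwise _ (Ideal.Quotient.mk (sp (m : 𝓞 K))), ← mul_zero ((q : ℂ) ^ Fintype.card ι),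
    ← hz, mul_sum]
  refine sum_congr rfl fun r _ => ?_
  have e : ∀ x : 𝓞 K, Ideal.Quotient.mk (sp (m : 𝓞 K)) x = r ↔
      x - Quotient.out r ∈ Ideal.span {(m : 𝓞 K)} := fun x => by
    rw [← Ideal.Quotient.eq, Ideal.Quotient.mk_out]
  rw [sum_congr rfl fun x hx => congrArg (· - PoiN.av (sp (m : 𝓞 K)) F)
    (hF x _ ((e x).1 (mem_filter.1 hx).2)), sum_const, nsmul_eq_mul,
    filter_congr fun x _ => e x, card_fibre b a q hm, Nat.cast_pow]

theorem sum_near (a : ℤ) (n : ℕ) {m : ℕ} (hm : 1 ≤ m) {F : 𝓞 K → ℂ}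
    (hF : Peri (sp (m : 𝓞 K)) F) (h1 : ∀ x, ‖F x‖ ≤ 1) :
    ‖∑ x ∈ box b fun _ => Ico a (a + n), (F x - PoiN.av (sp (m : 𝓞 K)) F)‖ ≤
      m * Fintype.card ι * (n : ℝ) ^ (Fintype.card ι - 1) * 2 := by
  have h0 : sp (m : 𝓞 K) ≠ ⊥ := by
    rw [Ne, Ideal.span_singleton_eq_bot]
    exact Nat.cast_ne_zero.2 (by omega)
  have hq : n / m * m ≤ n := Nat.div_mul_le_self n m
  have hq' : n < n / m * m + m := Nat.lt_div_mul_add hm
  have hs : (box b fun _ => Ico a (a + (n / m : ℕ) * m)) ⊆ box b fun _ => Ico a (a + n) :=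
    fun x hx => (mem_box b).2 fun i => Ico_subset_Ico_right (by exact_mod_cast by omega)
      ((mem_box b).1 hx i)
  rw [← sum_sdiff hs, sum_full b a _ hm hF, add_zero]
  refine (norm_sum_le _ _).trans ((sum_le_card_nsmul _ _ 2 fun x _ => (norm_sub_le _ _).trans
    (by linarith [h1 x, PoiN.norm_av_le h0 h1])).trans ?_)
  have c1 : (Ico a (a + n)).card = n := by simp
  have c2 : (Ico a (a + (n / m : ℕ) * m)).card = n / m * m := by
    rw [← Nat.cast_mul]; simp only [Int.card_Ico, add_sub_cancel_left, Int.toNat_natCast]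
  rw [nsmul_eq_mul, cast_card_sdiff hs, card_box, card_box, prod_const, prod_const, c1, c2,
    card_univ, Nat.cast_pow, Nat.cast_pow]
  refine mul_le_mul_of_nonneg_right ((le_abs_self _).trans ((abs_pow_sub_pow_le _ _ _).trans ?_))
    zero_le_two
  have r1 : ((n / m * m : ℕ) : ℝ) ≤ n := by exact_mod_cast hq
  have r2 : (n : ℝ) ≤ (n / m * m : ℕ) + m := by exact_mod_cast hq'.le
  rw [abs_of_nonneg (by linarith), Nat.abs_cast, Nat.abs_cast, max_eq_left r1]
  gcongr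
  linarith

end PPER

open PPer in
theorem y_pER (c : Cx k K) : Y_PER K := by
  intro 𝔠 κ hc hκ
  have hRec := c.rc
  have hκ' : sp κ ≠ ⊥ := by simpa using hκ
  have hm0 : 8 * Ideal.absNorm 𝔠 * Ideal.absNorm (sp κ) ≠ 0 :=
    mul_ne_zero (mul_ne_zero (by norm_num) fun e => hc (Ideal.absNorm_eq_zero_iff.1 e))
      fun e => hκ' (Ideal.absNorm_eq_zero_iff.1 e)
  set m : 𝓞 K := ((8 * Ideal.absNorm 𝔠 * Ideal.absNorm (sp κ) : ℕ) : 𝓞 K) with hm
  have hm8 : (8 : 𝓞 K) ∣ m := by rw [hm]; push_cast; rw [mul_assoc]; exact dvd_mul_right _ _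
  have hmc : m ∈ 𝔠 := by
    rw [hm]; push_cast
    exact 𝔠.mul_mem_right _ (𝔠.mul_mem_left _ (Ideal.absNorm_mem 𝔠))
  have hmκ : m ∈ sp κ := by
    rw [hm]; push_cast
    exact (sp κ).mul_mem_left _ (Ideal.absNorm_mem _)
  refine ⟨?_, fun v n h2 hodd hn => ?_⟩
  · have tr : ∀ x y : 𝓞 K, m ∣ y - x → x ∈ 𝔠 ∧ (8 : 𝓞 K) ∣ x - 1 → y ∈ 𝔠 ∧ (8 : 𝓞 K) ∣ y - 1 := by
      intro x y h hx
      refine ⟨by simpa using 𝔠.add_mem (𝔠.mem_of_dvd h hmc) hx.1, ?_⟩
      rw [show y - 1 = (y - x) + (x - 1) by ring]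
      exact (hm8.trans h).add hx.2
    intro x y hxy
    have h1 : m ∣ x - y := Ideal.mem_span_singleton.1 hxy
    have h1' : m ∣ y - x := by rw [← neg_sub]; exact h1.neg_right
    unfold jq
    by_cases hx : x ∈ 𝔠 ∧ (8 : 𝓞 K) ∣ x - 1
    · have hy := tr x y h1' hx
      rw [if_pos hx, if_pos hy]
      by_cases e : IsCoprime (sp κ) (quo x 𝔠)
      · exact key hRec hc hκ hx.1 hy.1 hx.2 h1' e
      by_cases e' : IsCoprime (sp κ) (quo y 𝔠)
      · exact (key hRec hc hκ hy.1 hx.1 hy.2 h1 e').symm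
      have z : ∀ I : Ideal (𝓞 K), ¬ IsCoprime (sp κ) I → jac κ I = 0 := fun I hI => by
        by_cases h0 : I = ⊥
        · rw [h0, jac_bot]
        · exact not_not.1 fun e => hI ((jac_ne_zero_iff h0).1 e)
      rw [z _ e, z _ e']
    · rw [if_neg hx, if_neg fun hy => hx (tr y x h1 hy)]
  · have hn0 : m * n ≠ 0 := mul_ne_zero (Nat.cast_ne_zero.2 hm0) (Nat.cast_ne_zero.2 hn)
    obtain ⟨u, hu, hu8, huw⟩ := exists_u h2 hn0
    have hcop : IsCoprime u (m * n) := by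
      rw [← Ideal.isCoprime_span_singleton_iff, Ideal.isCoprime_iff_sup_eq]
      by_contra e
      obtain ⟨M, hM, hle⟩ := Ideal.exists_le_maximal _ e
      have h1 : u ∈ M := hle (Ideal.mem_sup_left (Ideal.mem_span_singleton_self u))
      have h3 : m * n ∈ M := hle (Ideal.mem_sup_right (Ideal.mem_span_singleton_self _))
      let w : Pl K := ⟨M, hM.isPrime, fun e => hn0 (by simpa only [e, Ideal.mem_bot] using h3)⟩
      by_cases hw : w = v
      · have : leg u v = 0 := leg_eq_zero.2 (hw ▸ h1)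
        rw [this] at hu
        norm_num at hu
      · have := M.sub_mem h1 (huw w hw h3)
        exact hM.ne_top ((Ideal.eq_top_iff_one _).2 (by simpa using this))
    have hj : jac κ (sp u) = -1 := by
      rw [← hRec u κ hu8 hκ, jac, if_neg hκ', finprod_eq_single _ v, hu]
      · rw [od_coe v hκ] at hodd
        exact Odd.neg_one_pow (by exact_mod_cast hodd)
      · intro w hw
        by_cases e : sp κ ≤ w.asIdeal
        · rw [leg_congr (huw w hw (w.asIdeal.mul_mem_right _ (e hmκ))), leg_one, one_pow]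
        · simp [(cnt_eq_zero w).2 e]
    refine ⟨u, by rw [Nat.cast_mul]; exact hcop, fun γ => ?_⟩
    unfold jq
    by_cases hγ : γ ∈ 𝔠 ∧ (8 : 𝓞 K) ∣ γ - 1
    · have h8 : (8 : 𝓞 K) ∣ u * γ - 1 := by
        rw [show u * γ - 1 = (u - 1) * γ + (γ - 1) by ring]
        exact (hu8.mul_right _).add hγ.2
      rw [if_pos hγ, if_pos ⟨𝔠.mul_mem_left _ hγ.1, h8⟩,
        quo_eq hc (q := sp u * quo γ 𝔠) (by rw [mul_assoc, quo_mul (exists_quo hγ.1), sp_mul]),
        jac_mul_right, hj, neg_one_mul]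
    · rw [if_neg hγ, if_neg, neg_zero]
      rintro ⟨h1, h8⟩
      obtain ⟨a, b, hab⟩ := hcop.of_mul_right_left
      refine hγ ⟨?_, ?_⟩
      · rw [show γ = a * (u * γ) + (b * γ) * m by linear_combination -γ * hab]
        exact 𝔠.add_mem (𝔠.mul_mem_left _ h1) (𝔠.mul_mem_left _ hmc)
      · rw [show γ - 1 = (u * γ - 1) - (u - 1) * γ by ring]
        exact h8.sub (hu8.mul_right _)

open PCube PPER in
theorem y_cUB (c : Cx k K) : Y_CUB k K := by
  have hι : Fintype.card (Module.Free.ChooseBasisIndex ℤ (𝓞 K)) = 2 * Module.finrank k K := by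
    obtain ⟨B, -⟩ := c.bf
    obtain ⟨_, h⟩ := c.lib.emb k B _
    rw [← Module.finrank_eq_card_chooseBasisIndex, RingOfIntegers.rank, (h K rfl).2.1]
  have hr : 1 ≤ Module.finrank k K := by exact_mod_cast c.one_le_rk
  obtain ⟨C, hC, h⟩ := coord (RingOfIntegers.basis K) c.toCtx hι
  obtain ⟨d, hd⟩ : ∃ d, 2 * Module.finrank k K = d + 1 := ⟨2 * Module.finrank k K - 1, by omega⟩
  have hd' : 2 * rk k K = (d + 1 : ℕ) := by exact_mod_cast hd
  have h1 : 1 ≤ 2 * C + 1 := by linarith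
  have h2 : (1 : ℝ) ≤ 2 * (d + 1 : ℕ) := by exact_mod_cast by omega
  refine ⟨2 * (d + 1 : ℕ) * (2 * C + 1) ^ (d + 1),
    one_le_mul_of_one_le_of_one_le h2 (one_le_pow₀ h1),
    fun L hL => ⟨box (RingOfIntegers.basis K) fun _ =>
      Ico (-⌊C * L⌋₊) (-⌊C * L⌋₊ + (2 * ⌊C * L⌋₊ + 1 : ℕ)), fun x hx => ?_, ?_, ?_⟩⟩
  · refine (mem_box _).2 fun i => ?_
    have := (h x i).trans (mul_le_mul_of_nonneg_left hx hC)
    rw [← Int.cast_abs, ← Int.natCast_natAbs, Int.cast_natCast] at this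
    have := Nat.le_floor this
    rw [mem_Ico]
    omega
  all_goals
    have hn : ((2 * ⌊C * L⌋₊ + 1 : ℕ) : ℝ) ≤ (2 * C + 1) * L := by
      have := Nat.floor_le (a := C * L) (by positivity)
      push_cast
      linarith
  · have c1 : (Ico (-⌊C * L⌋₊ : ℤ) (-⌊C * L⌋₊ + (2 * ⌊C * L⌋₊ + 1 : ℕ))).card =
        2 * ⌊C * L⌋₊ + 1 := by simp only [Int.card_Ico, add_sub_cancel_left, Int.toNat_natCast]
    rw [card_box, prod_const, c1, card_univ, hι, hd, hd', Real.rpow_natCast, Nat.cast_pow, mul_assoc,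
      ← mul_pow]
    exact (pow_le_pow_left₀ (by positivity) hn _).trans (le_mul_of_one_le_left (by positivity) h2)
  · intro m F hm hF hb
    rw [← nsmul_eq_mul, ← sum_const, ← sum_sub_distrib]
    refine (sum_near _ _ _ hm hF hb).trans ?_
    rw [hι, hd, hd', Nat.add_sub_cancel, Nat.cast_succ d, add_sub_cancel_right, Real.rpow_natCast]
    calc (m : ℝ) * (d + 1) * ((2 * ⌊C * L⌋₊ + 1 : ℕ) : ℝ) ^ d * 2
        ≤ m * (d + 1) * ((2 * C + 1) * L) ^ d * 2 := by gcongr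
      _ = 2 * (d + 1) * (2 * C + 1) ^ d * m * L ^ d := by rw [mul_pow]; ring
      _ ≤ 2 * (d + 1) * (2 * C + 1) ^ (d + 1) * m * L ^ d := by gcongr; omega

end Pool.Agent.P.MP_b8021b_nt.BP
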