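import Pool.Agent.P.MP_b8021b_nt.BP.StC

/-! The summand of the off diagonal terms as a periodic function of the generator. -/

namespace Pool.Agent.P.MP_b8021b_nt.BP

open NumberField IsDedekindDomain Finset MeasureTheory
open Pool.Agent.P.MP_b8021b_nt.VE Pool.Agent.P.MP_b8021b_nt.VC Pool.Agent.P.MP_b8021b_nt.BS.CF
open Pool.Agent.P.MP_b8021b_nt.BS
open scoped Classical ComplexConjugate Real

variable {k : Type} [Field k] [NumberField k] [Algebra k ℂ] {K : Type} [Field K] [NumberField K]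
  [Algebra k K]

namespace PPHI

omit [NumberField K] in
theorem cop_dvd {m n : ℕ} {I : Ideal (𝓞 K)} (h : Cop n I) (hm : m ∣ n) : Cop m I := by
  obtain ⟨d, rfl⟩ := hm
  rw [Cop, Nat.cast_mul, ← Ideal.span_singleton_mul_span_singleton] at h
  exact h.of_mul_right_left

omit [NumberField K] in
theorem ex_one {I J : Ideal (𝓞 K)} (h : IsCoprime I J) : ∃ a ∈ I, a - 1 ∈ J := by
  obtain ⟨a, ha, b, hb, e⟩ := Ideal.isCoprime_iff_exists.1 h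
  exact ⟨a, ha, by rw [show a - 1 = -b by linear_combination e]; exact J.neg_mem hb⟩

omit [NumberField K] in
theorem peri_of {𝔮 : Ideal (𝓞 K)} {F : 𝓞 K → ℂ} (h : Peri 𝔮 F) {m M : ℕ} (hm : (m : 𝓞 K) ∈ 𝔮)
    (hM : m ∣ M) : Peri (sp (M : 𝓞 K)) F := fun x y e =>
  h x y (𝔮.mem_of_dvd ((Nat.cast_dvd_cast hM).trans (Ideal.mem_span_singleton.1 e)) hm)

theorem norm_co {n : ℕ} {Ψ : Ideal (𝓞 K) →* ℂ} (hΨ : IsP k n Ψ) (𝔠 : Ideal (𝓞 K)) (β : 𝓞 K) :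
    ‖PFE1.co k Ψ 𝔠 β‖ ≤ 1 := by
  unfold PFE1.co
  split_ifs
  · rw [norm_mul, Complex.norm_conj]
    exact mul_le_one₀ (hΨ.norm_le _) (norm_nonneg _) (norm_dP_le _)
  · simp

theorem norm_jq (𝔠 : Ideal (𝓞 K)) (κ γ : 𝓞 K) : ‖jq 𝔠 κ γ‖ ≤ 1 := by
  unfold jq
  split_ifs
  · exact norm_jac_le _ _
  · simp

/-- a balanced generator -/
theorem gen (c : Cx k K) {n : ℕ} (hn : n ≠ 0) : ∃ C : ℝ, 1 ≤ C ∧ ∀ (I : Ideal (𝓞 K)) (w : Pl K)
    (γ : 𝓞 K), I ≠ ⊥ → Dv n w → I * w.asIdeal = sp γ → ∃ g : 𝓞 K, I * w.asIdeal = sp g ∧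
      ∀ φ, (C * NN I) ^ (-(1 / rk k K)) ≤ 1 / (n ^ 2 * ‖emb k g φ‖ ^ 2) := by
  obtain ⟨C, h1, hC⟩ := c.bal2 1 le_rfl
  have hr := c.one_le_rk
  have n1 : (1 : ℝ) ≤ n := Nat.one_le_cast.2 (Nat.pos_of_ne_zero hn)
  have N1 : 1 ≤ NN (sp (n : 𝓞 K)) :=
    one_le_NN (Ideal.span_singleton_eq_bot.not.2 (Nat.cast_ne_zero.2 hn))
  have A1 : 1 ≤ n ^ 2 * C := one_le_mul_of_one_le_of_one_le (one_le_pow₀ n1) h1
  refine ⟨(n ^ 2 * C) ^ rk k K * NN (sp (n : 𝓞 K)),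
    one_le_mul_of_one_le_of_one_le (Real.one_le_rpow A1 (by linarith)) N1,
    fun I w γ hI hw e => ?_⟩
  have γ0 : γ ≠ 0 := fun h => mul_ne_zero hI w.ne_bot (by rw [e, h]; simp [sp])
  obtain ⟨u, -, hu⟩ := hC γ γ0
  refine ⟨u * γ, e.trans (Ideal.span_singleton_mul_left_unit u.isUnit γ).symm, fun φ => ?_⟩
  have p := norm_pos_iff.2 (emb_ne_zero (k := k) (mul_ne_zero u.ne_zero γ0) φ)
  have I0 := NN_pos hI
  rw [Real.rpow_neg (by positivity), one_div (_ * _)]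
  refine inv_anti₀ (by positivity) ?_
  rw [mul_assoc, Real.mul_rpow (by positivity) (by positivity), ← Real.rpow_mul (by positivity),
    mul_one_div_cancel (by linarith), Real.rpow_one, mul_assoc]
  refine mul_le_mul_of_nonneg_left ((hu φ).1.trans ?_) (by positivity)
  rw [← e, NN_mul, mul_comm (NN I)]
  have := nv_le_of_dv hn hw
  gcongr

end PPHI

open PPHI in
theorem y_pHI (c : Cx k K) (hPER : Y_PER K) (hLS : Y_LS K) (hSIG : Y_SIG K) (hGSF : Y_GSF K)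
    (hPX : Y_PX k K) : Y_PHI k K := by
  intro n₀ n ℛ ℛ' Ψ G hΨ
  have hn := G.g.two_le
  have n0 : (n : 𝓞 K) ≠ 0 := Nat.cast_ne_zero.2 G.g.pos
  obtain ⟨C, C1, hC⟩ := gen c G.g.pos
  set N := Ideal.absNorm (sp (n : 𝓞 K)) with hN
  have N0 : N ≠ 0 := fun h => n0 (by simpa using Ideal.absNorm_eq_zero_iff.1 h)
  refine ⟨C, 8 * n ^ 2 * N ^ 2, C1, Nat.pos_of_ne_zero (by have := G.g.pos; positivity),
    fun e b hb hc heb => ?_⟩
  have eb0 := Cop_ne_bot hn hc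
  obtain ⟨w, ⟨hw, γ, -, hγ⟩, -⟩ := G.rep' _ (cop_dvd hc G.dvd)
  have hwn := (G.mem w (mem_union_right _ hw)).1
  obtain ⟨g', hg', hη⟩ := hC _ w γ eb0 hwn hγ
  obtain ⟨a₂, a2e, a2b⟩ := ex_one heb
  have d8 : 8 ∣ 4 * n₀ ^ 2 := (G.g0.eight.trans (dvd_pow_self n₀ two_ne_zero)).mul_left 4
  have d2 : 2 ∣ n := (by norm_num : 2 ∣ 8).trans G.g.eight
  have hσ : ∀ v ∈ ℛ, _ := fun v hv => hSIG (4 * n₀ ^ 2) v ((by norm_num : 2 ∣ 8).trans d8)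
    (fun h => (G.mem v (mem_union_left _ hv)).2 (h.of_dvd ((by norm_num : 2 ∣ 8).trans G.g0.eight)))
    (hLS n₀ G.g0)
  choose! σ σ1 σ2 σ3 using hσ
  let T : 𝓞 K → ℂ := fun κ => gsI b ((κ : K) * a₂ / (n * g'))
  let P : Pl K → 𝓞 K → Prop := fun v κ =>
    κ ≠ 0 ∧ κ ∈ v.asIdeal * w.asIdeal * dI K n ∧ ‖T κ‖ ≤ √(NN b)
  let Φ : Pl K → 𝓞 K → 𝓞 K → ℂ := fun v κ g =>
    if P v κ ∧ g ∈ v.asIdeal ∧ ((4 * n₀ ^ 2 : ℕ) : 𝓞 K) ∣ g - 1 then
      PFE1.co k Ψ v.asIdeal g * jq v.asIdeal (n * κ) g * jac g (e * w.asIdeal) * leg g' v *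
        σ v g * T κ else 0
  refine ⟨fun φ => 1 / (n ^ 2 * ‖emb k g' φ‖ ^ 2), Φ, fun φ => by rw [← NN_mul]; exact hη φ,
    fun v hv => ?_⟩
  have hvn := (G.mem v (mem_union_left _ hv)).1
  refine ⟨fun κ g => ⟨?_, fun h => ?_⟩, fun κ hκ x y hxy => ?_, fun X J g hX hJ hJc hg hJg => ?_⟩
  · simp only [Φ]
    split_ifs with h
    · rw [norm_mul]
      refine (mul_le_of_le_one_left (norm_nonneg _) ?_).trans h.1.2.2
      simp only [norm_mul]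
      exact mul_le_one₀ (mul_le_one₀ (mul_le_one₀ (mul_le_one₀ (norm_co hΨ _ _) (norm_nonneg _)
        (norm_jq _ _ _)) (norm_nonneg _) (norm_jac_le _ _)) (norm_nonneg _)
        ((sgn_leg g').norm_le v)) (norm_nonneg _) (σ2 v hv g)
    · simp
  · by_contra h'
    exact h (if_neg fun p => h' ⟨p.1.1, p.2⟩)
  · have dn : n ^ 2 ∣ 8 * n ^ 2 * N ^ 2 * Ideal.absNorm e * Ideal.absNorm (sp κ) :=
      ⟨8 * N ^ 2 * Ideal.absNorm e * Ideal.absNorm (sp κ), by ring⟩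
    have dn1 := (dvd_pow_self n two_ne_zero).trans dn
    have e0 := Ideal.mem_span_singleton.1 hxy
    have m1 : x - y ∈ v.asIdeal := v.asIdeal.mem_of_dvd ((Nat.cast_dvd_cast dn1).trans e0) hvn
    have m2 : ((4 * n₀ ^ 2 : ℕ) : 𝓞 K) ∣ x - y := (Nat.cast_dvd_cast (G.dvd.trans dn1)).trans e0
    have i1 : x ∈ v.asIdeal ↔ y ∈ v.asIdeal :=
      ⟨fun h => by simpa using v.asIdeal.sub_mem h m1, fun h => by simpa using v.asIdeal.add_mem m1 h⟩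
    have i2 : ((4 * n₀ ^ 2 : ℕ) : 𝓞 K) ∣ x - 1 ↔ ((4 * n₀ ^ 2 : ℕ) : 𝓞 K) ∣ y - 1 := by
      rw [show x - 1 = x - y + (y - 1) by ring]
      exact dvd_add_right m2
    have p1 := peri_of (PFE1.peri hn hΨ v.ne_bot hvn) (Ideal.mem_span_singleton_self _) dn x y hxy
    obtain ⟨z, hz⟩ : Ideal.absNorm v.asIdeal ∣ N :=
      Ideal.absNorm_dvd_absNorm_of_le ((Ideal.span_singleton_le_iff_mem _).2 hvn)
    have p2 := peri_of (hPER v.asIdeal (n * κ) v.ne_bot (mul_ne_zero n0 hκ)).1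
      (Ideal.mem_span_singleton_self _) (M := 8 * n ^ 2 * N ^ 2 * Ideal.absNorm e *
        Ideal.absNorm (sp κ)) ⟨n ^ 2 * z * Ideal.absNorm e, by
          rw [sp_mul, map_mul, ← hN, sq N]
          nth_rewrite 1 [hz]
          ring⟩ x y hxy
    have p3 := peri_of (peri_jac (e * w.asIdeal)) (m := Ideal.absNorm e * n)
      (by rw [Nat.cast_mul]; exact Ideal.mul_mem_mul (Ideal.absNorm_mem e) hwn)
      (M := 8 * n ^ 2 * N ^ 2 * Ideal.absNorm e * Ideal.absNorm (sp κ))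
      ⟨8 * n * N ^ 2 * Ideal.absNorm (sp κ), by ring⟩ x y hxy
    have p4 := peri_of (σ1 v hv) (m := n ^ 2)
      (by rw [Nat.cast_pow]; exact Ideal.pow_mem_pow hvn 2) dn x y hxy
    beta_reduce at p3
    simp only [Φ, i1, i2, p1, p2, p3, p4]
  · have hgv : g ∈ v.asIdeal := Ideal.mul_le_right (hJg.ge (Ideal.mem_span_singleton_self g))
    have hco : PFE1.co k Ψ v.asIdeal g = Ψ J * conj (dP (emb k g)) := by
      rw [PFE1.co, if_pos hgv, quo_eq v.ne_bot hJg]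
    by_cases hJn : Cop n J
    swap
    · simp [Φ, hco, hΨ.zero J hJn]
    have g8 : (8 : 𝓞 K) ∣ g - 1 :=
      (by exact_mod_cast Nat.cast_dvd_cast (α := 𝓞 K) d8 : (8 : 𝓞 K) ∣ (4 * n₀ ^ 2 : ℕ)).trans hg
    have g0 : g ≠ 0 := fun h => mul_ne_zero hJ.ne_zero v.ne_bot (by rw [hJg, h]; simp [sp])
    have g0' : g' ≠ 0 := fun h => mul_ne_zero eb0 w.ne_bot (by rw [hg', h]; simp [sp])
    have hJv : ¬ J ≤ v.asIdeal := fun h =>
      (cop_iff G.g.pos hJ.ne_zero).1 hJn v ((mem_prI hJ.ne_zero).2 h) hvn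
    obtain ⟨a, ae, aq⟩ := ex_one (hJc.of_mul_right_left.symm.mul_right heb)
    obtain ⟨a₁, a1v, a1J⟩ : ∃ a ∈ v.asIdeal, a - 1 ∈ J := ex_one (Ideal.isCoprime_iff_sup_eq.2
      (v.isMaximal.1.2 _ (left_lt_sup.2 hJv)))
    have hvw : v ≠ w := fun h => disjoint_left.1 G.disj hv (h ▸ hw)
    have hq : Squarefree (J * b) :=
      squarefree_mul_iff.2 ⟨hJc.of_mul_right_right.isRelPrime, hJ, hb⟩
    rw [hPX n e (J * b) (v.asIdeal * w.asIdeal) (g * g') a X G.g hq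
      (cop_dvd (cop_mul.2 ⟨hJn, (cop_mul.1 hc).2⟩) d2)
      (by rw [sp_mul, ← hJg, ← hg']; ring) (mul_ne_zero g0 g0') ae aq hX]
    have J0 := NN_pos hJ.ne_zero
    have s0 : ((√(NN J) : ℝ) : ℂ) ≠ 0 := by exact_mod_cast (Real.sqrt_pos.2 J0).ne'
    rw [NN_mul, show NN e * (NN J * NN b) = NN e * NN b * NN J by ring, mul_left_comm,
      mul_div_assoc, mul_assoc _ (dP _), ← tsum_mul_left (a := Ψ J), ← tsum_mul_left (a := dP _),
      ← tsum_div_const]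
    refine congrArg _ (tsum_congr fun κ => ?_)
    have eg : (fun φ => X ^ (1 / rk k K) / (n ^ 2 * ‖emb k (g * g') φ‖ ^ 2)) =
        fun φ => X ^ (1 / rk k K) * (1 / (n ^ 2 * ‖emb k g' φ‖ ^ 2)) / ‖emb k g φ‖ ^ 2 := by
      funext φ
      rw [emb_mul, Pi.mul_apply, norm_mul]
      ring
    rw [eg]
    simp only [Φ]
    by_cases h : κ ≠ 0 ∧ κ ∈ v.asIdeal * w.asIdeal * dI K n
    · obtain ⟨f1, f2⟩ := hGSF n e b J v w g g' a a₁ a₂ κ G.g hb hJ hc hJn heb hJc hvn hwn hvw hJg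
        hg' g8 ae aq a1v a1J a2e a2b h.2
      rw [if_pos h, if_pos ⟨⟨h.1, h.2, f2⟩, hgv, hg⟩, f1, σ3 v hv J g a₁ hJ hJv hJg hg a1v a1J, hco,
        jq, if_pos ⟨hgv, g8⟩, quo_eq v.ne_bot hJg, div_eq_iff s0]
      have c1 := PFE1.conj_mul (k := k) g0
      simp only [T]
      generalize (gau _ (emb k κ) : ℝ) = y
      generalize gsI b _ = t
      generalize jac ((n : 𝓞 K) * κ) J = j
      linear_combination (-(Ψ J * j * jac g (e * w.asIdeal) * leg g' v * σ v g * t * y *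
        (√(NN J) : ℝ))) * c1
    · rw [if_neg h, if_neg fun p => h ⟨p.1.1, p.1.2.1⟩]
      simp

end Pool.Agent.P.MP_b8021b_nt.BP
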