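import Pool.Agent.P.MP_b8021b_nt.BP.StC

/-! The coefficients at the small indices, first side. -/

namespace Pool.Agent.P.MP_b8021b_nt.BP

open NumberField IsDedekindDomain Finset MeasureTheory
open Pool.Agent.P.MP_b8021b_nt.VE Pool.Agent.P.MP_b8021b_nt.VC Pool.Agent.P.MP_b8021b_nt.BS.CF
open Pool.Agent.P.MP_b8021b_nt.BS
open scoped Classical ComplexConjugate Real

variable {k : Type} [Field k] [NumberField k] [Algebra k ℂ] {K : Type} [Field K] [NumberField K]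
  [Algebra k K]

namespace PPTA

/-- the polynomial weight -/
def M (p : ℝ × ℝ) : ℝ := (1 + |p.1|) * (1 + |p.2|)

theorem le_M (p : ℝ × ℝ) : 1 + |p.2| + |p.1| ≤ M p := by
  have := mul_nonneg (abs_nonneg p.1) (abs_nonneg p.2)
  unfold M
  linarith

theorem one_le_M (p : ℝ × ℝ) : 1 ≤ M p := by
  linarith [le_M p, abs_nonneg p.1, abs_nonneg p.2]

variable {h H : ℝ → ℂ} {G : ℝ × ℝ → ℂ} {C δ : ℝ} {m : ℕ}

theorem dom_int (hh : FR h) (A : ℝ) (m : ℕ) : Integrable fun p : ℝ × ℝ =>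
    A * (((1 + |p.1|) ^ m * ‖h p.1‖) * ((1 + |p.2|) ^ m * ‖h p.2‖)) :=
  ((hh.int m).mul_prod (hh.int m)).const_mul A

theorem dom_le (hH : ∀ b, ‖H b‖ ≤ C * ‖h b‖) (hG : ∀ p, ‖G p‖ ≤ δ * M p ^ m) (p : ℝ × ℝ) :
    ‖H p.1 * h p.2 * G p‖ ≤
      C * δ * (((1 + |p.1|) ^ m * ‖h p.1‖) * ((1 + |p.2|) ^ m * ‖h p.2‖)) := by
  rw [norm_mul, norm_mul]
  refine (mul_le_mul (mul_le_mul_of_nonneg_right (hH _) (norm_nonneg _)) (hG p) (norm_nonneg _)
    (mul_nonneg ((norm_nonneg _).trans (hH _)) (norm_nonneg _))).trans (le_of_eq ?_)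
  rw [M, mul_pow]
  ring

theorem bound (hh : FR h) (hH : ∀ b, ‖H b‖ ≤ C * ‖h b‖) (hG : ∀ p, ‖G p‖ ≤ δ * M p ^ m) :
    ‖∫ p : ℝ × ℝ, H p.1 * h p.2 * G p‖ ≤ C * δ * (∫ a, (1 + |a|) ^ m * ‖h a‖) ^ 2 := by
  refine (norm_integral_le_of_norm_le (dom_int hh (C * δ) m)
    (Filter.Eventually.of_forall (dom_le hH hG))).trans (le_of_eq ?_)
  rw [integral_const_mul, sq]
  exact congrArg _ (integral_prod_mul (fun a => (1 + |a|) ^ m * ‖h a‖) fun a => (1 + |a|) ^ m * ‖h a‖)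

theorem integrable (hh : FR h) (hc : Continuous H) (hH : ∀ b, ‖H b‖ ≤ C * ‖h b‖) (hm : Measurable G)
    (hG : ∀ p, ‖G p‖ ≤ δ * M p ^ m) : Integrable fun p : ℝ × ℝ => H p.1 * h p.2 * G p :=
  (dom_int hh (C * δ) m).mono' ((((hc.comp continuous_fst).mul
    (hh.cont.comp continuous_snd)).measurable.mul hm).aestronglyMeasurable)
    (Filter.Eventually.of_forall (dom_le hH hG))

theorem int_one (hh : FR h) : ∫ a, h a = 1 := by
  simpa [St_of_nonpos le_rfl] using (hh.rep 1 1 one_pos one_pos).symm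

theorem meas_EvP (χ Ψ : Ideal (𝓞 K) → ℂ) (ℓ : ℝ) (𝒬 : Finset (Pl K)) :
    Measurable fun p : ℝ × ℝ => EvP χ Ψ ℓ p.2 p.1 𝒬 := by
  refine Finset.measurable_prod _ fun v _ => ?_
  have h1 : Measurable fun p : ℝ × ℝ => cf Ψ (sx ℓ p.2) v :=
    (((continuous_cf Ψ v).comp (continuous_sx ℓ)).comp continuous_snd).measurable
  have h2 : Measurable fun p : ℝ × ℝ => cf χ (sx ℓ p.1) v :=
    (((continuous_cf χ v).comp (continuous_sx ℓ)).comp continuous_fst).measurable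
  exact (measurable_const.sub (h1.mul h2)).div (measurable_const.sub (h2.pow_const 2))

theorem norm_OdP (hE : Y_EV0) {Ψ : Ideal (𝓞 K) → ℂ} (hΨ : ∀ I, ‖Ψ I‖ ≤ 1) {ℓ R : ℝ} (hℓ : 0 < ℓ)
    {S : Finset (Pl K)} (hS : S ≠ ∅) (hR : nS S ≤ R) (p : ℝ × ℝ) :
    ‖OdP Ψ Ψ ℓ p.2 p.1 S‖ ≤ 2 * R ^ 3 / ℓ * M p := by
  have hs : ∀ a, 0 ≤ (sx ℓ a).re := fun a => by rw [sx_re]; positivity
  have h1 : ∀ v : Pl K, ‖Od (cf Ψ (sx ℓ p.2) v) (cf Ψ (sx ℓ p.1) v)‖ ≤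
      2 * ‖cf Ψ (sx ℓ p.1) v - cf Ψ (sx ℓ p.2) v‖ := fun v =>
    (hE _ _ (norm_cf_sq hΨ (hs _) v) (norm_cf_sq hΨ (hs _) v)).2.2.2.1
  have h2 : ∀ (a : ℝ) (v : Pl K), ‖cf Ψ (sx ℓ a) v‖ ≤ 1 := fun a v =>
    (pow_le_one_iff_of_nonneg (norm_nonneg _) two_ne_zero).1
      ((norm_cf_sq hΨ (hs a) v).trans (by norm_num))
  obtain ⟨v, hv⟩ := nonempty_iff_ne_empty.2 hS
  have h1v : 1 ≤ nv v := one_le_two.trans (two_le_NN v)
  have hR1 : 1 ≤ R := (one_le_nS S).trans hR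
  have h3 : ‖cf Ψ (sx ℓ p.1) v - cf Ψ (sx ℓ p.2) v‖ ≤ M p / ℓ * R := by
    rw [cf_eq, cf_eq, ← mul_sub, norm_mul, norm_mul, Complex.norm_real,
      Real.norm_of_nonneg (by positivity)]
    refine (mul_le_of_le_one_left (norm_nonneg _) (mul_le_one₀ (hΨ _) (by positivity)
      (inv_le_one_of_one_le₀ (Real.one_le_sqrt.2 h1v)))).trans
      ((norm_cpow_sub h1v (hs _) (hs _)).trans ?_)
    refine mul_le_mul ((norm_sx_sub hℓ _ _).trans ?_)
      ((Real.log_le_self (nv_pos v).le).trans ((nv_le_nS hv).trans hR)) (log_nv_pos v).le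
      (div_nonneg (zero_le_one.trans (one_le_M p)) hℓ.le)
    exact div_le_div_of_nonneg_right (by linarith [le_M p]) hℓ.le
  have h4 : ∏ u ∈ S.erase v, ‖Od (cf Ψ (sx ℓ p.2) u) (cf Ψ (sx ℓ p.1) u)‖ ≤ R ^ 2 := by
    calc _ ≤ ∏ _u ∈ S.erase v, (2 : ℝ) ^ 2 := prod_le_prod (fun _ _ => norm_nonneg _) fun u _ => by
          linarith [h1 u, norm_sub_le (cf Ψ (sx ℓ p.1) u) (cf Ψ (sx ℓ p.2) u), h2 p.1 u, h2 p.2 u]
      _ = (2 ^ (S.erase v).card) ^ 2 := by rw [prod_const, ← pow_mul, ← pow_mul, mul_comm]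
      _ ≤ _ := pow_le_pow_left₀ (by positivity)
          ((two_pow_le_nS _).trans ((nS_mono (erase_subset v S)).trans hR)) 2
  rw [OdP, norm_prod, ← mul_prod_erase S _ hv]
  refine (mul_le_mul ((h1 v).trans (mul_le_mul_of_nonneg_left h3 zero_le_two)) h4
    (prod_nonneg fun _ _ => norm_nonneg _) ?_).trans (le_of_eq (by ring))
  have := one_le_M p
  positivity

theorem tail (c : Cx k K) {X : ℝ} (hX : 1 ≤ X) (hℓ : 0 < el k K X) :
    (√(Y0 k K X))⁻¹ + Real.exp (-el k K X) ≤ 2 / el k K X := by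
  have h0 : 0 < X := by linarith
  have h1 : Real.exp (el k K X) ≤ √(Y0 k K X) := by
    refine Real.le_sqrt_of_sq_le ?_
    rw [← Real.exp_nat_mul, c.exp_el h0, c.Y0_eq h0]
    refine Real.rpow_le_rpow_of_exponent_le hX ?_
    have := c.et_le
    rw [c.et_eq] at this
    push_cast
    linarith
  have h2 : el k K X ≤ Real.exp (el k K X) := by linarith [Real.add_one_le_exp (el k K X)]
  have h3 := inv_anti₀ hℓ h2
  have h4 := inv_anti₀ hℓ (h2.trans h1)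
  rw [Real.exp_neg, div_eq_mul_inv]
  linarith

end PPTA

open PPTA

theorem y_pTA (c : Cx k K) (hVW : Y_VW) (hEV0 : Y_EV0) (hEVA : Y_EVA K) (hEVL : Y_EVL k K) :
    Y_PTA k K := by
  intro n Ψ h f ε R C₀ hn hΨ hh hf hε
  obtain ⟨C, hC, -, hV⟩ := hVW h f hh hf
  obtain ⟨A, j, hA, hE⟩ := hEVA
  obtain ⟨C₁, hC₁⟩ : ∃ C₁, C₁ = C * Real.exp (1 / la k K) := ⟨_, rfl⟩
  obtain ⟨I, hI⟩ : ∃ I, I = (∫ a, (1 + |a|) ^ (j + 1) * ‖h a‖) ^ 2 := ⟨_, rfl⟩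
  have hC₁0 : 0 < C₁ := by rw [hC₁]; positivity
  have hI0 : 0 ≤ I := by rw [hI]; positivity
  obtain ⟨δ, hδ, hδε⟩ : ∃ δ, 0 < δ ∧ C₁ * δ * I ≤ ε / 2 :=
    ⟨ε / 2 / (C₁ * I + 1), by positivity, by
      rw [mul_right_comm, ← mul_div_assoc, div_le_iff₀ (by positivity)]
      nlinarith⟩
  obtain ⟨ℓ₀, hL⟩ := hEVL n Ψ δ ((A + 1) / δ) C₀ hn hΨ hδ
  obtain ⟨X₀, h3, hX₀⟩ := c.ev_el (max (max 1 ℓ₀) (max (4 * C / ε) (2 * R ^ 3 * A / δ)))
  refine ⟨X₀, fun X hX 𝒱 h𝒱 => ?_⟩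
  have hX1 : 1 < X := by linarith
  have hl := hX₀ X hX
  simp only [max_le_iff] at hl
  obtain ⟨⟨l1, l2⟩, l3, l4⟩ := hl
  have hℓ : 0 < el k K X := by linarith
  have hY := c.Y0_pos (X := X) (by linarith)
  obtain ⟨-, -, v1, -, v2, v3⟩ := hV (el k K X) (Y0 k K X) hℓ hY
  obtain ⟨hc, hb, -⟩ := v3 1 one_pos
  have hH : ∀ b, ‖Hv h f (el k K X) (Y0 k K X) 1 b‖ ≤ C₁ * ‖h b‖ := fun b => (hb b).trans (by
    rw [hC₁, div_one]
    gcongr
    refine c.rpow_el hX1 hY.le ?_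
    rw [c.Y0_eq (by linarith)]
    exact Real.rpow_le_rpow_of_exponent_le hX1.le (by linarith [c.la_pos]))
  have hM : ∀ (p : ℝ × ℝ) (𝒬 : Finset (Pl K)), ‖EvP Ψ Ψ (el k K X) p.2 p.1 𝒬‖ ≤ A * M p ^ j :=
    fun p 𝒬 => (hE Ψ _ _ _ 𝒬 hΨ.norm_le l1).trans (by
      gcongr
      exact le_M p)
  refine ⟨?_, fun S hS hR => ?_⟩
  · have hG : ∀ p : ℝ × ℝ, ‖EvP Ψ Ψ (el k K X) p.2 p.1 (PP K (el k K X) \ 𝒱) - 1‖ ≤
        δ * M p ^ (j + 1) := fun p => by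
      have m1 := one_le_M p
      by_cases hp : M p ≤ (A + 1) / δ
      · refine (hL _ _ _ 𝒱 l2 ?_ ?_ h𝒱).trans (le_mul_of_one_le_right hδ.le (one_le_pow₀ m1))
        · linarith [le_M p, abs_nonneg p.1]
        · linarith [le_M p, abs_nonneg p.2]
      · have m2 : 1 ≤ M p ^ j := one_le_pow₀ m1
        have m3 := mul_le_mul_of_nonneg_right ((div_lt_iff₀ hδ).1 (not_le.1 hp)).le
          (zero_le_one.trans m2)
        refine (norm_sub_le _ _).trans ?_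
        rw [norm_one, pow_succ]
        linarith [hM p (PP K (el k K X) \ 𝒱)]
    have i1 := integrable hh hc hH
      (G := fun p => EvP Ψ Ψ (el k K X) p.2 p.1 (PP K (el k K X) \ 𝒱) - 1)
      ((meas_EvP Ψ Ψ _ _).sub measurable_const) hG
    have i2 := integrable hh hc hH (G := fun _ => 1) (δ := 1) (m := 0) measurable_const
      fun _ => by simp
    have e1 : ∫ p : ℝ × ℝ, Hv h f (el k K X) (Y0 k K X) 1 p.1 * h p.2 * 1 =
        Vw f (el k K X) (Y0 k K X) 1 := by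
      simp only [mul_one]
      rw [v1 1 one_pos]
      exact (integral_prod_mul (Hv h f (el k K X) (Y0 k K X) 1) h).trans
        (by rw [int_one hh, mul_one])
    have e2 : dX k Ψ Ψ (Hv h f (el k K X) (Y0 k K X) 1) h X ∅ 𝒱 =
        (∫ p : ℝ × ℝ, Hv h f (el k K X) (Y0 k K X) 1 p.1 * h p.2 *
          (EvP Ψ Ψ (el k K X) p.2 p.1 (PP K (el k K X) \ 𝒱) - 1)) +
          Vw f (el k K X) (Y0 k K X) 1 := by
      rw [← e1, ← integral_add i1 i2, dX, dd]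
      simp only [OdP, prod_empty, sdiff_empty, one_mul, ← mul_add, sub_add_cancel]
    rw [e2, add_sub_assoc, ← Complex.ofReal_sub]
    refine (norm_add_le _ _).trans ?_
    have b1 := bound hh hH hG
    have b2 := mul_le_mul_of_nonneg_left (tail c hX1.le hℓ) (zero_le_one.trans hC)
    have b3 : C * (2 / el k K X) ≤ ε / 2 := by
      rw [← mul_div_assoc, div_le_iff₀ hℓ]
      linarith [(div_le_iff₀ hε).1 l3]
    rw [Complex.norm_real, Real.norm_eq_abs]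
    rw [← hI] at b1
    linarith
  · have hR1 : 1 ≤ R := (one_le_nS S).trans hR
    have b1 := bound hh hH (δ := δ) (m := j + 1) (G := fun p => OdP Ψ Ψ (el k K X) p.2 p.1 S *
      EvP Ψ Ψ (el k K X) p.2 p.1 ((PP K (el k K X) \ S) \ 𝒱)) fun p => by
        have m1 := one_le_M p
        rw [norm_mul]
        refine (mul_le_mul (norm_OdP hEV0 hΨ.norm_le hℓ hS hR p) (hM p _) (norm_nonneg _)
          (by positivity)).trans ?_
        have m2 : 2 * R ^ 3 * A / el k K X ≤ δ := by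
          rw [div_le_iff₀ hℓ]
          linarith [(div_le_iff₀ hδ).1 l4]
        calc _ = 2 * R ^ 3 * A / el k K X * M p ^ (j + 1) := by ring
          _ ≤ _ := by gcongr
    rw [← hI] at b1
    exact b1.trans (by linarith)

end Pool.Agent.P.MP_b8021b_nt.BP
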