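import Pool.Agent.P.MP_b8021b_nt.BP.StC

/-! The coefficients with a small index are small on the dual side. -/

namespace Pool.Agent.P.MP_b8021b_nt.BP

open NumberField IsDedekindDomain Finset MeasureTheory
open Pool.Agent.P.MP_b8021b_nt.VE Pool.Agent.P.MP_b8021b_nt.VC Pool.Agent.P.MP_b8021b_nt.BS.CF
open Pool.Agent.P.MP_b8021b_nt.BS
open scoped Classical ComplexConjugate Real
variable {k : Type} [Field k] [NumberField k] [Algebra k ℂ] {K : Type} [Field K] [NumberField K]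
  [Algebra k K]

namespace PPTB

theorem odP_le (hEV0 : Y_EV0) {χ Ψ : Ideal (𝓞 K) → ℂ} (h1 : ∀ I, ‖χ I‖ ≤ 1) (h2 : ∀ I, ‖Ψ I‖ ≤ 1)
    {ℓ : ℝ} (hℓ : 0 < ℓ) (a b : ℝ) (S : Finset (Pl K)) : ‖OdP χ Ψ ℓ a b S‖ ≤ nS S ^ 2 := by
  have hs : ∀ a, 0 ≤ (sx ℓ a).re := fun a => by rw [sx_re]; positivity
  refine le_trans ?_ (pow_le_pow_left₀ (by positivity) (two_pow_le_nS S) 2)
  rw [OdP, norm_prod, ← pow_mul, mul_comm, pow_mul, ← prod_const]
  refine prod_le_prod (fun _ _ => norm_nonneg _) fun v _ => ?_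
  have a1 := norm_cf_sq h2 (hs a) v
  have a2 := norm_cf_sq h1 (hs b) v
  have a3 := (hEV0 _ _ a1 a2).2.2.2.1
  have a4 := norm_sub_le (cf χ (sx ℓ b) v) (cf Ψ (sx ℓ a) v)
  have a5 : ‖cf Ψ (sx ℓ a) v‖ ≤ 1 := (sq_le_one_iff₀ (norm_nonneg _)).1 (by linarith)
  have a6 : ‖cf χ (sx ℓ b) v‖ ≤ 1 := (sq_le_one_iff₀ (norm_nonneg _)).1 (by linarith)
  linarith

end PPTB

open PPTB in
theorem y_pTB (c : Cx k K) (hVW : Y_VW) (hEV0 : Y_EV0) (hEVB : Y_EVB k K) : Y_PTB k K := by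
  intro n Ψ h f ε R C₀ c₀ hn hΨ hh hf hε hc
  obtain ⟨Cv, v1, -, hv⟩ := hVW h f hh hf
  obtain ⟨C, ℓ₀, j, c1, hE⟩ := hEVB n Ψ (R + C₀) hn hΨ
  have gi : Integrable fun p : ℝ × ℝ =>
      (1 + |p.1|) ^ j * ‖h p.1‖ * ((1 + |p.2|) ^ j * ‖h p.2‖) := (hh.int j).mul_prod (hh.int j)
  set D := Cv * Real.exp (2 / la k K) * (R ^ 2 * C) with hD
  set I := ∫ p : ℝ × ℝ, (1 + |p.1|) ^ j * ‖h p.1‖ * ((1 + |p.2|) ^ j * ‖h p.2‖)
  obtain ⟨X₁, x3, hl⟩ := c.ev_el (max (max 1 ℓ₀) (D * I / ε))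
  refine ⟨max X₁ c₀⁻¹, fun X hX ρ S 𝒱 hρ hS hV => ?_⟩
  have X3 : 3 ≤ X := x3.trans ((le_max_left _ _).trans hX)
  have X0 : 0 < X := by linarith
  obtain ⟨l1, l3⟩ := max_le_iff.1 (hl X ((le_max_left _ _).trans hX))
  obtain ⟨l1, l2⟩ := max_le_iff.1 l1
  have l0 : 0 < el k K X := by linarith
  have r0 : 0 < ρ := hc.trans_le hρ
  have y0 := c.Y0_pos X0
  have yX : Y0 k K X ≤ X := by
    rw [c.Y0_eq X0]
    exact (Real.rpow_le_rpow_of_exponent_le (by linarith) (by linarith [c.la_pos])).trans_eq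
      (Real.rpow_one X)
  have hY : (Y0 k K X / ρ) ^ (1 / el k K X) ≤ Real.exp (2 / la k K) := by
    refine c.rpow_el (by linarith) (by positivity) ?_
    rw [Real.rpow_two, sq, div_eq_mul_inv]
    exact mul_le_mul yX ((inv_anti₀ hc hρ).trans ((le_max_right _ _).trans hX)) (by positivity) X0.le
  have hH := ((hv _ _ l0 y0).2.2.2.2.2 ρ r0).2.1
  have hW : lw (S ∪ 𝒱) ≤ R + C₀ :=
    (lw_union_le S 𝒱).trans (add_le_add ((lw_le_nS S).trans hS) hV)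
  have hR : nS S ^ 2 ≤ R ^ 2 := pow_le_pow_left₀ (nS_pos S).le hS 2
  refine (norm_integral_le_of_norm_le (gi.const_mul (D / el k K X))
    (Filter.Eventually.of_forall fun p => ?_)).trans ?_
  · have a1 := (odP_le hEV0 (ch_of_isP hΨ).2.bd hΨ.norm_le l0 p.2 p.1 S).trans hR
    have a2 := hE _ p.2 p.1 _ l2 hW
    have a3 : (1 + |p.2| + |p.1|) ^ j ≤ (1 + |p.1|) ^ j * (1 + |p.2|) ^ j := by
      rw [← mul_pow]
      exact pow_le_pow_left₀ (by positivity)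
        (by nlinarith [mul_nonneg (abs_nonneg p.1) (abs_nonneg p.2)]) j
    rw [sdiff_sdiff_left, sup_eq_union, norm_mul, norm_mul, norm_mul]
    calc _ ≤ Cv * Real.exp (2 / la k K) * ‖h p.1‖ * ‖h p.2‖ *
          (R ^ 2 * (C * ((1 + |p.1|) ^ j * (1 + |p.2|) ^ j) / el k K X)) := by
          gcongr
          · exact (hH _).trans (by gcongr)
          · exact a2.trans (by gcongr)
      _ = _ := by rw [hD]; ring
  · rw [integral_const_mul, div_mul_eq_mul_div, div_le_iff₀ l0]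
    rwa [div_le_iff₀ hε, mul_comm _ ε] at l3

end Pool.Agent.P.MP_b8021b_nt.BP
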