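import Pool.Agent.P.MP_b8021b_nt.BP.StC
import Pool.Agent.P.MP_b8021b_nt.BS.PPCh

/-! The nonzero frequencies: exact formula and crude bound. -/

namespace Pool.Agent.P.MP_b8021b_nt.BP

open NumberField IsDedekindDomain Finset MeasureTheory
open Pool.Agent.P.MP_b8021b_nt.VE Pool.Agent.P.MP_b8021b_nt.VC Pool.Agent.P.MP_b8021b_nt.BS.CF
open Pool.Agent.P.MP_b8021b_nt.BS
open scoped Classical ComplexConjugate Real
variable {k : Type} [Field k] [NumberField k] [Algebra k ℂ] {K : Type} [Field K] [NumberField K]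
  [Algebra k K]

namespace PPX

open PPCh

theorem gs_zero (c : Cx k K) {q : Ideal (𝓞 K)} (hq : Squarefree q) (h2 : Cop 2 q) :
    gsI q 0 = if q = ⊤ then 1 else 0 := by
  split_ifs with h
  · subst h
    have : Subsingleton (𝓞 K ⧸ (⊤ : Ideal (𝓞 K))) := Ideal.Quotient.subsingleton_iff.2 rfl
    rw [gsI, ft, finsum_eq_single _ 0 fun x hx => absurd (Subsingleton.elim x 0) hx, jac_top,
      zero_mul, etr_zero, mul_one]
  · have h0 : (0 : K) ∈ Dual q := by simpa using coe_mem_dual q 0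
    have h1 := (c.g2 q 0 hq h2 h0).1 0
    have h3 : jac 0 q = 0 := not_not.1 fun e => h (by
      have := Ideal.isCoprime_iff_sup_eq.1 ((jac_ne_zero_iff hq.ne_zero).1 e)
      simpa [sp] using this)
    rwa [zero_mul, h3, zero_mul] at h1

theorem norm_term (c : Cx k K) {n : ℕ} {e q 𝔠 : Ideal (𝓞 K)} {γ a : 𝓞 K} (hq : Squarefree q)
    (h2 : Cop 2 q) (hγ : e * q * 𝔠 = sp γ) (h0 : γ ≠ 0) (ha : a ∈ e) {κ : 𝓞 K}
    (hκ : κ ∈ 𝔠 * dI K n) : ‖gsI q ((κ : K) / (n * γ) * a)‖ ≤ √(NN q) :=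
  (c.g2 q _ hq h2 (dual_mul (mk_dual hγ h0 hκ) ha)).2.1

omit [NumberField k] [NumberField K] in
theorem emb_pos {γ : 𝓞 K} (h0 : γ ≠ 0) (φ : Emb k K) : 0 < ‖emb k γ φ‖ :=
  norm_pos_iff.2 ((map_ne_zero φ).2 (by exact_mod_cast h0))

end PPX

open PPX PPCh in
theorem y_pX (c : Cx k K) : Y_PX k K := by
  intro n e q 𝔠 γ a X hn hq h2 hγ h0 ha ha1 hX
  have hq0 : q ≠ ⊥ := hq.ne_zero
  have he0 : e ≠ ⊥ := fun h => h0 (by
    rw [h, Ideal.bot_mul, Ideal.bot_mul] at hγ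
    exact Ideal.span_singleton_eq_bot.1 hγ.symm)
  have hn0 : (n : K) ≠ 0 := Nat.cast_ne_zero.2 hn.pos
  have hγ0 : (γ : K) ≠ 0 := by exact_mod_cast h0
  have hF : Peri (e * q) fun x => if x ∈ e then jac x q else 0 := fun x y hxy => by
    have h1 : x ∈ e ↔ y ∈ e :=
      ⟨fun h => by simpa using e.sub_mem h (Ideal.mul_le_left hxy),
        fun h => by simpa using e.add_mem (Ideal.mul_le_left hxy) h⟩
    simp only [h1, jac_congr (Ideal.mul_le_right hxy)]
  have hr : rk k K ≠ 0 := (one_pos.trans_le c.one_le_rk).ne'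
  have hT := c.t1 (e * q) _ (fun _ => X ^ (-(1 / rk k K))) 0 (mul_ne_zero he0 hq0) hF zero_le_one
    fun _ => by positivity
  simp only [pow_zero, one_mul] at hT
  choose g hg hg' using fun ξ : Dual (e * q) =>
    of_dual hn ξ.2 (g := γ) (𝔠 := 𝔠) (hγ ▸ Ideal.mem_span_singleton_self γ)
  have hi : Function.Injective g := fun ξ ξ' h => Subtype.ext (by
    have := hg' ξ
    rw [h, hg' ξ'] at this
    exact (mul_left_cancel₀ (mul_ne_zero hn0 hγ0) this).symm)
  set η : Emb k K → ℝ := fun φ => X ^ (1 / rk k K) / (n ^ 2 * ‖emb k γ φ‖ ^ 2) with hη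
  set F : 𝓞 K → ℂ := fun κ => (if κ ∈ 𝔠 * dI K n then gsI q ((κ : K) / (n * γ) * a) else 0) *
    (gau η (emb k κ) : ℝ) with hFd
  have h7 : ∑' ξ : Dual (e * q), ft (e * q) (fun x => if x ∈ e then jac x q else 0) ξ.1 *
      (gau (fun _ => (X ^ (-(1 / rk k K)))⁻¹) (emK k ξ.1) : ℝ) = ∑' κ, F κ := by
    rw [← hi.tsum_eq]
    · refine tsum_congr fun ξ => ?_
      have h8 : g ξ ∈ 𝔠 * dI K n := hg ξ
      have h9 : ((g ξ : 𝓞 K) : K) / (n * γ) = ξ.1 := by rw [hg']; field_simp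
      rw [c.g1.2 e q a _ _ he0 hq0 ha ha1 (peri_jac q) ξ.2, hFd]
      beta_reduce
      rw [if_pos h8, h9, hη, gau_eq hn.pos h0 (hg' ξ), Real.rpow_neg hX.le, _root_.inv_inv]
      rfl
    · intro κ hκ
      have h8 : κ ∈ 𝔠 * dI K n := not_not.1 fun h => hκ (by simp [hFd, h])
      refine ⟨⟨_, mk_dual hγ h0 h8⟩, ?_⟩
      apply RingOfIntegers.coe_injective
      show ((g _ : 𝓞 K) : K) = κ
      rw [hg']
      field_simp
  have hs : Summable F := by
    have h1 := c.gs.1 η 0 fun φ => by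
      have := emb_pos (k := k) h0 φ
      have : (0 : ℝ) < n := Nat.cast_pos.2 (Nat.pos_of_ne_zero hn.pos)
      positivity
    simp only [pow_zero, one_mul] at h1
    refine (h1.mul_left √(NN q)).of_norm_bounded fun κ => ?_
    rw [hFd, norm_mul, Complex.norm_real, Real.norm_of_nonneg (gau_pos _ _).le]
    refine mul_le_mul_of_nonneg_right ?_ (gau_pos _ _).le
    split_ifs with h
    · exact norm_term c hq h2 hγ h0 ha h
    · simp
  have h8 : (NN (e * q) * cov2 k K)⁻¹ * ∏ _φ : Emb k K, (2 * X ^ (-(1 / rk k K)))⁻¹ =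
      cW k K * X / (NN e * NN q) := by
    rw [prod_const, card_univ, c.card_emb, mul_inv 2, mul_pow, ← Real.rpow_neg hX.le, neg_neg,
      ← Real.rpow_mul_natCast hX.le, one_div_mul_cancel hr, Real.rpow_one, NN_mul, cW]
    simp only [mul_inv, inv_pow, div_eq_mul_inv]
    ring
  have h9 : F 0 = if q = ⊤ then 1 else 0 := by
    rw [← gs_zero c hq h2, hFd]
    simp [gau, emb]
  rw [Re2, SS, hT, h7, h8, hs.tsum_eq_add_tsum_ite 0, h9, mul_add]
  have h10 : ((cW k K * X / (NN e * NN q) : ℝ) : ℂ) * (if q = ⊤ then 1 else 0) =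
      if q = ⊤ then ((cW k K * X / NN e : ℝ) : ℂ) else 0 := by
    split_ifs with h
    · simp [h, NN]
    · simp
  rw [h10, add_sub_cancel_left]
  congr 1
  refine tsum_congr fun κ => ?_
  by_cases h : κ = 0 <;> simp [hFd, h]

open PPX in
theorem y_cR (c : Cx k K) (hPX : Y_PX k K) : Y_CR k K := by
  obtain ⟨n, -, hn⟩ := c.good.1 1 one_ne_zero
  obtain ⟨B, hB, hb⟩ := c.bal2 1 le_rfl
  obtain ⟨C, hC, -, hg, -⟩ := c.gs.2
  have hW := c.cW_pos
  have hr : 0 < rk k K := one_pos.trans_le c.one_le_rk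
  have hn0 : (0 : ℝ) < n := Nat.cast_pos.2 (Nat.pos_of_ne_zero hn.pos)
  have hnb : sp (n : 𝓞 K) ≠ ⊥ := Ideal.span_singleton_eq_bot.not.2 (Nat.cast_ne_zero.2 hn.pos)
  refine ⟨1 + cW k K * C * (n ^ 2 * B) ^ rk k K * NN (sp (n : 𝓞 K)),
    le_add_of_nonneg_right (by positivity), fun e q X he hq h2 heq hX => ?_⟩
  have hq0 : q ≠ ⊥ := hq.ne_zero
  obtain ⟨𝔠, γ, h𝔠, hγ⟩ := hn.cr (e * q) (mul_ne_zero he hq0)
  have hc : sp (n : 𝓞 K) ≤ 𝔠 := (Ideal.span_singleton_le_iff_mem _).2 h𝔠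
  have hc0 : 𝔠 ≠ ⊥ := ne_bot_of_le_ne_bot hnb hc
  have h0 : γ ≠ 0 := fun h => mul_ne_zero (mul_ne_zero he hq0) hc0
    (by rw [hγ, h]; exact Ideal.span_singleton_eq_bot.2 rfl)
  obtain ⟨u, -, hu⟩ := hb γ h0
  have hγ' : e * q * 𝔠 = sp ((u : 𝓞 K) * γ) := by
    rw [hγ]
    exact (Ideal.span_singleton_mul_left_unit u.isUnit γ).symm
  have h0' : (u : 𝓞 K) * γ ≠ 0 := mul_ne_zero u.ne_zero h0
  obtain ⟨a, ha, b, hb', hab⟩ := Submodule.mem_sup.1
    ((Ideal.eq_top_iff_one _).1 (Ideal.isCoprime_iff_sup_eq.1 heq))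
  have ha1 : a - 1 ∈ q := by rw [← hab]; simpa using hb'
  have hN : 0 < NN (sp γ) := NN_pos (Ideal.span_singleton_eq_bot.not.2 h0)
  have hNe := NN_pos he
  have hNq := NN_pos hq0
  set μ : ℝ := X ^ (1 / rk k K) / (n ^ 2 * (B * NN (sp γ) ^ (1 / rk k K))) with hμ
  have hμ0 : 0 < μ := by positivity
  have hs : Summable fun x : 𝓞 K => if x = 0 then 0 else gau (fun _ => μ) (emb k x) := by
    have h1 := c.gs.1 (fun _ => μ) 0 fun _ => hμ0
    simp only [pow_zero, one_mul] at h1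
    refine h1.of_nonneg_of_le (fun x => ?_) fun x => ?_ <;> split_ifs
    exacts [le_rfl, (gau_pos _ _).le, (gau_pos _ _).le, le_rfl]
  rw [hPX n e q 𝔠 ((u : 𝓞 K) * γ) a X hn hq h2 hγ' h0' ha ha1 hX, norm_mul, Complex.norm_real,
    Real.norm_of_nonneg (by positivity)]
  refine (mul_le_mul_of_nonneg_left ((tsum_of_norm_bounded (hs.mul_left √(NN q)).hasSum
    fun κ => ?_).trans (tsum_mul_left.trans_le
      (mul_le_mul_of_nonneg_left (hg μ hμ0) (Real.sqrt_nonneg _)))) (by positivity)).trans ?_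
  · rw [norm_mul, Complex.norm_real, Real.norm_of_nonneg (gau_pos _ _).le]
    by_cases h : κ = 0
    · simp [h]
    · rw [if_neg h]
      refine mul_le_mul ?_ (gau_anti (fun φ => ?_) _) (gau_pos _ _).le (Real.sqrt_nonneg _)
      · split_ifs with h1
        · exact norm_term c hq h2 hγ' h0' ha h1.2
        · simp
      · have := emb_pos (k := k) h0' φ
        rw [hμ]
        gcongr
        exact (hu φ).1
  · have e1 : μ ^ (-rk k K) = (n ^ 2 * B) ^ rk k K * NN (sp γ) / X := by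
      rw [Real.rpow_neg hμ0.le, hμ, Real.div_rpow (by positivity) (by positivity), ← mul_assoc,
        Real.mul_rpow (by positivity) (by positivity), ← Real.rpow_mul hX.le,
        ← Real.rpow_mul hN.le, one_div_mul_cancel hr.ne', Real.rpow_one, Real.rpow_one, inv_div]
    have e2 : NN (sp γ) ≤ NN e * NN q * NN (sp (n : 𝓞 K)) := by
      rw [← hγ, NN_mul, NN_mul]
      exact mul_le_mul_of_nonneg_left (NN_le_of_le hnb hc) (by positivity)
    rw [e1]
    calc _ ≤ cW k K * X / (NN e * NN q) * (√(NN q) * (C * ((n ^ 2 * B) ^ rk k K *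
          (NN e * NN q * NN (sp (n : 𝓞 K))) / X))) := by gcongr
      _ = cW k K * C * (n ^ 2 * B) ^ rk k K * NN (sp (n : 𝓞 K)) * √(NN q) := by field_simp
      _ ≤ _ := by gcongr; linarith

end Pool.Agent.P.MP_b8021b_nt.BP
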