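import Pool.Agent.P.MP_b8021b_nt.BP.StC

/-! The average over the rough part, and the two inequalities of Markov. -/

namespace Pool.Agent.P.MP_b8021b_nt.BP

open NumberField IsDedekindDomain Finset MeasureTheory
open Pool.Agent.P.MP_b8021b_nt.VE Pool.Agent.P.MP_b8021b_nt.VC Pool.Agent.P.MP_b8021b_nt.BS.CF
open Pool.Agent.P.MP_b8021b_nt.BS
open scoped Classical ComplexConjugate Real

variable {k : Type} [Field k] [NumberField k] [Algebra k ℂ] {K : Type} [Field K] [NumberField K]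
  [Algebra k K]

namespace PRED1

theorem mark {ι : Type} [DecidableEq ι] (w a : ι → ℝ) (hw : ∀ v, 0 ≤ w v) (ha : ∀ v, 0 ≤ a v)
    (P : Finset ι) : ∑ τ ∈ P.powerset, (∏ v ∈ τ, w v) * ∑ v ∈ τ, a v ≤
      (∏ v ∈ P, (1 + w v)) * ∑ v ∈ P, a v * w v := by
  induction P using Finset.induction_on with
  | empty => simp
  | insert q P hq ih =>
    have e : ∑ τ ∈ P.powerset, (∏ v ∈ insert q τ, w v) * ∑ v ∈ insert q τ, a v =
        a q * w q * ∏ v ∈ P, (1 + w v) +
          w q * ∑ τ ∈ P.powerset, (∏ v ∈ τ, w v) * ∑ v ∈ τ, a v := by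
      rw [prod_one_add, mul_sum, mul_sum, ← sum_add_distrib]
      refine sum_congr rfl fun τ hτ => ?_
      have h : q ∉ τ := fun h => hq (mem_powerset.1 hτ h)
      rw [prod_insert h, sum_insert h]
      ring
    have h1 : 0 ≤ ∏ v ∈ P, (1 + w v) := prod_nonneg fun v _ => add_nonneg zero_le_one (hw v)
    have h2 := mul_le_mul_of_nonneg_left ih (hw q)
    have h3 := mul_nonneg (mul_nonneg (mul_nonneg (ha q) (hw q)) (hw q)) h1
    rw [sum_powerset_insert hq, e, prod_insert hq, sum_insert hq]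
    linarith

end PRED1

theorem y_rED1 : Y_RED1 := by
  intro ι _ P D p N χ hN hD hχ
  have hP : D ⊆ P := hD.trans (filter_subset _ _)
  have e := prod_add (fun v => (N v)⁻¹ * if v ∈ D then 2⁻¹ else if p v then (1 + χ v) / 2 else 1)
    (fun v => if v ∈ D then (0 : ℝ) else 1) P
  have e2 : ∏ v ∈ D, (2 * N v + 1)⁻¹ = ∏ v ∈ P, if v ∈ D then (2 * N v + 1)⁻¹ else 1 := by
    rw [prod_ite_mem, inter_eq_right.2 hP]
  rw [e2, prod_filter, prod_filter, ← prod_mul_distrib, ← prod_mul_distrib, ← prod_mul_distrib]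
  refine Eq.trans (sum_congr rfl fun τ hτ => ?_) (e.symm.trans (prod_congr rfl fun v _ => ?_))
  · by_cases h : D ⊆ τ
    · have e3 : ∏ v ∈ P \ τ, (if v ∈ D then (0 : ℝ) else 1) = 1 :=
        prod_eq_one fun v hv => if_neg fun a => (mem_sdiff.1 hv).2 (h a)
      have e4 : τ.filter (· ∈ D) = D := by rw [filter_mem_eq_inter, inter_eq_right.2 h]
      have e5 : τ.filter p \ D = (τ.filter (· ∉ D)).filter p := by
        ext v
        simp only [mem_sdiff, mem_filter]
        tauto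
      rw [if_pos h, e3, mul_one, prod_mul_distrib, prod_inv_distrib, prod_ite, e4, prod_const,
        inv_pow, e5, prod_filter]
    · obtain ⟨v, h1, h2⟩ := not_subset.1 h
      have e3 : ∏ v ∈ P \ τ, (if v ∈ D then (0 : ℝ) else 1) = 0 :=
        prod_eq_zero (mem_sdiff.2 ⟨hP h1, h2⟩) (if_pos h1)
      rw [if_neg h, mul_zero, e3, mul_zero]
  · have h0 := hN v
    by_cases h : v ∈ D
    · simp only [if_pos h, if_pos (mem_filter.1 (hD h)).2, hχ v h]
      field_simp
      ring
    · by_cases h' : p v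
      · simp only [if_neg h, if_pos h']
        field_simp
        ring
      · simp only [if_neg h, if_neg h']
        ring

theorem y_mARK (c : Cx k K) (hCH1 : Y_CH1 K) (hCH2 : Y_CH2 K) : Y_MARK K := by
  obtain ⟨C, hC, h1⟩ := hCH1
  obtain ⟨B, hB, -, -, -, h2⟩ := hCH2
  refine ⟨20 * C, (20 * B) ^ 2, by linarith, fun W y hW hy => ?_⟩
  have l0 : 0 < Real.log y := Real.log_pos (by linarith)
  have l1 : 0 < 20 * C * Real.log y := by positivity
  have w1 : 1 ≤ W := le_trans (one_le_pow₀ (by linarith)) hW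
  have w2 : 20 * B ≤ √W := Real.le_sqrt_of_sq_le hW
  let a : Pl K → ℝ := fun v => Real.log (nv v) / (20 * C * Real.log y) + Real.log (nv v) / nv v
  have ha : ∀ v, 0 ≤ a v := fun v => add_nonneg (div_nonneg (log_nv_pos v).le l1.le)
    (div_nonneg (log_nv_pos v).le (nv_pos v).le)
  have hm := PRED1.mark (fun v : Pl K => (nv v)⁻¹) a (fun v => inv_nonneg.2 (nv_pos v).le) ha
    (pls K W y)
  have e1 : ∀ τ : Finset (Pl K), ∑ v ∈ τ, a v = Real.log (nS τ) / (20 * C * Real.log y) + lw τ :=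
    fun τ => by
      rw [sum_add_distrib, ← sum_div, nS_eq, Real.log_prod fun v _ => (nv_pos v).ne', lw]
  have e2 : ∑ v ∈ pls K W y, a v * (nv v)⁻¹ = lw (pls K W y) / (20 * C * Real.log y) +
      ∑ v ∈ pls K W y, Real.log (nv v) / nv v ^ 2 := by
    rw [lw, sum_div, ← sum_add_distrib]
    refine sum_congr rfl fun v _ => ?_
    simp only [a]
    ring
  have b1 : lw (pls K W y) / (20 * C * Real.log y) ≤ 1 / 20 := by
    rw [div_le_iff₀ l1]
    have := (lw_mono (pls_mono (K := K) (zero_le_one.trans w1) le_rfl)).trans (h1 y hy).2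
    linarith
  have b2 : ∑ v ∈ pls K W y, Real.log (nv v) / nv v ^ 2 ≤ 1 / 20 := by
    refine (h2 W _ w1 fun v hv => (mem_pls.1 hv).1).trans ?_
    rw [div_le_iff₀ (by linarith)]
    linarith
  have z0 : 0 ≤ Z0 (pls K W y) :=
    prod_nonneg fun v _ => add_nonneg zero_le_one (inv_nonneg.2 (nv_pos v).le)
  have b3 : Z0 (pls K W y) * ∑ v ∈ pls K W y, a v * (nv v)⁻¹ ≤ Z0 (pls K W y) * (1 / 10) :=
    mul_le_mul_of_nonneg_left (by linarith) z0
  have b4 : ∑ τ ∈ (pls K W y).powerset, ((∏ v ∈ τ, (nv v)⁻¹) - (∏ v ∈ τ, (nv v)⁻¹) * ∑ v ∈ τ, a v) ≤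
      ∑ τ ∈ TT K W y (20 * C), (nS τ)⁻¹ := by
    rw [TT, sum_filter]
    refine sum_le_sum fun τ _ => ?_
    have n0 := inv_nonneg.2 (nS_pos τ).le
    rw [prod_inv_distrib, ← nS_eq]
    split_ifs with h
    · linarith [mul_nonneg n0 (sum_nonneg fun v (_ : v ∈ τ) => ha v)]
    · have : 1 ≤ ∑ v ∈ τ, a v := by
        have k1 := div_nonneg (Real.log_nonneg (one_le_nS τ)) l1.le
        rw [e1]
        rcases not_and_or.1 h with h | h
        · have k2 := Real.log_le_log (by positivity) (not_le.1 h).le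
          rw [Real.log_rpow (by linarith), ← one_le_div l1] at k2
          linarith [lw_nonneg τ]
        · linarith [not_le.1 h]
      linarith [mul_le_mul_of_nonneg_left this n0]
  rw [sum_sub_distrib, ← prod_one_add] at b4
  change _ ≤ Z0 (pls K W y) * _ at hm
  change Z0 (pls K W y) - _ ≤ _ at b4
  linarith

end Pool.Agent.P.MP_b8021b_nt.BP
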