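import Pool.Agent.P.MP_b8021b_nt.BP.StC

/-! The second moment of the mollified polynomial against the Gaussian weight. -/

namespace Pool.Agent.P.MP_b8021b_nt.BP

open NumberField IsDedekindDomain Finset MeasureTheory
open Pool.Agent.P.MP_b8021b_nt.VE Pool.Agent.P.MP_b8021b_nt.VC Pool.Agent.P.MP_b8021b_nt.BS.CF
open Pool.Agent.P.MP_b8021b_nt.BS
open scoped Classical ComplexConjugate Real
variable {k : Type} [Field k] [NumberField k] [Algebra k ℂ] {K : Type} [Field K] [NumberField K]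
  [Algebra k K]

namespace PS2

/-- the short products of places -/
noncomputable def sh (K : Type) [Field K] [NumberField K] (ℓ : ℝ) : Finset (Finset (Pl K)) :=
  (pls K 0 (Real.exp ℓ)).powerset.filter fun S => nS S ≤ Real.exp ℓ

/-- the coefficients of the long polynomial -/
noncomputable def ca (Ψ : Ideal (𝓞 K) → ℂ) (ω : ℝ → ℂ) (J : Ideal (𝓞 K)) : ℂ :=
  Ψ J * ω (NN J) / (√(NN J) : ℝ)

/-- the coefficients of the mollifier -/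
noncomputable def cm (Ψ : Ideal (𝓞 K) → ℂ) (ℓ : ℝ) (S : Finset (Pl K)) : ℂ :=
  (-1) ^ S.card * Ψ (eI S) * (St (Real.log (nS S) / ℓ) / √(nS S) : ℝ)

theorem expand (Ψ : Ideal (𝓞 K) → ℂ) (ω : ℝ → ℂ) (Z : ℝ) {ℓ : ℝ} (hℓ : 0 < ℓ) (x : 𝓞 K) :
    Aw Ψ (leg x) ω Z * Mw Ψ (leg x) ℓ =
      ∑ i ∈ ids K Z ×ˢ sh K ℓ, ca Ψ ω i.1 * cm Ψ ℓ i.2 * jac x (i.1 * eI i.2) := by
  rw [Mw, ← sum_filter_of_ne (p := fun S => nS S ≤ Real.exp ℓ) fun S _ e => not_lt.1 fun l =>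
    e (by simp [St_log hℓ l.le]), Aw, sum_mul_sum, sum_product]
  refine sum_congr rfl fun J _ => sum_congr rfl fun S _ => ?_
  simp only [ca, cm, sg_leg, jac_mul_right]
  ring

theorem norm_ca {Ψ : Ideal (𝓞 K) → ℂ} (h : ∀ I, ‖Ψ I‖ ≤ 1) {ω : ℝ → ℂ} {Λ Z : ℝ} (hω : LL ω Λ Z)
    {J : Ideal (𝓞 K)} (hJ : J ≠ ⊥) : ‖ca Ψ ω J‖ * √(NN J) ≤ Λ := by
  have h0 : 0 < √(NN J) := Real.sqrt_pos.2 (NN_pos hJ)
  rw [ca, norm_div, Complex.norm_real, Real.norm_of_nonneg h0.le, div_mul_cancel₀ _ h0.ne',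
    norm_mul]
  exact (mul_le_of_le_one_left (norm_nonneg _) (h J)).trans (hω.bd _ (one_le_NN hJ))

theorem norm_cm {Ψ : Ideal (𝓞 K) → ℂ} (h : ∀ I, ‖Ψ I‖ ≤ 1) (ℓ : ℝ) (S : Finset (Pl K)) :
    ‖cm Ψ ℓ S‖ * √(nS S) ≤ 1 := by
  have h0 : 0 < √(nS S) := Real.sqrt_pos.2 (nS_pos S)
  rw [cm, norm_mul, norm_mul, norm_pow, norm_neg, norm_one, one_pow, one_mul, Complex.norm_real,
    Real.norm_of_nonneg (div_nonneg (St_nonneg _) h0.le), mul_assoc, div_mul_cancel₀ _ h0.ne']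
  exact mul_le_one₀ (h _) (St_nonneg _) (St_le_one _)

theorem off {n : ℕ} {Ψ : Ideal (𝓞 K) → ℂ} (h : ∀ I, ‖Ψ I‖ ≤ 1) (hz : ∀ I, ¬ Cop n I → Ψ I = 0)
    {ω : ℝ → ℂ} {Λ Z ℓ B : ℝ} (hω : LL ω Λ Z) (hB : 0 ≤ B) (R : Ideal (𝓞 K) → ℂ)
    (hR : ∀ 𝔟, Cop n 𝔟 → NN 𝔟 ≤ Z * Real.exp (2 * ℓ) →
      ‖∑ I ∈ ids K Z, ca Ψ ω I * R (I * 𝔟)‖ ≤ B * √(NN 𝔟)) :
    ‖∑ i ∈ ids K Z ×ˢ sh K ℓ, ∑ j ∈ ids K Z ×ˢ sh K ℓ,
      ca Ψ ω i.1 * cm Ψ ℓ i.2 * conj (ca Ψ ω j.1 * cm Ψ ℓ j.2) * R (i.1 * eI i.2 * (j.1 * eI j.2))‖ ≤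
      (ids K Z).card * (sh K ℓ).card * ((sh K ℓ).card * (Λ * B)) := by
  have hΛ : 0 ≤ Λ := (norm_nonneg _).trans (hω.bd 1 le_rfl)
  rw [sum_comm, ← Nat.cast_mul, ← card_product, ← nsmul_eq_mul]
  refine (norm_sum_le _ _).trans (sum_le_card_nsmul _ _ _ fun j hj => ?_)
  rw [sum_product_right, ← nsmul_eq_mul]
  refine (norm_sum_le _ _).trans (sum_le_card_nsmul _ _ _ fun S hS => ?_)
  obtain ⟨h1, h2⟩ := mem_product.1 hj
  obtain ⟨h3, h4⟩ := mem_ids.1 h1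
  have e : ∑ I ∈ ids K Z, ca Ψ ω I * cm Ψ ℓ S * conj (ca Ψ ω j.1 * cm Ψ ℓ j.2) *
      R (I * eI S * (j.1 * eI j.2)) = cm Ψ ℓ S * conj (ca Ψ ω j.1 * cm Ψ ℓ j.2) *
        ∑ I ∈ ids K Z, ca Ψ ω I * R (I * (eI S * (j.1 * eI j.2))) := by
    rw [mul_sum]
    exact sum_congr rfl fun I _ => by rw [mul_assoc I]; ring
  rw [e]
  by_cases hc : Cop n (eI S * (j.1 * eI j.2))
  · have h5 := hR _ hc (by
      rw [NN_mul, NN_mul, two_mul, Real.exp_add, mul_left_comm Z]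
      exact mul_le_mul (mem_filter.1 hS).2 (mul_le_mul h4 (mem_filter.1 h2).2 (nS_pos _).le
        ((NN_pos h3).le.trans h4)) (mul_nonneg (NN_pos h3).le (nS_pos _).le) (Real.exp_pos _).le)
    rw [NN_mul, NN_mul, Real.sqrt_mul (nS_pos S).le, Real.sqrt_mul (NN_pos h3).le] at h5
    rw [norm_mul, norm_mul, Complex.norm_conj, norm_mul]
    calc _ ≤ ‖cm Ψ ℓ S‖ * (‖ca Ψ ω j.1‖ * ‖cm Ψ ℓ j.2‖) *
          (B * (√(nS S) * (√(NN j.1) * √(nS j.2)))) := mul_le_mul_of_nonneg_left h5 (by positivity)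
      _ = ‖cm Ψ ℓ S‖ * √(nS S) * (‖cm Ψ ℓ j.2‖ * √(nS j.2)) * (‖ca Ψ ω j.1‖ * √(NN j.1) * B) := by
          ring
      _ ≤ _ := by
          refine (mul_le_of_le_one_left (by positivity) ?_).trans
            (mul_le_mul_of_nonneg_right (norm_ca h hω h3) hB)
          exact mul_le_one₀ (norm_cm h ℓ S) (by positivity) (norm_cm h ℓ j.2)
  · have : cm Ψ ℓ S * conj (ca Ψ ω j.1 * cm Ψ ℓ j.2) = 0 := by
      rw [cop_mul, cop_mul, not_and_or, not_and_or] at hc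
      rcases hc with hc | hc | hc <;> simp [ca, cm, hz _ hc]
    rw [this, zero_mul, norm_zero]
    positivity

end PS2

open PS2 in
theorem y_s2 (c : Cx k K) (hFI : Y_FI) (hWB : Y_WB) (hDIV : Y_DIV K) (hDIAG : Y_DIAG K)
    (hIS : Y_IS k K) (hS2a : Y_S2a k K) : Y_S2 k K := by
  intro n₀ n ℛ ℛ' Ψ hG hΨ
  obtain ⟨h, hh⟩ := hFI
  obtain ⟨Cw, w1, hw⟩ := hWB h hh
  obtain ⟨-, Cn, n1, hn⟩ := hDIV
  obtain ⟨Cd, j, d1, hd⟩ := hDIAG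
  obtain ⟨Ci, X₁, i1, hi⟩ := hIS n₀ n ℛ ℛ' Ψ hG hΨ
  obtain ⟨X₂, x3, hl⟩ := c.ev_el 1
  have hW := c.cW_pos
  have hCh : Ch 2 Ψ := ⟨hΨ.norm_le, fun v e => (ch_of_isP hΨ).1.zero v
    (e.of_dvd ((Dvd.intro (2 * n₀ ^ 2) (by ring)).trans hG.dvd))⟩
  refine ⟨cW k K * (Cd * Real.exp (2 / la k K)) + Cn ^ 3 * Cw ^ 2 * Ci, max X₁ X₂, j + 2,
    le_add_of_nonneg_of_le (by positivity) (one_le_mul_of_one_le_of_one_le
      (one_le_mul_of_one_le_of_one_le (one_le_pow₀ n1) (one_le_pow₀ w1)) i1), fun X b T hX => ?_⟩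
  have X3 : 3 ≤ X := x3.trans ((le_max_right _ _).trans hX)
  have X0 : 0 < X := by linarith
  have l1 := hl X ((le_max_right _ _).trans hX)
  have hla : la k K ≤ 1 / 10000 := by linarith [c.et_eq, c.et_le]
  have y1 : 1 ≤ Y0 k K X := by
    rw [c.Y0_eq X0]
    exact Real.one_le_rpow (by linarith) (by linarith)
  have hsq := c.Y0_sq X0
  have zX : ZZ k K X ≤ X := by
    rw [c.ZZ_eq X0]
    exact (Real.rpow_le_rpow_of_exponent_le (by linarith) (by linarith)).trans_eq (Real.rpow_one X)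
  have hp := fun x h0 hx => c.rpow_el (X := X) (a := 2) (x := x) (by linarith) h0 hx
  have hi' := fun 𝔟 ω Λ => hi 𝔟 ω X Λ ((le_max_left _ _).trans hX)
  have hz : ZZ k K X = Y0 k K X * Real.exp (4 * el k K X) := rfl
  rw [show (fun x => gX k X x * ‖Aw Ψ (leg x) (Wb2 (el k K X) (Y0 k K X * Real.exp (3 * el k K X)) b)
    (ZZ k K X) * MX k Ψ X x‖ ^ 2) = fun x => gX k X x * ‖Aw Ψ (leg x) (Wb2 (el k K X)
      (Y0 k K X * Real.exp (3 * el k K X)) b) (ZZ k K X) * Mw Ψ (leg x) (el k K X)‖ ^ 2 from rfl]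
  generalize el k K X = ℓ at *
  generalize ZZ k K X = Z at *
  generalize Y0 k K X = y at *
  have l0 : 0 < ℓ := by linarith
  have e1 : 1 ≤ Real.exp ℓ := Real.one_le_exp l0.le
  have Y1 : 1 ≤ y * Real.exp (3 * ℓ) :=
    one_le_mul_of_one_le_of_one_le y1 (Real.one_le_exp (by linarith))
  have hZ : Z = y * Real.exp (3 * ℓ) * Real.exp ℓ := by
    rw [hz, mul_assoc, ← Real.exp_add]
    ring_nf
  have hb : 1 ≤ 1 + |b| := le_add_of_nonneg_right (abs_nonneg b)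
  have hL := (hw ℓ _ b l1 (one_pos.trans_le Y1)).2
  have hD := hd Ψ ℓ _ Z b (pls K 0 Z) hCh l1 Y1 hZ subset_rfl
  rw [← hZ] at hL
  have eZ : Real.exp ℓ ≤ Z := hZ ▸ le_mul_of_one_le_left (Real.exp_pos ℓ).le Y1
  have YZ : y * Real.exp (3 * ℓ) ≤ Z := hZ ▸ le_mul_of_one_le_right (by positivity) e1
  have Z0 : 0 < Z := (Real.exp_pos ℓ).trans_le eZ
  have hY : (y * Real.exp (3 * ℓ)) ^ (2 / ℓ) ≤ Real.exp (2 / la k K) := by
    have := hp ((y * Real.exp (3 * ℓ)) ^ (2 : ℝ)) (by positivity)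
      (Real.rpow_le_rpow (by positivity) (YZ.trans zX) zero_le_two)
    rwa [← Real.rpow_mul (by positivity), mul_one_div] at this
  generalize Wb2 ℓ (y * Real.exp (3 * ℓ)) b = ω at *
  have hO := off (ℓ := ℓ) (B := Ci * (Cw * (1 + |b|)) * Z * Real.exp (-(10 * ℓ))) hΨ.norm_le
    hΨ.zero hL (by positivity) (RJ k X) fun 𝔟 h1 h2 => (hi' 𝔟 ω _ h1 h2 hL).trans_eq (by ring)
  have hS := hS2a _ (ids K Z ×ˢ sh K ℓ) (fun i => ca Ψ ω i.1 * cm Ψ ℓ i.2)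
    (fun i => i.1 * eI i.2) (pls K 0 Z) T X X0 fun i hi => by
      obtain ⟨h1, h2⟩ := mem_product.1 hi
      obtain ⟨h3, h4⟩ := mem_ids.1 h1
      refine ⟨mul_ne_zero h3 (eI_ne_bot _), ?_⟩
      rw [prI_mul h3 (eI_ne_bot _), prI_eI]
      exact union_subset (fun v hv => mem_pls.2 ⟨nv_pos v,
        (NN_le_of_le h3 ((mem_prI h3).1 hv)).trans h4⟩)
        ((mem_powerset.1 (mem_filter.1 h2).1).trans (pls_mono le_rfl eZ))
  simp only [← expand Ψ ω Z l0] at hS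
  have c1 := (hn Z (e1.trans eZ)).1
  have c2 : ((sh K ℓ).card : ℝ) ≤ Cn * Real.exp ℓ :=
    (Nat.cast_le.2 (card_le_ids fun S h => (mem_filter.1 h).2)).trans (hn _ e1).1
  have t1 : Cd * (y * Real.exp (3 * ℓ)) ^ (2 / ℓ) * (1 + |b|) ^ j ≤
      Cd * Real.exp (2 / la k K) * (1 + |b|) ^ (j + 2) := by
    gcongr
    omega
  have t2 : Z ^ 2 * (Real.exp ℓ * Real.exp ℓ * Real.exp (-(10 * ℓ))) ≤ X := by
    rw [hz, mul_pow, mul_assoc, ← Real.exp_nat_mul, ← Real.exp_add, ← Real.exp_add, ← Real.exp_add,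
      ← hsq]
    gcongr
    push_cast
    linarith
  have t3 : (1 + |b|) ^ 2 ≤ (1 + |b|) ^ (j + 2) := pow_le_pow_right₀ hb (by omega)
  refine hS.trans ?_
  rw [add_mul, add_mul]
  refine add_le_add ((mul_le_mul_of_nonneg_left (hD.trans t1) (by positivity)).trans_eq (by ring))
    (hO.trans ?_)
  calc _ ≤ Cn * Z * (Cn * Real.exp ℓ) * (Cn * Real.exp ℓ * (Cw * (1 + |b|) *
        (Ci * (Cw * (1 + |b|)) * Z * Real.exp (-(10 * ℓ))))) := by gcongr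
    _ = Cn ^ 3 * Cw ^ 2 * Ci * (1 + |b|) ^ 2 *
        (Z ^ 2 * (Real.exp ℓ * Real.exp ℓ * Real.exp (-(10 * ℓ)))) := by ring
    _ ≤ _ := by gcongr

end Pool.Agent.P.MP_b8021b_nt.BP
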