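import Pool.Agent.P.MP_b8021b_nt.BP.StC

/-! The second moment with the Gaussian weight splits into the diagonal and the rest. -/

namespace Pool.Agent.P.MP_b8021b_nt.BP

open NumberField IsDedekindDomain Finset MeasureTheory
open Pool.Agent.P.MP_b8021b_nt.VE Pool.Agent.P.MP_b8021b_nt.VC Pool.Agent.P.MP_b8021b_nt.BS.CF
open Pool.Agent.P.MP_b8021b_nt.BS
open scoped Classical ComplexConjugate Real
variable {k : Type} [Field k] [NumberField k] [Algebra k ℂ] {K : Type} [Field K] [NumberField K] [Algebra k K]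

namespace PS2a

theorem sq_eq {ι : Type} (s : Finset ι) (α : ι → ℂ) (𝔍 : ι → Ideal (𝓞 K)) (x : 𝓞 K) :
    ((‖∑ i ∈ s, α i * jac x (𝔍 i)‖ ^ 2 : ℝ) : ℂ) =
      ∑ i ∈ s, ∑ j ∈ s, α i * conj (α j) * jac x (𝔍 i * 𝔍 j) := by
  rw [Complex.ofReal_pow, ← Complex.mul_conj', map_sum, sum_mul_sum]
  refine sum_congr rfl fun i _ => sum_congr rfl fun j _ => ?_
  rw [map_mul, conj_jac, jac_mul_right]
  ring

theorem hasSum_SS (c : Cx k K) {X : ℝ} (hX : 0 < X) (J : Ideal (𝓞 K)) :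
    HasSum (fun x : 𝓞 K => jac x J * (gX k X x : ℝ)) (SS k ⊤ J X) := by
  have h := c.gs.1 (fun _ => X ^ (-(1 / rk k K))) 0 fun _ => by positivity
  simp only [pow_zero, one_mul] at h
  simp only [SS, Submodule.mem_top, if_true]
  refine (Summable.of_norm_bounded h fun x => ?_).hasSum
  rw [norm_mul, Complex.norm_real, gX, Real.norm_of_nonneg (gau_pos _ _).le]
  exact mul_le_of_le_one_left (gau_pos _ _).le (norm_jac_le _ _)

end PS2a

open PS2a in
theorem y_s2a (c : Cx k K) (hDG1 : Y_DG1 K) : Y_S2a k K := by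
  intro ι s α 𝔍 𝒰 T X hX h
  have h1 : HasSum (fun x : 𝓞 K => ((gX k X x * ‖∑ i ∈ s, α i * jac x (𝔍 i)‖ ^ 2 : ℝ) : ℂ))
      (∑ i ∈ s, ∑ j ∈ s, α i * conj (α j) * SS k ⊤ (𝔍 i * 𝔍 j) X) := by
    refine Eq.mp (congrArg (fun f => HasSum f _) (funext fun x => ?_))
      (hasSum_sum fun i _ => hasSum_sum fun j _ =>
        (hasSum_SS c hX (𝔍 i * 𝔍 j)).mul_left (α i * conj (α j)))
    rw [Complex.ofReal_mul, sq_eq, mul_sum]
    refine sum_congr rfl fun i _ => ?_
    rw [mul_sum]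
    exact sum_congr rfl fun j _ => by ring
  have h2 := Complex.hasSum_re h1
  simp only [Complex.ofReal_re] at h2
  have h0 := c.cW_pos
  refine (sum_le_hasSum T (fun x _ => mul_nonneg (gau_pos _ _).le (by positivity)) h2).trans
    ((Complex.re_le_norm _).trans ?_)
  rw [← Real.norm_of_nonneg (mul_pos h0 hX).le, ← Complex.norm_real, ← norm_mul]
  refine le_of_eq_of_le (congrArg _ ?_) (norm_add_le _ _)
  rw [PoiN.av_congr (sq_eq s α 𝔍), PoiN.av_sum (eI_ne_bot 𝒰), mul_sum, ← sum_add_distrib]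
  refine sum_congr rfl fun i hi => ?_
  rw [PoiN.av_sum (eI_ne_bot 𝒰), mul_sum, ← sum_add_distrib]
  refine sum_congr rfl fun j hj => ?_
  rw [PoiN.av_const_mul, hDG1.2.2 𝒰 _ (mul_ne_zero (h i hi).1 (h j hj).1)
    (by rw [prI_mul (h i hi).1 (h j hj).1]; exact union_subset (h i hi).2 (h j hj).2), RJ]
  ring

end Pool.Agent.P.MP_b8021b_nt.BP
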