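import Pool.Agent.P.MP_b8021b_nt.BP.StC

/-! The sign of the Gauss sum of an ideal with a fixed complementary place. -/

namespace Pool.Agent.P.MP_b8021b_nt.BP

open NumberField IsDedekindDomain Finset MeasureTheory
open Pool.Agent.P.MP_b8021b_nt.VE Pool.Agent.P.MP_b8021b_nt.VC Pool.Agent.P.MP_b8021b_nt.BS.CF
open Pool.Agent.P.MP_b8021b_nt.BS
open scoped Classical ComplexConjugate Real
variable {k : Type} [Field k] [NumberField k] [Algebra k ℂ] {K : Type} [Field K] [NumberField K]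
  [Algebra k K]

namespace PSIG

theorem per_etr {q : Ideal (𝓞 K)} {ξ : K} (h : ξ ∈ Dual q) :
    PoiN.Per q fun x => jac x q * etr (ξ * (x : 𝓞 K)) := Peri.etr (peri_jac q) h

theorem dual_mul {I J : Ideal (𝓞 K)} {ξ : K} (h : ξ ∈ Dual (I * J)) {a : 𝓞 K} (ha : a ∈ J) :
    ξ * a ∈ Dual I := fun b hb => by
  simpa [mul_assoc, mul_comm (a : K)] using h (b * a) (Ideal.mul_mem_mul hb ha)

theorem gsI_eq {q : Ideal (𝓞 K)} (hq : q ≠ ⊥) (ξ : K) :
    gsI q ξ = Ideal.absNorm q * PoiN.av q fun x => jac x q * etr (ξ * (x : 𝓞 K)) := by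
  unfold PoiN.av
  rw [mul_div_cancel₀ _ (PoiN.nm_ne hq)]
  rfl

/-- the Gauss sum of a product of coprime ideals -/
theorem gsI_crt {I J : Ideal (𝓞 K)} (hI : I ≠ ⊥) (hJ : J ≠ ⊥) {ξ : K} (h : ξ ∈ Dual (I * J))
    {a a' : 𝓞 K} (ha : a ∈ J) (ha' : a' ∈ I) (e : a' + a = 1) :
    gsI (I * J) ξ = gsI I (ξ * a) * gsI J (ξ * a') := by
  have hc : IsCoprime I J := Ideal.isCoprime_iff_exists.2 ⟨a', ha', a, ha, e⟩
  have d1 : ξ * a ∈ Dual I := dual_mul h ha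
  have d2 : ξ * a' ∈ Dual J := dual_mul (by rwa [mul_comm]) ha'
  have e1 : (a' : K) + a = 1 := by simpa using congrArg (algebraMap (𝓞 K) K) e
  have e2 : ∀ x : 𝓞 K, etr (ξ * x) = etr (ξ * a * x) * etr (ξ * a' * x) := fun x => by
    rw [← etr_add]
    congr 1
    linear_combination -(ξ * x) * e1
  rw [gsI_eq (mul_ne_zero hI hJ), gsI_eq hI, gsI_eq hJ, mul_mul_mul_comm,
    ← PoiN.av_crt hI hJ hc (per_etr d1) (per_etr d2), map_mul, Nat.cast_mul]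
  congr 1
  exact PoiN.av_congr fun x => by rw [jac_mul_right, e2]; ring

/-- the Gauss sum only depends on the frequency modulo the integers -/
theorem gsI_add (q : Ideal (𝓞 K)) (ξ : K) (b : 𝓞 K) : gsI q (ξ + b) = gsI q ξ := by
  unfold gsI ft
  refine finsum_congr fun x => ?_
  rw [add_mul, etr_add, etr_of_dual (coe_mem_dual ⊤ b) Submodule.mem_top, mul_one]

theorem inv_dual {g : 𝓞 K} (h0 : g ≠ 0) : (g : K)⁻¹ ∈ Dual (sp g) := fun a ha => by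
  have h0' : (g : K) ≠ 0 := RingOfIntegers.coe_ne_zero_iff.2 h0
  obtain ⟨b, rfl⟩ := Ideal.mem_span_singleton.1 ha
  have := coe_mem_dual ⊤ b 1 Submodule.mem_top
  simpa [h0'] using this

/-- the hypotheses on a triple -/
structure Tr (N : ℕ) (v : Pl K) (J : Ideal (𝓞 K)) (g a : 𝓞 K) : Prop where
  sq : Squarefree J
  nle : ¬ J ≤ v.asIdeal
  eq : J * v.asIdeal = sp g
  dvd : (N : 𝓞 K) ∣ g - 1
  mem : a ∈ v.asIdeal
  mem' : a - 1 ∈ J

variable {N : ℕ} {v : Pl K} {J J' : Ideal (𝓞 K)} {g g' a a' : 𝓞 K}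

omit [NumberField K] in
theorem Tr.sub (h : Tr N v J g a) : 1 - a ∈ J := by simpa using J.neg_mem h.mem'

omit [NumberField K] in
theorem Tr.cop (h : Tr N v J g a) : IsCoprime J v.asIdeal :=
  Ideal.isCoprime_iff_exists.2 ⟨1 - a, h.sub, a, h.mem, by ring⟩

theorem Tr.sqf (h : Tr N v J g a) : Squarefree (sp g) := by
  rw [← h.eq]
  exact squarefree_mul_iff.2 ⟨h.cop.isRelPrime, h.sq, v.prime.squarefree⟩

omit [NumberField K] in
theorem Tr.memJ (h : Tr N v J g a) : g ∈ J :=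
  Ideal.mul_le_left (h.eq ▸ Ideal.mem_span_singleton_self g : g ∈ J * v.asIdeal)

omit [NumberField K] in
theorem Tr.memv (h : Tr N v J g a) : g ∈ v.asIdeal :=
  Ideal.mul_le_right (h.eq ▸ Ideal.mem_span_singleton_self g : g ∈ J * v.asIdeal)

theorem Tr.dual (h : Tr N v J g a) : (g : K)⁻¹ ∈ Dual (J * v.asIdeal) :=
  h.eq ▸ inv_dual (ne_zero_of_sqf h.sqf)

theorem Tr.key (h : Tr N v J g a)
    (H : ∀ γ, Pri N γ → gsI (sp γ) (γ : K)⁻¹ = (√(NN (sp γ)) : ℝ)) :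
    gsI J ((a : K) / g) * gsI v.asIdeal ((g : K)⁻¹ * (1 - a : 𝓞 K)) =
      (√(NN J) : ℝ) * (√(nv v) : ℝ) := by
  have h1 := H g ⟨h.dvd, h.sqf⟩
  rw [← h.eq, gsI_crt h.sq.ne_zero v.ne_bot h.dual h.mem h.sub (by ring), NN_mul,
    Real.sqrt_mul (NN_pos h.sq.ne_zero).le] at h1
  rw [div_eq_inv_mul, h1]
  push_cast; rfl

theorem Tr.same (h : Tr N v J g a) (h' : Tr N v J' g' a') (e : g - g' ∈ v.asIdeal ^ 2) :
    gsI v.asIdeal ((g : K)⁻¹ * (1 - a : 𝓞 K)) = gsI v.asIdeal ((g' : K)⁻¹ * (1 - a' : 𝓞 K)) := by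
  have h0 : (g : K) ≠ 0 := RingOfIntegers.coe_ne_zero_iff.2 (ne_zero_of_sqf h.sqf)
  have h0' : (g' : K) ≠ 0 := RingOfIntegers.coe_ne_zero_iff.2 (ne_zero_of_sqf h'.sqf)
  have m1 : (1 - a) * g' - (1 - a') * g ∈ J * J' :=
    (J * J').sub_mem (Ideal.mul_mem_mul h.sub h'.memJ)
      (by rw [mul_comm (1 - a')]; exact Ideal.mul_mem_mul h.memJ h'.sub)
  have m2 : (1 - a) * g' - (1 - a') * g ∈ v.asIdeal * v.asIdeal := by
    have : (1 - a) * g' - (1 - a') * g = a' * g - a * g' - (g - g') := by ring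
    rw [this]
    exact Ideal.sub_mem _ (Ideal.sub_mem _ (Ideal.mul_mem_mul h'.mem h.memv)
      (Ideal.mul_mem_mul h.mem h'.memv)) (by rwa [← pow_two])
  have hc : IsCoprime (J * J') (v.asIdeal * v.asIdeal) :=
    (h.cop.mul_left h'.cop).mul_right (h.cop.mul_left h'.cop)
  have m3 : (1 - a) * g' - (1 - a') * g ∈ sp (g * g') := by
    rw [sp_mul, ← h.eq, ← h'.eq, mul_mul_mul_comm, Ideal.mul_eq_inf_of_isCoprime hc]
    exact ⟨m1, m2⟩
  obtain ⟨b, hb⟩ := Ideal.mem_span_singleton.1 m3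
  rw [← gsI_add v.asIdeal ((g' : K)⁻¹ * (1 - a' : 𝓞 K)) b]
  congr 1
  have e1 : ((1 - a : 𝓞 K) : K) * g' - (1 - a' : 𝓞 K) * g = g * g' * b := by
    simpa using congrArg (algebraMap (𝓞 K) K) hb
  field_simp
  linear_combination e1

theorem Tr.le (c : Cx k K) (h2 : 2 ∣ N) (h : Tr N v J g a) :
    ‖gsI J ((a : K) / g)‖ ≤ √(NN J) := by
  have h1 : Cop 2 (sp g) :=
    cop_span_of_dvd ((Nat.cast_dvd_cast (α := 𝓞 K) h2).trans h.dvd)
  rw [← h.eq, cop_mul] at h1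
  rw [div_eq_inv_mul]
  exact (c.g2 J _ h.sq h1.1 (dual_mul h.dual h.mem)).2.1

end PSIG

open PSIG in
theorem y_sIG (c : Cx k K) : Y_SIG K := by
  intro N v h2 _ H
  have main : ∀ q : 𝓞 K ⧸ v.asIdeal ^ 2, ∃ z : ℂ, ‖z‖ ≤ 1 ∧ ∀ J g a, Tr N v J g a →
      Ideal.Quotient.mk _ g = q → gsI J ((a : K) / g) = (√(NN J) : ℝ) * z := by
    intro q
    by_cases hq : ∃ J g a, Tr N v J g a ∧ Ideal.Quotient.mk _ g = q
    · obtain ⟨J, g, a, h, rfl⟩ := hq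
      have p1 : 0 < √(NN J) := Real.sqrt_pos.2 (NN_pos h.sq.ne_zero)
      have p1' : ((√(NN J) : ℝ) : ℂ) ≠ 0 := by exact_mod_cast p1.ne'
      have p2 : ((√(nv v) : ℝ) : ℂ) ≠ 0 := by exact_mod_cast (Real.sqrt_pos.2 (nv_pos v)).ne'
      refine ⟨gsI J ((a : K) / g) / (√(NN J) : ℝ), ?_, fun J' g' a' h' e => ?_⟩
      · rw [norm_div, Complex.norm_real, Real.norm_of_nonneg p1.le, div_le_one p1]
        exact h.le c h2
      · have k1 := h.key H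
        have k2 := h'.key H
        rw [h'.same h (Ideal.Quotient.eq.1 e)] at k2
        have p3 : gsI v.asIdeal ((g : K)⁻¹ * (1 - a : 𝓞 K)) ≠ 0 := fun e0 =>
          mul_ne_zero p1' p2 (by rw [← k1, e0, mul_zero])
        refine mul_right_cancel₀ p3 ?_
        rw [k2, mul_assoc, div_mul_eq_mul_div, k1, mul_div_cancel_left₀ _ p1']
    · exact ⟨0, by simp, fun J g a h e => absurd ⟨J, g, a, h, e⟩ hq⟩
  choose Φ h1 h3 using main
  exact ⟨fun g => Φ (Ideal.Quotient.mk _ g), fun x y e => congrArg Φ (Ideal.Quotient.eq.2 e),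
    fun g => h1 _, fun J g a e1 e2 e3 e4 e5 e6 => h3 _ J g a ⟨e1, e2, e3, e4, e5, e6⟩ rfl⟩

end Pool.Agent.P.MP_b8021b_nt.BP
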