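import Pool.Agent.P.MP_b8021b_nt.BP.StC

/-! The harmonic form of the sieved large sieve inequality. -/

namespace Pool.Agent.P.MP_b8021b_nt.BP

open NumberField IsDedekindDomain Finset MeasureTheory
open Pool.Agent.P.MP_b8021b_nt.VE Pool.Agent.P.MP_b8021b_nt.VC Pool.Agent.P.MP_b8021b_nt.BS.CF
open Pool.Agent.P.MP_b8021b_nt.BS
open scoped Classical ComplexConjugate Real

variable {k : Type} [Field k] [NumberField k] [Algebra k ℂ] {K : Type} [Field K] [NumberField K]
  [Algebra k K]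

namespace PSLH

theorem exists_block {y x : ℝ} (h : y < x) (M : ℕ) (hM : x ≤ 2 ^ M * y) :
    ∃ m < M, 2 ^ m * y < x ∧ x ≤ 2 * (2 ^ m * y) := by
  induction M with
  | zero => exact absurd (by simpa using hM) h.not_ge
  | succ M ih =>
    rcases le_or_gt x (2 ^ M * y) with h1 | h1
    · obtain ⟨m, a, b⟩ := ih h1
      exact ⟨m, by omega, b⟩
    · exact ⟨M, by omega, h1, by rw [pow_succ] at hM; linarith⟩

theorem harm {y : ℝ} (hy : 2 ≤ y) (M : ℕ) : ∑ m ∈ range M, (Real.log (2 ^ m * y))⁻¹ ≤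
    3 * (Real.log (Real.log (2 ^ M * y)) - Real.log (Real.log y)) := by
  induction M with
  | zero => simp
  | succ M ih =>
    have p : (1 : ℝ) ≤ 2 ^ M := one_le_pow₀ (by norm_num)
    have w2 : 2 ≤ 2 ^ M * y := hy.trans (le_mul_of_one_le_left (by linarith) p)
    have l2 := Real.log_two_gt_d9
    have e : Real.log (2 ^ (M + 1) * y) = Real.log 2 + Real.log (2 ^ M * y) := by
      rw [pow_succ', mul_assoc, Real.log_mul (by norm_num) (by linarith)]
    have a1 : Real.log 2 ≤ Real.log (2 ^ M * y) := Real.log_le_log (by norm_num) w2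
    rw [sum_range_succ, e]
    generalize Real.log (2 ^ M * y) = L at ih a1 ⊢
    generalize Real.log 2 = a at l2 a1 ⊢
    have L0 : 0 < L := by linarith
    have b1 := Real.log_le_sub_one_of_pos (div_pos L0 (by linarith : 0 < a + L))
    rw [Real.log_div L0.ne' (by linarith)] at b1
    have b2 : L⁻¹ ≤ 3 * (1 - L / (a + L)) := by
      rw [show 3 * (1 - L / (a + L)) = 3 * a / (a + L) by field_simp; ring, inv_eq_one_div,
        div_le_div_iff₀ L0 (by linarith)]
      nlinarith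
    linarith

theorem cs {ι : Type} (s : Finset ι) (M : ℕ) (x : ℕ → ι → ℂ) (l : ℕ → ℝ) {C : ℝ}
    (hl : ∀ m, 0 < l m) (h : ∀ m ∈ range M, ∑ i ∈ s, ‖x m i‖ ^ 2 ≤ C * l m ^ 2) :
    ∑ i ∈ s, ‖∑ m ∈ range M, x m i‖ ^ 2 ≤ C * (∑ m ∈ range M, l m) ^ 2 := by
  calc _ ≤ ∑ i ∈ s, (∑ m ∈ range M, l m) * ∑ m ∈ range M, ‖x m i‖ ^ 2 / l m :=
        sum_le_sum fun i _ => (pow_le_pow_left₀ (norm_nonneg _) (norm_sum_le _ _) 2).trans
          (sum_sq_le_sum_mul_sum_of_sq_le_mul _ (fun m _ => (hl m).le)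
            (fun m _ => div_nonneg (sq_nonneg _) (hl m).le)
            fun m _ => (mul_div_cancel₀ _ (hl m).ne').ge)
    _ = (∑ m ∈ range M, l m) * ∑ m ∈ range M, (∑ i ∈ s, ‖x m i‖ ^ 2) / l m := by
        rw [← mul_sum, sum_comm]
        simp only [sum_div]
    _ ≤ (∑ m ∈ range M, l m) * ∑ m ∈ range M, C * l m := by
        refine mul_le_mul_of_nonneg_left (sum_le_sum fun m hm => ?_)
          (sum_nonneg fun m _ => (hl m).le)
        rw [div_le_iff₀ (hl m)]
        exact (h m hm).trans_eq (by ring)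
    _ = _ := by rw [← mul_sum]; ring

end PSLH

open PSLH in
theorem y_sLH (c : Cx k K) (hCH1 : Y_CH1 K) (hSLS : Y_SLS k K) : Y_SLH k K := by
  obtain ⟨C1, c1, h1⟩ := hCH1
  obtain ⟨C2, y0, c2, h2⟩ := hSLS
  refine ⟨36 * (C2 * C1), max y0 2, by nlinarith, le_max_right _ _, ?_⟩
  intro y Y ι s z S a hy hY hS ha hz hod
  have y2 : 2 ≤ y := (le_max_right _ _).trans hy
  have y1 : y0 ≤ y := (le_max_left _ _).trans hy
  have blk : ∀ (w : ℝ) (T : Finset (Pl K)), y ≤ w → (∀ v ∈ T, w < nv v ∧ nv v ≤ 2 * w) →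
      ∑ i ∈ s, ‖∑ v ∈ T, a v * leg (z i) v / (nv v : ℝ)‖ ^ 2 ≤
        4 * (C2 * C1) * (Real.log w)⁻¹ ^ 2 := by
    intro w T hw hT
    have w0 : 0 < w := by linarith
    have l0 : 0 < Real.log w := Real.log_pos (by linarith)
    have l1 : Real.log w ≤ Real.log (2 * w) := Real.log_le_log w0 (by linarith)
    have l2 : 0 < Real.log (2 * w) := l0.trans_le l1
    have cz0 := c.cz_pos
    have sub : T ⊆ pls K √(2 * w) (2 * w) := fun v hv => mem_pls.2 ⟨lt_of_le_of_lt
      (Real.sqrt_le_iff.2 ⟨w0.le, by nlinarith⟩) (hT v hv).1, (hT v hv).2⟩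
    have d := dual T s (fun v i => leg (z i) v) (Δ := C2 * (2 * w) / Real.log (2 * w))
      (by positivity) (fun b => (sum_le_sum_of_subset_of_nonneg sub fun _ _ _ => sq_nonneg _).trans
        (h2 (2 * w) ι s z b (by linarith) (fun i hi => ⟨(hz i hi).1, (hz i hi).2.trans
          ((Real.rpow_le_rpow (by linarith) (by linarith) cz0.le).trans
            (Real.rpow_le_rpow_of_exponent_le (by linarith) (by linarith)))⟩) hod))
      fun v => a v / (nv v : ℝ)
    have e : ∑ v ∈ T, ‖a v / (nv v : ℝ)‖ ^ 2 ≤ C1 * (2 * w) / Real.log (2 * w) * w⁻¹ ^ 2 := by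
      refine (sum_le_card_nsmul T _ (w⁻¹ ^ 2) fun v hv => ?_).trans ?_
      · refine pow_le_pow_left₀ (norm_nonneg _) ?_ 2
        rw [norm_div, Complex.norm_real, Real.norm_of_nonneg (nv_pos v).le, inv_eq_one_div]
        exact div_le_div₀ zero_le_one (ha v) w0 (hT v hv).1.le
      · rw [nsmul_eq_mul]
        refine mul_le_mul_of_nonneg_right (le_trans ?_ (h1 (2 * w) (by linarith)).1) (sq_nonneg _)
        exact_mod_cast card_le_card (sub.trans (pls_mono (Real.sqrt_nonneg _) le_rfl))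
    simp only [div_mul_eq_mul_div] at d
    calc _ ≤ _ := d
      _ = C2 * (2 * w) / Real.log (2 * w) * ∑ v ∈ T, ‖a v / (nv v : ℝ)‖ ^ 2 := by ring
      _ ≤ C2 * (2 * w) / Real.log (2 * w) * (C1 * (2 * w) / Real.log (2 * w) * w⁻¹ ^ 2) := by
        gcongr
      _ = 4 * (C2 * C1) * (Real.log (2 * w))⁻¹ ^ 2 := by field_simp; ring
      _ ≤ _ := by gcongr
  have y0' : 0 < y := by linarith
  obtain ⟨n, n1, n2⟩ := exists_nat_pow_near ((one_le_div y0').2 hY) (one_lt_two (α := ℝ))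
  rw [le_div_iff₀ y0'] at n1
  rw [div_lt_iff₀ y0'] at n2
  have ex : ∀ v, ∃ m, v ∈ S → m < n + 1 ∧ 2 ^ m * y < nv v ∧ nv v ≤ 2 * (2 ^ m * y) := fun v => by
    by_cases hv : v ∈ S
    · obtain ⟨m, hm⟩ := exists_block (mem_pls.1 (hS hv)).1 (n + 1)
        ((mem_pls.1 (hS hv)).2.trans n2.le)
      exact ⟨m, fun _ => hm⟩
    · exact ⟨0, fun h => absurd h hv⟩
  choose g hg using ex
  have p : ∀ m : ℕ, y ≤ 2 ^ m * y := fun m =>
    le_mul_of_one_le_left y0'.le (one_le_pow₀ (by norm_num))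
  have l0 : ∀ m : ℕ, 0 < (Real.log (2 ^ m * y))⁻¹ := fun m =>
    inv_pos.2 (Real.log_pos (by linarith [p m]))
  have main := cs s (n + 1) (fun m i => ∑ v ∈ S with g v = m, a v * leg (z i) v / (nv v : ℝ)) _ l0
    fun m _ => blk _ _ (p m) fun v hv => by
      obtain ⟨h3, rfl⟩ := mem_filter.1 hv
      exact (hg v h3).2
  simp only [sum_fiberwise_of_maps_to fun v hv => mem_range.2 (hg v hv).1] at main
  have ly : 0 < Real.log y := Real.log_pos (by linarith)
  have lY : Real.log y ≤ Real.log Y := Real.log_le_log y0' hY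
  have b1 : Real.log (2 ^ (n + 1) * y) ≤ 2 * Real.log Y := by
    rw [← Nat.cast_ofNat (n := 2) (R := ℝ), ← Real.log_pow, Nat.cast_ofNat]
    refine Real.log_le_log (by positivity) ?_
    rw [pow_succ]
    nlinarith
  have b2 := Real.log_le_log (Real.log_pos (by linarith [p (n + 1)])) b1
  rw [Real.log_mul two_ne_zero (by linarith)] at b2
  have b3 := harm y2 (n + 1)
  have l2 := Real.log_two_lt_d9
  refine main.trans ?_
  rw [Real.log_div (by linarith) ly.ne']
  calc _ ≤ 4 * (C2 * C1) * (3 * (1 + (Real.log (Real.log Y) - Real.log (Real.log y)))) ^ 2 := by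
        gcongr
        · exact sum_nonneg fun m _ => (l0 m).le
        · linarith
    _ = _ := by ring

end Pool.Agent.P.MP_b8021b_nt.BP
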