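import Pool.Agent.P.MP_b8021b_nt.BP.StC

/-!
The sieved large sieve inequality for a block of twists.
-/

namespace Pool.Agent.P.MP_b8021b_nt.BP

open NumberField IsDedekindDomain Finset MeasureTheory
open Pool.Agent.P.MP_b8021b_nt.VE Pool.Agent.P.MP_b8021b_nt.VC Pool.Agent.P.MP_b8021b_nt.BS.CF
open Pool.Agent.P.MP_b8021b_nt.BS
open scoped Classical ComplexConjugate Real

variable {k : Type} [Field k] [NumberField k] [Algebra k ℂ] {K : Type} [Field K] [NumberField K]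
  [Algebra k K]

namespace PSLT

omit [NumberField k] in
/-- a sum over a block is at most the sum over the pairs -/
theorem sum_le {n : ℕ} {𝒜 : Finset (Pl K)} {C y : ℝ} {T : Finset (𝓞 K)} (h : Blk k n 𝒜 C y T)
    (g : Ideal (𝓞 K) → ℝ) (hg : ∀ I, 0 ≤ g I) :
    ∑ t ∈ T, g (sp t) ≤ ∑ a ∈ 𝒜.powerset, ∑ v ∈ pls K √y y, g (v.asIdeal * eI a) := by
  rw [← sum_image (f := g) h.inj, ← sum_product']
  refine le_trans (sum_le_sum_of_subset_of_nonneg (fun I hI => ?_) fun I _ _ => hg I)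
    (sum_image_le_of_nonneg (s := 𝒜.powerset ×ˢ pls K √y y)
      (g := fun p => p.2.asIdeal * eI p.1) (f := g) fun I _ => hg I)
  obtain ⟨t, ht, rfl⟩ := mem_image.1 hI
  obtain ⟨v, a, h1, -, h2, h3⟩ := h.dec t ht
  exact mem_image.2 ⟨(a, v), mem_product.2 ⟨mem_powerset.2 h1, mem_pls.2 h3⟩, h2.symm⟩

omit [NumberField K] in
theorem ne_bot {n : ℕ} (hn : n ≠ 0) {𝔠 : Ideal (𝓞 K)} [CharZero K] (h : (n : 𝓞 K) ∈ 𝔠) :
    𝔠 ≠ ⊥ := fun e => hn (by simpa [e] using h)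

/-- the generators of two different squarefree ideals -/
theorem od2 {n : ℕ} (hn : Good K n) {I J 𝔠 𝔡 : Ideal (𝓞 K)} {ν μ : 𝓞 K} (hI : Squarefree I)
    (hJ : Squarefree J) (cI : Cop n I) (cJ : Cop n J) (hc : (n : 𝓞 K) ∈ 𝔠) (hd : (n : 𝓞 K) ∈ 𝔡)
    (e1 : I * 𝔠 = sp ν) (e2 : J * 𝔡 = sp μ) (hne : I ≠ J) : Od2 ν μ := by
  have I0 : I ≠ ⊥ := hI.ne_zero
  have J0 : J ≠ ⊥ := hJ.ne_zero
  have c0 := ne_bot hn.pos hc
  have d0 := ne_bot hn.pos hd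
  obtain ⟨v, hv⟩ := not_forall.1 fun h => hne (ext_cnt I0 J0 h)
  have a1 := (squarefree_iff_cnt I0).1 hI v
  have a2 := (squarefree_iff_cnt J0).1 hJ v
  have nd : ¬ Dv n v := by
    rcases eq_or_ne (cnt v I) 0 with e | e
    · exact (cop_iff hn.pos J0).1 cJ v ((mem_prI J0).2 (not_not.1 fun l =>
        hv (e.trans ((cnt_eq_zero v).2 l).symm)))
    · exact (cop_iff hn.pos I0).1 cI v ((mem_prI I0).2 (not_not.1 fun l =>
        e ((cnt_eq_zero v).2 l)))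
  have b1 : cnt v 𝔠 = 0 := (cnt_eq_zero v).2 fun l => nd (l hc)
  have b2 : cnt v 𝔡 = 0 := (cnt_eq_zero v).2 fun l => nd (l hd)
  have e : sp (ν * μ) = I * 𝔠 * (J * 𝔡) := by rw [sp_mul, e1, e2]
  have p0 : I * 𝔠 * (J * 𝔡) ≠ ⊥ := mul_ne_zero (mul_ne_zero I0 c0) (mul_ne_zero J0 d0)
  refine ⟨v, fun l => nd (v.asIdeal.mem_of_dvd
    (Nat.cast_dvd_cast ((by norm_num : 2 ∣ 8).trans hn.eight)) l), ?_⟩
  rw [od_coe v fun l => p0 (by rw [← e, l]; simp), show Ideal.span {ν * μ} = _ from e,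
    cnt_mul v (mul_ne_zero I0 c0) (mul_ne_zero J0 d0), cnt_mul v I0 c0, cnt_mul v J0 d0, b1, b2,
    show cnt v I + 0 + (cnt v J + 0) = 1 by omega]
  exact odd_one

end PSLT

theorem y_sLT (c : Cx k K) (hCH1 : Y_CH1 K) (hSLS : Y_SLS k K) : Y_SLT k K := by
  intro n 𝒜 C₀ hn
  obtain ⟨C₁, h1, hC⟩ := hCH1
  obtain ⟨C₂, y₂, h2, hS⟩ := hSLS
  obtain ⟨y₃, h3, hN⟩ := ev_log (NN (sp (n : 𝓞 K))) 0 c.cz_pos
  have hA : (1 : ℝ) ≤ 2 ^ 𝒜.card := one_le_pow₀ one_le_two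
  have hcard : ((𝒜.powerset.card : ℕ) : ℝ) = 2 ^ 𝒜.card := by rw [card_powerset]; push_cast; rfl
  refine ⟨2 ^ 𝒜.card * (C₁ + C₂), max y₂ y₃, one_le_mul_of_one_le_of_one_le hA (by linarith),
    le_max_of_le_right (by linarith), fun y T hy hB => ?_⟩
  have y3 := (le_max_right _ _).trans hy
  have y0 : 0 < y := by linarith
  have hl : 0 < y / Real.log y := div_pos y0 (Real.log_pos (by linarith))
  refine ⟨?_, fun 𝒩 h𝒩 => hs_of_hl (fun b => ?_) (by rw [mul_div_assoc]; positivity)⟩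
  · have h := PSLT.sum_le hB (fun _ => 1) fun _ => zero_le_one
    have h' : ((pls K √y y).card : ℝ) ≤ C₁ * y / Real.log y :=
      (Nat.cast_le.2 (card_le_card (pls_mono (Real.sqrt_nonneg y) le_rfl))).trans
        (hC y (by linarith)).1
    simp only [sum_const, nsmul_eq_mul, mul_one, hcard] at h
    rw [mul_div_assoc] at h' ⊢
    rw [mul_assoc]
    exact h.trans (mul_le_mul_of_nonneg_left (h'.trans (mul_le_mul_of_nonneg_right
      (by linarith) hl.le)) (by positivity))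
  have hex : ∀ I : Ideal (𝓞 K), ∃ (𝔠 : Ideal (𝓞 K)) (ν : 𝓞 K), I ≠ ⊥ →
      (n : 𝓞 K) ∈ 𝔠 ∧ I * 𝔠 = sp ν := fun I => by
    by_cases h : I = ⊥
    · exact ⟨⊥, 0, fun e => absurd h e⟩
    · obtain ⟨𝔠, ν, e⟩ := hn.cr I h
      exact ⟨𝔠, ν, fun _ => e⟩
  choose 𝔠 ν hν using hex
  have hν' : ∀ I ∈ 𝒩, (n : 𝓞 K) ∈ 𝔠 I ∧ I * 𝔠 I = sp (ν I) :=
    fun I hI => hν I (h𝒩 I hI).1.ne_zero
  have ν0 : ∀ I ∈ 𝒩, ν I ≠ 0 := fun I hI e =>
    mul_ne_zero (h𝒩 I hI).1.ne_zero (PSLT.ne_bot hn.pos (hν' I hI).1)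
      (by rw [(hν' I hI).2, e]; simp)
  have hz : ∀ I ∈ 𝒩, ν I ≠ 0 ∧ NN (sp (ν I)) ≤ y ^ (2 * cz k K) := fun I hI => ⟨ν0 I hI, by
    have a : NN (𝔠 I) ≤ NN (sp (n : 𝓞 K)) :=
      NN_le_of_le (Ideal.span_singleton_eq_bot.not.2 (Nat.cast_ne_zero.2 hn.pos))
        ((Ideal.span_singleton_le_iff_mem _).2 (hν' I hI).1)
    have a' := hN y y3
    rw [pow_zero, mul_one] at a'
    rw [← (hν' I hI).2, NN_mul, two_mul, Real.rpow_add y0]
    exact mul_le_mul (h𝒩 I hI).2.2 (a.trans a') (by positivity) (by positivity)⟩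
  have ho : ∀ I ∈ 𝒩, ∀ J ∈ 𝒩, I ≠ J → Od2 (ν I) (ν J) := fun I hI J hJ e =>
    PSLT.od2 hn (h𝒩 I hI).1 (h𝒩 J hJ).1 (h𝒩 I hI).2.1 (h𝒩 J hJ).2.1 (hν' I hI).1 (hν' J hJ).1
      (hν' I hI).2 (hν' J hJ).2 e
  have hj : ∀ t ∈ T, ∀ I ∈ 𝒩, jac t I = jac (ν I) (sp t) := fun t ht I hI => by
    have p := ((hB.pri t ht).mono (dvd_pow_self n two_ne_zero)).1
    rw [← c.rc t (ν I) (by exact_mod_cast ((hB.pri t ht).mono
      (hn.eight.trans (dvd_pow_self n two_ne_zero))).1) (ν0 I hI), ← (hν' I hI).2, jac_mul_right,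
      jac_eq_one_of_mem (PSLT.ne_bot hn.pos (hν' I hI).1) (hν' I hI).1 p, mul_one]
  have hb : 0 ≤ ∑ I ∈ 𝒩, ‖b I‖ ^ 2 := by positivity
  calc ∑ t ∈ T, ‖∑ I ∈ 𝒩, b I * jac t I‖ ^ 2
      = ∑ t ∈ T, ‖∑ I ∈ 𝒩, b I * jac (ν I) (sp t)‖ ^ 2 :=
        sum_congr rfl fun t ht => by rw [sum_congr rfl fun I hI => by rw [hj t ht I hI]]
    _ ≤ _ := PSLT.sum_le hB (fun J => ‖∑ I ∈ 𝒩, b I * jac (ν I) J‖ ^ 2) fun _ => by positivity
    _ ≤ ∑ a ∈ 𝒜.powerset, C₂ * y / Real.log y * ∑ I ∈ 𝒩, ‖b I‖ ^ 2 := by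
        refine sum_le_sum fun a _ => ?_
        have h := hS y _ 𝒩 ν (fun I => b I * jac (ν I) (eI a)) ((le_max_left _ _).trans hy) hz ho
        simp only [jac_mul_right, jac_prime, mul_comm (leg _ _), ← mul_assoc]
        refine h.trans (mul_le_mul_of_nonneg_left (sum_le_sum fun I _ => ?_)
          (by rw [mul_div_assoc]; positivity))
        rw [norm_mul]
        exact pow_le_pow_left₀ (by positivity)
          (mul_le_of_le_one_right (norm_nonneg _) (norm_jac_le _ _)) 2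
    _ ≤ _ := by
        rw [sum_const, nsmul_eq_mul, hcard, ← mul_assoc, mul_div_assoc, mul_div_assoc, ← mul_assoc]
        gcongr
        linarith

end Pool.Agent.P.MP_b8021b_nt.BP
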