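import Pool.Agent.P.MP_b8021b_nt.BP.StC

/-! The mollified second moment of the central values. -/

namespace Pool.Agent.P.MP_b8021b_nt.BP

open NumberField IsDedekindDomain Finset MeasureTheory
open Pool.Agent.P.MP_b8021b_nt.VE Pool.Agent.P.MP_b8021b_nt.VC Pool.Agent.P.MP_b8021b_nt.BS.CF
open Pool.Agent.P.MP_b8021b_nt.BS
open scoped Classical ComplexConjugate Real
variable {k : Type} [Field k] [NumberField k] [Algebra k ℂ] {K : Type} [Field K] [NumberField K] [Algebra k K]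

namespace PSM

theorem cs {ι : Type} (s : Finset ι) (w b : ι → ℝ) (hw : ∀ i, 0 ≤ w i) :
    (∑ i ∈ s, w i * b i) ^ 2 ≤ (∑ i ∈ s, w i) * ∑ i ∈ s, w i * b i ^ 2 :=
  sum_sq_le_sum_mul_sum_of_sq_le_mul s (fun i _ => hw i)
    (fun i _ => mul_nonneg (hw i) (sq_nonneg _)) fun i _ => le_of_eq (by ring)

theorem three {x a b e : ℝ} (h0 : 0 ≤ x) (h : x ≤ a + b + e) :
    x ^ 2 ≤ 3 * (a ^ 2 + b ^ 2 + e ^ 2) := by
  have := pow_le_pow_left₀ h0 h 2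
  nlinarith [sq_nonneg (a - b), sq_nonneg (a - e), sq_nonneg (b - e)]

theorem card_le (c : Cx k K) (C₀ : ℝ) : ∃ C : ℝ, 0 ≤ C ∧ ∀ (X : ℝ) (𝒢 : Finset (𝓞 K)), 1 ≤ X →
    (∀ t ∈ 𝒢, Bal k C₀ X t) → (𝒢.card : ℝ) ≤ C * X := by
  obtain ⟨C, hC, h, -⟩ := c.gs.2
  have hr := c.one_le_rk
  have h1 : 1 ≤ max C₀ 1 := le_max_right _ _
  refine ⟨C * max C₀ 1 ^ rk k K, by positivity, fun X 𝒢 hX hG => ?_⟩
  have h2 : 1 ≤ max C₀ 1 * X ^ (1 / rk k K) :=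
    one_le_mul_of_one_le_of_one_le h1 (Real.one_le_rpow hX (by positivity))
  refine (h √(max C₀ 1 * X ^ (1 / rk k K)) 𝒢 (Real.one_le_sqrt.2 h2) fun t ht =>
    ((hG t ht).mono (le_max_left _ _) (by linarith) (by linarith) le_rfl).norm_le).trans
    (le_of_eq ?_)
  rw [Real.rpow_mul (Real.sqrt_nonneg _), Real.rpow_two, Real.sq_sqrt (by linarith),
    Real.mul_rpow (by linarith) (by positivity), ← Real.rpow_mul (by linarith),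
    one_div_mul_cancel (by linarith), Real.rpow_one, mul_assoc]

theorem norm_MX (c : Cx k K) (hDIV : Y_DIV K) : ∃ D : ℝ, 0 ≤ D ∧ ∀ (Ψ : Ideal (𝓞 K) → ℂ) (X : ℝ)
    (t : 𝓞 K), (∀ I, ‖Ψ I‖ ≤ 1) → 1 ≤ X → 0 < el k K X → ‖MX k Ψ X t‖ ≤ D * X := by
  obtain ⟨D, hD, h⟩ := hDIV.2
  refine ⟨D, by linarith, fun Ψ X t hΨ hX hl => ?_⟩
  refine (norm_Mw hΨ (sgn_leg t) hl).trans ((h _ (Real.one_le_exp hl.le)).1.trans ?_)
  refine mul_le_mul_of_nonneg_left ?_ (by linarith)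
  have e := c.exp_el (X := X) (by linarith) 1
  rw [one_mul, one_mul] at e
  rw [e]
  refine (Real.rpow_le_rpow_of_exponent_le hX (?_ : la k K ≤ 1)).trans_eq (Real.rpow_one X)
  linarith [c.et_eq, c.et_le, c.la_pos]

end PSM

open PSM in
theorem y_sM (c : Cx k K) (hDIV : Y_DIV K) (hGEO : Y_GEO K) (hAFE : Y_AFE k K)
    (hSM1 : Y_SM1 k K) : Y_SM k K := by
  intro n₀ n ℛ ℛ' Ψ f Ct γ c₀ A C₀ hG hΨ hF
  obtain ⟨C₁, X₁, hC₁, h1⟩ := hAFE n Ψ f Ct γ c₀ A hG.g hΨ hF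
  obtain ⟨C₂, X₂, hC₂, h2⟩ := hSM1 n₀ n ℛ ℛ' Ψ f C₀ hG hΨ hF.ker
  obtain ⟨G, hG1, h3⟩ := hGEO.2 n hG.g.pos
  obtain ⟨C₄, hC₄, h4⟩ := card_le c C₀
  obtain ⟨D, hD, h5⟩ := norm_MX c hDIV
  obtain ⟨X₃, hX₃, h6⟩ := c.ev_el (1 + |Real.log c₀|)
  have hA : 0 ≤ A := (norm_nonneg _).trans (hF.bd ⊤)
  refine ⟨3 * (C₂ + (‖γ‖ * A) ^ 2 * (G * (G * C₂)) + C₄ * (C₁ * D) ^ 2),
    max X₁ (max X₂ X₃), ?_, fun X 𝒢 hX h𝒢 => ?_⟩
  · have : 0 ≤ (‖γ‖ * A) ^ 2 * (G * (G * C₂)) + C₄ * (C₁ * D) ^ 2 := by positivity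
    linarith
  have a1 : X₁ ≤ X := (le_max_left _ _).trans hX
  have a2 : X₂ ≤ X := (le_max_left _ _).trans ((le_max_right _ _).trans hX)
  have a3 : X₃ ≤ X := (le_max_right _ _).trans ((le_max_right _ _).trans hX)
  have hX1 : 1 ≤ X := by linarith
  have hX0 : 0 < X := by linarith
  have hl := h6 X a3
  have hl0 : 0 < el k K X := by linarith [abs_nonneg (Real.log c₀)]
  have hc : Real.exp (-el k K X) ≤ c₀ := by
    rw [← Real.le_log_iff_exp_le hF.pos]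
    linarith [neg_abs_le (Real.log c₀)]
  set w : Ideal (𝓞 K) → ℝ := fun I => (√(NN I))⁻¹ with hw
  have hw0 : ∀ I, 0 ≤ w I := fun I => by positivity
  set s := sm K n (ZZ k K X) with hs
  set b : Ideal (𝓞 K) → 𝓞 K → ℝ := fun I t =>
    ‖AX k Ψ f X (c₀ * NN I * X / NN (sp t)) t * MX k Ψ X t‖ with hb
  have p1 : ∀ t ∈ 𝒢, ‖Lam f Ψ t * MX k Ψ X t‖ ^ 2 ≤ 3 * (‖AX k Ψ f X 1 t * MX k Ψ X t‖ ^ 2 +
      (‖γ‖ * A) ^ 2 * (G * ∑ I ∈ s, w I * b I t ^ 2) + (C₁ * D) ^ 2) := by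
    intro t ht
    obtain ⟨q1, q2, -⟩ := h𝒢 t ht
    have e : Lam f Ψ t * MX k Ψ X t = AX k Ψ f X 1 t * MX k Ψ X t + eps k t * γ * ∑ I ∈ s,
        Ct I / (√(NN I) : ℝ) * (AX k (cj Ψ) f X (c₀ * NN I * X / NN (sp t)) t * MX k Ψ X t) +
        (Lam f Ψ t - AB k n Ψ f Ct γ c₀ X t) * MX k Ψ X t := by
      simp only [← mul_assoc, ← sum_mul]
      rw [AB]
      ring
    have r1 : ‖eps k t * γ * ∑ I ∈ s, Ct I / (√(NN I) : ℝ) *
        (AX k (cj Ψ) f X (c₀ * NN I * X / NN (sp t)) t * MX k Ψ X t)‖ ≤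
        ‖γ‖ * A * ∑ I ∈ s, w I * b I t := by
      rw [norm_mul, norm_mul, ((c.g3 n hG.g).1 t (q1.mono (dvd_pow_self n two_ne_zero))).1,
        one_mul, mul_assoc, mul_sum s _ A]
      refine mul_le_mul_of_nonneg_left ((norm_sum_le _ _).trans (sum_le_sum fun I _ => ?_))
        (norm_nonneg _)
      have e1 : ‖AX k (cj Ψ) f X (c₀ * NN I * X / NN (sp t)) t * MX k Ψ X t‖ = b I t := by
        rw [hb, norm_mul, AX, conj_Aw, Complex.norm_conj]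
        simp only [norm_mul, AX]
      rw [norm_mul, e1, norm_div, Complex.norm_real, Real.norm_of_nonneg (Real.sqrt_nonneg _),
        div_eq_mul_inv, mul_assoc]
      exact mul_le_mul_of_nonneg_right (hF.bd I) (mul_nonneg (hw0 I) (norm_nonneg _))
    have r2 : ‖(Lam f Ψ t - AB k n Ψ f Ct γ c₀ X t) * MX k Ψ X t‖ ≤ C₁ * D := by
      rw [norm_mul]
      refine (mul_le_mul (h1 X a1 t q1 q2) (h5 Ψ X t (ch_of_isP hΨ).1.bd hX1 hl0) (norm_nonneg _)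
        (by positivity)).trans (le_of_eq ?_)
      field_simp
    have r3 : ‖Lam f Ψ t * MX k Ψ X t‖ ≤ ‖AX k Ψ f X 1 t * MX k Ψ X t‖ +
        ‖γ‖ * A * ∑ I ∈ s, w I * b I t + C₁ * D := by
      rw [e]
      exact norm_add₃_le.trans (add_le_add (add_le_add le_rfl r1) r2)
    refine (three (norm_nonneg _) r3).trans ?_
    have r4 : (∑ I ∈ s, w I * b I t) ^ 2 ≤ G * ∑ I ∈ s, w I * b I t ^ 2 :=
      (cs s w (fun I => b I t) hw0).trans (mul_le_mul_of_nonneg_right (h3 _)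
        (sum_nonneg fun I _ => mul_nonneg (hw0 I) (sq_nonneg _)))
    rw [mul_pow (‖γ‖ * A)]
    gcongr
  have p2 : ∑ t ∈ 𝒢, ‖AX k Ψ f X 1 t * MX k Ψ X t‖ ^ 2 ≤ C₂ * X :=
    h2 X 𝒢 (fun _ => 1) a2 fun t ht => ⟨(h𝒢 t ht).2.2, Real.exp_le_one_iff.2 (by linarith)⟩
  have p3 : ∑ t ∈ 𝒢, ∑ I ∈ s, w I * b I t ^ 2 ≤ G * (C₂ * X) := by
    rw [sum_comm]
    refine le_trans (sum_le_sum fun I hI => ?_)
      ((sum_mul s w (C₂ * X)).ge.trans (mul_le_mul_of_nonneg_right (h3 _) (by positivity)))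
    rw [← mul_sum]
    refine mul_le_mul_of_nonneg_left (h2 X 𝒢 (fun t => c₀ * NN I * X / NN (sp t)) a2
      fun t ht => ⟨(h𝒢 t ht).2.2, hc.trans ?_⟩) (hw0 I)
    obtain ⟨q1, q2, -⟩ := h𝒢 t ht
    have t0 : 0 < NN (sp t) := NN_pos q1.2.ne_zero
    have t1 : 1 ≤ NN I := one_le_NN (mem_ids.1 (mem_filter.1 hI).1).1
    rw [le_div_iff₀ t0, mul_assoc]
    exact mul_le_mul_of_nonneg_left (q2.trans (le_mul_of_one_le_left hX0.le t1)) hF.pos.le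
  have p4 := h4 X 𝒢 hX1 fun t ht => (h𝒢 t ht).2.2
  refine (sum_le_sum p1).trans ?_
  rw [← mul_sum, sum_add_distrib, sum_add_distrib, ← mul_sum, ← mul_sum, sum_const, nsmul_eq_mul]
  have p5 := mul_le_mul_of_nonneg_left (mul_le_mul_of_nonneg_left p3 (zero_le_one.trans hG1))
    (sq_nonneg (‖γ‖ * A))
  have p6 := mul_le_mul_of_nonneg_right p4 (sq_nonneg (C₁ * D))
  linarith

end Pool.Agent.P.MP_b8021b_nt.BP
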