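import Pool.Agent.P.MP_b8021b_nt.BP.StC

/-! The second moment of the long polynomial times the mollifier. -/

namespace Pool.Agent.P.MP_b8021b_nt.BP

open NumberField IsDedekindDomain Finset MeasureTheory
open Pool.Agent.P.MP_b8021b_nt.VE Pool.Agent.P.MP_b8021b_nt.VC Pool.Agent.P.MP_b8021b_nt.BS.CF
open Pool.Agent.P.MP_b8021b_nt.BS
open scoped Classical ComplexConjugate Real

variable {k : Type} [Field k] [NumberField k] [Algebra k ℂ] {K : Type} [Field K] [NumberField K]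
  [Algebra k K]

namespace PSM1

/-- the inequality of Cauchy and Schwarz with a weight -/
theorem cs {g a : ℝ → ℝ} {G : ℝ} (hg : Integrable g) (h0 : ∀ b, 0 ≤ g b)
    (h1 : Integrable fun b => g b * a b) (h2 : Integrable fun b => g b * a b ^ 2)
    (hG : ∫ b, g b ≤ G) (hp : 0 < G) : (∫ b, g b * a b) ^ 2 ≤ G * ∫ b, g b * a b ^ 2 := by
  obtain ⟨μ, hμ⟩ : ∃ μ, ∫ b, g b * a b = μ * G := ⟨_, (div_mul_cancel₀ _ hp.ne').symm⟩
  have h3 : ∫ b, 2 * μ * (g b * a b) ≤ ∫ b, (g b * a b ^ 2 + μ ^ 2 * g b) :=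
    integral_mono (h1.const_mul _) (h2.add (hg.const_mul _)) fun b => by
      have := mul_nonneg (h0 b) (sq_nonneg (a b - μ))
      dsimp only
      linarith
  rw [integral_add h2 (hg.const_mul _), integral_const_mul, integral_const_mul, hμ] at h3
  have h4 := mul_le_mul_of_nonneg_left hG (sq_nonneg μ)
  have h5 : μ ^ 2 * G ≤ ∫ b, g b * a b ^ 2 := by linarith
  rw [hμ]
  linarith [mul_le_mul_of_nonneg_left h5 hp.le]

theorem cont_Wb2 (ℓ Y : ℝ) {y : ℝ} (hy : 0 < y) : Continuous fun b => Wb2 ℓ Y b y :=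
  continuous_const.mul ((continuous_cpow hy).comp (continuous_sx ℓ).neg)

theorem norm_Wb2 {ℓ : ℝ} (hℓ : 0 < ℓ) (Y b : ℝ) {y : ℝ} (hy : 1 ≤ y) : ‖Wb2 ℓ Y b y‖ ≤ 1 := by
  rw [Wb2, norm_mul]
  exact mul_le_one₀ (norm_St _) (norm_nonneg _) (norm_cpow_le hy (by rw [sx_re]; positivity))

theorem rep {ℓ Z y : ℝ} {W H : ℝ → ℂ} (h : Wt ℓ Z W H 0) (hℓ : 0 < ℓ) (hZ : 0 < Z) (hy : 1 ≤ y) :
    W y = ∫ b, H b * Wb2 ℓ Z b y := by
  have e : W y = St (Real.log (y / Z) / ℓ) * W y := by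
    rcases le_total Z y with h1 | h1
    · rw [h.zero y h1, mul_zero]
    · rw [St_of_nonpos (div_nonpos_of_nonpos_of_nonneg (Real.log_nonpos (by positivity)
        ((div_le_one hZ).2 h1)) hℓ.le), Complex.ofReal_one, one_mul]
  rw [e, h.rep y hy, ← integral_const_mul]
  refine integral_congr_ae (Filter.Eventually.of_forall fun b => ?_)
  simp only [Wb2, zero_add]
  ring

theorem cont_Aw (χ : Ideal (𝓞 K) → ℂ) (x : Pl K → ℂ) (ℓ Y Z : ℝ) :
    Continuous fun b => Aw χ x (Wb2 ℓ Y b) Z :=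
  continuous_finsetSum _ fun _ hJ =>
    (continuous_const.mul (cont_Wb2 ℓ Y (NN_pos (mem_ids.1 hJ).1))).div_const _

theorem rep_Aw (χ : Ideal (𝓞 K) → ℂ) (x : Pl K → ℂ) {ℓ Y : ℝ} {W H : ℝ → ℂ} (h : Wt ℓ Y W H 0)
    (hℓ : 0 < ℓ) (hY : 0 < Y) (Z : ℝ) (m : ℂ) :
    Aw χ x W Z * m = ∫ b, H b * (Aw χ x (Wb2 ℓ Y b) Z * m) := by
  have e : ∀ b, H b * (Aw χ x (Wb2 ℓ Y b) Z * m) =
      ∑ J ∈ ids K Z, χ J * sg x J / (√(NN J) : ℝ) * m * (H b * Wb2 ℓ Y b (NN J)) := fun b => by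
    rw [Aw, sum_mul, mul_sum]
    exact sum_congr rfl fun J _ => by ring
  simp only [e]
  rw [integral_finsetSum _ fun J hJ => (h.int.mul_bdd
    (cont_Wb2 ℓ Y (NN_pos (mem_ids.1 hJ).1)).aestronglyMeasurable
    (Filter.Eventually.of_forall fun b =>
      norm_Wb2 hℓ Y b (one_le_NN (mem_ids.1 hJ).1))).const_mul _, Aw, sum_mul]
  refine sum_congr rfl fun J hJ => ?_
  rw [integral_const_mul, ← rep h hℓ hY (one_le_NN (mem_ids.1 hJ).1)]
  ring

theorem gX_ge (c : Cx k K) {C X : ℝ} {t : 𝓞 K} (hX : 0 < X) (h : Bal k C X t) :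
    1 ≤ Real.exp (2 * π * (rk k K * C)) * gX k X t := by
  rw [gX, gau, ← Real.exp_add]
  refine Real.one_le_exp ?_
  have h1 : ∑ φ, X ^ (-(1 / rk k K)) * ‖emb k t φ‖ ^ 2 ≤ rk k K * C := by
    refine (sum_le_card_nsmul _ _ C fun φ _ => ?_).trans (by rw [card_univ, c.card_emb, nsmul_eq_mul])
    rw [Real.rpow_neg hX.le, inv_mul_le_iff₀ (by positivity), mul_comm]
    exact h φ
  linarith [mul_le_mul_of_nonneg_left h1 (by positivity : 0 ≤ 2 * π)]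

end PSM1

theorem y_sM1 (c : Cx k K) (hFI : Y_FI) (hVW : Y_VW) (hS2 : Y_S2 k K) : Y_SM1 k K := by
  intro n₀ n ℛ ℛ' Ψ f C₀ hG hΨ hf
  obtain ⟨h, hh⟩ := hFI
  obtain ⟨C₁, hC₁, -, hV⟩ := hVW h f hh hf
  obtain ⟨C₂, X₂, j, hC₂, hS⟩ := hS2 n₀ n ℛ ℛ' Ψ hG hΨ
  obtain ⟨X₁, h3, hX₁⟩ := c.ev_el 1
  obtain ⟨E, hE0, hE⟩ : ∃ E : ℝ, 0 ≤ E ∧ ∀ X t, 0 < X → Bal k C₀ X t → 1 ≤ E * gX k X t :=
    ⟨_, (Real.exp_pos _).le, fun X t => PSM1.gX_ge c⟩
  obtain ⟨D, hD⟩ : ∃ D, D = C₁ * Real.exp ((1 / 2 - la k K / 2 + 1 * la k K) / la k K) := ⟨_, rfl⟩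
  have i0 : Integrable fun b => ‖h b‖ := by simpa using hh.int 0
  obtain ⟨G, hG0, hG1⟩ : ∃ G : ℝ, 0 < G ∧ ∫ b, ‖h b‖ ≤ G :=
    ⟨_, lt_max_of_lt_left one_pos, le_max_right _ _⟩
  refine ⟨max 1 (D ^ 2 * G * (E * C₂ * ∫ b, (1 + |b|) ^ j * ‖h b‖)), max X₁ X₂, le_max_left _ _,
    fun X 𝒢 ρ hX hρ => ?_⟩
  have hX1 : 1 < X := by linarith [le_of_max_le_left hX]
  have hX0 : 0 < X := by linarith
  have hl : 0 < el k K X := one_pos.trans_le (hX₁ X (le_of_max_le_left hX))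
  have hY := c.Y0_pos hX0
  obtain ⟨-, -, -, -, -, hW⟩ := hV _ _ hl hY
  obtain ⟨A, hA⟩ : ∃ A : 𝓞 K → ℝ → ℂ, ∀ t b, A t b = Aw Ψ (leg t)
    (Wb2 (el k K X) (Y0 k K X * Real.exp (3 * el k K X)) b) (ZZ k K X) * MX k Ψ X t :=
    ⟨_, fun _ _ => rfl⟩
  have cA : ∀ t, Continuous fun b => ‖A t b‖ := fun t => by
    simp only [hA]
    exact ((PSM1.cont_Aw _ _ _ _ _).mul continuous_const).norm
  have h4 : ∀ b, ‖h b‖ * ∑ t ∈ 𝒢, ‖A t b‖ ^ 2 ≤ E * C₂ * X * ((1 + |b|) ^ j * ‖h b‖) := fun b => by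
    have h5 := mul_le_mul_of_nonneg_left (hS X b 𝒢 (le_of_max_le_right hX)) hE0
    simp only [← hA] at h5
    have h6 : ∑ t ∈ 𝒢, ‖A t b‖ ^ 2 ≤ E * ∑ t ∈ 𝒢, gX k X t * ‖A t b‖ ^ 2 := by
      rw [mul_sum]
      refine sum_le_sum fun t ht => ?_
      rw [← mul_assoc]
      exact le_mul_of_one_le_left (sq_nonneg _) (hE X t hX0 (hρ t ht).1)
    linarith [mul_le_mul_of_nonneg_left (h6.trans h5) (norm_nonneg (h b))]
  have i2 : ∀ t ∈ 𝒢, Integrable fun b => ‖h b‖ * ‖A t b‖ ^ 2 := fun t ht =>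
    ((hh.int j).const_mul (E * C₂ * X)).mono'
      (hh.cont.norm.mul ((cA t).pow 2)).aestronglyMeasurable (Filter.Eventually.of_forall fun b => by
        rw [Real.norm_of_nonneg (by positivity)]
        exact (mul_le_mul_of_nonneg_left (single_le_sum (f := fun t => ‖A t b‖ ^ 2)
          (fun _ _ => sq_nonneg _) ht) (norm_nonneg _)).trans (h4 b))
  have i1 : ∀ t ∈ 𝒢, Integrable fun b => ‖h b‖ * ‖A t b‖ := fun t ht =>
    (i0.add (i2 t ht)).mono' (hh.cont.norm.mul (cA t)).aestronglyMeasurable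
      (Filter.Eventually.of_forall fun b => by
        rw [Real.norm_of_nonneg (by positivity), Pi.add_apply]
        have := mul_nonneg (norm_nonneg (h b)) (sq_nonneg (‖A t b‖ - 1))
        have := mul_nonneg (norm_nonneg (h b)) (norm_nonneg (A t b))
        linarith)
  have h7 : ∀ t ∈ 𝒢, ‖AX k Ψ f X (ρ t) t * MX k Ψ X t‖ ^ 2 ≤
      D ^ 2 * G * ∫ b, ‖h b‖ * ‖A t b‖ ^ 2 := fun t ht => by
    have h8 := (hρ t ht).2
    have h9 : 0 < ρ t := (Real.exp_pos _).trans_le h8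
    obtain ⟨-, hb, hw⟩ := hW _ h9
    have h10 := hw (Y0 k K X * Real.exp (3 * el k K X)) (by
      refine le_trans (le_of_eq ?_) (mul_le_mul_of_nonneg_right h8 (by positivity))
      rw [mul_left_comm, ← Real.exp_add]
      congr 2
      ring)
    have h11 : C₁ * (Y0 k K X / ρ t) ^ (1 / el k K X) ≤ D := by
      rw [hD]
      refine mul_le_mul_of_nonneg_left (c.rpow_el hX1 (by positivity) ?_) (by linarith)
      rw [Real.rpow_add hX0, ← c.Y0_eq hX0, ← c.exp_el hX0, one_mul, div_eq_mul_inv]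
      refine mul_le_mul_of_nonneg_left ?_ hY.le
      rwa [inv_le_comm₀ h9 (Real.exp_pos _), ← Real.exp_neg]
    have h12 : ‖AX k Ψ f X (ρ t) t * MX k Ψ X t‖ ≤ D * ∫ b, ‖h b‖ * ‖A t b‖ := by
      rw [AX, PSM1.rep_Aw _ _ h10 hl (by positivity), ← integral_const_mul]
      refine norm_integral_le_of_norm_le ((i1 t ht).const_mul D)
        (Filter.Eventually.of_forall fun b => ?_)
      rw [norm_mul, ← hA, ← mul_assoc]
      exact mul_le_mul_of_nonneg_right ((hb b).trans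
        (mul_le_mul_of_nonneg_right h11 (norm_nonneg _))) (norm_nonneg _)
    refine (pow_le_pow_left₀ (norm_nonneg _) h12 2).trans ?_
    rw [mul_pow, mul_assoc]
    exact mul_le_mul_of_nonneg_left
      (PSM1.cs i0 (fun _ => norm_nonneg _) (i1 t ht) (i2 t ht) hG1 hG0) (sq_nonneg _)
  refine (sum_le_sum h7).trans (le_trans ?_ (mul_le_mul_of_nonneg_right (le_max_right _ _) hX0.le))
  rw [← mul_sum, ← integral_finsetSum _ i2, mul_assoc (D ^ 2 * G)]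
  refine mul_le_mul_of_nonneg_left ?_ (by positivity)
  rw [mul_right_comm, ← integral_const_mul]
  refine integral_mono (integrable_finsetSum _ i2) ((hh.int j).const_mul _) fun b => ?_
  dsimp only
  rw [← mul_sum]
  exact h4 b

end Pool.Agent.P.MP_b8021b_nt.BP
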