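import Pool.Agent.P.MP_b8021b_nt.BP.StC

/-! The quadratic form of the sieve. -/

namespace Pool.Agent.P.MP_b8021b_nt.BP

open NumberField IsDedekindDomain Finset MeasureTheory
open Pool.Agent.P.MP_b8021b_nt.VE Pool.Agent.P.MP_b8021b_nt.VC Pool.Agent.P.MP_b8021b_nt.BS.CF
open Pool.Agent.P.MP_b8021b_nt.BS
open scoped Classical ComplexConjugate Real
variable {k : Type} [Field k] [NumberField k] [Algebra k ℂ] {K : Type} [Field K] [NumberField K] [Algebra k K]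

namespace PSVM

theorem ident {ι : Type} [DecidableEq ι] (x y z : ι → ℂ) (U : Finset ι) :
    ∑ S ∈ U.powerset, ∑ S' ∈ U.powerset,
      (∏ v ∈ S, -x v) * (∏ v ∈ S', -y v) * ∏ v ∈ S ∪ S', z v =
      ∏ v ∈ U, (1 - x v * z v - y v * z v + x v * y v * z v) := by
  induction U using Finset.induction_on with
  | empty => simp
  | insert a U ha ih =>
    rw [prod_insert ha, ← ih, sum_powerset_insert ha, ← sum_add_distrib, mul_sum]
    refine sum_congr rfl fun S hS => ?_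
    rw [sum_powerset_insert ha, sum_powerset_insert ha, ← sum_add_distrib, ← sum_add_distrib,
      ← sum_add_distrib, mul_sum]
    refine sum_congr rfl fun S' hS' => ?_
    have h1 : a ∉ S := fun h => ha (mem_powerset.1 hS h)
    have h2 : a ∉ S' := fun h => ha (mem_powerset.1 hS' h)
    have h3 : a ∉ S ∪ S' := by simp [h1, h2]
    rw [← insert_union_distrib, union_insert, insert_union, prod_insert h1, prod_insert h2,
      prod_insert h3]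
    ring

theorem factor {N ℓ : ℝ} (hN : 1 ≤ N) (hℓ : 0 < ℓ) (x y : ℂ) :
    ‖1 - x * (N : ℂ)⁻¹ - y * (N : ℂ)⁻¹ + x * y * (N : ℂ)⁻¹‖ ≤
      Real.exp (-N⁻¹ + Real.log N / N / ℓ + ‖x - (N : ℂ) ^ (-sx ℓ 0)‖ / N + ‖y - x * y‖ / N) := by
  have h0 : 0 < N := by linarith
  have hl := Real.log_nonneg hN
  set x₀ : ℝ := Real.exp (-(Real.log N / ℓ)) with hx₀
  have e : (N : ℂ) ^ (-sx ℓ 0) = x₀ := by
    rw [cpow_eq_exp h0, hx₀, sx]; push_cast; congr 1; ring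
  have h1 : x₀ ≤ 1 := Real.exp_le_one_iff.2 (neg_nonpos.2 (by positivity))
  have h2 : 1 - Real.log N / ℓ ≤ x₀ := by
    have := Real.add_one_le_exp (-(Real.log N / ℓ)); linarith
  have h3 : N⁻¹ ≤ 1 := inv_le_one_of_one_le₀ hN
  have h4 : 0 < N⁻¹ := inv_pos.2 h0
  have h5 : 0 ≤ 1 - x₀ * N⁻¹ := by
    have := mul_le_one₀ h1 h4.le h3; linarith
  have e2 : 1 - x * (N : ℂ)⁻¹ - y * (N : ℂ)⁻¹ + x * y * (N : ℂ)⁻¹ =
      ((1 - x₀ * N⁻¹ : ℝ) : ℂ) - ((x - x₀) / N + (y - x * y) / N) := by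
    push_cast; ring
  rw [e, e2]
  refine (norm_sub_le _ _).trans (le_trans ?_ (Real.add_one_le_exp _))
  have h6 := norm_add_le ((x - x₀) / N) ((y - x * y) / N)
  rw [norm_div, norm_div, Complex.norm_real, Real.norm_of_nonneg h0.le] at h6
  rw [Complex.norm_real, Real.norm_of_nonneg h5]
  have h7 : (1 - Real.log N / ℓ) * N⁻¹ ≤ x₀ * N⁻¹ := mul_le_mul_of_nonneg_right h2 h4.le
  have h8 : (1 - Real.log N / ℓ) * N⁻¹ = N⁻¹ - Real.log N / N / ℓ := by ring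
  linarith

/-- the Euler product -/
noncomputable def EP (𝒰 : Finset (Pl K)) (ℓ a b : ℝ) : ℂ :=
  ∏ v ∈ 𝒰, (1 - (nv v : ℂ) ^ (-sx ℓ a) * (nv v : ℂ)⁻¹ - (nv v : ℂ) ^ (-sx ℓ b) * (nv v : ℂ)⁻¹ +
    (nv v : ℂ) ^ (-sx ℓ a) * (nv v : ℂ) ^ (-sx ℓ b) * (nv v : ℂ)⁻¹)

theorem bound (hCH1 : Y_CH1 K) (hEU : Y_EU K) (hMER : Y_MER K) {n : ℕ} (hn : n ≠ 0) :
    ∃ (C : ℝ) (j : ℕ), 0 ≤ C ∧ ∀ R : ℝ, 3 ≤ R → ∀ a b : ℝ,
      ‖EP ((pls K 0 R).filter fun v => ¬ Dv n v) (Real.log R) a b‖ ≤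
        C / Real.log R * ((1 + |a|) ^ j * (1 + |b|) ^ j) := by
  obtain ⟨C1, h1⟩ := (hMER (NN (sp (n : 𝓞 K)))).1
  obtain ⟨C2, -, h2⟩ := hCH1
  obtain ⟨C3, hC3, h3⟩ := hEU
  refine ⟨Real.exp (C1 + C2 + 2 * C3) * 2 ^ ⌈2 * C3⌉₊, ⌈2 * C3⌉₊, by positivity,
    fun R hR a b => ?_⟩
  set 𝒰 := (pls K 0 R).filter fun v => ¬ Dv n v with h𝒰
  set ℓ := Real.log R with hℓ
  set j := ⌈2 * C3⌉₊ with hj
  have hℓ1 : 1 ≤ ℓ := by
    rw [hℓ, Real.le_log_iff_exp_le (by linarith)]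
    have := Real.exp_one_lt_d9; linarith
  have hℓ0 : 0 < ℓ := by linarith
  have ha := abs_nonneg a
  have hb := abs_nonneg b
  set U := 2 + |a| + |b| with hU
  have hU1 : 1 ≤ U := by linarith
  have n1 : ∀ t : ℝ, |t| ≤ |a| + |b| → ‖sx ℓ t‖ ≤ U / ℓ := fun t ht =>
    (norm_sx hℓ0 t).trans (div_le_div_of_nonneg_right (by linarith) hℓ0.le)
  have s1 := h3 ℓ U (sx ℓ a) (sx ℓ 0) 𝒰 hℓ1 hU1 (sx_re _ _).ge (sx_re _ _).ge
    (n1 a (by linarith)) (n1 0 (by rw [abs_zero]; linarith))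
  have s2 := h3 ℓ U (sx ℓ b) (sx ℓ a + sx ℓ b) 𝒰 hℓ1 hU1 (sx_re _ _).ge
    (by rw [Complex.add_re, sx_re, sx_re]; exact le_add_of_nonneg_left (by positivity))
    (n1 b (by linarith)) ((norm_add_le _ _).trans ((add_le_add (norm_sx hℓ0 a)
      (norm_sx hℓ0 b)).trans (le_of_eq (by rw [hU]; ring))))
  have s3 : Real.log ℓ - C1 ≤ ∑ v ∈ 𝒰, (nv v)⁻¹ := by
    refine (h1 R hR).trans (sum_le_sum_of_subset_of_nonneg (fun v hv => ?_)
      fun v _ _ => (inv_pos.2 (nv_pos v)).le)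
    obtain ⟨b1, b2⟩ := mem_pls.1 hv
    exact mem_filter.2 ⟨mem_pls.2 ⟨nv_pos v, b2⟩, fun h => absurd (nv_le_of_dv hn h) (not_le.2 b1)⟩
  have s4 : lw 𝒰 / ℓ ≤ C2 := by
    rw [div_le_iff₀ hℓ0]
    exact (lw_mono (filter_subset _ _)).trans (h2 R (by linarith)).2
  have e1 : ∀ v : Pl K, (nv v : ℂ) ^ (-sx ℓ a) * (nv v : ℂ) ^ (-sx ℓ b) =
      (nv v : ℂ) ^ (-(sx ℓ a + sx ℓ b)) := fun v => by
    rw [neg_add, Complex.cpow_add _ _ (by exact_mod_cast (nv_pos v).ne')]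
  have hlU : 0 ≤ Real.log U := Real.log_nonneg hU1
  have s5 : 2 * C3 * Real.log U ≤ j * Real.log U :=
    mul_le_mul_of_nonneg_right (Nat.le_ceil _) hlU
  have s6 : U ^ j ≤ 2 ^ j * ((1 + |a|) ^ j * (1 + |b|) ^ j) := by
    rw [← mul_pow, ← mul_pow]
    exact pow_le_pow_left₀ (by linarith) (by have := mul_nonneg ha hb; rw [hU]; linarith) j
  calc _ ≤ ∏ v ∈ 𝒰, Real.exp (-(nv v)⁻¹ + Real.log (nv v) / nv v / ℓ +
        ‖(nv v : ℂ) ^ (-sx ℓ a) - (nv v : ℂ) ^ (-sx ℓ 0)‖ / nv v +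
        ‖(nv v : ℂ) ^ (-sx ℓ b) - (nv v : ℂ) ^ (-(sx ℓ a + sx ℓ b))‖ / nv v) := by
        rw [EP, norm_prod]
        refine prod_le_prod (fun _ _ => norm_nonneg _) fun v _ => ?_
        have := factor (one_le_two.trans (two_le_NN v)) hℓ0 ((nv v : ℂ) ^ (-sx ℓ a))
          ((nv v : ℂ) ^ (-sx ℓ b))
        rwa [← e1 v]
    _ ≤ Real.exp (C1 + C2 + 2 * C3 + j * Real.log U - Real.log ℓ) := by
        rw [← Real.exp_sum, Real.exp_le_exp, sum_add_distrib, sum_add_distrib, sum_add_distrib,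
          sum_neg_distrib, ← sum_div]
        have : ∑ v ∈ 𝒰, Real.log (nv v) / nv v = lw 𝒰 := rfl
        rw [this]
        linarith
    _ = Real.exp (C1 + C2 + 2 * C3) * U ^ j / ℓ := by
        rw [Real.exp_sub, Real.exp_add, Real.exp_log hℓ0, Real.exp_nat_mul,
          Real.exp_log (by linarith)]
    _ ≤ Real.exp (C1 + C2 + 2 * C3) * (2 ^ j * ((1 + |a|) ^ j * (1 + |b|) ^ j)) / ℓ := by gcongr
    _ = _ := by ring

theorem cpow_nS (S : Finset (Pl K)) (s : ℂ) : (nS S : ℂ) ^ s = ∏ v ∈ S, (nv v : ℂ) ^ s := by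
  rw [cpow_eq_sg s (eI_ne_bot S), sg_eI]

theorem int1 {h : ℝ → ℂ} (H : FR h) (ℓ : ℝ) (hℓ : 0 < ℓ) {y : ℝ} (hy : 1 ≤ y) :
    Integrable fun a => h a * (y : ℂ) ^ (-sx ℓ a) := by
  refine (H.int 0).mono' (H.cont.mul ((continuous_cpow (by linarith)).comp
    (continuous_sx ℓ).neg)).aestronglyMeasurable (Filter.Eventually.of_forall fun a => ?_)
  rw [pow_zero, one_mul, norm_mul]
  exact mul_le_of_le_one_right (norm_nonneg _) (norm_cpow_le hy (by rw [sx_re]; positivity))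

theorem rep {h : ℝ → ℂ} (H : FR h) (𝒰 : Finset (Pl K)) (ℓ : ℝ) (hℓ : 0 < ℓ) :
    ((∑ S ∈ 𝒰.powerset, ∑ S' ∈ 𝒰.powerset, (-1) ^ S.card * (-1) ^ S'.card *
      St (Real.log (nS S) / ℓ) * St (Real.log (nS S') / ℓ) / nS (S ∪ S') : ℝ) : ℂ) =
      ∫ p : ℝ × ℝ, h p.1 * h p.2 * EP 𝒰 ℓ p.1 p.2 ∂(volume.prod volume) := by
  have hi : ∀ S S' : Finset (Pl K), Integrable (fun p : ℝ × ℝ =>
      ((-1) ^ S.card * (-1) ^ S'.card / (nS (S ∪ S') : ℂ)) *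
      ((h p.1 * (nS S : ℂ) ^ (-sx ℓ p.1)) * (h p.2 * (nS S' : ℂ) ^ (-sx ℓ p.2))))
      (volume.prod volume) := fun S S' =>
    ((int1 H ℓ hℓ (one_le_nS S)).mul_prod (int1 H ℓ hℓ (one_le_nS S'))).const_mul _
  have e : ∀ p : ℝ × ℝ, h p.1 * h p.2 * EP 𝒰 ℓ p.1 p.2 = ∑ S ∈ 𝒰.powerset, ∑ S' ∈ 𝒰.powerset,
      ((-1) ^ S.card * (-1) ^ S'.card / (nS (S ∪ S') : ℂ)) *
      ((h p.1 * (nS S : ℂ) ^ (-sx ℓ p.1)) * (h p.2 * (nS S' : ℂ) ^ (-sx ℓ p.2))) := by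
    intro p
    rw [EP, ← ident, mul_sum]
    refine sum_congr rfl fun S _ => ?_
    rw [mul_sum]
    refine sum_congr rfl fun S' _ => ?_
    rw [prod_neg, prod_neg, ← cpow_nS, ← cpow_nS, prod_inv_distrib, nS_eq (S ∪ S')]
    push_cast
    ring
  simp only [e]
  rw [integral_finsetSum _ fun S _ => integrable_finsetSum _ fun S' _ => hi S S',
    Complex.ofReal_sum]
  refine sum_congr rfl fun S _ => ?_
  rw [integral_finsetSum _ fun S' _ => hi S S', Complex.ofReal_sum]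
  refine sum_congr rfl fun S' _ => ?_
  rw [integral_const_mul, integral_prod_mul (fun a => h a * (nS S : ℂ) ^ (-sx ℓ a))
    (fun a => h a * (nS S' : ℂ) ^ (-sx ℓ a)), ← H.rep _ _ (nS_pos S) hℓ, ← H.rep _ _ (nS_pos S') hℓ]
  push_cast
  ring

end PSVM

theorem y_sVM (c : Cx k K) (hFI : Y_FI) (hCH1 : Y_CH1 K) (hEU : Y_EU K) (hMER : Y_MER K) :
    Y_SVM K := by
  obtain ⟨h, H⟩ := hFI
  intro n hn
  obtain ⟨C, j, hC, hb⟩ := PSVM.bound hCH1 hEU hMER hn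
  set I : ℝ := ∫ a, (1 + |a|) ^ j * ‖h a‖ with hI
  refine ⟨max 1 (C * (I * I)), le_max_left _ _, fun R hR => ?_⟩
  have hℓ : 0 < Real.log R := Real.log_pos (by linarith)
  have h1 := PSVM.rep H ((pls K 0 R).filter fun v => ¬ Dv n v) _ hℓ
  refine (le_abs_self _).trans ?_
  rw [← Real.norm_eq_abs, ← Complex.norm_real, h1]
  have h2 := ((H.int j).mul_prod (H.int j)).const_mul (C / Real.log R)
  refine (norm_integral_le_of_norm_le h2 (Filter.Eventually.of_forall fun p => ?_)).trans ?_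
  · rw [norm_mul, norm_mul]
    calc _ ≤ ‖h p.1‖ * ‖h p.2‖ * (C / Real.log R * ((1 + |p.1|) ^ j * (1 + |p.2|) ^ j)) :=
          mul_le_mul_of_nonneg_left (hb R hR _ _) (by positivity)
      _ = _ := by ring
  · rw [integral_const_mul, integral_prod_mul (fun a => (1 + |a|) ^ j * ‖h a‖)
      (fun a => (1 + |a|) ^ j * ‖h a‖), ← hI, div_mul_eq_mul_div]
    exact div_le_div_of_nonneg_right (le_max_right _ _) hℓ.le

end Pool.Agent.P.MP_b8021b_nt.BP
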