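import Pool.Agent.P.MP_b8021b_nt.BP.StC

/-! The theorem from the interface statements. -/

namespace Pool.Agent.P.MP_b8021b_nt.BP

open NumberField IsDedekindDomain Finset MeasureTheory
open Pool.Agent.P.MP_b8021b_nt.VE Pool.Agent.P.MP_b8021b_nt.VC Pool.Agent.P.MP_b8021b_nt.BS.CF
open Pool.Agent.P.MP_b8021b_nt.BS
open scoped Classical ComplexConjugate Real

variable {k : Type} [Field k] [NumberField k] [Algebra k ℂ] {K : Type} [Field K] [NumberField K]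
  [Algebra k K]

open TopL in
theorem y_tOP (c : Cx k K) (hTs : X_Ts K) (hPsi : X_Psi k K) (hMel : X_Mel k K) (hLF : X_LF K)
    (hGD2 : Y_GD2 K) (hSELM : Y_SELM k K) (hFE3 : Y_FE3 k K) (hNVP : Y_NVP k K) : Y_TOP K := by
  intro ζ a ha hζ hU
  obtain ⟨V, hV, hS⟩ := hSELM ζ hU
  obtain ⟨t₀, h8, hT⟩ := hTs ζ V hU hV
  obtain ⟨n₁, N₀, n10, N0, hN⟩ := hNVP ζ hU
  obtain ⟨d, d1, d2, d3⟩ := hS t₀ h8 hT N₀ N0
  obtain ⟨m, Ψ₀, m2, m2', hΨ₀, hchs⟩ := hPsi ζ a ha hζ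
  have t0 : t₀ ≠ 0 := ne_zero_of_dvd (n := 8) (by norm_num) (by exact_mod_cast h8)
  obtain ⟨n₀, n, ℛ, ℛ', hn, hG2⟩ := hGD2 (m * Ideal.absNorm (sp t₀) * n₁)
    (mul_ne_zero (mul_ne_zero (by omega) (by simpa using t0)) n10)
  have hG := hG2.g
  have hmn : m ∣ n := ((dvd_mul_right _ _).mul_right _).trans hn
  have hn' : (n : 𝓞 K) ∈ sp t₀ := (sp t₀).mem_of_dvd
    (Nat.cast_dvd_cast (((dvd_mul_left _ _).mul_right _).trans hn)) (Ideal.absNorm_mem _)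
  have hΨ := isP c.rc hG.two_le hΨ₀ hmn h8 t0 hn'
  obtain ⟨f, Ct, γ, c₀, A, hM, hE, hF⟩ := hFE3 n _ hG hΨ
  have hd : ∀ w : Pl K, t₀ ∈ w.asIdeal → Dv n w := fun w h =>
    (Ideal.span_singleton_le_iff_mem _).2 h hn'
  obtain ⟨c₁, X₀, c1, hX⟩ := hN n₀ n ℛ ℛ' _ f Ct γ c₀ A t₀ V d ((dvd_mul_left _ _).trans hn) hG2 hΨ
    hF (fun v hv => hd v <| by
      by_contra e
      have := ((hT v (hV v hv).1).2 hv).1
      rw [od_zero e] at this
      exact Int.not_odd_iff_even.2 Even.zero this) d1 d2 d3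
  have s0 : sp t₀ ≠ ⊥ := by simpa using t0
  obtain ⟨I₀, J₀, hI, hJ, hIJ⟩ := PDec.ex_dec (sp t₀) s0
  have N1 : 1 ≤ NN (sp t₀) := one_le_NN s0
  have N2 : NN I₀ ≤ NN (sp t₀) := NN_le_of_le s0 (hIJ ▸ Ideal.mul_le_left)
  refine ⟨c₁ / NN (sp t₀), max X₀ 0 * NN (sp t₀), by positivity, fun X hX' => ?_⟩
  obtain ⟨𝒢, g1, g2, g3⟩ := hX (X / NN (sp t₀))
    ((le_max_left _ 0).trans ((le_div_iff₀ (by positivity)).2 hX'))
  rw [div_mul_eq_mul_div, mul_div_assoc]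
  refine g1.trans (Nat.cast_le.2 ?_)
  rw [← Set.ncard_coe_finset]
  refine Set.ncard_le_ncard_of_injOn (fun t => I₀ * sp t) (fun t ht => ?_)
    (fun t ht t' ht' e => g2 ht ht' (mul_left_cancel₀ hI.ne_zero e))
    ((ids K X).finite_toSet.subset fun I h => mem_coe.2 (mem_ids.2 ⟨h.1.ne_zero, h.2.1⟩))
  obtain ⟨hA, h1, h2, h3⟩ := g3 t ht
  have hP : Pri n t := hA.mono (dvd_pow_self n two_ne_zero)
  have t1 := hP.ne_zero
  have k0 : (t₀ : K) ≠ 0 := by exact_mod_cast t0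
  have k1 : (t : K) ≠ 0 := by exact_mod_cast t1
  have z0 : (ζ : K) ≠ 0 := fun e => hU.ns (e ▸ IsSquare.zero)
  have hb : ((-(ζ * (t₀ * t) ^ 2) : 𝓞 K) : K) = -(ζ * ((t₀ * t : 𝓞 K) : K) ^ 2) := by
    push_cast; rfl
  refine ⟨squarefree_mul_iff.2 ⟨IsCoprime.isRelPrime ?_, hI, hP.2⟩, ?_, t₀ * t, J₀,
    mul_ne_zero t0 t1, ?_, h2, ?_⟩
  · refine (isCoprime_iff hI.ne_zero hP.2.ne_zero).2 (disjoint_left.2 fun w e e' => ?_)
    rw [mem_prI hI.ne_zero] at e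
    rw [prI_sp, mem_pr t1] at e'
    exact not_mem hP.1 (hd w (e (Ideal.mul_le_left (hIJ.ge (Ideal.mem_span_singleton_self t₀))))) e'
  · rw [NN_mul]
    rw [le_div_iff₀' (by positivity)] at h1
    exact (mul_le_mul_of_nonneg_right N2 (Nat.cast_nonneg _)).trans h1
  · rw [mul_right_comm, hIJ, Ideal.span_singleton_mul_span_singleton]
  · obtain ⟨G, g1, g2, g3⟩ := hMel n _ _ f t hF.ker hM hE hA
    rw [← hb]
    have n0 : (n : 𝓞 K) * t ≠ 0 := mul_ne_zero (Nat.cast_ne_zero.2 hG.pos) t1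
    refine hLF _ (Ψ₀ * jacH t₀ * triv K n * jacH t) G (pr (n * t)) (fun I => ?_) (fun w hw => ?_)
      (fun w hw => ?_) g1 g2 (g3 h3)
    · rw [MonoidHom.mul_apply, norm_mul]
      exact mul_le_one₀ (hΨ.norm_le I) (norm_nonneg _) (norm_jac_le t I)
    · rw [MonoidHom.mul_apply, jacH_apply, jac_prime]
      rcases w.isPrime.mem_or_mem ((mem_pr n0).1 hw) with e | e
      · rw [hΨ.zero _ fun h => (cop_prime_iff w).1 h e, zero_mul]
      · rw [leg_eq_zero.2 e, mul_zero]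
    · rw [mem_pr n0, w.isPrime.mul_mem_iff_mem_or_mem, not_or] at hw
      have h1 : t₀ * t ∉ w.asIdeal := fun e =>
        (w.isPrime.mem_or_mem e).elim (fun e => hw.1 (hd w e)) hw.2
      have h2 : ¬ Dv m w := fun e => hw.1 (e.of_dvd hmn)
      have h3 : ζ ∉ w.asIdeal := (vl_coe_eq w ζ).1 ((od_eq_zero_iff w z0).1 (hU.od w))
      have h4 : (Ψ₀ * jacH t₀ * triv K n * jacH t) w.asIdeal = Ψ₀ w.asIdeal * leg (t₀ * t) w := by
        simp [jacH_apply, jac_prime, triv_cop ((cop_prime_iff w).2 hw.1), leg_mul, mul_assoc]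
      refine ⟨fun e => h2 (e.of_dvd m2'), fun e => ?_, ?_, by rw [h4, hchs _ w h2 h1]⟩
      · exact (w.isPrime.mem_or_mem (neg_mem_iff.1 e)).elim h3 fun e =>
          h1 (w.isPrime.mem_of_pow_mem 2 e)
      · rw [h4, norm_mul, hΨ₀.norm_cop _ ((cop_prime_iff w).2 h2), one_mul]
        rcases leg_of_not_mem h1 with e | e <;> simp [e]

end Pool.Agent.P.MP_b8021b_nt.BP
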