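import Pool.Agent.P.MP_b8021b_nt.BP.StC
import Pool.Agent.P.MP_b8021b_nt.BS.PSel

/-! Finiteness of the group of points when the Selmer group is unramified. -/

namespace Pool.Agent.P.MP_b8021b_nt.BP

open NumberField IsDedekindDomain Finset MeasureTheory
open Pool.Agent.P.MP_b8021b_nt.VE Pool.Agent.P.MP_b8021b_nt.VC Pool.Agent.P.MP_b8021b_nt.BS.CF
open Pool.Agent.P.MP_b8021b_nt.BS
open scoped Classical ComplexConjugate Real
variable {k : Type} [Field k] [NumberField k] [Algebra k ℂ] {K : Type} [Field K] [NumberField K]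
  [Algebra k K]

theorem y_uFIN (c : Cx k K) (hLIN : Y_LIN K) : Y_UFIN K := by
  intro ζ t₀ T 𝓛 V Γ hU hG hK k0 k1 h2 hV hT hΓ hΓs hUnr
  have t0 : t₀ * T ≠ 0 := mul_ne_zero k0 k1
  have z0 : ζ ≠ 0 := PSel.ne0 hU
  have b0 : -(ζ * (t₀ * T) ^ 2) ≠ 0 := by simp [z0, k0, k1]
  refine c.fin _ b0 fun x y h hx => ?_
  have e : y ^ 2 = x ^ 3 - ζ * (t₀ * T) ^ 2 * x := by rw [h]; ring
  have hL : 𝓛 x := hG.loc x hx
    (PSel.loc_pt hU t0 (fun v hv => (h2 v hv).mul (hT v (Or.inl hv))) e hx)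
  have ev : ∀ v ∈ V, Even (od v T) := fun v hv =>
    even_iff_two_dvd.2 (by exact_mod_cast (hT v (Or.inr hv)).dvd)
  have o0 : ∀ v ∈ V, Odd (od v t₀) := fun v hv => (hV v (hK.1 v hv)).2 hv
  have lV : ∀ v ∈ V, Lin ζ v t₀ x := fun v hv => by
    have ho : Odd (od v (t₀ * T)) := by
      rw [od_mul v k0 k1]
      exact (o0 v hv).add_even (ev v hv)
    have H := hLIN ζ _ v hU (hK.1 v hv) t0 ho
    have h1 := (H.2.2.2.1 x T⁻¹ (H.1 x y hx e) (hT v (Or.inr hv)).inv).1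
    rwa [mul_inv_cancel_right₀ k1] at h1
  have lΓ : ∀ v ∈ Γ, Lin ζ v (t₀ * T) x := fun v hv => by
    have h1 := (hΓ v (hΓs v hv)).2 hv
    have h3 : Even (od v t₀) := Int.not_odd_iff_even.1 fun ho =>
      Int.not_odd_iff_even.2 (ev v ((hV v (hΓs v hv)).1 ho)) h1
    have ho : Odd (od v (t₀ * T)) := by
      rw [od_mul v k0 k1]
      exact h3.add_odd h1
    exact (hLIN ζ _ v hU (hΓs v hv) t0 ho).1 x y hx e
  have hD : ∀ v, ¬ Dv 2 v → v ∉ V → (Odd (od v x) ↔ v ∈ Γ.filter fun w => Odd (od w x)) := by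
    intro v hv hn
    refine ⟨fun ho => mem_filter.2 ⟨?_, ho⟩, fun h => (mem_filter.1 h).2⟩
    obtain ⟨h1, h3, -⟩ := c.val ζ _ x y v hv hU t0 hx e
    have hs : Sens ζ v := ⟨hv, by_contra fun hp => Int.not_odd_iff_even.2 (h3 hp) ho⟩
    refine (hΓ v hs).1 (Int.not_even_iff_odd.1 fun he => Int.not_odd_iff_even.2 (h1 ?_) ho)
    rw [od_mul v k0 k1]
    exact (Int.not_odd_iff_even.1 fun h => hn ((hV v hs).1 h)).add he
  have hE := hUnr _ x (filter_subset _ _) ⟨hL, hD, lV⟩ lΓ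
  refine (hK.2 x hL (fun v hv hn => Int.not_odd_iff_even.1 fun ho => ?_) fun v hv he =>
    (hLIN ζ t₀ v hU (hK.1 v hv) k0 (o0 v hv)).2.2.1 x (lV v hv) he).imp_right ?_
  · have h1 := (hD v hv hn).1 ho
    rw [hE] at h1
    exact notMem_empty v h1
  · obtain ⟨i, hi⟩ := c.om
    rintro ⟨s, hs⟩
    exact ⟨i * (t₀ * T) * s, by
      linear_combination (-(t₀ * T) ^ 2) * hs - ((t₀ * T) * s) ^ 2 * hi⟩

end Pool.Agent.P.MP_b8021b_nt.BP
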