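import Pool.Agent.P.MP_b8021b_nt.BP.StC

/-! The weights of the approximate functional equation and of the second moment. -/

namespace Pool.Agent.P.MP_b8021b_nt.BP

open NumberField IsDedekindDomain Finset MeasureTheory
open Pool.Agent.P.MP_b8021b_nt.VE Pool.Agent.P.MP_b8021b_nt.VC Pool.Agent.P.MP_b8021b_nt.BS.CF
open Pool.Agent.P.MP_b8021b_nt.BS
open scoped Classical ComplexConjugate Real

namespace PVW

variable {f : ℝ → ℝ} {h : ℝ → ℂ} {ℓ Y y z : ℝ}

theorem small (hf : Ker f) : ∃ C : ℝ, 0 ≤ C ∧ ∀ a, 0 < a →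
    IntegrableOn f (Set.Ioc 0 a) ∧ ∫ z in Set.Ioc 0 a, f z ≤ C * √a := by
  obtain ⟨C, hC⟩ := hf.dec (1 / 2) (by norm_num)
  have h0 : 0 ≤ C := by simpa using (hf.pos 1 one_pos).le.trans (hC 1 one_pos)
  refine ⟨2 * C, by positivity, fun a ha => ?_⟩
  have h1 : IntegrableOn (fun z : ℝ => C * z ^ (-(1 / 2) : ℝ)) (Set.Ioc 0 a) :=
    (intervalIntegral.intervalIntegrable_rpow' (by norm_num)).1.const_mul C
  have h2 : ∀ᵐ z ∂volume.restrict (Set.Ioc 0 a), ‖f z‖ ≤ C * z ^ (-(1 / 2) : ℝ) :=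
    (ae_restrict_mem measurableSet_Ioc).mono fun z hz => by
      rw [Real.norm_of_nonneg (hf.pos z hz.1).le]; exact hC z hz.1
  refine ⟨h1.mono' hf.meas.aestronglyMeasurable h2,
    (le_abs_self _).trans ((norm_integral_le_of_norm_le h1 h2).trans_eq ?_)⟩
  rw [integral_const_mul, ← intervalIntegral.integral_of_le ha.le,
    integral_rpow (Or.inl (by norm_num)), Real.sqrt_eq_rpow]
  norm_num
  ring

theorem large (hf : Ker f) : ∃ C : ℝ, 0 ≤ C ∧ ∀ a, 0 < a →
    IntegrableOn f (Set.Ioi a) ∧ ∫ z in Set.Ioi a, f z ≤ C * a⁻¹ := by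
  obtain ⟨C, hC⟩ := hf.dec 2 two_pos
  have h0 : 0 ≤ C := by simpa using (hf.pos 1 one_pos).le.trans (hC 1 one_pos)
  refine ⟨C, h0, fun a ha => ?_⟩
  have h1 : IntegrableOn (fun z : ℝ => C * z ^ (-2 : ℝ)) (Set.Ioi a) :=
    (integrableOn_Ioi_rpow_of_lt (by norm_num) ha).const_mul C
  have h2 : ∀ᵐ z ∂volume.restrict (Set.Ioi a), ‖f z‖ ≤ C * z ^ (-2 : ℝ) :=
    (ae_restrict_mem measurableSet_Ioi).mono fun z hz => by
      rw [Real.norm_of_nonneg (hf.pos z (ha.trans hz)).le]; exact hC z (ha.trans hz)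
  refine ⟨h1.mono' hf.meas.aestronglyMeasurable h2,
    (le_abs_self _).trans ((norm_integral_le_of_norm_le h1 h2).trans_eq ?_)⟩
  rw [integral_const_mul, integral_Ioi_rpow_of_lt (by norm_num) ha]
  norm_num [Real.rpow_neg_one]

theorem int (hf : Ker f) : IntegrableOn f (Set.Ioi 0) := by
  obtain ⟨_, -, h1⟩ := small hf
  obtain ⟨_, -, h2⟩ := large hf
  rw [← Set.Ioc_union_Ioi_eq_Ioi zero_le_one]
  exact (h1 1 one_pos).1.union (h2 1 one_pos).1

theorem nn (hf : Ker f) {s : Set ℝ} (hs : MeasurableSet s) (h : s ⊆ Set.Ioi 0) :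
    0 ≤ᵐ[volume.restrict s] f := (ae_restrict_mem hs).mono fun z hz => (hf.pos z (h hz)).le

theorem pos (hf : Ker f) : 0 < ∫ z in Set.Ioi (0 : ℝ), f z := by
  rw [setIntegral_pos_iff_support_of_nonneg_ae (nn hf measurableSet_Ioi le_rfl) (int hf),
    Set.inter_eq_right.2 (show Set.Ioi 0 ⊆ Function.support f from fun z hz => (hf.pos z hz).ne')]
  simp

theorem err (hf : Ker f) : ∃ C : ℝ, 0 ≤ C ∧ ∀ ℓ Y : ℝ, 0 < ℓ → 0 < Y →
    |Vw f ℓ Y 1 - ∫ z in Set.Ioi (0 : ℝ), f z| ≤ C * ((√Y)⁻¹ + Real.exp (-ℓ)) := by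
  obtain ⟨C, hC, h1⟩ := small hf
  obtain ⟨D, hD, h2⟩ := large hf
  refine ⟨C + D, by positivity, fun ℓ Y hℓ hY => ?_⟩
  have hE := Real.exp_pos ℓ
  obtain ⟨i1, -⟩ := h1 _ hE
  obtain ⟨i2, b2⟩ := h2 _ hE
  obtain ⟨i3, b3⟩ := h1 _ (inv_pos.2 hY)
  have i4 : IntegrableOn (fun z => St (Real.log (1 / (z * Y)) / ℓ) * f z)
      (Set.Ioc 0 (Real.exp ℓ)) := by
    refine i1.bdd_mul (c := 1) (Measurable.aestronglyMeasurable ?_) (.of_forall fun z => ?_)
    · exact continuous_St.measurable.comp (by fun_prop)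
    · rw [Real.norm_of_nonneg (St_nonneg _)]; exact St_le_one _
  have i5 : Integrable ((Set.Ioc 0 Y⁻¹).indicator f) := i3.integrable_indicator measurableSet_Ioc
  have b4 : ‖∫ z in Set.Ioc 0 (Real.exp ℓ), (St (Real.log (1 / (z * Y)) / ℓ) * f z - f z)‖ ≤
      C * √Y⁻¹ := by
    refine (norm_integral_le_of_norm_le i5.integrableOn ((ae_restrict_mem measurableSet_Ioc).mono
      fun z hz => ?_)).trans ((setIntegral_le_integral i5 (.of_forall fun z =>
        Set.indicator_nonneg (fun z hz => (hf.pos z hz.1).le) z)).trans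
        (by rwa [integral_indicator measurableSet_Ioc]))
    have h3 := hf.pos z hz.1
    by_cases h4 : z ≤ Y⁻¹
    · rw [Set.indicator_of_mem (Set.mem_Ioc.2 ⟨hz.1, h4⟩), ← sub_one_mul, norm_mul,
        Real.norm_of_nonneg h3.le, norm_sub_rev, Real.norm_of_nonneg (sub_nonneg.2 (St_le_one _))]
      exact mul_le_of_le_one_left h3.le (sub_le_self _ (St_nonneg _))
    · rw [Set.indicator_of_notMem fun e => h4 e.2, St_of_nonpos, one_mul, sub_self, norm_zero]
      refine div_nonpos_of_nonpos_of_nonneg (Real.log_nonpos (by have := hz.1; positivity) ?_) hℓ.le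
      rw [div_le_one (mul_pos hz.1 hY), ← div_le_iff₀ hY, one_div]
      exact (not_le.1 h4).le
  have b5 : 0 ≤ ∫ z in Set.Ioi (Real.exp ℓ), f z :=
    integral_nonneg_of_ae (nn hf measurableSet_Ioi (Set.Ioi_subset_Ioi hE.le))
  rw [integral_sub i4 i1, Real.sqrt_inv, Real.norm_eq_abs, abs_le] at b4
  rw [← Real.exp_neg] at b2
  rw [← Set.Ioc_union_Ioi_eq_Ioi hE.le,
    setIntegral_union Set.Ioc_disjoint_Ioi_same measurableSet_Ioi i1 i2, Vw, abs_le]
  have p1 : 0 ≤ C * Real.exp (-ℓ) := by positivity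
  have p2 : 0 ≤ D * (√Y)⁻¹ := by positivity
  have p3 : 0 ≤ D * Real.exp (-ℓ) := by positivity
  constructor <;> linarith [b4.1, b4.2]

theorem norm_pow (hy : 0 < y) (b : ℝ) : ‖(y : ℂ) ^ sx ℓ b‖ = y ^ (1 / ℓ) := by
  rw [Complex.norm_cpow_eq_rpow_re_of_pos hy, sx_re]

theorem bd (hf : Ker f) (hℓ : 0 < ℓ) (hz : z ∈ Set.Ioc 0 (Real.exp ℓ)) (b : ℝ) :
    ‖(z : ℂ) ^ sx ℓ b * f z‖ ≤ Real.exp 1 * f z := by
  have h1 := hf.pos z hz.1
  rw [norm_mul, norm_pow hz.1, Complex.norm_real, Real.norm_of_nonneg h1.le]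
  refine mul_le_mul_of_nonneg_right ((Real.rpow_le_rpow hz.1.le hz.2 (by positivity)).trans_eq ?_)
    h1.le
  rw [← Real.exp_mul, mul_one_div_cancel hℓ.ne']

theorem inte (hf : Ker f) (ℓ : ℝ) :
    IntegrableOn (fun z => Real.exp 1 * f z) (Set.Ioc 0 (Real.exp ℓ)) :=
  ((int hf).mono_set Set.Ioc_subset_Ioi_self).const_mul _

theorem cont (hf : Ker f) (hℓ : 0 < ℓ) : Continuous (ftl f ℓ) := by
  have := hf.meas
  refine continuous_of_dominated (fun b => Measurable.aestronglyMeasurable (by fun_prop))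
    (fun b => (ae_restrict_mem measurableSet_Ioc).mono fun z hz => bd hf hℓ hz b) (inte hf ℓ)
    ((ae_restrict_mem measurableSet_Ioc).mono fun z hz => ?_)
  exact ((continuous_cpow hz.1).comp (continuous_sx ℓ)).mul continuous_const

theorem norm_ftl (hf : Ker f) (hℓ : 0 < ℓ) (b : ℝ) :
    ‖ftl f ℓ b‖ ≤ Real.exp 1 * ∫ z in Set.Ioi (0 : ℝ), f z := by
  refine (norm_integral_le_of_norm_le (inte hf ℓ)
    ((ae_restrict_mem measurableSet_Ioc).mono fun z hz => bd hf hℓ hz b)).trans ?_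
  rw [integral_const_mul]
  exact mul_le_mul_of_nonneg_left (setIntegral_mono_set (int hf) (nn hf measurableSet_Ioi le_rfl)
    Set.Ioc_subset_Ioi_self.eventuallyLE) (Real.exp_pos 1).le

theorem int0 (hh : FR h) : Integrable fun a => ‖h a‖ := by simpa using hh.int 0

theorem cpow_div (hy : 0 < y) (hz : 0 < z) (s : ℂ) :
    ((y / z : ℝ) : ℂ) ^ (-s) = (y : ℂ) ^ (-s) * (z : ℂ) ^ s := by
  rw [cpow_eq_exp (div_pos hy hz), cpow_eq_exp hy, cpow_eq_exp hz, ← Complex.exp_add,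
    Real.log_div hy.ne' hz.ne']
  push_cast
  ring_nf

theorem rep (hh : FR h) (hf : Ker f) (hℓ : 0 < ℓ) (hY : 0 < Y) (hy : 0 < y) :
    (Vw f ℓ Y y : ℂ) = ∫ b, Hv h f ℓ Y y b := by
  have hq := div_pos hy hY
  have e1 : (Vw f ℓ Y y : ℂ) = ∫ z in Set.Ioc 0 (Real.exp ℓ), ∫ b,
      h b * ((y / Y : ℝ) : ℂ) ^ (-sx ℓ b) * ((z : ℂ) ^ sx ℓ b * f z) := by
    rw [Vw, ← integral_complex_ofReal]
    refine setIntegral_congr_fun measurableSet_Ioc fun z hz => ?_
    simp only [Complex.ofReal_mul]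
    rw [hh.rep _ _ (div_pos hy (mul_pos hz.1 hY)) hℓ, ← integral_mul_const, mul_comm z, ← div_div]
    simp only [cpow_div hq hz.1, mul_assoc]
  rw [e1, integral_integral_swap]
  · simp only [integral_const_mul]
    simp only [Hv, ftl, mul_right_comm]
  · have m1 := hf.meas
    have m2 := hh.cont.measurable
    have m3 := (continuous_sx ℓ).measurable
    refine ((inte hf ℓ).mul_prod ((int0 hh).mul_const ((y / Y) ^ (-(1 / ℓ))))).mono'
      (Measurable.aestronglyMeasurable (by unfold Function.uncurry; fun_prop)) ?_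
    refine (Measure.quasiMeasurePreserving_fst.ae (ae_restrict_mem measurableSet_Ioc)).mono
      fun p hp => ?_
    rw [Function.uncurry, norm_mul, norm_mul, norm_cpow_neg hq, sx_re, mul_comm]
    exact mul_le_mul_of_nonneg_right (bd hf hℓ hp _) (by positivity)

theorem zero (hℓ : 0 < ℓ) (hY : 0 < Y) (hy : Y * Real.exp (2 * ℓ) ≤ y) : Vw f ℓ Y y = 0 := by
  refine setIntegral_eq_zero_of_forall_eq_zero fun z hz => ?_
  rw [St_log hℓ, zero_mul]
  rw [le_div_iff₀ (mul_pos hz.1 hY)]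
  refine le_trans ?_ hy
  rw [two_mul, Real.exp_add, ← mul_assoc, mul_comm _ Y]
  have := hz.2
  gcongr

end PVW

theorem y_vW : Y_VW := fun h f hh hf => by
  obtain ⟨C, hC, he⟩ := PVW.err hf
  have hp := PVW.pos hf
  have hb := fun ℓ hℓ b => PVW.norm_ftl (ℓ := ℓ) hf hℓ b
  generalize ∫ z in Set.Ioi (0 : ℝ), f z = J at *
  have h1 : 0 ≤ Real.exp 1 * J := by positivity
  refine ⟨1 + C + Real.exp 1 * J, by linarith, hp, fun ℓ Y hℓ hY => ?_⟩
  have hb' : ∀ b, ‖ftl f ℓ b‖ ≤ 1 + C + Real.exp 1 * J := fun b => by linarith [hb ℓ hℓ b]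
  refine ⟨PVW.cont hf hℓ, hb', fun y hy => PVW.rep hh hf hℓ hY hy, fun y => PVW.zero hℓ hY,
    (he ℓ Y hℓ hY).trans (mul_le_mul_of_nonneg_right (by linarith) (by positivity)),
    fun ρ hρ => ?_⟩
  have hq := div_pos hρ hY
  have c1 : Continuous (Hv h f ℓ Y ρ) := (hh.cont.mul (PVW.cont hf hℓ)).mul
    ((continuous_cpow hq).comp (continuous_sx ℓ).neg)
  have b1 : ∀ b, ‖Hv h f ℓ Y ρ b‖ ≤ (1 + C + Real.exp 1 * J) * (Y / ρ) ^ (1 / ℓ) * ‖h b‖ :=
    fun b => by
      rw [Hv, norm_mul, norm_mul, norm_cpow_neg hq, sx_re, Real.rpow_neg hq.le,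
        ← Real.inv_rpow hq.le, inv_div, mul_assoc, mul_comm]
      have := hb' b
      gcongr
  refine ⟨c1, b1, fun Z hZ => ⟨le_rfl, ((PVW.int0 hh).const_mul _).mono' c1.aestronglyMeasurable
    (.of_forall b1), fun y hy => ?_, fun y hy => ?_⟩⟩
  · have hy0 : 0 < y := by linarith
    simp only [PVW.rep hh hf hℓ hY (mul_pos hρ hy0), Hv, zero_add, mul_div_right_comm ρ,
      Complex.ofReal_mul, Complex.mul_cpow_ofReal_nonneg hq.le hy0.le, mul_assoc]
  · simp only [PVW.zero hℓ hY (hZ.trans (mul_le_mul_of_nonneg_left hy hρ.le)), Complex.ofReal_zero]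

theorem y_wB : Y_WB := fun h hh => by
  obtain ⟨C, hC, hl⟩ := hh.lip
  refine ⟨C + 1, by linarith, fun ℓ Y b h1 hY => ?_⟩
  have hℓ : 0 < ℓ := by linarith
  have hr : 0 ≤ (sx ℓ b).re := by rw [sx_re]; positivity
  have hb := abs_nonneg b
  have hz : ∀ y, Y * Real.exp ℓ ≤ y → Wb2 ℓ Y b y = 0 := fun y hy => by
    rw [Wb2, St_log hℓ ((le_div_iff₀' hY).2 hy), Complex.ofReal_zero, zero_mul]
  refine ⟨⟨hr, ?_, fun y hy => ?_, hz⟩, fun y hy => ?_, fun y y' hy hy' => ?_,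
    fun y hy => hz y hy.le⟩
  · refine ((PVW.int0 hh).mul_const (Y ^ (1 / ℓ))).mono'
      (hh.cont.mul ((continuous_cpow hY).comp (continuous_sx ℓ))).aestronglyMeasurable
      (.of_forall fun a => ?_)
    rw [norm_mul, PVW.norm_pow hY]
  · have hy0 : 0 < y := by linarith
    rw [Wb2, hh.rep _ _ (div_pos hy0 hY) hℓ, ← integral_mul_const]
    refine integral_congr_ae (.of_forall fun a => ?_)
    simp only [PVW.cpow_div hy0 hY, neg_add, Complex.cpow_add _ _ (Complex.ofReal_ne_zero.2 hy0.ne')]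
    ring
  · rw [Wb2, norm_mul]
    exact (mul_le_one₀ (norm_St _) (norm_nonneg _) (norm_cpow_le hy hr)).trans (by nlinarith)
  · have hy0 : 0 < y := by linarith
    have hy0' : 0 < y' := by linarith
    have hd := abs_nonneg (Real.log y - Real.log y')
    have e1 : ‖(St (Real.log (y / Y) / ℓ) : ℂ) - St (Real.log (y' / Y) / ℓ)‖ ≤
        C * |Real.log y - Real.log y'| := by
      rw [← Complex.ofReal_sub, Complex.norm_real]
      refine (hl _ _).trans (mul_le_mul_of_nonneg_left ?_ (by linarith))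
      rw [← sub_div, Real.log_div hy0.ne' hY.ne', Real.log_div hy0'.ne' hY.ne',
        sub_sub_sub_cancel_right, abs_div, abs_of_pos hℓ]
      exact div_le_self hd h1
    have e2 : ‖(y : ℂ) ^ (-sx ℓ b) - (y' : ℂ) ^ (-sx ℓ b)‖ ≤
        |Real.log y - Real.log y'| * (1 + |b|) := by
      rw [cpow_eq_exp hy0, cpow_eq_exp hy0']
      refine (norm_exp_sub ?_ ?_).trans ?_
      · simpa using mul_nonneg (Real.log_nonneg hy) hr
      · simpa using mul_nonneg (Real.log_nonneg hy') hr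
      · rw [← sub_mul, norm_mul, ← Complex.ofReal_sub, Complex.norm_real, norm_neg]
        exact mul_le_mul_of_nonneg_left ((norm_sx hℓ b).trans (div_le_self (by linarith) h1)) hd
    have e3 : Wb2 ℓ Y b y - Wb2 ℓ Y b y' =
        ((St (Real.log (y / Y) / ℓ) : ℂ) - St (Real.log (y' / Y) / ℓ)) * (y : ℂ) ^ (-sx ℓ b) +
        St (Real.log (y' / Y) / ℓ) * ((y : ℂ) ^ (-sx ℓ b) - (y' : ℂ) ^ (-sx ℓ b)) := by
      simp only [Wb2]; ring
    rw [e3]
    refine (norm_add_le _ _).trans ?_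
    rw [norm_mul, norm_mul]
    have e4 := (mul_le_of_le_one_right (norm_nonneg _) (norm_cpow_le hy hr)).trans e1
    have e5 := (mul_le_of_le_one_left (norm_nonneg _) (norm_St (Real.log (y' / Y) / ℓ))).trans e2
    have e6 : 0 ≤ C * |b| * |Real.log y - Real.log y'| := by positivity
    linarith

end Pool.Agent.P.MP_b8021b_nt.BP
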