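import Pool.Agent.P.MP_b8021b_nt.BS.CF.All
import Pool.Agent.P.MP_b8021b_nt.VC.PBall
import Pool.Agent.P.MP_b8021b_nt.VC.PBal
import Pool.Agent.P.MP_b8021b_nt.VC.PTyp
import Pool.Agent.P.MP_b8021b_nt.BS.PRec
import Pool.Agent.P.MP_b8021b_nt.BS.PRec0
import Pool.Agent.P.MP_b8021b_nt.BS.PVal
import Pool.Agent.P.MP_b8021b_nt.BS.PFin
import Pool.Agent.P.MP_b8021b_nt.BS.PInf
import Pool.Agent.P.MP_b8021b_nt.BS.PTs
import Pool.Agent.P.MP_b8021b_nt.BS.PGood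
import Pool.Agent.P.MP_b8021b_nt.BS.PCnt
import Pool.Agent.P.MP_b8021b_nt.BS.PLocB
import Pool.Agent.P.MP_b8021b_nt.BS.PLocG
import Pool.Agent.P.MP_b8021b_nt.BS.PEP2
import Pool.Agent.P.MP_b8021b_nt.BS.PLF
import Pool.Agent.P.MP_b8021b_nt.BS.PPrim
import Pool.Agent.P.MP_b8021b_nt.BS.PJac4
import Pool.Agent.P.MP_b8021b_nt.BS.PPsi
import Pool.Agent.P.MP_b8021b_nt.BS.PBal2
import Pool.Agent.P.MP_b8021b_nt.BS.PNVH
import Pool.Agent.P.MP_b8021b_nt.BS.PT1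
import Pool.Agent.P.MP_b8021b_nt.BS.PGS
import Pool.Agent.P.MP_b8021b_nt.BS.PSep
import Pool.Agent.P.MP_b8021b_nt.BS.PG1
import Pool.Agent.P.MP_b8021b_nt.BS.PG2
import Pool.Agent.P.MP_b8021b_nt.BS.PG3
import Pool.Agent.P.MP_b8021b_nt.BS.PThB
import Pool.Agent.P.MP_b8021b_nt.BS.PPer
import Pool.Agent.P.MP_b8021b_nt.BS.PKM
import Pool.Agent.P.MP_b8021b_nt.BS.PGn
import Pool.Agent.P.MP_b8021b_nt.BS.PSq0
import Pool.Agent.P.MP_b8021b_nt.BS.PSq1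
import Pool.Agent.P.MP_b8021b_nt.BS.PMel
import Pool.Agent.P.MP_b8021b_nt.BS.PDG
import Pool.Agent.P.MP_b8021b_nt.BS.PCube
import Pool.Agent.P.MP_b8021b_nt.BS.PTM
import Pool.Agent.P.MP_b8021b_nt.BS.PPCh
import Pool.Agent.P.MP_b8021b_nt.BS.PMQ
import Pool.Agent.P.MP_b8021b_nt.BS.PBil
import Pool.Agent.P.MP_b8021b_nt.BS.PLS1o
import Pool.Agent.P.MP_b8021b_nt.BS.PLS1
import Pool.Agent.P.MP_b8021b_nt.BS.PLS0
import Pool.Agent.P.MP_b8021b_nt.BP.PFI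
import Pool.Agent.P.MP_b8021b_nt.BP.PLIP
import Pool.Agent.P.MP_b8021b_nt.BP.PFOUR
import Pool.Agent.P.MP_b8021b_nt.BP.PRED1
import Pool.Agent.P.MP_b8021b_nt.BP.PCH1
import Pool.Agent.P.MP_b8021b_nt.BP.PCH2
import Pool.Agent.P.MP_b8021b_nt.BP.PEU
import Pool.Agent.P.MP_b8021b_nt.BP.PME1
import Pool.Agent.P.MP_b8021b_nt.BP.PME2
import Pool.Agent.P.MP_b8021b_nt.BP.PBLK
import Pool.Agent.P.MP_b8021b_nt.BP.PMER
import Pool.Agent.P.MP_b8021b_nt.BP.PDIR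
import Pool.Agent.P.MP_b8021b_nt.BP.PDIV
import Pool.Agent.P.MP_b8021b_nt.BP.PGEO
import Pool.Agent.P.MP_b8021b_nt.BP.PPER
import Pool.Agent.P.MP_b8021b_nt.BP.PSVM
import Pool.Agent.P.MP_b8021b_nt.BP.PGRP
import Pool.Agent.P.MP_b8021b_nt.BP.PLIN
import Pool.Agent.P.MP_b8021b_nt.BP.PFLIP
import Pool.Agent.P.MP_b8021b_nt.BP.PUFIN
import Pool.Agent.P.MP_b8021b_nt.BP.PBB4
import Pool.Agent.P.MP_b8021b_nt.BP.PAUX
import Pool.Agent.P.MP_b8021b_nt.BP.PSLS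
import Pool.Agent.P.MP_b8021b_nt.BP.PSLH
import Pool.Agent.P.MP_b8021b_nt.BP.PSLT
import Pool.Agent.P.MP_b8021b_nt.BP.PLSH
import Pool.Agent.P.MP_b8021b_nt.BP.PRDAT
import Pool.Agent.P.MP_b8021b_nt.BP.PSELM
import Pool.Agent.P.MP_b8021b_nt.BP.PTE
import Pool.Agent.P.MP_b8021b_nt.BP.PBB3
import Pool.Agent.P.MP_b8021b_nt.BP.PKF1
import Pool.Agent.P.MP_b8021b_nt.BP.PKF2
import Pool.Agent.P.MP_b8021b_nt.BP.PRT2
import Pool.Agent.P.MP_b8021b_nt.BP.PRED2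
import Pool.Agent.P.MP_b8021b_nt.BP.PRED3
import Pool.Agent.P.MP_b8021b_nt.BP.PTAU
import Pool.Agent.P.MP_b8021b_nt.BP.PVW
import Pool.Agent.P.MP_b8021b_nt.BP.PEV0
import Pool.Agent.P.MP_b8021b_nt.BP.PAF2
import Pool.Agent.P.MP_b8021b_nt.BP.PAF3
import Pool.Agent.P.MP_b8021b_nt.BP.PEXP
import Pool.Agent.P.MP_b8021b_nt.BP.PDEC
import Pool.Agent.P.MP_b8021b_nt.BP.PBIL0
import Pool.Agent.P.MP_b8021b_nt.BP.PFE1
import Pool.Agent.P.MP_b8021b_nt.BP.PCOV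
import Pool.Agent.P.MP_b8021b_nt.BP.PFE3
import Pool.Agent.P.MP_b8021b_nt.BP.PAF1
import Pool.Agent.P.MP_b8021b_nt.BP.PAFE
import Pool.Agent.P.MP_b8021b_nt.BP.PLZ
import Pool.Agent.P.MP_b8021b_nt.BP.PEVB
import Pool.Agent.P.MP_b8021b_nt.BP.PPTA
import Pool.Agent.P.MP_b8021b_nt.BP.PPTB
import Pool.Agent.P.MP_b8021b_nt.BP.PBIL1
import Pool.Agent.P.MP_b8021b_nt.BP.PBIL2
import Pool.Agent.P.MP_b8021b_nt.BP.PBIL3
import Pool.Agent.P.MP_b8021b_nt.BP.PBIL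
import Pool.Agent.P.MP_b8021b_nt.BP.PLG
import Pool.Agent.P.MP_b8021b_nt.BP.PCELA
import Pool.Agent.P.MP_b8021b_nt.BP.PCELB
import Pool.Agent.P.MP_b8021b_nt.BP.PCELL
import Pool.Agent.P.MP_b8021b_nt.BP.PLSa
import Pool.Agent.P.MP_b8021b_nt.BP.PDG1
import Pool.Agent.P.MP_b8021b_nt.BP.PDIAG
import Pool.Agent.P.MP_b8021b_nt.BP.PLSd
import Pool.Agent.P.MP_b8021b_nt.BP.PSIG
import Pool.Agent.P.MP_b8021b_nt.BP.PGSF
import Pool.Agent.P.MP_b8021b_nt.BP.PSIEVE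
import Pool.Agent.P.MP_b8021b_nt.BP.PMV
import Pool.Agent.P.MP_b8021b_nt.BP.PLSb
import Pool.Agent.P.MP_b8021b_nt.BP.PLSe
import Pool.Agent.P.MP_b8021b_nt.BP.PPX
import Pool.Agent.P.MP_b8021b_nt.BP.PLATL
import Pool.Agent.P.MP_b8021b_nt.BP.PLIPG
import Pool.Agent.P.MP_b8021b_nt.BP.PKS
import Pool.Agent.P.MP_b8021b_nt.BP.PFOLD
import Pool.Agent.P.MP_b8021b_nt.BP.PPHI
import Pool.Agent.P.MP_b8021b_nt.BP.PEXT
import Pool.Agent.P.MP_b8021b_nt.BP.PJS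
import Pool.Agent.P.MP_b8021b_nt.BP.PIS2
import Pool.Agent.P.MP_b8021b_nt.BP.PIS
import Pool.Agent.P.MP_b8021b_nt.BP.PS2a
import Pool.Agent.P.MP_b8021b_nt.BP.PS2
import Pool.Agent.P.MP_b8021b_nt.BP.PSM1
import Pool.Agent.P.MP_b8021b_nt.BP.PSM
import Pool.Agent.P.MP_b8021b_nt.BP.PCON1
import Pool.Agent.P.MP_b8021b_nt.BP.PCON
import Pool.Agent.P.MP_b8021b_nt.BP.PFM0
import Pool.Agent.P.MP_b8021b_nt.BP.PNV1
import Pool.Agent.P.MP_b8021b_nt.BP.PNV2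
import Pool.Agent.P.MP_b8021b_nt.BP.PNVP
import Pool.Agent.P.MP_b8021b_nt.BP.PTOP

/-! Assembly of the packages. -/

namespace Pool.Agent.P.MP_b8021b_nt.BP

open NumberField
open Pool.Agent.P.MP_b8021b_nt.VE Pool.Agent.P.MP_b8021b_nt.VC Pool.Agent.P.MP_b8021b_nt.BS.CF
open Pool.Agent.P.MP_b8021b_nt.BS

section

variable {k : Type} [Field k] [NumberField k] [Algebra k ℂ] {K : Type} [Field K] [NumberField K]
  [Algebra k K]

theorem asm (c : Cx k K) (hTs : X_Ts K) (hPsi : X_Psi k K) (hMel : X_Mel k K) (hLF : X_LF K) :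
    Y_TOP K :=
  have hFI := y_fI
  have hLIP := y_lIP
  have hFOUR := y_fOUR
  have hRED1 := y_rED1
  have hCH1 := y_cH1 c
  have hCH2 := y_cH2 c hCH1
  have hMARK := y_mARK c hCH1 hCH2
  have hEU := y_eU c hCH1 hCH2
  have hEPA := y_ePA c
  have hMEI := y_mEI c
  have hME1 := y_mE1 c hCH1 hCH2 hMEI
  have hME2 := y_mE2 c hLIP hCH1 hCH2 hMEI
  have hBLK := y_bLK c hME1 hME2
  have hMER := y_mER c hCH2
  have hDIR := y_dIR c hME1 hME2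
  have hREP := y_rEP c hDIR
  have hGD2 := y_gD2 c hREP
  have hDIV := y_dIV c
  have hGEO := y_gEO c
  have hPER := y_pER c
  have hCUB := y_cUB c
  have hSVM := y_sVM c hFI hCH1 hEU hMER
  have hGRP := y_gRP c
  have hKILL := y_kILL c
  have hLIN := y_lIN c
  have hFLIP := y_fLIP c hLIN
  have hUFIN := y_uFIN c hLIN
  have hBB4 := y_bB4 c hCH2
  have hAUX := y_aUX c hREP
  have hSLS := y_sLS c hPER hSVM hCUB
  have hSLH := y_sLH c hCH1 hSLS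
  have hSLT := y_sLT c hCH1 hSLS
  have hLSH := y_lSH c
  have hRDAT := y_rDAT c hLIN hREP
  have hSELM := y_sELM c hFOUR hGRP hKILL hFLIP hUFIN hRDAT
  have hTE := y_tE c hCH2 hMER hDIV hSLH
  have hBB3 := y_bB3 c hDIV
  have hKF1 := y_kF1 c hREP
  have hKF2 := y_kF2 c hBB3
  have hRT2 := y_rT2 c hTE
  have hRED2 := y_rED2 c hTE hKF1 hKF2 hRT2 hBB4
  have hRED3 := y_rED3 c hSLH
  have hTAU := y_tAU c hRED1 hRED2 hRED3 hMARK hBLK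
  have hVW := y_vW
  have hWB := y_wB
  have hEV0 := y_eV0
  have hEVA := y_eVA c hEV0 hEU
  have hAF2a := y_aF2a c
  have hAF2 := y_aF2 c hAF2a
  have hAF3 := y_aF3 c
  have hIS1 := y_iS1 c
  have hEXP := y_eXP c hGEO
  have hDEC := y_dEC c hEV0 hEXP
  have hBIL0 := y_bIL0 c
  have hFE1 := y_fE1 c
  have hFE2 := y_fE2 c
  have hCOV1 := y_cOV1 c
  have hCOV2 := y_cOV2 c
  have hFE3 := y_fE3 c hFE1 hFE2 hCOV1 hCOV2
  have hAF1 := y_aF1 c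
  have hAFE := y_aFE c hFI hVW hAF1 hAF2 hAF3
  have hLZ := y_lZ c hLIP hEPA
  have hEVL := y_eVL c hEV0 hLZ
  have hEVB := y_eVB c hEV0 hCH1 hEU hMER hLZ
  have hPTA := y_pTA c hVW hEV0 hEVA hEVL
  have hPTB := y_pTB c hVW hEV0 hEVB
  have hBIL1 := y_bIL1 c hDIV hSLT hBIL0
  have hBIL2 := y_bIL2 c hDIV hSLT hLSH hBIL0
  have hBIL3 := y_bIL3 c hDIV hSLT hBIL0
  have hBIL := y_bIL c hBIL1 hBIL2 hBIL3
  have hLG := y_lG c hEV0 hBIL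
  have hCELA := y_cELA c hFI hVW hDIV hSLT hDEC hEVA hPTA hLG
  have hCELB := y_cELB c hFI hVW hDIV hSLT hDEC hEVB hPTB hLG
  have hCELL := y_cELL c hDIV hGEO hSLT hAFE hCELA hCELB
  have hLSa := y_lSa
  have hDG1 := y_dG1 c
  have hRQ := y_rQ c hDG1
  have hDIAG := y_dIAG c hFI hWB hEV0 hEU hEXP hDG1
  have hLSd := y_lSd c
  have hSIG := y_sIG c
  have hGSF := y_gSF c
  have hSIEVE := y_sIEVE c hDIV
  have hMV := y_mV c
  have hLSb := y_lSb c hLSa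
  have hLSe := y_lSe c hMV
  have hLS := y_lS c hMV hLSb hLSe hLSd
  have hPX := y_pX c
  have hCR := y_cR c hPX
  have hLATL := y_lATL c
  have hLIPG := y_lIPG c
  have hKS := y_kS c hLATL hLIPG
  have hFOLD := y_fOLD c
  have hPHI := y_pHI c hPER hLS hSIG hGSF hPX
  have hEXT := y_eXT c hKS hFOLD hPHI
  have hJS := y_jS c hDIV hCR hSIEVE hEXT
  have hIS2 := y_iS2 c hDIV hCR hRQ hJS
  have hIS := y_iS c hDIV hIS1 hIS2
  have hS2a := y_s2a c hDG1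
  have hS2 := y_s2 c hFI hWB hDIV hDIAG hIS hS2a
  have hSM1 := y_sM1 c hFI hVW hS2
  have hSM := y_sM c hDIV hGEO hAFE hSM1
  have hCON1 := y_cON1 c hBLK hAUX
  have hCON := y_cON c hCON1
  have hFM0 := y_fM0 c hSLT
  have hNV1 := y_nV1 c hFI hVW hCH2 hMER hFM0 hCELL
  have hNV2 := y_nV2 c
  have hNVP := y_nVP c hTAU hCON hNV1 hNV2 hSM
  y_tOP c hTs hPsi hMel hLF hGD2 hSELM hFE3 hNVP

end

theorem lib : Lib :=
  have hRep := p_rep2 p_ray p_lamP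
  have hVol := p_vol p_emb p_int
  have hPS := p_pSs p_emb p_unit hRep (p_part p_emb) hVol
    (p_pS0 p_emb hRep (p_part p_emb) (p_win2 hVol p_lat)) p_lamP
  ⟨t_3, p_emb, p_ball p_emb, p_bal, p_ray, p_unit, hRep, p_part p_emb, p_typ p_emb, hPS,
    p_den p_emb hPS p_eP, p_bCN⟩

theorem all (K : Type) [Field K] [NumberField K] (hK : Om K) : X_Zeta K ∧ Y_TOP K := by
  obtain ⟨k, _, _, _, B, hB, hk⟩ := exists_bf
  obtain ⟨f⟩ := hk K hK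
  let _ : Algebra k K := f.toAlgebra
  have c : Ctx k K := ⟨lib, ⟨B, hB⟩, hK⟩
  have rc := x_rec c (x_rec0 c)
  have cnt := x_cnt c
  have bal := x_bal2 c
  have gs := x_gS c x_cG
  have thb := x_thB c cnt
  have km := x_kM c
  have gn := x_gn c km thb
  have g1 := x_g1 c
  have g2 := x_g2 c
  have t1 := x_t1 c
  have cube := x_cube c
  have lr := x_locR c
  have ls1 := x_lS1 c (x_lS1o c cnt gs (x_bil c cnt (x_mQ c bal gs x_sep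
    (x_tM c x_cG gs (x_per c rc) (x_dG c gs) cube) (x_pCh c g1 g2 t1))))
  exact ⟨x_zeta c, asm ⟨c, rc, x_val c, x_iso c, x_fin c, x_good c, x_cls c, cnt, bal, x_nVH c, g1,
    g2, x_g3 c rc g1 g2, thb, gs, t1, km, gn, x_sq0 c, x_sq1 c gn, ls1, x_lS0 c rc cnt bal cube,
    p_nv2 t_2 (p_es2 t_1) (p_x2 t_1) (p_chi t_2), p_nvc t_1, p_lat⟩ (x_ts c)
    (x_psi c x_prim fun B hB => x_jac4 B hB (x_prim B hB)) (x_mel c cnt thb)
    (x_lF c lr (x_locG c lr) (x_locB c) x_eP2)⟩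

end Pool.Agent.P.MP_b8021b_nt.BP
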