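import Pool.Agent.P.MP_b8021b_nt.BP.Defs
import Pool.Agent.P.MP_b8021b_nt.BS.Top
import Pool.Agent.P.MP_b8021b_nt.BS.PDec

/-! Basic lemmas. -/

namespace Pool.Agent.P.MP_b8021b_nt.BP

open NumberField IsDedekindDomain Finset MeasureTheory
open Pool.Agent.P.MP_b8021b_nt.VE Pool.Agent.P.MP_b8021b_nt.VC Pool.Agent.P.MP_b8021b_nt.BS.CF
open Pool.Agent.P.MP_b8021b_nt.BS
open scoped Classical ComplexConjugate Real

set_option linter.unusedSectionVars false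

/-! ### real and complex numbers -/

theorem St_nonneg (u : ℝ) : 0 ≤ St u := Real.smoothTransition.nonneg _

theorem St_le_one (u : ℝ) : St u ≤ 1 := Real.smoothTransition.le_one _

theorem St_of_nonpos {u : ℝ} (h : u ≤ 0) : St u = 1 :=
  Real.smoothTransition.one_of_one_le (by linarith)

theorem St_of_one_le {u : ℝ} (h : 1 ≤ u) : St u = 0 :=
  Real.smoothTransition.zero_of_nonpos (by linarith)

theorem St_add (u : ℝ) : St u + St (1 - u) = 1 := by
  have := Real.smoothTransition.pos_denom u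
  simp only [St, Real.smoothTransition, sub_sub_cancel]
  rw [add_comm (expNegInvGlue (1 - u)), ← add_div, add_comm, div_self this.ne']

theorem continuous_St : Continuous St :=
  Real.smoothTransition.continuous.comp (continuous_const.sub continuous_id)

theorem norm_St (u : ℝ) : ‖(St u : ℂ)‖ ≤ 1 := by
  rw [Complex.norm_real, Real.norm_of_nonneg (St_nonneg u)]; exact St_le_one u

/-- the step vanishes beyond `exp ℓ` -/
theorem St_log {y ℓ : ℝ} (hℓ : 0 < ℓ) (h : Real.exp ℓ ≤ y) : St (Real.log y / ℓ) = 0 :=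
  St_of_one_le ((one_le_div hℓ).2 ((Real.le_log_iff_exp_le ((Real.exp_pos ℓ).trans_le h)).2 h))

theorem sx_re (ℓ a : ℝ) : (sx ℓ a).re = 1 / ℓ := by simp [sx, Complex.div_ofReal_re]

theorem norm_sx {ℓ : ℝ} (hℓ : 0 < ℓ) (a : ℝ) : ‖sx ℓ a‖ ≤ (1 + |a|) / ℓ := by
  rw [sx, norm_div, Complex.norm_real, Real.norm_of_nonneg hℓ.le]
  gcongr
  exact (norm_add_le _ _).trans (by simp)

theorem norm_sx_sub {ℓ : ℝ} (hℓ : 0 < ℓ) (a b : ℝ) : ‖sx ℓ a - sx ℓ b‖ ≤ (|a| + |b|) / ℓ := by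
  rw [sx, sx, ← sub_div, norm_div, Complex.norm_real, Real.norm_of_nonneg hℓ.le,
    add_sub_add_left_eq_sub]
  gcongr
  exact (norm_sub_le _ _).trans (by simp)

theorem continuous_sx (ℓ : ℝ) : Continuous (sx ℓ) := by unfold sx; fun_prop

theorem norm_cpow_neg {x : ℝ} (hx : 0 < x) (s : ℂ) : ‖(x : ℂ) ^ (-s)‖ = x ^ (-s.re) := by
  rw [Complex.norm_cpow_eq_rpow_re_of_pos hx, Complex.neg_re]

theorem norm_cpow_le {x : ℝ} (hx : 1 ≤ x) {s : ℂ} (hs : 0 ≤ s.re) : ‖(x : ℂ) ^ (-s)‖ ≤ 1 := by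
  rw [norm_cpow_neg (by linarith)]
  exact Real.rpow_le_one_of_one_le_of_nonpos hx (by linarith)

theorem cpow_eq_exp {x : ℝ} (hx : 0 < x) (s : ℂ) :
    (x : ℂ) ^ s = Complex.exp (Real.log x * s) := by
  rw [Complex.cpow_def_of_ne_zero (by exact_mod_cast hx.ne'), Complex.ofReal_log hx.le]

theorem continuous_cpow {x : ℝ} (hx : 0 < x) : Continuous fun s : ℂ => (x : ℂ) ^ s :=
  continuous_id.const_cpow (Or.inl (by exact_mod_cast hx.ne'))

theorem norm_exp_sub {z w : ℂ} (hz : z.re ≤ 0) (hw : w.re ≤ 0) :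
    ‖Complex.exp z - Complex.exp w‖ ≤ ‖z - w‖ := by
  have h := (convex_halfSpace_re_le 0).norm_image_sub_le_of_norm_deriv_le (f := Complex.exp)
    (C := 1) (fun x _ => Complex.differentiableAt_exp) (fun x hx => by
      rw [Complex.deriv_exp, Complex.norm_exp]; exact Real.exp_le_one_iff.2 hx) hw hz
  rwa [one_mul] at h

theorem norm_cpow_sub {x : ℝ} (hx : 1 ≤ x) {α β : ℂ} (ha : 0 ≤ α.re) (hb : 0 ≤ β.re) :
    ‖(x : ℂ) ^ (-α) - (x : ℂ) ^ (-β)‖ ≤ ‖α - β‖ * Real.log x := by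
  have h0 := Real.log_nonneg hx
  rw [cpow_eq_exp (by linarith), cpow_eq_exp (by linarith)]
  refine (norm_exp_sub ?_ ?_).trans (le_of_eq ?_)
  · simpa using mul_nonneg h0 ha
  · simpa using mul_nonneg h0 hb
  · rw [← mul_sub, norm_mul, Complex.norm_real, Real.norm_of_nonneg h0, mul_comm, neg_sub_neg,
      norm_sub_rev]

/-- powers of the logarithm are small -/
theorem ev_log (C : ℝ) (j : ℕ) {a : ℝ} (ha : 0 < a) :
    ∃ X₀ : ℝ, 3 ≤ X₀ ∧ ∀ X, X₀ ≤ X → C * Real.log X ^ j ≤ X ^ a := by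
  have h := ((isLittleO_log_rpow_rpow_atTop (j : ℝ) ha).const_mul_left C).bound one_pos
  obtain ⟨X₀, h⟩ := Filter.eventually_atTop.1 h
  refine ⟨max 3 X₀, le_max_left _ _, fun X hX => ?_⟩
  have h1 := h X ((le_max_right _ _).trans hX)
  have h2 : 0 ≤ X := le_trans (by norm_num) ((le_max_left _ _).trans hX)
  rw [Real.rpow_natCast, one_mul, Real.norm_of_nonneg (Real.rpow_nonneg h2 _)] at h1
  exact (le_abs_self _).trans h1

/-- duality for large sieve inequalities -/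
theorem dual {ι κ : Type*} (s : Finset ι) (t : Finset κ) (M : ι → κ → ℂ) {Δ : ℝ} (h0 : 0 ≤ Δ)
    (h : ∀ c : κ → ℂ, ∑ i ∈ s, ‖∑ j ∈ t, c j * M i j‖ ^ 2 ≤ Δ * ∑ j ∈ t, ‖c j‖ ^ 2) (a : ι → ℂ) :
    ∑ j ∈ t, ‖∑ i ∈ s, a i * M i j‖ ^ 2 ≤ Δ * ∑ i ∈ s, ‖a i‖ ^ 2 := by
  set b : κ → ℂ := fun j => ∑ i ∈ s, a i * M i j with hb
  set B := ∑ j ∈ t, ‖b j‖ ^ 2 with hB
  have B0 : 0 ≤ B := sum_nonneg fun _ _ => by positivity
  have e : (B : ℂ) = ∑ i ∈ s, a i * ∑ j ∈ t, conj (b j) * M i j := by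
    simp only [mul_sum]
    rw [sum_comm, hB]
    push_cast
    refine sum_congr rfl fun j _ => ?_
    rw [← Complex.conj_mul', hb]
    simp only [mul_sum]
    exact sum_congr rfl fun i _ => by ring
  have h1 : B ≤ ∑ i ∈ s, ‖a i‖ * ‖∑ j ∈ t, conj (b j) * M i j‖ := by
    rw [← Real.norm_of_nonneg B0, ← Complex.norm_real, e]
    exact (norm_sum_le _ _).trans (le_of_eq (sum_congr rfl fun _ _ => norm_mul _ _))
  have h2 := sum_mul_sq_le_sq_mul_sq s (fun i => ‖a i‖) fun i => ‖∑ j ∈ t, conj (b j) * M i j‖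
  have h3 := h fun j => conj (b j)
  simp only [Complex.norm_conj, ← hB] at h3
  have A0 : 0 ≤ ∑ i ∈ s, ‖a i‖ ^ 2 := sum_nonneg fun _ _ => by positivity
  rcases B0.eq_or_lt with e0 | e0
  · rw [← e0]; positivity
  · refine le_of_mul_le_mul_right ?_ e0
    have := (pow_le_pow_left₀ B0 h1 2).trans (h2.trans (mul_le_mul_of_nonneg_left h3 A0))
    nlinarith

/-! ### places and ideals -/

section Pl

variable {K : Type} [Field K] [NumberField K] {v : Pl K} {I J : Ideal (𝓞 K)} {S S' : Finset (Pl K)}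
  {n : ℕ} {t : 𝓞 K}

theorem mem_pls {a b : ℝ} : v ∈ pls K a b ↔ a < nv v ∧ nv v ≤ b := by
  rw [pls, mem_filter, Set.Finite.mem_toFinset, and_iff_right_iff_imp]
  exact fun h => Nat.le_floor h.2

theorem mem_ids {b : ℝ} : I ∈ ids K b ↔ I ≠ ⊥ ∧ NN I ≤ b := by
  rw [ids, mem_filter, Set.Finite.mem_toFinset, and_iff_right_iff_imp]
  exact fun h => Nat.le_floor h.2

theorem nv_pos (v : Pl K) : 0 < nv v := two_pos.trans_le (two_le_NN v)

theorem pls_mono {a a' b b' : ℝ} (ha : a' ≤ a) (hb : b ≤ b') : pls K a b ⊆ pls K a' b' :=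
  fun _ h => mem_pls.2 ⟨ha.trans_lt (mem_pls.1 h).1, (mem_pls.1 h).2.trans hb⟩

theorem mem_prI (hI : I ≠ ⊥) : v ∈ prI I ↔ I ≤ v.asIdeal := by
  simp [prI, hI, cnt_eq_zero]

theorem prI_eI (S : Finset (Pl K)) : prI (eI S) = S :=
  Finset.ext fun _ => (mem_prI (eI_ne_bot S)).trans eI_le_iff

theorem prI_sp (t : 𝓞 K) : prI (sp t) = pr t := by
  by_cases h : t = 0
  · simp [prI, pr, h]
  · ext v
    rw [mem_prI (by simpa using h), mem_pr h, Ideal.span_singleton_le_iff_mem]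

theorem prI_mul (hI : I ≠ ⊥) (hJ : J ≠ ⊥) : prI (I * J) = prI I ∪ prI J := by
  ext v
  rw [mem_union, mem_prI (mul_ne_zero hI hJ), mem_prI hI, mem_prI hJ, v.isPrime.mul_le]

theorem pr_mul {t' : 𝓞 K} (h : t ≠ 0) (h' : t' ≠ 0) : pr (t * t') = pr t ∪ pr t' := by
  rw [← prI_sp, sp_mul, prI_mul (by simpa using h) (by simpa using h'), prI_sp, prI_sp]

theorem eI_prI (h : Squarefree I) : eI (prI I) = I := by
  obtain ⟨S, rfl⟩ := exists_eI h
  rw [prI_eI]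

theorem eI_inj : Function.Injective (eI : Finset (Pl K) → _) := fun S S' e => by
  rw [← prI_eI S, e, prI_eI]

theorem eI_empty : eI (∅ : Finset (Pl K)) = ⊤ := by simp [eI]

theorem eI_insert (h : v ∉ S) : eI (insert v S) = v.asIdeal * eI S := prod_insert h

theorem eI_union (h : Disjoint S S') : eI (S ∪ S') = eI S * eI S' := prod_union h

theorem isCoprime_iff (hI : I ≠ ⊥) (hJ : J ≠ ⊥) : IsCoprime I J ↔ Disjoint (prI I) (prI J) := by
  rw [Ideal.isCoprime_iff_sup_eq, disjoint_left]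
  constructor
  · intro h v a b
    exact v.isPrime.ne_top (top_le_iff.1 (h ▸ sup_le ((mem_prI hI).1 a) ((mem_prI hJ).1 b)))
  · intro h
    by_contra e
    obtain ⟨P, hP, le⟩ := Ideal.exists_le_maximal _ e
    have h0 : P ≠ ⊥ := fun z => hI (le_bot_iff.1 (z ▸ le_sup_left.trans le))
    exact h (a := ⟨P, hP.isPrime, h0⟩) ((mem_prI hI).2 (le_sup_left.trans le))
      ((mem_prI hJ).2 (le_sup_right.trans le))

theorem isCoprime_iff' {t' : 𝓞 K} (h : t ≠ 0) (h' : t' ≠ 0) :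
    IsCoprime t t' ↔ Disjoint (pr t) (pr t') := by
  rw [← Ideal.isCoprime_span_singleton_iff, isCoprime_iff (by simpa using h) (by simpa using h'),
    prI_sp, prI_sp]

theorem cop_iff (hn : n ≠ 0) (hI : I ≠ ⊥) : Cop n I ↔ ∀ v ∈ prI I, ¬ Dv n v := by
  have h : (n : 𝓞 K) ≠ 0 := Nat.cast_ne_zero.2 hn
  rw [Cop, isCoprime_iff hI (by simpa using h), prI_sp, disjoint_left]
  exact forall₂_congr fun v _ => not_congr (mem_pr h)

theorem cop_eI (hn : n ≠ 0) : Cop n (eI S) ↔ ∀ v ∈ S, ¬ Dv n v := by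
  rw [cop_iff hn (eI_ne_bot S), prI_eI]

theorem NN_le_of_le (hI : I ≠ ⊥) (h : I ≤ J) : NN J ≤ NN I :=
  Nat.cast_le.2 (Nat.le_of_dvd (Nat.pos_of_ne_zero fun e => hI (Ideal.absNorm_eq_zero_iff.1 e))
    (Ideal.absNorm_dvd_absNorm_of_le h))

theorem nv_le_of_dv (hn : n ≠ 0) (h : Dv n v) : nv v ≤ NN (sp (n : 𝓞 K)) :=
  NN_le_of_le (Ideal.span_singleton_eq_bot.not.2 (Nat.cast_ne_zero.2 hn))
    ((Ideal.span_singleton_le_iff_mem _).2 h)

theorem nS_eq (S : Finset (Pl K)) : nS S = ∏ v ∈ S, nv v := by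
  unfold nS nv NN eI
  rw [map_prod, Nat.cast_prod]

theorem one_le_nS (S : Finset (Pl K)) : 1 ≤ nS S := one_le_NN (eI_ne_bot S)

theorem nS_pos (S : Finset (Pl K)) : 0 < nS S := NN_pos (eI_ne_bot S)

theorem nS_mono (h : S ⊆ S') : nS S ≤ nS S' := by
  rw [nS_eq, nS_eq]
  exact prod_le_prod_of_subset_of_one_le h (fun v _ => (nv_pos v).le)
    fun v _ _ => one_le_two.trans (two_le_NN v)

theorem nv_le_nS (h : v ∈ S) : nv v ≤ nS S := NN_le_of_le (eI_ne_bot S) (eI_le_iff.2 h)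

theorem two_pow_le_nS (S : Finset (Pl K)) : 2 ^ S.card ≤ nS S := by
  rw [nS_eq, ← prod_const]
  exact prod_le_prod (fun _ _ => by norm_num) fun v _ => two_le_NN v

theorem nS_union_le (S S' : Finset (Pl K)) : nS (S ∪ S') ≤ nS S * nS S' := by
  rw [← union_sdiff_self_eq_union, nS, eI_union disjoint_sdiff, NN_mul]
  exact mul_le_mul_of_nonneg_left (nS_mono sdiff_subset) (nS_pos S).le

/-- the number of sets of places of bounded norm -/
theorem card_le_ids {𝒮 : Finset (Finset (Pl K))} {b : ℝ} (h : ∀ S ∈ 𝒮, nS S ≤ b) :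
    𝒮.card ≤ (ids K b).card :=
  card_le_card_of_injOn eI (fun S hS => mem_coe.2 (mem_ids.2 ⟨eI_ne_bot S, h S hS⟩)) eI_inj.injOn

theorem log_nv_pos (v : Pl K) : 0 < Real.log (nv v) :=
  Real.log_pos (one_lt_two.trans_le (two_le_NN v))

theorem lw_nonneg (S : Finset (Pl K)) : 0 ≤ lw S :=
  sum_nonneg fun v _ => div_nonneg (log_nv_pos v).le (nv_pos v).le

theorem lw_mono (h : S ⊆ S') : lw S ≤ lw S' :=
  sum_le_sum_of_subset_of_nonneg h fun v _ _ => div_nonneg (log_nv_pos v).le (nv_pos v).le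

theorem lw_union_le (S S' : Finset (Pl K)) : lw (S ∪ S') ≤ lw S + lw S' := by
  rw [← union_sdiff_self_eq_union, lw, sum_union disjoint_sdiff]
  exact add_le_add_right (lw_mono sdiff_subset) _

theorem lw_le_card (S : Finset (Pl K)) : lw S ≤ S.card := by
  rw [card_eq_sum_ones, Nat.cast_sum]
  refine sum_le_sum fun v _ => ?_
  rw [Nat.cast_one, div_le_one (nv_pos v)]
  exact Real.log_le_self (nv_pos v).le

theorem lw_le_nS (S : Finset (Pl K)) : lw S ≤ nS S :=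
  (lw_le_card S).trans (le_trans (by exact_mod_cast (Nat.lt_two_pow_self).le) (two_pow_le_nS S))

theorem sum_inv_le_lw (S : Finset (Pl K)) : ∑ v ∈ S, (nv v)⁻¹ ≤ 2 * lw S := by
  rw [lw, mul_sum]
  refine sum_le_sum fun v _ => ?_
  have h := Real.log_le_log two_pos (two_le_NN v)
  rw [← mul_div_assoc, inv_eq_one_div]
  gcongr
  linarith [Real.log_two_gt_d9]

/-- an integer congruent to one is a local square over the modulus -/
theorem lp_of_dvd (h8 : 8 ∣ n) (ht : (n : 𝓞 K) ∣ t - 1) (hv : Dv n v) : LP 2 v (t : K) := by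
  by_cases h : Dv 2 v
  · exact TopL.lp_two ((by exact_mod_cast Nat.cast_dvd_cast (α := 𝓞 K) h8 : (8 : 𝓞 K) ∣ n).trans ht) h
  · refine LP.of_near_one h ?_
    have := (vl_coe_lt v (t - 1)).2 (v.asIdeal.mem_of_dvd ht hv)
    simpa using this

/-! ### completely multiplicative functions -/

theorem sg_leg (x : 𝓞 K) (I : Ideal (𝓞 K)) : sg (leg x) I = jac x I := rfl

theorem sg_bot (x : Pl K → ℂ) : sg x ⊥ = 0 := if_pos rfl

theorem sg_eq_prod (x : Pl K → ℂ) (hI : I ≠ ⊥) (h : prI I ⊆ S) :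
    sg x I = ∏ v ∈ S, x v ^ cnt v I := by
  rw [sg, if_neg hI]
  refine finprod_eq_prod_of_mulSupport_subset _ fun v hv => h ((mem_prI hI).2 (not_not.1 fun e => hv ?_))
  simp [(cnt_eq_zero v).2 e]

theorem sg_mul (x : Pl K → ℂ) (I J : Ideal (𝓞 K)) : sg x (I * J) = sg x I * sg x J := by
  by_cases hI : I = ⊥
  · simp [hI, sg_bot]
  by_cases hJ : J = ⊥
  · simp [hJ, sg_bot]
  rw [sg_eq_prod x (mul_ne_zero hI hJ) (prI_mul hI hJ).le, sg_eq_prod x hI subset_union_left,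
    sg_eq_prod x hJ subset_union_right, ← prod_mul_distrib]
  exact prod_congr rfl fun v _ => by rw [cnt_mul v hI hJ, pow_add]

theorem sg_eI (x : Pl K → ℂ) (S : Finset (Pl K)) : sg x (eI S) = ∏ v ∈ S, x v := by
  rw [sg_eq_prod x (eI_ne_bot S) (prI_eI S).le]
  exact prod_congr rfl fun v h => by rw [cnt_eI, if_pos h, pow_one]

theorem sg_top (x : Pl K → ℂ) : sg x ⊤ = 1 := by rw [← eI_empty, sg_eI, prod_empty]

theorem sg_prime (x : Pl K → ℂ) (v : Pl K) : sg x v.asIdeal = x v := by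
  simpa [eI] using sg_eI x {v}

theorem sg_mul_fun (x y : Pl K → ℂ) (I : Ideal (𝓞 K)) :
    sg (fun v => x v * y v) I = sg x I * sg y I := by
  by_cases hI : I = ⊥
  · simp [hI, sg_bot]
  simp only [sg_eq_prod _ hI subset_rfl, mul_pow, prod_mul_distrib]

theorem hom_eq_sg (χ : Ideal (𝓞 K) →* ℂ) (hI : I ≠ ⊥) : χ I = sg (fun v => χ v.asIdeal) I := by
  refine ideal_induction (P := fun I => χ I = sg (fun v => χ v.asIdeal) I) ?_
    (fun v I _ ih => by rw [map_mul, sg_mul, sg_prime, ih]) I hI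
  rw [sg_top, ← Ideal.one_eq_top, map_one]

theorem cpow_eq_sg (s : ℂ) (hI : I ≠ ⊥) :
    ((NN I : ℝ) : ℂ) ^ s = sg (fun v => (nv v : ℂ) ^ s) I := by
  refine ideal_induction (P := fun I => ((NN I : ℝ) : ℂ) ^ s = sg (fun v => (nv v : ℂ) ^ s) I) ?_
    (fun v I _ ih => ?_) I hI
  · simp [sg_top, NN]
  · rw [sg_mul, sg_prime, ← ih, NN_mul, Complex.ofReal_mul,
      Complex.mul_cpow_ofReal_nonneg (Nat.cast_nonneg _) (Nat.cast_nonneg _)]

theorem norm_sg_le {x : Pl K → ℂ} (h : ∀ v, ‖x v‖ ≤ 1) (I : Ideal (𝓞 K)) : ‖sg x I‖ ≤ 1 := by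
  by_cases hI : I = ⊥
  · simp [hI, sg_bot]
  rw [sg_eq_prod x hI subset_rfl, norm_prod]
  exact prod_le_one (fun _ _ => norm_nonneg _) fun v _ => by
    rw [norm_pow]; exact pow_le_one₀ (norm_nonneg _) (h v)

theorem Sgn.norm_le {x : Pl K → ℂ} (h : Sgn x) (v : Pl K) : ‖x v‖ ≤ 1 := by
  rcases h v with e | e | e <;> simp [e]

theorem sgn_leg (x : 𝓞 K) : Sgn (leg x) := leg_cases x

theorem lr_coe (x : 𝓞 K) (v : Pl K) : (lr x v : ℂ) = leg x v := by
  rcases leg_cases x v with e | e | e <;> simp [lr, e]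

theorem abs_lr (x : 𝓞 K) (v : Pl K) : |lr x v| ≤ 1 := by
  rcases leg_cases x v with e | e | e <;> simp [lr, e]

theorem norm_cf {χ : Ideal (𝓞 K) → ℂ} (h : ∀ I, ‖χ I‖ ≤ 1) {s : ℂ} (hs : 0 ≤ s.re) (v : Pl K) :
    ‖cf χ s v‖ ≤ (√(nv v))⁻¹ := by
  rw [cf, norm_mul, norm_cpow_neg (nv_pos v), Real.sqrt_eq_rpow, ← Real.rpow_neg (nv_pos v).le]
  refine (mul_le_of_le_one_left (by positivity) (h _)).trans
    (Real.rpow_le_rpow_of_exponent_le (one_le_two.trans (two_le_NN v)) ?_)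
  simpa using hs

theorem norm_cf_sq {χ : Ideal (𝓞 K) → ℂ} (h : ∀ I, ‖χ I‖ ≤ 1) {s : ℂ} (hs : 0 ≤ s.re) (v : Pl K) :
    ‖cf χ s v‖ ^ 2 ≤ 1 / 2 := by
  refine (pow_le_pow_left₀ (norm_nonneg _) (norm_cf h hs v) 2).trans ?_
  rw [inv_pow, Real.sq_sqrt (nv_pos v).le, ← one_div]
  exact one_div_le_one_div_of_le two_pos (two_le_NN v)

theorem cf_eq (χ : Ideal (𝓞 K) → ℂ) (s : ℂ) (v : Pl K) :
    cf χ s v = χ v.asIdeal * ((√(nv v))⁻¹ : ℝ) * (nv v : ℂ) ^ (-s) := by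
  rw [cf, neg_add, Complex.cpow_add _ _ (by exact_mod_cast (nv_pos v).ne'), mul_assoc,
    Real.sqrt_eq_rpow, ← Real.rpow_neg (nv_pos v).le, Complex.ofReal_cpow (nv_pos v).le]
  push_cast
  rfl

theorem continuous_cf (χ : Ideal (𝓞 K) → ℂ) (v : Pl K) : Continuous fun s => cf χ s v :=
  continuous_const.mul ((continuous_cpow (nv_pos v)).comp (by fun_prop))

theorem hs_of_hl {T : Finset (𝓞 K)} {𝒩 : Finset (Ideal (𝓞 K))} {Δ : ℝ} (h : Hl T 𝒩 Δ) (h0 : 0 ≤ Δ) :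
    Hs T 𝒩 Δ := dual T 𝒩 jac h0 h

theorem ms_of_hs {T : Finset (𝓞 K)} {𝒩 : Finset (Ideal (𝓞 K))} {Δ : ℝ} (h : Hs T 𝒩 Δ) (h0 : 0 ≤ Δ) :
    MS T 𝒩 (Δ * T.card) := fun a ha => (h a).trans (mul_le_mul_of_nonneg_left (by
  simpa using sum_le_card_nsmul T (fun t => ‖a t‖ ^ 2) 1
    fun t _ => pow_le_one₀ (norm_nonneg _) (ha t)) h0)

/-- the trivial bound for the mollifier -/
theorem norm_Mw {Ψ : Ideal (𝓞 K) → ℂ} (h : ∀ I, ‖Ψ I‖ ≤ 1) {x : Pl K → ℂ} (hx : Sgn x) {ℓ : ℝ}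
    (hℓ : 0 < ℓ) : ‖Mw Ψ x ℓ‖ ≤ (ids K (Real.exp ℓ)).card := by
  rw [Mw, ← sum_filter_of_ne (p := fun S => nS S ≤ Real.exp ℓ) fun S _ e => not_lt.1 fun l =>
    e (by simp [St_log hℓ l.le])]
  refine (norm_sum_le _ _).trans ((sum_le_card_nsmul _ _ 1 fun S _ => ?_).trans ?_)
  · simp only [norm_mul, norm_pow, norm_neg, norm_one, one_pow, one_mul, Complex.norm_real]
    refine mul_le_one₀ (mul_le_one₀ (h _) (norm_nonneg _) (norm_sg_le hx.norm_le _))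
      (norm_nonneg _) ?_
    rw [Real.norm_of_nonneg (div_nonneg (St_nonneg _) (by positivity))]
    exact div_le_one_of_le₀ ((St_le_one _).trans (Real.one_le_sqrt.2 (one_le_nS S))) (by positivity)
  · simpa using card_le_ids fun S h => (mem_filter.1 h).2

theorem conj_Aw (χ : Ideal (𝓞 K) →* ℂ) (x : 𝓞 K) (W : ℝ → ℝ) (Z : ℝ) :
    Aw (cj χ) (leg x) (fun y => W y) Z = conj (Aw χ (leg x) (fun y => W y) Z) := by
  simp only [Aw, map_sum, map_div₀, map_mul, Complex.conj_ofReal, sg_leg, conj_jac]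
  rfl

end Pl

/-! ### the archimedean side -/

section Arch

variable {k : Type} [Field k] [NumberField k] [Algebra k ℂ] {K : Type} [Field K] [NumberField K]
  [Algebra k K] {n : ℕ} {C C' X Y Y' y y₁ y₂ : ℝ} {t t' τ : 𝓞 K} {𝒜 Γ : Finset (Pl K)}
  {T T₁ T₂ : Finset (𝓞 K)} {Ψ : Ideal (𝓞 K) →* ℂ}

theorem ch_of_isP (h : IsP k n Ψ) : Ch n Ψ ∧ Ch n (cj Ψ) :=
  ⟨⟨h.norm_le, fun v e => h.zero _ fun c => (cop_prime_iff v).1 c e⟩,
    fun I => (Complex.norm_conj _).trans_le (h.norm_le I), fun v e => by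
      change conj (Ψ _) = 0
      rw [h.zero _ fun c => (cop_prime_iff v).1 c e, map_zero]⟩

/-- the square of a character of type one -/
theorem isH_sq (c : Ctx k K) (hn : 2 ≤ n) (h : IsP k n Ψ) :
    ∃ κ : Emb k K → ℤ, κ ≠ 0 ∧ IsH k n κ 0 (Ψ * Ψ) ∧ IsH k n (-κ) 0 (cj (Ψ * Ψ)) := by
  obtain ⟨B, -⟩ := c.bf
  obtain ⟨φ₀⟩ : Nonempty (Emb k K) := by
    rw [← Fintype.card_pos_iff, c.card_emb]
    exact_mod_cast (one_pos.trans_le c.one_le_rk : (0 : ℝ) < _)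
  have hsq := ((c.lib.bcn.2 k B K _ _ _ Ψ hn h).2.2.2.1 _ _ _ Ψ (by omega) h).2 rfl
  have hcj := (c.lib.bcn.2 k B K _ _ _ _ hn hsq).2.1
  rw [add_zero] at hsq
  rw [add_zero, neg_zero] at hcj
  exact ⟨_, fun e => by simpa using congrFun e φ₀, hsq, hcj⟩

theorem Bal.mono (h : Bal k C Y t) (hC : C ≤ C') (h0 : 0 ≤ C') (hY : 0 ≤ Y) (hY' : Y ≤ Y') :
    Bal k C' Y' t := fun φ =>
  (h φ).trans (mul_le_mul hC (Real.rpow_le_rpow hY hY' (by positivity)) (by positivity) h0)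

theorem Bal.mul (h : Bal k C Y t) (h' : Bal k C' Y' t') (hY : 0 ≤ Y) (hY' : 0 ≤ Y') :
    Bal k (C * C') (Y * Y') (t * t') := fun φ => by
  rw [emb_mul, Pi.mul_apply, norm_mul, mul_pow, Real.mul_rpow hY hY', mul_mul_mul_comm]
  exact mul_le_mul (h φ) (h' φ) (by positivity) ((sq_nonneg _).trans (h φ))

theorem Bal.NN_le (c : Ctx k K) (h : Bal k C Y t) (hY : 0 ≤ Y) :
    NN (sp t) ≤ C ^ rk k K * Y := by
  have hr : rk k K ≠ 0 := (one_pos.trans_le c.one_le_rk).ne'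
  rw [c.NN_eq, nz]
  refine (prod_le_prod (fun _ _ => by positivity) fun φ _ => h φ).trans (le_of_eq ?_)
  rw [prod_const, card_univ, c.card_emb, mul_pow, ← Real.rpow_mul_natCast hY,
    one_div_mul_cancel hr, Real.rpow_one, Real.rpow_natCast]

theorem Bal.norm_le (h : Bal k C Y t) : ‖emb k t‖ ≤ √(C * Y ^ (1 / rk k K)) :=
  (pi_norm_le_iff_of_nonneg (by positivity)).2 fun φ => Real.le_sqrt_of_sq_le (h φ)

theorem Blk.mono (h : Blk k n 𝒜 C y T) (hC : C ≤ C') (h0 : 0 ≤ C') (hy : 0 ≤ y) :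
    Blk k n 𝒜 C' y T := ⟨h.pri, fun t e => (h.bal t e).mono hC h0 hy le_rfl, h.dec, h.inj⟩

theorem Blk.NN_le (h : Blk k n 𝒜 C y T) (ht : t ∈ T) : NN (sp t) ≤ y * nS 𝒜 := by
  obtain ⟨v, a, h1, -, h2, -, h3⟩ := h.dec t ht
  rw [h2, NN_mul]
  exact mul_le_mul h3 (nS_mono h1) (nS_pos a).le ((nv_pos v).le.trans h3)

theorem Blk.card_pr (h : Blk k n 𝒜 C y T) (ht : t ∈ T) : (pr t).card ≤ 3 := by
  obtain ⟨v, a, -, h1, h2, -⟩ := h.dec t ht
  have e : prI v.asIdeal = {v} := by simpa [eI] using prI_eI {v}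
  rw [← prI_sp, h2, prI_mul v.ne_bot (eI_ne_bot a), prI_eI, e]
  exact (card_union_le _ _).trans (by rw [card_singleton]; omega)

section

variable (c : Ctx k K)
include c

theorem _root_.Pool.Agent.P.MP_b8021b_nt.BS.Ctx.et_pos : 0 < et k K := by have := c.one_le_rk; unfold et; positivity

theorem _root_.Pool.Agent.P.MP_b8021b_nt.BS.Ctx.cz_pos : 0 < cz k K := by have := c.one_le_rk; unfold cz; positivity

theorem _root_.Pool.Agent.P.MP_b8021b_nt.BS.Ctx.la_pos : 0 < la k K := by have := c.one_le_rk; unfold la; positivity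

theorem _root_.Pool.Agent.P.MP_b8021b_nt.BS.Ctx.et_le : et k K ≤ 1 / 200 :=
  one_div_le_one_div_of_le (by norm_num) (by linarith [c.one_le_rk])

theorem _root_.Pool.Agent.P.MP_b8021b_nt.BS.Ctx.cz_le : cz k K ≤ 1 / 100 :=
  one_div_le_one_div_of_le (by norm_num) (by linarith [c.one_le_rk])

theorem _root_.Pool.Agent.P.MP_b8021b_nt.BS.Ctx.et_eq : et k K = 50 * la k K := by
  have := c.one_le_rk; unfold et la; field_simp; norm_num

theorem _root_.Pool.Agent.P.MP_b8021b_nt.BS.Ctx.cW_pos : 0 < cW k K := by have := c.cov_pos; unfold cW; positivity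

theorem _root_.Pool.Agent.P.MP_b8021b_nt.BS.Ctx.exp_el (hX : 0 < X) (a : ℝ) : Real.exp (a * el k K X) = X ^ (a * la k K) := by
  rw [Real.rpow_def_of_pos hX, el]; ring_nf

theorem _root_.Pool.Agent.P.MP_b8021b_nt.BS.Ctx.Y0_eq (hX : 0 < X) : Y0 k K X = X ^ (1 / 2 - la k K / 2) := by
  rw [Y0, Real.sqrt_eq_rpow, show -el k K X / 2 = -(1 / 2) * el k K X by ring, c.exp_el hX,
    ← Real.rpow_add hX]
  ring_nf

theorem _root_.Pool.Agent.P.MP_b8021b_nt.BS.Ctx.ZZ_eq (hX : 0 < X) : ZZ k K X = X ^ (1 / 2 + 7 / 2 * la k K) := by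
  rw [ZZ, c.Y0_eq hX, c.exp_el hX, ← Real.rpow_add hX]
  ring_nf

theorem _root_.Pool.Agent.P.MP_b8021b_nt.BS.Ctx.Y0_sq (hX : 0 < X) : Y0 k K X ^ 2 * Real.exp (el k K X) = X := by
  rw [Y0, mul_pow, Real.sq_sqrt hX.le, mul_assoc, ← Real.exp_nat_mul, ← Real.exp_add]
  simp [mul_div_cancel₀]

theorem _root_.Pool.Agent.P.MP_b8021b_nt.BS.Ctx.Y0_pos (hX : 0 < X) : 0 < Y0 k K X := by rw [c.Y0_eq hX]; positivity

theorem _root_.Pool.Agent.P.MP_b8021b_nt.BS.Ctx.ZZ_mul_le (hX : 1 ≤ X) :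
    ZZ k K X * Real.exp (el k K X) ≤ X ^ (1 / 2 + et k K / 10) := by
  have h := c.exp_el (one_pos.trans_le hX) 1
  rw [one_mul] at h
  rw [c.ZZ_eq (by linarith), h, ← Real.rpow_add (by linarith), c.et_eq]
  exact Real.rpow_le_rpow_of_exponent_le hX (by linarith [c.la_pos])

/-- the logarithmic length tends to infinity -/
theorem _root_.Pool.Agent.P.MP_b8021b_nt.BS.Ctx.ev_el (L : ℝ) : ∃ X₀ : ℝ, 3 ≤ X₀ ∧ ∀ X, X₀ ≤ X → L ≤ el k K X := by
  refine ⟨max 3 (Real.exp (L / la k K)), le_max_left _ _, fun X hX => ?_⟩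
  have h := (Real.le_log_iff_exp_le (by linarith [le_max_left 3 (Real.exp (L / la k K))])).2
    ((le_max_right _ _).trans hX)
  rwa [div_le_iff₀' (c.la_pos)] at h

/-- a bound for the densities -/
theorem _root_.Pool.Agent.P.MP_b8021b_nt.BS.Ctx.rpow_el (hX : 1 < X) {a : ℝ} {x : ℝ} (h0 : 0 ≤ x) (hx : x ≤ X ^ a) :
    x ^ (1 / el k K X) ≤ Real.exp (a / la k K) := by
  have h1 := Real.log_pos hX
  have h2 := c.la_pos
  refine (Real.rpow_le_rpow h0 hx (by unfold el; positivity)).trans (le_of_eq ?_)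
  rw [← Real.rpow_mul (by linarith), Real.rpow_def_of_pos (by linarith), el]
  congr 1
  field_simp

/-- the set of places of the Euler products is large enough -/
theorem _root_.Pool.Agent.P.MP_b8021b_nt.BS.Ctx.ev_PP : ∃ X₀ : ℝ, 3 ≤ X₀ ∧ ∀ X, X₀ ≤ X → 1 ≤ el k K X ∧
    pls K 0 (ZZ k K X) ⊆ PP K (el k K X) ∧ pls K 0 (Real.exp (el k K X)) ⊆ PP K (el k K X) := by
  have h2 := c.la_pos
  obtain ⟨X₀, h3, h⟩ := c.ev_el (1 / la k K + 4)
  refine ⟨X₀, h3, fun X hX => ?_⟩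
  have h4 := h X hX
  have h5 : 0 < 1 / la k K := by positivity
  refine ⟨by linarith, pls_mono le_rfl ?_, pls_mono le_rfl (Real.exp_le_exp.2 (by nlinarith))⟩
  rw [c.ZZ_eq (by linarith), Real.rpow_def_of_pos (by linarith)]
  have h6 : Real.log X = 1 / la k K * el k K X := by rw [el]; field_simp
  refine Real.exp_le_exp.2 ?_
  have h7 : Real.log X * la k K = el k K X := by rw [el]; ring
  nlinarith

theorem _root_.Pool.Agent.P.MP_b8021b_nt.BS.Ctx.lo (h : Pair k n 𝒜 C X Γ y₁ y₂ T₁ T₂) (hX : 1 ≤ X) :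
    X ^ (1 - 201 / 100 * et k K) ≤ y₁ ∧ X ^ et k K ≤ y₁ ∧ 1 ≤ y₁ ∧ 1 ≤ y₂ := by
  have h0 : 0 < X := by linarith
  have h1 := c.et_pos
  have h2 := c.et_le
  have h3 : 1 ≤ y₂ := (Real.one_le_rpow hX h1.le).trans h.lo2
  have h4 : 0 ≤ y₁ := nonneg_of_mul_nonneg_left ((Real.rpow_nonneg h0.le _).trans h.lo1) (by linarith)
  have h5 : X ^ (1 - 201 / 100 * et k K) ≤ y₁ := by
    refine le_of_mul_le_mul_right ?_ (Real.rpow_pos_of_pos h0 (2 * et k K))
    rw [← Real.rpow_add h0]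
    exact (le_of_eq (by ring_nf)).trans (h.lo1.trans (mul_le_mul_of_nonneg_left h.hi2 h4))
  have h6 := (Real.rpow_le_rpow_of_exponent_le hX (show et k K ≤ _ by linarith)).trans h5
  exact ⟨h5, h6, (Real.one_le_rpow hX h1.le).trans h6, h3⟩

end

theorem pri_mul (h : Pri n t) (h' : Pri n t') (hc : IsCoprime t t') : Pri n (t * t') :=
  ⟨by rw [show t * t' - 1 = (t - 1) * t' + (t' - 1) by ring]; exact (h.1.mul_right _).add h'.1, by
    rw [sp_mul]
    exact squarefree_mul_iff.2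
      ⟨((Ideal.isCoprime_span_singleton_iff _ _).2 hc).isRelPrime, h.2, h'.2⟩⟩

theorem eps_mul (c : Cx k K) (hn : Good K n) (h : Pri n t) (h' : Pri n t') (hc : IsCoprime t t') :
    eps k (t * t') = eps k t * eps k t' := by
  have := ((c.g3 n hn).2.2 (Fin 2) ![t, t'] (fun i => by fin_cases i <;> assumption) fun i j e => by
    fin_cases i <;> fin_cases j
    · exact absurd rfl e
    · exact hc
    · exact hc.symm
    · exact absurd rfl e).2
  simpa using this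

/-- the members of a cell -/
theorem Cell.mem (c : Ctx k K) (h : Cell k n 𝒜 C X Γ τ y₁ y₂ T₁ T₂) (hC : 1 ≤ C) (hX : 1 ≤ X)
    (ht : t ∈ T₁) (ht' : t' ∈ T₂) : Pri (n ^ 2) (τ * t * t') ∧ NN (sp (τ * t * t')) ≤ X ∧
      Bal k C X (τ * t * t') := by
  obtain ⟨-, -, a1, a2⟩ := c.lo h.toPair hX
  have hr : rk k K ≠ 0 := (one_pos.trans_le c.one_le_rk).ne'
  have N0 : 0 ≤ NN (sp τ) := Nat.cast_nonneg _
  refine ⟨pri_mul (pri_mul h.pri (h.b1.pri t ht) (h.c1 t ht)) (h.b2.pri t' ht')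
    ((h.c2 t' ht').mul_left (h.c12 t ht t' ht')), ?_, fun φ => ?_⟩
  · rw [sp_mul, sp_mul, NN_mul, NN_mul]
    refine le_trans ?_ h.size
    gcongr
    · exact (h.b1.bal t ht).NN_le c (by linarith)
    · exact (h.b2.bal t' ht').NN_le c (by linarith)
  · refine (((h.bal.mul (h.b1.bal t ht) N0 (by linarith)).mul (h.b2.bal t' ht') (by positivity)
      (by linarith)) φ).trans ?_
    have e := Real.rpow_le_rpow (by positivity) h.size (show 0 ≤ 1 / rk k K by positivity)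
    rw [show NN (sp τ) * (C ^ rk k K * y₁) * (C ^ rk k K * y₂) =
      (C * C) ^ rk k K * (NN (sp τ) * y₁ * y₂) by rw [Real.mul_rpow (by linarith) (by linarith)]; ring,
      Real.mul_rpow (by positivity) (by positivity), ← Real.rpow_mul (by positivity),
      mul_one_div_cancel hr, Real.rpow_one] at e
    rw [mul_assoc C C C, mul_assoc]
    exact mul_le_mul_of_nonneg_left e (by linarith)

end Arch

end Pool.Agent.P.MP_b8021b_nt.BP
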