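import Pool.Agent.P.MP_b8021b_nt.BS.PFE1
import Pool.Agent.P.MP_b8021b_nt.BS.PoiAv

/-!
Definitions for the theorem that over every number field containing a square root of minus one a
positive proportion of the quadratic twists of a curve `y ^ 2 = x ^ 3 + b x` have rank zero and
analytic rank zero. See h91_bsdpos.md in the team store for the mathematics.
-/

namespace Pool.Agent.P.MP_b8021b_nt.BP

open NumberField IsDedekindDomain Finset MeasureTheory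
open Pool.Agent.P.MP_b8021b_nt.VE Pool.Agent.P.MP_b8021b_nt.VC Pool.Agent.P.MP_b8021b_nt.BS.CF
open Pool.Agent.P.MP_b8021b_nt.BS
open scoped Classical ComplexConjugate Real

noncomputable section

/-! ### smooth cuts -/

/-- a smooth step, one on the negative reals and zero from one on -/
def St (u : ℝ) : ℝ := Real.smoothTransition (1 - u)

/-- the exponent attached to a frequency -/
def sx (ℓ a : ℝ) : ℂ := (1 + a * Complex.I) / ℓ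

/-- the Fourier representation of the step -/
structure FR (h : ℝ → ℂ) : Prop where
  cont : Continuous h
  int : ∀ j : ℕ, Integrable fun a => (1 + |a|) ^ j * ‖h a‖
  rep : ∀ y ℓ : ℝ, 0 < y → 0 < ℓ → (St (Real.log y / ℓ) : ℂ) = ∫ a, h a * (y : ℂ) ^ (-sx ℓ a)
  lip : ∃ C : ℝ, 1 ≤ C ∧ ∀ u u', |St u - St u'| ≤ C * |u - u'|

/-- a weight with a Fourier representation -/
structure Wt (ℓ Z : ℝ) (W H : ℝ → ℂ) (σ : ℂ) : Prop where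
  re : 0 ≤ σ.re
  int : Integrable H
  rep : ∀ y : ℝ, 1 ≤ y → W y = ∫ b, H b * (y : ℂ) ^ (-(σ + sx ℓ b))
  zero : ∀ y, Z ≤ y → W y = 0

/-- the weight of the approximate functional equation -/
def Vw (f : ℝ → ℝ) (ℓ Y y : ℝ) : ℝ :=
  ∫ z in Set.Ioc 0 (Real.exp ℓ), St (Real.log (y / (z * Y)) / ℓ) * f z

/-- the truncated Mellin transform of the kernel -/
def ftl (f : ℝ → ℝ) (ℓ b : ℝ) : ℂ := ∫ z in Set.Ioc 0 (Real.exp ℓ), (z : ℂ) ^ sx ℓ b * f z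

/-- the weight before the truncation -/
def Vf (f : ℝ → ℝ) (ℓ Y y : ℝ) : ℝ := ∫ z in Set.Ioi 0, St (Real.log (y / (z * Y)) / ℓ) * f z

/-- the density of the weight -/
def Hv (h : ℝ → ℂ) (f : ℝ → ℝ) (ℓ Y ρ b : ℝ) : ℂ := h b * ftl f ℓ b * ((ρ / Y : ℝ) : ℂ) ^ (-sx ℓ b)

/-- the weight of the second moment -/
def Wb2 (ℓ Y b y : ℝ) : ℂ := St (Real.log (y / Y) / ℓ) * (y : ℂ) ^ (-sx ℓ b)

/-- bounded and Lipschitz in the logarithm on `[1, ∞)`, zero beyond `Z` -/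
structure LL (ω : ℝ → ℂ) (Λ Z : ℝ) : Prop where
  bd : ∀ y, 1 ≤ y → ‖ω y‖ ≤ Λ
  lip : ∀ y y', 1 ≤ y → 1 ≤ y' → ‖ω y - ω y'‖ ≤ Λ * |Real.log y - Real.log y'|
  zero : ∀ y, Z < y → ω y = 0

/-- the same on the positive reals, with support in `[T, Z]` -/
structure LC (ω : ℝ → ℂ) (Λ T Z : ℝ) : Prop where
  bd : ∀ y, ‖ω y‖ ≤ Λ
  lip : ∀ y y', 0 < y → 0 < y' → ‖ω y - ω y'‖ ≤ Λ * |Real.log y - Real.log y'|
  supp : ∀ y, ω y ≠ 0 → T ≤ y ∧ y ≤ Z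

/-- the determinant of the chirp -/
def chD (ε : ℝ) (g : ℂ) : ℝ := ε ^ 2 + 4 / ‖g‖ ^ 2

/-- the Fourier transform of the chirp -/
def chp (ε : ℝ) (g ξ : ℂ) : ℂ :=
  ((2 * √(chD ε g))⁻¹ * Real.exp (-(2 * π) * ε * ‖ξ‖ ^ 2 / chD ε g) : ℝ) *
    Complex.exp (-(2 * π * Complex.I) * (2 * (g * ξ ^ 2).re / (‖g‖ ^ 2 * chD ε g) : ℝ))

/-- the threshold of the Redei moment -/
def D0 (y : ℝ) : ℝ := Real.exp (Real.exp √(Real.log (Real.log y)))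

/-! ### places and ideals -/

section Pl

variable {K : Type} [Field K] [NumberField K]

/-- the norm of a place -/
abbrev nv (v : Pl K) : ℝ := NN v.asIdeal

/-- the norm of a product of places -/
abbrev nS (S : Finset (Pl K)) : ℝ := NN (eI S)

theorem finite_pl (K : Type) [Field K] [NumberField K] (m : ℕ) :
    {v : Pl K | Ideal.absNorm v.asIdeal ≤ m}.Finite :=
  (Ideal.finite_setOfPred_absNorm_le (S := 𝓞 K) m).preimage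
    (f := fun v : Pl K => v.asIdeal) fun _ _ _ _ e => HeightOneSpectrum.ext e

/-- the places with norm in `(a, b]` -/
def pls (K : Type) [Field K] [NumberField K] (a b : ℝ) : Finset (Pl K) :=
  (finite_pl K ⌊b⌋₊).toFinset.filter fun v => a < nv v ∧ nv v ≤ b

/-- the nonzero ideals of norm at most `b` -/
def ids (K : Type) [Field K] [NumberField K] (b : ℝ) : Finset (Ideal (𝓞 K)) :=
  (Ideal.finite_setOfPred_absNorm_le (S := 𝓞 K) ⌊b⌋₊).toFinset.filter fun I => I ≠ ⊥ ∧ NN I ≤ b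

/-- the places that divide an ideal -/
def prI (I : Ideal (𝓞 K)) : Finset (Pl K) := if h : I = ⊥ then ∅ else (finite_cnt h).toFinset

/-- the ideals of norm at most `b` with all prime factors over `n` -/
def sm (K : Type) [Field K] [NumberField K] (n : ℕ) (b : ℝ) : Finset (Ideal (𝓞 K)) :=
  (ids K b).filter fun I => ∀ v ∈ prI I, Dv n v

/-- the finite set of places of the Euler products -/
def PP (K : Type) [Field K] [NumberField K] (ℓ : ℝ) : Finset (Pl K) := pls K 0 (Real.exp (ℓ ^ 2))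

/-- odd places where `ζ` is a square -/
def Sens (ζ : K) (v : Pl K) : Prop := ¬ Dv 2 v ∧ LP 2 v ζ

/-- odd places where `ζ` is not a square -/
def Ins (ζ : K) (v : Pl K) : Prop := ¬ Dv 2 v ∧ ¬ LP 2 v ζ

/-- the product has an odd valuation at an odd place -/
def Od2 (z z' : 𝓞 K) : Prop := ∃ v : Pl K, ¬ Dv 2 v ∧ Odd (od v ((z * z' : 𝓞 K) : K))

/-- the logarithmic weight of a set of places -/
def lw (S : Finset (Pl K)) : ℝ := ∑ v ∈ S, Real.log (nv v) / nv v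

/-- the real valued symbol -/
def lr (x : 𝓞 K) (v : Pl K) : ℝ := (leg x v).re

/-- the majorant of the sieve -/
def sv (𝒰 : Finset (Pl K)) (ℓ : ℝ) (γ : 𝓞 K) : ℝ :=
  ∑ S ∈ 𝒰.powerset, if γ ∈ eI S then (-1) ^ S.card * St (Real.log (nS S) / ℓ) else 0

/-! ### Dirichlet polynomials and their Euler products -/

/-- the completely multiplicative function with given values at the places -/
def sg (x : Pl K → ℂ) (I : Ideal (𝓞 K)) : ℂ := if I = ⊥ then 0 else ∏ᶠ v : Pl K, x v ^ cnt v I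

/-- a vector of signs -/
def Sgn (x : Pl K → ℂ) : Prop := ∀ v, x v = 0 ∨ x v = 1 ∨ x v = -1

/-- the long polynomial -/
def Aw (χ : Ideal (𝓞 K) → ℂ) (x : Pl K → ℂ) (W : ℝ → ℂ) (Z : ℝ) : ℂ :=
  ∑ J ∈ ids K Z, χ J * sg x J * W (NN J) / (√(NN J) : ℝ)

/-- the mollifier -/
def Mw (Ψ : Ideal (𝓞 K) → ℂ) (x : Pl K → ℂ) (ℓ : ℝ) : ℂ :=
  ∑ S ∈ (pls K 0 (Real.exp ℓ)).powerset,
    (-1) ^ S.card * Ψ (eI S) * sg x (eI S) * (St (Real.log (nS S) / ℓ) / √(nS S) : ℝ)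

/-- the local coefficient -/
def cf (χ : Ideal (𝓞 K) → ℂ) (s : ℂ) (v : Pl K) : ℂ := χ v.asIdeal * (nv v : ℂ) ^ (-(1 / 2 + s))

/-- the even part of the local factor -/
def Ev (a b : ℂ) : ℂ := (1 - a * b) / (1 - b ^ 2)

/-- the odd part of the local factor -/
def Od (a b : ℂ) : ℂ := (b - a) / (1 - b ^ 2)

/-- the product of the even parts -/
def EvP (χ Ψ : Ideal (𝓞 K) → ℂ) (ℓ a b : ℝ) (𝒬 : Finset (Pl K)) : ℂ :=
  ∏ v ∈ 𝒬, Ev (cf Ψ (sx ℓ a) v) (cf χ (sx ℓ b) v)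

/-- the product of the odd parts -/
def OdP (χ Ψ : Ideal (𝓞 K) → ℂ) (ℓ a b : ℝ) (S : Finset (Pl K)) : ℂ :=
  ∏ v ∈ S, Od (cf Ψ (sx ℓ a) v) (cf χ (sx ℓ b) v)

/-- the coefficient of the symbol at `S` in the mollified polynomial -/
def dd (χ Ψ : Ideal (𝓞 K) → ℂ) (H h : ℝ → ℂ) (ℓ : ℝ) (𝒰 S 𝒱 : Finset (Pl K)) : ℂ :=
  ∫ p : ℝ × ℝ, H p.1 * h p.2 * (OdP χ Ψ ℓ p.2 p.1 S * EvP χ Ψ ℓ p.2 p.1 ((𝒰 \ S) \ 𝒱))

/-- the central value -/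
def Lam (f : ℝ → ℝ) (Ψ : Ideal (𝓞 K) → ℂ) (t : 𝓞 K) : ℂ := ∫ τ in Set.Ioi (0 : ℝ), Tw f Ψ t τ / τ

/-- the finite Fourier transform with dual variable in the ring of integers -/
def hatM (M : 𝓞 K) (φ : 𝓞 K → ℂ) (ν : 𝓞 K) : ℂ :=
  ft (sp M) φ ((ν : K) / M) / (Ideal.absNorm (sp M) : ℂ)

/-- the integral ideal `n` times the inverse different -/
def dI (K : Type) [Field K] [NumberField K] (n : ℕ) : Ideal (𝓞 K) where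
  carrier := {κ | (κ : K) / n ∈ Dual (⊤ : Ideal (𝓞 K))}
  add_mem' ha hb := by
    simpa only [Set.mem_ofPred_eq, map_add, add_div] using Dual.add ha hb
  zero_mem' := by simpa using coe_mem_dual (⊤ : Ideal (𝓞 K)) 0
  smul_mem' c x hx := by
    have := Dual.mul hx c
    rwa [div_mul_eq_mul_div, mul_comm, ← map_mul] at this

/-- representatives of the ray classes that are places -/
def Reps (N : ℕ) (ℛ : Finset (Pl K)) : Prop :=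
  ∀ I, Cop N I → ∃! v, v ∈ ℛ ∧ ∃ γ : 𝓞 K, (N : 𝓞 K) ∣ γ - 1 ∧ I * v.asIdeal = sp γ

/-- two moduli and two systems of representatives -/
structure Good2 (n₀ n : ℕ) (ℛ ℛ' : Finset (Pl K)) : Prop where
  g0 : Good K n₀
  g : Good K n
  dvd : 4 * n₀ ^ 2 ∣ n
  rep : Reps (4 * n₀ ^ 2) ℛ
  rep' : Reps (4 * n₀ ^ 2) ℛ'
  mem : ∀ v ∈ ℛ ∪ ℛ', Dv n v ∧ ¬ Dv n₀ v
  disj : Disjoint ℛ ℛ'

/-! ### Selmer conditions -/

/-- a group of local conditions over two that contains the images of the points -/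
structure Grp2 (ζ : K) (𝓛 : K → Prop) : Prop where
  ne : ∀ c, 𝓛 c → c ≠ 0
  loc : ∀ c, c ≠ 0 → Loc ζ c → 𝓛 c
  mul : ∀ a c, 𝓛 a → 𝓛 c → 𝓛 (a * c)
  lp : ∀ u, u ≠ 0 → (∀ v : Pl K, Dv 2 v → LP 2 v u) → 𝓛 u
  iso : ∀ a c, 𝓛 a → 𝓛 c → ∀ v : Pl K, Dv 2 v → LN 2 v a c

/-- the set `V` kills the Selmer group -/
def Kill (ζ : K) (𝓛 : K → Prop) (V : Finset (Pl K)) : Prop :=
  (∀ v ∈ V, Sens ζ v) ∧ ∀ c, 𝓛 c → (∀ v, ¬ Dv 2 v → v ∉ V → Even (od v c)) →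
    (∀ v ∈ V, Even (od v c) → LP 2 v c) → IsSquare c ∨ IsSquare (ζ * c)

/-- the local condition at a sensitive place that divides the twist -/
def Lin (ζ : K) (v : Pl K) (T c : K) : Prop :=
  LP 2 v c ∨ ∃ s : K, vl v (s ^ 2 - ζ) < 1 ∧ LP 2 v (c * s * T)

/-- a class that is ramified exactly at `D` outside two and `V` -/
def Rel (ζ : K) (𝓛 : K → Prop) (V : Finset (Pl K)) (t₀ : K) (D : Finset (Pl K)) (c : K) : Prop :=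
  𝓛 c ∧ (∀ v, ¬ Dv 2 v → v ∉ V → (Odd (od v c) ↔ v ∈ D)) ∧ ∀ v ∈ V, Lin ζ v t₀ c

/-- the Selmer group of the twist by `T` is unramified at `Γ` -/
def Unr (ζ : K) (𝓛 : K → Prop) (V : Finset (Pl K)) (t₀ : K) (Γ : Finset (Pl K)) (T : K) : Prop :=
  ∀ D c, D ⊆ Γ → Rel ζ 𝓛 V t₀ D c → (∀ v ∈ Γ, Lin ζ v T c) → D = ∅

/-- the probability that `D` lies in the kernel -/
def pik (r : Finset (Pl K) → Prop) (z : Finset (Pl K) → 𝓞 K) (D Γ : Finset (Pl K)) : ℝ :=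
  if r D then (2 ^ D.card)⁻¹ * ∏ v ∈ Γ \ D, (1 + lr (z D) v) / 2 else 0

/-- the expected number of nonzero kernel elements that avoid `q` -/
def Yv (r : Finset (Pl K) → Prop) (z : Finset (Pl K) → 𝓞 K) (Γ : Finset (Pl K)) (q : Pl K) : ℝ :=
  ∑ D ∈ Γ.powerset.erase ∅, pik r z D Γ * ((1 + lr (z D) q) / 2)

/-- a function on the sign vectors -/
def wF (F : Finset (Pl K) → ℝ) (Γ : Finset (Pl K)) (u : 𝓞 K) : ℂ :=
  ∑ D ∈ Γ.powerset, F D * jac u (eI D)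

/-- the bilinear form over two blocks -/
def bs (T₁ T₂ : Finset (𝓞 K)) (a₁ a₂ : 𝓞 K → ℂ) (F : Finset (Pl K) → ℝ) (Γ : Finset (Pl K))
    (c : Finset (Pl K) → ℂ) (𝒮 : Finset (Finset (Pl K))) : ℂ :=
  ∑ t ∈ T₁, ∑ t' ∈ T₂, a₁ t * a₂ t' * wF F Γ (t * t') * ∑ S ∈ 𝒮, c S * jac (t * t') (eI S)

/-- a mean square bound for bounded coefficients -/
def MS (T : Finset (𝓞 K)) (𝒩 : Finset (Ideal (𝓞 K))) (Δ : ℝ) : Prop :=
  ∀ a : 𝓞 K → ℂ, (∀ t, ‖a t‖ ≤ 1) → ∑ I ∈ 𝒩, ‖∑ t ∈ T, a t * jac t I‖ ^ 2 ≤ Δ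

/-- admissible coefficients -/
structure Adc (n : ℕ) (Γ : Finset (Pl K)) (a₁ a₂ : 𝓞 K → ℂ) (F : Finset (Pl K) → ℝ)
    (c : Finset (Pl K) → ℂ) : Prop where
  a1 : ∀ t, ‖a₁ t‖ ≤ 1
  a2 : ∀ t, ‖a₂ t‖ ≤ 1
  par : ∑ D ∈ Γ.powerset, F D ^ 2 ≤ 1
  bd : ∀ S, ‖c S‖ ≤ 4 ^ S.card / √(nS S)
  supp : ∀ S, c S ≠ 0 → Disjoint S Γ ∧ ∀ v ∈ S, ¬ Dv n v

/-- a bounded character that vanishes over `n` -/
structure Ch (n : ℕ) (χ : Ideal (𝓞 K) →* ℂ) : Prop where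
  bd : ∀ I, ‖χ I‖ ≤ 1
  zero : ∀ v : Pl K, Dv n v → χ v.asIdeal = 0

/-- the weight of a place in the Redei moment -/
def gg (v : Pl K) : ℝ := (2 * nv v + 1)⁻¹

/-- the weight of a set of places -/
def gS (D : Finset (Pl K)) : ℝ := ∏ v ∈ D, gg v

/-- the normalising factor -/
def GG (𝒮 : Finset (Pl K)) : ℝ := ∏ v ∈ 𝒮, (1 + gg v)⁻¹

/-- the total mass -/
def Z0 (𝒰 : Finset (Pl K)) : ℝ := ∏ v ∈ 𝒰, (1 + (nv v)⁻¹)

/-- the rough parts that are kept -/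
def TT (K : Type) [Field K] [NumberField K] (W y u : ℝ) : Finset (Finset (Pl K)) :=
  (pls K W y).powerset.filter fun τ => nS τ ≤ y ^ u ∧ lw τ ≤ 1

/-- the last prime -/
def QQ (ζ : K) (y : ℝ) : Finset (Pl K) := (pls K y (y ^ 2)).filter (Sens ζ)

/-- a bilinear bound for all dyadic blocks -/
def KB (κ : Finset (Pl K) → Finset (Pl K) → ℂ) (𝒮 : Finset (Pl K)) (C : ℝ) : Prop :=
  ∀ (M N : ℝ) (𝒟 ℰ : Finset (Finset (Pl K))), 1 ≤ M → 1 ≤ N →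
    (∀ D ∈ 𝒟, D ⊆ 𝒮 ∧ M < nS D ∧ nS D ≤ 2 * M) → (∀ E ∈ ℰ, E ⊆ 𝒮 ∧ N < nS E ∧ nS E ≤ 2 * N) →
    ‖∑ D ∈ 𝒟, ∑ E ∈ ℰ, κ D E * (gS D * gS E : ℝ)‖ ≤
      C * √(if N ≤ M then ∑ D ∈ 𝒟, gS D else ∑ E ∈ ℰ, gS E) * min M N ^ (-(1 / 8 : ℝ))

/-- data for the classes attached to the sets of places -/
structure RD (K : Type) [Field K] where
  N : ℕ
  W : ℝ
  C : ℝ
  cl : Finset (Pl K) → Pl K
  ω : Pl K → 𝓞 K
  β : Finset (Pl K) → 𝓞 K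
  rel : Pl K → Prop

/-- the class attached to a set of places -/
def RD.z (d : RD K) (D : Finset (Pl K)) : 𝓞 K := d.ω (d.cl D) * d.β D

/-- the class exists -/
def RD.r (d : RD K) (D : Finset (Pl K)) : Prop := d.rel (d.cl D)

/-- the kernel of the Redei moment -/
def RD.κ (d : RD K) (D E : Finset (Pl K)) : ℂ := if d.r D then jac (d.z D) (eI E) else 0

/-- data for the family of twists -/
structure Fm (K : Type) [Field K] where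
  y : ℝ
  yq : ℝ
  𝒥 : Finset ℕ
  τ : Finset (Pl K) → 𝓞 K
  y₁ : Finset (Pl K) → ℕ → ℝ
  y₂ : ℕ → ℝ
  T₁ : Finset (Pl K) → ℕ → Finset (𝓞 K)
  T₂ : ℕ → Finset (𝓞 K)

/-- the sum over the family -/
def Fm.sum (Φ : Fm K) (ζ : K) (W u : ℝ) (g : Finset (Pl K) → Pl K → 𝓞 K → 𝓞 K → ℂ) : ℂ :=
  ∑ S ∈ TT K W Φ.y u, ∑ q ∈ QQ ζ Φ.yq, ∑ j ∈ Φ.𝒥, ∑ t ∈ Φ.T₁ (insert q S) j, ∑ t' ∈ Φ.T₂ j,
    g S q t t'

/-- what the descent gives for one twist -/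
def SC (ζ t₀ : 𝓞 K) (V : Finset (Pl K)) (d : RD K) : Prop :=
  ∀ (Γ : Finset (Pl K)) (q : Pl K) (τ : 𝓞 K), (∀ v ∈ insert q Γ, Sens (ζ : K) v ∧ d.W < nv v) →
    (∀ v ∈ Γ, ¬ Dv (Ideal.absNorm v.asIdeal) q) → τ ≠ 0 →
    (∀ v, Dv 2 v ∨ v ∈ V → LP 2 v (τ : K)) →
    (∀ v, Sens (ζ : K) v → (Odd (od v (τ : K)) ↔ v ∈ insert q Γ)) →
    ∃ F : Finset (Pl K) → ℝ, ∑ D ∈ (insert q Γ).powerset, F D ^ 2 ≤ 1 ∧ 0 ≤ F ∅ ∧
      (1 - Yv d.r d.z Γ q) / 2 ≤ F ∅ ∧ ∀ u : 𝓞 K, (∀ v ∈ insert q Γ, u ∉ v.asIdeal) →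
        (wF F (insert q Γ) u = 0 ∨ wF F (insert q Γ) u = 1) ∧ (wF F (insert q Γ) u = 1 →
          (∀ v, Dv 2 v ∨ v ∈ V → LP 2 v (u : K)) → (∀ v, Sens (ζ : K) v → Even (od v (u : K))) →
          Finite (Wb (-((ζ : K) * (t₀ * τ * u) ^ 2))).toAffine.Point)

end Pl

/-! ### the archimedean side -/

section Arch

variable (k : Type) [Field k] [NumberField k] [Algebra k ℂ] {K : Type} [Field K] [NumberField K]
  [Algebra k K]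

/-- balanced at the scale `Y` -/
def Bal (C Y : ℝ) (t : 𝓞 K) : Prop := ∀ φ, ‖emb k t φ‖ ^ 2 ≤ C * Y ^ (1 / rk k K)

/-- the exponent of the sieved large sieve -/
def cz (K : Type) [Field K] [Algebra k K] : ℝ := 1 / (100 * rk k K)

/-- the exponent of the second prime -/
def et (K : Type) [Field K] [Algebra k K] : ℝ := 1 / (200 * rk k K)

/-- the exponent of the mollifier -/
def la (K : Type) [Field K] [Algebra k K] : ℝ := 1 / (10000 * rk k K)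

/-- the logarithmic length of the mollifier -/
def el (K : Type) [Field K] [Algebra k K] (X : ℝ) : ℝ := la k K * Real.log X

/-- the lower end of the cut -/
def Y0 (K : Type) [Field K] [Algebra k K] (X : ℝ) : ℝ := √X * Real.exp (-el k K X / 2)

/-- the length of the long polynomial -/
def ZZ (K : Type) [Field K] [Algebra k K] (X : ℝ) : ℝ := Y0 k K X * Real.exp (4 * el k K X)

/-- the Gaussian weight at the scale `X` -/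
def gX (X : ℝ) (x : 𝓞 K) : ℝ := gau (fun _ => X ^ (-(1 / rk k K))) (emb k x)

/-- the mass of the Gaussian weight -/
def cW (K : Type) [Field K] [NumberField K] [Algebra k K] : ℝ :=
  (cov2 k K * 2 ^ Module.finrank k K)⁻¹

/-- the nonzero frequencies for a squarefree modulus -/
def Re2 (X : ℝ) (e q : Ideal (𝓞 K)) : ℂ :=
  SS k e q X - if q = ⊤ then ((cW k K * X / NN e : ℝ) : ℂ) else 0

/-- the nonzero frequencies for any modulus -/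
def RJ (X : ℝ) (J : Ideal (𝓞 K)) : ℂ :=
  SS k ⊤ J X - (cW k K * X : ℝ) * PoiN.av J fun x => jac x J

/-- the hypotheses on the data -/
structure RD.Ok (d : RD K) : Prop where
  two : 2 ≤ d.N
  eight : 8 ∣ d.N
  one_le : 1 ≤ d.C
  dv : ∀ v : Pl K, Dv d.N v → nv v ≤ d.W
  cl_le : ∀ D, nv (d.cl D) ≤ d.W
  ω_ne : ∀ D, d.ω (d.cl D) ≠ 0
  ω_pr : ∀ D, ∀ v : Pl K, d.ω (d.cl D) ∈ v.asIdeal → nv v ≤ d.W
  ω_le : ∀ D, NN (sp (d.ω (d.cl D))) ≤ d.C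
  gen : ∀ D, (∀ v ∈ D, d.W < nv v) → eI D * (d.cl D).asIdeal = sp (d.β D) ∧
    (d.N : 𝓞 K) ∣ d.β D - 1 ∧ Bal k d.C (nS D) (d.β D)
  ray : ∀ D D', (∀ v ∈ D, d.W < nv v) → (∀ v ∈ D', d.W < nv v) →
    (d.cl D = d.cl D' ↔ Ray d.N (eI D) (eI D'))

/-- a block of twists, each a prime times auxiliary primes -/
structure Blk (n : ℕ) (𝒜 : Finset (Pl K)) (C y : ℝ) (T : Finset (𝓞 K)) : Prop where
  pri : ∀ t ∈ T, Pri (n ^ 2) t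
  bal : ∀ t ∈ T, Bal k C y t
  dec : ∀ t ∈ T, ∃ (v : Pl K) (a : Finset (Pl K)), a ⊆ 𝒜 ∧ a.card ≤ 2 ∧
    sp t = v.asIdeal * eI a ∧ √y < nv v ∧ nv v ≤ y
  inj : Set.InjOn sp (T : Set (𝓞 K))

/-- two blocks and a set of places -/
structure Pair (n : ℕ) (𝒜 : Finset (Pl K)) (C X : ℝ) (Γ : Finset (Pl K)) (y₁ y₂ : ℝ)
    (T₁ T₂ : Finset (𝓞 K)) : Prop where
  b1 : Blk k n 𝒜 C y₁ T₁
  b2 : Blk k n 𝒜 C y₂ T₂
  cop : ∀ v ∈ Γ, ¬ Dv n v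
  small : nS Γ ≤ X ^ (et k K * cz k K / 2)
  lo2 : X ^ et k K ≤ y₂
  hi2 : y₂ ≤ X ^ (2 * et k K)
  lo1 : X ^ (1 - et k K / 100) ≤ y₁ * y₂
  hi1 : y₁ ≤ X

/-- a cell of the family -/
structure Cell (n : ℕ) (𝒜 : Finset (Pl K)) (C X : ℝ) (Γ : Finset (Pl K)) (τ : 𝓞 K) (y₁ y₂ : ℝ)
    (T₁ T₂ : Finset (𝓞 K)) : Prop extends Pair k n 𝒜 C X Γ y₁ y₂ T₁ T₂ where
  pri : Pri (n ^ 2) τ
  sub : Γ ⊆ pr τ
  bal : Bal k C (NN (sp τ)) τ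
  c1 : ∀ t ∈ T₁, IsCoprime τ t
  c2 : ∀ t ∈ T₂, IsCoprime τ t
  c12 : ∀ t ∈ T₁, ∀ t' ∈ T₂, IsCoprime t t'
  size : NN (sp τ) * (C ^ rk k K * y₁) * (C ^ rk k K * y₂) ≤ X
  tame : ∀ t ∈ T₁, ∀ t' ∈ T₂, lw (pr (τ * t * t')) ≤ C

/-- the hypotheses on the family -/
structure Fm.Ok (Φ : Fm K) (ζ : K) (n : ℕ) (𝒜 : Finset (Pl K)) (C B c W u X : ℝ) : Prop where
  cell : ∀ S ∈ TT K W Φ.y u, ∀ q ∈ QQ ζ Φ.yq, ∀ j ∈ Φ.𝒥,
    Cell k n 𝒜 C X (insert q (S.filter (Sens ζ))) (Φ.τ (insert q S)) (Φ.y₁ (insert q S) j) (Φ.y₂ j)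
      (Φ.T₁ (insert q S) j) (Φ.T₂ j)
  prod : ∀ S ∈ TT K W Φ.y u, ∀ q ∈ QQ ζ Φ.yq, ∀ j ∈ Φ.𝒥,
    B * (nS S * nv q) * (Φ.y₁ (insert q S) j * Φ.y₂ j) = X
  many : ∀ S ∈ TT K W Φ.y u, ∀ q ∈ QQ ζ Φ.yq, ∀ j ∈ Φ.𝒥,
    c * Φ.y₁ (insert q S) j / Real.log X ≤ (Φ.T₁ (insert q S) j).card ∧
      c * Φ.y₂ j / Real.log X ≤ (Φ.T₂ j).card
  big : W ≤ Φ.yq
  alone : ∀ S ∈ TT K W Φ.y u, ∀ q ∈ QQ ζ Φ.yq, ∀ v ∈ S, ¬ Dv (Ideal.absNorm v.asIdeal) q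
  sens : ∀ S ∈ TT K W Φ.y u, ∀ q ∈ QQ ζ Φ.yq, ∀ v, Sens ζ v →
    (Φ.τ (insert q S) ∈ v.asIdeal ↔ v ∈ insert q S)
  ins : ∀ S ∈ TT K W Φ.y u, ∀ q ∈ QQ ζ Φ.yq, ∀ j ∈ Φ.𝒥, ∀ t ∈ Φ.T₁ (insert q S) j ∪ Φ.T₂ j,
    ∀ v, Sens ζ v → t ∉ v.asIdeal
  inj : ∀ S ∈ TT K W Φ.y u, ∀ q ∈ QQ ζ Φ.yq, ∀ j ∈ Φ.𝒥, ∀ t₁ ∈ Φ.T₁ (insert q S) j, ∀ t₂ ∈ Φ.T₂ j,
    ∀ S' ∈ TT K W Φ.y u, ∀ q' ∈ QQ ζ Φ.yq, ∀ j' ∈ Φ.𝒥, ∀ t₁' ∈ Φ.T₁ (insert q' S') j',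
    ∀ t₂' ∈ Φ.T₂ j', sp (Φ.τ (insert q S) * t₁ * t₂) = sp (Φ.τ (insert q' S') * t₁' * t₂') →
      S = S' ∧ q = q' ∧ j = j' ∧ t₁ = t₁' ∧ t₂ = t₂'

/-- the functional equation with one dual series -/
structure FE3 (n : ℕ) (Ψ : Ideal (𝓞 K) →* ℂ) (f : ℝ → ℝ) (Ct : Ideal (𝓞 K) → ℂ) (γ : ℂ)
    (c₀ A : ℝ) : Prop where
  ker : Ker f
  pos : 0 < c₀
  bd : ∀ I, ‖Ct I‖ ≤ A
  cov : ∀ I 𝔮, Cop n 𝔮 → Ct (I * 𝔮) = Ct I * conj (Ψ 𝔮)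
  fe : ∀ t, Pri (n ^ 2) t → ∀ τ, 0 < τ →
    Tw f Ψ t τ = eps k t * γ * Tw f Ct t (c₀ / (τ * NN (sp t)))

/-- the coefficients of the dual series -/
def ctd (n : ℕ) (Ψ : Ideal (𝓞 K) →* ℂ) (I : Ideal (𝓞 K)) : ℂ :=
  (NN I : ℝ) * PoiN.av (sp ((n ^ 3 : ℕ) : 𝓞 K) * I) fun y =>
    PFE1.co k Ψ I y * etr ((y : K) / ((n ^ 3 : ℕ) : 𝓞 K))

/-- the long polynomial at the scale `X` -/
def AX (χ : Ideal (𝓞 K) → ℂ) (f : ℝ → ℝ) (X ρ : ℝ) (t : 𝓞 K) : ℂ :=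
  Aw χ (leg t) (fun y => Vw f (el k K X) (Y0 k K X) (ρ * y)) (ZZ k K X)

/-- the mollifier at the scale `X` -/
def MX (Ψ : Ideal (𝓞 K) → ℂ) (X : ℝ) (t : 𝓞 K) : ℂ := Mw Ψ (leg t) (el k K X)

/-- the coefficients at the scale `X` -/
def dX (χ Ψ : Ideal (𝓞 K) → ℂ) (H h : ℝ → ℂ) (X : ℝ) (S 𝒱 : Finset (Pl K)) : ℂ :=
  dd χ Ψ H h (el k K X) (PP K (el k K X)) S 𝒱

/-- the two sides of the approximate functional equation -/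
def AB (n : ℕ) (Ψ : Ideal (𝓞 K) →* ℂ) (f : ℝ → ℝ) (Ct : Ideal (𝓞 K) → ℂ) (γ : ℂ) (c₀ X : ℝ)
    (t : 𝓞 K) : ℂ :=
  AX k Ψ f X 1 t + eps k t * γ * ∑ I ∈ sm K n (ZZ k K X),
    Ct I / (√(NN I) : ℝ) * AX k (cj Ψ) f X (c₀ * NN I * X / NN (sp t)) t

variable {k} {m : ℕ} {ℓ : ℝ}

/-- the test function of the off diagonal terms -/
def gz (U : UB k K m ℓ) (ω : ℝ → ℂ) (η : Emb k K → ℝ) (ξ z : Emb k K → ℂ) : ℂ :=
  U.β z * dP z * (ω (nz z) / (nz z : ℝ)) * (gau (fun φ => η φ / ‖z φ‖ ^ 2) ξ : ℝ)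

/-- a test function on the fundamental domain -/
structure TF (U : UB k K m ℓ) (G : (Emb k K → ℂ) → ℂ) (Λ T Z : ℝ) : Prop where
  supp : ∀ z, G z ≠ 0 → U.β z ≠ 0 ∧ T ≤ nz z ∧ nz z ≤ Z
  bd : ∀ z, ‖G z‖ ≤ Λ
  lip : ∀ (z z' : Emb k K → ℂ) (δ : ℝ), (∀ φ, z φ ≠ 0) → 0 ≤ δ → δ ≤ 1 / 2 →
    (∀ φ, ‖z' φ - z φ‖ ≤ δ * ‖z φ‖) → ‖G z' - G z‖ ≤ Λ * δ
  int : ∫ z, G z = 0

end Arch

/-- the standing hypotheses with the results on reciprocity, theta series and large sieves -/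
structure Cx (k : Type) [Field k] [NumberField k] [Algebra k ℂ] (K : Type) [Field K]
    [NumberField K] [Algebra k K] : Prop extends Ctx k K where
  rc : X_Rec K
  val : X_Val K
  iso : X_Iso K
  fin : X_Fin K
  good : X_Good K
  cls : X_Cls K
  cnt : X_Cnt K
  bal2 : X_Bal2 k K
  nvh : X_NVH k K
  g1 : X_G1 K
  g2 : X_G2 K
  g3 : X_G3 k K
  thb : X_ThB K
  gs : X_GS k K
  t1 : X_T1 k K
  km : X_KM k K
  gn : X_Gn k K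
  sq0 : X_Sq0 k K
  sq1 : X_Sq1 k K
  ls1 : X_LS1 k K
  ls0 : X_LS0 k K
  nv2 : Z_NV2
  nvc : Z_NVc
  lat : S_Lat

end

end Pool.Agent.P.MP_b8021b_nt.BP
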