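import Pool.Agent.P.MP_b8021b_nt.BP.StC

/-! The coefficients of the dual series. -/

namespace Pool.Agent.P.MP_b8021b_nt.BP

open NumberField IsDedekindDomain Finset MeasureTheory
open Pool.Agent.P.MP_b8021b_nt.VE Pool.Agent.P.MP_b8021b_nt.VC Pool.Agent.P.MP_b8021b_nt.BS.CF
open Pool.Agent.P.MP_b8021b_nt.BS
open scoped Classical ComplexConjugate Real

variable {k : Type} [Field k] [NumberField k] [Algebra k ℂ] {K : Type} [Field K] [NumberField K]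
  [Algebra k K]

namespace PCOV

open PoiN PFE1

variable {n : ℕ} {Ψ : Ideal (𝓞 K) →* ℂ} {I : Ideal (𝓞 K)}

theorem step (hn : 2 ≤ n) (hΨ : IsP k n Ψ) (h0 : I ≠ ⊥) {β β' : 𝓞 K}
    (hβ : β ∈ I) (hβ' : β' ∈ I) (e : β' - β ∈ sp (n : 𝓞 K) * I) (hI : Cop n (quo β I)) :
    Cop n (quo β' I) ∧
      Ψ (quo β I) * conj (dP (emb k β)) = Ψ (quo β' I) * conj (dP (emb k β')) := by
  have q := quo_mul (exists_quo hβ)
  have q' := quo_mul (exists_quo hβ')
  obtain ⟨D, hD, hD1⟩ : ∃ D ∈ quo β I, (n : 𝓞 K) ∣ D - 1 := by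
    obtain ⟨a, ha, b, hb, hab⟩ := Ideal.isCoprime_iff_exists.1 hI
    exact ⟨a, ha, by
      rw [show a - 1 = -b by linear_combination hab]
      exact (Ideal.mem_span_singleton.1 hb).neg_right⟩
  have b0 : β ≠ 0 := fun h => mul_ne_zero (Cop_ne_bot hn hI) h0 (by rw [q, h]; simp [sp])
  obtain ⟨z, hc, hz⟩ := Ideal.mem_span_singleton_mul.1 e
  obtain ⟨b, hb⟩ : β ∣ D * z := Ideal.mem_span_singleton.1 (q.le (Ideal.mul_mem_mul hD hc))
  have ha : (D + n * b) * β = D * β' := by linear_combination (-(n : 𝓞 K)) * hb + D * hz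
  have a1 : (n : 𝓞 K) ∣ D + n * b - 1 := by
    rw [show D + n * b - 1 = D - 1 + n * b by ring]
    exact hD1.add (dvd_mul_right _ _)
  have hi : sp (D + (n : 𝓞 K) * b) * quo β I = sp D * quo β' I := mul_right_cancel₀ h0 (by
    rw [mul_assoc (sp _), mul_assoc (sp _), q, q', ← sp_mul, ← sp_mul, ha])
  have hI' : Cop n (quo β' I) :=
    (cop_mul.1 (hi ▸ cop_mul.2 ⟨cop_span_of_dvd a1, hI⟩ : Cop n (sp D * quo β' I))).2
  have b0' : β' ≠ 0 := fun h => mul_ne_zero (Cop_ne_bot hn hI') h0 (by rw [q', h]; simp [sp])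
  refine ⟨hI', ?_⟩
  have e1 := congrArg Ψ hi
  rw [map_mul, map_mul, hΨ.prin _ a1, hΨ.prin _ hD1, ← dP_eq_ty, ← dP_eq_ty] at e1
  have e2 := congrArg (fun x => dP (emb k x)) ha
  simp only [emb_mul, dP_mul] at e2
  have c1 := PFE1.conj_mul (k := k) b0
  have c2 := PFE1.conj_mul (k := k) b0'
  have c3 := PFE1.conj_mul (k := k) (ne_zero_of_dvd hn hD1)
  set A := dP (emb k (D + (n : 𝓞 K) * b))
  set B := dP (emb k β)
  set B' := dP (emb k β')
  set E := dP (emb k D)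
  linear_combination (conj E * conj B' * conj B * B) * e1 -
    (conj E * conj B' * conj B * Ψ (quo β I)) * e2 - (Ψ (quo β I) * conj B * conj E * E) * c2 -
    (Ψ (quo β I) * conj B - Ψ (quo β' I) * conj B' * conj B * B) * c3 +
    (Ψ (quo β' I) * conj B') * c1

theorem peri (hn : 2 ≤ n) (hΨ : IsP k n Ψ) (h0 : I ≠ ⊥) :
    Peri (sp (n : 𝓞 K) * I) (co k Ψ I) := fun x y e => by
  have e2 : y - x ∈ sp (n : 𝓞 K) * I := by rw [← neg_sub]; exact neg_mem e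
  have m : x - y ∈ I := Ideal.mul_le_right e
  have hxy : x ∈ I ↔ y ∈ I := ⟨fun h => by simpa using sub_mem h m, fun h => by
    simpa using add_mem m h⟩
  unfold co
  by_cases hx : x ∈ I
  · rw [if_pos hx, if_pos (hxy.1 hx)]
    by_cases h1 : Cop n (quo x I)
    · exact (step hn hΨ h0 hx (hxy.1 hx) e2 h1).2
    · rw [hΨ.zero _ h1, hΨ.zero _ fun h2 => h1 (step hn hΨ h0 (hxy.1 hx) hx e h2).1]
      simp
  · rw [if_neg hx, if_neg fun h => hx (hxy.2 h)]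

/-- comparison of two sums over residue classes -/
theorem sum_eq {J J' : Ideal (𝓞 K)} (hJ : J ≠ ⊥) (hJ' : J' ≠ ⊥) {G G' : 𝓞 K → ℂ} (hG : Per J G)
    (S : Set (𝓞 K)) (f : 𝓞 K → 𝓞 K) (h0 : ∀ y, y ∉ S → G' y = 0) (h1 : ∀ y ∈ S, G' y = G (f y))
    (inj : ∀ y ∈ S, ∀ y' ∈ S, f y - f y' ∈ J → y - y' ∈ J')
    (surj : ∀ x, G x ≠ 0 → ∃ y, ∀ y', y' - y ∈ J' → y' ∈ S ∧ f y' - x ∈ J) :
    (Ideal.absNorm J' : ℂ) * av J' G' = Ideal.absNorm J * av J G := by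
  have := finq hJ
  have := finq hJ'
  have := Fintype.ofFinite (𝓞 K ⧸ J)
  have := Fintype.ofFinite (𝓞 K ⧸ J')
  unfold av
  rw [mul_div_cancel₀ _ (nm_ne hJ), mul_div_cancel₀ _ (nm_ne hJ'), finsum_eq_sum_of_fintype,
    finsum_eq_sum_of_fintype, ← sum_filter_of_ne (p := fun q : 𝓞 K ⧸ J' => q.out ∈ S)
      fun q _ h => not_not.1 fun e => h (h0 _ e)]
  refine sum_of_injOn (fun q => Ideal.Quotient.mk J (f q.out)) ?_ (fun _ _ => mem_coe.2 (mem_univ _))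
    ?_ ?_
  · intro q hq q' hq' e
    have := inj _ (mem_filter.1 hq).2 _ (mem_filter.1 hq').2 (Ideal.Quotient.eq.1 e)
    rw [← Ideal.Quotient.mk_out q, ← Ideal.Quotient.mk_out q']
    exact Ideal.Quotient.eq.2 this
  · intro x _ hx
    by_contra h
    obtain ⟨y, hy⟩ := surj _ h
    obtain ⟨a, b⟩ := hy _ (out_mk J' y)
    exact hx ⟨_, mem_coe.2 (mem_filter.2 ⟨mem_univ _, a⟩),
      (Ideal.Quotient.eq.2 b).trans (Ideal.Quotient.mk_out x)⟩
  · intro q hq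
    rw [h1 _ (mem_filter.1 hq).2]
    exact (hG _ _ (out_mk J _)).symm

theorem norm_av_mono {J : Ideal (𝓞 K)} (hJ : J ≠ ⊥) {g : 𝓞 K → ℂ} {b : 𝓞 K → ℝ}
    (h : ∀ x, ‖g x‖ ≤ b x) : ‖av J g‖ ≤ ‖av J fun x => (b x : ℂ)‖ := by
  have := finq hJ
  have := Fintype.ofFinite (𝓞 K ⧸ J)
  unfold av
  rw [finsum_eq_sum_of_fintype, finsum_eq_sum_of_fintype, norm_div, norm_div,
    ← Complex.ofReal_sum, Complex.norm_real]
  exact div_le_div_of_nonneg_right ((norm_sum_le _ _).trans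
    ((sum_le_sum fun q _ => h _).trans (le_abs_self _))) (norm_nonneg _)

theorem av_one {J : Ideal (𝓞 K)} (hJ : J ≠ ⊥) (h : J ≤ I) :
    (Ideal.absNorm I : ℂ) * av J (fun x => ((if x ∈ I then 1 else 0 : ℝ) : ℂ)) = 1 := by
  have h0 : I ≠ ⊥ := fun e => hJ (le_bot_iff.1 (e ▸ h))
  rw [av_le hJ h fun x y e => by
    have : x ∈ I ↔ y ∈ I := ⟨fun h => by simpa using sub_mem h e, fun h => by
      simpa using add_mem e h⟩
    simp only [this]]
  rw [sum_eq (J := ⊤) top_ne_bot h0 (G := fun _ => 1) (fun _ _ _ => rfl) I id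
    (fun y hy => by rw [if_neg (show y ∉ I from hy)]; simp)
    (fun y hy => by rw [if_pos (show y ∈ I from hy)]; simp)
    (fun y hy y' hy' _ => sub_mem hy hy')
    (fun x _ => ⟨0, fun y' hy' => ⟨by simpa using hy', trivial⟩⟩), av_const top_ne_bot]
  simp

theorem per_etr {M : 𝓞 K} (hM : M ≠ 0) (κ : 𝓞 K) {F : 𝓞 K → ℂ} {J : Ideal (𝓞 K)} (hJ : J ≤ sp M)
    (hF : Peri J F) : Per J fun y => F y * etr ((κ : K) / M * y) := by
  refine Peri.etr hF fun a ha => ?_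
  obtain ⟨b, rfl⟩ := Ideal.mem_span_singleton.1 (hJ ha)
  have h0 : (M : K) ≠ 0 := by simpa using hM
  have := coe_mem_dual ⊤ κ b trivial
  rwa [show (κ : K) / M * (M * b : 𝓞 K) = κ * b by push_cast; field_simp]

theorem M_ne (hG : Good K n) : ((n ^ 3 : ℕ) : 𝓞 K) ≠ 0 := by exact_mod_cast pow_ne_zero 3 hG.pos

omit [NumberField K] in
theorem sp_ne {x : 𝓞 K} (h : x ≠ 0) : sp x ≠ ⊥ := by simpa [sp] using h

theorem per (hG : Good K n) (hΨ : IsP k n Ψ) (h0 : I ≠ ⊥) :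
    Per (sp ((n ^ 3 : ℕ) : 𝓞 K) * I) fun y =>
      co k Ψ I y * etr ((y : K) / ((n ^ 3 : ℕ) : 𝓞 K)) := by
  have h1 : sp ((n ^ 3 : ℕ) : 𝓞 K) * I ≤ sp (n : 𝓞 K) * I := Ideal.mul_mono_left
    (Ideal.span_singleton_le_span_singleton.2 (by push_cast; exact dvd_pow_self _ (by norm_num)))
  have := per_etr (M_ne hG) 1 Ideal.mul_le_left fun x y e => peri hG.two_le hΨ h0 x y (h1 e)
  simpa only [map_one, one_div, inv_mul_eq_div] using this

theorem norm_co (hΨ : IsP k n Ψ) (y : 𝓞 K) : ‖co k Ψ I y‖ ≤ if y ∈ I then 1 else 0 := by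
  unfold co
  split_ifs
  · rw [norm_mul, Complex.norm_conj]
    exact mul_le_one₀ (hΨ.norm_le _) (norm_nonneg _) (norm_dP_le _)
  · simp

theorem ctd_bot : ctd k n Ψ ⊥ = 0 := by simp [ctd, NN]

theorem norm_ctd (hG : Good K n) (hΨ : IsP k n Ψ) : ‖ctd k n Ψ I‖ ≤ 1 := by
  by_cases h0 : I = ⊥
  · rw [h0, ctd_bot, norm_zero]; exact zero_le_one
  have hJ := mul_ne_zero (sp_ne (M_ne hG)) h0
  have h1 := congrArg norm (av_one hJ Ideal.mul_le_right)
  rw [norm_mul, norm_one] at h1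
  rw [← h1, ctd, norm_mul, NN, Complex.ofReal_natCast]
  refine mul_le_mul_of_nonneg_left (norm_av_mono hJ fun y => ?_) (norm_nonneg _)
  rw [norm_mul, norm_etr, mul_one]
  exact norm_co hΨ y

theorem cov (hG : Good K n) (hΨ : IsP k n Ψ) {𝔮 : Ideal (𝓞 K)} (hq : Cop n 𝔮) :
    ctd k n Ψ (I * 𝔮) = ctd k n Ψ I * conj (Ψ 𝔮) := by
  by_cases h0 : I = ⊥
  · rw [h0, Ideal.bot_mul, ctd_bot, zero_mul]
  have hq0 : 𝔮 ≠ ⊥ := Cop_ne_bot hG.two_le hq
  have hM := sp_ne (M_ne hG)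
  have hp := per hG hΨ h0
  obtain ⟨a, ha, b, hb, hab⟩ : ∃ a ∈ 𝔮, ∃ b ∈ sp ((n ^ 3 : ℕ) : 𝓞 K), a + b = 1 := by
    refine Ideal.isCoprime_iff_exists.1 ?_
    rw [Nat.cast_pow, sp, ← Ideal.span_singleton_pow]
    exact IsCoprime.pow_right hq
  unfold ctd
  generalize sp ((n ^ 3 : ℕ) : 𝓞 K) = M at hM hp hb ⊢
  have c1 : Ψ 𝔮 * conj (Ψ 𝔮) = 1 := by
    rw [Complex.mul_conj, Complex.normSq_eq_norm_sq, hΨ.norm_cop _ hq]; simp
  have h := sum_eq (mul_ne_zero hM h0) (mul_ne_zero hM (mul_ne_zero h0 hq0))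
    (G' := fun y => co k Ψ (I * 𝔮) y * etr ((y : K) / ((n ^ 3 : ℕ) : 𝓞 K)))
    (G := fun y => conj (Ψ 𝔮) * (co k Ψ I y * etr ((y : K) / ((n ^ 3 : ℕ) : 𝓞 K))))
    (fun x y e => congrArg (conj (Ψ 𝔮) * ·) (hp x y e)) (I * 𝔮 : Ideal (𝓞 K)) id
    (fun y hy => by rw [co, if_neg (show y ∉ I * 𝔮 from hy), zero_mul])
    (fun y hy => by
      have hy : y ∈ I * 𝔮 := hy
      have e : quo y I = quo y (I * 𝔮) * 𝔮 := quo_eq h0 (by
        rw [mul_assoc, mul_comm 𝔮, quo_mul (exists_quo hy)])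
      rw [id, co, co, if_pos hy, if_pos (Ideal.mul_le_left hy), e, map_mul]
      linear_combination (-(Ψ (quo y (I * 𝔮)) * conj (dP (emb k y)) *
        etr ((y : K) / ((n ^ 3 : ℕ) : 𝓞 K)))) * c1)
    (fun y hy y' hy' e => by
      have e1 : y - y' ∈ I * 𝔮 := sub_mem hy hy'
      have e2 : y - y' ∈ M * I := e
      rw [show y - y' = (y - y') * a + b * (y - y') by linear_combination (y' - y) * hab]
      exact add_mem (mul_assoc M I 𝔮 ▸ Ideal.mul_mem_mul e2 ha) (Ideal.mul_mem_mul hb e1))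
    (fun x hx => by
      have hx : x ∈ I := not_not.1 fun e => hx (by rw [co, if_neg e, zero_mul, mul_zero])
      refine ⟨x * a, fun y' hy' => ⟨?_, ?_⟩⟩
      · simpa using add_mem (Ideal.mul_le_right hy') (Ideal.mul_mem_mul hx ha)
      · rw [show id y' - x = y' - x * a - b * x by rw [id]; linear_combination x * hab]
        exact sub_mem (Ideal.mul_mono_right Ideal.mul_le_left hy') (Ideal.mul_mem_mul hb hx))
  rw [av_const_mul, map_mul _ M, map_mul _ M, Nat.cast_mul, Nat.cast_mul, mul_assoc, mul_assoc] at h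
  have h := mul_left_cancel₀ (nm_ne hM) h
  rw [NN, NN, Complex.ofReal_natCast, Complex.ofReal_natCast, h]
  ring

theorem le_sp (hG : Good K n) (hΨ : IsP k n Ψ) (h : ctd k n Ψ I ≠ 0) : I ≤ sp (n : 𝓞 K) := by
  have h0 : I ≠ ⊥ := fun e => h (e ▸ ctd_bot)
  have hn : (n : K) ≠ 0 := by exact_mod_cast hG.pos
  intro x hx
  obtain ⟨a, ha⟩ := hG.dual ((x : K) / n ^ 2) fun b _ => by
    by_contra hb
    refine h ?_
    rw [ctd, av_eq_zero (per hG hΨ h0) (u := 1) (u' := 1) (by simp) (n * (x * b))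
      (c := etr ((x : K) / n ^ 2 * b)) (fun e => hb (etr_eq_one_iff.1 e)) fun y => ?_, mul_zero]
    rw [peri hG.two_le hΨ h0 (1 * y + n * (x * b)) y (by
      simpa using Ideal.mul_mem_mul (Ideal.mem_span_singleton_self _) (I.mul_mem_right b hx)),
      mul_left_comm (etr _), ← etr_add]
    congr 2
    push_cast
    field_simp
    ring
  refine Ideal.mem_span_singleton.2 ⟨a, RingOfIntegers.coe_injective ?_⟩
  rw [map_mul, map_natCast]
  change (x : K) = n * (a : K)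
  rw [← ha]
  field_simp

end PCOV

open PCOV in
theorem y_cOV1 (c : Cx k K) : Y_COV1 k K := fun _ _ hG hΨ _ =>
  ⟨peri hG.two_le hΨ, norm_ctd hG hΨ, fun _ => cov hG hΨ, le_sp hG hΨ⟩

open PCOV PoiN PFE1 in
theorem y_cOV2 (c : Cx k K) : Y_COV2 k K := by
  intro n Ψ 𝔠 κ hG hΨ hc hκ
  have h0 : 𝔠 ≠ ⊥ := fun e => by
    rw [e, Ideal.mem_bot] at hc
    exact hG.pos (by exact_mod_cast hc)
  have hM := M_ne hG
  have hp := per hG hΨ (mul_ne_zero (sp_ne hκ) h0)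
  have h2 : sp ((n ^ 3 : ℕ) : 𝓞 K) ≤ sp ((n ^ 2 : ℕ) : 𝓞 K) :=
    Ideal.span_singleton_le_span_singleton.2 (by push_cast; exact pow_dvd_pow _ (by norm_num))
  have hp' := per_etr hM κ le_rfl fun x y e => PFE1.peri hG.two_le hΨ h0 hc x y (h2 e)
  unfold ctd
  generalize ((n ^ 3 : ℕ) : 𝓞 K) = M at hM hp hp' ⊢
  have hJ := mul_ne_zero (sp_ne hM) h0
  have h := sum_eq (mul_ne_zero (sp_ne hM) (mul_ne_zero (sp_ne hκ) h0)) hJ hp
    (G' := fun x => conj (dP (emb k κ)) * (co k Ψ 𝔠 x * etr ((κ : K) / M * x))) Set.univ (κ * ·)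
    (fun y hy => absurd trivial hy)
    (fun y _ => by
      have e : κ * y ∈ sp κ * 𝔠 ↔ y ∈ 𝔠 := ⟨fun h => by
        obtain ⟨z, hz, e⟩ := Ideal.mem_span_singleton_mul.1 h
        rwa [← mul_left_cancel₀ hκ e], Ideal.mul_mem_mul (Ideal.mem_span_singleton_self κ)⟩
      unfold co
      by_cases hy : y ∈ 𝔠
      · rw [if_pos hy, if_pos (e.2 hy), quo_eq (q := quo y 𝔠) (mul_ne_zero (sp_ne hκ) h0) (by
          rw [mul_left_comm, quo_mul (exists_quo hy), sp_mul]), emb_mul, dP_mul, map_mul,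
          show ((κ * y : 𝓞 K) : K) / M = κ / M * y by push_cast; ring]
        ring
      · rw [if_neg hy, if_neg fun h => hy (e.1 h)]
        ring)
    (fun y _ y' _ e => by
      rw [← mul_sub, mul_left_comm] at e
      obtain ⟨z, hz, e⟩ := Ideal.mem_span_singleton_mul.1 e
      rwa [← mul_left_cancel₀ hκ e])
    (fun x hx => by
      have hx : x ∈ sp κ * 𝔠 := not_not.1 fun e => hx (by rw [co, if_neg e, zero_mul])
      obtain ⟨z, -, rfl⟩ := Ideal.mem_span_singleton_mul.1 hx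
      refine ⟨z, fun y' hy' => ⟨trivial, ?_⟩⟩
      rw [← mul_sub, mul_left_comm]
      exact Ideal.mul_mem_mul (Ideal.mem_span_singleton_self κ) hy')
  rw [av_const_mul, av_le hJ Ideal.mul_le_left hp', map_mul, map_mul _ (sp M), Nat.cast_mul,
    Nat.cast_mul, mul_assoc, mul_assoc] at h
  have h := mul_left_cancel₀ (nm_ne (sp_ne hM)) h
  rw [NN, NN, Complex.ofReal_natCast, Complex.ofReal_natCast, ← h, mul_comm (conj _)]
  rfl

end Pool.Agent.P.MP_b8021b_nt.BP
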