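import Pool.Agent.P.MP_b8021b_nt.BP.StC

/-! The Fourier representation of the step. -/

namespace Pool.Agent.P.MP_b8021b_nt.BP

open NumberField IsDedekindDomain Finset MeasureTheory
open Pool.Agent.P.MP_b8021b_nt.VE Pool.Agent.P.MP_b8021b_nt.VC Pool.Agent.P.MP_b8021b_nt.BS.CF
open Pool.Agent.P.MP_b8021b_nt.BS
open scoped Classical ComplexConjugate Real

namespace PFI

open scoped FourierTransform Topology

theorem lip : ∃ C : ℝ, 1 ≤ C ∧ ∀ u u', |St u - St u'| ≤ C * |u - u'| := by
  obtain ⟨C, hC⟩ := ((Real.smoothTransition.contDiff (n := 1)).locallyLipschitz.locallyLipschitzOn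
    (s := Set.Icc 0 1)).exists_lipschitzOnWith_of_compact isCompact_Icc
  refine ⟨max 1 C, le_max_left _ _, fun u u' => ?_⟩
  have h := hC.dist_le_mul _ (Set.projIcc 0 1 zero_le_one (1 - u)).2 _
    (Set.projIcc 0 1 zero_le_one (1 - u')).2
  rw [Real.smoothTransition.projIcc, Real.smoothTransition.projIcc, Real.dist_eq,
    Real.dist_eq] at h
  refine h.trans (mul_le_mul (le_max_right _ _) ((Set.abs_projIcc_sub_projIcc _).trans_eq ?_)
    (abs_nonneg _) (by positivity))
  rw [abs_sub_comm u]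
  congr 1
  ring

/-- the damped step -/
noncomputable def g (w : ℝ) : ℝ := Real.exp (2 * π * w) * St (2 * π * w)

theorem g_smooth : ContDiff ℝ (⊤ : ℕ∞) g :=
  (Real.contDiff_exp.comp (contDiff_const.mul contDiff_id)).mul
    (Real.smoothTransition.contDiff.comp (contDiff_const.sub (contDiff_const.mul contDiff_id)))

theorem g_decay (k n : ℕ) : ∃ C : ℝ, ∀ x, ‖x‖ ^ k * ‖iteratedFDeriv ℝ n g x‖ ≤ C := by
  have hp := Real.pi_gt_three
  obtain ⟨B, hB⟩ := (isCompact_Icc (a := (0 : ℝ)) (b := 1)).exists_bound_of_continuousOn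
    ((continuous_norm.pow k).mul
      (g_smooth.continuous_iteratedFDeriv (m := n) (mod_cast le_top)).norm).continuousOn
  refine ⟨max (max B 0) (k.factorial * (2 * π) ^ n), fun x => ?_⟩
  rcases lt_or_ge x 0 with h | h
  · have e : g =ᶠ[𝓝 x] fun w => Real.exp (2 * π * w) := by
      filter_upwards [Iio_mem_nhds h] with w hw
      rw [g, St_of_nonpos (by nlinarith [Set.mem_Iio.1 hw]), mul_one]
    rw [(e.iteratedFDeriv ℝ n).eq_of_nhds, norm_iteratedFDeriv_eq_norm_iteratedDeriv,
      iteratedDeriv_exp_const_mul, Real.norm_of_nonpos h.le,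
      Real.norm_of_nonneg (by positivity), mul_left_comm, mul_comm]
    refine le_max_of_le_right (mul_le_mul_of_nonneg_right ?_ (by positivity))
    have h1 := Real.pow_div_factorial_le_exp (-x) (by linarith) k
    rw [div_le_iff₀ (by positivity)] at h1
    refine (mul_le_mul_of_nonneg_right h1 (Real.exp_pos _).le).trans ?_
    rw [mul_right_comm, ← Real.exp_add]
    exact mul_le_of_le_one_left (by positivity) (Real.exp_le_one_iff.2 (by nlinarith))
  rcases le_or_gt x 1 with h' | h'
  · exact le_max_of_le_left (le_max_of_le_left ((le_abs_self _).trans (hB x ⟨h, h'⟩)))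
  · have e : g =ᶠ[𝓝 x] fun _ => 0 := by
      filter_upwards [Ioi_mem_nhds h'] with w hw
      rw [g, St_of_one_le (by nlinarith [Set.mem_Ioi.1 hw]), mul_zero]
    rw [(e.iteratedFDeriv ℝ n).eq_of_nhds]
    simp

/-- the damped step as a Schwartz function -/
noncomputable def G : SchwartzMap ℝ ℂ :=
  SchwartzMap.postcompCLM Complex.ofRealCLM (⟨g, g_smooth, g_decay⟩ : SchwartzMap ℝ ℝ)

end PFI

open PFI FourierTransform in
theorem y_fI : Y_FI := by
  refine ⟨(𝓕⁻ G : SchwartzMap ℝ ℂ), SchwartzMap.continuous _, fun j => ?_, fun y ℓ hy hℓ => ?_, lip⟩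
  · simp only [add_pow, sum_mul, one_pow, one_mul, mul_right_comm _ (Nat.cast _ : ℝ)]
    exact integrable_finsetSum _ fun i _ => (SchwartzMap.integrable_pow_mul _ _ _).mul_const _
  · have h : (𝓕 (𝓕⁻ G : SchwartzMap ℝ ℂ) : SchwartzMap ℝ ℂ) (Real.log y / ℓ / (2 * π)) =
        (g (Real.log y / ℓ / (2 * π)) : ℂ) := by
      rw [fourier_fourierInv_eq]
      rfl
    have hp : (2 * π) ≠ 0 := by positivity
    rw [SchwartzMap.fourier_coe, Real.fourier_real_eq_integral_exp_smul, g,
      mul_div_cancel₀ _ hp] at h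
    refine mul_left_cancel₀ (Complex.ofReal_ne_zero.2 (Real.exp_pos (Real.log y / ℓ)).ne') ?_
    rw [← Complex.ofReal_mul, ← h, ← integral_const_mul]
    refine integral_congr_ae (Filter.Eventually.of_forall fun a => ?_)
    simp only [cpow_eq_exp hy, smul_eq_mul, Complex.ofReal_exp]
    rw [mul_left_comm, ← Complex.exp_add, mul_comm]
    have : (π : ℂ) ≠ 0 := by exact_mod_cast Real.pi_ne_zero
    have : (ℓ : ℂ) ≠ 0 := by exact_mod_cast hℓ.ne'
    congr 2
    simp only [sx]
    push_cast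
    field_simp
    ring

end Pool.Agent.P.MP_b8021b_nt.BP
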