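import Pool.Agent.P.MP_b8021b_nt.BP.StC

/-! The sum over squarefree ideals. -/

namespace Pool.Agent.P.MP_b8021b_nt.BP

open NumberField IsDedekindDomain Finset MeasureTheory
open Pool.Agent.P.MP_b8021b_nt.VE Pool.Agent.P.MP_b8021b_nt.VC Pool.Agent.P.MP_b8021b_nt.BS.CF
open Pool.Agent.P.MP_b8021b_nt.BS
open scoped Classical ComplexConjugate Real
variable {k : Type} [Field k] [NumberField k] [Algebra k ℂ] {K : Type} [Field K] [NumberField K] [Algebra k K]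

namespace PJS

/-- a cut that is Lipschitz in the logarithm -/
noncomputable def ps (T y : ℝ) : ℝ :=
  if 0 < y then max 0 (min 1 (Real.log y - Real.log T)) else 0

theorem ps_bd (T y : ℝ) : 0 ≤ ps T y ∧ ps T y ≤ 1 := by
  unfold ps
  split_ifs
  exacts [⟨le_max_left _ _, max_le zero_le_one (min_le_left _ _)⟩, ⟨le_rfl, zero_le_one⟩]

theorem ps_one {T y : ℝ} (hT : 1 ≤ T) (h : 3 * T ≤ y) : ps T y = 1 := by
  have h1 : 1 ≤ Real.log 3 := by
    rw [Real.le_log_iff_exp_le (by norm_num)]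
    have := Real.exp_one_lt_d9; linarith
  have h2 := Real.log_le_log (by linarith) h
  rw [Real.log_mul (by norm_num) (by linarith)] at h2
  rw [ps, if_pos (by linarith), min_eq_left (by linarith), max_eq_right zero_le_one]

theorem ps_ne {T y : ℝ} (h : ps T y ≠ 0) : T ≤ y ∨ T ≤ 0 := by
  by_contra hc
  push Not at hc
  apply h
  unfold ps
  split_ifs with h0
  · have := Real.log_le_log h0 hc.1.le
    exact max_eq_left ((min_le_right _ _).trans (by linarith))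
  · rfl

theorem ps_lip (T : ℝ) {y y' : ℝ} (h : 0 < y) (h' : 0 < y') :
    |ps T y - ps T y'| ≤ |Real.log y - Real.log y'| := by
  rw [ps, ps, if_pos h, if_pos h', max_comm 0, max_comm 0]
  refine (abs_max_sub_max_le_abs _ _ _).trans ?_
  refine (abs_min_sub_min_le_max _ _ _ _).trans (max_le (by simp) (le_of_eq ?_))
  congr 1; ring

theorem log_max {y : ℝ} (h : 0 < y) : Real.log (max 1 y) = max (Real.log y) 0 := by
  rcases le_total 1 y with h1 | h1
  · rw [max_eq_right h1, max_eq_left (Real.log_nonneg h1)]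
  · rw [max_eq_left h1, Real.log_one, max_eq_right (Real.log_nonpos h.le h1)]

theorem lc {ω : ℝ → ℂ} {Λ T Z : ℝ} (h : LL ω Λ Z) (hT : 1 ≤ T) :
    LC (fun y => ω (max 1 y) * ps T y) (2 * Λ) T Z := by
  have h0 : 0 ≤ Λ := (norm_nonneg _).trans (h.bd 1 le_rfl)
  have hp : ∀ y, ‖(ps T y : ℂ)‖ ≤ 1 := fun y => by
    rw [Complex.norm_real, Real.norm_of_nonneg (ps_bd T y).1]; exact (ps_bd T y).2
  refine ⟨fun y => ?_, fun y y' hy hy' => ?_, fun y hy => ⟨?_, ?_⟩⟩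
  · rw [norm_mul]
    have := mul_le_mul (h.bd _ (le_max_left 1 y)) (hp y) (norm_nonneg _) h0
    linarith
  · have h1 := h.lip _ _ (le_max_left 1 y) (le_max_left 1 y')
    rw [log_max hy, log_max hy'] at h1
    have h2 := h1.trans (mul_le_mul_of_nonneg_left (abs_max_sub_max_le_abs _ _ _) h0)
    have h3 := ps_lip T hy hy'
    have e : ω (max 1 y) * ps T y - ω (max 1 y') * ps T y' =
        (ω (max 1 y) - ω (max 1 y')) * ps T y + ω (max 1 y') * ((ps T y - ps T y' : ℝ) : ℂ) := by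
      push_cast; ring
    rw [e]
    refine (norm_add_le _ _).trans ?_
    rw [norm_mul, norm_mul, Complex.norm_real (ps T y - ps T y'), Real.norm_eq_abs]
    have h4 := mul_le_mul h2 (hp y) (norm_nonneg _) (by positivity)
    have h5 := mul_le_mul (h.bd _ (le_max_left 1 y')) h3 (abs_nonneg _) h0
    linarith
  · have := ps_ne (T := T) (y := y) fun e => hy (by simp [e])
    exact this.elim id fun h1 => by linarith
  · by_contra hc
    exact hy (by simp [h.zero _ ((not_le.1 hc).trans_le (le_max_right 1 y))])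

omit [NumberField K] in
theorem cop_two {n : ℕ} (h8 : 8 ∣ n) {I : Ideal (𝓞 K)} (h : Cop n I) : Cop 2 I := by
  obtain ⟨m, rfl⟩ := h8
  unfold Cop at h ⊢
  rw [show 8 * m = 2 * (4 * m) by ring, Nat.cast_mul,
    ← Ideal.span_singleton_mul_span_singleton] at h
  exact h.of_mul_right_left

end PJS

theorem y_jS (c : Cx k K) (hDIV : Y_DIV K) (hCR : Y_CR k K) (hSIEVE : Y_SIEVE K)
    (hEXT : Y_EXT k K) : Y_JS k K := by
  intro n₀ n ℛ ℛ' Ψ ε hG hΨ hε
  obtain ⟨-, C1, hC1, h1⟩ := hDIV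
  obtain ⟨C2, hC2, h2⟩ := hCR
  obtain ⟨C3, hC3, h3⟩ := hSIEVE ε hε
  obtain ⟨C4, hC4, h4⟩ := hEXT n₀ n ℛ ℛ' Ψ hG hΨ
  have p1 : 0 ≤ 3 * (C1 * C2) := by positivity
  have p2 : 1 ≤ 2 * (C3 * C4) := by have := one_le_mul_of_one_le_of_one_le hC3 hC4; linarith
  refine ⟨3 * (C1 * C2) + 2 * (C3 * C4), by linarith,
    fun e b 𝔪 ω X Λ T Z B Q hb hc heb h𝔪 hs hω hX hT hZ hB he hQ => ?_⟩
  have h0 : 0 ≤ Λ := (norm_nonneg _).trans (hω.bd 1 le_rfl)
  have hb0 : b ≠ ⊥ := hb.ne_zero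
  have heb0 : e * b ≠ ⊥ := Cop_ne_bot hG.g.two_le hc
  have he0 : e ≠ ⊥ := left_ne_zero_of_mul heb0
  obtain ⟨G, g1, g2, g3⟩ := h4 e b _ X _ T Z hb hc heb (PJS.lc hω hT) hX hT hZ
  set 𝒥 := (ids K Z).filter (fun J => Squarefree J ∧ IsCoprime J 𝔪) with h𝒥
  have hJ : ∀ J ∈ 𝒥, J ≠ ⊥ ∧ Squarefree J ∧ IsCoprime J (e * b) := fun J hJ => by
    obtain ⟨a1, a2, a3⟩ := mem_filter.1 hJ
    have a4 := (mem_ids.1 a1).1
    exact ⟨a4, a2, (isCoprime_iff a4 heb0).2 (((isCoprime_iff a4 h𝔪).1 a3).mono_right hs)⟩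
  set s := √(NN b) with hs'
  have s0 : 0 ≤ s := Real.sqrt_nonneg _
  set τ := T ^ (-(1 / (2 * rk k K))) with hτ
  have τ0 : 0 ≤ τ := Real.rpow_nonneg (by linarith) _
  have hQ0 : 0 ≤ Z * NN e * NN b / X := by positivity
  have k2 := h3 G 𝔪 B Z (C4 * (2 * Λ) * s) (C4 * (2 * Λ) * s * (B * B ^ 3) * Q ^ 2 * Z * τ) h𝔪 hB hZ
    (by positivity) g1 fun 𝔡 a1 a2 => (g3 𝔡 a1).trans (by gcongr)
  have k1 : ‖∑ J ∈ 𝒥, Ψ J * (ω (NN J) * (1 - PJS.ps T (NN J) : ℝ)) / (√(NN J) : ℝ) *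
      Re2 k X e (J * b)‖ ≤ C1 * (3 * T) * (Λ * (C2 * s)) := by
    rw [← sum_filter_of_ne (p := fun J => NN J ≤ 3 * T) fun J _ a => not_lt.1 fun l =>
      a (by simp [PJS.ps_one hT l.le])]
    refine (norm_sum_le _ _).trans ((sum_le_card_nsmul _ _ (Λ * (C2 * s)) fun J a => ?_).trans ?_)
    · obtain ⟨a1, a2, a3⟩ := hJ J (mem_filter.1 a).1
      by_cases hz : Ψ J = 0
      · rw [hz, zero_mul, zero_div, zero_mul, norm_zero]; positivity
      have a4 : Cop n J := not_not.1 fun h => hz (hΨ.zero J h)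
      have a5 := h2 e (J * b) X he0
        (squarefree_mul_iff.2 ⟨a3.of_mul_right_right.isRelPrime, a2, hb⟩)
        (PJS.cop_two hG.g.eight (IsCoprime.mul_left a4 (IsCoprime.of_mul_left_right hc)))
        (IsCoprime.mul_right a3.of_mul_right_left.symm heb) hX
      have a6 : 0 < √(NN J) := Real.sqrt_pos.2 (NN_pos a1)
      have a7 := PJS.ps_bd T (NN J)
      have a8 : ‖Ψ J * (ω (NN J) * (1 - PJS.ps T (NN J) : ℝ))‖ ≤ Λ := by
        rw [norm_mul, norm_mul, Complex.norm_real, Real.norm_of_nonneg (by linarith [a7.2])]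
        refine (mul_le_of_le_one_left (mul_nonneg (norm_nonneg _) (by linarith [a7.2]))
          (hΨ.norm_le J)).trans ?_
        exact (mul_le_of_le_one_right (norm_nonneg _) (by linarith [a7.1])).trans
          (hω.bd _ (one_le_NN a1))
      rw [NN_mul, Real.sqrt_mul (NN_pos a1).le] at a5
      rw [norm_mul, norm_div, Complex.norm_real, Real.norm_of_nonneg a6.le]
      calc _ ≤ Λ / √(NN J) * (C2 * (√(NN J) * s)) := by gcongr
        _ = _ := by field_simp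
    · rw [nsmul_eq_mul]
      refine mul_le_mul_of_nonneg_right (le_trans ?_ (h1 (3 * T) (by linarith)).1) (by positivity)
      exact Nat.cast_le.2 (card_le_card fun J a =>
        mem_ids.2 ⟨(hJ J (mem_filter.1 a).1).1, (mem_filter.1 a).2⟩)
  have e1 : ∑ J ∈ 𝒥, Ψ J * ω (NN J) / (√(NN J) : ℝ) * Re2 k X e (J * b) =
      ∑ J ∈ 𝒥, Ψ J * (ω (NN J) * (1 - PJS.ps T (NN J) : ℝ)) / (√(NN J) : ℝ) * Re2 k X e (J * b) +
        ∑ J ∈ 𝒥, G J := by
    rw [← sum_add_distrib]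
    refine sum_congr rfl fun J a => ?_
    obtain ⟨a1, a2, a3⟩ := hJ J a
    rw [g2 J a2 a3, max_eq_right (one_le_NN a1)]
    push_cast
    ring
  rw [e1]
  refine (norm_add_le _ _).trans ((add_le_add k1 k2).trans ?_)
  set u := (2 : ℝ) ^ (prI 𝔪).card * Z ^ ε * Z / B with hu
  set w := B ^ 6 * Q ^ 2 * Z * τ with hw
  have u0 : 0 ≤ u := by positivity
  have w0 : 0 ≤ w := by positivity
  have e2 : C1 * (3 * T) * (Λ * (C2 * s)) + C3 * (B ^ 2 * (C4 * (2 * Λ) * s * (B * B ^ 3) * Q ^ 2 *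
      Z * τ) + 2 ^ (prI 𝔪).card * Z ^ ε * (C4 * (2 * Λ) * s) * Z / B) =
      3 * (C1 * C2) * Λ * s * T + 2 * (C3 * C4) * Λ * s * (u + w) := by
    rw [hu, hw]; ring
  rw [e2]
  calc _ ≤ 3 * (C1 * C2) * Λ * s * (T + u + w) + 2 * (C3 * C4) * Λ * s * (T + u + w) := by
        gcongr <;> linarith
    _ = _ := by ring

end Pool.Agent.P.MP_b8021b_nt.BP
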