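import Pool.Agent.P.MP_b8021b_nt.BP.StC

/-! The inequality of Cauchy and Schwarz over the family. -/

namespace Pool.Agent.P.MP_b8021b_nt.BP

open NumberField IsDedekindDomain Finset MeasureTheory
open Pool.Agent.P.MP_b8021b_nt.VE Pool.Agent.P.MP_b8021b_nt.VC Pool.Agent.P.MP_b8021b_nt.BS.CF
open Pool.Agent.P.MP_b8021b_nt.BS
open scoped Classical ComplexConjugate Real

variable {k : Type} [Field k] [NumberField k] [Algebra k ℂ] {K : Type} [Field K] [NumberField K]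
  [Algebra k K]

theorem y_nV2 (c : Cx k K) : Y_NV2 k K := by
  intro n 𝒜 Φ ζ C B c' W u X M w G P C1 X1 hΦ hw hM
  set s := ((TT K W Φ.y u).sigma fun S => (QQ ζ Φ.yq).sigma fun q => Φ.𝒥.sigma fun j =>
    (Φ.T₁ (insert q S) j).sigma fun _ => Φ.T₂ j).filter fun p =>
      w p.1 p.2.1 p.2.2.2.1 p.2.2.2.2 * G (Φ.τ (insert p.2.1 p.1) * p.2.2.2.1 * p.2.2.2.2) ≠ 0
    with hs
  set g : (Σ _ : Finset (Pl K), Σ _ : Pl K, Σ _ : ℕ, Σ _ : 𝓞 K, 𝓞 K) → 𝓞 K := fun p =>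
    Φ.τ (insert p.2.1 p.1) * p.2.2.2.1 * p.2.2.2.2 with hg
  have inj : ∀ p ∈ s, ∀ p' ∈ s, sp (g p) = sp (g p') → p = p' := by
    rintro ⟨S, q, j, t, t'⟩ h ⟨S', q', j', r, r'⟩ h' e
    simp only [hs, mem_filter, mem_sigma] at h h'
    obtain ⟨rfl, rfl, rfl, rfl, rfl⟩ := hΦ.inj S h.1.1 q h.1.2.1 j h.1.2.2.1 t h.1.2.2.2.1 t'
      h.1.2.2.2.2 S' h'.1.1 q' h'.1.2.1 j' h'.1.2.2.1 r h'.1.2.2.2.1 r' h'.1.2.2.2.2 e
    rfl
  have key : ∀ p ∈ s, (Pri (n ^ 2) (g p) ∧ NN (sp (g p)) ≤ X ∧ Bal k C X (g p)) ∧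
      w p.1 p.2.1 p.2.2.2.1 p.2.2.2.2 = 1 ∧ P (g p) ∧ G (g p) ≠ 0 := by
    rintro ⟨S, q, j, t, t'⟩ h
    simp only [hs, mem_filter, mem_sigma] at h
    obtain ⟨⟨h1, h2, h3, h4, h5⟩, h6⟩ := h
    have := (hw S h1 q h2 j h3 t h4 t' h5).resolve_left (left_ne_zero_of_mul h6)
    exact ⟨(hΦ.cell S h1 q h2 j h3).mem c.toCtx C1 X1 h4 h5, this.1, this.2,
      right_ne_zero_of_mul h6⟩
  have e : (Φ.sum ζ W u fun S q t t' => w S q t t' * G (Φ.τ (insert q S) * t * t')) =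
      ∑ t ∈ s.image g, G t := by
    rw [sum_image fun p h p' h' e => inj p h p' h' (congrArg sp e),
      sum_congr rfl fun p h => (one_mul (G (g p))).symm.trans (by rw [← (key p h).2.1]),
      hs, sum_filter_ne_zero]
    simp only [Fm.sum, sum_sigma]
  refine ⟨s.image g, fun t h t' h' e => ?_, fun t h => ?_, ?_⟩
  · obtain ⟨p, hp, rfl⟩ := mem_image.1 h
    obtain ⟨p', hp', rfl⟩ := mem_image.1 h'
    rw [inj p hp p' hp' e]
  · obtain ⟨p, hp, rfl⟩ := mem_image.1 h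
    exact ⟨(key p hp).1.1, (key p hp).1.2.1, (key p hp).2.2⟩
  · rw [e]
    refine (pow_le_pow_left₀ (norm_nonneg _) (norm_sum_le _ _) 2).trans
      (sq_sum_le_card_mul_sum_sq.trans (mul_le_mul_of_nonneg_left (hM _ fun t h => ?_)
        (Nat.cast_nonneg _)))
    obtain ⟨p, hp, rfl⟩ := mem_image.1 h
    exact (key p hp).1

end Pool.Agent.P.MP_b8021b_nt.BP
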