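import Pool.Agent.P.MP_b8021b_nt.BP.StC

/-! Removing the conditions squarefree and coprime by a truncated sieve. -/

namespace Pool.Agent.P.MP_b8021b_nt.BP

open NumberField IsDedekindDomain Finset MeasureTheory
open Pool.Agent.P.MP_b8021b_nt.VE Pool.Agent.P.MP_b8021b_nt.VC Pool.Agent.P.MP_b8021b_nt.BS.CF
open Pool.Agent.P.MP_b8021b_nt.BS
open scoped Classical ComplexConjugate Real

variable {k : Type} [Field k] [NumberField k] [Algebra k ℂ] {K : Type} [Field K] [NumberField K] [Algebra k K]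

namespace PSIEVE

/-- the signed indicator of divisibility -/
noncomputable def ind (i : ℕ) (S : Finset (Pl K)) (J : Ideal (𝓞 K)) : ℂ :=
  (-1) ^ S.card * if J ≤ eI S ^ i then 1 else 0

theorem norm_ind (i : ℕ) (S : Finset (Pl K)) (J : Ideal (𝓞 K)) :
    ‖ind i S J‖ = if J ≤ eI S ^ i then 1 else 0 := by
  unfold ind
  split_ifs <;> simp

theorem le_iff {J : Ideal (𝓞 K)} (hJ : J ≠ ⊥) (i : ℕ) (S : Finset (Pl K)) :
    J ≤ eI S ^ i ↔ ∀ v ∈ S, i ≤ cnt v J := by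
  rw [← Ideal.dvd_iff_le, dvd_iff_cnt (pow_ne_zero i (eI_ne_bot S)) hJ]
  refine forall_congr' fun v => ?_
  rw [cnt_pow v (eI_ne_bot S), cnt_eI]
  split_ifs with h <;> simp [h]

theorem incl {J : Ideal (𝓞 K)} (hJ : J ≠ ⊥) (i : ℕ) (U : Finset (Pl K)) :
    ∑ S ∈ U.powerset, ind i S J = if ∀ v ∈ U, ¬ i ≤ cnt v J then 1 else 0 := by
  have h := prod_one_add (s := U) (f := fun v => -(if i ≤ cnt v J then (1 : ℂ) else 0))
  rw [sum_congr rfl fun S _ => show ∏ v ∈ S, -(if i ≤ cnt v J then (1 : ℂ) else 0) = ind i S J by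
    rw [prod_neg, prod_boole, ind]
    simp only [le_iff hJ]] at h
  rw [← h, ← prod_boole]
  exact prod_congr rfl fun v _ => by split_ifs <;> simp

theorem tail {C Z : ℝ}
    (h : ∀ 𝔡 : Ideal (𝓞 K), 𝔡 ≠ ⊥ → (((ids K Z).filter fun J => J ≤ 𝔡).card : ℝ) ≤ C * Z / NN 𝔡)
    (i : ℕ) (𝒮 : Finset (Finset (Pl K))) :
    ∑ J ∈ ids K Z, ‖∑ S ∈ 𝒮, ind i S J‖ ≤ ∑ S ∈ 𝒮, C * Z / nS S ^ i := by
  refine (sum_le_sum fun J _ => norm_sum_le _ _).trans ?_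
  rw [sum_comm]
  refine sum_le_sum fun S _ => ?_
  simp only [norm_ind]
  rw [sum_boole]
  refine (h _ (pow_ne_zero i (eI_ne_bot S))).trans_eq ?_
  rw [NN, map_pow, Nat.cast_pow]

theorem main {G : Ideal (𝓞 K) → ℂ} {B Z E : ℝ} (hB : 1 ≤ B)
    (h : ∀ 𝔡 : Ideal (𝓞 K), 𝔡 ≠ ⊥ → NN 𝔡 ≤ B ^ 3 →
      ‖∑ J ∈ (ids K Z).filter (fun J => J ≤ 𝔡), G J‖ ≤ E)
    {𝒮 𝒯 : Finset (Finset (Pl K))} (h1 : ∀ S ∈ 𝒮, nS S ≤ B) (h2 : ∀ S ∈ 𝒯, nS S ≤ B) :
    ‖∑ J ∈ ids K Z, (∑ S ∈ 𝒮, ind 2 S J) * (∑ S ∈ 𝒯, ind 1 S J) * G J‖ ≤ 𝒮.card * (𝒯.card * E) := by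
  simp only [sum_mul]
  simp only [mul_sum, sum_mul]
  rw [sum_comm]
  refine (norm_sum_le _ _).trans ((sum_le_card_nsmul _ _ _ fun S hS => ?_).trans_eq
    (nsmul_eq_mul _ _))
  rw [sum_comm]
  refine (norm_sum_le _ _).trans ((sum_le_card_nsmul _ _ _ fun T hT => ?_).trans_eq
    (nsmul_eq_mul _ _))
  have h0 : eI S ^ 2 * eI T ^ 1 ≠ ⊥ :=
    mul_ne_zero (pow_ne_zero 2 (eI_ne_bot S)) (pow_ne_zero 1 (eI_ne_bot T))
  have h3 := h (eI S ^ 2 ⊓ eI T ^ 1) (fun e => h0 (le_bot_iff.1 (e ▸ Ideal.mul_le_inf))) (by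
    refine (NN_le_of_le h0 Ideal.mul_le_inf).trans ?_
    rw [pow_one, pow_two, NN_mul, NN_mul, pow_three', ]
    have := h1 S hS
    have := h2 T hT
    have := (nS_pos T).le
    have := (nS_pos S).le
    gcongr)
  have e : ∑ J ∈ ids K Z, ind 2 S J * ind 1 T J * G J = (-1) ^ S.card * (-1) ^ T.card *
      ∑ J ∈ (ids K Z).filter (fun J => J ≤ eI S ^ 2 ⊓ eI T ^ 1), G J := by
    rw [sum_filter, mul_sum]
    refine sum_congr rfl fun J _ => ?_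
    unfold ind
    by_cases a : J ≤ eI S ^ 2 <;> by_cases b : J ≤ eI T ^ 1 <;> simp only [le_inf_iff, a, b] <;> simp
  rw [e]
  simpa using h3

end PSIEVE

open PSIEVE in
theorem y_sIEVE (c : Cx k K) (hDIV : Y_DIV K) : Y_SIEVE K := by
  intro ε hε
  obtain ⟨-, C, C1, hC⟩ := hDIV
  obtain ⟨-, C₂, C2, h2⟩ := c.cnt.2 2 one_lt_two
  have CC : 1 ≤ C * C := one_le_mul_of_one_le_of_one_le C1 C1
  refine ⟨C * C + C * C₂ + C, by nlinarith, fun G 𝔪 B Z M E hm hB hZ hE hM h => ?_⟩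
  have M0 : 0 ≤ M := (norm_nonneg _).trans (hM ⊥)
  have B0 : 0 < B := by linarith
  have C0 : 0 < C := by linarith
  obtain ⟨𝒰, hP⟩ : ∃ 𝒰, 𝒰 = (pls K 0 Z).powerset := ⟨_, rfl⟩
  obtain ⟨𝒬, hQ⟩ : ∃ 𝒬, 𝒬 = (prI 𝔪).powerset := ⟨_, rfl⟩
  have cQ : (𝒬.card : ℝ) = 2 ^ (prI 𝔪).card := by rw [hQ, card_powerset]; push_cast; rfl
  have ha : ∀ J ∈ ids K Z, ∑ S ∈ 𝒰, ind 2 S J = if Squarefree J then 1 else 0 := fun J hJ => by
    obtain ⟨a, b⟩ := mem_ids.1 hJ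
    rw [hP, incl a]
    refine if_congr ?_ rfl rfl
    rw [squarefree_iff_cnt a]
    refine ⟨fun H v => not_lt.1 fun e => H v (mem_pls.2 ⟨nv_pos v, le_trans (NN_le_of_le a ?_) b⟩) e,
      fun H v _ => not_le.2 (Nat.lt_succ_of_le (H v))⟩
    exact not_not.1 fun e' => by rw [(cnt_eq_zero v).2 e'] at e; omega
  have hb : ∀ J ∈ ids K Z, ∑ S ∈ 𝒬, ind 1 S J = if IsCoprime J 𝔪 then 1 else 0 := fun J hJ => by
    obtain ⟨a, -⟩ := mem_ids.1 hJ
    rw [hQ, incl a]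
    refine if_congr ?_ rfl rfl
    rw [isCoprime_iff a hm, disjoint_right]
    refine forall₂_congr fun v _ => ?_
    rw [mem_prI a, ← cnt_eq_zero]
    omega
  have e : ∑ J ∈ (ids K Z).filter (fun J => Squarefree J ∧ IsCoprime J 𝔪), G J =
      ∑ J ∈ ids K Z, (∑ S ∈ 𝒰.filter (fun S => nS S ≤ B), ind 2 S J) *
        (∑ S ∈ 𝒬.filter (fun S => nS S ≤ B), ind 1 S J) * G J +
      ∑ J ∈ ids K Z, (∑ S ∈ 𝒰.filter (fun S => ¬ nS S ≤ B), ind 2 S J) *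
        (∑ S ∈ 𝒬.filter (fun S => nS S ≤ B), ind 1 S J) * G J +
      ∑ J ∈ ids K Z, (∑ S ∈ 𝒬.filter (fun S => ¬ nS S ≤ B), ind 1 S J) *
        (if Squarefree J then 1 else 0) * G J := by
    rw [← sum_add_distrib, ← sum_add_distrib, sum_filter]
    refine sum_congr rfl fun J hJ => ?_
    rw [← add_mul, ← add_mul, ← add_mul, sum_filter_add_sum_filter_not, ha J hJ,
      mul_comm _ (ite _ _ _), ← mul_add, sum_filter_add_sum_filter_not, hb J hJ]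
    by_cases a : Squarefree J <;> by_cases b : IsCoprime J 𝔪 <;> simp [a, b]
  have c1 : ∀ 𝒮 : Finset (Finset (Pl K)), ((𝒮.filter fun S => nS S ≤ B).card : ℝ) ≤ C * B :=
    fun 𝒮 => le_trans (Nat.cast_le.2 (card_le_ids fun S hS => (mem_filter.1 hS).2)) (hC B hB).1
  have b1 := (main hB h (𝒮 := 𝒰.filter fun S => nS S ≤ B) (𝒯 := 𝒬.filter fun S => nS S ≤ B)
    (fun S hS => (mem_filter.1 hS).2) fun S hS => (mem_filter.1 hS).2).trans
    (mul_le_mul (c1 𝒰) (mul_le_mul_of_nonneg_right (c1 𝒬) hE) (by positivity) (by positivity))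
  have gen : ∀ (x y : Ideal (𝓞 K) → ℂ) (a b : ℝ), ∑ J ∈ ids K Z, ‖x J‖ ≤ a → (∀ J, ‖y J‖ ≤ b) →
      ‖∑ J ∈ ids K Z, x J * y J * G J‖ ≤ a * (b * M) := fun x y a b hx hy => by
    have b0 : 0 ≤ b := (norm_nonneg _).trans (hy ⊥)
    refine (norm_sum_le _ _).trans (le_trans ?_ (mul_le_mul_of_nonneg_right hx (by positivity)))
    rw [sum_mul]
    refine sum_le_sum fun J _ => ?_
    rw [mul_assoc, norm_mul, norm_mul]
    exact mul_le_mul_of_nonneg_left (mul_le_mul (hy J) (hM J) (norm_nonneg _) b0) (norm_nonneg _)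
  have b2 := gen (fun J => ∑ S ∈ 𝒰.filter (fun S => ¬ nS S ≤ B), ind 2 S J)
    (fun J => ∑ S ∈ 𝒬.filter (fun S => nS S ≤ B), ind 1 S J) (C * Z * (C₂ / B))
    (2 ^ (prI 𝔪).card) ((tail (hC Z hZ).2.2 2 _).trans (by
      have h3 := h2 B ((𝒰.filter fun S => ¬ nS S ≤ B).image eI) hB fun I hI => by
        obtain ⟨S, hS, rfl⟩ := mem_image.1 hI
        exact (not_le.1 (mem_filter.1 hS).2).le
      rw [sum_image eI_inj.injOn, show (1 : ℝ) - 2 = -1 by norm_num, Real.rpow_neg_one] at h3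
      simp only [div_eq_mul_inv, ← mul_sum]
      refine mul_le_mul_of_nonneg_left (le_trans (le_of_eq (sum_congr rfl fun S _ => ?_)) h3)
        (by positivity)
      rw [Real.rpow_neg (nS_pos S).le, Real.rpow_two])) fun J => by
      refine (norm_sum_le _ _).trans ((sum_le_card_nsmul _ _ 1 fun S _ => ?_).trans ?_)
      · rw [norm_ind]; split_ifs <;> norm_num
      · rw [nsmul_one, ← cQ]; exact Nat.cast_le.2 (card_filter_le _ _)
  have b3 := gen (fun J => ∑ S ∈ 𝒬.filter (fun S => ¬ nS S ≤ B), ind 1 S J)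
    (fun J => if Squarefree J then 1 else 0) (2 ^ (prI 𝔪).card * (C * Z / B)) 1
    ((tail (hC Z hZ).2.2 1 _).trans (by
      refine (sum_le_card_nsmul _ _ (C * Z / B) fun S hS => ?_).trans ?_
      · rw [pow_one]
        exact div_le_div_of_nonneg_left (by positivity) B0 (not_le.1 (mem_filter.1 hS).2).le
      · rw [nsmul_eq_mul, ← cQ]
        exact mul_le_mul_of_nonneg_right (Nat.cast_le.2 (card_filter_le _ _)) (by positivity)))
    fun J => by split_ifs <;> simp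
  rw [e]
  refine (norm_add₃_le.trans (add_le_add_three b1 b2 b3)).trans ?_
  have z1 : 1 ≤ Z ^ ε := Real.one_le_rpow hZ hε.le
  have t1 : 2 ^ (prI 𝔪).card * M * Z / B ≤ 2 ^ (prI 𝔪).card * Z ^ ε * M * Z / B := by
    gcongr
    exact le_mul_of_one_le_right (by positivity) z1
  have t2 : 0 ≤ 2 ^ (prI 𝔪).card * M * Z / B := by positivity
  have t3 : 0 ≤ B ^ 2 * E := by positivity
  generalize 2 ^ (prI 𝔪).card * Z ^ ε * M * Z / B = y at t1 ⊢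
  calc _ = C * C * (B ^ 2 * E) + (C * C₂ + C) * (2 ^ (prI 𝔪).card * M * Z / B) := by ring
    _ ≤ (C * C + C * C₂ + C) * (B ^ 2 * E) + (C * C + C * C₂ + C) * y := by
      have : 0 ≤ C * C₂ := by positivity
      gcongr <;> linarith
    _ = _ := by ring

end Pool.Agent.P.MP_b8021b_nt.BP
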