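import Pool.Agent.P.MP_b8021b_nt.BP.StC
import Pool.Agent.P.MP_b8021b_nt.BS.PoiGs

/-! The sieved large sieve inequality. -/

namespace Pool.Agent.P.MP_b8021b_nt.BP

open NumberField IsDedekindDomain Finset MeasureTheory
open Pool.Agent.P.MP_b8021b_nt.VE Pool.Agent.P.MP_b8021b_nt.VC Pool.Agent.P.MP_b8021b_nt.BS.CF
open Pool.Agent.P.MP_b8021b_nt.BS
open scoped Classical ComplexConjugate Real

variable {k : Type} [Field k] [NumberField k] [Algebra k ℂ] {K : Type} [Field K] [NumberField K]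
  [Algebra k K]

namespace PSLS

/-- a quadratic form with small entries off the diagonal -/
theorem quad {ι α : Type} (s : Finset ι) (𝒞 : Finset α) (w : α → ℝ) (j : ι → α → ℂ) (a : ι → ℂ)
    {B E : ℝ} (hw : ∀ x, 0 ≤ w x) (hj : ∀ i x, ‖j i x‖ ≤ 1) (hc : ∀ i x, conj (j i x) = j i x)
    (hB : ∑ x ∈ 𝒞, w x ≤ B) (hE : 0 ≤ E)
    (h : ∀ i ∈ s, ∀ i' ∈ s, i ≠ i' → ‖∑ x ∈ 𝒞, (w x : ℂ) * (j i x * j i' x)‖ ≤ E) :
    ∑ x ∈ 𝒞, w x * ‖∑ i ∈ s, a i * j i x‖ ^ 2 ≤ (B + E * s.card) * ∑ i ∈ s, ‖a i‖ ^ 2 := by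
  have e : ((∑ x ∈ 𝒞, w x * ‖∑ i ∈ s, a i * j i x‖ ^ 2 : ℝ) : ℂ) = ∑ i ∈ s, ∑ i' ∈ s,
      a i * conj (a i') * ∑ x ∈ 𝒞, (w x : ℂ) * (j i x * j i' x) := by
    push_cast
    simp only [← Complex.mul_conj', map_sum, map_mul, hc, sum_mul_sum]
    simp only [mul_sum]
    rw [sum_comm]
    refine sum_congr rfl fun i _ => ?_
    rw [sum_comm]
    exact sum_congr rfl fun i' _ => sum_congr rfl fun x _ => by ring
  have h0 : 0 ≤ ∑ x ∈ 𝒞, w x * ‖∑ i ∈ s, a i * j i x‖ ^ 2 :=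
    sum_nonneg fun x _ => mul_nonneg (hw x) (sq_nonneg _)
  rw [← Real.norm_of_nonneg h0, ← Complex.norm_real, e]
  have h1 : ∀ i ∈ s, ∀ i' ∈ s, ‖a i * conj (a i') * ∑ x ∈ 𝒞, (w x : ℂ) * (j i x * j i' x)‖ ≤
      (if i = i' then B * ‖a i‖ ^ 2 else 0) + E * (‖a i‖ * ‖a i'‖) := fun i hi i' hi' => by
    rw [norm_mul, norm_mul, Complex.norm_conj]
    split_ifs with q
    · subst q
      have : ‖∑ x ∈ 𝒞, (w x : ℂ) * (j i x * j i x)‖ ≤ B := by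
        refine (norm_sum_le _ _).trans (le_trans (sum_le_sum fun x _ => ?_) hB)
        rw [norm_mul, norm_mul, Complex.norm_real, Real.norm_of_nonneg (hw x)]
        exact mul_le_of_le_one_right (hw x) (mul_le_one₀ (hj _ _) (norm_nonneg _) (hj _ _))
      have h2 := mul_le_mul_of_nonneg_left this (mul_self_nonneg ‖a i‖)
      have h3 := mul_nonneg hE (mul_self_nonneg ‖a i‖)
      nlinarith
    · rw [zero_add, mul_comm E]
      exact mul_le_mul_of_nonneg_left (h i hi i' hi' q) (by positivity)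
  refine (norm_sum_le _ _).trans ((sum_le_sum fun i hi =>
    (norm_sum_le _ _).trans (sum_le_sum (h1 i hi))).trans ?_)
  simp only [sum_add_distrib, sum_ite_eq, ← mul_sum]
  rw [sum_congr rfl fun i hi => if_pos hi, ← mul_sum, ← sum_mul, ← sq, add_mul, mul_assoc]
  exact add_le_add_right (mul_le_mul_of_nonneg_left sq_sum_le_card_mul_sum_sq hE) _

theorem sum_le_of_inj {α β γ : Type} (P : Finset α) (T : Finset β) (f : α → ℝ) (g : β → ℝ)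
    (p : β → γ) (q : α → γ) (hq : Function.Injective q) (hg : ∀ b, 0 ≤ g b)
    (h : ∀ v ∈ P, ∃ b ∈ T, p b = q v ∧ f v = g b) : ∑ v ∈ P, f v ≤ ∑ b ∈ T, g b := by
  choose φ h1 h2 h3 using h
  rw [← sum_attach P, sum_congr rfl fun v _ => h3 v.1 v.2,
    ← sum_image (g := fun v : P => φ v.1 v.2) (f := g) fun x _ y _ e =>
      Subtype.ext (hq ((h2 x.1 x.2).symm.trans ((congrArg p e).trans (h2 y.1 y.2))))]
  refine sum_le_sum_of_subset_of_nonneg (fun b hb => ?_) fun b _ _ => hg b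
  obtain ⟨v, -, rfl⟩ := mem_image.1 hb
  exact h1 v.1 v.2

/-- the weights of the sieve -/
noncomputable def lm (ℓ : ℝ) (S : Finset (Pl K)) : ℝ := (-1) ^ S.card * St (Real.log (nS S) / ℓ)

theorem mem_eI {γ : 𝓞 K} {S : Finset (Pl K)} : γ ∈ eI S ↔ ∀ v ∈ S, γ ∈ v.asIdeal := by
  refine ⟨fun h v hv => eI_le_iff.2 hv h, fun h => ?_⟩
  rw [eI, ← Ideal.dvd_span_singleton]
  exact Finset.prod_dvd_of_coprime (fun v _ w _ e => v.isCoprime_of_ne w e)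
    fun v hv => Ideal.dvd_span_singleton.2 (h v hv)

theorem expand (𝒰 : Finset (Pl K)) (ℓ : ℝ) (𝒞 : Finset (𝓞 K)) (G : 𝓞 K → ℂ) :
    ∑ x ∈ 𝒞, ((sv 𝒰 ℓ x ^ 2 : ℝ) : ℂ) * G x = ∑ S ∈ 𝒰.powerset, ∑ S' ∈ 𝒰.powerset,
      (lm ℓ S * lm ℓ S' : ℝ) * ∑ x ∈ 𝒞, if x ∈ eI (S ∪ S') then G x else 0 := by
  simp only [sv, sq, sum_mul_sum]
  simp only [Complex.ofReal_sum, sum_mul, mul_sum]
  rw [sum_comm]
  refine sum_congr rfl fun S _ => ?_
  rw [sum_comm]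
  refine sum_congr rfl fun S' _ => sum_congr rfl fun x _ => ?_
  have e : x ∈ eI (S ∪ S') ↔ x ∈ eI S ∧ x ∈ eI S' := by simp only [mem_eI, forall_mem_union]
  by_cases h : x ∈ eI S <;> by_cases h' : x ∈ eI S' <;> simp [e, h, h', lm]

theorem sum_lm (𝒮 : Finset (Finset (Pl K))) {R : ℝ} (hR : 1 < R) :
    ∑ S ∈ 𝒮, |lm (Real.log R) S| ≤ (ids K R).card ∧
      ∀ S : Finset (Pl K), lm (Real.log R) S ≠ 0 → nS S ≤ R := by
  have h : ∀ S : Finset (Pl K), lm (Real.log R) S ≠ 0 → nS S ≤ R := fun S e => not_lt.1 fun l =>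
    e (by rw [lm, St_log (Real.log_pos hR) (by rw [Real.exp_log (by linarith)]; exact l.le),
      mul_zero])
  refine ⟨?_, h⟩
  rw [← sum_filter_of_ne (p := fun S => nS S ≤ R) fun S _ e => h S (abs_ne_zero.1 e)]
  refine (sum_le_card_nsmul _ _ 1 fun S _ => ?_).trans ?_
  · rw [lm, abs_mul, abs_neg_one_pow, one_mul, abs_of_nonneg (St_nonneg _)]
    exact St_le_one _
  · simpa using card_le_ids fun S h => (mem_filter.1 h).2

theorem norm_dbl (𝒮 : Finset (Finset (Pl K))) {R E : ℝ} (hR : 1 < R) (hE : 0 ≤ E)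
    (X : Finset (Pl K) → ℂ) (h : ∀ S, nS S ≤ R ^ 2 → ‖X S‖ ≤ E) :
    ‖∑ S ∈ 𝒮, ∑ S' ∈ 𝒮, (lm (Real.log R) S * lm (Real.log R) S' : ℝ) * X (S ∪ S')‖ ≤
      ((ids K R).card : ℝ) ^ 2 * E := by
  obtain ⟨h1, h2⟩ := sum_lm 𝒮 hR
  have h3 : ∀ S S' : Finset (Pl K), ‖(lm (Real.log R) S * lm (Real.log R) S' : ℝ) * X (S ∪ S')‖ ≤
      |lm (Real.log R) S| * |lm (Real.log R) S'| * E := fun S S' => by
    by_cases a : lm (Real.log R) S = 0
    · simp [a]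
    by_cases b : lm (Real.log R) S' = 0
    · simp [b]
    rw [norm_mul, Complex.norm_real, Real.norm_eq_abs, abs_mul]
    refine mul_le_mul_of_nonneg_left (h _ ((nS_union_le S S').trans ?_)) (by positivity)
    rw [sq]
    exact mul_le_mul (h2 S a) (h2 S' b) (nS_pos _).le (by linarith)
  refine (norm_sum_le _ _).trans ((sum_le_sum fun S _ =>
    (norm_sum_le _ _).trans (sum_le_sum fun S' _ => h3 S S')).trans ?_)
  simp only [← sum_mul, ← mul_sum]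
  rw [← sq]
  gcongr

/-- sums of periodic functions over `𝒞` are close to their mean -/
def Cub (𝒞 : Finset (𝓞 K)) (Θ : ℝ) : Prop := ∀ (m : ℕ) (F : 𝓞 K → ℂ), 1 ≤ m →
  Peri (sp (m : 𝓞 K)) F → (∀ x, ‖F x‖ ≤ 1) →
  ‖∑ x ∈ 𝒞, F x - 𝒞.card * PoiN.av (sp (m : 𝓞 K)) F‖ ≤ m * Θ

variable {𝒞 : Finset (𝓞 K)} {Θ : ℝ}

theorem nrm_ne {e : Ideal (𝓞 K)} (he : e ≠ ⊥) : Ideal.absNorm e ≠ 0 :=
  Ideal.absNorm_eq_zero_iff.not.2 he

theorem diag (h : Cub 𝒞 Θ) {e : Ideal (𝓞 K)} (he : e ≠ ⊥) :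
    ‖(∑ x ∈ 𝒞, if x ∈ e then (1 : ℂ) else 0) - 𝒞.card / (NN e : ℝ)‖ ≤ NN e * Θ := by
  have hle : sp (Ideal.absNorm e : 𝓞 K) ≤ e :=
    (Ideal.span_singleton_le_iff_mem _).2 (Ideal.absNorm_mem e)
  have hp := PoiN.per_ind e 0 1
  have ha := PoiN.av_ind e 0 1
  simp only [sub_zero] at hp ha
  have h1 := h (Ideal.absNorm e) _ (Nat.pos_of_ne_zero (nrm_ne he)) (hp.mono hle)
    fun x => by split_ifs <;> simp
  rw [PoiN.av_le (Ideal.span_singleton_eq_bot.not.2 (Nat.cast_ne_zero.2 (nrm_ne he))) hle hp, ha,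
    mul_one_div, ← Complex.ofReal_natCast (Ideal.absNorm e)] at h1
  exact h1

theorem norm_jq (𝔠 : Ideal (𝓞 K)) (κ γ : 𝓞 K) : ‖jq 𝔠 κ γ‖ ≤ 1 := by
  unfold jq
  split_ifs
  exacts [norm_jac_le _ _, by simp]

theorem off (hP : Y_PER K) (h : Cub 𝒞 Θ) {e 𝔠 : Ideal (𝓞 K)} {κ : 𝓞 K} (he : e ≠ ⊥) (hc : 𝔠 ≠ ⊥)
    (hκ : κ ≠ 0) {v : Pl K} (h2 : ¬ Dv 2 v) (ho : Odd (od v (κ : K))) :
    ‖∑ x ∈ 𝒞, if x ∈ e then jq 𝔠 κ x else 0‖ ≤ 8 * NN 𝔠 * NN (sp κ) * NN e * Θ := by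
  obtain ⟨p1, p2⟩ := hP 𝔠 κ hc hκ
  obtain ⟨u, ⟨u', b, hu⟩, hj⟩ := p2 v _ h2 ho (nrm_ne he)
  have h0 : 8 * Ideal.absNorm 𝔠 * Ideal.absNorm (sp κ) * Ideal.absNorm e ≠ 0 :=
    mul_ne_zero (mul_ne_zero (mul_ne_zero (by norm_num) (nrm_ne hc))
      (nrm_ne (Ideal.span_singleton_eq_bot.not.2 hκ))) (nrm_ne he)
  have hb : ((8 * Ideal.absNorm 𝔠 * Ideal.absNorm (sp κ) * Ideal.absNorm e : ℕ) : ℝ) =
      8 * NN 𝔠 * NN (sp κ) * NN e := by push_cast; rfl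
  have l1 : sp ((8 * Ideal.absNorm 𝔠 * Ideal.absNorm (sp κ) * Ideal.absNorm e : ℕ) : 𝓞 K) ≤ e := by
    rw [Ideal.span_singleton_le_iff_mem, Nat.cast_mul]
    exact e.mul_mem_left _ (Ideal.absNorm_mem e)
  have l2 : sp ((8 * Ideal.absNorm 𝔠 * Ideal.absNorm (sp κ) * Ideal.absNorm e : ℕ) : 𝓞 K) ≤
      sp ((8 * Ideal.absNorm 𝔠 * Ideal.absNorm (sp κ) : ℕ) : 𝓞 K) :=
    Ideal.span_singleton_le_span_singleton.2 (Nat.cast_dvd_cast (dvd_mul_right _ _))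
  rw [← hb]
  generalize 8 * Ideal.absNorm 𝔠 * Ideal.absNorm (sp κ) * Ideal.absNorm e = M at *
  have hp : Peri (sp (M : 𝓞 K)) fun x => if x ∈ e then jq 𝔠 κ x else 0 := fun x y hxy =>
    if_congr ⟨fun a => by simpa using e.sub_mem a (l1 hxy), fun a => by
      simpa using e.add_mem (l1 hxy) a⟩ (p1 x y (l2 hxy)) rfl
  have hu' : u * u' - 1 ∈ sp (M : 𝓞 K) :=
    Ideal.mem_span_singleton'.2 ⟨-b, by linear_combination -hu⟩
  have h1 := h M _ (Nat.pos_of_ne_zero h0) hp fun x => by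
    split_ifs
    exacts [norm_jq _ _ _, by simp]
  rwa [PoiN.av_eq_zero hp hu' 0 (c := -1) (by norm_num) fun x => ?_, mul_zero, sub_zero] at h1
  have e1 : u * x ∈ e ↔ x ∈ e := ⟨fun a => by
    have := e.sub_mem (e.mul_mem_left u' a) (e.mul_mem_left x (l1 hu'))
    rwa [show u' * (u * x) - x * (u * u' - 1) = x by ring] at this, e.mul_mem_left u⟩
  simp only [add_zero, e1, hj]
  split_ifs <;> simp

/-- the bound for one ideal class -/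
theorem core (hP : Y_PER K) (h : Cub 𝒞 Θ) (hΘ : 0 ≤ Θ) (𝒰 : Finset (Pl K)) {R N Z B : ℝ}
    (hR : 1 < R) (hB : ∑ S ∈ 𝒰.powerset, ∑ S' ∈ 𝒰.powerset,
      lm (Real.log R) S * lm (Real.log R) S' / nS (S ∪ S') ≤ B) {𝔠 : Ideal (𝓞 K)} (hc : 𝔠 ≠ ⊥)
    (hN : NN 𝔠 ≤ N) {ι : Type} (s : Finset ι) (z : ι → 𝓞 K) (a : ι → ℂ)
    (hz : ∀ i ∈ s, z i ≠ 0 ∧ NN (sp (z i)) ≤ Z) (hZ : 0 ≤ Z)
    (ho : ∀ i ∈ s, ∀ j ∈ s, i ≠ j → Od2 (z i) (z j)) :
    ∑ x ∈ 𝒞, sv 𝒰 (Real.log R) x ^ 2 * ‖∑ i ∈ s, a i * jq 𝔠 (z i) x‖ ^ 2 ≤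
      (𝒞.card * B + ((ids K R).card : ℝ) ^ 2 * (R ^ 2 * Θ) +
        ((ids K R).card : ℝ) ^ 2 * (8 * N * Z ^ 2 * R ^ 2 * Θ) * s.card) * ∑ i ∈ s, ‖a i‖ ^ 2 := by
  have N0 : 0 ≤ N := (NN_pos hc).le.trans hN
  refine quad s 𝒞 _ _ a (fun _ => sq_nonneg _) (fun _ _ => norm_jq _ _ _) (fun i x => ?_) ?_
    (by positivity) fun i hi j hj hij => ?_
  · unfold jq
    split_ifs
    exacts [conj_jac _ _, map_zero _]
  · have e := expand 𝒰 (Real.log R) 𝒞 fun _ => 1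
    have h1 := norm_dbl 𝒰.powerset hR (E := R ^ 2 * Θ) (by positivity)
      (fun S => (∑ x ∈ 𝒞, if x ∈ eI S then (1 : ℂ) else 0) - 𝒞.card / (nS S : ℝ))
      fun S hS => (diag h (eI_ne_bot S)).trans (mul_le_mul_of_nonneg_right hS hΘ)
    simp only [mul_sub, sum_sub_distrib] at h1
    rw [← e] at h1
    have e2 : (∑ x ∈ 𝒞, ((sv 𝒰 (Real.log R) x ^ 2 : ℝ) : ℂ) * 1) - ∑ S ∈ 𝒰.powerset,
        ∑ S' ∈ 𝒰.powerset, ((lm (Real.log R) S * lm (Real.log R) S' : ℝ) : ℂ) *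
          (𝒞.card / (nS (S ∪ S') : ℝ)) = ((∑ x ∈ 𝒞, sv 𝒰 (Real.log R) x ^ 2 - 𝒞.card *
          ∑ S ∈ 𝒰.powerset, ∑ S' ∈ 𝒰.powerset,
            lm (Real.log R) S * lm (Real.log R) S' / nS (S ∪ S') : ℝ) : ℂ) := by
      simp only [mul_sum, Complex.ofReal_sub, Complex.ofReal_sum, mul_one]
      refine congrArg _ (sum_congr rfl fun S _ => sum_congr rfl fun S' _ => ?_)
      simp only [Complex.ofReal_mul, Complex.ofReal_div, Complex.ofReal_natCast]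
      ring
    rw [e2, Complex.norm_real] at h1
    have h2 := mul_le_mul_of_nonneg_left hB (Nat.cast_nonneg (α := ℝ) 𝒞.card)
    linarith [le_of_abs_le h1]
  · have e : ∀ x, jq 𝔠 (z i) x * jq 𝔠 (z j) x = jq 𝔠 (z i * z j) x := fun x => by
      unfold jq
      split_ifs
      exacts [(jac_mul_left _ _ _).symm, mul_zero _]
    obtain ⟨v, h2, h3⟩ := ho i hi j hj hij
    simp only [e]
    rw [expand]
    refine norm_dbl _ hR (by positivity)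
      (fun S => ∑ x ∈ 𝒞, if x ∈ eI S then jq 𝔠 (z i * z j) x else 0) fun S hS =>
      (off hP h (eI_ne_bot S) hc (mul_ne_zero (hz i hi).1 (hz j hj).1) h2 h3).trans ?_
    have h4 : NN (sp (z i * z j)) ≤ Z ^ 2 := by
      rw [sp_mul, NN_mul, sq]
      exact mul_le_mul (hz i hi).2 (hz j hj).2 (Nat.cast_nonneg _) hZ
    gcongr

theorem sv_one {𝒰 : Finset (Pl K)} (ℓ : ℝ) {γ : 𝓞 K} (h : ∀ w ∈ 𝒰, γ ∉ w.asIdeal) :
    sv 𝒰 ℓ γ = 1 := by
  rw [sv, sum_eq_single_of_mem ∅ (empty_mem_powerset _) fun S hS e => ?_]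
  · simp [eI_empty, nS, NN, St_of_nonpos]
  · obtain ⟨w, hw⟩ := nonempty_iff_ne_empty.2 e
    exact if_neg fun a => h w (mem_powerset.1 hS hw) (mem_eI.1 a w hw)

theorem sp_ne {z z' : 𝓞 K} (hz : z ≠ 0) (hz' : z' ≠ 0) (h : Od2 z z') : sp z ≠ sp z' := fun e => by
  obtain ⟨v, -, h⟩ := h
  have h0 : sp z' ≠ ⊥ := Ideal.span_singleton_eq_bot.not.2 hz'
  rw [od_coe v (mul_ne_zero hz hz'), show Ideal.span {z * z'} = sp z' * sp z' by
    rw [← sp, sp_mul, e], cnt_mul v h0 h0, Nat.cast_add] at h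
  exact Int.not_odd_iff_even.2 ⟨_, rfl⟩ h

end PSLS

open PSLS in
theorem y_sLS (c : Cx k K) (hPER : Y_PER K) (hSVM : Y_SVM K) (hCUB : Y_CUB k K) : Y_SLS k K := by
  obtain ⟨n, -, hn⟩ := c.good.1 1 one_ne_zero
  obtain ⟨Cs, s1, hs⟩ := hSVM n hn.pos
  obtain ⟨Cu, u1, hu⟩ := hCUB
  obtain ⟨Cb, b1, hb⟩ := c.bal2 8 (by norm_num)
  obtain ⟨Cc, c1, hc⟩ := c.cnt.1
  have n0 : (n : 𝓞 K) ≠ 0 := Nat.cast_ne_zero.2 hn.pos
  have n1 : sp (n : 𝓞 K) ≠ ⊥ := Ideal.span_singleton_eq_bot.not.2 n0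
  have N1 := one_le_NN n1
  have r1 := c.one_le_rk
  have z0 := c.cz_pos
  set N := NN (sp (n : 𝓞 K)) with hN
  set D := (finite_mem_ideal n0).toFinset with hD
  obtain ⟨y₀, y3, hy⟩ := ev_log (N + 3) 1 z0
  have A1 : 1 ≤ Cb ^ rk k K := Real.one_le_rpow b1 (by linarith)
  refine ⟨1 + D.card * (Cu * (Cb ^ rk k K * N) * (Cs / cz k K + 9 * N * Cc ^ 3)), y₀,
    le_add_of_nonneg_right (by positivity), fun y ι s z a hy0 hz ho => ?_⟩
  have y1 : 3 ≤ y := y3.trans hy0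
  have y0 : 0 < y := by linarith
  have l1 : 1 ≤ Real.log y := (Real.le_log_iff_exp_le y0).2 (by linarith [Real.exp_one_lt_d9])
  have h1 := hy y hy0
  rw [pow_one] at h1
  have hZ : y ^ (2 * cz k K) = (y ^ cz k K) ^ 2 := by
    rw [mul_comm, Real.rpow_mul y0.le, Real.rpow_two]
  have hlog : Real.log (y ^ cz k K) = cz k K * Real.log y := Real.log_rpow y0 _
  have hRy : y ^ cz k K ≤ √y := by
    rw [Real.sqrt_eq_rpow]
    exact Real.rpow_le_rpow_of_exponent_le (by linarith) (by linarith [c.cz_le])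
  have hL0 : (y ^ cz k K) ^ 50 ≤ √(Cb * (N * y) ^ (1 / rk k K)) := by
    refine Real.le_sqrt_of_sq_le ?_
    rw [← pow_mul, ← Real.rpow_mul_natCast y0.le, show cz k K * ((50 * 2 : ℕ) : ℝ) = 1 / rk k K by
      unfold cz; push_cast; field_simp]
    exact (Real.rpow_le_rpow y0.le (le_mul_of_one_le_left y0.le N1) (by positivity)).trans
      (le_mul_of_one_le_left (by positivity) b1)
  have hL2 : √(Cb * (N * y) ^ (1 / rk k K)) ^ (2 * rk k K) = Cb ^ rk k K * N * y := by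
    rw [Real.rpow_mul (Real.sqrt_nonneg _), Real.rpow_two, Real.sq_sqrt (by positivity),
      Real.mul_rpow (by positivity) (by positivity), ← Real.rpow_mul (by positivity),
      one_div_mul_cancel (by positivity), Real.rpow_one, mul_assoc]
  rw [hZ] at hz
  generalize y ^ cz k K = R at *
  have R3 : 3 ≤ R := by nlinarith
  have RN : N ≤ R := by nlinarith
  have Rl : Real.log y ≤ R := by nlinarith
  have R50 : 1 ≤ R ^ 50 := one_le_pow₀ (by linarith)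
  obtain ⟨𝒞, k1, k2, k3⟩ := hu _ (R50.trans hL0)
  have hΘ : Cu * √(Cb * (N * y) ^ (1 / rk k K)) ^ (2 * rk k K - 1) ≤
      Cu * (Cb ^ rk k K * N * y) / R ^ 50 := by
    rw [Real.rpow_sub_one (by linarith), hL2, mul_div_assoc Cu]
    gcongr
  have hcub : Cub 𝒞 (Cu * (Cb ^ rk k K * N * y) / R ^ 50) := fun m F m1 p q =>
    (k3 m F m1 p q).trans (by
      rw [mul_comm Cu, mul_assoc]; exact mul_le_mul_of_nonneg_left hΘ (Nat.cast_nonneg _))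
  rw [hL2] at k2
  have hI : ((ids K R).card : ℝ) ≤ Cc * R := hc R _ (by linarith) fun I hI => mem_ids.1 hI
  have hS : (s.card : ℝ) ≤ Cc * R ^ 2 := by
    rw [← card_image_of_injOn (f := fun i => sp (z i)) fun i hi j hj e => not_not.1 fun q =>
      sp_ne (hz i hi).1 (hz j hj).1 (ho i hi j hj q) e]
    refine hc _ _ (by positivity) fun I hI => ?_
    obtain ⟨i, hi, rfl⟩ := mem_image.1 hI
    exact ⟨Ideal.span_singleton_eq_bot.not.2 (hz i hi).1, (hz i hi).2⟩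
  have c0 : ∀ 𝔠 : Ideal (𝓞 K), (n : 𝓞 K) ∈ 𝔠 → 𝔠 ≠ ⊥ ∧ NN 𝔠 ≤ N := fun 𝔠 h =>
    ⟨fun e => n0 (by simpa [e] using h),
      NN_le_of_le n1 ((Ideal.span_singleton_le_iff_mem _).2 h)⟩
  refine (sum_le_of_inj _ (D ×ˢ 𝒞) _ (fun p => sv ((pls K 0 R).filter fun v => ¬ Dv n v)
    (Real.log R) p.2 ^ 2 * ‖∑ i ∈ s, a i * jq p.1 (z i) p.2‖ ^ 2) (fun p => quo p.2 p.1)
    (fun v => v.asIdeal) (fun _ _ => HeightOneSpectrum.ext) (fun _ => by positivity)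
    fun v hv => ?_).trans ?_
  · obtain ⟨v1, v2⟩ := mem_pls.1 hv
    have v3 : ¬ Dv n v := fun e => by linarith [nv_le_of_dv hn.pos e]
    have v4 : ¬ Dv 2 v := fun e => v3 (v.asIdeal.mem_of_dvd
      (Nat.cast_dvd_cast ((by norm_num : 2 ∣ 8).trans hn.eight)) e)
    obtain ⟨𝔠, γ, g1, g2, g3⟩ := hn.rr _ ((cop_prime_iff v).2 v4)
    have g0 : γ ≠ 0 := fun e => mul_ne_zero v.ne_bot (c0 𝔠 g1).1 (by simp [g3, e])
    obtain ⟨u, g4, g5⟩ := hb γ g0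
    have g6 : v.asIdeal * 𝔠 = sp ((u : 𝓞 K) * γ) :=
      g3.trans (Ideal.span_singleton_mul_left_unit u.isUnit γ).symm
    have g7 : NN (sp γ) ≤ N * y := by
      rw [← g3, NN_mul, mul_comm]
      exact mul_le_mul (c0 𝔠 g1).2 v2 (nv_pos v).le (by linarith)
    have g8 : (8 : 𝓞 K) ∣ (u : 𝓞 K) * γ - 1 := by
      rw [show (u : 𝓞 K) * γ - 1 = (u - 1) * γ + (γ - 1) by ring]
      exact (Dvd.dvd.mul_right (by exact_mod_cast g4) _).add g2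
    have g9 : (u : 𝓞 K) * γ ∈ 𝔠 :=
      (g6.ge.trans Ideal.mul_le_right) (Ideal.mem_span_singleton_self _)
    refine ⟨(𝔠, (u : 𝓞 K) * γ), mem_product.2 ⟨(finite_mem_ideal n0).mem_toFinset.2 g1, k1 _ ?_⟩,
      quo_eq (c0 𝔠 g1).1 g6, ?_⟩
    · exact Bal.norm_le (Bal.mono (fun φ => (g5 φ).1) le_rfl (by linarith) (Nat.cast_nonneg _) g7)
    · simp only [jq, if_pos (And.intro g9 g8), quo_eq (c0 𝔠 g1).1 g6, jac_prime]
      rw [sv_one _ fun w hw e => ?_, one_pow, one_mul]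
      obtain ⟨w1, w2⟩ := mem_filter.1 hw
      rw [← Ideal.span_singleton_le_iff_mem, ← sp, ← g6, w.isPrime.mul_le] at e
      rcases e with e | e
      · linarith [NN_le_of_le v.ne_bot e, (mem_pls.1 w1).2,
          (congrArg NN (v.isMaximal.eq_of_le w.isPrime.ne_top e)).le]
      · exact w2 (e g1)
  rw [sum_product]
  refine (sum_le_card_nsmul _ _ _ fun 𝔠 h𝔠 => core hPER hcub (by positivity) _
    (B := Cs / Real.log R) (by linarith) (le_trans (le_of_eq ?_) (hs R R3))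
    (c0 𝔠 ((finite_mem_ideal n0).mem_toFinset.1 h𝔠)).1
    (c0 𝔠 ((finite_mem_ideal n0).mem_toFinset.1 h𝔠)).2 s z a hz (by positivity) ho).trans ?_
  · exact sum_congr rfl fun S _ => sum_congr rfl fun S' _ => by unfold lm; ring
  rw [nsmul_eq_mul, ← mul_assoc]
  refine mul_le_mul_of_nonneg_right ?_ (sum_nonneg fun _ _ => sq_nonneg _)
  have R1 : 1 ≤ R := by linarith
  generalize Cb ^ rk k K = A at *
  have e1 : 𝒞.card * (Cs / Real.log R) ≤ Cu * (A * N) * (Cs / cz k K) * (y / Real.log y) := by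
    refine (mul_le_mul_of_nonneg_right k2 (by rw [hlog]; positivity)).trans (le_of_eq ?_)
    rw [hlog]; field_simp
  have e2 : R ^ 10 * (Cu * (A * N * y) / R ^ 50) ≤ Cu * (A * N) * (y / Real.log y) := by
    rw [show R ^ 10 * (Cu * (A * N * y) / R ^ 50) = Cu * (A * N) * (y / R ^ 40) by field_simp]
    gcongr
    exact Rl.trans (le_self_pow₀ R1 (by norm_num))
  have T0 : 0 ≤ Cu * (A * N * y) / R ^ 50 := by positivity
  generalize Cu * (A * N * y) / R ^ 50 = T at *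
  have e3 : ((ids K R).card : ℝ) ^ 2 * (R ^ 2 * T) ≤ N * Cc ^ 3 * (R ^ 10 * T) :=
    calc _ ≤ (Cc * R) ^ 2 * (R ^ 2 * T) := by gcongr
      _ = 1 * Cc ^ 2 * (R ^ 4 * T) := by ring
      _ ≤ _ := by gcongr <;> norm_num
  have e4 : ((ids K R).card : ℝ) ^ 2 * (8 * N * (R ^ 2) ^ 2 * R ^ 2 * T) * s.card ≤
      8 * N * Cc ^ 3 * (R ^ 10 * T) :=
    calc _ ≤ (Cc * R) ^ 2 * (8 * N * (R ^ 2) ^ 2 * R ^ 2 * T) * (Cc * R ^ 2) := by gcongr
      _ = _ := by ring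
  have e5 := mul_le_mul_of_nonneg_left e2 (show 0 ≤ 9 * N * Cc ^ 3 by positivity)
  have e6 : 0 ≤ y / Real.log y := by positivity
  rw [mul_div_assoc, add_mul, one_mul, mul_assoc (D.card : ℝ)]
  refine le_add_of_nonneg_of_le e6 (mul_le_mul_of_nonneg_left ?_ (Nat.cast_nonneg _))
  linarith

end Pool.Agent.P.MP_b8021b_nt.BP
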