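import Pool.Agent.P.MP_b8021b_nt.BP.Basic

/-! Interface statements: primes, large sieve inequalities, Selmer groups, the Redei moment. -/

namespace Pool.Agent.P.MP_b8021b_nt.BP

open NumberField IsDedekindDomain Finset MeasureTheory
open Pool.Agent.P.MP_b8021b_nt.VE Pool.Agent.P.MP_b8021b_nt.VC Pool.Agent.P.MP_b8021b_nt.BS.CF
open Pool.Agent.P.MP_b8021b_nt.BS
open scoped Classical ComplexConjugate Real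

/-- the Fourier representation of the step -/
def Y_FI : Prop := ∃ h, FR h

/-- Dirichlet series near one -/
def Y_LIP : Prop :=
  ∀ (a : ℕ → ℂ) (A η : ℝ), 0 < η → η ≤ 1 →
    (∀ X : ℕ, ‖∑ j ∈ Icc 1 X, a j‖ ≤ A * (X : ℝ) ^ (1 - η)) → ∃ (z : ℂ) (A' : ℝ), 0 ≤ A' ∧
    (∀ X : ℕ, 1 ≤ X → ‖∑ j ∈ Icc 1 X, a j / j - z‖ ≤ A' * (X : ℝ) ^ (-η) ∧
      ‖∑ j ∈ Icc 1 X, a j * (Real.log j / j : ℝ)‖ ≤ A') ∧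
    ∀ s : ℂ, 1 < s.re → ‖s - 1‖ ≤ 1 → LSeriesSummable a s → ‖LSeries a s - z‖ ≤ A' * ‖s - 1‖

/-- Fourier analysis on the sign vectors and the flip -/
def Y_FOUR : Prop :=
  ∀ (ι : Type) [DecidableEq ι] (Γ : Finset ι) (q : ι) (G p : Finset ι → Prop)
    (σ : Finset ι → Finset ι), q ∉ Γ →
    (∀ S ⊆ Γ, ¬ G S → ¬ G (insert q S) → ∃ D ⊆ Γ, D ≠ ∅ ∧ p D ∧ S ∩ D = σ D) →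
    ∃ F : Finset ι → ℝ, ∑ D ∈ (insert q Γ).powerset, F D ^ 2 ≤ 1 ∧ 0 ≤ F ∅ ∧
      (1 - ∑ D ∈ Γ.powerset.erase ∅, if p D then ((2 : ℝ) ^ D.card)⁻¹ else 0) / 2 ≤ F ∅ ∧
      ∀ S ⊆ insert q Γ, ∑ D ∈ (insert q Γ).powerset, F D * (-1) ^ (D ∩ S).card =
        if G S then 1 else 0

/-- the mean of the kernel probability over the product measure -/
def Y_RED1 : Prop :=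
  ∀ (ι : Type) [DecidableEq ι] (P D : Finset ι) (p : ι → Prop) (N χ : ι → ℝ), (∀ v, 0 < N v) →
    D ⊆ P.filter p → (∀ v ∈ D, χ v = 0) →
    ∑ τ ∈ P.powerset, (∏ v ∈ τ, N v)⁻¹ * (if D ⊆ τ then
        (2 ^ D.card)⁻¹ * ∏ v ∈ τ.filter p \ D, (1 + χ v) / 2 else 0) =
      (∏ v ∈ P, (1 + (N v)⁻¹)) * (∏ v ∈ P.filter p, (1 + (2 * N v + 1)⁻¹)⁻¹) *
        (∏ v ∈ D, (2 * N v + 1)⁻¹) * ∏ v ∈ P.filter p, (1 + χ v * (2 * N v + 1)⁻¹)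

section Field

variable (K : Type) [Field K] [NumberField K]

/-! ### primes -/

/-- the bounds of Chebyshev -/
def Y_CH1 : Prop :=
  ∃ C : ℝ, 1 ≤ C ∧ ∀ y : ℝ, 2 ≤ y →
    ((pls K 0 y).card : ℝ) ≤ C * y / Real.log y ∧ lw (pls K 0 y) ≤ C * Real.log y

/-- sums over primes -/
def Y_CH2 : Prop :=
  ∃ C : ℝ, 1 ≤ C ∧
    (∀ y z : ℝ, 2 ≤ y → y ≤ z →
      ∑ v ∈ pls K y z, (nv v)⁻¹ ≤ C * (1 + Real.log (Real.log z / Real.log y))) ∧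
    (∀ (y σ : ℝ) (S : Finset (Pl K)), 2 ≤ y → 0 < σ → (∀ v ∈ S, y < nv v) →
      ∑ v ∈ S, nv v ^ (-(1 + σ)) ≤ C * (1 + max 0 (Real.log (1 / (σ * Real.log y))))) ∧
    (∀ (σ : ℝ) (S : Finset (Pl K)), 0 < σ → σ ≤ 1 →
      ∑ v ∈ S, nv v ^ (-(1 + σ)) ≤ C * (1 + Real.log (1 / σ))) ∧
    ∀ (W : ℝ) (S : Finset (Pl K)), 1 ≤ W → (∀ v ∈ S, W < nv v) →
      ∑ v ∈ S, Real.log (nv v) / nv v ^ 2 ≤ C / √W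

/-- comparison of two exponents -/
def Y_EU : Prop :=
  ∃ C : ℝ, 1 ≤ C ∧ ∀ (ℓ U : ℝ) (α β : ℂ) (S : Finset (Pl K)), 1 ≤ ℓ → 1 ≤ U → 1 / ℓ ≤ α.re →
    1 / ℓ ≤ β.re → ‖α‖ ≤ U / ℓ → ‖β‖ ≤ U / ℓ →
    ∑ v ∈ S, ‖(nv v : ℂ) ^ (-α) - (nv v : ℂ) ^ (-β)‖ / nv v ≤ C * (1 + Real.log U)

/-- two identities for sums over ideals -/
def Y_MEI : Prop :=
  (∀ (g : Ideal (𝓞 K) → ℂ) (w : ℕ → ℂ) (y : ℝ),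
    ∑ I ∈ ids K y, g I * w (Ideal.absNorm I) = ∑ j ∈ Icc 1 ⌊y⌋₊, lam g j * w j) ∧
  ∀ (g : Ideal (𝓞 K) → ℂ) (y : ℝ) (m : ℕ), y < 2 ^ m →
    ∑ I ∈ ids K y, g I * (Real.log (NN I) : ℝ) = ∑ v ∈ pls K 0 y, ∑ j ∈ Icc 1 m,
      (Real.log (nv v) : ℝ) * ∑ J ∈ ids K (y / nv v ^ j), g (v.asIdeal ^ j * J)

/-- the first theorem of Mertens -/
def Y_ME1 : Prop := ∃ C : ℝ, ∀ y : ℝ, 1 ≤ y → |lw (pls K 0 y) - Real.log y| ≤ C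

/-- the first theorem of Mertens for a character -/
def Y_ME2 : Prop :=
  ∀ (n : ℕ) (χ : Ideal (𝓞 K) →* ℂ), 2 ≤ n → RC n χ → ¬ IsTriv n χ →
    (∃ C : ℝ, ∀ s : ℝ, 1 < s → s ≤ 2 → -C ≤ dsum (lam χ) s) → ∃ C : ℝ, ∀ y : ℝ, 1 ≤ y →
    ‖∑ v ∈ pls K 0 y, χ v.asIdeal * (Real.log (nv v) / nv v : ℝ)‖ ≤ C

/-- primes at which `ζ` is or is not a square -/
def Y_BLK : Prop :=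
  ∀ ζ : K, Un ζ → ∃ B c y₀ : ℝ, 2 ≤ B ∧ 0 < c ∧ ∀ y, y₀ ≤ y →
    c * y / Real.log y ≤ ((pls K (y / B) y).filter (Ins ζ)).card ∧
      1 / 5 ≤ ∑ v ∈ QQ ζ y, (nv v)⁻¹

/-- lower bounds for the sum of the reciprocals -/
def Y_MER : Prop :=
  ∀ W : ℝ, (∃ C : ℝ, ∀ y : ℝ, 3 ≤ y → Real.log (Real.log y) - C ≤ ∑ v ∈ pls K W y, (nv v)⁻¹) ∧
    ∀ ζ : K, Un ζ → ∃ C : ℝ, ∀ y : ℝ, 3 ≤ y →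
      Real.log (Real.log y) / 2 - C ≤ ∑ v ∈ (pls K W y).filter (Sens ζ), (nv v)⁻¹

/-- primes in ray classes -/
def Y_DIR : Prop :=
  ∀ (N : ℕ) (I : Ideal (𝓞 K)) (W : ℝ), 2 ≤ N → Cop N I → ∃ v : Pl K, ¬ Dv N v ∧ W < nv v ∧
    ∃ γ : 𝓞 K, (N : 𝓞 K) ∣ γ - 1 ∧ I * v.asIdeal = sp γ

/-- primes that represent the ray classes -/
def Y_REP : Prop :=
  ∀ (N : ℕ) (W : ℝ), 2 ≤ N → ∃ ℛ : Finset (Pl K), Reps N ℛ ∧ (∀ v ∈ ℛ, ¬ Dv N v ∧ W < nv v) ∧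
    ∀ I J v, Cop N I → Cop N J → v ∈ ℛ →
      (∃ γ : 𝓞 K, (N : 𝓞 K) ∣ γ - 1 ∧ I * v.asIdeal = sp γ) →
      ((∃ γ : 𝓞 K, (N : 𝓞 K) ∣ γ - 1 ∧ J * v.asIdeal = sp γ) ↔ Ray N I J)

/-- the moduli -/
def Y_GD2 : Prop :=
  ∀ m : ℕ, m ≠ 0 → ∃ (n₀ n : ℕ) (ℛ ℛ' : Finset (Pl K)), m ∣ n ∧ Good2 n₀ n ℛ ℛ'

/-- the divisor bound and the harmonic sum -/
def Y_DIV : Prop :=
  (∀ a ε : ℝ, 1 ≤ a → 0 < ε → ∃ C : ℝ, 1 ≤ C ∧ ∀ I : Ideal (𝓞 K), I ≠ ⊥ →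
    a ^ (prI I).card ≤ C * NN I ^ ε ∧ (Set.ncard {J | J ∣ I} : ℝ) ≤ C * NN I ^ ε) ∧
  ∃ C : ℝ, 1 ≤ C ∧ ∀ y : ℝ, 1 ≤ y → ((ids K y).card : ℝ) ≤ C * y ∧
    (∑ I ∈ ids K y, (NN I)⁻¹ ≤ C * (1 + Real.log y)) ∧
    ∀ 𝔡 : Ideal (𝓞 K), 𝔡 ≠ ⊥ → (((ids K y).filter fun J => J ≤ 𝔡).card : ℝ) ≤ C * y / NN 𝔡

/-- finite Euler products -/
def Y_GEO : Prop :=
  (∀ (𝒰 : Finset (Pl K)) (g : Pl K → ℂ), (∀ v ∈ 𝒰, ‖g v‖ < 1) →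
    (Summable fun I : Ideal (𝓞 K) => ‖if prI I ⊆ 𝒰 then sg g I else 0‖) ∧
      HasSum (fun I : Ideal (𝓞 K) => if prI I ⊆ 𝒰 then sg g I else 0) (∏ v ∈ 𝒰, (1 - g v)⁻¹)) ∧
  ∀ n : ℕ, n ≠ 0 → ∃ C : ℝ, 1 ≤ C ∧ ∀ Z, ∑ I ∈ sm K n Z, (√(NN I))⁻¹ ≤ C

/-! ### sieves -/

/-- periodicity of the symbol in the generator -/
def Y_PER : Prop :=
  ∀ (𝔠 : Ideal (𝓞 K)) (κ : 𝓞 K), 𝔠 ≠ ⊥ → κ ≠ 0 →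
    Peri (sp ((8 * Ideal.absNorm 𝔠 * Ideal.absNorm (sp κ) : ℕ) : 𝓞 K)) (jq 𝔠 κ) ∧
    ∀ (v : Pl K) (m : ℕ), ¬ Dv 2 v → Odd (od v (κ : K)) → m ≠ 0 → ∃ u : 𝓞 K,
      IsCoprime u ((8 * Ideal.absNorm 𝔠 * Ideal.absNorm (sp κ) * m : ℕ) : 𝓞 K) ∧
      ∀ γ, jq 𝔠 κ (u * γ) = -jq 𝔠 κ γ

/-- the quadratic form of the sieve -/
def Y_SVM : Prop :=
  ∀ n : ℕ, n ≠ 0 → ∃ C : ℝ, 1 ≤ C ∧ ∀ R : ℝ, 3 ≤ R →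
    ∑ S ∈ ((pls K 0 R).filter fun v => ¬ Dv n v).powerset,
      ∑ S' ∈ ((pls K 0 R).filter fun v => ¬ Dv n v).powerset, (-1) ^ S.card * (-1) ^ S'.card *
        St (Real.log (nS S) / Real.log R) * St (Real.log (nS S') / Real.log R) / nS (S ∪ S') ≤
      C / Real.log R

/-! ### Selmer groups -/

/-- the group of conditions over two -/
def Y_GRP : Prop := ∀ ζ : K, ∃ 𝓛, Grp2 ζ 𝓛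

/-- auxiliary places -/
def Y_KILL : Prop := ∀ (ζ : K) (𝓛 : K → Prop), Un ζ → Grp2 ζ 𝓛 → ∃ V, Kill ζ 𝓛 V

/-- the local condition at a sensitive place -/
def Y_LIN : Prop :=
  ∀ (ζ T : K) (v : Pl K), Un ζ → Sens ζ v → T ≠ 0 → Odd (od v T) →
    (∀ x y, x ≠ 0 → y ^ 2 = x ^ 3 - ζ * T ^ 2 * x → Lin ζ v T x) ∧
    (∀ a c, Lin ζ v T a → Lin ζ v T c → Lin ζ v T (a * c) ∧ LN 2 v a c) ∧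
    (∀ c, Lin ζ v T c → Even (od v c) → LP 2 v c) ∧
    (∀ c u, Lin ζ v T c → LP 2 v u → Lin ζ v (T * u) c ∧ Lin ζ v T (c * u)) ∧
    ∀ a c u, u ≠ 0 → Even (od v u) → ¬ LP 2 v u → Lin ζ v T a → Lin ζ v (T * u) c →
      Odd (od v a) → Odd (od v c) → ¬ LP 2 v (a * c)

/-- the flip at the last prime -/
def Y_FLIP : Prop :=
  ∀ (ζ t₀ T : K) (𝓛 : K → Prop) (V Γ : Finset (Pl K)) (q : Pl K) (r : Finset (Pl K) → Prop)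
    (z : Finset (Pl K) → 𝓞 K) (u u' : 𝓞 K), Un ζ → Grp2 ζ 𝓛 → Kill ζ 𝓛 V → t₀ ≠ 0 → T ≠ 0 →
    (∀ v ∈ V, Odd (od v t₀)) → (∀ v ∈ insert q Γ, Sens ζ v ∧ v ∉ V ∧ Odd (od v T) ∧
      u ∉ v.asIdeal ∧ u' ∉ v.asIdeal) → (∀ v ∈ V ∪ Γ, ¬ Dv (Ideal.absNorm v.asIdeal) q) →
    (∀ D ⊆ insert q Γ, (∃ c, Rel ζ 𝓛 V t₀ D c) → r D ∧ Rel ζ 𝓛 V t₀ D (z D) ∧
      ∀ v ∈ insert q Γ, v ∉ D → z D ∉ v.asIdeal) →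
    (∀ v ∈ Γ, leg u v = leg u' v) → leg u q ≠ leg u' q →
    ¬ Unr ζ 𝓛 V t₀ (insert q Γ) (T * u) → ¬ Unr ζ 𝓛 V t₀ (insert q Γ) (T * u') →
    ∃ D ⊆ Γ, D ≠ ∅ ∧ r D ∧ (∀ v ∈ insert q Γ, v ∉ D → leg (z D) v = 1) ∧
      ∀ v ∈ D, (leg u v = -1 ↔ ¬ Lin ζ v T (z D))

/-- finiteness of the group of points -/
def Y_UFIN : Prop :=
  ∀ (ζ t₀ T : K) (𝓛 : K → Prop) (V Γ : Finset (Pl K)), Un ζ → Grp2 ζ 𝓛 → Kill ζ 𝓛 V → t₀ ≠ 0 →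
    T ≠ 0 → (∀ v, Dv 2 v → LP 2 v t₀) → (∀ v, Sens ζ v → (Odd (od v t₀) ↔ v ∈ V)) →
    (∀ v, Dv 2 v ∨ v ∈ V → LP 2 v T) → (∀ v, Sens ζ v → (Odd (od v T) ↔ v ∈ Γ)) →
    (∀ v ∈ Γ, Sens ζ v) → Unr ζ 𝓛 V t₀ Γ (t₀ * T) →
    Finite (Wb (-(ζ * (t₀ * T) ^ 2))).toAffine.Point

/-! ### the Redei moment -/

/-- the sum over the large dyadic blocks -/
def Y_BB4 : Prop :=
  ∃ (C : ℝ) (j : ℕ), 1 ≤ C ∧ ∀ (κ : Finset (Pl K) → Finset (Pl K) → ℂ) (𝒮 : Finset (Pl K))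
    (C₀ y D : ℝ), 0 ≤ C₀ → 3 ≤ y → 1 ≤ D → 𝒮 ⊆ pls K 0 y → KB κ 𝒮 C₀ →
    ‖∑ A ∈ 𝒮.powerset.filter (fun A => D < nS A), ∑ E ∈ 𝒮.powerset.filter (fun E => D < nS E),
      κ A E * (gS A * gS E : ℝ)‖ ≤ C * C₀ * Real.log y ^ j * D ^ (-(1 / 8 : ℝ))

/-- most of the mass is kept -/
def Y_MARK : Prop :=
  ∃ u W₁ : ℝ, 1 ≤ u ∧ ∀ W y : ℝ, W₁ ≤ W → 2 ≤ y →
    9 / 10 * Z0 (pls K W y) ≤ ∑ τ ∈ TT K W y u, (nS τ)⁻¹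

/-- Euler products with one small index -/
def Y_TE : Prop :=
  ∀ (ζ : K) (C₀ ε : ℝ), Un ζ → 0 < ε → ∃ W₁ : ℝ, ∀ W, W₁ ≤ W → ∃ y₁ : ℝ, ∀ y, y₁ ≤ y →
    ∀ (𝒟 : Finset (Finset (Pl K))) (z : Finset (Pl K) → 𝓞 K) (a : Pl K → ℂ),
      (∀ D ∈ 𝒟, D ≠ ∅ ∧ D ⊆ pls K W y ∧ nS D ≤ D0 y ∧ z D ≠ 0 ∧ NN (sp (z D)) ≤ C₀ * nS D) →
      (∀ D ∈ 𝒟, ∀ E ∈ 𝒟, D ≠ E → Od2 (z D) (z E)) → (∀ v, ‖a v‖ ≤ 1) →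
      GG ((pls K W y).filter (Sens ζ)) * (1 + ∑ D ∈ 𝒟, gS D) ^ 2 ≤ ε ∧
      GG ((pls K W y).filter (Sens ζ)) * ∑ D ∈ 𝒟, gS D *
        ‖∏ v ∈ (pls K W y).filter (Sens ζ), (1 + a v * leg (z D) v * (gg v : ℝ))‖ ≤ ε

end Field

section Rel

variable (k : Type) [Field k] [NumberField k] [Algebra k ℂ] (K : Type) [Field K] [NumberField K]
  [Algebra k K]

/-- auxiliary primes and generators -/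
def Y_AUX : Prop :=
  ∀ ζ : K, Un ζ → ∃ n₁ : ℕ, n₁ ≠ 0 ∧ ∀ N : ℕ, n₁ ∣ N → 2 ≤ N →
    ∃ (𝒜 : Fin 3 → Finset (Pl K)) (ax : Fin 3 → Ideal (𝓞 K) → Finset (Pl K))
      (tg : Fin 3 → Ideal (𝓞 K) → 𝓞 K) (C : ℝ), 1 ≤ C ∧
      (∀ i, ∀ v ∈ 𝒜 i, Ins ζ v ∧ ¬ Dv N v ∧ nv v ≤ C) ∧ (∀ i j, i ≠ j → Disjoint (𝒜 i) (𝒜 j)) ∧
      ∀ i I, Cop N I → ax i I ⊆ 𝒜 i ∧ (ax i I).card ≤ 2 ∧ (N : 𝓞 K) ∣ tg i I - 1 ∧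
        sp (tg i I) = I * eI (ax i I) ∧ Bal k C (NN I) (tg i I)

/-- sums of periodic functions over a cube -/
def Y_CUB : Prop :=
  ∃ C : ℝ, 1 ≤ C ∧ ∀ L : ℝ, 1 ≤ L → ∃ 𝒞 : Finset (𝓞 K), (∀ x, ‖emb k x‖ ≤ L → x ∈ 𝒞) ∧
    (𝒞.card : ℝ) ≤ C * L ^ (2 * rk k K) ∧ ∀ (m : ℕ) (F : 𝓞 K → ℂ), 1 ≤ m →
      Peri (sp (m : 𝓞 K)) F → (∀ x, ‖F x‖ ≤ 1) →
      ‖∑ x ∈ 𝒞, F x - 𝒞.card * PoiN.av (sp (m : 𝓞 K)) F‖ ≤ C * m * L ^ (2 * rk k K - 1)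

/-- the sieved large sieve inequality -/
def Y_SLS : Prop :=
  ∃ C y₀ : ℝ, 1 ≤ C ∧ ∀ (y : ℝ) (ι : Type) (s : Finset ι) (z : ι → 𝓞 K) (a : ι → ℂ), y₀ ≤ y →
    (∀ i ∈ s, z i ≠ 0 ∧ NN (sp (z i)) ≤ y ^ (2 * cz k K)) →
    (∀ i ∈ s, ∀ j ∈ s, i ≠ j → Od2 (z i) (z j)) →
    ∑ v ∈ pls K √y y, ‖∑ i ∈ s, a i * leg (z i) v‖ ^ 2 ≤ C * y / Real.log y * ∑ i ∈ s, ‖a i‖ ^ 2

/-- the harmonic form -/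
def Y_SLH : Prop :=
  ∃ C y₀ : ℝ, 1 ≤ C ∧ 2 ≤ y₀ ∧ ∀ (y Y : ℝ) (ι : Type) (s : Finset ι) (z : ι → 𝓞 K)
    (S : Finset (Pl K)) (a : Pl K → ℂ), y₀ ≤ y → y ≤ Y → S ⊆ pls K y Y → (∀ v, ‖a v‖ ≤ 1) →
    (∀ i ∈ s, z i ≠ 0 ∧ NN (sp (z i)) ≤ y ^ cz k K) →
    (∀ i ∈ s, ∀ j ∈ s, i ≠ j → Od2 (z i) (z j)) →
    ∑ i ∈ s, ‖∑ v ∈ S, a v * leg (z i) v / (nv v : ℝ)‖ ^ 2 ≤
      C * (1 + Real.log (Real.log Y / Real.log y)) ^ 2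

/-- the form for a block -/
def Y_SLT : Prop :=
  ∀ (n : ℕ) (𝒜 : Finset (Pl K)) (C₀ : ℝ), Good K n → ∃ C y₀ : ℝ, 1 ≤ C ∧ 2 ≤ y₀ ∧
    ∀ (y : ℝ) (T : Finset (𝓞 K)), y₀ ≤ y → Blk k n 𝒜 C₀ y T →
      (T.card : ℝ) ≤ C * y / Real.log y ∧ ∀ 𝒩 : Finset (Ideal (𝓞 K)),
        (∀ I ∈ 𝒩, Squarefree I ∧ Cop n I ∧ NN I ≤ y ^ cz k K) → Hs T 𝒩 (C * y / Real.log y)

/-- the amplified large sieve inequality -/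
def Y_LSH : Prop :=
  ∀ (n : ℕ) (𝒜 : Finset (Pl K)) (C₀ : ℝ) (j : ℕ), Good K n → 1 ≤ j → ∃ C y₀ : ℝ, 1 ≤ C ∧
    ∀ (y N : ℝ) (T : Finset (𝓞 K)) (𝒩 : Finset (Ideal (𝓞 K))) (a : 𝓞 K → ℂ), y₀ ≤ y →
      Blk k n 𝒜 C₀ y T → 1 ≤ N → N ≤ y ^ (j / 2 : ℝ) → (∀ I ∈ 𝒩, Squarefree I ∧ NN I ≤ N) →
      (∀ t, ‖a t‖ ≤ 1) →
      ∑ I ∈ 𝒩, ‖∑ t ∈ T, a t * jac t I‖ ^ 2 ≤ C * N ^ (1 - 1 / (j : ℝ)) * y ^ 2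

/-- the classes attached to the sets of places -/
def Y_RDAT : Prop :=
  ∀ (ζ t₀ : K) (𝓛 : K → Prop) (V : Finset (Pl K)) (N₀ : ℕ), Un ζ → Grp2 ζ 𝓛 → t₀ ≠ 0 →
    (∀ v ∈ V, Sens ζ v ∧ Odd (od v t₀)) → N₀ ≠ 0 → ∃ d : RD K, N₀ ∣ d.N ∧ d.Ok k ∧
      (∀ v ∈ V, Ideal.absNorm v.asIdeal ∣ d.N) ∧ ∀ D, (∀ v ∈ D, d.W < nv v) →
        ((∃ c, Rel ζ 𝓛 V t₀ D c) → d.r D ∧ Rel ζ 𝓛 V t₀ D (d.z D)) ∧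
          ∀ v, d.W < nv v → (d.z D ∈ v.asIdeal ↔ v ∈ D)

/-- the descent -/
def Y_SELM : Prop :=
  ∀ ζ : 𝓞 K, Un (ζ : K) → ∃ V : Finset (Pl K), (∀ v ∈ V, ¬ Dv 2 v ∧ LP 2 v (ζ : K)) ∧
    ∀ t₀ : 𝓞 K, (8 : 𝓞 K) ∣ t₀ - 1 →
      (∀ v, ¬ Dv 2 v → (Odd (od v (t₀ : K)) ∧ LP 2 v (ζ : K) ↔ v ∈ V)) →
      ∀ N₀ : ℕ, N₀ ≠ 0 → ∃ d : RD K, N₀ ∣ d.N ∧ d.Ok k ∧ SC ζ t₀ V d

/-- one bilinear block -/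
def Y_BB3 : Prop :=
  ∀ (n : ℕ) (C₀ : ℝ), Good K n → ∃ C : ℝ, 1 ≤ C ∧ ∀ (M N : ℝ) (T : Finset (𝓞 K))
    (𝒩 : Finset (Ideal (𝓞 K))) (a : 𝓞 K → ℂ) (b : Ideal (𝓞 K) → ℂ), 1 ≤ N → N ≤ M →
    (∀ t ∈ T, (n : 𝓞 K) ∣ t - 1 ∧ Bal k C₀ M t) → Set.InjOn sp (T : Set (𝓞 K)) →
    (∀ I ∈ 𝒩, Squarefree I ∧ NN I ≤ 2 * N ∧ ‖b I‖ ≤ N⁻¹) →
    ‖∑ t ∈ T, ∑ I ∈ 𝒩, a t * b I * jac t I‖ ≤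
      C * √(M * ∑ t ∈ T, ‖a t‖ ^ 2) * N ^ (-(1 / 8 : ℝ))

/-- the second form of the kernel -/
def KF (n : ℕ) (d : RD K) (C W : ℝ) (b : Finset (Pl K) → 𝓞 K)
    (Φ : Pl K → Finset (Pl K) → ℂ) : Prop :=
  1 ≤ C ∧ d.W ≤ W ∧ (∀ v E, ‖Φ v E‖ ≤ 1) ∧ ∀ E, (∀ v ∈ E, W < nv v) →
    (n : 𝓞 K) ∣ b E - 1 ∧ b E ≠ 0 ∧ Bal k C (nS E) (b E) ∧ NN (sp (b E)) ≤ C * nS E ∧
      (∃ w : Pl K, nv w ≤ W ∧ sp (b E) = eI E * w.asIdeal) ∧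
      ∀ D, (∀ v ∈ D, W < nv v) → d.κ D E = Φ (d.cl D) E * jac (b E) (eI D)

/-- existence of the second form -/
def Y_KF1 : Prop :=
  ∃ n N₀ : ℕ, Good K n ∧ N₀ ≠ 0 ∧ n ∣ N₀ ∧ ∀ d : RD K, d.Ok k → N₀ ∣ d.N →
    ∃ C W b Φ, KF k K n d C W b Φ

/-- the bilinear bound for the kernel -/
def Y_KF2 : Prop :=
  ∀ (n : ℕ) (d : RD K) (C W : ℝ) (b : Finset (Pl K) → 𝓞 K) (Φ : Pl K → Finset (Pl K) → ℂ),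
    Good K n → d.Ok k → n ∣ d.N → KF k K n d C W b Φ → ∃ C' : ℝ, 0 ≤ C' ∧
      ∀ 𝒮 : Finset (Pl K), (∀ v ∈ 𝒮, W < nv v) → KB d.κ 𝒮 C'

/-- the terms with a small second index -/
def Y_RT2 : Prop :=
  ∀ (ζ : K) (n : ℕ) (d : RD K) (C W₀ ε : ℝ) (b : Finset (Pl K) → 𝓞 K)
    (Φ : Pl K → Finset (Pl K) → ℂ), Un ζ → d.Ok k → KF k K n d C W₀ b Φ → 0 < ε →
    ∃ W₁ : ℝ, ∀ W, W₁ ≤ W → ∃ y₁ : ℝ, ∀ y, y₁ ≤ y →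
      GG ((pls K W y).filter (Sens ζ)) *
        ∑ E ∈ (((pls K W y).filter (Sens ζ)).powerset.erase ∅).filter (fun E => nS E ≤ D0 y),
          gS E * ‖∑ D ∈ ((pls K W y).filter (Sens ζ)).powerset, d.κ D E * (gS D : ℝ)‖ ≤ ε

/-- the Redei moment -/
def Y_RED2 : Prop :=
  ∀ ζ : K, Un ζ → ∃ N₀ : ℕ, N₀ ≠ 0 ∧ ∀ d : RD K, d.Ok k → N₀ ∣ d.N →
    ∃ W₁ : ℝ, ∀ W, W₁ ≤ W → ∃ y₁ : ℝ, ∀ y, y₁ ≤ y →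
      GG ((pls K W y).filter (Sens ζ)) *
        ∑ D ∈ ((pls K W y).filter (Sens ζ)).powerset.erase ∅, (if d.r D then
          gS D * ∏ v ∈ (pls K W y).filter (Sens ζ), (1 + lr (d.z D) v * gg v) else 0) ≤ 11 / 10

/-- the last prime -/
def Y_RED3 : Prop :=
  ∀ (ζ : K) (d : RD K), d.Ok k → ∃ C y₀ : ℝ, ∀ W y u yq : ℝ, d.W ≤ W → 1 ≤ W → y₀ ≤ yq →
    d.C * d.W * y ^ u ≤ yq ^ cz k K →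
    ∑ τ ∈ (pls K W y).powerset, (nS τ)⁻¹ * ∑ D ∈ (τ.filter (Sens ζ)).powerset.erase ∅,
      pik d.r d.z D (τ.filter (Sens ζ)) ≤ 2 * Z0 (pls K W y) →
    ∑ τ ∈ TT K W y u, (nS τ)⁻¹ * ∑ D ∈ (τ.filter (Sens ζ)).powerset.erase ∅,
      pik d.r d.z D (τ.filter (Sens ζ)) * ∑ q ∈ QQ ζ yq, lr (d.z D) q / nv q ≤
      C / √W * Z0 (pls K W y)

/-- a positive proportion of the mass has a trivial kernel -/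
def Y_TAU : Prop :=
  ∀ ζ : K, Un ζ → ∃ N₀ : ℕ, N₀ ≠ 0 ∧ ∀ d : RD K, d.Ok k → N₀ ∣ d.N →
    ∃ u A W₁ : ℝ, 1 ≤ u ∧ 1 ≤ A ∧ ∀ W, W₁ ≤ W → ∃ y₁ : ℝ, ∀ y yq : ℝ, y₁ ≤ y → y ^ A ≤ yq →
      1 / 5 ≤ ∑ q ∈ QQ ζ yq, (nv q)⁻¹ ∧
      Z0 (pls K W y) * (∑ q ∈ QQ ζ yq, (nv q)⁻¹) / 10 ≤ ∑ τ ∈ TT K W y u, ∑ q ∈ QQ ζ yq,
        (nS τ * nv q)⁻¹ * ((1 - Yv d.r d.z (τ.filter (Sens ζ)) q) / 2)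

end Rel

end Pool.Agent.P.MP_b8021b_nt.BP
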