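import Pool.Agent.P.MP_b8021b_nt.BP.StA

/-! Interface statements: the approximate functional equation and the first moment. -/

namespace Pool.Agent.P.MP_b8021b_nt.BP

open NumberField IsDedekindDomain Finset MeasureTheory
open Pool.Agent.P.MP_b8021b_nt.VE Pool.Agent.P.MP_b8021b_nt.VC Pool.Agent.P.MP_b8021b_nt.BS.CF
open Pool.Agent.P.MP_b8021b_nt.BS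
open scoped Classical ComplexConjugate Real

/-- the weight of the approximate functional equation -/
def Y_VW : Prop :=
  ∀ (h : ℝ → ℂ) (f : ℝ → ℝ), FR h → Ker f → ∃ C : ℝ, 1 ≤ C ∧ 0 < ∫ z in Set.Ioi (0 : ℝ), f z ∧
    ∀ ℓ Y : ℝ, 0 < ℓ → 0 < Y → Continuous (ftl f ℓ) ∧ (∀ b, ‖ftl f ℓ b‖ ≤ C) ∧
      (∀ y, 0 < y → (Vw f ℓ Y y : ℂ) = ∫ b, Hv h f ℓ Y y b) ∧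
      (∀ y, Y * Real.exp (2 * ℓ) ≤ y → Vw f ℓ Y y = 0) ∧
      |Vw f ℓ Y 1 - ∫ z in Set.Ioi (0 : ℝ), f z| ≤ C * ((√Y)⁻¹ + Real.exp (-ℓ)) ∧
      ∀ ρ, 0 < ρ → Continuous (Hv h f ℓ Y ρ) ∧
        (∀ b, ‖Hv h f ℓ Y ρ b‖ ≤ C * (Y / ρ) ^ (1 / ℓ) * ‖h b‖) ∧
        ∀ Z, Y * Real.exp (2 * ℓ) ≤ ρ * Z →
          Wt ℓ Z (fun y => Vw f ℓ Y (ρ * y)) (Hv h f ℓ Y ρ) 0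

/-- the weight of the second moment -/
def Y_WB : Prop :=
  ∀ h : ℝ → ℂ, FR h → ∃ C : ℝ, 1 ≤ C ∧ ∀ ℓ Y b : ℝ, 1 ≤ ℓ → 0 < Y →
    Wt ℓ (Y * Real.exp ℓ) (Wb2 ℓ Y b) (fun a => h a * (Y : ℂ) ^ sx ℓ a) (sx ℓ b) ∧
      LL (Wb2 ℓ Y b) (C * (1 + |b|)) (Y * Real.exp ℓ)

/-- the local factors -/
def Y_EV0 : Prop :=
  ∀ a b : ℂ, ‖a‖ ^ 2 ≤ 1 / 2 → ‖b‖ ^ 2 ≤ 1 / 2 → Ev a b ≠ 0 ∧ ‖(Ev a b)⁻¹‖ ≤ 3 ∧ ‖Ev a b‖ ≤ 3 ∧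
    ‖Od a b‖ ≤ 2 * ‖b - a‖ ∧ ‖Od a b / Ev a b‖ ≤ 2 * ‖b - a‖ ∧
    ‖Ev a b - 1‖ ≤ 2 * ‖b‖ * ‖b - a‖ ∧ ‖(Ev a b)⁻¹ - 1‖ ≤ 2 * ‖b‖ * ‖b - a‖ ∧
    ∀ x : ℂ, x = 1 ∨ x = -1 → (1 - a * x) / (1 - b * x) = Ev a b + Od a b * x

section Field

variable (K : Type) [Field K] [NumberField K]

/-- interchange of the sum and the integral -/
def Y_AF2a : Prop :=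
  ∀ (f : ℝ → ℝ) (D : Ideal (𝓞 K) → ℂ) (A₀ ρ Y ℓ : ℝ), Ker f → (∀ I, ‖D I‖ ≤ A₀) → 0 < ρ → 0 < Y →
    0 < ℓ → HasSum (fun I => D I * (Vf f ℓ Y (ρ * NN I) : ℝ) / (√(NN I) : ℝ))
      (∫ τ in Set.Ioi (0 : ℝ), (St (Real.log (ρ / (τ * Y)) / ℓ) : ℝ) * Th f D τ / τ)

/-- the truncation -/
def Y_AF2 : Prop :=
  ∀ (f : ℝ → ℝ) (A : ℝ), Ker f → 0 < A → ∃ C : ℝ, 1 ≤ C ∧ ∀ (D : Ideal (𝓞 K) → ℂ)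
    (A₀ ρ Y ℓ Z : ℝ), (∀ I, ‖D I‖ ≤ A₀) → 0 < ρ → 0 < Y → 0 < ℓ → Y * Real.exp (2 * ℓ) ≤ ρ * Z →
    ‖(∫ τ in Set.Ioi (0 : ℝ), (St (Real.log (ρ / (τ * Y)) / ℓ) : ℝ) * Th f D τ / τ) -
      ∑ I ∈ ids K Z, D I * (Vw f ℓ Y (ρ * NN I) : ℝ) / (√(NN I) : ℝ)‖ ≤
      C * A₀ * (Y * Real.exp ℓ / ρ) * Real.exp (-(A * ℓ))

/-- splitting off the prime factors over `n` -/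
def Y_AF3 : Prop :=
  ∀ (n : ℕ) (χ : Ideal (𝓞 K) →* ℂ) (D : Ideal (𝓞 K) → ℂ) (t : 𝓞 K) (W : ℝ → ℂ) (Z : ℝ), n ≠ 0 →
    (∀ I, ¬ Cop n I → χ I = 0) → (∀ I 𝔮, Cop n 𝔮 → D (I * 𝔮) = D I * χ 𝔮) → (n : 𝓞 K) ∣ t - 1 →
    (∀ y, Z ≤ y → W y = 0) →
    ∑ I ∈ ids K Z, D I * jac t I * W (NN I) / (√(NN I) : ℝ) =
      ∑ I ∈ sm K n Z, D I / (√(NN I) : ℝ) * Aw χ (leg t) (fun y => W (NN I * y)) Z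

/-- the mollified polynomial as an integral of Euler products -/
def Y_EXP : Prop :=
  ∀ (h H W : ℝ → ℂ) (χ Ψ : Ideal (𝓞 K) →* ℂ) (x : Pl K → ℂ) (ℓ Z : ℝ) (σ : ℂ)
    (𝒰 : Finset (Pl K)), FR h → 0 < ℓ → Wt ℓ Z W H σ → (∀ I, ‖χ I‖ ≤ 1) → (∀ I, ‖Ψ I‖ ≤ 1) →
    Sgn x → pls K 0 Z ⊆ 𝒰 → pls K 0 (Real.exp ℓ) ⊆ 𝒰 →
    (Integrable fun p : ℝ × ℝ => H p.1 * h p.2 *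
      ∏ v ∈ 𝒰, (1 - cf Ψ (sx ℓ p.2) v * x v) / (1 - cf χ (σ + sx ℓ p.1) v * x v)) ∧
    Aw χ x W Z * Mw Ψ x ℓ = ∫ p : ℝ × ℝ, H p.1 * h p.2 *
      ∏ v ∈ 𝒰, (1 - cf Ψ (sx ℓ p.2) v * x v) / (1 - cf χ (σ + sx ℓ p.1) v * x v)

/-- the expansion along squarefree ideals -/
def Y_DEC : Prop :=
  ∀ (h H W : ℝ → ℂ) (χ Ψ : Ideal (𝓞 K) →* ℂ) (ℓ Z : ℝ) (𝒰 : Finset (Pl K)), FR h → 0 < ℓ →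
    Wt ℓ Z W H 0 → (∀ I, ‖χ I‖ ≤ 1) → (∀ I, ‖Ψ I‖ ≤ 1) → pls K 0 Z ⊆ 𝒰 →
    pls K 0 (Real.exp ℓ) ⊆ 𝒰 → ∀ (x : Pl K → ℂ) (𝒱 : Finset (Pl K)), Sgn x →
    (∀ v ∈ 𝒰, v ∈ 𝒱 ↔ x v = 0) → Aw χ x W Z * Mw Ψ x ℓ =
      ∑ S ∈ 𝒰.powerset.filter (fun S => nS S ≤ Z * Real.exp ℓ), sg x (eI S) * dd χ Ψ H h ℓ 𝒰 S 𝒱

/-- the even part is bounded -/
def Y_EVA : Prop :=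
  ∃ (C : ℝ) (j : ℕ), 1 ≤ C ∧ ∀ (Ψ : Ideal (𝓞 K) → ℂ) (ℓ a b : ℝ) (𝒬 : Finset (Pl K)),
    (∀ I, ‖Ψ I‖ ≤ 1) → 1 ≤ ℓ → ‖EvP Ψ Ψ ℓ a b 𝒬‖ ≤ C * (1 + |a| + |b|) ^ j

/-- the finite Euler product approximates the series -/
def Y_EPA : Prop :=
  ∃ C : ℝ, 1 ≤ C ∧ ∀ (χ : Ideal (𝓞 K) →* ℂ) (ℓ : ℝ) (s : ℂ), (∀ I, ‖χ I‖ ≤ 1) → 1 ≤ ℓ →
    1 / ℓ ≤ s.re → ‖(∏ v ∈ PP K ℓ, (1 - χ v.asIdeal * (nv v : ℂ) ^ (-(1 + s)))) *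
      LSeries (lam χ) (1 + s) - 1‖ ≤ C / ℓ

/-- the bilinear form and two mean squares -/
def Y_BIL0 : Prop :=
  ∀ (n : ℕ) (T₁ T₂ : Finset (𝓞 K)) (a₁ a₂ : 𝓞 K → ℂ) (F : Finset (Pl K) → ℝ) (Γ : Finset (Pl K))
    (c : Finset (Pl K) → ℂ) (𝒮 : Finset (Finset (Pl K))) (𝒩 : Finset (Ideal (𝓞 K)))
    (Δ₁ Δ₂ κ : ℝ), Adc n Γ a₁ a₂ F c → MS T₁ 𝒩 Δ₁ → MS T₂ 𝒩 Δ₂ → 0 ≤ κ → (∀ S ∈ 𝒮, ‖c S‖ ≤ κ) →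
    ((∀ S ∈ 𝒮, c S ≠ 0 → ∀ D ⊆ Γ, eI (D ∪ S) ∈ 𝒩) → ‖bs T₁ T₂ a₁ a₂ F Γ c 𝒮‖ ≤ κ * √(Δ₁ * Δ₂)) ∧
    ((∀ S ∈ 𝒮, c S ≠ 0 → eI S ∈ 𝒩) →
      ‖bs T₁ T₂ a₁ a₂ F Γ c 𝒮‖ ≤ 2 ^ Γ.card * κ * √(Δ₁ * Δ₂))

end Field

section Rel

variable (k : Type) [Field k] [NumberField k] [Algebra k ℂ] (K : Type) [Field K] [NumberField K]
  [Algebra k K]

/-! ### the functional equation -/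

/-- from ideals to elements -/
def Y_FE1 : Prop :=
  ∀ (n m : ℕ) (ℓ : ℝ) (U : UB k K m ℓ) (Ψ : Ideal (𝓞 K) →* ℂ) (ℛ : Finset (Ideal (𝓞 K))) (J : ℝ),
    Good K n → IsP k n Ψ → (∀ 𝔠 ∈ ℛ, (n : 𝓞 K) ∈ 𝔠) →
    (∀ I : Ideal (𝓞 K), I ≠ ⊥ → ∃! 𝔠, 𝔠 ∈ ℛ ∧ ∃ γ, I * 𝔠 = sp γ) → 0 < J →
    (∀ α : 𝓞 K, α ≠ 0 → {κ : 𝓞 K | sp κ = sp α ∧ U.β (emb k κ) ≠ 0}.Finite ∧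
      ∑ᶠ κ ∈ {κ : 𝓞 K | sp κ = sp α}, U.β (emb k κ) = J) →
    ∀ t : 𝓞 K, (n : 𝓞 K) ∣ t - 1 → ∀ τ, 0 < τ → Tw (kk U) Ψ t τ =
      ∑ 𝔠 ∈ ℛ, ((√(NN 𝔠) / J : ℝ) : ℂ) *
        LT U (fun β => PFE1.co k Ψ 𝔠 β * dP (emb k β) * jac β (sp t)) (τ / NN 𝔠)

/-- the transformation of the series over elements -/
def Y_FE2 : Prop :=
  ∀ (n : ℕ) (ℓ : ℝ) (U : UB k K (n ^ 3) ℓ), Good K n → U.Tr (fun _ => 1) 0 → ∃ γ : ℂ,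
    ∀ φ : 𝓞 K → ℂ, Peri (sp ((n ^ 2 : ℕ) : 𝓞 K)) φ → ∀ t, Pri (n ^ 2) t → ∀ τ, 0 < τ →
      LT U (fun β => φ β * dP (emb k β) * jac β (sp t)) τ = eps k t * γ *
        LT U (fun κ => hatM ((n ^ 3 : ℕ) : 𝓞 K) φ κ * conj (dP (emb k κ)) * jac κ (sp t))
          ((NN (sp ((n ^ 3 : ℕ) : 𝓞 K)))⁻¹ / (τ * NN (sp t)))

/-- the dual coefficients -/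
def Y_COV1 : Prop :=
  ∀ (n : ℕ) (Ψ : Ideal (𝓞 K) →* ℂ), Good K n → IsP k n Ψ → ∀ I : Ideal (𝓞 K),
    (I ≠ ⊥ → Peri (sp (n : 𝓞 K) * I) (PFE1.co k Ψ I)) ∧ ‖ctd k n Ψ I‖ ≤ 1 ∧
    (∀ 𝔮, Cop n 𝔮 → ctd k n Ψ (I * 𝔮) = ctd k n Ψ I * conj (Ψ 𝔮)) ∧
    (ctd k n Ψ I ≠ 0 → I ≤ sp (n : 𝓞 K))

/-- the dual coefficients as Fourier transforms -/
def Y_COV2 : Prop :=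
  ∀ (n : ℕ) (Ψ : Ideal (𝓞 K) →* ℂ) (𝔠 : Ideal (𝓞 K)) (κ : 𝓞 K), Good K n → IsP k n Ψ →
    (n : 𝓞 K) ∈ 𝔠 → κ ≠ 0 →
    (NN 𝔠 : ℝ) * (hatM ((n ^ 3 : ℕ) : 𝓞 K) (PFE1.co k Ψ 𝔠) κ * conj (dP (emb k κ))) =
      ctd k n Ψ (sp κ * 𝔠)

/-- the functional equation with one dual series -/
def Y_FE3 : Prop :=
  ∀ (n : ℕ) (Ψ : Ideal (𝓞 K) →* ℂ), Good K n → IsP k n Ψ → ∃ f Ct γ c₀ A,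
    MelK f (Module.finrank k K) ∧ FEq k n Ψ f ∧ FE3 k n Ψ f Ct γ c₀ A

/-- cutting the integral -/
def Y_AF1 : Prop :=
  ∀ (n : ℕ) (Ψ : Ideal (𝓞 K) →* ℂ) (f : ℝ → ℝ) (Ct : Ideal (𝓞 K) → ℂ) (γ : ℂ) (c₀ A ℓ Y : ℝ)
    (t : 𝓞 K), (∀ I, ‖Ψ I‖ ≤ 1) → FE3 k n Ψ f Ct γ c₀ A → 0 < ℓ → 0 < Y → Pri (n ^ 2) t →
    Lam f Ψ t = (∫ τ in Set.Ioi (0 : ℝ), (St (Real.log (1 / (τ * Y)) / ℓ) : ℝ) * Tw f Ψ t τ / τ) +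
      eps k t * γ * ∫ τ in Set.Ioi (0 : ℝ),
        (St (Real.log (c₀ * (Y ^ 2 * Real.exp ℓ) / NN (sp t) / (τ * Y)) / ℓ) : ℝ) * Tw f Ct t τ / τ

/-- the approximate functional equation -/
def Y_AFE : Prop :=
  ∀ (n : ℕ) (Ψ : Ideal (𝓞 K) →* ℂ) (f : ℝ → ℝ) (Ct : Ideal (𝓞 K) → ℂ) (γ : ℂ) (c₀ A : ℝ),
    Good K n → IsP k n Ψ → FE3 k n Ψ f Ct γ c₀ A → ∃ C X₀ : ℝ, 1 ≤ C ∧ ∀ X, X₀ ≤ X → ∀ t,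
      Pri (n ^ 2) t → NN (sp t) ≤ X → ‖Lam f Ψ t - AB k n Ψ f Ct γ c₀ X t‖ ≤ C / X

/-! ### Euler products -/

/-- the value at one -/
def Y_LZ : Prop :=
  ∀ (n : ℕ) (Ψ : Ideal (𝓞 K) →* ℂ), 2 ≤ n → IsP k n Ψ → ∃ (z : ℂ) (C ℓ₀ : ℝ), z ≠ 0 ∧ 1 ≤ C ∧
    ∀ (ℓ : ℝ) (s : ℂ), ℓ₀ ≤ ℓ → 1 / ℓ ≤ s.re → ‖s‖ ≤ 1 →
      ‖(∏ v ∈ PP K ℓ, (1 - Ψ v.asIdeal ^ 2 * (nv v : ℂ) ^ (-(1 + s))))⁻¹ - z‖ ≤ C * (‖s‖ + 1 / ℓ)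

/-- the even part tends to one -/
def Y_EVL : Prop :=
  ∀ (n : ℕ) (Ψ : Ideal (𝓞 K) →* ℂ) (ε U C₀ : ℝ), 2 ≤ n → IsP k n Ψ → 0 < ε → ∃ ℓ₀ : ℝ,
    ∀ (ℓ a b : ℝ) (𝒲 : Finset (Pl K)), ℓ₀ ≤ ℓ → |a| ≤ U → |b| ≤ U → lw 𝒲 ≤ C₀ →
      ‖EvP Ψ Ψ ℓ a b (PP K ℓ \ 𝒲) - 1‖ ≤ ε

/-- the even part of the dual side is small -/
def Y_EVB : Prop :=
  ∀ (n : ℕ) (Ψ : Ideal (𝓞 K) →* ℂ) (C₀ : ℝ), 2 ≤ n → IsP k n Ψ → ∃ (C ℓ₀ : ℝ) (j : ℕ), 1 ≤ C ∧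
    ∀ (ℓ a b : ℝ) (𝒲 : Finset (Pl K)), ℓ₀ ≤ ℓ → lw 𝒲 ≤ C₀ →
      ‖EvP (cj Ψ) Ψ ℓ a b (PP K ℓ \ 𝒲)‖ ≤ C * (1 + |a| + |b|) ^ j / ℓ

/-- the small indices, first side -/
def Y_PTA : Prop :=
  ∀ (n : ℕ) (Ψ : Ideal (𝓞 K) →* ℂ) (h : ℝ → ℂ) (f : ℝ → ℝ) (ε R C₀ : ℝ), 2 ≤ n → IsP k n Ψ →
    FR h → Ker f → 0 < ε → ∃ X₀ : ℝ, ∀ X, X₀ ≤ X → ∀ 𝒱 : Finset (Pl K), lw 𝒱 ≤ C₀ →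
      ‖dX k Ψ Ψ (Hv h f (el k K X) (Y0 k K X) 1) h X ∅ 𝒱 - (∫ z in Set.Ioi (0 : ℝ), f z : ℝ)‖ ≤ ε ∧
      ∀ S, S ≠ ∅ → nS S ≤ R → ‖dX k Ψ Ψ (Hv h f (el k K X) (Y0 k K X) 1) h X S 𝒱‖ ≤ ε

/-- the small indices, dual side -/
def Y_PTB : Prop :=
  ∀ (n : ℕ) (Ψ : Ideal (𝓞 K) →* ℂ) (h : ℝ → ℂ) (f : ℝ → ℝ) (ε R C₀ c₀ : ℝ), 2 ≤ n → IsP k n Ψ →
    FR h → Ker f → 0 < ε → 0 < c₀ → ∃ X₀ : ℝ, ∀ X, X₀ ≤ X → ∀ (ρ : ℝ) (S 𝒱 : Finset (Pl K)),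
      c₀ ≤ ρ → nS S ≤ R → lw 𝒱 ≤ C₀ →
      ‖dX k (cj Ψ) Ψ (Hv h f (el k K X) (Y0 k K X) ρ) h X S 𝒱‖ ≤ ε

/-! ### bilinear forms -/

/-- the short range -/
def Y_BIL1 : Prop :=
  ∀ (n : ℕ) (𝒜 : Finset (Pl K)) (C₀ : ℝ), Good K n → ∃ C X₀ : ℝ, 1 ≤ C ∧ ∀ (X R y₁ y₂ : ℝ)
    (Γ : Finset (Pl K)) (T₁ T₂ : Finset (𝓞 K)) (a₁ a₂ : 𝓞 K → ℂ) (F : Finset (Pl K) → ℝ)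
    (c : Finset (Pl K) → ℂ) (𝒮 : Finset (Finset (Pl K))), X₀ ≤ X → 1 ≤ R →
    Pair k n 𝒜 C₀ X Γ y₁ y₂ T₁ T₂ → Adc n Γ a₁ a₂ F c →
    (∀ S ∈ 𝒮, R < nS S ∧ nS S ≤ X ^ (et k K * cz k K / 2)) →
    ‖bs T₁ T₂ a₁ a₂ F Γ c 𝒮‖ ≤ C * R ^ (-(1 / 4 : ℝ)) * (y₁ * y₂ / Real.log X ^ 2)

/-- a dyadic block in the middle range -/
def Y_BIL2 : Prop :=
  ∀ (n : ℕ) (𝒜 : Finset (Pl K)) (C₀ : ℝ), Good K n → ∃ δ C X₀ : ℝ, 0 < δ ∧ 1 ≤ C ∧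
    ∀ (X N y₁ y₂ : ℝ) (Γ : Finset (Pl K)) (T₁ T₂ : Finset (𝓞 K)) (a₁ a₂ : 𝓞 K → ℂ)
    (F : Finset (Pl K) → ℝ) (c : Finset (Pl K) → ℂ) (𝒮 : Finset (Finset (Pl K))), X₀ ≤ X →
    Pair k n 𝒜 C₀ X Γ y₁ y₂ T₁ T₂ → Adc n Γ a₁ a₂ F c → X ^ (et k K * cz k K / 2) ≤ N →
    2 * N ≤ √y₁ → (∀ S ∈ 𝒮, N < nS S ∧ nS S ≤ 2 * N) →
    ‖bs T₁ T₂ a₁ a₂ F Γ c 𝒮‖ ≤ C * X ^ (-δ) * (y₁ * y₂)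

/-- a dyadic block in the long range -/
def Y_BIL3 : Prop :=
  ∀ (n : ℕ) (𝒜 : Finset (Pl K)) (C₀ : ℝ), Good K n → ∃ δ C X₀ : ℝ, 0 < δ ∧ 1 ≤ C ∧
    ∀ (X N y₁ y₂ : ℝ) (Γ : Finset (Pl K)) (T₁ T₂ : Finset (𝓞 K)) (a₁ a₂ : 𝓞 K → ℂ)
    (F : Finset (Pl K) → ℝ) (c : Finset (Pl K) → ℂ) (𝒮 : Finset (Finset (Pl K))), X₀ ≤ X →
    Pair k n 𝒜 C₀ X Γ y₁ y₂ T₁ T₂ → Adc n Γ a₁ a₂ F c → √y₁ ≤ 2 * N →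
    N ≤ X ^ (1 / 2 + et k K / 10) → (∀ S ∈ 𝒮, N < nS S ∧ nS S ≤ 2 * N) →
    ‖bs T₁ T₂ a₁ a₂ F Γ c 𝒮‖ ≤ C * X ^ (-δ) * (y₁ * y₂)

/-- all large indices -/
def Y_BIL : Prop :=
  ∀ (n : ℕ) (𝒜 : Finset (Pl K)) (C₀ : ℝ), Good K n → ∃ C : ℝ, 1 ≤ C ∧ ∀ R : ℝ, 1 ≤ R → ∃ X₀ : ℝ,
    ∀ (X y₁ y₂ : ℝ) (Γ : Finset (Pl K)) (T₁ T₂ : Finset (𝓞 K)) (a₁ a₂ : 𝓞 K → ℂ)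
    (F : Finset (Pl K) → ℝ) (c : Finset (Pl K) → ℂ) (𝒮 : Finset (Finset (Pl K))), X₀ ≤ X →
    Pair k n 𝒜 C₀ X Γ y₁ y₂ T₁ T₂ → Adc n Γ a₁ a₂ F c →
    (∀ S ∈ 𝒮, R < nS S ∧ nS S ≤ X ^ (1 / 2 + et k K / 10)) →
    ‖bs T₁ T₂ a₁ a₂ F Γ c 𝒮‖ ≤ C * R ^ (-(1 / 4 : ℝ)) * (y₁ * y₂ / Real.log X ^ 2)

/-- the large indices in the first moment -/
def Y_LG : Prop :=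
  ∀ (n : ℕ) (𝒜 : Finset (Pl K)) (h : ℝ → ℂ) (C₀ C₁ : ℝ) (j : ℕ), Good K n → FR h → 0 ≤ C₁ →
    ∃ C : ℝ, 1 ≤ C ∧ ∀ R : ℝ, 1 ≤ R → ∃ X₀ : ℝ, ∀ (X y₁ y₂ : ℝ) (χ Ψ : Ideal (𝓞 K) →* ℂ)
    (Γ : Finset (Pl K)) (τ : 𝓞 K) (T₁ T₂ : Finset (𝓞 K)) (F : Finset (Pl K) → ℝ) (H : ℝ → ℂ)
    (u₁ u₂ : 𝓞 K → ℝ → ℂ) (𝒮 : Finset (Finset (Pl K))), X₀ ≤ X → Ch n χ → Ch n Ψ →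
    (∀ a b, ‖EvP χ Ψ (el k K X) a b (PP K (el k K X))‖ ≤ C₁ * (1 + |a| + |b|) ^ j) →
    Cell k n 𝒜 C₀ X Γ τ y₁ y₂ T₁ T₂ → ∑ D ∈ Γ.powerset, F D ^ 2 ≤ 1 → Continuous H →
    (∀ b, ‖H b‖ ≤ C₁ * ‖h b‖) → (∀ t ∈ T₁, Continuous (u₁ t) ∧ ∀ b, ‖u₁ t b‖ ≤ 1) →
    (∀ t ∈ T₂, Continuous (u₂ t) ∧ ∀ b, ‖u₂ t b‖ ≤ 1) →
    (∀ S ∈ 𝒮, S ⊆ PP K (el k K X) ∧ R < nS S ∧ nS S ≤ X ^ (1 / 2 + et k K / 10)) →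
    ‖∑ t ∈ T₁, ∑ t' ∈ T₂, wF F Γ (t * t') * ∑ S ∈ 𝒮, jac (τ * t * t') (eI S) *
      dX k χ Ψ (fun b => H b * u₁ t b * u₂ t' b) h X S (pr (τ * t * t'))‖ ≤
      C * R ^ (-(1 / 4 : ℝ)) * (y₁ * y₂ / Real.log X ^ 2)

/-- the first side of the first moment over a cell -/
def Y_CELA : Prop :=
  ∀ (n : ℕ) (Ψ : Ideal (𝓞 K) →* ℂ) (f : ℝ → ℝ) (𝒜 : Finset (Pl K)) (C₀ ε : ℝ), Good K n →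
    IsP k n Ψ → Ker f → 0 < ε → ∃ X₀ : ℝ, ∀ (X y₁ y₂ : ℝ) (Γ : Finset (Pl K)) (τ : 𝓞 K)
    (T₁ T₂ : Finset (𝓞 K)) (F : Finset (Pl K) → ℝ), X₀ ≤ X → Cell k n 𝒜 C₀ X Γ τ y₁ y₂ T₁ T₂ →
    ∑ D ∈ Γ.powerset, F D ^ 2 ≤ 1 → (∀ t ∈ T₁, ∀ t' ∈ T₂, ‖wF F Γ (t * t')‖ ≤ 1) →
    ‖∑ t ∈ T₁, ∑ t' ∈ T₂, wF F Γ (t * t') * (AX k Ψ f X 1 (τ * t * t') * MX k Ψ X (τ * t * t') -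
      (∫ z in Set.Ioi (0 : ℝ), f z : ℝ))‖ ≤ ε * (y₁ * y₂ / Real.log X ^ 2)

/-- the dual side of the first moment over a cell -/
def Y_CELB : Prop :=
  ∀ (n : ℕ) (Ψ : Ideal (𝓞 K) →* ℂ) (f : ℝ → ℝ) (𝒜 : Finset (Pl K)) (C₀ c₀ ε : ℝ), Good K n →
    IsP k n Ψ → Ker f → 1 ≤ C₀ → 0 < c₀ → 0 < ε → ∃ X₀ : ℝ, ∀ (X y₁ y₂ w : ℝ) (Γ : Finset (Pl K))
    (τ : 𝓞 K) (T₁ T₂ : Finset (𝓞 K)) (F : Finset (Pl K) → ℝ), X₀ ≤ X → c₀ ≤ w →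
    Cell k n 𝒜 C₀ X Γ τ y₁ y₂ T₁ T₂ → ∑ D ∈ Γ.powerset, F D ^ 2 ≤ 1 →
    (∀ t ∈ T₁, ∀ t' ∈ T₂, ‖wF F Γ (t * t')‖ ≤ 1) →
    ‖∑ t ∈ T₁, ∑ t' ∈ T₂, wF F Γ (t * t') * (eps k (τ * t * t') *
      AX k (cj Ψ) f X (w * X / NN (sp (τ * t * t'))) (τ * t * t') * MX k Ψ X (τ * t * t'))‖ ≤
      ε * (y₁ * y₂ / Real.log X ^ 2)

/-- the first moment over a cell -/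
def Y_CELL : Prop :=
  ∀ (n : ℕ) (Ψ : Ideal (𝓞 K) →* ℂ) (f : ℝ → ℝ) (Ct : Ideal (𝓞 K) → ℂ) (γ : ℂ) (c₀ A : ℝ)
    (𝒜 : Finset (Pl K)) (C₀ ε : ℝ), Good K n → IsP k n Ψ → FE3 k n Ψ f Ct γ c₀ A → 1 ≤ C₀ →
    0 < ε → ∃ X₀ : ℝ, ∀ (X y₁ y₂ : ℝ) (Γ : Finset (Pl K)) (τ : 𝓞 K) (T₁ T₂ : Finset (𝓞 K))
    (F : Finset (Pl K) → ℝ), X₀ ≤ X → Cell k n 𝒜 C₀ X Γ τ y₁ y₂ T₁ T₂ →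
    ∑ D ∈ Γ.powerset, F D ^ 2 ≤ 1 → (∀ t ∈ T₁, ∀ t' ∈ T₂, ‖wF F Γ (t * t')‖ ≤ 1) →
    ‖∑ t ∈ T₁, ∑ t' ∈ T₂, wF F Γ (t * t') * (Lam f Ψ (τ * t * t') * MX k Ψ X (τ * t * t') -
      (∫ z in Set.Ioi (0 : ℝ), f z : ℝ))‖ ≤ ε * (y₁ * y₂ / Real.log X ^ 2)

end Rel

end Pool.Agent.P.MP_b8021b_nt.BP
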