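import Pool.Agent.P.MP_b8021b_nt.BP.StB

/-! Interface statements: the second moment and the conclusion. -/

namespace Pool.Agent.P.MP_b8021b_nt.BP

open NumberField IsDedekindDomain Finset MeasureTheory
open Pool.Agent.P.MP_b8021b_nt.VE Pool.Agent.P.MP_b8021b_nt.VC Pool.Agent.P.MP_b8021b_nt.BS.CF
open Pool.Agent.P.MP_b8021b_nt.BS
open scoped Classical ComplexConjugate Real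

/-- the Fourier transform of the chirp -/
def Y_LSa : Prop :=
  ∀ (ε : ℝ) (g ξ : ℂ), 0 < ε → g ≠ 0 →
    ∫ z : ℂ, (Real.exp (-(2 * π) * ε * ‖z‖ ^ 2) : ℝ) *
      Complex.exp (2 * π * Complex.I * (2 * (z ^ 2 / g).re : ℝ)) *
      Complex.exp (-(2 * π * Complex.I) * (2 * (z * ξ).re : ℝ)) = chp ε g ξ

section Field

variable (K : Type) [Field K] [NumberField K]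

/-- independence of the symbols -/
def Y_DG1 : Prop :=
  (∀ (𝒰 : Finset (Pl K)) (g : Pl K → ℂ → ℂ), PoiN.av (eI 𝒰) (fun x => ∏ v ∈ 𝒰, g v (leg x v)) =
    ∏ v ∈ 𝒰, PoiN.av v.asIdeal fun x => g v (leg x v)) ∧
  (∀ (v : Pl K) (g : ℂ → ℂ), ¬ Dv 2 v → PoiN.av v.asIdeal (fun x => g (leg x v)) =
    g 0 / (nv v : ℝ) + (1 - 1 / (nv v : ℝ)) * ((g 1 + g (-1)) / 2)) ∧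
  ∀ (𝒰 : Finset (Pl K)) (J : Ideal (𝓞 K)), J ≠ ⊥ → prI J ⊆ 𝒰 →
    PoiN.av (eI 𝒰) (fun x => jac x J) = PoiN.av J fun x => jac x J

/-- the diagonal -/
def Y_DIAG : Prop :=
  ∃ (C : ℝ) (j : ℕ), 1 ≤ C ∧ ∀ (Ψ : Ideal (𝓞 K) →* ℂ) (ℓ Y Z b : ℝ) (𝒰 : Finset (Pl K)), Ch 2 Ψ →
    1 ≤ ℓ → 1 ≤ Y → Z = Y * Real.exp ℓ → pls K 0 Z ⊆ 𝒰 →
    ‖PoiN.av (eI 𝒰) fun x => ((‖Aw Ψ (leg x) (Wb2 ℓ Y b) Z * Mw Ψ (leg x) ℓ‖ ^ 2 : ℝ) : ℂ)‖ ≤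
      C * Y ^ (2 / ℓ) * (1 + |b|) ^ j

/-- the Gauss sum of a squarefree element from the quadratic sum -/
def Y_LSd : Prop :=
  ∀ (n : ℕ) (γ : 𝓞 K), Good K n → Squarefree (sp γ) → Cop n (sp γ) →
    gsI (sp γ) (γ : K)⁻¹ = ft (sp γ) (fun y => etr ((y : K) ^ 2 / γ)) 0

/-- the value of the Gauss sum -/
def Y_LS : Prop :=
  ∀ n, Good K n → ∀ γ, Pri (4 * n ^ 2) γ → gsI (sp γ) (γ : K)⁻¹ = (√(NN (sp γ)) : ℝ)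

/-- the Gauss sum of a quotient -/
def Y_SIG : Prop :=
  ∀ (N : ℕ) (v : Pl K), 2 ∣ N → ¬ Dv 2 v →
    (∀ γ, Pri N γ → gsI (sp γ) (γ : K)⁻¹ = (√(NN (sp γ)) : ℝ)) →
    ∃ σ : 𝓞 K → ℂ, Peri (v.asIdeal ^ 2) σ ∧ (∀ g, ‖σ g‖ ≤ 1) ∧
      ∀ (J : Ideal (𝓞 K)) (g a : 𝓞 K), Squarefree J → ¬ J ≤ v.asIdeal → J * v.asIdeal = sp g →
        (N : 𝓞 K) ∣ g - 1 → a ∈ v.asIdeal → a - 1 ∈ J → gsI J ((a : K) / g) = (√(NN J) : ℝ) * σ g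

/-- the factorisation of the Gauss sum -/
def Y_GSF : Prop :=
  ∀ (n : ℕ) (e b J : Ideal (𝓞 K)) (v w : Pl K) (g g' a a₁ a₂ κ : 𝓞 K), Good K n → Squarefree b →
    Squarefree J → Cop n (e * b) → Cop n J → IsCoprime e b → IsCoprime J (e * b) → Dv n v → Dv n w →
    v ≠ w → J * v.asIdeal = sp g → e * b * w.asIdeal = sp g' → (8 : 𝓞 K) ∣ g - 1 → a ∈ e →
    a - 1 ∈ J * b → a₁ ∈ v.asIdeal → a₁ - 1 ∈ J → a₂ ∈ e → a₂ - 1 ∈ b →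
    κ ∈ v.asIdeal * w.asIdeal * dI K n →
    gsI (J * b) ((κ : K) / (n * (g * g' : 𝓞 K)) * a) =
      jac ((n : 𝓞 K) * κ) J * jac g (e * w.asIdeal) * leg g' v * gsI J ((a₁ : K) / g) *
        gsI b ((κ : K) * a₂ / (n * g')) ∧ ‖gsI b ((κ : K) * a₂ / (n * g'))‖ ≤ √(NN b)

/-- removing the conditions by a truncated sieve -/
def Y_SIEVE : Prop :=
  ∀ ε : ℝ, 0 < ε → ∃ C : ℝ, 1 ≤ C ∧ ∀ (G : Ideal (𝓞 K) → ℂ) (𝔪 : Ideal (𝓞 K)) (B Z M E : ℝ),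
    𝔪 ≠ ⊥ → 1 ≤ B → 1 ≤ Z → 0 ≤ E → (∀ J, ‖G J‖ ≤ M) →
    (∀ 𝔡 : Ideal (𝓞 K), 𝔡 ≠ ⊥ → NN 𝔡 ≤ B ^ 3 →
      ‖∑ J ∈ (ids K Z).filter (fun J => J ≤ 𝔡), G J‖ ≤ E) →
    ‖∑ J ∈ (ids K Z).filter (fun J => Squarefree J ∧ IsCoprime J 𝔪), G J‖ ≤
      C * (B ^ 2 * E + 2 ^ (prI 𝔪).card * Z ^ ε * M * Z / B)

/-- the decomposition of an ideal -/
def Y_IS1 : Prop :=
  ∀ (G : Ideal (𝓞 K) → ℂ) (𝔟 : Ideal (𝓞 K)) (Z : ℝ), 𝔟 ≠ ⊥ → (∀ I, Z < NN I → G I = 0) →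
    ∑ I ∈ ids K Z, G I = ∑ L ∈ ids K Z, ∑ a ∈ (prI (𝔟 * L)).powerset,
      ∑ J ∈ (ids K Z).filter (fun J => Squarefree J ∧ IsCoprime J (𝔟 * L)), G (eI a * L ^ 2 * J)

end Field

section Rel

variable (k : Type) [Field k] [NumberField k] [Algebra k ℂ] (K : Type) [Field K] [NumberField K]
  [Algebra k K]

/-! ### the formula of Landsberg and Schaar -/

/-- Gaussian mean values of periodic functions -/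
def Y_MV : Prop :=
  ∀ 𝔮 : Ideal (𝓞 K), 𝔮 ≠ ⊥ → ∃ C : ℝ, 1 ≤ C ∧ ∀ (F : 𝓞 K → ℂ) (y : Emb k K → ℝ) (μ : ℝ),
    Peri 𝔮 F → (∀ x, ‖F x‖ ≤ 1) → (∀ φ, 0 < y φ ∧ y φ ≤ μ) →
    ‖(∏ φ, y φ : ℝ) * (∑' x : 𝓞 K, F x * (gau y (emb k x) : ℝ)) -
      (cW k K : ℝ) * PoiN.av 𝔮 F‖ ≤ C * μ ^ rk k K

/-- Poisson summation for the chirp -/
def Y_LSb : Prop :=
  ∀ (γ : 𝓞 K) (ε : ℝ), γ ≠ 0 → 0 < ε →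
    HasSum (fun κ : Dual (⊤ : Ideal (𝓞 K)) =>
        ((cov2 k K)⁻¹ : ℝ) * ∏ φ, chp ε (emb k γ φ) (emK k κ.1 φ))
      (∑' y : 𝓞 K, etr ((y : K) ^ 2 / γ) * (gau (fun _ => ε) (emb k y) : ℝ))

/-- the limit of the dual side -/
def Y_LSe : Prop :=
  ∀ n, Good K n → ∃ z : ℂ, ∀ γ : 𝓞 K, ((4 * n ^ 2 : ℕ) : 𝓞 K) ∣ γ - 1 →
    Filter.Tendsto (fun ε : ℝ => ((ε ^ rk k K : ℝ) : ℂ) *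
      ∑' κ : Dual (⊤ : Ideal (𝓞 K)), ∏ φ, chp ε (emb k γ φ) (emK k κ.1 φ))
      (nhdsWithin 0 (Set.Ioi 0)) (nhds (z / (√(NN (sp γ)) : ℝ)))

/-! ### the nonzero frequencies -/

/-- the exact formula -/
def Y_PX : Prop :=
  ∀ (n : ℕ) (e q 𝔠 : Ideal (𝓞 K)) (γ a : 𝓞 K) (X : ℝ), Good K n → Squarefree q → Cop 2 q →
    e * q * 𝔠 = sp γ → γ ≠ 0 → a ∈ e → a - 1 ∈ q → 0 < X →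
    Re2 k X e q = (cW k K * X / (NN e * NN q) : ℝ) * ∑' κ : 𝓞 K,
      (if κ ≠ 0 ∧ κ ∈ 𝔠 * dI K n then gsI q ((κ : K) / (n * γ) * a) else 0) *
        (gau (fun φ => X ^ (1 / rk k K) / (n ^ 2 * ‖emb k γ φ‖ ^ 2)) (emb k κ) : ℝ)

/-- the crude bound -/
def Y_CR : Prop :=
  ∃ C : ℝ, 1 ≤ C ∧ ∀ (e q : Ideal (𝓞 K)) (X : ℝ), e ≠ ⊥ → Squarefree q → Cop 2 q →
    IsCoprime e q → 0 < X → ‖Re2 k X e q‖ ≤ C * √(NN q)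

/-- reduction to squarefree moduli -/
def Y_RQ : Prop :=
  ∀ (q s : Ideal (𝓞 K)) (X : ℝ), Squarefree q → Cop 2 q → s ≠ ⊥ → 0 < X →
    RJ k X (q * s ^ 2) = ∑ E ∈ (prI s \ prI q).powerset, (-1) ^ E.card * Re2 k X (eI E) q

/-- sums of a test function over residue classes -/
def Y_LATL : Prop :=
  ∀ (N : ℕ) (ℓ : ℝ) (U : UB k K N ℓ), ∃ C : ℝ, 1 ≤ C ∧ ∀ (G : (Emb k K → ℂ) → ℂ) (Λ T Z : ℝ)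
    (m : ℕ) (Φ : 𝓞 K → ℂ), TF U G Λ T Z → 1 ≤ T → 1 ≤ Z → 1 ≤ m → Peri (sp (m : 𝓞 K)) Φ →
    (∀ g, ‖Φ g‖ ≤ 1) → ‖∑ᶠ g, Φ g * G (emb k g)‖ ≤ C * Λ * m * Z * T ^ (-(1 / (2 * rk k K)))

/-- the test function -/
def Y_LIPG : Prop :=
  ∀ (N : ℕ) (ℓ : ℝ) (U : UB k K N ℓ), ∃ C : ℝ, 1 ≤ C ∧ ∀ (ω : ℝ → ℂ) (Λ T Z μ : ℝ)
    (η : Emb k K → ℝ) (ξ : Emb k K → ℂ), LC ω Λ T Z → 0 < T → 0 < μ → (∀ φ, μ ≤ η φ) → ξ ≠ 0 →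
    TF U (gz U ω η ξ) (C * Λ * Z ^ 2 * (μ * ‖ξ‖ ^ 2) ^ (-(3 * rk k K))) T Z

/-- the sum over the frequencies -/
def Y_KS : Prop :=
  ∀ (N : ℕ) (ℓ : ℝ) (U : UB k K N ℓ), ∃ C : ℝ, 1 ≤ C ∧ ∀ (ω : ℝ → ℂ) (Λ T Z μ A : ℝ)
    (η : Emb k K → ℝ) (m : ℕ) (Φ : 𝓞 K → 𝓞 K → ℂ), LC ω Λ T Z → 1 ≤ T → 1 ≤ Z → 0 < μ →
    (∀ φ, μ ≤ η φ) → 1 ≤ m → (∀ κ g, ‖Φ κ g‖ ≤ A) → (∀ g, Φ 0 g = 0) →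
    (∀ κ, κ ≠ 0 → Peri (sp ((m * Ideal.absNorm (sp κ) : ℕ) : 𝓞 K)) (Φ κ)) →
    (∀ g, ‖∑' κ, Φ κ g * gz U ω η (emb k κ) (emb k g)‖ ≤ C * Λ * A * μ ^ (-rk k K) *
      U.β (emb k g)) ∧
    ‖∑ᶠ g, ∑' κ, Φ κ g * gz U ω η (emb k κ) (emb k g)‖ ≤
      C * Λ * A * m * Z ^ 3 * μ ^ (-(3 * rk k K)) * T ^ (-(1 / (2 * rk k K)))

/-- folding over the generators -/
def Y_FOLD : Prop :=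
  ∀ (N : ℕ) (ℓ : ℝ) (U : UB k K N ℓ) (ℛ : Finset (Pl K)) (Θ : Pl K → 𝓞 K → ℂ) (M Z : ℝ), 2 ≤ N →
    Reps N ℛ → 0 ≤ M → (∀ v ∈ ℛ, ∀ g, ‖Θ v g‖ ≤ M * U.β (emb k g) ∧
      (Θ v g ≠ 0 → g ∈ v.asIdeal ∧ (N : 𝓞 K) ∣ g - 1 ∧ NN (sp g) ≤ Z * nv v)) →
    ∃ G : Ideal (𝓞 K) → ℂ, (∀ J, ‖G J‖ ≤ M) ∧ (∀ J, ¬ Cop N J → G J = 0) ∧
      (∀ J z, Cop N J → (∀ v ∈ ℛ, ∀ g, (N : 𝓞 K) ∣ g - 1 → J * v.asIdeal = sp g →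
        Θ v g = z * (U.β (emb k g) : ℝ)) → G J = z) ∧
      ∀ 𝔡 : Ideal (𝓞 K), ∑ J ∈ (ids K Z).filter (fun J => J ≤ 𝔡), G J =
        ((U.j0)⁻¹ : ℝ) * ∑ v ∈ ℛ, ∑ᶠ g, if g ∈ 𝔡 * v.asIdeal then Θ v g else 0

/-- the summand as a function of the generator -/
def Y_PHI : Prop :=
  ∀ (n₀ n : ℕ) (ℛ ℛ' : Finset (Pl K)) (Ψ : Ideal (𝓞 K) →* ℂ), Good2 n₀ n ℛ ℛ' → IsP k n Ψ →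
    ∃ (C : ℝ) (M₀ : ℕ), 1 ≤ C ∧ 1 ≤ M₀ ∧ ∀ e b : Ideal (𝓞 K), Squarefree b → Cop n (e * b) →
      IsCoprime e b → ∃ (η : Emb k K → ℝ) (Φ : Pl K → 𝓞 K → 𝓞 K → ℂ),
        (∀ φ, (C * (NN e * NN b)) ^ (-(1 / rk k K)) ≤ η φ) ∧ ∀ v ∈ ℛ,
        (∀ κ g, ‖Φ v κ g‖ ≤ √(NN b) ∧
          (Φ v κ g ≠ 0 → κ ≠ 0 ∧ g ∈ v.asIdeal ∧ ((4 * n₀ ^ 2 : ℕ) : 𝓞 K) ∣ g - 1)) ∧
        (∀ κ, κ ≠ 0 →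
          Peri (sp ((M₀ * Ideal.absNorm e * Ideal.absNorm (sp κ) : ℕ) : 𝓞 K)) (Φ v κ)) ∧
        ∀ (X : ℝ) (J : Ideal (𝓞 K)) (g : 𝓞 K), 0 < X → Squarefree J → IsCoprime J (e * b) →
          ((4 * n₀ ^ 2 : ℕ) : 𝓞 K) ∣ g - 1 → J * v.asIdeal = sp g →
          Ψ J * Re2 k X e (J * b) / (√(NN J) : ℝ) =
            (cW k K * X / (NN e * NN b * NN J) : ℝ) * dP (emb k g) * ∑' κ, Φ v κ g *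
              (gau (fun φ => X ^ (1 / rk k K) * η φ / ‖emb k g φ‖ ^ 2) (emb k κ) : ℝ)

/-- the extension to all ideals -/
def Y_EXT : Prop :=
  ∀ (n₀ n : ℕ) (ℛ ℛ' : Finset (Pl K)) (Ψ : Ideal (𝓞 K) →* ℂ), Good2 n₀ n ℛ ℛ' → IsP k n Ψ →
    ∃ C : ℝ, 1 ≤ C ∧ ∀ (e b : Ideal (𝓞 K)) (ω : ℝ → ℂ) (X Λ T Z : ℝ), Squarefree b →
      Cop n (e * b) → IsCoprime e b → LC ω Λ T Z → 0 < X → 1 ≤ T → 1 ≤ Z →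
      ∃ G : Ideal (𝓞 K) → ℂ, (∀ J, ‖G J‖ ≤ C * Λ * √(NN b)) ∧
        (∀ J, Squarefree J → IsCoprime J (e * b) →
          G J = Ψ J * ω (NN J) / (√(NN J) : ℝ) * Re2 k X e (J * b)) ∧
        ∀ 𝔡 : Ideal (𝓞 K), 𝔡 ≠ ⊥ → ‖∑ J ∈ (ids K Z).filter (fun J => J ≤ 𝔡), G J‖ ≤
          C * Λ * √(NN b) * (NN e * NN 𝔡) * (Z * NN e * NN b / X) ^ 2 * Z *
            T ^ (-(1 / (2 * rk k K)))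

/-- the sum over squarefree ideals -/
def Y_JS : Prop :=
  ∀ (n₀ n : ℕ) (ℛ ℛ' : Finset (Pl K)) (Ψ : Ideal (𝓞 K) →* ℂ) (ε : ℝ), Good2 n₀ n ℛ ℛ' →
    IsP k n Ψ → 0 < ε → ∃ C : ℝ, 1 ≤ C ∧ ∀ (e b 𝔪 : Ideal (𝓞 K)) (ω : ℝ → ℂ) (X Λ T Z B Q : ℝ),
      Squarefree b → Cop n (e * b) → IsCoprime e b → 𝔪 ≠ ⊥ → prI (e * b) ⊆ prI 𝔪 → LL ω Λ Z →
      0 < X → 1 ≤ T → 1 ≤ Z → 1 ≤ B → NN e ≤ B → Z * NN e * NN b / X ≤ Q →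
      ‖∑ J ∈ (ids K Z).filter (fun J => Squarefree J ∧ IsCoprime J 𝔪),
        Ψ J * ω (NN J) / (√(NN J) : ℝ) * Re2 k X e (J * b)‖ ≤ C * Λ * √(NN b) *
          (T + 2 ^ (prI 𝔪).card * Z ^ ε * Z / B + B ^ 6 * Q ^ 2 * Z * T ^ (-(1 / (2 * rk k K))))

/-- one term of the decomposition -/
def Y_IS2 : Prop :=
  ∀ (n₀ n : ℕ) (ℛ ℛ' : Finset (Pl K)) (Ψ : Ideal (𝓞 K) →* ℂ) (ε : ℝ), Good2 n₀ n ℛ ℛ' →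
    IsP k n Ψ → 0 < ε → ∃ C : ℝ, 1 ≤ C ∧ ∀ (𝔟 L : Ideal (𝓞 K)) (a : Finset (Pl K)) (ω : ℝ → ℂ)
      (X Λ T Z B Q : ℝ), Cop n 𝔟 → L ≠ ⊥ → a ⊆ prI (𝔟 * L) → LL ω Λ Z → 0 < X → 1 ≤ T → 1 ≤ Z →
      1 ≤ B → Z * NN 𝔟 / X ≤ Q →
      ‖∑ J ∈ (ids K Z).filter (fun J => Squarefree J ∧ IsCoprime J (𝔟 * L)),
        Ψ (eI a * L ^ 2 * J) * ω (NN (eI a * L ^ 2 * J)) / (√(NN (eI a * L ^ 2 * J)) : ℝ) *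
          RJ k X (eI a * L ^ 2 * J * 𝔟)‖ ≤ C * Λ * (√(NN 𝔟) / NN L) * 4 ^ (prI (𝔟 * L)).card *
          (T + Z ^ ε * Z / B + B ^ 6 * Q ^ 2 * Z * T ^ (-(1 / (2 * rk k K))))

/-- the sum over all ideals -/
def Y_IS : Prop :=
  ∀ (n₀ n : ℕ) (ℛ ℛ' : Finset (Pl K)) (Ψ : Ideal (𝓞 K) →* ℂ), Good2 n₀ n ℛ ℛ' → IsP k n Ψ →
    ∃ C X₀ : ℝ, 1 ≤ C ∧ ∀ (𝔟 : Ideal (𝓞 K)) (ω : ℝ → ℂ) (X Λ : ℝ), X₀ ≤ X → Cop n 𝔟 →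
      NN 𝔟 ≤ ZZ k K X * Real.exp (2 * el k K X) → LL ω Λ (ZZ k K X) →
      ‖∑ I ∈ ids K (ZZ k K X), Ψ I * ω (NN I) / (√(NN I) : ℝ) * RJ k X (I * 𝔟)‖ ≤
        C * Λ * √(NN 𝔟) * ZZ k K X * Real.exp (-(10 * el k K X))

/-- the diagonal and the rest -/
def Y_S2a : Prop :=
  ∀ (ι : Type) (s : Finset ι) (α : ι → ℂ) (𝔍 : ι → Ideal (𝓞 K)) (𝒰 : Finset (Pl K))
    (T : Finset (𝓞 K)) (X : ℝ), 0 < X → (∀ i ∈ s, 𝔍 i ≠ ⊥ ∧ prI (𝔍 i) ⊆ 𝒰) →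
    ∑ x ∈ T, gX k X x * ‖∑ i ∈ s, α i * jac x (𝔍 i)‖ ^ 2 ≤
      cW k K * X * ‖PoiN.av (eI 𝒰) fun x => ((‖∑ i ∈ s, α i * jac x (𝔍 i)‖ ^ 2 : ℝ) : ℂ)‖ +
        ‖∑ i ∈ s, ∑ j ∈ s, α i * conj (α j) * RJ k X (𝔍 i * 𝔍 j)‖

/-- the second moment with the smooth weight -/
def Y_S2 : Prop :=
  ∀ (n₀ n : ℕ) (ℛ ℛ' : Finset (Pl K)) (Ψ : Ideal (𝓞 K) →* ℂ), Good2 n₀ n ℛ ℛ' → IsP k n Ψ →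
    ∃ (C X₀ : ℝ) (j : ℕ), 1 ≤ C ∧ ∀ (X b : ℝ) (T : Finset (𝓞 K)), X₀ ≤ X →
      ∑ x ∈ T, gX k X x * ‖Aw Ψ (leg x) (Wb2 (el k K X) (Y0 k K X * Real.exp (3 * el k K X)) b)
        (ZZ k K X) * MX k Ψ X x‖ ^ 2 ≤ C * (1 + |b|) ^ j * X

/-- the second moment of the long polynomial -/
def Y_SM1 : Prop :=
  ∀ (n₀ n : ℕ) (ℛ ℛ' : Finset (Pl K)) (Ψ : Ideal (𝓞 K) →* ℂ) (f : ℝ → ℝ) (C₀ : ℝ),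
    Good2 n₀ n ℛ ℛ' → IsP k n Ψ → Ker f → ∃ C X₀ : ℝ, 1 ≤ C ∧ ∀ (X : ℝ) (𝒢 : Finset (𝓞 K))
      (ρ : 𝓞 K → ℝ), X₀ ≤ X → (∀ t ∈ 𝒢, Bal k C₀ X t ∧ Real.exp (-el k K X) ≤ ρ t) →
      ∑ t ∈ 𝒢, ‖AX k Ψ f X (ρ t) t * MX k Ψ X t‖ ^ 2 ≤ C * X

/-- the second moment -/
def Y_SM : Prop :=
  ∀ (n₀ n : ℕ) (ℛ ℛ' : Finset (Pl K)) (Ψ : Ideal (𝓞 K) →* ℂ) (f : ℝ → ℝ) (Ct : Ideal (𝓞 K) → ℂ)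
    (γ : ℂ) (c₀ A C₀ : ℝ), Good2 n₀ n ℛ ℛ' → IsP k n Ψ → FE3 k n Ψ f Ct γ c₀ A →
    ∃ C X₀ : ℝ, 1 ≤ C ∧ ∀ (X : ℝ) (𝒢 : Finset (𝓞 K)), X₀ ≤ X →
      (∀ t ∈ 𝒢, Pri (n ^ 2) t ∧ NN (sp t) ≤ X ∧ Bal k C₀ X t) →
      ∑ t ∈ 𝒢, ‖Lam f Ψ t * MX k Ψ X t‖ ^ 2 ≤ C * X

/-! ### the family and the conclusion -/

/-- the blocks -/
def Y_CON1 : Prop :=
  ∀ ζ : K, Un ζ → ∃ n₁ : ℕ, n₁ ≠ 0 ∧ ∀ n : ℕ, n₁ ∣ n → 2 ≤ n →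
    ∃ (𝒜 : Fin 3 → Finset (Pl K)) (τ : Finset (Pl K) → 𝓞 K) (g : Fin 3 → Pl K → 𝓞 K)
      (C B c y₀ : ℝ), 1 ≤ C ∧ 2 ≤ B ∧ 0 < c ∧ (∀ v : Pl K, Dv n v → nv v ≤ C) ∧
      (∀ i, ∀ v ∈ 𝒜 i, Ins ζ v ∧ nv v ≤ C) ∧ (∀ i j, i ≠ j → Disjoint (𝒜 i) (𝒜 j)) ∧
      (∀ S : Finset (Pl K), (∀ v ∈ S, C < nv v) → Pri (n ^ 2) (τ S) ∧ Bal k C (NN (sp (τ S))) (τ S) ∧
        S ⊆ pr (τ S) ∧ pr (τ S) ⊆ S ∪ 𝒜 0 ∧ NN (sp (τ S)) ≤ C * nS S) ∧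
      (∀ i v, C < nv v → g i v ≠ 0 ∧ v ∈ pr (g i v) ∧ pr (g i v) ⊆ insert v (𝒜 i)) ∧
      ∀ i y, y₀ ≤ y → Blk k n (𝒜 0 ∪ 𝒜 1 ∪ 𝒜 2) C y
          (((pls K (y / B) y).filter (Ins ζ)).image (g i)) ∧
        c * y / Real.log y ≤ (((pls K (y / B) y).filter (Ins ζ)).image (g i)).card

/-- the family -/
def Y_CON : Prop :=
  ∀ ζ : K, Un ζ → ∃ n₁ : ℕ, n₁ ≠ 0 ∧ ∀ n : ℕ, n₁ ∣ n → 2 ≤ n →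
    ∃ (𝒜 : Finset (Pl K)) (C B c W₀ : ℝ), 1 ≤ C ∧ 0 < B ∧ 0 < c ∧ ∀ W u A : ℝ, W₀ ≤ W → 1 ≤ u →
      1 ≤ A → ∃ c₁ X₀ : ℝ, 0 < c₁ ∧ ∀ X, X₀ ≤ X → ∃ Φ : Fm K, Φ.Ok k ζ n 𝒜 C B c W u X ∧
        Φ.y ^ A ≤ Φ.yq ∧ X ^ c₁ ≤ Φ.y ∧ c₁ * Real.log X ≤ Φ.𝒥.card

/-- the total weight -/
def Y_FM0 : Prop :=
  ∀ (n : ℕ) (𝒜 : Finset (Pl K)) (C : ℝ), Good K n → ∃ C₃ X₀ : ℝ, 0 ≤ C₃ ∧ ∀ (Φ : Fm K) (ζ : K)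
    (B c W u X : ℝ) (F : Finset (Pl K) → Pl K → Finset (Pl K) → ℝ), X₀ ≤ X → 0 < B → 0 ≤ c →
    1 ≤ W → Φ.Ok k ζ n 𝒜 C B c W u X → 1 / 5 ≤ ∑ q ∈ QQ ζ Φ.yq, (nv q)⁻¹ →
    (∀ S ∈ TT K W Φ.y u, ∀ q ∈ QQ ζ Φ.yq,
      ∑ D ∈ (insert q (S.filter (Sens ζ))).powerset, F S q D ^ 2 ≤ 1 ∧ 0 ≤ F S q ∅) →
    Z0 (pls K W Φ.y) * (∑ q ∈ QQ ζ Φ.yq, (nv q)⁻¹) / 10 ≤
      ∑ S ∈ TT K W Φ.y u, ∑ q ∈ QQ ζ Φ.yq, (nS S * nv q)⁻¹ * F S q ∅ →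
    X / (B * Real.log X ^ 2) * Φ.𝒥.card * (Z0 (pls K W Φ.y) * ∑ q ∈ QQ ζ Φ.yq, (nv q)⁻¹) *
        (c ^ 2 / 10 - C₃ / √W) ≤
      (Φ.sum ζ W u fun S q t t' => wF (F S q) (insert q (S.filter (Sens ζ))) (t * t')).re

/-- the first moment -/
def Y_NV1 : Prop :=
  ∀ (n : ℕ) (Ψ : Ideal (𝓞 K) →* ℂ) (f : ℝ → ℝ) (Ct : Ideal (𝓞 K) → ℂ) (γ : ℂ) (c₀ A : ℝ)
    (𝒜 : Finset (Pl K)) (C B c : ℝ), Good K n → IsP k n Ψ → FE3 k n Ψ f Ct γ c₀ A → 1 ≤ C →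
    0 < B → 0 < c → ∃ W₂ : ℝ, ∀ W c₁ : ℝ, W₂ ≤ W → 0 < c₁ → ∃ c₄ X₀ : ℝ, 0 < c₄ ∧
    ∀ (Φ : Fm K) (ζ : K) (u X : ℝ) (F : Finset (Pl K) → Pl K → Finset (Pl K) → ℝ), X₀ ≤ X →
      Φ.Ok k ζ n 𝒜 C B c W u X → X ^ c₁ ≤ Φ.y → c₁ * Real.log X ≤ Φ.𝒥.card →
      1 / 5 ≤ ∑ q ∈ QQ ζ Φ.yq, (nv q)⁻¹ →
      (∀ S ∈ TT K W Φ.y u, ∀ q ∈ QQ ζ Φ.yq,
        ∑ D ∈ (insert q (S.filter (Sens ζ))).powerset, F S q D ^ 2 ≤ 1 ∧ 0 ≤ F S q ∅ ∧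
        ∀ j ∈ Φ.𝒥, ∀ t ∈ Φ.T₁ (insert q S) j, ∀ t' ∈ Φ.T₂ j,
          ‖wF (F S q) (insert q (S.filter (Sens ζ))) (t * t')‖ ≤ 1) →
      Z0 (pls K W Φ.y) * (∑ q ∈ QQ ζ Φ.yq, (nv q)⁻¹) / 10 ≤
        ∑ S ∈ TT K W Φ.y u, ∑ q ∈ QQ ζ Φ.yq, (nS S * nv q)⁻¹ * F S q ∅ →
      c₄ * X ≤ ‖Φ.sum ζ W u fun S q t t' => wF (F S q) (insert q (S.filter (Sens ζ))) (t * t') *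
        (Lam f Ψ (Φ.τ (insert q S) * t * t') * MX k Ψ X (Φ.τ (insert q S) * t * t'))‖

/-- the inequality of Cauchy and Schwarz -/
def Y_NV2 : Prop :=
  ∀ (n : ℕ) (𝒜 : Finset (Pl K)) (Φ : Fm K) (ζ : K) (C B c W u X M : ℝ)
    (w : Finset (Pl K) → Pl K → 𝓞 K → 𝓞 K → ℂ) (G : 𝓞 K → ℂ) (P : 𝓞 K → Prop), 1 ≤ C → 1 ≤ X →
    Φ.Ok k ζ n 𝒜 C B c W u X →
    (∀ S ∈ TT K W Φ.y u, ∀ q ∈ QQ ζ Φ.yq, ∀ j ∈ Φ.𝒥, ∀ t ∈ Φ.T₁ (insert q S) j, ∀ t' ∈ Φ.T₂ j,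
      w S q t t' = 0 ∨ w S q t t' = 1 ∧ P (Φ.τ (insert q S) * t * t')) →
    (∀ 𝒢 : Finset (𝓞 K), (∀ t ∈ 𝒢, Pri (n ^ 2) t ∧ NN (sp t) ≤ X ∧ Bal k C X t) →
      ∑ t ∈ 𝒢, ‖G t‖ ^ 2 ≤ M) →
    ∃ 𝒢 : Finset (𝓞 K), Set.InjOn sp (𝒢 : Set (𝓞 K)) ∧
      (∀ t ∈ 𝒢, Pri (n ^ 2) t ∧ NN (sp t) ≤ X ∧ P t ∧ G t ≠ 0) ∧
      ‖Φ.sum ζ W u fun S q t t' => w S q t t' * G (Φ.τ (insert q S) * t * t')‖ ^ 2 ≤ 𝒢.card * M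

/-- many twists with finitely many points and nonzero central value -/
def Y_NVP : Prop :=
  ∀ ζ : 𝓞 K, Un (ζ : K) → ∃ n₁ N₀ : ℕ, n₁ ≠ 0 ∧ N₀ ≠ 0 ∧ ∀ (n₀ n : ℕ) (ℛ ℛ' : Finset (Pl K))
    (Ψ : Ideal (𝓞 K) →* ℂ) (f : ℝ → ℝ) (Ct : Ideal (𝓞 K) → ℂ) (γ : ℂ) (c₀ A : ℝ) (t₀ : 𝓞 K)
    (V : Finset (Pl K)) (d : RD K), n₁ ∣ n → Good2 n₀ n ℛ ℛ' → IsP k n Ψ → FE3 k n Ψ f Ct γ c₀ A →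
    (∀ v ∈ V, Dv n v) → N₀ ∣ d.N → d.Ok k → SC ζ t₀ V d → ∃ c X₀ : ℝ, 0 < c ∧ ∀ X, X₀ ≤ X →
      ∃ 𝒢 : Finset (𝓞 K), c * X ≤ 𝒢.card ∧ Set.InjOn sp (𝒢 : Set (𝓞 K)) ∧ ∀ t ∈ 𝒢,
        Pri (n ^ 2) t ∧ NN (sp t) ≤ X ∧ Finite (Wb (-((ζ : K) * (t₀ * t) ^ 2))).toAffine.Point ∧
          Lam f Ψ t ≠ 0

end Rel

/-- the theorem -/
def Y_TOP (K : Type) [Field K] [NumberField K] : Prop :=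
  ∀ (ζ : 𝓞 K) (a : ℕ), 1 ≤ a → ζ ^ 2 ^ a = -1 → Un (ζ : K) → ∃ c X₀ : ℝ, 0 < c ∧ ∀ X, X₀ ≤ X →
    c * X ≤ Set.ncard {I : Ideal (𝓞 K) | Squarefree I ∧ NN I ≤ X ∧ ∃ (t : 𝓞 K) (J : Ideal (𝓞 K)),
      t ≠ 0 ∧ sp t = I * J ^ 2 ∧ Finite (Wb (-((ζ : K) * t ^ 2))).toAffine.Point ∧
        AnZero (Wb (-((ζ : K) * t ^ 2)))}

end Pool.Agent.P.MP_b8021b_nt.BP
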